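import Mathlib

-- merged part: Pool.Agent.Work.MP_60d5ce_nt.Sm.O
section
/-!
# The coefficient ring `O = Z_3[pi]`, `pi ^ 2 = -3`, and its digits
-/

namespace Pool.Agent.Smith

open QuadraticAlgebra

abbrev F3 : Type := ZMod 3

abbrev O : Type := QuadraticAlgebra ℤ_[3] (-3) 0

noncomputable section

/-- the uniformiser -/
def pi : O := ⟨0, 1⟩

theorem isUnit_of_mod_three {n : ℕ} (h : ¬ 3 ∣ n) : IsUnit (n : ℤ_[3]) := by
  rw [PadicInt.isUnit_iff]
  have h1 : ¬ ‖((n : ℤ) : ℤ_[3])‖ < 1 := by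
    rw [PadicInt.norm_int_lt_one_iff_dvd]; exact_mod_cast h
  have h2 := PadicInt.norm_le_one ((n : ℤ) : ℤ_[3])
  push_cast at h1 h2
  exact le_antisymm h2 (not_lt.1 h1)

/-- one half -/
def hf : ℤ_[3] := ((isUnit_of_mod_three (n := 2) (by norm_num)).unit⁻¹ : ℤ_[3]ˣ)

theorem two_mul_hf : 2 * hf = 1 := by
  have := (isUnit_of_mod_three (n := 2) (by norm_num)).mul_val_inv
  simpa only [hf, Nat.cast_ofNat] using this

/-- the cube root of unity `(-1 + pi) / 2` -/
def ze : O := ⟨-hf, hf⟩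

theorem toZMod_three : PadicInt.toZMod (3 : ℤ_[3]) = 0 := by
  rw [map_ofNat]; rfl

/-- reduction modulo `pi` -/
def res : O →+* F3 where
  toFun a := PadicInt.toZMod a.re
  map_one' := by simp
  map_mul' a b := by simp [toZMod_three]
  map_zero' := by simp
  map_add' a b := by simp

/-- the set-theoretic lift `0, 1, 2` -/
def lft (a : F3) : O := (a.val : O)

theorem pi_mul_pi : pi * pi = -3 := by ext <;> simp [pi]

theorem pi_sq : pi ^ 2 = -3 := by rw [sq, pi_mul_pi]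

theorem star_pi : star pi = -pi := by ext <;> simp [pi]

theorem three_dvd_iff (a : ℤ_[3]) : (3 : ℤ_[3]) ∣ a ↔ PadicInt.toZMod a = 0 := by
  rw [← RingHom.mem_ker, PadicInt.ker_toZMod, PadicInt.maximalIdeal_eq_span_p,
    Ideal.mem_span_singleton]
  rfl

theorem res_eq_zero_iff (a : O) : res a = 0 ↔ pi ∣ a := by
  constructor
  · intro h
    obtain ⟨c, hc⟩ := (three_dvd_iff a.re).2 h
    exact ⟨⟨a.im, -c⟩, by ext <;> simp [pi, hc]⟩
  · rintro ⟨c, rfl⟩
    rw [map_mul]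
    simp [res, pi]

@[simp] theorem res_pi : res pi = 0 := (res_eq_zero_iff _).2 dvd_rfl

@[simp] theorem res_lft (a : F3) : res (lft a) = a := by simp [lft]

@[simp] theorem lft_zero : lft 0 = 0 := by simp [lft]

@[simp] theorem res_star (a : O) : res (star a) = res a := by simp [res]

@[simp] theorem star_lft (a : F3) : star (lft a) = lft a := star_natCast _

theorem res_algebraMap (a : ℤ_[3]) : res (algebraMap ℤ_[3] O a) = PadicInt.toZMod a := rfl

theorem pi_mul_eq_zero {a : O} (h : pi * a = 0) : a = 0 := by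
  have h1 := congrArg QuadraticAlgebra.re h
  have h2 := congrArg QuadraticAlgebra.im h
  simp [pi] at h1 h2
  ext <;> simp [h1, h2]

theorem pi_pow_mul_eq_zero {j : ℕ} {a : O} (h : pi ^ j * a = 0) : a = 0 := by
  induction j with
  | zero => simpa using h
  | succ j ih => exact ih (pi_mul_eq_zero (by rw [← h]; ring))

theorem pi_pow_mul_cancel {j : ℕ} {a b : O} (h : pi ^ j * a = pi ^ j * b) : a = b :=
  sub_eq_zero.1 (pi_pow_mul_eq_zero (j := j) (by rw [mul_sub, h, sub_self]))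

theorem pow_mul_dvd_iff (i j : ℕ) (a : O) : pi ^ (i + j) ∣ pi ^ i * a ↔ pi ^ j ∣ a := by
  constructor
  · rintro ⟨c, hc⟩
    exact ⟨c, pi_pow_mul_cancel (j := i) (by rw [hc]; ring)⟩
  · rintro ⟨c, rfl⟩
    exact ⟨c, by ring⟩

theorem dvd_star_iff (j : ℕ) (a : O) : pi ^ j ∣ star a ↔ pi ^ j ∣ a := by
  have key : ∀ a : O, pi ^ j ∣ a → pi ^ j ∣ star a := by
    rintro _ ⟨c, rfl⟩
    exact ⟨(-1) ^ j * star c, by rw [star_mul', star_pow, star_pi, neg_pow]; ring⟩
  exact ⟨fun h => by simpa using key _ h, key a⟩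

theorem pi_pow_two_mul (j : ℕ) : pi ^ (2 * j) = (-3) ^ j := by rw [pow_mul, pi_sq]

theorem dvd_re_of_dvd {j : ℕ} {a : O} (h : pi ^ (2 * j) ∣ a) :
    (3 : ℤ_[3]) ^ j ∣ a.re ∧ (3 : ℤ_[3]) ^ j ∣ a.im := by
  obtain ⟨c, rfl⟩ := h
  have : ((-3 : O)) ^ j = algebraMap ℤ_[3] O ((-3) ^ j) := by simp [map_ofNat]
  rw [pi_pow_two_mul, this, ← Algebra.smul_def]
  constructor
  · exact ⟨(-1) ^ j * c.re, by simp [neg_pow (3 : ℤ_[3])]; ring⟩
  · exact ⟨(-1) ^ j * c.im, by simp [neg_pow (3 : ℤ_[3])]; ring⟩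

theorem dvd_algebraMap {j : ℕ} {a : ℤ_[3]} (h : (3 : ℤ_[3]) ^ j ∣ a) :
    pi ^ (2 * j) ∣ algebraMap ℤ_[3] O a := by
  obtain ⟨c, rfl⟩ := h
  refine ⟨(-1) ^ j * algebraMap _ _ c, ?_⟩
  rw [pi_pow_two_mul, ← mul_assoc, ← mul_pow]
  simp [map_ofNat]

theorem padic_eq_zero_of_forall_dvd {a : ℤ_[3]} (h : ∀ j : ℕ, (3 : ℤ_[3]) ^ j ∣ a) : a = 0 := by
  refine (PadicInt.ext_of_toZModPow (p := 3)).1 fun j => ?_
  rw [map_zero, ← RingHom.mem_ker, PadicInt.ker_toZModPow, Ideal.mem_span_singleton]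
  exact h j

theorem eq_zero_of_forall_dvd {a : O} (h : ∀ j, pi ^ j ∣ a) : a = 0 := by
  ext
  · exact padic_eq_zero_of_forall_dvd fun j => (dvd_re_of_dvd (h _)).1
  · exact padic_eq_zero_of_forall_dvd fun j => (dvd_re_of_dvd (h _)).2

theorem exists_tl (a : O) : ∃ b, a = lft (res a) + pi * b := by
  obtain ⟨b, hb⟩ := (res_eq_zero_iff (a - lft (res a))).1 (by simp)
  exact ⟨b, by rw [← hb]; ring⟩

/-- the tail `(a - lft (res a)) / pi` -/
def tl (a : O) : O := (exists_tl a).choose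

theorem tl_spec (a : O) : a = lft (res a) + pi * tl a := (exists_tl a).choose_spec

theorem tl_eq {a b : O} {c : F3} (h : a = lft c + pi * b) : tl a = b := by
  have h1 : res a = c := by rw [h]; simp
  have h2 := tl_spec a
  rw [h1] at h2
  exact pi_pow_mul_cancel (j := 1) (by linear_combination h - h2)

/-- the `j`-th digit; for `a` divisible by `pi ^ j` it is the residue of `a / pi ^ j` -/
def dig (j : ℕ) (a : O) : F3 := res (tl^[j] a)

@[simp] theorem dig_zero (a : O) : dig 0 a = res a := rfl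

theorem dig_succ (j : ℕ) (a : O) : dig (j + 1) a = dig j (tl a) := rfl

theorem dig_pow_mul (j : ℕ) (a : O) : dig j (pi ^ j * a) = res a := by
  induction j with
  | zero => simp
  | succ j ih => rw [dig_succ, tl_eq (c := 0) (b := pi ^ j * a) (by simp; ring), ih]

@[simp] theorem dig_zero' (j : ℕ) : dig j 0 = 0 := by simpa using dig_pow_mul j 0

theorem dig_congr {j : ℕ} {a b : O} (h : pi ^ (j + 1) ∣ a - b) : dig j a = dig j b := by
  induction j generalizing a b with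
  | zero =>
    have := (res_eq_zero_iff _).2 (by simpa using h)
    simpa [sub_eq_zero] using this
  | succ j ih =>
    obtain ⟨c, hc⟩ := h
    have : tl a = tl b + pi ^ (j + 1) * c :=
      tl_eq (c := res b) (by linear_combination hc + tl_spec b)
    rw [dig_succ, dig_succ]
    exact ih ⟨c, by rw [this]; ring⟩

theorem dvd_sub_of_dig_eq {n : ℕ} {a b : O} (h : ∀ j < n, dig j a = dig j b) : pi ^ n ∣ a - b := by
  induction n generalizing a b with
  | zero => simp
  | succ n ih =>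
    obtain ⟨c, hc⟩ := ih (a := tl a) (b := tl b) fun j hj => h (j + 1) (by omega)
    have h0 : res a = res b := h 0 (by omega)
    refine ⟨c, ?_⟩
    have h1 := tl_spec a
    rw [h0] at h1
    linear_combination h1 - tl_spec b + pi * hc

theorem eq_pow_mul_lft_dig {j : ℕ} {a : O} (h : pi ^ j ∣ a) :
    pi ^ (j + 1) ∣ a - pi ^ j * lft (dig j a) := by
  obtain ⟨c, rfl⟩ := h
  rw [dig_pow_mul]
  exact ⟨tl c, by linear_combination pi ^ j * tl_spec c⟩

theorem dig_eq_zero_iff {j : ℕ} {a : O} (h : pi ^ j ∣ a) : dig j a = 0 ↔ pi ^ (j + 1) ∣ a := by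
  obtain ⟨c, rfl⟩ := h
  rw [dig_pow_mul, res_eq_zero_iff, pow_mul_dvd_iff, pow_one]

theorem dig_of_dvd {j : ℕ} {a : O} (h : pi ^ (j + 1) ∣ a) : dig j a = 0 :=
  (dig_eq_zero_iff ((pow_dvd_pow _ (Nat.le_succ j)).trans h)).2 h

theorem dig_add {j : ℕ} {a b : O} (ha : pi ^ j ∣ a) (hb : pi ^ j ∣ b) :
    dig j (a + b) = dig j a + dig j b := by
  obtain ⟨c, rfl⟩ := ha
  obtain ⟨d, rfl⟩ := hb
  rw [← mul_add, dig_pow_mul, dig_pow_mul, dig_pow_mul, map_add]

theorem dig_mul {i j : ℕ} {a b : O} (ha : pi ^ i ∣ a) (hb : pi ^ j ∣ b) :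
    dig (i + j) (a * b) = dig i a * dig j b := by
  obtain ⟨c, rfl⟩ := ha
  obtain ⟨d, rfl⟩ := hb
  rw [show pi ^ i * c * (pi ^ j * d) = pi ^ (i + j) * (c * d) by ring, dig_pow_mul, dig_pow_mul,
    dig_pow_mul, map_mul]

theorem dig_mul_left {j : ℕ} (a : O) {b : O} (hb : pi ^ j ∣ b) :
    dig j (a * b) = res a * dig j b := by
  simpa using dig_mul (i := 0) (a := a) (by simp) hb

theorem dig_neg {j : ℕ} {a : O} (ha : pi ^ j ∣ a) : dig j (-a) = -dig j a := by
  simpa using dig_mul_left (-1) ha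

theorem dig_sub {j : ℕ} {a b : O} (ha : pi ^ j ∣ a) (hb : pi ^ j ∣ b) :
    dig j (a - b) = dig j a - dig j b := by
  rw [sub_eq_add_neg, dig_add ha hb.neg_right, dig_neg hb, sub_eq_add_neg]

theorem dig_sum {ι : Type*} {j : ℕ} (s : Finset ι) {a : ι → O} (ha : ∀ i ∈ s, pi ^ j ∣ a i) :
    dig j (∑ i ∈ s, a i) = ∑ i ∈ s, dig j (a i) := by
  classical
  induction s using Finset.induction_on with
  | empty => simp
  | insert i s hi ih =>
    rw [Finset.sum_insert hi, Finset.sum_insert hi, dig_add (ha i (Finset.mem_insert_self _ _))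
      (Finset.dvd_sum fun l hl => ha l (Finset.mem_insert_of_mem hl)),
      ih fun l hl => ha l (Finset.mem_insert_of_mem hl)]

theorem dig_star {j : ℕ} {a : O} (ha : pi ^ j ∣ a) : dig j (star a) = (-1) ^ j * dig j a := by
  obtain ⟨c, rfl⟩ := ha
  rw [star_mul', star_pow, star_pi, neg_pow,
    show (-1) ^ j * pi ^ j * star c = pi ^ j * ((-1) ^ j * star c) by ring, dig_pow_mul, dig_pow_mul]
  simp

theorem ze_sq_add : ze ^ 2 + ze + 1 = 0 := by
  have := two_mul_hf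
  ext <;> simp [ze, sq]
  · linear_combination (-hf - 1) * this
  · linear_combination (-hf) * this

theorem ze_cube : ze ^ 3 = 1 := by linear_combination (ze - 1) * ze_sq_add

theorem star_ze : star ze = ze ^ 2 := by
  have := two_mul_hf
  ext <;> simp [ze, sq]
  · linear_combination hf * this
  · linear_combination hf * this

theorem ze_sub_one : pi ^ 2 ∣ ze - 1 + pi := by
  have := two_mul_hf
  refine ⟨⟨hf, -hf⟩, ?_⟩
  rw [pi_sq]
  ext <;> simp [ze, pi]
  · linear_combination this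
  · linear_combination (-1) * this

/-- `zeta ^ x` -/
def zp (x : F3) : O := ze ^ x.val

@[simp] theorem zp_zero : zp 0 = 1 := by simp [zp]

theorem zp_one : zp 1 = ze := by simp [zp, ZMod.val_one]

theorem zp_natCast (n : ℕ) : zp (n : F3) = ze ^ n := by
  rw [zp, ZMod.val_natCast]
  conv_rhs => rw [← Nat.div_add_mod n 3, pow_add, pow_mul, ze_cube, one_pow, one_mul]

theorem zp_add (x y : F3) : zp (x + y) = zp x * zp y := by
  rw [← ZMod.natCast_zmod_val x, ← ZMod.natCast_zmod_val y, ← Nat.cast_add, zp_natCast, zp_natCast,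
    zp_natCast, pow_add]

theorem star_zp (x : F3) : star (zp x) = zp (-x) := by
  rw [zp, star_pow, star_ze, ← pow_mul, ← zp_natCast]
  congr 1
  push_cast
  rw [ZMod.natCast_zmod_val]
  have : (3 : F3) = 0 := rfl
  linear_combination x * this

theorem zp_mul_star (x : F3) : zp x * star (zp x) = 1 := by
  rw [star_zp, ← zp_add, add_neg_cancel, zp_zero]

theorem zp_sub_one (x : F3) : pi ^ 2 ∣ zp x - 1 + pi * lft x := by
  obtain ⟨c, hc⟩ := ze_sub_one
  have h2 : (2 : F3).val = 2 := rfl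
  have hx : x = 0 ∨ x = 1 ∨ x = 2 := by revert x; decide
  rcases hx with rfl | rfl | rfl
  · simp
  · simpa [zp_one, lft, ZMod.val_one] using ze_sub_one
  · refine ⟨c * (ze + 1) + 1 - pi * c, ?_⟩
    simp only [zp, lft, h2]
    push_cast
    linear_combination (ze + 1 - pi) * hc

theorem pi_dvd_zp_sub_one (x : F3) : pi ∣ zp x - 1 := by
  obtain ⟨c, hc⟩ := zp_sub_one x
  exact ⟨pi * c - lft x, by linear_combination hc⟩

@[simp] theorem res_zp (x : F3) : res (zp x) = 1 := by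
  have := (res_eq_zero_iff _).2 (pi_dvd_zp_sub_one x)
  simpa [sub_eq_zero] using this

theorem dig_one_zp_sub_one (x : F3) : dig 1 (zp x - 1) = -x := by
  rw [dig_congr (b := pi ^ 1 * -lft x) (by simpa using zp_sub_one x), dig_pow_mul]
  simp

theorem isUnit_of_res_ne_zero {a : O} (h : res a ≠ 0) : IsUnit a := by
  rw [isUnit_iff_norm_isUnit, norm_def, ← IsLocalRing.notMem_maximalIdeal, ← PadicInt.ker_toZMod,
    RingHom.mem_ker]
  have : PadicInt.toZMod a.re ≠ 0 := h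
  simp [toZMod_three, this]

theorem res_natCast_of_mod {n : ℕ} (h : n % 3 = 1) : res (n : O) = 1 := by
  rw [map_natCast, ← Nat.div_add_mod n 3, h]
  push_cast
  have : (3 : F3) = 0 := rfl
  rw [this]; simp

instance instNoZeroDivisorsO : NoZeroDivisors O where
  eq_zero_or_eq_zero_of_mul_eq_zero {a b} h := by
    have key : ∀ c : O, c ≠ 0 → ∃ j u, IsUnit u ∧ c = pi ^ j * u := by
      classical
      intro c hc
      have hex : ∃ j, ¬ pi ^ (j + 1) ∣ c := by
        by_contra hn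
        push Not at hn
        exact hc (eq_zero_of_forall_dvd fun j => (pow_dvd_pow _ (Nat.le_succ j)).trans (hn j))
      have h1 := Nat.find_spec hex
      have h2 : pi ^ Nat.find hex ∣ c := by
        rcases h0 : Nat.find hex with _ | m
        · simp
        · have := Nat.find_min hex (m := m) (by omega)
          simpa using this
      generalize Nat.find hex = m at h1 h2
      obtain ⟨u, hu⟩ := h2
      refine ⟨_, u, isUnit_of_res_ne_zero fun hr => h1 ?_, hu⟩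
      rw [hu, pow_mul_dvd_iff, pow_one]
      exact (res_eq_zero_iff _).1 hr
    by_contra hn
    push Not at hn
    obtain ⟨i, u, hu, rfl⟩ := key a hn.1
    obtain ⟨j, v, hv, rfl⟩ := key b hn.2
    have : u * v = 0 := pi_pow_mul_eq_zero (j := i + j) (by rw [← h]; ring)
    exact (hu.mul hv).ne_zero this

/-- vectors -/
abbrev V : Type := Fin 2 → O

/-- vectors modulo `pi` -/
abbrev Vb : Type := Fin 2 → F3

/-- divisibility of a vector by `pi ^ j` -/
def VD (j : ℕ) (a : V) : Prop := ∀ i, pi ^ j ∣ a i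

/-- digit of a vector -/
def digV (j : ℕ) (a : V) : Vb := fun i => dig j (a i)

/-- lift of a vector -/
def lftV (a : Vb) : V := fun i => lft (a i)

/-- the hermitian form -/
def hh (a b : V) : O := a 0 * star (b 1) + a 1 * star (b 0)

/-- its symmetric reduction -/
def hb (a b : Vb) : F3 := a 0 * b 1 + a 1 * b 0

theorem VD.zero (j : ℕ) : VD j 0 := fun _ => dvd_zero _

theorem VD.triv (a : V) : VD 0 a := fun _ => by simp

theorem VD.add {j : ℕ} {a b : V} (ha : VD j a) (hb : VD j b) : VD j (a + b) :=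
  fun i => (ha i).add (hb i)

theorem VD.neg {j : ℕ} {a : V} (ha : VD j a) : VD j (-a) := fun i => (ha i).neg_right

theorem VD.sub {j : ℕ} {a b : V} (ha : VD j a) (hb : VD j b) : VD j (a - b) :=
  fun i => (ha i).sub (hb i)

theorem VD.smul {j : ℕ} {a : V} (ha : VD j a) (c : O) : VD j (c • a) :=
  fun i => (ha i).mul_left c

theorem VD.mono {i j : ℕ} {a : V} (ha : VD j a) (h : i ≤ j) : VD i a :=
  fun l => (pow_dvd_pow _ h).trans (ha l)

theorem VD.sum {ι : Type*} {j : ℕ} (s : Finset ι) {a : ι → V} (ha : ∀ i ∈ s, VD j (a i)) :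
    VD j (∑ i ∈ s, a i) := fun l => by
  rw [Finset.sum_apply]; exact Finset.dvd_sum fun i hi => ha i hi l

theorem VD.mulVec {j : ℕ} {a : V} (ha : VD j a) (A : Matrix (Fin 2) (Fin 2) O) :
    VD j (A.mulVec a) := fun i => by
  simp only [Matrix.mulVec, dotProduct]
  exact Finset.dvd_sum fun l _ => (ha l).mul_left _

theorem VD.exists {j : ℕ} {a : V} (ha : VD j a) : ∃ b : V, a = pi ^ j • b := by
  choose b hb using ha
  exact ⟨b, funext hb⟩

theorem VD_pow_smul (j : ℕ) (a : V) : VD j (pi ^ j • a) := fun _ => Dvd.intro _ rfl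

theorem VD_pow_smul_iff (i j : ℕ) (a : V) : VD (i + j) (pi ^ i • a) ↔ VD j a :=
  forall_congr' fun l => pow_mul_dvd_iff i j (a l)

theorem digV_pow_smul (j : ℕ) (a : V) : digV j (pi ^ j • a) = digV 0 a :=
  funext fun l => dig_pow_mul j (a l)

theorem digV_congr {j : ℕ} {a b : V} (h : VD (j + 1) (a - b)) : digV j a = digV j b :=
  funext fun l => dig_congr (h l)

theorem digV_eq_zero_iff {j : ℕ} {a : V} (h : VD j a) : digV j a = 0 ↔ VD (j + 1) a := by
  rw [funext_iff]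
  exact forall_congr' fun l => dig_eq_zero_iff (h l)

theorem digV_add {j : ℕ} {a b : V} (ha : VD j a) (hb : VD j b) :
    digV j (a + b) = digV j a + digV j b := funext fun l => dig_add (ha l) (hb l)

theorem digV_sub {j : ℕ} {a b : V} (ha : VD j a) (hb : VD j b) :
    digV j (a - b) = digV j a - digV j b := funext fun l => dig_sub (ha l) (hb l)

theorem digV_smul {j : ℕ} (c : O) {a : V} (ha : VD j a) : digV j (c • a) = res c • digV j a :=
  funext fun l => dig_mul_left c (ha l)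

theorem digV_sum {ι : Type*} {j : ℕ} (s : Finset ι) {a : ι → V} (ha : ∀ i ∈ s, VD j (a i)) :
    digV j (∑ i ∈ s, a i) = ∑ i ∈ s, digV j (a i) := funext fun l => by
  simp only [digV, Finset.sum_apply]
  exact dig_sum s fun i hi => ha i hi l

@[simp] theorem digV_lftV (a : Vb) : digV 0 (lftV a) = a := funext fun l => res_lft (a l)

theorem VD_sub_lftV {j : ℕ} {a : V} (h : VD j a) : VD (j + 1) (a - pi ^ j • lftV (digV j a)) :=
  fun l => eq_pow_mul_lft_dig (h l)

theorem hb_comm (a b : Vb) : hb a b = hb b a := by simp only [hb]; ring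

theorem star_hh (a b : V) : star (hh a b) = hh b a := by
  simp only [hh, star_add, star_mul', star_star]; ring

theorem hh_dvd {i j : ℕ} {a b : V} (ha : VD i a) (hb : VD j b) : pi ^ (i + j) ∣ hh a b := by
  rw [pow_add]
  exact (mul_dvd_mul (ha 0) ((dvd_star_iff _ _).2 (hb 1))).add
    (mul_dvd_mul (ha 1) ((dvd_star_iff _ _).2 (hb 0)))

theorem dig_hh {i j : ℕ} {a b : V} (ha : VD i a) (hb' : VD j b) :
    dig (i + j) (hh a b) = (-1) ^ j * hb (digV i a) (digV j b) := by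
  have h1 := (dvd_star_iff _ _).2 (hb' 1)
  have h0 := (dvd_star_iff _ _).2 (hb' 0)
  rw [hh, dig_add (by rw [pow_add]; exact mul_dvd_mul (ha 0) h1)
    (by rw [pow_add]; exact mul_dvd_mul (ha 1) h0), dig_mul (ha 0) h1, dig_mul (ha 1) h0,
    dig_star (hb' 1), dig_star (hb' 0)]
  simp only [hb, digV]
  ring

end

end Pool.Agent.Smith
end

-- merged part: Pool.Agent.Work.MP_60d5ce_nt.Sm.Tame
section
/-!
# Tame data: the arithmetic input of the method, as a structure on an abstract group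

`W` is the Weil group of `k(t)`, `P` the set of places.  See `/team-store/h4_smith_plan.md`.
-/

namespace Pool.Agent.Smith

open scoped Classical

noncomputable section

/-- the bare data -/
structure Pre (W P : Type) [Group W] where
  q : ℕ
  deg : W → ℤ
  deg_mul : ∀ g h, deg (g * h) = deg g + deg h
  dg : P → ℕ
  inf : P
  σ : P → W
  τ : P → W
  Adm : Subgroup W → Prop

variable {W P : Type} [Group W]

namespace Pre

variable (T : Pre W P)

theorem deg_one : T.deg 1 = 0 := by simpa using T.deg_mul 1 1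

theorem deg_inv (g : W) : T.deg g⁻¹ = -T.deg g := by
  have := T.deg_mul g g⁻¹
  rw [mul_inv_cancel, T.deg_one] at this
  omega

/-- the geometric group -/
def G0 : Subgroup W where
  carrier := {g | T.deg g = 0}
  mul_mem' {a b} ha hb := by
    simp only [Set.mem_ofPred_eq] at *
    rw [T.deg_mul, ha, hb, add_zero]
  one_mem' := T.deg_one
  inv_mem' {a} ha := by
    simp only [Set.mem_ofPred_eq] at *
    rw [T.deg_inv, ha, neg_zero]

/-- the residue cardinality -/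
def Q (v : P) : ℕ := T.q ^ T.dg v

/-- the local group -/
def D (v : P) : Subgroup W := Subgroup.closure {T.σ v, T.τ v}

/-- smooth functions -/
def Sm {A : Type*} (f : W → A) : Prop := ∃ U, T.Adm U ∧ ∀ g, ∀ u ∈ U, f (g * u) = f g

/-- smooth functions of two variables -/
def Sm2 {A : Type*} (θ : W → W → A) : Prop :=
  ∃ U, T.Adm U ∧ ∀ g h, ∀ u ∈ U, ∀ u' ∈ U, θ (g * u) (h * u') = θ g h

/-- smooth homomorphisms to an additive group -/
def IsHom {A : Type*} [Add A] (x : W → A) : Prop := T.Sm x ∧ ∀ g h, x (g * h) = x g + x h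

/-- the local invariant of a function of two variables -/
def inv {A : Type*} [AddCommGroup A] (v : P) (θ : W → W → A) : A :=
  θ (T.σ v) (T.τ v) - θ (T.τ v ^ T.Q v) (T.σ v) - ∑ i ∈ Finset.Ico 1 (T.Q v), θ (T.τ v ^ i) (T.τ v)

/-- the error term of the Chebotarev estimate -/
def err (N c e : ℕ) : ℝ := 18 * (N : ℝ) ^ 2 * (c + 1) * (T.q : ℝ) ^ ((e + 1) / 2)

end Pre

/-- 2-cocycles with trivial action -/
def IsCoc2 {A : Type*} [AddCommGroup A] (θ : W → W → A) : Prop :=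
  ∀ g h k, θ h k - θ (g * h) k + θ g (h * k) - θ g h = 0

/-- the axioms -/
structure Tame (W P : Type) [Group W] extends Pre W P where
  q_mod : q % 3 = 1
  q_ge : 4 ≤ q
  dg_pos : ∀ v, 0 < dg v
  dg_fin : ∀ e, {v | dg v = e}.Finite
  dg_inf : dg inf = 1
  deg_σ : ∀ v, deg (σ v) = dg v
  deg_τ : ∀ v, deg (τ v) = 0
  adm_G0 : Adm toPre.G0
  adm_normal : ∀ U, Adm U → U.Normal
  adm_le : ∀ U, Adm U → U ≤ toPre.G0
  adm_inf : ∀ U U', Adm U → Adm U' → Adm (U ⊓ U')
  adm_mono : ∀ U U', Adm U → U ≤ U' → U'.Normal → U' ≤ toPre.G0 → Adm U'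
  adm_index : ∀ U, Adm U → U.relIndex toPre.G0 ≠ 0
  rel : ∀ U, Adm U → ∀ v, (σ v * τ v)⁻¹ * (τ v ^ toPre.Q v * σ v) ∈ U
  fin : ∀ U, Adm U → {v | τ v ∉ U}.Finite
  χ : P → W → F3
  χ_hom : ∀ v, toPre.IsHom (χ v)
  χ_self : ∀ v, v ≠ inf → χ v (τ v) = 1
  χ_ne : ∀ v w, w ≠ v → w ≠ inf → χ v (τ w) = 0
  χ_inf : ∀ v, χ v (σ inf) = 0
  uniq : ∀ h : W → F3, toPre.IsHom h → (∀ v, v ≠ inf → h (τ v) = 0) → h (σ inf) = 0 → h = 0
  recip : ∀ θ : W → W → F3, toPre.Sm2 θ → IsCoc2 θ → ∀ S : Finset P,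
    (∀ v ∉ S, toPre.inv v θ = 0) → ∑ v ∈ S, toPre.inv v θ = 0
  hasse : ∀ θ : W → W → F3, toPre.Sm2 θ → IsCoc2 θ → (∀ v, toPre.inv v θ = 0) →
    ∃ b : W → F3, toPre.Sm b ∧ ∀ g h, θ g h = b g + b h - b (g * h)
  cheb : ∀ U, Adm U → ∀ N : ℕ, U.relIndex toPre.G0 ≤ N → ∀ A : Finset P, inf ∈ A →
    (∀ v ∉ A, τ v ∈ U) → ∀ E : Set W, (∀ g ∈ E, ∀ u ∈ U, g * u ∈ E) →
    (∀ g ∈ E, ∀ h, h * g * h⁻¹ ∈ E) → ∀ e : ℕ, 0 < e → ∀ (J : Type) [Fintype J] [Nonempty J]
    (z : J → W), (∀ j, deg (z j) = 0) → ∀ θ : ℝ,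
    (∀ g, deg g = e → (({j | g * z j ∈ E} : Set J).ncard : ℝ) ≤ θ * Fintype.card J) →
    (e : ℝ) * ({v | dg v = e ∧ v ∉ A ∧ σ v ∈ E}.ncard : ℝ) ≤
      θ * ((q : ℝ) ^ e + toPre.err N (∑ v ∈ A, dg v) e)
  pnt : ∀ e : ℕ, 0 < e →
    (q : ℝ) ^ e ≤ e * ({v | dg v = e ∧ v ≠ inf}.ncard : ℝ) + 2 * (q : ℝ) ^ ((e + 1) / 2)

namespace Tame

variable (T : Tame W P)

theorem isUnit_q : IsUnit (T.q : O) :=
  isUnit_of_res_ne_zero (by rw [res_natCast_of_mod T.q_mod]; exact one_ne_zero)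

/-- the cyclotomic character `q ^ deg` -/
def cq (g : W) : O := ((T.isUnit_q.unit ^ T.deg g : Oˣ) : O)

/-- homomorphisms to `F3 ^ 2` unramified at the finite places outside `A` -/
def HomU (A : Finset P) : Set (W → Vb) :=
  {h | T.IsHom h ∧ ∀ v ∉ A, v ≠ T.inf → h (T.τ v) = 0}

/-- the local pairing of two homomorphisms -/
def br (v : P) (a b : W → Vb) : F3 := hb (a (T.σ v)) (b (T.τ v)) - hb (a (T.τ v)) (b (T.σ v))

end Tame

/-- the representation on the hermitian lattice -/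
structure Rep (T : Tame W P) where
  ρ : W → Matrix (Fin 2) (Fin 2) O
  ρ_one : ρ 1 = 1
  ρ_mul : ∀ g h, ρ (g * h) = ρ g * ρ h
  S : Finset P
  inf_mem : T.inf ∈ S
  unr : ∀ v ∉ S, ρ (T.τ v) = 1
  sm : ∀ j : ℕ, ∃ U, T.Adm U ∧ ∀ u ∈ U, ∀ a b, pi ^ j ∣ (ρ u - 1) a b
  one_mod : ∀ g a b, pi ∣ (ρ g - 1) a b
  herm : ∀ g a b, hh ((ρ g).mulVec a) ((ρ g).mulVec b) = T.cq g * hh a b
  ram01 : ∃ s ∈ S, s ≠ T.inf ∧ dig 1 ((ρ (T.τ s) - 1) 0 1) ≠ 0
  ram10 : ∃ s ∈ S, s ≠ T.inf ∧ dig 1 ((ρ (T.τ s) - 1) 1 0) ≠ 0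

namespace Rep

variable {T : Tame W P} (R : Rep T)

/-- `rho = 1 + pi * M` -/
def M (g : W) : Matrix (Fin 2) (Fin 2) F3 := fun a b => dig 1 ((R.ρ g - 1) a b)

/-- the action twisted by the character `x` -/
def act (x : W → F3) (g : W) (t : V) : V := zp (x g) • (R.ρ g).mulVec t

/-- smooth cocycles modulo `pi ^ j` -/
def Coc (x : W → F3) (j : ℕ) (ψ : W → V) : Prop :=
  (∃ U, T.Adm U ∧ ∀ g, ∀ u ∈ U, VD j (ψ (g * u) - ψ g)) ∧
    ∀ g h, VD j (ψ g + R.act x g (ψ h) - ψ (g * h))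

/-- local cocycles that are coboundaries of torsion points -/
def LTyp (x : W → F3) (v : P) (l : W → V) : Prop :=
  ∃ (m : ℕ) (t : V), ∀ g ∈ T.D v, pi ^ m • l g = R.act x g t - t

/-- the local condition modulo `pi ^ j` -/
def LocOK (x : W → F3) (j : ℕ) (ψ : W → V) (v : P) : Prop :=
  ∃ l, R.LTyp x v l ∧ ∀ g ∈ T.D v, VD j (ψ g - l g)

/-- Selmer cocycles: local condition on `A`, unramified outside -/
def Sel (A : Finset P) (x : W → F3) (j : ℕ) (ψ : W → V) : Prop :=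
  R.Coc x j ψ ∧ (∀ v ∈ A, R.LocOK x j ψ v) ∧ ∀ v ∉ A, VD j (ψ (T.τ v))

/-- Selmer cocycles: local condition everywhere -/
def StrongSel (x : W → F3) (j : ℕ) (ψ : W → V) : Prop := R.Coc x j ψ ∧ ∀ v, R.LocOK x j ψ v

/-- the trivial classes of level one -/
def wt (x : W → F3) (t : Vb) (g : W) : Vb := (-x g) • t + (R.M g).mulVec t

/-- only trivial classes survive to level `K` -/
def Triv (x : W → F3) (K : ℕ) : Prop :=
  ∀ ψ, R.StrongSel x K ψ → ∃ t : Vb, ∀ g, digV 0 (ψ g) = R.wt x t g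

/-- the level one condition at a prime where `x (τ v) = 1`; `s` is the value `x (σ v)` -/
def Lc (s : F3) (v : P) (w : W → Vb) : Prop :=
  w (T.σ v) = s • w (T.τ v) - (R.M (T.σ v)).mulVec (w (T.τ v))

/-- `w` lifts to a Selmer cocycle of level `j` -/
def Lifts (A : Finset P) (x : W → F3) (j : ℕ) (w : W → Vb) : Prop :=
  ∃ ψ, R.Sel A x j ψ ∧ ∀ g, digV 0 (ψ g) = w g

/-- admissible cocycles of level `k + 1`: Selmer of level `k` for `A`, unramified modulo
`pi ^ (k + 1)` outside `A'` -/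
def Admi (A A' : Finset P) (x : W → F3) (k : ℕ) (ψ : W → V) : Prop :=
  R.Coc x (k + 1) ψ ∧ R.Sel A x k ψ ∧ ∀ v ∉ A', VD (k + 1) (ψ (T.τ v))

/-- a chosen local lift -/
def lch (x : W → F3) (k : ℕ) (ψ : W → V) (v : P) : W → V :=
  if h : R.LocOK x k ψ v then h.choose else 0

/-- the local term of the diagonal Cassels-Tate pairing -/
def fv (A : Finset P) (x : W → F3) (k : ℕ) (ψ : W → V) (v : P) : F3 :=
  if v ∈ A then T.br v (fun g => digV k (ψ g - R.lch x k ψ v g)) fun g => digV 0 (ψ g)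
  else -hb (digV k (ψ (T.τ v))) (digV 0 (ψ (T.σ v)))

/-- cup product -/
def cup (x : W → F3) (a b : W → V) (g h : W) : O := hh (a g) (R.act x g (b h))

end Rep

end

end Pool.Agent.Smith
end

-- merged part: Pool.Agent.Work.MP_60d5ce_nt.Sm.Gal
section
/-!
# The Weil group of `k(t)`, places, admissible subgroups, local models: definitions
-/

namespace Pool.Agent.Smith

open scoped Classical
open Polynomial

noncomputable section

variable (k : Type) [Field k] [Fintype k] (Ω : Type) [Field Ω] [Algebra (RatFunc k) Ω]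
  [Algebra k Ω] [IsScalarTower k (RatFunc k) Ω]

/-- the constants -/
abbrev Kb : Type := algebraicClosure k Ω

/-- the variable -/
def tt : Ω := algebraMap (RatFunc k) Ω RatFunc.X

theorem transcendental_tt : Transcendental (Kb k Ω) (tt k Ω) := by
  refine Transcendental.algebraicClosure ?_
  exact (transcendental_algebraMap_iff (algebraMap (RatFunc k) Ω).injective).2
    RatFunc.transcendental_X

theorem aeval_tt_injective : Function.Injective (aeval (tt k Ω) : (Kb k Ω)[X] →ₐ[Kb k Ω] Ω) :=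
  transcendental_iff_injective.1 (transcendental_tt k Ω)

/-- the geometric function field inside `Ω` -/
def jK : RatFunc (Kb k Ω) →ₐ[Kb k Ω] Ω :=
  RatFunc.liftAlgHom (aeval (tt k Ω))
    (nonZeroDivisors_le_comap_nonZeroDivisors_of_injective _ (aeval_tt_injective k Ω))

instance algGeom : Algebra (RatFunc (Kb k Ω)) Ω := (jK k Ω).toRingHom.toAlgebra

instance towerGeom : IsScalarTower (Kb k Ω) (RatFunc (Kb k Ω)) Ω :=
  IsScalarTower.of_algebraMap_eq fun c => ((jK k Ω).commutes c).symm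

theorem algebraMap_geom (a : RatFunc (Kb k Ω)) : algebraMap (RatFunc (Kb k Ω)) Ω a = jK k Ω a := rfl

theorem jK_poly (p : (Kb k Ω)[X]) :
    jK k Ω (algebraMap (Kb k Ω)[X] (RatFunc (Kb k Ω)) p) = aeval (tt k Ω) p := by
  have := RatFunc.liftAlgHom_apply_div (aeval (tt k Ω) : (Kb k Ω)[X] →ₐ[Kb k Ω] Ω)
    (nonZeroDivisors_le_comap_nonZeroDivisors_of_injective _ (aeval_tt_injective k Ω)) p 1
  simpa [jK] using this

/-- Frobenius of the constants -/
def frob : Kb k Ω ≃ₐ[k] Kb k Ω := FiniteField.frobeniusAlgEquivOfAlgebraic k (Kb k Ω)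

/-- the absolute Galois group -/
abbrev Gam : Type := Ω ≃ₐ[RatFunc k] Ω

/-- the Weil group as a subgroup of `Gam × ℤ` -/
def WSub : Subgroup (Gam k Ω × Multiplicative ℤ) where
  carrier := {z | ∀ c : Kb k Ω, z.1 c = ((frob k Ω ^ z.2.toAdd) c : Kb k Ω)}
  mul_mem' {a b} ha hb c := by
    simp only [Set.mem_ofPred_eq] at ha hb
    simp only [Prod.fst_mul, AlgEquiv.mul_apply, Prod.snd_mul, toAdd_mul, zpow_add]
    rw [hb, ha]
  one_mem' c := by simp
  inv_mem' {a} ha c := by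
    simp only [Set.mem_ofPred_eq] at ha
    simp only [Prod.fst_inv, Prod.snd_inv, toAdd_inv, zpow_neg]
    rw [AlgEquiv.aut_inv, AlgEquiv.symm_apply_eq, ha, ← AlgEquiv.mul_apply, mul_inv_cancel]
    rfl

/-- the Weil group -/
abbrev WG : Type := WSub k Ω

variable {k Ω}

/-- the underlying automorphism -/
def gal : WG k Ω →* Gam k Ω := (MonoidHom.fst _ _).comp (WSub k Ω).subtype

/-- the degree -/
def wdeg (g : WG k Ω) : ℤ := g.1.2.toAdd

theorem wdeg_mul (g h : WG k Ω) : wdeg (g * h) = wdeg g + wdeg h := rfl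

theorem gal_const (g : WG k Ω) (c : Kb k Ω) : gal g c = ((frob k Ω ^ wdeg g) c : Kb k Ω) := g.2 c

/-- admissible subgroups -/
def Adm (U : Subgroup (WG k Ω)) : Prop :=
  U.Normal ∧ (∀ u ∈ U, wdeg u = 0) ∧
    (∃ S : Finset Ω, ∀ g, wdeg g = 0 → (∀ a ∈ S, gal g a = a) → g ∈ U) ∧
    ∀ g, wdeg g = 0 → ∃ j : ℕ, g ^ 3 ^ j ∈ U

variable (k) in
/-- places of `k(t)` -/
abbrev Pl : Type := Option {p : k[X] // p.Monic ∧ Irreducible p}

/-- degree of a place -/
def pdg : Pl k → ℕ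
  | none => 1
  | some p => p.1.natDegree

/-- local uniformiser attached to a geometric point -/
def unif (v : Pl k) (x : Kb k Ω) : Ω :=
  match v with
  | none => (tt k Ω)⁻¹
  | some _ => tt k Ω - x

variable (Ω) in
/-- a local model at the place `v` -/
structure Loc (ζ : k) (v : Pl k) where
  L : Type
  Λ : Type
  [iL : NontriviallyNormedField L]
  [cL : CompleteSpace L]
  [uL : IsUltrametricDist L]
  [aL : Algebra (RatFunc k) L]
  [fΛ : Field Λ]
  [aΛ : Algebra L Λ]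
  [aΛ' : Algebra (RatFunc k) Λ]
  [tΛ : IsScalarTower (RatFunc k) L Λ]
  [sΛ : IsSepClosure L Λ]
  ι : Ω →ₐ[RatFunc k] Λ
  wΛ : AbsoluteValue Λ ℝ
  wΛ_eq : ∀ a, wΛ a = spectralNorm L Λ a
  wΛ_na : IsNonarchimedean wΛ
  wΛ_iso : ∀ (s : Λ ≃ₐ[L] Λ) a, wΛ (s a) = wΛ a
  L_disc : ∀ a : L, a ≠ 0 → ∃ n : ℤ, ‖a‖ = 2 ^ n
  σh : Λ ≃ₐ[L] Λ
  τh : Λ ≃ₐ[L] Λ
  σh_res : ∀ a, wΛ a ≤ 1 → wΛ (σh a - a ^ Fintype.card k ^ pdg v) < 1
  τh_res : ∀ a, wΛ a ≤ 1 → wΛ (τh a - a) < 1
  Λ_res : ∀ a, wΛ a ≤ 1 → ∃ c : Kb k Ω, wΛ (a - ι c) < 1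
  σ : WG k Ω
  τ : WG k Ω
  ι_σ : ∀ a, ι (gal σ a) = σh (ι a)
  ι_τ : ∀ a, ι (gal τ a) = τh (ι a)
  deg_σ : wdeg σ = pdg v
  deg_τ : wdeg τ = 0
  x : Kb k Ω
  root : ∀ p, v = some p → aeval x p.1 = 0
  w_const : ∀ c : Kb k Ω, c ≠ 0 → wΛ (ι c) = 1
  w_unif : wΛ (ι (unif v x)) = 2⁻¹
  kummer : ∀ r : Ω, r ^ 3 = unif v x → gal τ r = algebraMap k Ω ζ * r
  disc : ∀ U : Subgroup (WG k Ω), Adm U → ∀ a : Ω, a ≠ 0 → (∀ u ∈ U, gal u a = a) → gal τ a = a →
    ∃ n : ℤ, wΛ (ι a) = 2 ^ n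
  rel : ∀ U : Subgroup (WG k Ω), Adm U → (σ * τ)⁻¹ * (τ ^ Fintype.card k ^ pdg v * σ) ∈ U

attribute [instance] Loc.iL Loc.cL Loc.uL Loc.aL Loc.fΛ Loc.aΛ Loc.aΛ' Loc.tΛ Loc.sΛ

/-- the absolute value on `Ω` -/
def Loc.w {ζ : k} {v : Pl k} (l : Loc Ω ζ v) : AbsoluteValue Ω ℝ :=
  l.wΛ.comp l.ι.toRingHom.injective

theorem Loc.w_apply {ζ : k} {v : Pl k} (l : Loc Ω ζ v) (a : Ω) : l.w a = l.wΛ (l.ι a) := rfl

/-- discrete logarithm of a cube root of unity -/
def lg (z u : Ω) : F3 := if u = 1 then 0 else if u = z then 1 else 2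

/-- the Kummer character attached to a cube root `r` -/
def kum (ζ : k) (r : Ω) (g : Gam k Ω) : F3 := lg (algebraMap k Ω ζ) (g r / r)

variable (Ω) in
/-- a family of local models -/
abbrev Locs (ζ : k) : Type 1 := ∀ v : Pl k, Loc Ω ζ v

/-- the bare tame data -/
def pre {ζ : k} (ℓ : Locs Ω ζ) : Pre (WG k Ω) (Pl k) where
  q := Fintype.card k
  deg := wdeg
  deg_mul := wdeg_mul
  dg := pdg
  inf := none
  σ v := (ℓ v).σ
  τ v := (ℓ v).τ
  Adm := Adm

/-- a chosen cube root -/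
def cbrt (a : Ω) : Ω := if h : ∃ r : Ω, r ^ 3 = a then h.choose else 1

/-- the normalised character attached to a place -/
def chi {ζ : k} (ℓ : Locs Ω ζ) : Pl k → WG k Ω → F3
  | none => 0
  | some p => fun g => kum ζ (cbrt (aeval (tt k Ω) p.1)) (gal g) -
      (wdeg g : F3) * kum ζ (cbrt (aeval (tt k Ω) p.1)) (gal (ℓ none).σ)

end

end Pool.Agent.Smith
end

-- merged part: Pool.Agent.Work.MP_60d5ce_nt.Sm.GalKum
section
/-!
# Kummer characters, Lagrange resolvents, the Frattini argument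

Hints.
* `kummer_abstract`: Lagrange resolvents.  If `h ≠ 0` pick `g0` with `h g0 = 1` and `a` fixed by
  the kernel, moved by `g0`; one of `a + z ^ 2 * g0 a + z * g0 ^ 2 a`, `a + z * g0 a + z ^ 2 * g0 ^ 2 a`
  is nonzero; use the first or the square of the second.
* `frattini`: a maximal subgroup of a finite 3-group is normal of index three
  (`Group.IsNilpotent`, `NormalizerCondition.normal_of_coatom`, `IsPGroup`).
-/

namespace Pool.Agent.Smith

open scoped Classical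
open Polynomial

noncomputable section

section abstract

theorem GalKum_cases (n : F3) : n = 0 ∨ n = 1 ∨ n = 2 := by
  revert n
  decide

theorem GalKum_val0 : (0 : F3).val = 0 := rfl

theorem GalKum_val1 : (1 : F3).val = 1 := rfl

theorem GalKum_val2 : (2 : F3).val = 2 := rfl

theorem GalKum_pow_add {Ω : Type} [Field Ω] {z : Ω} (hz : z ^ 3 = 1) (a b : F3) :
    z ^ (a + b).val = z ^ a.val * z ^ b.val := by
  rw [ZMod.val_add, ← pow_add, ← pow_eq_pow_mod _ hz]

theorem kummer_abstract {G Ω : Type} [Group G] [Field Ω] (φ : G →* (Ω ≃+* Ω)) (z : Ω)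
    (hz : IsPrimitiveRoot z 3) (hfix : ∀ g, φ g z = z) (h : G → F3)
    (hh : ∀ g g', h (g * g') = h g + h g')
    (hsep : ∀ g, (∀ a, (∀ n, h n = 0 → φ n a = a) → φ g a = a) → h g = 0) :
    ∃ r : Ω, r ≠ 0 ∧ ∀ g, φ g r = z ^ (h g).val * r := by
  by_cases h0 : ∀ g, h g = 0
  · exact ⟨1, one_ne_zero, fun g => by rw [h0 g, map_one, GalKum_val0, pow_zero, one_mul]⟩
  obtain ⟨g0, hg0⟩ : ∃ g0, h g0 = 1 := by
    push Not at h0
    obtain ⟨g, hg⟩ := h0
    rcases GalKum_cases (h g) with e | e | e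
    · exact absurd e hg
    · exact ⟨g, e⟩
    · exact ⟨g * g, by rw [hh, e]; rfl⟩
  obtain ⟨a, ha, hne⟩ : ∃ a, (∀ n, h n = 0 → φ n a = a) ∧ φ g0 a ≠ a := by
    by_contra hc
    push Not at hc
    rw [hsep g0 hc] at hg0
    exact absurd hg0 (by decide)
  have hmul : ∀ g g' x, φ (g * g') x = φ g (φ g' x) := fun g g' x => by
    rw [map_mul]; rfl
  have key : ∀ g g', h g = h g' → φ g a = φ g' a := fun g g' e => by
    have e1 : h (g'⁻¹ * g) = 0 := by
      have := hh g' (g'⁻¹ * g)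
      rw [mul_inv_cancel_left, e] at this
      exact left_eq_add.1 this
    rw [← mul_inv_cancel_left g' g, hmul, ha _ e1]
  have v0 : ∀ g, h g = 0 → φ g a = a := ha
  have v1 : ∀ g, h g = 1 → φ g a = φ g0 a := fun g e => key _ _ (e.trans hg0.symm)
  have v2 : ∀ g, h g = 2 → φ g a = φ (g0 * g0) a := fun g e => key _ _ (by rw [e, hh, hg0]; rfl)
  have hgg : h (g0 * g0) = 2 := by rw [hh, hg0]; rfl
  obtain ⟨b, hb⟩ : ∃ b, b = φ g0 a := ⟨_, rfl⟩
  obtain ⟨c, hc⟩ : ∃ c, c = φ (g0 * g0) a := ⟨_, rfl⟩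
  have act : ∀ g, (h g = 0 ∧ φ g a = a ∧ φ g b = b ∧ φ g c = c) ∨
      (h g = 1 ∧ φ g a = b ∧ φ g b = c ∧ φ g c = a) ∨
      (h g = 2 ∧ φ g a = c ∧ φ g b = a ∧ φ g c = b) := fun g => by
    rw [hb, hc, ← hmul, ← hmul]
    rcases GalKum_cases (h g) with e | e | e
    · exact Or.inl ⟨e, v0 _ e, v1 _ (by rw [hh, e, hg0]; rfl), v2 _ (by rw [hh, e, hgg]; rfl)⟩
    · exact Or.inr (Or.inl
        ⟨e, v1 _ e, v2 _ (by rw [hh, e, hg0]; rfl), v0 _ (by rw [hh, e, hgg]; rfl)⟩)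
    · exact Or.inr (Or.inr
        ⟨e, v2 _ e, v0 _ (by rw [hh, e, hg0]; rfl), v1 _ (by rw [hh, e, hgg]; rfl)⟩)
  have z3 : z ^ 3 = 1 := hz.pow_eq_one
  have z1 : z ≠ 1 := hz.ne_one (by norm_num)
  have z0 : z ≠ 0 := hz.ne_zero (by norm_num)
  have zs : 1 + z + z ^ 2 = 0 :=
    mul_left_cancel₀ (sub_ne_zero.2 z1) (by linear_combination z3)
  by_cases hr : a + z ^ 2 * b + z * c = 0
  · refine ⟨(a + z * b + z ^ 2 * c) ^ 2, pow_ne_zero _ fun hs => hne ?_, fun g => ?_⟩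
    · have e1 : b = c := mul_left_cancel₀ (mul_ne_zero z0 (sub_ne_zero.2 z1))
        (by linear_combination hr - hs)
      rw [← hb]
      linear_combination b * zs - hr - z * e1
    · simp only [map_add, map_mul, map_pow, hfix]
      rcases act g with ⟨e, e1, e2, e3⟩ | ⟨e, e1, e2, e3⟩ | ⟨e, e1, e2, e3⟩
      · rw [e, e1, e2, e3, GalKum_val0, pow_zero, one_mul]
      · have : b + z * c + z ^ 2 * a = z ^ 2 * (a + z * b + z ^ 2 * c) := by
          linear_combination (-b - z * c) * z3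
        rw [e, e1, e2, e3, GalKum_val1, pow_one, this]
        linear_combination z * (a + z * b + z ^ 2 * c) ^ 2 * z3
      · have : c + z * a + z ^ 2 * b = z * (a + z * b + z ^ 2 * c) := by
          linear_combination (-c) * z3
        rw [e, e1, e2, e3, GalKum_val2, this]
        ring
  · refine ⟨_, hr, fun g => ?_⟩
    simp only [map_add, map_mul, map_pow, hfix]
    rcases act g with ⟨e, e1, e2, e3⟩ | ⟨e, e1, e2, e3⟩ | ⟨e, e1, e2, e3⟩
    · rw [e, e1, e2, e3, GalKum_val0, pow_zero, one_mul]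
    · rw [e, e1, e2, e3, GalKum_val1, pow_one]
      linear_combination (-b) * z3
    · rw [e, e1, e2, e3, GalKum_val2]
      linear_combination (-c - z * b) * z3

theorem frattini {G : Type} [Group G] [Finite G] (hG : IsPGroup 3 G) (H : Subgroup G)
    (hH : ∀ h : G → F3, (∀ g g', h (g * g') = h g + h g') → (∀ g ∈ H, h g = 0) → h = 0) :
    H = ⊤ := by
  have : Fact (Nat.Prime 3) := ⟨Nat.prime_three⟩
  rcases eq_top_or_exists_le_coatom H with h | ⟨M, hM, hHM⟩
  · exact h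
  exfalso
  have := hG.isNilpotent
  have hN : M.Normal :=
    Subgroup.NormalizerCondition.normal_of_coatom M Group.normalizerCondition_of_isNilpotent hM
  have hnt : Nontrivial (G ⧸ M) := by
    rw [QuotientGroup.nontrivial_iff]
    exact hM.1
  obtain ⟨n, hn, hc⟩ := (hG.to_quotient M).nontrivial_iff_card.1 hnt
  obtain ⟨x, hx⟩ := exists_prime_orderOf_dvd_card' (G := G ⧸ M) 3
    (by rw [hc]; exact dvd_pow_self 3 hn.ne')
  have htop : Subgroup.zpowers x = ⊤ := by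
    have hle : M ≤ (Subgroup.zpowers x).comap (QuotientGroup.mk' M) := fun g hg => by
      rw [Subgroup.mem_comap, QuotientGroup.mk'_apply, (QuotientGroup.eq_one_iff g).2 hg]
      exact one_mem _
    rcases hle.eq_or_lt with e | e
    · obtain ⟨g, rfl⟩ := QuotientGroup.mk'_surjective M x
      have hg : g ∈ M := by
        rw [e, Subgroup.mem_comap]
        exact Subgroup.mem_zpowers _
      rw [QuotientGroup.mk'_apply, (QuotientGroup.eq_one_iff g).2 hg, orderOf_one] at hx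
      exact absurd hx (by norm_num)
    · rw [eq_top_iff]
      intro y _
      obtain ⟨g, rfl⟩ := QuotientGroup.mk'_surjective M y
      have : g ∈ (Subgroup.zpowers x).comap (QuotientGroup.mk' M) := by
        rw [hM.2 _ e]
        exact Subgroup.mem_top g
      exact this
  have hcard : Nat.card (G ⧸ M) = 3 := by
    rw [← hx, ← Nat.card_zpowers, htop, Subgroup.card_top]
  have e : (G ⧸ M) ≃* Multiplicative F3 := mulEquivOfPrimeCardEq hcard (by simp)
  have h0 := hH (fun g => (e (QuotientGroup.mk g)).toAdd)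
    (fun g g' => by rw [QuotientGroup.mk_mul, map_mul, toAdd_mul])
    (fun g hg => by rw [(QuotientGroup.eq_one_iff g).2 (hHM hg), map_one, toAdd_one])
  refine hM.1 (eq_top_iff.2 fun g _ => (QuotientGroup.eq_one_iff g).1 (e.injective ?_))
  rw [map_one]
  exact toAdd_eq_zero.1 (congrFun h0 g)

end abstract

variable {k : Type} [Field k] [Fintype k] {Ω : Type} [Field Ω] [Algebra (RatFunc k) Ω]
  [Algebra k Ω] [IsScalarTower k (RatFunc k) Ω]

section kum

variable {ζ : k}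

theorem GalKum_prim (hζ : IsPrimitiveRoot ζ 3) : IsPrimitiveRoot (algebraMap k Ω ζ) 3 :=
  hζ.map_of_injective (algebraMap k Ω).injective

theorem GalKum_fix (g : Gam k Ω) (c : k) : g (algebraMap k Ω c) = algebraMap k Ω c := by
  rw [IsScalarTower.algebraMap_apply k (RatFunc k) Ω, AlgEquiv.commutes]

theorem GalKum_lg {z : Ω} (hz : IsPrimitiveRoot z 3) (n : F3) : lg z (z ^ n.val) = n := by
  have h1 : z ≠ 1 := hz.ne_one (by norm_num)
  have h2 : z ^ 2 ≠ 1 := hz.pow_ne_one_of_pos_of_lt (by norm_num) (by norm_num)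
  have h3 : z ^ 2 ≠ z := fun h => h1 (mul_left_cancel₀ (hz.ne_zero (by norm_num))
    (by rw [mul_one, ← sq, h]))
  unfold lg
  rcases GalKum_cases n with rfl | rfl | rfl
  · rw [GalKum_val0, pow_zero, if_pos rfl]
  · rw [GalKum_val1, pow_one, if_neg h1, if_pos rfl]
  · rw [GalKum_val2, if_neg h2, if_neg h3]

theorem GalKum_root {z u : Ω} (hz : IsPrimitiveRoot z 3) (hu : u ^ 3 = 1) :
    ∃ n : F3, u = z ^ n.val := by
  obtain ⟨i, hi, h⟩ := hz.eq_pow_of_pow_eq_one hu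
  exact ⟨i, by rw [ZMod.val_cast_of_lt hi, h]⟩

theorem kum_eq (hζ : IsPrimitiveRoot ζ 3) {r : Ω} (hr : r ≠ 0) {g : Gam k Ω} {n : F3}
    (h : g r = algebraMap k Ω ζ ^ n.val * r) : kum ζ r g = n := by
  unfold kum
  rw [h, mul_div_cancel_right₀ _ hr, GalKum_lg (GalKum_prim hζ)]

theorem kum_spec (hζ : IsPrimitiveRoot ζ 3) {r : Ω} (hr : r ≠ 0) {g : Gam k Ω}
    (h : g (r ^ 3) = r ^ 3) : g r = algebraMap k Ω ζ ^ (kum ζ r g).val * r := by
  obtain ⟨n, hn⟩ := GalKum_root (u := g r / r) (GalKum_prim (Ω := Ω) hζ)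
    (by rw [div_pow, ← map_pow, h, div_self (pow_ne_zero _ hr)])
  have e := (div_eq_iff hr).1 hn
  rw [kum_eq hζ hr e]
  exact e

theorem kum_mul (hζ : IsPrimitiveRoot ζ 3) {r : Ω} (hr : r ≠ 0) {g g' : Gam k Ω}
    (h : g (r ^ 3) = r ^ 3) (h' : g' (r ^ 3) = r ^ 3) :
    kum ζ r (g * g') = kum ζ r g + kum ζ r g' := by
  refine kum_eq hζ hr ?_
  rw [AlgEquiv.mul_apply, GalKum_pow_add (GalKum_prim hζ).pow_eq_one]
  nth_rewrite 1 [kum_spec hζ hr h']
  rw [map_mul, map_pow, GalKum_fix]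
  nth_rewrite 1 [kum_spec hζ hr h]
  ring

theorem kum_mul_left (hζ : IsPrimitiveRoot ζ 3) {r s : Ω} (hr : r ≠ 0) (hs : s ≠ 0) {g : Gam k Ω}
    (h : g (r ^ 3) = r ^ 3) (h' : g (s ^ 3) = s ^ 3) :
    kum ζ (r * s) g = kum ζ r g + kum ζ s g := by
  refine kum_eq hζ (mul_ne_zero hr hs) ?_
  rw [map_mul, GalKum_pow_add (GalKum_prim hζ).pow_eq_one]
  nth_rewrite 1 [kum_spec hζ hr h, kum_spec hζ hs h']
  ring

theorem kum_congr (hζ : IsPrimitiveRoot ζ 3) {r s : Ω} (h : r ^ 3 = s ^ 3) (g : Gam k Ω) :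
    kum ζ r g = kum ζ s g := by
  by_cases hr : r = 0
  · have hs : s = 0 := by
      rw [hr, zero_pow three_ne_zero] at h
      exact (pow_eq_zero_iff three_ne_zero).1 h.symm
    rw [hr, hs]
  obtain ⟨n, hn⟩ := GalKum_root (u := s / r) (GalKum_prim (Ω := Ω) hζ)
    (by rw [div_pow, ← h, div_self (pow_ne_zero _ hr)])
  have e := (div_eq_iff hr).1 hn
  unfold kum
  rw [e, map_mul, map_pow, GalKum_fix,
    mul_div_mul_left _ _ (pow_ne_zero _ ((GalKum_prim (Ω := Ω) hζ).ne_zero (by norm_num)))]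

theorem kum_eq_zero_iff (hζ : IsPrimitiveRoot ζ 3) {r : Ω} (hr : r ≠ 0) {g : Gam k Ω}
    (h : g (r ^ 3) = r ^ 3) : kum ζ r g = 0 ↔ g r = r := by
  constructor
  · intro h0
    rw [kum_spec hζ hr h, h0, GalKum_val0, pow_zero, one_mul]
  · intro h0
    exact kum_eq hζ hr (by rw [GalKum_val0, pow_zero, one_mul, h0])

end kum

theorem cbrt_spec [IsSepClosure (RatFunc k) Ω] (h3 : (3 : k) ≠ 0) (a : Ω) : cbrt a ^ 3 = a := by
  have := IsSepClosure.sep_closed (RatFunc k) (K := Ω)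
  have : NeZero ((3 : ℕ) : Ω) := ⟨by
    rw [← map_natCast (algebraMap k Ω)]
    exact (_root_.map_ne_zero _).2 (by exact_mod_cast h3)⟩
  have h := IsSepClosed.exists_pow_nat_eq a 3
  unfold cbrt
  rw [dif_pos h]
  exact h.choose_spec

end

end Pool.Agent.Smith
end

-- merged part: Pool.Agent.Work.MP_60d5ce_nt.Sm.GalBasic
section
/-!
# Basic Galois theory of the Weil group

Hints.
* `isAlgClosed_Kb`: `Kb` is algebraic over the finite field `k`, so perfect; an irreducible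
  polynomial over it is separable, has a root in the separably closed `Ω`, algebraic over `k`.
* `isSepClosure_geom`: the minimal polynomial over `RatFunc Kb` divides the image of the one over
  `RatFunc k` (use `jK_range`; build the ring map `RatFunc k → RatFunc Kb` by `RatFunc.mapRingHom`).
* `fixed_all`: `a = jK b`, `b = num / denom` with monic denominator, an element of degree one acts
  on coefficients through `frob`; uniqueness of the reduced fraction; `c ^ q = c` gives `c ∈ k`.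
* `dense`: normal closure `M` of `S` is finite Galois over `RatFunc k`; the image of `WG` in its
  group has fixed field the bottom (`fixed_all`), so it is everything.
* `adm_core`: replace `S` by the finite set of all conjugates (roots of the minimal polynomials
  over `RatFunc k`); its fixer `N` in `WG0` is normal of finite index; `g` has finite order
  `3 ^ a * m` modulo `N`; for every conjugate `g'` of `g ^ 3 ^ a` both `g' ^ 3 ^ j` and `g' ^ m` lie
  in `H`, Bezout.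
* `exists_kummer`: `kummer_abstract` for the group `WG0`, with `Adm.exists_res` and finite Galois
  theory for the separation hypothesis; `r ^ 3` is fixed by `WG0`.
-/

namespace Pool.Agent.Smith

open scoped Classical
open Polynomial

noncomputable section

variable {k : Type} [Field k] [Fintype k] {Ω : Type} [Field Ω] [Algebra (RatFunc k) Ω]
  [Algebra k Ω] [IsScalarTower k (RatFunc k) Ω]

variable (k Ω) in
/-- the geometric group -/
def WG0 : Subgroup (WG k Ω) where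
  carrier := {g | wdeg g = 0}
  mul_mem' {a b} ha hb := by
    simp only [Set.mem_ofPred_eq] at *
    rw [wdeg_mul, ha, hb, add_zero]
  one_mem' := rfl
  inv_mem' {a} ha := by
    simp only [Set.mem_ofPred_eq] at *
    have := wdeg_mul a a⁻¹
    rw [mul_inv_cancel, ha, zero_add] at this
    exact this.symm

theorem mem_WG0 {g : WG k Ω} : g ∈ WG0 k Ω ↔ wdeg g = 0 := Iff.rfl

theorem pre_G0 {ζ : k} (ℓ : Locs Ω ζ) : (pre ℓ).G0 = WG0 k Ω := rfl

theorem wdeg_one : wdeg (1 : WG k Ω) = 0 := rfl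

theorem wdeg_inv (g : WG k Ω) : wdeg g⁻¹ = -wdeg g := rfl

theorem wdeg_zpow (g : WG k Ω) (n : ℤ) : wdeg (g ^ n) = n * wdeg g := by
  simp [wdeg]

theorem wdeg_pow (g : WG k Ω) (n : ℕ) : wdeg (g ^ n) = n * wdeg g := by
  simp [wdeg]

theorem frob_apply (c : Kb k Ω) : frob k Ω c = c ^ Fintype.card k := by
  rfl

theorem frob_pow_apply (n : ℕ) (c : Kb k Ω) : (frob k Ω ^ n) c = c ^ Fintype.card k ^ n := by
  induction n with
  | zero => simp
  | succ n ih => rw [pow_succ', AlgEquiv.mul_apply, ih, frob_apply, ← pow_mul, ← pow_succ]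

theorem gal_tt (g : WG k Ω) : gal g (tt k Ω) = tt k Ω := by
  exact (gal g).commutes _

theorem gal_algebraMap (g : WG k Ω) (c : k) : gal g (algebraMap k Ω c) = algebraMap k Ω c := by
  rw [IsScalarTower.algebraMap_apply k (RatFunc k) Ω, AlgEquiv.commutes]

theorem gal_aeval (g : WG k Ω) (p : (Kb k Ω)[X]) : gal g (aeval (tt k Ω) p) =
    aeval (tt k Ω) (p.map ((frob k Ω ^ wdeg g : Kb k Ω ≃ₐ[k] Kb k Ω) : Kb k Ω →+* Kb k Ω)) := by
  conv_rhs => rw [← gal_tt g]
  exact map_aeval_eq_aeval_map (ψ := (gal g : Ω →+* Ω))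
    (RingHom.ext fun c => (gal_const g c).symm) p _

theorem aeval_tt_base (p : k[X]) :
    aeval (tt k Ω) p = algebraMap (RatFunc k) Ω (algebraMap k[X] (RatFunc k) p) := by
  rw [tt, aeval_algebraMap_apply, RatFunc.aeval_X_left_eq_algebraMap]

theorem aeval_tt_map (p : k[X]) :
    aeval (tt k Ω) (p.map (algebraMap k (Kb k Ω))) = aeval (tt k Ω) p := by
  exact aeval_map_algebraMap _ _ _

variable (k Ω) in
/-- extension of the constants -/
def gb_base : RatFunc k →+* RatFunc (Kb k Ω) :=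
  RatFunc.mapRingHom (mapRingHom (algebraMap k (Kb k Ω)))
    (nonZeroDivisors_le_comap_nonZeroDivisors_of_injective _
      (map_injective _ (algebraMap k (Kb k Ω)).injective))

theorem gb_jK_base (a : RatFunc k) : jK k Ω (gb_base k Ω a) = algebraMap (RatFunc k) Ω a := by
  induction a using RatFunc.induction_on with
  | f p q hq =>
    rw [gb_base, RatFunc.coe_mapRingHom_eq_coe_map, RatFunc.map_apply_div, map_div₀, map_div₀,
      jK_poly, jK_poly, coe_mapRingHom, aeval_tt_map, aeval_tt_map, aeval_tt_base, aeval_tt_base]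

theorem jK_range (a : RatFunc k) : ∃ b, jK k Ω b = algebraMap (RatFunc k) Ω a := by
  exact ⟨_, gb_jK_base a⟩

theorem jK_div (b : RatFunc (Kb k Ω)) :
    jK k Ω b = aeval (tt k Ω) b.num / aeval (tt k Ω) b.denom := by
  rw [← jK_poly, ← jK_poly, ← map_div₀, RatFunc.num_div_denom]

theorem geom_fix {g : WG k Ω} (hg : wdeg g = 0) (b : RatFunc (Kb k Ω)) :
    gal g (jK k Ω b) = jK k Ω b := by
  rw [jK_div, map_div₀, gal_aeval, gal_aeval, hg, zpow_zero]
  congr 2 <;> exact map_id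

theorem gal_jK (g : WG k Ω) (b : RatFunc (Kb k Ω)) : ∃ b', gal g (jK k Ω b) = jK k Ω b' := by
  rw [jK_div, map_div₀, gal_aeval, gal_aeval, ← jK_poly, ← jK_poly, ← map_div₀]
  exact ⟨_, rfl⟩

variable (k Ω) in
/-- the geometric group acts over the geometric function field -/
def toGeom : WG0 k Ω →* (Ω ≃ₐ[RatFunc (Kb k Ω)] Ω) where
  toFun g := { (gal g.1).toRingEquiv with commutes' := geom_fix g.2 }
  map_one' := by ext a; simp
  map_mul' a b := by ext c; simp

theorem toGeom_apply (g : WG0 k Ω) (a : Ω) : toGeom k Ω g a = gal g.1 a := rfl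

theorem toGeom_bijective : Function.Bijective (toGeom k Ω) := by
  refine ⟨fun g g' h => Subtype.ext (Subtype.ext (Prod.ext
    (AlgEquiv.ext fun a => DFunLike.congr_fun h a) (g.2.trans g'.2.symm))), fun s => ?_⟩
  refine ⟨⟨⟨({ s.toRingEquiv with commutes' := fun a => ?_ }, 1), fun c => ?_⟩, rfl⟩, rfl⟩
  · obtain ⟨b, hb⟩ := jK_range (Ω := Ω) a
    rw [← hb]
    exact s.commutes b
  · have := s.commutes (algebraMap (Kb k Ω) _ c)
    rwa [← IsScalarTower.algebraMap_apply] at this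

/-- the fixed field of a subgroup of the geometric group -/
def MU (U : Subgroup (WG k Ω)) : IntermediateField (RatFunc (Kb k Ω)) Ω :=
  IntermediateField.fixedField ((U.subgroupOf (WG0 k Ω)).map (toGeom k Ω))

theorem mem_MU {U : Subgroup (WG k Ω)} (hU : U ≤ WG0 k Ω) {a : Ω} :
    a ∈ MU U ↔ ∀ u ∈ U, gal u a = a := by
  rw [MU, IntermediateField.mem_fixedField_iff]
  refine ⟨fun h u hu => h _ ⟨⟨u, hU hu⟩, hu, rfl⟩, ?_⟩
  rintro h _ ⟨u, hu, rfl⟩
  exact h u.1 hu

theorem Adm.normal {U : Subgroup (WG k Ω)} (hU : Adm U) : U.Normal := hU.1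

theorem Adm.le {U : Subgroup (WG k Ω)} (hU : Adm U) : U ≤ WG0 k Ω := hU.2.1

theorem adm_WG0 : Adm (WG0 k Ω) := by
  refine ⟨⟨fun u hu g => ?_⟩, fun _ hu => hu, ⟨∅, fun _ hg _ => hg⟩, fun g hg => ⟨0, by simpa⟩⟩
  rw [mem_WG0] at hu ⊢
  rw [wdeg_mul, wdeg_mul, wdeg_inv, hu, add_zero, add_neg_cancel]

theorem Adm.inf {U U' : Subgroup (WG k Ω)} (hU : Adm U) (hU' : Adm U') : Adm (U ⊓ U') := by
  obtain ⟨h1, h2, ⟨S, h3⟩, h4⟩ := hU
  obtain ⟨h1', -, ⟨S', h3'⟩, h4'⟩ := hU'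
  refine ⟨inferInstance, fun u hu => h2 u hu.1, ⟨S ∪ S', fun g hg h =>
    ⟨h3 g hg fun a ha => h a (Finset.mem_union_left _ ha),
      h3' g hg fun a ha => h a (Finset.mem_union_right _ ha)⟩⟩, fun g hg => ?_⟩
  obtain ⟨j, hj⟩ := h4 g hg
  obtain ⟨j', hj'⟩ := h4' g hg
  refine ⟨j + j', ?_, ?_⟩
  · rw [pow_add, pow_mul]
    exact U.pow_mem hj _
  · rw [add_comm, pow_add, pow_mul]
    exact U'.pow_mem hj' _

theorem Adm.mono {U U' : Subgroup (WG k Ω)} (hU : Adm U) (h : U ≤ U') (hn : U'.Normal)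
    (hl : U' ≤ WG0 k Ω) : Adm U' := by
  obtain ⟨-, -, ⟨S, h3⟩, h4⟩ := hU
  exact ⟨hn, hl, ⟨S, fun g hg h' => h (h3 g hg h')⟩, fun g hg => (h4 g hg).imp fun _ hj => h hj⟩

theorem Adm.gal_mem_MU {U : Subgroup (WG k Ω)} (hU : Adm U) (g : WG k Ω) {a : Ω} (ha : a ∈ MU U) :
    gal g a ∈ MU U := by
  rw [mem_MU hU.le] at ha ⊢
  intro u hu
  conv_rhs => rw [← ha _ (hU.normal.conj_mem' u hu g)]
  rw [← AlgEquiv.mul_apply, ← AlgEquiv.mul_apply, ← map_mul, ← map_mul, ← mul_assoc, ← mul_assoc,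
    mul_inv_cancel, one_mul]

variable [IsSepClosure (RatFunc k) Ω]

instance isAlgClosed_Kb : IsAlgClosed (Kb k Ω) := by
  have := IsSepClosure.sep_closed (RatFunc k) (K := Ω)
  have := Algebra.IsAlgebraic.perfectField k (L := Kb k Ω)
  refine IsAlgClosed.of_exists_root _ fun p hm hp => ?_
  obtain ⟨x, hx⟩ := IsSepClosed.exists_aeval_eq_zero Ω p (degree_pos_of_irreducible hp).ne'
    (PerfectField.separable_of_irreducible hp)
  have h1 : x ∈ algebraicClosure k Ω :=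
    mem_algebraicClosure_iff'.2 (isIntegral_trans x (show IsIntegral (Kb k Ω) x from ⟨p, hm, hx⟩))
  refine ⟨⟨x, h1⟩, (algebraMap (Kb k Ω) Ω).injective ?_⟩
  rw [← aeval_algebraMap_apply_eq_algebraMap_eval, map_zero]
  exact hx

instance isSepClosure_geom : IsSepClosure (RatFunc (Kb k Ω)) Ω := by
  let := (gb_base k Ω).toAlgebra
  have : IsScalarTower (RatFunc k) (RatFunc (Kb k Ω)) Ω :=
    IsScalarTower.of_algebraMap_eq fun a => (gb_jK_base a).symm
  exact ⟨IsSepClosure.sep_closed (RatFunc k),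
    Algebra.isSeparable_tower_top_of_isSeparable (RatFunc k) _ _⟩

theorem fixed_geom {a : Ω} (h : ∀ g : WG k Ω, wdeg g = 0 → gal g a = a) : ∃ b, jK k Ω b = a := by
  refine (InfiniteGalois.mem_range_algebraMap_iff_fixed (k := RatFunc (Kb k Ω)) a).2 fun s => ?_
  obtain ⟨g, rfl⟩ := toGeom_bijective.2 s
  exact h g.1 g.2

omit [Algebra (RatFunc k) Ω] [IsScalarTower k (RatFunc k) Ω] [IsSepClosure (RatFunc k) Ω] in
theorem gb_descend {p : (Kb k Ω)[X]} (h : p.map (frob k Ω : Kb k Ω →+* Kb k Ω) = p) :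
    ∃ q : k[X], q.map (algebraMap k (Kb k Ω)) = p := by
  refine (mem_lifts p).1 ((lifts_iff_coeff_lifts p).2 fun n => ?_)
  have h1 : p.coeff n ^ Fintype.card k = p.coeff n := by
    conv_rhs => rw [← h, coeff_map]
    rfl
  have h2 := splits_X_pow_nat_card_sub_X (K := k)
  rw [Nat.card_eq_fintype_card] at h2
  exact h2.mem_range_of_isRoot (FiniteField.X_pow_card_sub_X_ne_zero k Fintype.one_lt_card)
    (by simp [h1])

theorem fixed_all (φ : WG k Ω) (hφ : wdeg φ = 1) {a : Ω} (h : ∀ g : WG k Ω, gal g a = a) :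
    ∃ b, algebraMap (RatFunc k) Ω b = a := by
  obtain ⟨b, rfl⟩ := fixed_geom fun g _ => h g
  have h1 := h φ
  conv_lhs at h1 => rw [jK_div, map_div₀, gal_aeval, gal_aeval, hφ, zpow_one, ← jK_poly, ← jK_poly,
    ← map_div₀]
  replace h1 := (jK k Ω).toRingHom.injective h1
  have hm := (RatFunc.monic_denom b).map (frob k Ω : Kb k Ω →+* Kb k Ω)
  have h2 := eq_of_monic_of_dvd_of_natDegree_le (RatFunc.monic_denom b) hm
    ((RatFunc.denom_dvd hm.ne_zero).2 ⟨_, h1.symm⟩) natDegree_map_le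
  rw [h2] at h1
  have h3 := RatFunc.algebraMap_injective _ ((div_left_inj'
    (RatFunc.algebraMap_ne_zero b.denom_ne_zero)).1 (h1.trans b.num_div_denom.symm))
  obtain ⟨p, hp⟩ := gb_descend h3
  obtain ⟨q, hq⟩ := gb_descend h2
  exact ⟨_, by rw [jK_div, ← hp, ← hq, aeval_tt_map, aeval_tt_map, aeval_tt_base, aeval_tt_base,
    ← map_div₀]⟩

theorem dense (φ : WG k Ω) (hφ : wdeg φ = 1) (s : Gam k Ω) (S : Finset Ω) :
    ∃ g : WG k Ω, ∀ a ∈ S, gal g a = s a := by
  let M := (FiniteGaloisIntermediateField.adjoin (RatFunc k) (S : Set Ω)).toIntermediateField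
  let H := ((AlgEquiv.restrictNormalHom M).comp (gal (k := k) (Ω := Ω))).range
  have h1 : IntermediateField.fixedField H = ⊥ := by
    refine eq_bot_iff.2 fun a ha => ?_
    obtain ⟨b, hb⟩ := fixed_all φ hφ (a := a.1) fun g => by
      rw [← AlgEquiv.restrictNormalHom_apply]
      exact congrArg Subtype.val ((IntermediateField.mem_fixedField_iff _ _).1 ha _ ⟨g, rfl⟩)
    exact ⟨b, Subtype.ext hb⟩
  have h2 : H = ⊤ := by
    rw [← IntermediateField.fixingSubgroup_fixedField H, h1, IntermediateField.fixingSubgroup_bot]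
  obtain ⟨g, hg⟩ : AlgEquiv.restrictNormalHom M s ∈ H := h2 ▸ Subgroup.mem_top _
  refine ⟨g, fun a ha => ?_⟩
  have h3 : a ∈ M := FiniteGaloisIntermediateField.subset_adjoin (RatFunc k) (S : Set Ω) ha
  have h4 := AlgEquiv.restrictNormalHom_apply M (gal g) ⟨a, h3⟩
  rw [show AlgEquiv.restrictNormalHom M (gal g) = _ from hg,
    AlgEquiv.restrictNormalHom_apply] at h4
  exact h4.symm

theorem exists_stable (S : Finset Ω) :
    ∃ S' : Finset Ω, S ⊆ S' ∧ ∀ (g : Gam k Ω), ∀ a ∈ S', g a ∈ S' := by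
  refine ⟨S.biUnion fun a => ((minpoly (RatFunc k) a).rootSet Ω).toFinset, fun a ha =>
    Finset.mem_biUnion.2 ⟨a, ha, Set.mem_toFinset.2 (mem_rootSet.2 ⟨minpoly.ne_zero
      (Algebra.IsIntegral.isIntegral a), minpoly.aeval _ _⟩)⟩, fun g a ha => ?_⟩
  obtain ⟨b, hb, h⟩ := Finset.mem_biUnion.1 ha
  exact Finset.mem_biUnion.2
    ⟨b, hb, Set.mem_toFinset.2 (rootSet_mapsTo g.toAlgHom (Set.mem_toFinset.1 h))⟩

variable (k) in
/-- the fixer of a finite set -/
def gb_fix (S : Finset Ω) : Subgroup (WG k Ω) where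
  carrier := {g | ∀ a ∈ S, gal g a = a}
  one_mem' a _ := by simp
  mul_mem' {g h} hg hh a ha := by rw [map_mul, AlgEquiv.mul_apply, hh a ha, hg a ha]
  inv_mem' {g} hg a ha := by
    rw [map_inv, AlgEquiv.aut_inv, AlgEquiv.symm_apply_eq, hg a ha]

theorem gb_fix_index (S : Finset Ω) : (gb_fix k S).FiniteIndex := by
  obtain ⟨S', h1, h2⟩ := exists_stable (k := k) S
  have : Finite (WG k Ω ⧸ gb_fix k S) := by
    refine Finite.of_injective
      (fun x (a : S) => (⟨gal x.out a, h2 _ _ (h1 a.2)⟩ : S')) fun x y h => ?_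
    rw [← x.out_eq, ← y.out_eq]
    refine Quotient.sound (QuotientGroup.leftRel_apply.2 fun a ha => ?_)
    rw [map_mul, map_inv, AlgEquiv.mul_apply, AlgEquiv.aut_inv, AlgEquiv.symm_apply_eq]
    exact (congrArg Subtype.val (congrFun h ⟨a, ha⟩)).symm
  exact ⟨Subgroup.index_ne_zero_of_finite⟩

theorem gb_fd (S : Finset Ω) : FiniteDimensional (RatFunc (Kb k Ω))
    (IntermediateField.adjoin (RatFunc (Kb k Ω)) (S : Set Ω)) :=
  IntermediateField.finiteDimensional_adjoin fun x _ => Algebra.IsIntegral.isIntegral x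

omit [IsSepClosure (RatFunc k) Ω] in
theorem gb_le {U : Subgroup (WG k Ω)} {S : Finset Ω}
    (hS : ∀ g, wdeg g = 0 → (∀ a ∈ S, gal g a = a) → g ∈ U) :
    (IntermediateField.adjoin (RatFunc (Kb k Ω)) (S : Set Ω)).fixingSubgroup ≤
      (U.subgroupOf (WG0 k Ω)).map (toGeom k Ω) := fun s hs => by
  obtain ⟨g, rfl⟩ := toGeom_bijective.2 s
  exact ⟨g, hS g.1 g.2 fun a ha => (IntermediateField.mem_fixingSubgroup_iff _ _).1 hs a
    (IntermediateField.subset_adjoin _ _ ha), rfl⟩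

theorem gb_closed {U : Subgroup (WG k Ω)} {S : Finset Ω}
    (hS : ∀ g, wdeg g = 0 → (∀ a ∈ S, gal g a = a) → g ∈ U) {g : WG k Ω} (hg : wdeg g = 0)
    (h : ∀ a ∈ MU U, gal g a = a) : g ∈ U := by
  have := gb_fd (k := k) S
  have h1 := InfiniteGalois.fixingSubgroup_fixedField ⟨_, Subgroup.isClosed_of_isOpen _
    (Subgroup.isOpen_mono (gb_le hS) (IntermediateField.fixingSubgroup_isOpen _))⟩
  obtain ⟨g', h2, h3⟩ := h1.le ((IntermediateField.mem_fixingSubgroup_iff _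
    (toGeom k Ω ⟨g, hg⟩)).2 h)
  rw [toGeom_bijective.1 h3] at h2
  exact h2

theorem adm_core (H : Subgroup (WG k Ω)) (hH : H ≤ WG0 k Ω) (S : Finset Ω)
    (hS : ∀ g, wdeg g = 0 → (∀ a ∈ S, gal g a = a) → g ∈ H)
    (h3 : ∀ g, wdeg g = 0 → ∃ j : ℕ, g ^ 3 ^ j ∈ H) : Adm H.normalCore := by
  obtain ⟨S', h1, h2⟩ := exists_stable (k := k) S
  have key : ∀ g, wdeg g = 0 → (∀ a ∈ S', gal g a = a) → g ∈ H.normalCore := fun g hg h b =>
    hS _ (adm_WG0.normal.conj_mem g hg b) fun a ha => by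
      rw [map_mul, map_mul, AlgEquiv.mul_apply, AlgEquiv.mul_apply, h _ (h2 _ a (h1 ha)),
        ← AlgEquiv.mul_apply, ← map_mul, mul_inv_cancel, map_one, AlgEquiv.one_apply]
  refine ⟨inferInstance, fun u hu => hH (H.normalCore_le hu), ⟨S', key⟩, fun g hg => ?_⟩
  obtain ⟨n, hn, -, hgn⟩ :=
    Subgroup.exists_pow_mem_of_index_ne_zero (gb_fix_index (k := k) S').index_ne_zero g
  obtain ⟨e, m, hm, rfl⟩ := Nat.exists_eq_pow_mul_and_not_dvd hn.ne' 3 (by norm_num)
  refine ⟨e, fun b => ?_⟩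
  have h4 := key _ ((WG0 k Ω).pow_mem hg _) hgn b
  rw [pow_mul, ← conj_pow] at h4
  obtain ⟨j, hj⟩ := h3 _ (adm_WG0.normal.conj_mem _ ((WG0 k Ω).pow_mem hg (3 ^ e)) b)
  have h5 := Nat.gcd_eq_gcd_ab (3 ^ j) m
  rw [(Nat.prime_three.coprime_iff_not_dvd.2 hm).pow_left j] at h5
  rw [← zpow_one (b * g ^ 3 ^ e * b⁻¹), ← Nat.cast_one, h5, zpow_add, zpow_mul, zpow_mul,
    zpow_natCast, zpow_natCast]
  exact H.mul_mem (H.zpow_mem hj _) (H.zpow_mem h4 _)

theorem Adm.index {U : Subgroup (WG k Ω)} (hU : Adm U) : U.relIndex (WG0 k Ω) ≠ 0 := by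
  obtain ⟨S, hS⟩ := hU.2.2.1
  have := gb_fix_index (k := k) S
  exact (Subgroup.finiteIndex_of_le (H := (gb_fix k S).subgroupOf (WG0 k Ω))
    (K := U.subgroupOf (WG0 k Ω)) fun g hg => hS g.1 g.2 hg).index_ne_zero

theorem Adm.index_pow {U : Subgroup (WG k Ω)} (hU : Adm U) :
    ∃ j : ℕ, U.relIndex (WG0 k Ω) = 3 ^ j := by
  have := hU.normal
  have : (U.subgroupOf (WG0 k Ω)).FiniteIndex := ⟨hU.index⟩
  have : Fact (Nat.Prime 3) := ⟨Nat.prime_three⟩
  refine IsPGroup.exists_card_eq (G := WG0 k Ω ⧸ U.subgroupOf (WG0 k Ω)) fun x => ?_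
  obtain ⟨g, rfl⟩ := QuotientGroup.mk_surjective x
  obtain ⟨j, hj⟩ := hU.2.2.2 g.1 g.2
  exact ⟨j, (QuotientGroup.eq_one_iff (g ^ 3 ^ j)).2 hj⟩

theorem Adm.finiteDimensional {U : Subgroup (WG k Ω)} (hU : Adm U) :
    FiniteDimensional (RatFunc (Kb k Ω)) (MU U) := by
  obtain ⟨S, hS⟩ := hU.2.2.1
  have := gb_fd (k := k) S
  have h := IntermediateField.fixedField_le (gb_le hS)
  rw [InfiniteGalois.fixedField_fixingSubgroup] at h
  exact FiniteDimensional.of_injective (IntermediateField.inclusion h).toLinearMap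
    (IntermediateField.inclusion_injective h)

theorem Adm.isGalois {U : Subgroup (WG k Ω)} (hU : Adm U) :
    IsGalois (RatFunc (Kb k Ω)) (MU U) := by
  have := hU.normal
  have : ((U.subgroupOf (WG0 k Ω)).map (toGeom k Ω)).Normal :=
    Subgroup.Normal.map inferInstance _ toGeom_bijective.2
  exact IsGalois.of_fixedField_normal_subgroup _

theorem Adm.mem_iff {U : Subgroup (WG k Ω)} (hU : Adm U) {g : WG k Ω} (hg : wdeg g = 0) :
    g ∈ U ↔ ∀ a ∈ MU U, gal g a = a := by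
  obtain ⟨S, hS⟩ := hU.2.2.1
  exact ⟨fun h a ha => (mem_MU hU.le).1 ha g h, gb_closed hS hg⟩

/-- the quotient of the geometric group is the Galois group of the fixed field -/
theorem Adm.exists_res {U : Subgroup (WG k Ω)} (hU : Adm U) :
    ∃ π : WG0 k Ω →* (MU U ≃ₐ[RatFunc (Kb k Ω)] MU U), Function.Surjective π ∧
      (∀ g (a : MU U), (π g a : Ω) = gal g.1 a) ∧ ∀ g, π g = 1 ↔ g.1 ∈ U := by
  have := hU.isGalois
  refine ⟨(AlgEquiv.restrictNormalHom (MU U)).comp (toGeom k Ω),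
    (AlgEquiv.restrictNormalHom_surjective Ω).comp toGeom_bijective.2,
    fun g a => AlgEquiv.restrictNormalHom_apply _ _ a, fun g => ?_⟩
  rw [hU.mem_iff g.2, AlgEquiv.ext_iff, Subtype.forall]
  refine forall₂_congr fun a ha => ?_
  rw [Subtype.ext_iff, MonoidHom.comp_apply, AlgEquiv.restrictNormalHom_apply]
  rfl

theorem Adm.card_gal {U : Subgroup (WG k Ω)} (hU : Adm U) :
    Nat.card (MU U ≃ₐ[RatFunc (Kb k Ω)] MU U) = U.relIndex (WG0 k Ω) := by
  obtain ⟨π, h1, -, h3⟩ := hU.exists_res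
  have h4 : U.subgroupOf (WG0 k Ω) = π.ker := Subgroup.ext fun g => (h3 g).symm
  rw [Subgroup.relIndex, h4, Subgroup.index_ker, MonoidHom.range_eq_top.2 h1, Subgroup.card_top]

/-- Kummer theory for the geometric group -/
theorem exists_kummer {ζ : k} (hζ : IsPrimitiveRoot ζ 3) (h : WG k Ω → F3)
    (hh : ∀ g g', wdeg g = 0 → wdeg g' = 0 → h (g * g') = h g + h g') {U : Subgroup (WG k Ω)}
    (hU : Adm U) (hs : ∀ u ∈ U, h u = 0) :
    ∃ (r : Ω) (b : RatFunc (Kb k Ω)), r ≠ 0 ∧ r ^ 3 = jK k Ω b ∧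
      ∀ g, wdeg g = 0 → kum ζ r (gal g) = h g := by
  have h1 : h 1 = 0 := hs 1 U.one_mem
  let H : Subgroup (WG k Ω) :=
    { carrier := {g | wdeg g = 0 ∧ h g = 0}
      one_mem' := ⟨rfl, h1⟩
      mul_mem' := fun {a b} ha hb => ⟨(WG0 k Ω).mul_mem ha.1 hb.1, by
        rw [hh a b ha.1 hb.1, ha.2, hb.2, add_zero]⟩
      inv_mem' := fun {a} ha => ⟨(WG0 k Ω).inv_mem ha.1, by
        have := hh a a⁻¹ ha.1 ((WG0 k Ω).inv_mem ha.1)
        rwa [mul_inv_cancel, h1, ha.2, zero_add, eq_comm] at this⟩ }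
  obtain ⟨S, hS⟩ := hU.2.2.1
  have hz := hζ.map_of_injective (algebraMap k Ω).injective
  obtain ⟨r, hr, hg⟩ := kummer_abstract
    (((MulSemiringAction.toRingAut (Gam k Ω) Ω).comp gal).comp (WG0 k Ω).subtype) _ hz
    (fun g => gal_algebraMap g.1 ζ) (fun g => h g.1) (fun g g' => hh _ _ g.2 g'.2) fun g hg =>
      (gb_closed (U := H) (fun g hg h' => ⟨hg, hs g (hS g hg h')⟩) g.2 fun a ha => hg a
        fun n hn => (mem_MU (U := H) fun _ hu => hu.1).1 ha n.1 ⟨n.2, hn⟩).2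
  replace hg : ∀ g, wdeg g = 0 → gal g r = algebraMap k Ω ζ ^ (h g).val * r :=
    fun g h0 => hg ⟨g, h0⟩
  obtain ⟨b, hb⟩ := fixed_geom (a := r ^ 3) fun g h0 => by
    rw [map_pow, hg g h0, mul_pow, ← pow_mul, mul_comm _ 3, pow_mul, hz.pow_eq_one, one_pow,
      one_mul]
  exact ⟨r, b, hr, hb.symm, fun g h0 => kum_eq hζ hr (hg g h0)⟩

/-- the fixer of a cube root of a geometric function contains an admissible subgroup -/
theorem adm_kum {ζ : k} (hζ : IsPrimitiveRoot ζ 3) {r : Ω} {b : RatFunc (Kb k Ω)}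
    (hr : r ^ 3 = jK k Ω b) : ∃ U : Subgroup (WG k Ω), Adm U ∧ ∀ u ∈ U, gal u r = r := by
  rcases eq_or_ne r 0 with rfl | h0
  · exact ⟨_, adm_WG0, fun u _ => map_zero _⟩
  have hz := hζ.map_of_injective (algebraMap k Ω).injective
  refine ⟨_, adm_core (WG0 k Ω ⊓ gb_fix k {r}) inf_le_left {r} (fun g hg h => ⟨hg, h⟩)
    fun g hg => ⟨1, (WG0 k Ω).pow_mem hg _, fun a ha => ?_⟩, fun u hu =>
      (Subgroup.normalCore_le _ hu).2 r (Finset.mem_singleton_self r)⟩
  have h1 := kum_spec hζ h0 (g := gal g) (by rw [hr, geom_fix hg])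
  generalize (kum ζ r (gal g)).val = m at h1
  have h2 : ∀ n : ℕ, gal (g ^ n) r = (algebraMap k Ω ζ ^ n) ^ m * r := by
    intro n
    induction n with
    | zero => simp
    | succ n ih =>
      rw [pow_succ', map_mul, AlgEquiv.mul_apply, ih, map_mul, map_pow, map_pow, gal_algebraMap, h1]
      ring
  rw [Finset.mem_singleton.1 ha, h2, pow_one, hz.pow_eq_one, one_pow, one_mul]

end

end Pool.Agent.Smith
end

-- merged part: Pool.Agent.Work.MP_60d5ce_nt.Sm.LocB
section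
/-!
# Tame inertia: the pro-3 quotient is generated by one element
-/

namespace Pool.Agent.Smith

variable {M Λ : Type} [Field M] [Field Λ] [Algebra M Λ] [IsGalois M Λ]

theorem LocB_open (N : Subgroup (Λ ≃ₐ[M] Λ)) (S : Finset Λ)
    (hS : ∀ g : Λ ≃ₐ[M] Λ, (∀ a ∈ S, g a = a) → g ∈ N) : IsOpen (N : Set (Λ ≃ₐ[M] Λ)) := by
  have : FiniteDimensional M (IntermediateField.adjoin M (S : Set Λ)) :=
    IntermediateField.finiteDimensional_adjoin fun x _ => Algebra.IsIntegral.isIntegral x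
  refine Subgroup.isOpen_mono (fun g hg => hS g fun a ha => ?_)
    (IntermediateField.fixingSubgroup_isOpen (IntermediateField.adjoin M (S : Set Λ)))
  exact (IntermediateField.mem_fixingSubgroup_iff _ _).1 hg a
    (IntermediateField.subset_adjoin _ _ ha)

/-- The data of a tamely ramified situation over the maximal unramified extension. -/
structure TI (M Λ : Type) [Field M] [Field Λ] [Algebra M Λ] where
  w : AbsoluteValue Λ ℝ
  z : Λ
  π : Λ
  hz : IsPrimitiveRoot z 3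
  hπ : w π = 2⁻¹
  fixπ : ∀ g : Λ ≃ₐ[M] Λ, g π = π
  fixu : ∀ (g : Λ ≃ₐ[M] Λ) (u : Λ) (n : ℕ), 0 < n → u ^ n = 1 → g u = u
  cube : ∀ u : Λ, u ^ 3 = 1 → w (u - 1) < 1 → u = 1
  res : ∀ (g : Λ ≃ₐ[M] Λ) (a : Λ), w a ≤ 1 → w (g a - a) < 1
  disc : ∀ a : Λ, a ≠ 0 → (∀ g : Λ ≃ₐ[M] Λ, g a = a) → ∃ n : ℤ, w a = 2 ^ n
  root : ∀ n : ℕ, ∃ r : Λ, r ^ 3 ^ n = π

namespace TI

variable (T : TI M Λ)

omit [IsGalois M Λ] in
theorem π_ne : T.π ≠ 0 := by
  intro h
  have := T.hπ
  rw [h, map_zero] at this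
  norm_num at this

omit [IsGalois M Λ] in
theorem root_ne {r : Λ} {n : ℕ} (hn : 0 < n) (hr : r ^ n = T.π) : r ≠ 0 := by
  rintro rfl
  rw [zero_pow hn.ne'] at hr
  exact T.π_ne hr.symm

omit [IsGalois M Λ] in
theorem unit_fix (g : Λ ≃ₐ[M] Λ) {b : Λ} (hb : T.w b = 1) (h3 : g (b ^ 3) = b ^ 3) : g b = b := by
  have b0 : b ≠ 0 := by
    rintro rfl
    simp at hb
  have h := T.cube (g b / b) (by rw [div_pow, ← map_pow, h3, div_self (pow_ne_zero _ b0)]) (by
    rw [div_sub_one b0, map_div₀, hb, div_one]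
    exact T.res g b hb.le)
  exact (div_eq_one_iff_eq b0).1 h

omit [IsGalois M Λ] in
theorem exists_tau : ∃ τ : Λ ≃ₐ[M] Λ, ∀ r, r ^ 3 = T.π → τ r = T.z * r := by
  obtain ⟨r, hr⟩ := T.root 1
  rw [pow_one] at hr
  have r0 := T.root_ne three_pos hr
  obtain ⟨s, hs⟩ : ∃ s : Λ ≃ₐ[M] Λ, s r ≠ r := by
    by_contra hcon
    push Not at hcon
    obtain ⟨n, hn⟩ := T.disc r r0 hcon
    have h1 := T.hπ
    rw [← hr, map_pow, hn, ← zpow_natCast, ← zpow_mul, ← zpow_neg_one] at h1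
    have := zpow_right_injective₀ (by norm_num) (by norm_num) h1
    omega
  have hz := fun g => T.fixu g T.z 3 three_pos T.hz.pow_eq_one
  obtain ⟨τ, hτ⟩ : ∃ τ : Λ ≃ₐ[M] Λ, τ r = T.z * r := by
    obtain ⟨i, hi⟩ := GalKum_root (u := s r / r) T.hz
      (by rw [div_pow, ← map_pow, hr, T.fixπ, div_self T.π_ne])
    have e := (div_eq_iff r0).1 hi
    rcases GalKum_cases i with rfl | rfl | rfl
    · rw [GalKum_val0, pow_zero, one_mul] at e
      exact absurd e hs
    · rw [GalKum_val1, pow_one] at e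
      exact ⟨s, e⟩
    · rw [GalKum_val2] at e
      refine ⟨s * s, ?_⟩
      rw [AlgEquiv.mul_apply, e, map_mul, map_pow, hz, e]
      linear_combination T.z * r * T.hz.pow_eq_one
  refine ⟨τ, fun r' hr' => ?_⟩
  have e : r' = r' / r * r := (div_mul_cancel₀ _ r0).symm
  have h1 := T.fixu τ (r' / r) 3 three_pos (by rw [div_pow, hr, hr', div_self T.π_ne])
  rw [e, map_mul, h1, hτ]
  ring

variable {T} {τ : Λ ≃ₐ[M] Λ} (hτ : ∀ r, r ^ 3 = T.π → τ r = T.z * r)

include hτ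

theorem char_zero (h : (Λ ≃ₐ[M] Λ) → F3) (hh : ∀ g g', h (g * g') = h g + h g') (S : Finset Λ)
    (hS : ∀ g : Λ ≃ₐ[M] Λ, (∀ a ∈ S, g a = a) → h g = 0) (h0 : h τ = 0) (g : Λ ≃ₐ[M] Λ) :
    h g = 0 := by
  have h1 : h 1 = 0 := hS 1 fun _ _ => rfl
  let N : Subgroup (Λ ≃ₐ[M] Λ) :=
    { carrier := {g | h g = 0}
      mul_mem' := fun {a b} ha hb => by
        simp only [Set.mem_ofPred_eq] at *
        rw [hh, ha, hb, add_zero]
      one_mem' := h1
      inv_mem' := fun {a} ha => by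
        simp only [Set.mem_ofPred_eq] at *
        have := hh a a⁻¹
        rw [mul_inv_cancel, h1, ha, zero_add] at this
        exact this.symm }
  have hN : IsClosed (N : Set (Λ ≃ₐ[M] Λ)) := N.isClosed_of_isOpen (LocB_open N S hS)
  have hz := fun g => T.fixu g T.z 3 three_pos T.hz.pow_eq_one
  obtain ⟨r, r0, hr⟩ := kummer_abstract (MulSemiringAction.toRingAut (Λ ≃ₐ[M] Λ) Λ) T.z T.hz hz
    h hh fun g hg => by
      have e := InfiniteGalois.fixingSubgroup_fixedField (⟨N, hN⟩ : ClosedSubgroup (Λ ≃ₐ[M] Λ))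
      have : g ∈ (IntermediateField.fixedField N).fixingSubgroup :=
        (IntermediateField.mem_fixingSubgroup_iff _ _).2 fun a ha =>
          hg a fun n hn => (IntermediateField.mem_fixedField_iff N a).1 ha n hn
      exact e.le this
  replace hr : ∀ g : Λ ≃ₐ[M] Λ, g r = T.z ^ (h g).val * r := hr
  have h3 : ∀ g : Λ ≃ₐ[M] Λ, g (r ^ 3) = r ^ 3 := fun g => by
    rw [map_pow, hr, mul_pow, ← pow_mul, mul_comm _ 3, pow_mul, T.hz.pow_eq_one, one_pow, one_mul]
  obtain ⟨n, hn⟩ := T.disc _ (pow_ne_zero 3 r0) h3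
  obtain ⟨s, hs⟩ := T.root 1
  rw [pow_one] at hs
  have s0 := T.root_ne three_pos hs
  have e3 : (r * s ^ n) ^ 3 = r ^ 3 * T.π ^ n := by
    rw [mul_pow, ← hs, ← zpow_natCast (s ^ n), ← zpow_mul, mul_comm n, zpow_mul, zpow_natCast]
  have hb : T.w (r * s ^ n) = 1 := by
    refine (pow_eq_one_iff_of_nonneg (T.w.nonneg _) three_ne_zero).1 ?_
    rw [← map_pow, e3, map_mul, hn, map_zpow₀, T.hπ, ← mul_zpow]
    norm_num
  have hf : ∀ g : Λ ≃ₐ[M] Λ, g (r * s ^ n) = r * s ^ n := fun g =>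
    T.unit_fix g hb (by rw [e3, map_mul, h3, map_zpow₀, T.fixπ])
  have hzn : T.z ^ n = 1 := by
    have := hf τ
    rw [map_mul, map_zpow₀, hr, h0, GalKum_val0, pow_zero, one_mul, hτ s hs, mul_zpow] at this
    have h2 := mul_left_cancel₀ r0 this
    exact mul_right_cancel₀ (zpow_ne_zero n s0) (h2.trans (one_mul _).symm)
  obtain ⟨i, hi⟩ := GalKum_root (u := g s / s) T.hz
    (by rw [div_pow, ← map_pow, hs, T.fixπ, div_self T.π_ne])
  have e := (div_eq_iff s0).1 hi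
  have h4 := hf g
  rw [map_mul, map_zpow₀, e, mul_zpow, ← zpow_natCast, ← zpow_mul, mul_comm _ n, zpow_mul, hzn,
    one_zpow, one_mul, hr] at h4
  have h5 := mul_right_cancel₀ r0
    ((mul_right_cancel₀ (zpow_ne_zero n s0) h4).trans (one_mul r).symm)
  exact (ZMod.val_eq_zero _).1
    (Nat.eq_zero_of_dvd_of_lt (T.hz.dvd_of_pow_eq_one _ h5) (ZMod.val_lt _))

theorem cyclic (N : Subgroup (Λ ≃ₐ[M] Λ)) [N.Normal] (S : Finset Λ)
    (hS : ∀ g : Λ ≃ₐ[M] Λ, (∀ a ∈ S, g a = a) → g ∈ N) (h3 : ∀ g, ∃ j : ℕ, g ^ 3 ^ j ∈ N)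
    (g : Λ ≃ₐ[M] Λ) : ∃ m : ℤ, (τ ^ m)⁻¹ * g ∈ N := by
  have : Finite ((Λ ≃ₐ[M] Λ) ⧸ N) := N.quotient_finite_of_isOpen (LocB_open N S hS)
  have hp : IsPGroup 3 ((Λ ≃ₐ[M] Λ) ⧸ N) := by
    intro x
    obtain ⟨y, rfl⟩ := QuotientGroup.mk_surjective x
    obtain ⟨j, hj⟩ := h3 y
    exact ⟨j, by rw [← QuotientGroup.mk_pow, QuotientGroup.eq_one_iff]; exact hj⟩
  have ht := frattini hp (Subgroup.zpowers (τ : (Λ ≃ₐ[M] Λ) ⧸ N)) fun h hh h0 => by
    funext x
    obtain ⟨y, rfl⟩ := QuotientGroup.mk_surjective x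
    refine char_zero hτ (fun g => h g) (fun g g' => by rw [QuotientGroup.mk_mul, hh]) S
      (fun g hg => h0 _ ?_) (h0 _ (Subgroup.mem_zpowers _)) y
    rw [(QuotientGroup.eq_one_iff g).2 (hS g hg)]
    exact Subgroup.one_mem _
  obtain ⟨m, hm⟩ : (g : (Λ ≃ₐ[M] Λ) ⧸ N) ∈ Subgroup.zpowers (τ : (Λ ≃ₐ[M] Λ) ⧸ N) := by
    rw [ht]
    exact Subgroup.mem_top _
  refine ⟨m, QuotientGroup.eq.1 ?_⟩
  rw [QuotientGroup.mk_zpow]
  exact hm

/-- An element fixing a root of the uniformiser of large order is in `N`. -/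
theorem mem_of_fix (N : Subgroup (Λ ≃ₐ[M] Λ)) [hN : N.Normal] (S : Finset Λ)
    (hS : ∀ g : Λ ≃ₐ[M] Λ, (∀ a ∈ S, g a = a) → g ∈ N) (h3 : ∀ g, ∃ j : ℕ, g ^ 3 ^ j ∈ N) :
    ∃ (n : ℕ) (r : Λ), r ^ 3 ^ n = T.π ∧ ∀ g : Λ ≃ₐ[M] Λ, g r = r → g ∈ N := by
  classical
  obtain ⟨n, hn⟩ := h3 τ
  obtain ⟨r, hr⟩ := T.root (n + 1)
  have hpos : 0 < 3 ^ (n + 1) := by positivity
  have r0 := T.root_ne hpos hr
  have hu : ∀ g : Λ ≃ₐ[M] Λ, (g r / r) ^ 3 ^ (n + 1) = 1 := fun g => by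
    rw [div_pow, ← map_pow, hr, T.fixπ, div_self T.π_ne]
  have hfu : ∀ g g' : Λ ≃ₐ[M] Λ, g' (g r / r) = g r / r := fun g g' =>
    T.fixu g' _ _ hpos (hu g)
  have hmul : ∀ g g' : Λ ≃ₐ[M] Λ, (g * g') r / r = g r / r * (g' r / r) := fun g g' => by
    have e : g' r = g' r / r * r := (div_mul_cancel₀ _ r0).symm
    rw [AlgEquiv.mul_apply]
    conv_lhs => rw [e, map_mul, hfu]
    ring
  let χ : (Λ ≃ₐ[M] Λ) →* Λ :=
    { toFun := fun g => g r / r
      map_one' := div_self r0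
      map_mul' := hmul }
  let χ' : (Λ ≃ₐ[M] Λ) →* Λˣ := χ.toHomUnits
  have hker : ∀ g : Λ ≃ₐ[M] Λ, g ∈ χ'.ker ↔ g r = r := fun g => by
    rw [MonoidHom.mem_ker, Units.ext_iff]
    exact div_eq_one_iff_eq r0
  have hpow : ∀ g : Λ ≃ₐ[M] Λ, χ' g ^ 3 ^ (n + 1) = 1 := fun g => Units.ext (by
    rw [Units.val_pow_eq_pow_val]
    exact hu g)
  have hord : orderOf (χ' τ) = 3 ^ (n + 1) := by
    have : Fact (Nat.Prime 3) := ⟨Nat.prime_three⟩
    refine orderOf_eq_prime_pow (fun h => ?_) (hpow τ)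
    have h1 : (τ r / r) ^ 3 ^ n = 1 := by
      have := congrArg Units.val h
      rwa [Units.val_pow_eq_pow_val] at this
    rw [div_pow, ← map_pow, hτ _ (by rw [← pow_mul, ← pow_succ, hr]),
      mul_div_cancel_right₀ _ (pow_ne_zero _ r0)] at h1
    exact T.hz.ne_one (by norm_num) h1
  refine ⟨n + 1, r, hr, fun g hg => ?_⟩
  obtain ⟨m, hm⟩ := cyclic hτ (N ⊓ χ'.ker) (insert r S)
    (fun g hg => ⟨hS g fun a ha => hg a (Finset.mem_insert_of_mem ha),
      (hker g).2 (hg r (Finset.mem_insert_self _ _))⟩)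
    (fun g => by
      obtain ⟨j, hj⟩ := h3 g
      refine ⟨j + (n + 1), Subgroup.mem_inf.2 ⟨?_, ?_⟩⟩
      · rw [pow_add, pow_mul]
        exact N.pow_mem hj _
      · rw [MonoidHom.mem_ker, map_pow, add_comm j, pow_add, pow_mul, hpow, one_pow]) g
  obtain ⟨hm1, hm2⟩ := Subgroup.mem_inf.1 hm
  have h1 : χ' τ ^ m = 1 := by
    rw [MonoidHom.mem_ker, map_mul, (hker g).2 hg, mul_one, map_inv, inv_eq_one, map_zpow] at hm2
    exact hm2
  obtain ⟨c, rfl⟩ := orderOf_dvd_iff_zpow_eq_one.2 h1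
  have h2 : τ ^ ((orderOf (χ' τ) : ℤ) * c) ∈ N := by
    rw [hord, zpow_mul, zpow_natCast, pow_succ, pow_mul]
    exact N.zpow_mem (N.pow_mem hn 3) c
  simpa using N.mul_mem h2 hm1

end TI

end Pool.Agent.Smith
end

-- merged part: Pool.Agent.Work.MP_60d5ce_nt.Sm.LocA
section
/-!
# Valued Galois extensions whose residue field lifts: Frobenius, inertia, the tame relation
-/

namespace Pool.Agent.Smith

open Polynomial

section small

variable {Λ : Type} [Field Λ] {w : AbsoluteValue Λ ℝ} (hw : IsNonarchimedean w)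

include hw

theorem LocA_add_lt {a b : Λ} {t : ℝ} (ha : w a < t) (hb : w b < t) : w (a + b) < t :=
  (hw a b).trans_lt (max_lt ha hb)

theorem LocA_add_le {a b : Λ} {t : ℝ} (ha : w a ≤ t) (hb : w b ≤ t) : w (a + b) ≤ t :=
  (hw a b).trans (max_le ha hb)

theorem LocA_sum_lt {ι : Type} (s : Finset ι) (f : ι → Λ) (h : ∀ i ∈ s, w (f i) < 1) :
    w (∑ i ∈ s, f i) < 1 :=
  Finset.sum_induction f (fun a => w a < 1) (fun _ _ => LocA_add_lt hw) (by simp) h

theorem LocA_sum_le {ι : Type} (s : Finset ι) (f : ι → Λ) (h : ∀ i ∈ s, w (f i) ≤ 1) :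
    w (∑ i ∈ s, f i) ≤ 1 :=
  Finset.sum_induction f (fun a => w a ≤ 1) (fun _ _ => LocA_add_le hw) (by simp) h

theorem LocA_trans {a b c : Λ} {t : ℝ} (h1 : w (a - b) < t) (h2 : w (b - c) < t) :
    w (a - c) < t := by
  rw [← sub_add_sub_cancel a b c]
  exact LocA_add_lt hw h1 h2

theorem LocA_le {a b : Λ} {t : ℝ} (hb : w b ≤ t) (h : w (a - b) < t) : w a ≤ t := by
  rw [← sub_add_cancel a b]
  exact LocA_add_le hw h.le hb

theorem LocA_eq {a b : Λ} (h : w (a - b) < w b) : w a = w b := by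
  refine le_antisymm (LocA_le hw le_rfl h) (not_lt.1 fun h1 => ?_)
  have := LocA_add_lt hw h1 ((w.map_sub b a).trans_lt h)
  rw [add_sub_cancel] at this
  exact lt_irrefl _ this

theorem LocA_pow {a b : Λ} (ha : w a ≤ 1) (hb : w b ≤ 1) (h : w (a - b) < 1) (n : ℕ) :
    w (a ^ n - b ^ n) < 1 := by
  rw [← (Commute.all a b).geom_sum₂_mul n, map_mul]
  refine mul_lt_one_of_nonneg_of_lt_one_right (LocA_sum_le hw _ _ fun i _ => ?_) (w.nonneg _) h
  rw [map_mul, map_pow, map_pow]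
  exact mul_le_one₀ (pow_le_one₀ (w.nonneg _) ha) (by positivity) (pow_le_one₀ (w.nonneg _) hb)

variable {C : Type} [Field C] {j : C →+* Λ} (hj : ∀ c, c ≠ 0 → w (j c) = 1)

include hj

omit hw in
theorem LocA_j_le (c : C) : w (j c) ≤ 1 := by
  by_cases h : c = 0
  · simp [h]
  · exact (hj c h).le

omit hw in
theorem LocA_j_eq {c c' : C} (h : w (j c - j c') < 1) : c = c' := by
  by_contra hne
  rw [← map_sub, hj _ (sub_ne_zero.2 hne)] at h
  exact lt_irrefl _ h

theorem LocA_eval (g : C[X]) {a : Λ} {x : C} (h : w (a - j x) < 1) :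
    w (eval₂ j a g - j (eval x g)) < 1 := by
  rw [eval₂_eq_sum_range, eval_eq_sum_range, map_sum, ← Finset.sum_sub_distrib]
  refine LocA_sum_lt hw _ _ fun i _ => ?_
  rw [map_mul, ← mul_sub, map_mul, map_pow j]
  exact mul_lt_one_of_nonneg_of_lt_one_right (LocA_j_le hj _) (w.nonneg _)
    (LocA_pow hw (LocA_le hw (LocA_j_le hj x) h) (LocA_j_le hj x) h i)

omit hw hj in
theorem LocA_root [IsAlgClosed C] {g : C[X]} (hg : g.Monic) {a : Λ} (h : w (eval₂ j a g) < 1) :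
    ∃ r, g.IsRoot r ∧ w (a - j r) < 1 := by
  by_contra hcon
  push Not at hcon
  refine absurd h (not_lt.2 ?_)
  rw [(IsAlgClosed.splits g).eq_prod_roots_of_monic hg, eval₂_multiset_prod, Multiset.map_map]
  refine Multiset.prod_induction (fun b => 1 ≤ w b) _ (fun b c hb hc => ?_) (by simp) ?_
  · rw [map_mul]
    exact one_le_mul_of_one_le_of_one_le hb hc
  · intro b hb
    obtain ⟨r, hr, rfl⟩ := Multiset.mem_map.1 hb
    simpa using hcon r ((mem_roots hg.ne_zero).1 hr)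

end small

theorem LocA_mem {Λ C : Type} [Field Λ] [Field C] [IsAlgClosed C] (j : C →+* Λ) {u : Λ} {n : ℕ}
    (hn : 0 < n) (hu : u ^ n = 1) : ∃ c, j c = u := by
  let _ : Algebra C Λ := j.toAlgebra
  have hi : IsIntegral C u := IsIntegral.of_pow hn (hu ▸ isIntegral_one)
  exact hi.mem_range_algebraMap_of_minpoly_splits (K := C) (IsAlgClosed.splits _)

theorem LocA_tors {Λ C : Type} [Field Λ] [Field C] (w : AbsoluteValue Λ ℝ) (j : C →+* Λ)
    (h : ∀ c : C, c ≠ 0 → ∃ n, 0 < n ∧ c ^ n = 1) (c : C) (hc : c ≠ 0) : w (j c) = 1 := by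
  obtain ⟨n, hn, h1⟩ := h c hc
  refine (pow_eq_one_iff_of_nonneg (w.nonneg _) hn.ne').1 ?_
  rw [← map_pow, ← map_pow, h1, map_one, map_one]

/-- Local data. -/
structure LD (L Λ C : Type) [Field L] [Field Λ] [Algebra L Λ] [Field C] where
  j : C →+* Λ
  w : AbsoluteValue Λ ℝ
  φ : C →+* C
  na : IsNonarchimedean w
  iso : ∀ (s : Λ ≃ₐ[L] Λ) a, w (s a) = w a
  int : ∀ a, w a ≤ 1 → ∀ i, w (algebraMap L Λ ((minpoly L a).coeff i)) ≤ 1
  tors : ∀ c : C, c ≠ 0 → ∃ n, 0 < n ∧ c ^ n = 1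
  res : ∀ a : L, w (algebraMap L Λ a) ≤ 1 → ∃ c, φ c = c ∧ w (algebraMap L Λ a - j c) < 1
  disc : ∀ a : L, a ≠ 0 → ∃ n : ℤ, w (algebraMap L Λ a) = 2 ^ n

namespace LD

variable {L Λ C : Type} [Field L] [Field Λ] [Algebra L Λ] [Field C] (D : LD L Λ C)

theorem w_j (c : C) (hc : c ≠ 0) : D.w (D.j c) = 1 := LocA_tors D.w D.j D.tors c hc

theorem phi_fix {c : C} {a : L} (h : D.j c = algebraMap L Λ a) : D.φ c = c := by
  obtain ⟨c', h1, h2⟩ := D.res a (h ▸ LocA_j_le D.w_j c)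
  rw [← h] at h2
  rw [LocA_j_eq D.w_j h2, h1]

variable [IsAlgClosed C]

theorem map_mem (s : Λ ≃ₐ[L] Λ) (c : C) : ∃ c', D.j c' = s (D.j c) := by
  by_cases hc : c = 0
  · exact ⟨0, by simp [hc]⟩
  · obtain ⟨n, hn, h⟩ := D.tors c hc
    exact LocA_mem D.j hn (by rw [← map_pow, ← map_pow, h, map_one, map_one])

variable [IsGalois L Λ]

theorem big_res {a : Λ} (ha : D.w a ≤ 1) : ∃ c, D.w (a - D.j c) < 1 := by
  have hi : IsIntegral L a := Algebra.IsIntegral.isIntegral a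
  choose c _ hc using fun i => D.res _ (D.int a ha i)
  let g : C[X] := X ^ (minpoly L a).natDegree +
    ∑ i ∈ Finset.range (minpoly L a).natDegree, Polynomial.C (c i) * X ^ i
  have hg : g.Monic := monic_X_pow_add (by
    rw [← Fin.sum_univ_eq_sum_range (fun i => Polynomial.C (c i) * X ^ i)]
    exact degree_sum_fin_lt _)
  have h0 := minpoly.aeval L a
  rw [aeval_eq_sum_range, Finset.sum_range_succ, (minpoly.monic hi).coeff_natDegree,
    one_smul] at h0
  obtain ⟨r, -, hr⟩ := LocA_root (w := D.w) (j := D.j) hg (a := a) (by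
    have e : eval₂ D.j a g = ∑ i ∈ Finset.range (minpoly L a).natDegree,
        -((algebraMap L Λ ((minpoly L a).coeff i) - D.j (c i)) * a ^ i) := by
      simp only [g, eval₂_add, eval₂_pow, eval₂_X, eval₂_finsetSum, eval₂_mul, eval₂_C, sub_mul,
        neg_sub, Finset.sum_sub_distrib, ← Algebra.smul_def]
      linear_combination h0
    rw [e]
    refine LocA_sum_lt D.na _ _ fun i _ => ?_
    rw [AbsoluteValue.map_neg, map_mul, map_pow]
    exact mul_lt_one_of_nonneg_of_lt_one_left (D.w.nonneg _) (hc i)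
      (pow_le_one₀ (D.w.nonneg _) ha))
  exact ⟨r, hr⟩

theorem one_frob (c : C) : ∃ s : Λ ≃ₐ[L] Λ, s (D.j c) = D.j (D.φ c) := by
  have hi : IsIntegral L (D.j c) := Algebra.IsIntegral.isIntegral _
  have hm := (minpoly.monic hi).map (algebraMap L Λ)
  obtain ⟨g, hg⟩ : (minpoly L (D.j c)).map (algebraMap L Λ) ∈ lifts D.j := by
    rw [(Normal.splits inferInstance (D.j c)).eq_prod_roots_of_monic hm]
    refine Subsemiring.multiset_prod_mem _ _ fun p hp => ?_
    obtain ⟨r, hr, rfl⟩ := Multiset.mem_map.1 hp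
    obtain ⟨s, hs⟩ := minpoly.exists_algEquiv_of_root' hi.isAlgebraic
      (show aeval r (minpoly L (D.j c)) = 0 by
        rw [← eval_map_algebraMap]
        exact (mem_roots hm.ne_zero).1 hr)
    obtain ⟨c', hc'⟩ := D.map_mem s c
    exact ⟨X - Polynomial.C c', by simp [hc', hs]⟩
  rw [coe_mapRingHom] at hg
  have h1 : g.map D.φ = g := by
    ext i
    rw [coeff_map]
    exact D.phi_fix (by rw [← coeff_map, hg, coeff_map])
  have h2 : ∀ x, D.j (eval x g) = aeval (D.j x) (minpoly L (D.j c)) := fun x => by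
    rw [← eval_map_algebraMap, ← hg, eval_map, eval₂_at_apply]
  have h3 : eval c g = 0 := D.j.injective (by rw [h2, minpoly.aeval, map_zero])
  refine minpoly.exists_algEquiv_of_root' hi.isAlgebraic ?_
  rw [← h2, ← h1, eval_map, eval₂_at_apply, h3, map_zero, map_zero]

theorem exists_frob : ∃ s : Λ ≃ₐ[L] Λ, ∀ c, s (D.j c) = D.j (D.φ c) := by
  have hc : ∀ c : C, IsClosed {s : Λ ≃ₐ[L] Λ | s (D.j c) = D.j (D.φ c)} := by
    intro c
    obtain ⟨s, hs⟩ := D.one_frob c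
    have h1 := (MulAction.stabilizer (Λ ≃ₐ[L] Λ) (D.j c)).isClosed_of_isOpen
      (stabilizer_isOpen_of_isIntegral (K := L) (D.j c))
    convert h1.preimage (continuous_const_mul s⁻¹) using 1
    ext t
    simp only [Set.mem_ofPred_eq, Set.mem_preimage, SetLike.mem_coe, MulAction.mem_stabilizer_iff,
      AlgEquiv.smul_def, AlgEquiv.mul_apply, AlgEquiv.aut_inv, AlgEquiv.symm_apply_eq, hs]
  obtain ⟨s, -, hs⟩ := isCompact_univ.inter_iInter_nonempty _ hc fun T => by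
    obtain ⟨n, hn, hT⟩ : ∃ n, 0 < n ∧ ∀ c ∈ T, c ≠ 0 → c ^ n = 1 := by
      classical
      induction T using Finset.induction_on with
      | empty => exact ⟨1, one_pos, by simp⟩
      | insert a T _ ih =>
        obtain ⟨n, hn, h⟩ := ih
        by_cases ha : a = 0
        · exact ⟨n, hn, fun c hc c0 => h c ((Finset.mem_insert.1 hc).resolve_left (ha ▸ c0)) c0⟩
        · obtain ⟨m, hm, h'⟩ := D.tors a ha
          refine ⟨m * n, Nat.mul_pos hm hn, fun c hc c0 => ?_⟩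
          rcases Finset.mem_insert.1 hc with rfl | hc
          · rw [pow_mul, h', one_pow]
          · rw [mul_comm, pow_mul, h c hc c0, one_pow]
    have : NeZero n := ⟨hn.ne'⟩
    obtain ⟨u, hu⟩ := IsCyclic.exists_monoid_generator (α := rootsOfUnity n C)
    obtain ⟨s, hs⟩ := D.one_frob ((u : Cˣ) : C)
    refine ⟨s, Set.mem_univ _, Set.mem_iInter₂.2 fun c hcT => ?_⟩
    by_cases c0 : c = 0
    · simp [c0]
    · obtain ⟨i, hi⟩ := hu (rootsOfUnity.mkOfPowEq c (hT c hcT c0))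
      have e : c = ((u : Cˣ) : C) ^ i := by
        have := congrArg (fun x : rootsOfUnity n C => ((x : Cˣ) : C)) hi
        simpa using this.symm
      rw [Set.mem_ofPred_eq, e, map_pow, map_pow, hs, map_pow, map_pow]
  exact ⟨s, fun c => Set.mem_iInter.1 hs c⟩

theorem res' (a : L) (ha : D.w (algebraMap L Λ a) ≤ 1) :
    ∃ (e : L) (c : C), algebraMap L Λ e = D.j c ∧ D.w (algebraMap L Λ (a - e)) < 1 := by
  obtain ⟨c, -, hc⟩ := D.res a ha
  obtain ⟨e, he⟩ := (InfiniteGalois.mem_range_algebraMap_iff_fixed (k := L) (D.j c)).2 fun s => by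
    obtain ⟨c', hc'⟩ := D.map_mem s c
    have h1 : D.w (algebraMap L Λ a - D.j c') < 1 := by
      rw [hc', ← s.commutes, ← map_sub, D.iso]
      exact hc
    rw [← hc', LocA_j_eq D.w_j (LocA_trans D.na ((D.w.map_sub _ _).trans_lt h1) hc)]
  exact ⟨e, c, he, by rw [map_sub, he]; exact hc⟩

theorem span_disc (s : Finset C) (l : C → L) :
    ∃ b : L, D.w (∑ c ∈ s, algebraMap L Λ (l c) * D.j c) = D.w (algebraMap L Λ b) := by
  classical
  induction s using Finset.strongInduction generalizing l with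
  | H s ih =>
    rcases s.eq_empty_or_nonempty with rfl | hne
    · exact ⟨0, by simp⟩
    obtain ⟨c0, h0, hmax⟩ := s.exists_max_image (fun c => D.w (algebraMap L Λ (l c))) hne
    by_cases hl : l c0 = 0
    · refine ⟨0, congrArg D.w ((Finset.sum_eq_zero fun c hc => ?_).trans (map_zero _).symm)⟩
      have := hmax c hc
      rw [hl, map_zero, map_zero] at this
      rw [D.w.nonpos_iff.1 this, zero_mul]
    have hpos : 0 < D.w (algebraMap L Λ (l c0)) := D.w.pos (by simpa using hl)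
    have hle : ∀ c ∈ s, D.w (algebraMap L Λ (l c / l c0)) ≤ 1 := fun c hc => by
      rw [map_div₀, map_div₀]
      exact (div_le_one hpos).2 (hmax c hc)
    choose! e d hed hsm using fun c hc => D.res' _ (hle c hc)
    suffices h : ∃ b : L, D.w (∑ c ∈ s, algebraMap L Λ (l c / l c0) * D.j c) =
        D.w (algebraMap L Λ b) by
      obtain ⟨b, hb⟩ := h
      refine ⟨l c0 * b, ?_⟩
      rw [map_mul, map_mul, ← hb, ← map_mul, Finset.mul_sum]
      refine congrArg D.w (Finset.sum_congr rfl fun c _ => ?_)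
      rw [← mul_assoc, ← map_mul, mul_div_cancel₀ _ hl]
    have e1 : ∑ c ∈ s, algebraMap L Λ (l c / l c0) * D.j c - D.j (∑ c ∈ s, d c * c) =
        ∑ c ∈ s, algebraMap L Λ (l c / l c0 - e c) * D.j c := by
      rw [map_sum, ← Finset.sum_sub_distrib]
      refine Finset.sum_congr rfl fun c hc => ?_
      rw [map_mul, ← hed c hc, map_sub, sub_mul]
    by_cases hD : ∑ c ∈ s, d c * c = 0
    · rw [hD, map_zero, sub_zero] at e1
      have h1 : l c0 / l c0 - e c0 = 0 := by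
        have h2 := hsm c0 h0
        rw [div_self hl, map_sub, map_one, hed c0 h0, ← map_one D.j] at h2
        refine (algebraMap L Λ).injective ?_
        rw [div_self hl, map_sub, map_one, hed c0 h0, ← LocA_j_eq D.w_j h2, map_one, sub_self,
          map_zero]
      rw [e1, ← Finset.add_sum_erase s _ h0, h1, map_zero, zero_mul, zero_add]
      exact ih _ (Finset.erase_ssubset h0) fun c => l c / l c0 - e c
    · refine ⟨1, ?_⟩
      rw [map_one, map_one, ← D.w_j _ hD]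
      refine LocA_eq D.na ?_
      rw [e1, D.w_j _ hD]
      refine LocA_sum_lt D.na _ _ fun c hc => ?_
      rw [map_mul]
      exact mul_lt_one_of_nonneg_of_lt_one_left (D.w.nonneg _) (hsm c hc) (LocA_j_le D.w_j c)

/-- the maximal unramified extension -/
noncomputable def M : IntermediateField L Λ := IntermediateField.adjoin L (Set.range D.j)

theorem M_disc {a : Λ} (ha : a ∈ D.M) (a0 : a ≠ 0) : ∃ n : ℤ, D.w a = 2 ^ n := by
  have h1 : a ∈ (IntermediateField.adjoin L (Set.range D.j)).toSubalgebra := ha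
  rw [IntermediateField.adjoin_toSubalgebra_of_isAlgebraic
    fun x _ => Algebra.IsAlgebraic.isAlgebraic x] at h1
  have h2 : a ∈ Submodule.span L (Set.range D.j) := by
    have h3 : a ∈ Subalgebra.toSubmodule (Algebra.adjoin L (Set.range D.j)) := h1
    rw [Algebra.adjoin_eq_span] at h3
    have h4 : Submonoid.closure (Set.range D.j) = MonoidHom.mrange D.j :=
      Submonoid.closure_eq (MonoidHom.mrange D.j)
    rw [h4] at h3
    exact h3
  obtain ⟨l, rfl⟩ := Finsupp.mem_span_range_iff_exists_finsupp.1 h2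
  obtain ⟨b, hb⟩ := D.span_disc l.support l
  have e : (l.sum fun i a => a • D.j i) = ∑ c ∈ l.support, algebraMap L Λ (l c) * D.j c := by
    simp only [Finsupp.sum, Algebra.smul_def]
  rw [← e] at hb
  rw [hb]
  refine D.disc b fun h => a0 ?_
  rw [h, map_zero, map_zero] at hb
  exact D.w.eq_zero.1 hb

omit [IsAlgClosed C] [IsGalois L Λ] in
theorem fix_j (g : Λ ≃ₐ[D.M] Λ) (c : C) : g (D.j c) = D.j c :=
  g.commutes ⟨D.j c, IntermediateField.subset_adjoin _ _ ⟨c, rfl⟩⟩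

/-- inertia inside the decomposition group -/
noncomputable def incl : (Λ ≃ₐ[D.M] Λ) →* (Λ ≃ₐ[L] Λ) where
  toFun g := g.restrictScalars L
  map_one' := rfl
  map_mul' _ _ := rfl

omit [IsAlgClosed C] [IsGalois L Λ] in
theorem exists_incl (s : Λ ≃ₐ[L] Λ) (hs : ∀ c, s (D.j c) = D.j c) : ∃ g, D.incl g = s := by
  have key : ∀ z ∈ D.M, s z = z := by
    intro z hz
    induction hz using IntermediateField.adjoin_induction with
    | mem y hy =>
      obtain ⟨c, rfl⟩ := hy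
      exact hs c
    | algebraMap y => exact s.commutes y
    | add y z _ _ ihy ihz => rw [map_add, ihy, ihz]
    | inv y _ ih => rw [map_inv₀, ih]
    | mul y z _ _ ihy ihz => rw [map_mul, ihy, ihz]
  exact ⟨{ s.toRingEquiv with commutes' := fun z => key z z.2 }, rfl⟩

theorem fix_res (s : Λ ≃ₐ[L] Λ) (hs : ∀ c, s (D.j c) = D.j c) (a : Λ) (ha : D.w a ≤ 1) :
    D.w (s a - a) < 1 := by
  obtain ⟨c, hc⟩ := D.big_res ha
  refine LocA_trans D.na ?_ ((D.w.map_sub _ _).trans_lt hc)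
  rw [← hs, ← map_sub, D.iso]
  exact hc

theorem frob_res {Q : ℕ} (hQ : ∀ c, D.φ c = c ^ Q) (s : Λ ≃ₐ[L] Λ)
    (hs : ∀ c, s (D.j c) = D.j (D.φ c)) (a : Λ) (ha : D.w a ≤ 1) : D.w (s a - a ^ Q) < 1 := by
  obtain ⟨c, hc⟩ := D.big_res ha
  refine LocA_trans D.na (b := D.j c ^ Q) ?_
    (LocA_pow D.na (LocA_j_le D.w_j c) ha ((D.w.map_sub _ _).trans_lt hc) Q)
  rw [← map_pow, ← hQ, ← hs, ← map_sub, D.iso]
  exact hc

/-- the tame data of the inertia group -/
def ti {z : C} (hz : IsPrimitiveRoot z 3) {π : Λ} (hπ : D.w π = 2⁻¹)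
    (hf : ∀ s : Λ ≃ₐ[L] Λ, (∀ c, s (D.j c) = D.j c) → s π = π)
    (hr : ∀ n : ℕ, ∃ r : Λ, r ^ 3 ^ n = π) : TI D.M Λ where
  w := D.w
  z := D.j z
  π := π
  hz := hz.map_of_injective D.j.injective
  hπ := hπ
  fixπ g := hf (D.incl g) (D.fix_j g)
  fixu g u n hn hu := by
    obtain ⟨c, rfl⟩ := LocA_mem D.j hn hu
    exact D.fix_j g c
  cube u hu h := by
    obtain ⟨c, rfl⟩ := LocA_mem D.j three_pos hu
    rw [← map_one D.j] at h ⊢
    rw [LocA_j_eq D.w_j h]
  res g := D.fix_res (D.incl g) (D.fix_j g)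
  disc a a0 h := by
    obtain ⟨b, rfl⟩ := (InfiniteGalois.mem_range_algebraMap_iff_fixed (k := D.M) a).2 h
    exact D.M_disc b.2 a0
  root := hr

theorem main {z : C} (hz : IsPrimitiveRoot z 3) {π : Λ} (hπ : D.w π = 2⁻¹)
    (hf : ∀ s : Λ ≃ₐ[L] Λ, (∀ c, s (D.j c) = D.j c) → s π = π)
    (hr : ∀ n : ℕ, ∃ r : Λ, r ^ 3 ^ n = π) {Q : ℕ} (hQ : ∀ c, D.φ c = c ^ Q)
    {σ : Λ ≃ₐ[L] Λ} (hσ : ∀ c, σ (D.j c) = D.j (D.φ c)) (hσπ : σ π = π) :
    ∃ τ : Λ ≃ₐ[L] Λ, (∀ c, τ (D.j c) = D.j c) ∧ (∀ r, r ^ 3 = π → τ r = D.j z * r) ∧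
      ∀ N : Subgroup (Λ ≃ₐ[L] Λ),
        (∀ g : Λ ≃ₐ[L] Λ, (∀ c, g (D.j c) = D.j c) → ∀ n ∈ N, g * n * g⁻¹ ∈ N) →
        (∃ S : Finset Λ, ∀ g : Λ ≃ₐ[L] Λ, (∀ c, g (D.j c) = D.j c) → (∀ a ∈ S, g a = a) → g ∈ N) →
        (∀ g : Λ ≃ₐ[L] Λ, (∀ c, g (D.j c) = D.j c) → ∃ i : ℕ, g ^ 3 ^ i ∈ N) →
        (∀ a, a ≠ 0 → (∀ n ∈ N, n a = a) → τ a = a → ∃ n : ℤ, D.w a = 2 ^ n) ∧
          (σ * τ)⁻¹ * (τ ^ Q * σ) ∈ N := by
  obtain ⟨τ, hτ⟩ := (D.ti hz hπ hf hr).exists_tau
  refine ⟨D.incl τ, D.fix_j τ, hτ, fun N h1 ⟨S, h2⟩ h3 => ?_⟩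
  have : (N.comap D.incl).Normal := ⟨fun n hn g => by
    rw [Subgroup.mem_comap, map_mul, map_mul, map_inv]
    exact h1 _ (D.fix_j g) _ hn⟩
  have h2' : ∀ g : Λ ≃ₐ[D.M] Λ, (∀ a ∈ S, g a = a) → g ∈ N.comap D.incl :=
    fun g hg => h2 _ (D.fix_j g) hg
  have h3' : ∀ g : Λ ≃ₐ[D.M] Λ, ∃ i : ℕ, g ^ 3 ^ i ∈ N.comap D.incl := fun g => by
    obtain ⟨i, hi⟩ := h3 (D.incl g) (D.fix_j g)
    exact ⟨i, by rw [Subgroup.mem_comap, map_pow]; exact hi⟩
  refine ⟨fun a a0 ha hτa => (D.ti hz hπ hf hr).disc a a0 fun g => ?_, ?_⟩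
  · obtain ⟨m, hm⟩ := TI.cyclic hτ (N.comap D.incl) S h2' h3' g
    have h4 : ((τ ^ m)⁻¹ * g) a = a := ha _ hm
    have h5 : (τ ^ m) a = a :=
      (MulAction.stabilizer (Λ ≃ₐ[D.M] Λ) a).zpow_mem (MulAction.mem_stabilizer_iff.2 hτa) m
    rw [AlgEquiv.mul_apply, AlgEquiv.aut_inv, AlgEquiv.symm_apply_eq] at h4
    exact h4.trans h5
  · obtain ⟨n, r, hr', hN⟩ := TI.mem_of_fix hτ (N.comap D.incl) S h2' h3'
    replace hr' : r ^ 3 ^ n = π := hr'
    have hpos : 0 < 3 ^ n := by positivity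
    have r0 := (D.ti hz hπ hf hr).root_ne hpos hr'
    have π0 : π ≠ 0 := (D.ti hz hπ hf hr).π_ne
    have hQτ : ∀ c, (D.incl τ ^ Q) (D.j c) = D.j c := fun c => by
      rw [← map_pow]
      exact D.fix_j _ c
    have hτc : ∀ c, D.incl τ (D.j c) = D.j c := D.fix_j τ
    obtain ⟨g, hg⟩ := D.exists_incl ((σ * D.incl τ)⁻¹ * (D.incl τ ^ Q * σ)) fun c => by
      rw [AlgEquiv.mul_apply, AlgEquiv.aut_inv, AlgEquiv.symm_apply_eq, AlgEquiv.mul_apply,
        AlgEquiv.mul_apply, hτc, hσ, hQτ]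
    rw [← hg]
    refine hN g ?_
    change D.incl g r = r
    obtain ⟨u, hu⟩ := LocA_mem D.j hpos (u := σ r / r)
      (by rw [div_pow, ← map_pow, hr', hσπ, div_self π0])
    obtain ⟨η, hη⟩ := LocA_mem D.j hpos (u := D.incl τ r / r)
      (by rw [div_pow, ← map_pow, hr', hf _ hτc, div_self π0])
    replace hu := ((eq_div_iff r0).1 hu).symm
    replace hη := ((eq_div_iff r0).1 hη).symm
    have hp : ∀ i : ℕ, (D.incl τ ^ i) r = D.j η ^ i * r := by
      intro i
      induction i with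
      | zero => simp
      | succ i ih =>
        rw [pow_succ', AlgEquiv.mul_apply, ih, map_mul, map_pow, hτc, hη]
        ring
    rw [hg, AlgEquiv.mul_apply, AlgEquiv.aut_inv, AlgEquiv.symm_apply_eq, AlgEquiv.mul_apply,
      AlgEquiv.mul_apply, hη, map_mul, hσ, hu, map_mul, hQτ, hp, hQ, map_pow]
    ring

end LD

end Pool.Agent.Smith
end

-- merged part: Pool.Agent.Work.MP_60d5ce_nt.Sm.LocC
section
/-!
# Absolute values of the rational function field, and the geometric point of a place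
-/

namespace Pool.Agent.Smith

open Polynomial WithZero IsDedekindDomain

theorem LocC_abs {K : Type} [Field K] (ν : Valuation K ℤᵐ⁰) : ∃ w : AbsoluteValue K ℝ,
    IsNonarchimedean w ∧ (∀ a (n : ℤ), ν a = exp n → w a = 2 ^ n) ∧
      (∀ a, a ≠ 0 → ∃ n : ℤ, w a = 2 ^ n) ∧ ∀ a, w a < 1 ↔ ν a < 1 := by
  have hm := WithZeroMulInt.toNNReal_strictMono (e := 2) one_lt_two
  have hna : ∀ x y : K, (WithZeroMulInt.toNNReal (e := 2) two_ne_zero (ν (x + y)) : ℝ) ≤
      max (WithZeroMulInt.toNNReal (e := 2) two_ne_zero (ν x) : ℝ)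
        (WithZeroMulInt.toNNReal (e := 2) two_ne_zero (ν y) : ℝ) := by
    intro x y
    rcases le_max_iff.1 (ν.map_add x y) with h | h
    · exact le_max_of_le_left (NNReal.coe_le_coe.2 (hm.monotone h))
    · exact le_max_of_le_right (NNReal.coe_le_coe.2 (hm.monotone h))
  let w : AbsoluteValue K ℝ :=
    { toFun := fun x => (WithZeroMulInt.toNNReal (e := 2) two_ne_zero (ν x) : ℝ)
      map_mul' := fun x y => by simp
      nonneg' := fun x => NNReal.coe_nonneg _
      eq_zero' := fun x => by simp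
      add_le' := fun x y => (hna x y).trans
        (max_le_add_of_nonneg (NNReal.coe_nonneg _) (NNReal.coe_nonneg _)) }
  have h1 : ∀ a (n : ℤ), ν a = exp n → w a = 2 ^ n := by
    intro a n h
    change (WithZeroMulInt.toNNReal (e := 2) two_ne_zero (ν a) : ℝ) = _
    rw [h, WithZeroMulInt.toNNReal_neg_apply _ exp_ne_zero]
    push_cast
    rfl
  refine ⟨w, hna, h1, fun a ha => ⟨_, h1 a _ (exp_log (by simpa using ha)).symm⟩, fun a => ?_⟩
  rw [← WithZeroMulInt.toNNReal_lt_one_iff (e := 2) one_lt_two]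
  exact NNReal.coe_lt_one

variable {k : Type} [Field k]

/-- the properties of the absolute value at a place -/
def LocC_Good (v : Pl k) (w : RatFunc k → ℝ) : Prop :=
  match v with
  | none => w RatFunc.X = 2 ∧ ∀ a, w a ≤ 1 → ∃ c : k, w (a - algebraMap k _ c) < 1
  | some p => w (algebraMap k[X] _ p.1) = 2⁻¹ ∧
      ∀ a, w a ≤ 1 → ∃ b : k[X], w (a - algebraMap k[X] _ b) < 1

theorem LocC_exists (v : Pl k) : ∃ w : AbsoluteValue (RatFunc k) ℝ, IsNonarchimedean w ∧
    (∀ a, a ≠ 0 → ∃ n : ℤ, w a = 2 ^ n) ∧ LocC_Good v w ∧ ∃ a, a ≠ 0 ∧ w a ≠ 1 := by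
  classical
  rcases v with _ | ⟨p, hm, hp⟩
  · obtain ⟨w, h1, h2, h3, -⟩ := LocC_abs (RatFunc.inftyValuation k)
    have hX : w RatFunc.X = 2 := by simpa using h2 _ _ (RatFunc.inftyValuation.X k)
    have hb : ∀ b : k[X], b ≠ 0 → w (algebraMap k[X] _ b) = 2 ^ (b.natDegree : ℤ) :=
      fun b hb => h2 _ _ (RatFunc.inftyValuation.polynomial k hb)
    refine ⟨w, h1, h3, ⟨hX, fun a ha => ?_⟩, RatFunc.X, RatFunc.X_ne_zero, by rw [hX]; norm_num⟩
    have hd := hb _ a.denom_ne_zero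
    have hd0 : algebraMap k[X] (RatFunc k) a.denom ≠ 0 := RatFunc.algebraMap_ne_zero a.denom_ne_zero
    have hdeg : a.num.natDegree ≤ a.denom.natDegree := by
      by_cases h0 : a.num = 0
      · simp [h0]
      · rw [← a.num_div_denom, map_div₀, hb _ h0, hd, div_le_one (by positivity),
          zpow_le_zpow_iff_right₀ one_lt_two] at ha
        exact_mod_cast ha
    obtain ⟨c, hc⟩ : ∃ c, Polynomial.C c = a.num /ₘ a.denom := natDegree_eq_zero.1 (by
      rw [natDegree_divByMonic _ a.monic_denom]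
      omega)
    refine ⟨c, ?_⟩
    have e : a - algebraMap k _ c = algebraMap k[X] _ (a.num %ₘ a.denom) /
        algebraMap k[X] (RatFunc k) a.denom := by
      rw [eq_div_iff hd0, eq_sub_of_add_eq (modByMonic_add_div a.num a.denom), ← hc, map_sub,
        map_mul, (div_eq_iff hd0).1 a.num_div_denom, RatFunc.algebraMap_C, RatFunc.algebraMap_eq_C]
      ring
    rw [e, map_div₀, hd, div_lt_one (by positivity)]
    by_cases h0 : a.num %ₘ a.denom = 0
    · rw [h0, map_zero, map_zero]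
      positivity
    · rw [hb _ h0, zpow_lt_zpow_iff_right₀ one_lt_two]
      exact_mod_cast natDegree_lt_natDegree h0 (degree_modByMonic_lt _ a.monic_denom)
  · let P : HeightOneSpectrum k[X] := ⟨Ideal.span {p},
      (Ideal.span_singleton_prime hp.ne_zero).2 hp.prime,
      fun e => hp.ne_zero (Ideal.span_singleton_eq_bot.1 e)⟩
    obtain ⟨w, h1, h2, h3, h4⟩ := LocC_abs (P.valuation (RatFunc k))
    have hself : w (algebraMap k[X] _ p) = 2⁻¹ := by
      simpa using h2 _ _ ((P.valuation_of_algebraMap (K := RatFunc k) p).trans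
        (P.intValuation_singleton hp.ne_zero rfl))
    have hlt : ∀ b : k[X], w (algebraMap k[X] _ b) < 1 ↔ p ∣ b := fun b => by
      rw [h4, P.valuation_lt_one_iff_mem]
      exact Ideal.mem_span_singleton
    refine ⟨w, h1, h3, ⟨hself, fun a ha => ?_⟩, algebraMap k[X] _ p,
      RatFunc.algebraMap_ne_zero hp.ne_zero, by rw [hself]; norm_num⟩
    have hd0 : algebraMap k[X] (RatFunc k) a.denom ≠ 0 := RatFunc.algebraMap_ne_zero a.denom_ne_zero
    have e : algebraMap k[X] (RatFunc k) a.num = a * algebraMap k[X] (RatFunc k) a.denom :=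
      (div_eq_iff hd0).1 a.num_div_denom
    have hnd : ¬ p ∣ a.denom := fun h => by
      refine hp.not_isUnit (a.isCoprime_num_denom.isUnit_of_dvd' ((hlt _).1 ?_) h)
      rw [e, map_mul]
      exact mul_lt_one_of_nonneg_of_lt_one_right ha (w.nonneg _) ((hlt _).2 h)
    obtain ⟨s, t, hst⟩ := hp.coprime_iff_not_dvd.2 hnd
    refine ⟨a.num * t, ?_⟩
    have e2 : a - algebraMap k[X] (RatFunc k) (a.num * t) =
        a * algebraMap k[X] (RatFunc k) (s * p) := by
      rw [eq_sub_of_add_eq hst, map_sub, map_one, map_mul, map_mul, e]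
      ring
    rw [e2, map_mul]
    exact mul_lt_one_of_nonneg_of_lt_one_right ha (w.nonneg _) ((hlt _).2 (dvd_mul_left _ _))

variable [Fintype k] {Ω : Type} [Field Ω] [Algebra (RatFunc k) Ω] [Algebra k Ω]
  [IsScalarTower k (RatFunc k) Ω]

omit [Algebra (RatFunc k) Ω] [IsScalarTower k (RatFunc k) Ω] in
theorem LocC_tors (c : Kb k Ω) (hc : c ≠ 0) : ∃ n, 0 < n ∧ c ^ n = 1 := by
  have hi : IsIntegral k c := Algebra.IsIntegral.isIntegral c
  have := IntermediateField.adjoin.finiteDimensional hi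
  have : Finite (IntermediateField.adjoin k {c}) := Module.finite_of_finite k
  have := Fintype.ofFinite (IntermediateField.adjoin k {c})
  refine ⟨Fintype.card (IntermediateField.adjoin k {c}) - 1,
    Nat.sub_pos_of_lt Fintype.one_lt_card, ?_⟩
  have h := FiniteField.pow_card_sub_one_eq_one (IntermediateField.AdjoinSimple.gen k c)
    fun h => hc (congrArg Subtype.val h)
  exact congrArg Subtype.val h

variable {Λ : Type} [Field Λ] [Algebra (RatFunc k) Λ]

/-- the embedding of the constants -/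
noncomputable def LocC_j (ι : Ω →ₐ[RatFunc k] Λ) : Kb k Ω →+* Λ :=
  ι.toRingHom.comp (algebraMap (Kb k Ω) Ω)

omit [Fintype k] [IsScalarTower k (RatFunc k) Ω] in
theorem LocC_j_apply (ι : Ω →ₐ[RatFunc k] Λ) (c : Kb k Ω) : LocC_j ι c = ι c := rfl

theorem LocC_eval (ι : Ω →ₐ[RatFunc k] Λ) (b : k[X]) :
    eval₂ (LocC_j ι) (ι (tt k Ω)) (b.map (algebraMap k (Kb k Ω))) =
      algebraMap (RatFunc k) Λ (algebraMap k[X] _ b) := by
  rw [← ι.commutes, ← aeval_tt_base, ← aeval_tt_map, aeval_def]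
  exact (hom_eval₂ _ _ ι.toRingHom _).symm

variable [IsSepClosure (RatFunc k) Ω]

theorem LocC_point (ι : Ω →ₐ[RatFunc k] Λ) {w : AbsoluteValue Λ ℝ} (hw : IsNonarchimedean w)
    (v : Pl k) (hv : LocC_Good v fun a => w (algebraMap (RatFunc k) Λ a)) :
    ∃ x : Kb k Ω, (∀ p, v = some p → aeval x p.1 = 0) ∧ w (ι (unif v x)) = 2⁻¹ ∧
      (frob k Ω ^ pdg v) x = x ∧ ∀ a : RatFunc k, w (algebraMap _ Λ a) ≤ 1 →
        ∃ c : Kb k Ω, (frob k Ω ^ pdg v) c = c ∧ w (algebraMap _ Λ a - ι c) < 1 := by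
  have ht : ι (tt k Ω) = algebraMap _ Λ (RatFunc.X : RatFunc k) := ι.commutes _
  rcases v with _ | ⟨p, hm, hp⟩
  · obtain ⟨h1, h2⟩ := hv
    refine ⟨0, fun p h => (by cases h), ?_, map_zero _, fun a ha => ?_⟩
    · change w (ι (tt k Ω)⁻¹) = _
      rw [map_inv₀, map_inv₀, ht]
      exact congrArg _ h1
    · obtain ⟨c, hc⟩ := h2 a ha
      refine ⟨algebraMap k _ c, AlgEquiv.commutes _ c, ?_⟩
      have e : ι (algebraMap k (Kb k Ω) c) = algebraMap _ Λ (algebraMap k (RatFunc k) c) := by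
        rw [← ι.commutes, ← IsScalarTower.algebraMap_apply]
        rfl
      rw [e, ← map_sub]
      exact hc
  · obtain ⟨h1, h3⟩ := hv
    have hj := LocA_tors w (LocC_j ι) LocC_tors
    have h4 : w (eval₂ (LocC_j ι) (ι (tt k Ω)) (p.map (algebraMap k (Kb k Ω)))) = 2⁻¹ := by
      rw [LocC_eval]
      exact h1
    obtain ⟨x, hx, hlt⟩ := LocA_root (w := w) (j := LocC_j ι) (hm.map (algebraMap k (Kb k Ω)))
      (a := ι (tt k Ω)) (by rw [h4]; norm_num)
    have hx' : aeval x p = 0 := by rw [← eval_map_algebraMap]; exact hx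
    have hfix : (frob k Ω ^ p.natDegree) x = x := by
      have h5 := aeval_eq_zero_of_dvd_aeval_eq_zero
        (hp.natDegree_dvd_iff_dvd_X_pow_card_pow_sub_X.1 dvd_rfl) hx'
      rw [map_sub, map_pow, aeval_X, sub_eq_zero, Nat.card_eq_fintype_card] at h5
      rw [frob_pow_apply, h5]
    refine ⟨x, fun q h => (by cases h; exact hx'), ?_, hfix, fun a ha => ?_⟩
    · obtain ⟨g, hg⟩ := dvd_iff_isRoot.2 hx
      have hg0 : eval x g ≠ 0 := fun h => by
        obtain ⟨g', rfl⟩ := dvd_iff_isRoot.2 h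
        refine not_isUnit_X_sub_C x
          (((PerfectField.separable_of_irreducible hp).map
            (f := algebraMap k (Kb k Ω))).squarefree (X - Polynomial.C x) ⟨g', ?_⟩)
        rw [hg, mul_assoc]
      have h5 := LocA_eval hw hj g hlt
      have h6 := LocA_eq hw (h5.trans_eq (hj _ hg0).symm)
      rw [hg, eval₂_mul, map_mul, h6, hj _ hg0, mul_one, eval₂_sub, eval₂_X, eval₂_C] at h4
      change w (ι (tt k Ω - x)) = _
      rw [map_sub]
      exact h4
    · obtain ⟨b, hb⟩ := h3 a ha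
      refine ⟨aeval x b, (aeval_algHom_apply _ x b).symm.trans (congrArg (aeval · b) hfix), ?_⟩
      have h5 := LocA_eval hw hj (b.map (algebraMap k (Kb k Ω))) hlt
      rw [LocC_eval, eval_map_algebraMap] at h5
      refine LocA_trans hw ?_ h5
      rw [← map_sub]
      exact hb

end Pool.Agent.Smith
end

-- merged part: Pool.Agent.Work.MP_60d5ce_nt.Sm.LocEx
section
/-!
# Existence of local models

Plan (put the pieces in new files `LocA.lean`, `LocB.lean`, ... imported by this one).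
1. `F = RatFunc k`, absolute value `w0` on `F` at `v` with `w0 p = 1/2` (resp. `w0 t = 2`), values in
   `2 ^ ℤ` (`absOf`, `nu` of `Work/MP_60d5ce_nt/Local.lean`, `Arith.lean`; `RatFunc.inftyValuation`).
   `L = w0.Completion`, `Λ = SeparableClosure L`, `ι` from `IsSepClosed.lift`, `wΛ` the spectral
   norm.  `L_disc`: `F` is dense and the norm is locally constant away from zero.
2. `w_const`: a nonzero constant is a root of unity.  `x`: `p(t) = ∏ (t - x_i)` has size `1/2`, the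
   `x_i` are distinct, so exactly one factor is small.  `ι x` is fixed by `Gal(Λ/L)`
   (`w (t - s x) = w (s (t - x)) < 1`).  Every `a ∈ F` with `w0 a ≤ 1` is congruent to a constant
   `c ∈ k[x]` (`c ∈ k` at infinity), so is every integral element of `L`.
3. `Λ_res`: the minimal polynomial of an integral `a` has integral coefficients; reduce them to
   constants, split over `Kb`; `w (∏ (a - c_i)) < 1`.
4. `σh`: an element of `Gal(Λ/L)` with `σh (ι c) = ι c ^ Q` for all constants.  For one constant `c`: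
   the minimal polynomial of `ι c` over `L` has coefficients that are constants lying in `L`, hence
   fixed by the `Q`-th power, so `ι c ^ Q` is a root.  Finite sets of constants lie in one `k[c]`
   (generator of the cyclic group of a finite field); compactness of `Gal(Λ/L)`.
   `σ` is the restriction (`AlgEquiv.restrictNormal`-like: `ι` has normal image) paired with `pdg v`.
5. Inertia `I = {s | s (ι c) = ι c for all c}`; `s ∈ I` gives `w (s a - a) < 1` by `Λ_res`.  Elements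
   fixed by `I` lie in `L(ι Kb)` and have size in `2 ^ ℤ` (write `a = ∑ l_i c ^ i`, `i < deg` of the
   minimal polynomial of `c` over `L`, scale, reduce: the residue is a nonzero polynomial in `c` of
   small degree with coefficients in `L`).  Hence a cube root of `unif` is moved by some `s ∈ I`;
   `τh` is `s` or `s ^ 2`.
6. Cyclic inertia: for a hom `f` from `I` to a finite 3-group killing the fixer of a finite set,
   the image is generated by `f τh`: by `frattini`, since by `kummer_abstract` a character of `I` is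
   the Kummer character of `r` with `r ^ 3` fixed by `I`, `r ^ 3 = unif ^ n * unit`, and `I` fixes
   cube roots of units fixed by `I`; so it is `n` times the character of `unif`.
7. `disc`: `ι a` is fixed by `I`.  `rel`: let `τ ^ 3 ^ n ∈ U`, `r ^ 3 ^ n = unif`; `τ r = η r` with
   `η` a primitive `3 ^ n`-th root of unity; cyclicity for `I / (U ∩ fixer of r)` shows that an
   element of `I` fixing `r` is in `U`; `σ τ σ⁻¹` and `τ ^ Q` act on `r` in the same way.
-/

namespace Pool.Agent.Smith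

variable {k : Type} [Field k] [Fintype k] {Ω : Type} [Field Ω] [Algebra (RatFunc k) Ω]
  [Algebra k Ω] [IsScalarTower k (RatFunc k) Ω] [IsSepClosure (RatFunc k) Ω]

omit [IsSepClosure (RatFunc k) Ω] [IsScalarTower k (RatFunc k) Ω] in
theorem LocEx_ext {g h : WG k Ω} (h1 : gal g = gal h) (h2 : wdeg g = wdeg h) : g = h :=
  Subtype.ext (Prod.ext h1 (Multiplicative.toAdd.injective h2))

theorem LocEx_res {F Ω L Λ : Type} [Field F] [Field Ω] [Algebra F Ω] [Normal F Ω] [Field L]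
    [Field Λ] [Algebra F L] [Algebra L Λ] [Algebra F Λ] [IsScalarTower F L Λ] (ι : Ω →ₐ[F] Λ) :
    ∃ ρ : (Λ ≃ₐ[L] Λ) →* (Ω ≃ₐ[F] Ω), ∀ s a, ι (ρ s a) = s (ι a) := by
  let _ : Algebra Ω Λ := ι.toRingHom.toAlgebra
  have _ : IsScalarTower F Ω Λ := IsScalarTower.of_algebraMap_eq fun x => (ι.commutes x).symm
  exact ⟨MonoidHom.mk' (fun s => (s.restrictScalars F).restrictNormal Ω) fun s t =>
    map_mul (AlgEquiv.restrictNormalHom Ω) (s.restrictScalars F) (t.restrictScalars F),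
    fun s a => AlgEquiv.restrictNormal_commutes (s.restrictScalars F) Ω a⟩

theorem LocEx_w (L Λ : Type) [NontriviallyNormedField L] [CompleteSpace L] [IsUltrametricDist L]
    [Field Λ] [Algebra L Λ] [Algebra.IsAlgebraic L Λ] :
    ∃ w : AbsoluteValue Λ ℝ, ∀ a, w a = spectralNorm L Λ a :=
  ⟨{ toFun := spectralNorm L Λ
     map_mul' := spectralAlgNorm_mul
     nonneg' := spectralNorm_nonneg
     eq_zero' := fun x => ⟨fun h => eq_zero_of_map_spectralNorm_eq_zero h
       (Algebra.IsAlgebraic.isAlgebraic x), fun h => h ▸ spectralNorm_zero⟩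
     add_le' := fun _ _ => isNonarchimedean_spectralNorm.add_le spectralNorm_nonneg },
    fun _ => rfl⟩

theorem LocEx_of {ζ : k} (hζ : IsPrimitiveRoot ζ 3) (v : Pl k) (L Λ : Type)
    [NontriviallyNormedField L] [CompleteSpace L] [IsUltrametricDist L] [Algebra (RatFunc k) L]
    [Field Λ] [Algebra L Λ] [Algebra (RatFunc k) Λ] [IsScalarTower (RatFunc k) L Λ]
    [IsSepClosure L Λ] (hd : DenseRange (algebraMap (RatFunc k) L))
    (hdisc : ∀ a : RatFunc k, a ≠ 0 → ∃ n : ℤ, ‖algebraMap _ L a‖ = 2 ^ n)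
    (hv : LocC_Good v fun a => ‖algebraMap (RatFunc k) L a‖) : Nonempty (Loc Ω ζ v) := by
  classical
  have : IsSepClosed Λ := IsSepClosure.sep_closed L
  let ι : Ω →ₐ[RatFunc k] Λ := IsSepClosed.lift
  obtain ⟨w, hw⟩ := LocEx_w L Λ
  have hna : IsNonarchimedean w := fun a b => by
    simp only [hw]
    exact isNonarchimedean_spectralNorm a b
  have hiso : ∀ (s : Λ ≃ₐ[L] Λ) a, w (s a) = w a := fun s a => by
    rw [hw, hw, ← spectralNorm_eq_of_equiv]
  have hext : ∀ a : L, w (algebraMap L Λ a) = ‖a‖ := fun a => by rw [hw, spectralNorm_extends]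
  have hF : ∀ a : RatFunc k, algebraMap _ Λ a = algebraMap L Λ (algebraMap _ L a) :=
    IsScalarTower.algebraMap_apply _ L Λ
  have happ : ∀ (a : L) (ε : ℝ), 0 < ε → ∃ b : RatFunc k,
      w (algebraMap L Λ a - algebraMap _ Λ b) < ε := fun a ε hε => by
    obtain ⟨b, hb⟩ := hd.exists_dist_lt a hε
    exact ⟨b, by rwa [hF, ← map_sub, hext, ← dist_eq_norm]⟩
  have hL : ∀ a : L, a ≠ 0 → ∃ n : ℤ, ‖a‖ = 2 ^ n := fun a ha => by
    obtain ⟨b, hb⟩ := happ a _ (norm_pos_iff.2 ha)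
    have h1 := LocA_eq hna ((w.map_sub _ _).trans_lt (hb.trans_eq (hext a).symm))
    rw [hF, hext, hext] at h1
    rw [← h1]
    refine hdisc b fun h => ha ?_
    rw [h, map_zero, norm_zero] at h1
    exact norm_eq_zero.1 h1.symm
  obtain ⟨x, hx1, hx2, hx3, hx4⟩ := LocC_point ι hna v (by simpa only [hF, hext] using hv)
  let D : LD L Λ (Kb k Ω) :=
    { j := LocC_j ι
      w := w
      φ := (frob k Ω ^ pdg v : Kb k Ω ≃ₐ[k] Kb k Ω)
      na := hna
      iso := hiso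
      int := fun a ha i => by
        rw [hw] at ha
        rw [hext]
        exact (spectralValue_le_one_iff (minpoly.monic (Algebra.IsIntegral.isIntegral a))).1 ha i
      tors := LocC_tors
      res := fun a ha => by
        obtain ⟨b, hb⟩ := happ a 1 one_pos
        obtain ⟨c, h1, h2⟩ := hx4 b (LocA_le hna ha ((w.map_sub _ _).trans_lt hb))
        exact ⟨c, h1, LocA_trans hna hb h2⟩
      disc := fun a ha => by
        rw [hext]
        exact hL a ha }
  have hQ : ∀ c, D.φ c = c ^ Fintype.card k ^ pdg v := frob_pow_apply (pdg v)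
  obtain ⟨σ, hσ⟩ := D.exists_frob
  have hfix : ∀ s : Λ ≃ₐ[L] Λ, s (ι x) = ι x → s (ι (unif v x)) = ι (unif v x) := by
    intro s hs
    have ht : s (ι (tt k Ω)) = ι (tt k Ω) := by
      rw [tt, ι.commutes, hF, s.commutes]
    rcases v with _ | p
    · change s (ι (tt k Ω)⁻¹) = ι (tt k Ω)⁻¹
      rw [map_inv₀, map_inv₀, ht]
    · change s (ι (tt k Ω - x)) = ι (tt k Ω - x)
      rw [map_sub, map_sub, ht, hs]
  have hz : IsPrimitiveRoot (algebraMap k (Kb k Ω) ζ) 3 :=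
    hζ.map_of_injective (algebraMap k (Kb k Ω)).injective
  obtain ⟨τ, hτ1, hτ2, hτ3⟩ := D.main hz (π := ι (unif v x)) hx2 (fun s hs => hfix s (hs x))
    (fun n => by
      have : NeZero ((3 : ℕ) : Λ) := (hz.map_of_injective D.j.injective).neZero'
      have : NeZero ((3 ^ n : ℕ) : Λ) := ⟨by
        rw [Nat.cast_pow]
        exact pow_ne_zero _ (NeZero.ne _)⟩
      exact IsSepClosed.exists_pow_nat_eq _ _)
    hQ hσ (hfix σ ((hσ x).trans (congrArg D.j hx3)))
  obtain ⟨ρ, hρ⟩ := LocEx_res (L := L) ι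
  have mk : ∀ (s : Λ ≃ₐ[L] Λ) (n : ℕ), (∀ c, s (D.j c) = D.j ((frob k Ω ^ n) c)) →
      ∃ g : WG k Ω, gal g = ρ s ∧ wdeg g = n := fun s n h =>
    ⟨⟨(ρ s, Multiplicative.ofAdd (n : ℤ)), fun c => ι.injective (by
      rw [toAdd_ofAdd, zpow_natCast]
      exact (hρ s c).trans (h c))⟩, rfl, rfl⟩
  obtain ⟨σ', hσ1, hσ2⟩ := mk σ (pdg v) hσ
  obtain ⟨τ', hτ4, hτ5⟩ := mk τ 0 hτ1
  have key : ∀ U : Subgroup (WG k Ω), Adm U →
      (∀ a, a ≠ 0 → (∀ n ∈ (U.map gal).comap ρ, n a = a) → τ a = a → ∃ n : ℤ, w a = 2 ^ n) ∧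
        (σ * τ)⁻¹ * (τ ^ Fintype.card k ^ pdg v * σ) ∈ (U.map gal).comap ρ := by
    intro U hU
    refine hτ3 _ (fun g hg n hn => ?_) ?_ (fun g hg => ?_)
    · obtain ⟨u, hu, e⟩ := hn
      obtain ⟨g', e', -⟩ := mk g 0 hg
      exact ⟨g' * u * g'⁻¹, hU.1.conj_mem u hu g', by simp only [map_mul, map_inv, e, e']⟩
    · obtain ⟨S, hS⟩ := hU.2.2.1
      refine ⟨S.image ι, fun g hg h => ?_⟩
      obtain ⟨g', e', hd'⟩ := mk g 0 hg
      refine ⟨g', hS g' hd' fun a ha => ι.injective ?_, e'⟩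
      rw [e']
      exact (hρ g a).trans (h _ (Finset.mem_image_of_mem _ ha))
    · obtain ⟨g', e', hd'⟩ := mk g 0 hg
      obtain ⟨i, hi⟩ := hU.2.2.2 g' hd'
      exact ⟨i, g' ^ 3 ^ i, hi, by rw [map_pow, map_pow, e']⟩
  exact ⟨{
    L := L
    Λ := Λ
    ι := ι
    wΛ := w
    wΛ_eq := hw
    wΛ_na := hna
    wΛ_iso := hiso
    L_disc := hL
    σh := σ
    τh := τ
    σh_res := D.frob_res hQ σ hσ
    τh_res := D.fix_res τ hτ1
    Λ_res := fun a ha => D.big_res ha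
    σ := σ'
    τ := τ'
    ι_σ := fun a => by rw [hσ1, hρ]
    ι_τ := fun a => by rw [hτ4, hρ]
    deg_σ := hσ2
    deg_τ := hτ5
    x := x
    root := hx1
    w_const := D.w_j
    w_unif := hx2
    kummer := fun r hr => ι.injective (by
      have h := hτ2 (ι r) (by rw [← map_pow, hr])
      rw [← hρ, ← hτ4] at h
      exact h.trans (map_mul ι (algebraMap k Ω ζ) r).symm)
    disc := fun U hU a a0 h1 h2 => (key U hU).1 (ι a) ((map_ne_zero ι).2 a0)
      (fun n ⟨u, hu, e⟩ => by rw [← hρ, ← e, h1 u hu]) (by rw [← hρ, ← hτ4, h2])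
    rel := fun U hU => by
      obtain ⟨u, hu, e⟩ := (key U hU).2
      have : u = (σ' * τ')⁻¹ * (τ' ^ Fintype.card k ^ pdg v * σ') := LocEx_ext
        (by simp only [e, map_mul, map_inv, map_pow, hσ1, hτ4])
        (by
          rw [hU.2.1 u hu, wdeg_mul, wdeg_inv, wdeg_mul, wdeg_mul, wdeg_pow, hτ5]
          simp)
      exact this ▸ hu }⟩

theorem exists_loc {ζ : k} (hζ : IsPrimitiveRoot ζ 3) (v : Pl k) : Nonempty (Loc Ω ζ v) := by
  obtain ⟨w, h1, h2, h3, a, ha, ha1⟩ := LocC_exists v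
  have hn : ∀ a : RatFunc k, ‖algebraMap _ w.Completion a‖ = w a := fun a => by
    have : algebraMap _ w.Completion a = ((WithAbs.toAbs w a : WithAbs w) : w.Completion) := rfl
    rw [this, UniformSpace.Completion.norm_coe]
    rfl
  have hd : DenseRange (algebraMap (RatFunc k) w.Completion) := by
    have h1 : DenseRange ((↑) : WithAbs w → w.Completion) := UniformSpace.Completion.denseRange_coe
    have h2 : Function.Surjective (WithAbs.toAbs w) := fun x => ⟨x.ofAbs, rfl⟩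
    exact h1.comp h2.denseRange (UniformSpace.Completion.continuous_coe _)
  let _ : NontriviallyNormedField w.Completion := NontriviallyNormedField.ofNormNeOne
    ⟨algebraMap _ _ a, by simpa using ha, by rwa [hn]⟩
  have : IsUltrametricDist w.Completion :=
    IsUltrametricDist.isUltrametricDist_of_forall_norm_natCast_le_one fun n => by
      rw [← map_natCast (algebraMap (RatFunc k) w.Completion), hn]
      exact h1.apply_natCast_le_one
  exact LocEx_of hζ v w.Completion (SeparableClosure w.Completion) hd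
    (by simpa only [hn] using h2) (by simpa only [hn] using h3)

end Pool.Agent.Smith
end
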