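import Pool.Agent.Work.MP_60d5ce_nt.Sm.LocEx
import Mathlib

-- merged part: Pool.Agent.Work.MP_60d5ce_nt.Sm.Act
section
-- merged part: Pool.Agent.Work.MP_60d5ce_nt.Sm.Basic
section
/-!
# Smooth functions and characters  (task SM Basic)

All easy.  `chi_tau_inf`: reciprocity for the cocycle `(g, h) ↦ deg g * χ v h`.
`chi_symm`: reciprocity for `(g, h) ↦ χ v g * χ w h` with `S = {v, w, inf}`.
`hom_expand`: apply `uniq` to the difference (componentwise).
-/

namespace Pool.Agent.Smith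

open scoped Classical

noncomputable section

variable {W P : Type} [Group W]

namespace Tame

variable {T : Tame W P}

section sm

variable {A B C : Type*}

theorem sm_const (a : A) : T.Sm fun _ : W => a := ⟨_, T.adm_G0, fun _ _ _ => rfl⟩

theorem sm_comp {f : W → A} (hf : T.Sm f) (φ : A → B) : T.Sm fun g => φ (f g) := by
  obtain ⟨U, hU, h⟩ := hf
  exact ⟨U, hU, fun g u hu => congrArg φ (h g u hu)⟩

theorem sm_comp₂ {f : W → A} {f' : W → B} (hf : T.Sm f) (hf' : T.Sm f') (φ : A → B → C) :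
    T.Sm fun g => φ (f g) (f' g) := by
  obtain ⟨U, hU, h⟩ := hf
  obtain ⟨U', hU', h'⟩ := hf'
  exact ⟨U ⊓ U', T.adm_inf _ _ hU hU', fun g u hu => congrArg₂ φ (h g u hu.1) (h' g u hu.2)⟩

/-- finitely many admissible subgroups contain a common one -/
theorem exists_adm_le {ι : Type*} (s : Finset ι) (p : ι → Subgroup W → Prop)
    (hp : ∀ i U U', p i U → U' ≤ U → p i U') (h : ∀ i ∈ s, ∃ U, T.Adm U ∧ p i U) :
    ∃ U, T.Adm U ∧ ∀ i ∈ s, p i U := by
  induction s using Finset.induction_on with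
  | empty => exact ⟨_, T.adm_G0, by simp⟩
  | insert i s _ ih =>
    obtain ⟨U, hU, h1⟩ := ih fun j hj => h j (Finset.mem_insert_of_mem hj)
    obtain ⟨U', hU', h2⟩ := h i (Finset.mem_insert_self _ _)
    refine ⟨U ⊓ U', T.adm_inf _ _ hU hU', fun j hj => ?_⟩
    rcases Finset.mem_insert.1 hj with rfl | hj
    · exact hp _ _ _ h2 inf_le_right
    · exact hp _ _ _ (h1 j hj) inf_le_left

theorem sm_pi {ι : Type*} [Finite ι] {f : W → ι → A} (hf : ∀ i, T.Sm fun g => f g i) : T.Sm f := by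
  have := Fintype.ofFinite ι
  obtain ⟨U, hU, h⟩ := exists_adm_le (T := T) Finset.univ
    (fun i U => ∀ g, ∀ u ∈ U, f (g * u) i = f g i)
    (fun i U U' h hle g u hu => h g u (hle hu)) fun i _ => hf i
  exact ⟨U, hU, fun g u hu => funext fun i => h i (Finset.mem_univ i) g u hu⟩

theorem mul_mid {f : W → A} {U : Subgroup W} (hU : T.Adm U) (hf : ∀ g, ∀ u ∈ U, f (g * u) = f g)
    (g h : W) {u : W} (hu : u ∈ U) : f (g * u * h) = f (g * h) := by
  have h1 : h⁻¹ * u * h ∈ U := (T.adm_normal U hU).conj_mem' u hu h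
  rw [← hf (g * h) _ h1]
  congr 1
  group

theorem sm_rel {f : W → A} (hf : T.Sm f) (v : P) :
    f (T.σ v * T.τ v) = f (T.τ v ^ T.Q v * T.σ v) := by
  obtain ⟨U, hU, h⟩ := hf
  rw [← h (T.σ v * T.τ v) _ (T.rel U hU v), mul_inv_cancel_left]

theorem sm_fin {f : W → A} (hf : T.Sm f) : {v | f (T.τ v) ≠ f 1}.Finite := by
  obtain ⟨U, hU, h⟩ := hf
  refine (T.fin U hU).subset fun v hv hm => hv ?_
  rw [← h 1 _ hm, one_mul]

theorem sm2_of_sm {f : W → A} {f' : W → B} (hf : T.Sm f) (hf' : T.Sm f') (φ : A → B → C) :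
    T.Sm2 fun g h => φ (f g) (f' h) := by
  obtain ⟨U, hU, h⟩ := hf
  obtain ⟨U', hU', h'⟩ := hf'
  exact ⟨U ⊓ U', T.adm_inf _ _ hU hU', fun g k u hu u' hu' =>
    congrArg₂ φ (h g u hu.1) (h' k u' hu'.2)⟩

end sm

theorem Q_mod (v : P) : T.Q v % 3 = 1 := by
  rw [Pre.Q, Nat.pow_mod, T.q_mod, one_pow]
  rfl

theorem Q_cast (v : P) : (T.Q v : F3) = 1 := by
  rw [← ZMod.natCast_mod, Q_mod, Nat.cast_one]

theorem one_lt_Q (v : P) : 1 < T.Q v :=
  Nat.one_lt_pow (T.dg_pos v).ne' (by have := T.q_ge; omega)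

theorem σ_mem (v : P) : T.σ v ∈ T.D v := Subgroup.subset_closure (by simp)

theorem τ_mem (v : P) : T.τ v ∈ T.D v := Subgroup.subset_closure (by simp)

section hom

variable {A : Type*} [AddCommGroup A]

theorem hom_zero : T.IsHom (0 : W → A) := ⟨sm_const 0, fun _ _ => by simp⟩

theorem hom_one {x : W → A} (hx : T.IsHom x) : x 1 = 0 := by simpa using hx.2 1 1

theorem hom_inv {x : W → A} (hx : T.IsHom x) (g : W) : x g⁻¹ = -x g := by
  have := hx.2 g g⁻¹
  rw [mul_inv_cancel, hom_one hx] at this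
  exact (neg_eq_of_add_eq_zero_right this.symm).symm

theorem hom_pow {x : W → A} (hx : T.IsHom x) (g : W) (n : ℕ) : x (g ^ n) = n • x g := by
  induction n with
  | zero => simpa using hom_one hx
  | succ n ih => rw [pow_succ, hx.2, ih, succ_nsmul]

theorem hom_conj {x : W → A} (hx : T.IsHom x) (g h : W) : x (h * g * h⁻¹) = x g := by
  rw [hx.2, hx.2, hom_inv hx]
  abel

theorem hom_add {x y : W → A} (hx : T.IsHom x) (hy : T.IsHom y) : T.IsHom (x + y) :=
  ⟨sm_comp₂ hx.1 hy.1 (· + ·), fun g h => by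
    simp only [Pi.add_apply, hx.2, hy.2]
    abel⟩

theorem hom_sub {x y : W → A} (hx : T.IsHom x) (hy : T.IsHom y) : T.IsHom (x - y) :=
  ⟨sm_comp₂ hx.1 hy.1 (· - ·), fun g h => by
    simp only [Pi.sub_apply, hx.2, hy.2]
    abel⟩

theorem hom_sum {ι : Type*} (s : Finset ι) {x : ι → W → A} (hx : ∀ i ∈ s, T.IsHom (x i)) :
    T.IsHom fun g => ∑ i ∈ s, x i g := by
  induction s using Finset.induction_on with
  | empty => exact hom_zero
  | insert i s hi ih =>
    simp only [Finset.sum_insert hi]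
    exact hom_add (hx i (Finset.mem_insert_self _ _))
      (ih fun j hj => hx j (Finset.mem_insert_of_mem hj))

theorem hom_map {B : Type*} [AddCommGroup B] {x : W → A} (hx : T.IsHom x) (φ : A →+ B) :
    T.IsHom fun g => φ (x g) :=
  ⟨sm_comp hx.1 φ, fun g h => by simp only [hx.2, map_add]⟩

theorem hom_smul_const [Module F3 A] {x : W → F3} (hx : T.IsHom x) (a : A) :
    T.IsHom fun g => x g • a :=
  ⟨sm_comp hx.1 (· • a), fun g h => by simp only [hx.2, add_smul]⟩

theorem hom_apply {x : W → Vb} (hx : T.IsHom x) (i : Fin 2) : T.IsHom fun g => x g i :=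
  ⟨sm_comp hx.1 (· i), fun g h => by simp only [hx.2, Pi.add_apply]⟩

/-- a function additive on the local group is determined there by its values on `σ v`, `τ v` -/
theorem eq_zero_on_D {x : W → A} {v : P} (hx : ∀ g ∈ T.D v, ∀ h ∈ T.D v, x (g * h) = x g + x h)
    (h1 : x (T.σ v) = 0) (h2 : x (T.τ v) = 0) : ∀ g ∈ T.D v, x g = 0 := by
  have h0 : x 1 = 0 := by simpa using hx 1 (one_mem _) 1 (one_mem _)
  intro g hg
  induction hg using Subgroup.closure_induction with
  | mem g hg => rcases hg with rfl | rfl <;> assumption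
  | one => exact h0
  | mul g h hg hh ihg ihh => rw [hx g hg h hh, ihg, ihh, add_zero]
  | inv g hg ih =>
    have := hx g hg g⁻¹ (inv_mem hg)
    rwa [mul_inv_cancel, h0, ih, zero_add, eq_comm] at this

theorem hom_eq_on_D {x y : W → A} (hx : T.IsHom x) (hy : T.IsHom y) {v : P}
    (h1 : x (T.σ v) = y (T.σ v)) (h2 : x (T.τ v) = y (T.τ v)) : ∀ g ∈ T.D v, x g = y g :=
  fun g hg => sub_eq_zero.1 (eq_zero_on_D (x := x - y) (fun g _ h _ => (hom_sub hx hy).2 g h)
    (sub_eq_zero.2 h1) (sub_eq_zero.2 h2) g hg)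

theorem hom_deg : T.IsHom fun g => (T.deg g : F3) := by
  refine ⟨⟨_, T.adm_G0, fun g u hu => ?_⟩, fun g h => by simp only [T.deg_mul, Int.cast_add]⟩
  have : T.deg u = 0 := hu
  simp only [T.deg_mul, this, add_zero]

theorem inv_map {B : Type*} [AddCommGroup B] (φ : A →+ B) (v : P) (θ : W → W → A) :
    T.inv v (fun g h => φ (θ g h)) = φ (T.inv v θ) := by
  simp only [Pre.inv, map_sub, map_sum]

theorem inv_add (v : P) (θ θ' : W → W → A) :
    T.inv v (fun g h => θ g h + θ' g h) = T.inv v θ + T.inv v θ' := by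
  simp only [Pre.inv, Finset.sum_add_distrib]
  abel

theorem inv_sub (v : P) (θ θ' : W → W → A) :
    T.inv v (fun g h => θ g h - θ' g h) = T.inv v θ - T.inv v θ' := by
  simp only [Pre.inv, Finset.sum_sub_distrib]
  abel

theorem inv_sum {ι : Type*} (s : Finset ι) (v : P) (θ : ι → W → W → A) :
    T.inv v (fun g h => ∑ i ∈ s, θ i g h) = ∑ i ∈ s, T.inv v (θ i) := by
  simp only [Pre.inv, Finset.sum_sub_distrib]
  rw [Finset.sum_comm]

theorem inv_congr (v : P) {θ θ' : W → W → A} (h : ∀ g ∈ T.D v, ∀ g' ∈ T.D v, θ g g' = θ' g g') :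
    T.inv v θ = T.inv v θ' := by
  unfold Pre.inv
  rw [h _ (σ_mem v) _ (τ_mem v), h _ (pow_mem (τ_mem v) _) _ (σ_mem v),
    Finset.sum_congr rfl fun i _ => h _ (pow_mem (τ_mem v) i) _ (τ_mem v)]

/-- the invariant lies in any subgroup containing the values on the local group -/
theorem inv_mem (v : P) (I : AddSubgroup A) {θ : W → W → A}
    (h : ∀ g ∈ T.D v, ∀ g' ∈ T.D v, θ g g' ∈ I) : T.inv v θ ∈ I :=
  sub_mem (sub_mem (h _ (σ_mem v) _ (τ_mem v)) (h _ (pow_mem (τ_mem v) _) _ (σ_mem v)))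
    (sum_mem fun i _ => h _ (pow_mem (τ_mem v) i) _ (τ_mem v))

end hom

theorem inv_dvd (v : P) {j : ℕ} {θ θ' : W → W → O}
    (h : ∀ g ∈ T.D v, ∀ g' ∈ T.D v, pi ^ j ∣ θ g g' - θ' g g') :
    pi ^ j ∣ T.inv v θ - T.inv v θ' := by
  rw [← inv_sub]
  exact ((h _ (σ_mem v) _ (τ_mem v)).sub (h _ (pow_mem (τ_mem v) _) _ (σ_mem v))).sub
    (Finset.dvd_sum fun i _ => h _ (pow_mem (τ_mem v) i) _ (τ_mem v))

theorem inv_mul_left (v : P) (c : O) (θ : W → W → O) :
    T.inv v (fun g h => c * θ g h) = c * T.inv v θ := by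
  simp only [Pre.inv, mul_sub, Finset.mul_sum]

theorem inv_dig (v : P) {j : ℕ} {θ : W → W → O} (h : ∀ g ∈ T.D v, ∀ g' ∈ T.D v, pi ^ j ∣ θ g g') :
    T.inv v (fun g g' => dig j (θ g g')) = dig j (T.inv v θ) := by
  have h1 := h _ (σ_mem v) _ (τ_mem v)
  have h2 := h _ (pow_mem (τ_mem v) (T.Q v)) _ (σ_mem v)
  have h3 := fun i (_ : i ∈ Finset.Ico 1 (T.Q v)) => h _ (pow_mem (τ_mem v) i) _ (τ_mem v)
  unfold Pre.inv
  rw [dig_sub (h1.sub h2) (Finset.dvd_sum h3), dig_sub h1 h2, dig_sum _ h3]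

theorem basic_sum {n : ℕ} (hn : n % 3 = 1) : ∑ i ∈ Finset.Ico 1 n, (i : F3) = 0 := by
  obtain ⟨m, rfl⟩ : ∃ m, n = 3 * m + 1 := ⟨n / 3, by omega⟩
  clear hn
  induction m with
  | zero => simp
  | succ m ih =>
    rw [show 3 * (m + 1) + 1 = 3 * m + 1 + 1 + 1 + 1 by ring, Finset.sum_Ico_succ_top (by omega),
      Finset.sum_Ico_succ_top (by omega), Finset.sum_Ico_succ_top (by omega), ih]
    have : (3 : F3) = 0 := rfl
    push_cast
    linear_combination (3 * m + 2) * this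

theorem basic_tel {R : Type*} [CommRing R] (f : ℕ → R) (c : R) {n : ℕ} (hn : 1 ≤ n) :
    ∑ i ∈ Finset.Ico 1 n, (f i + c - f (i + 1)) = f 1 + (n - 1) * c - f n := by
  induction n, hn using Nat.le_induction with
  | base => simp
  | succ n hn ih =>
    rw [Finset.sum_Ico_succ_top hn, ih]
    push_cast
    ring

/-- uses `Q * (Q - 1) / 2 = 0` in `F3` -/
theorem inv_mul_hom (v : P) {a b : W → F3}
    (ha : ∀ g ∈ T.D v, ∀ h ∈ T.D v, a (g * h) = a g + a h) :
    T.inv v (fun g h => a g * b h) = a (T.σ v) * b (T.τ v) - a (T.τ v) * b (T.σ v) := by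
  have h1 : ∀ n : ℕ, a (T.τ v ^ n) = n * a (T.τ v) := fun n => by
    induction n with
    | zero => simpa using ha 1 (one_mem _) 1 (one_mem _)
    | succ n ih =>
      rw [pow_succ, ha _ (pow_mem (τ_mem v) n) _ (τ_mem v), ih]
      push_cast
      ring
  simp only [Pre.inv, h1, Q_cast, ← Finset.sum_mul, basic_sum (Q_mod v)]
  ring

theorem inv_hb (v : P) {a b : W → Vb} (ha : ∀ g ∈ T.D v, ∀ h ∈ T.D v, a (g * h) = a g + a h) :
    T.inv v (fun g h => hb (a g) (b h)) = T.br v a b := by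
  simp only [hb, br]
  rw [inv_add, inv_mul_hom v (a := fun g => a g 0) (b := fun g => b g 1)
    fun g hg h hh => congrFun (ha g hg h hh) 0, inv_mul_hom v (a := fun g => a g 1)
    (b := fun g => b g 0) fun g hg h hh => congrFun (ha g hg h hh) 1]
  ring

theorem br_swap (v : P) (a b : W → Vb) : T.br v a b = -T.br v b a := by
  simp only [br, hb]
  ring

/-- coboundaries with trivial action -/
theorem inv_cob (v : P) {b : W → F3} (hb : b (T.σ v * T.τ v) = b (T.τ v ^ T.Q v * T.σ v)) :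
    T.inv v (fun g h => b g + b h - b (g * h)) = 0 := by
  have h1 := basic_tel (fun i => b (T.τ v ^ i)) (b (T.τ v)) (one_lt_Q (T := T) v).le
  simp only [Pre.inv, ← pow_succ, h1, hb, Q_cast, pow_one]
  ring

theorem basic_recip {a b : W → F3} (ha : T.IsHom a) (hb : T.IsHom b) (S : Finset P)
    (hS : ∀ v ∉ S, a (T.σ v) * b (T.τ v) - a (T.τ v) * b (T.σ v) = 0) :
    ∑ v ∈ S, (a (T.σ v) * b (T.τ v) - a (T.τ v) * b (T.σ v)) = 0 := by
  have h1 := fun v => inv_mul_hom (T := T) v (a := a) (b := b) fun g _ h _ => ha.2 g h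
  have h2 := T.recip _ (sm2_of_sm ha.1 hb.1 (· * ·)) (fun g h k => by
    simp only [ha.2, hb.2]
    ring) S fun v hv => (h1 v).trans (hS v hv)
  rwa [Finset.sum_congr rfl fun v _ => h1 v] at h2

theorem chi_tau_inf {v : P} (hv : v ≠ T.inf) : T.χ v (T.τ T.inf) = -(T.dg v : F3) := by
  have := basic_recip hom_deg (T.χ_hom v) {v, T.inf} fun w hw => by
    simp only [Finset.mem_insert, Finset.mem_singleton, not_or] at hw
    simp [T.χ_ne v w hw.1 hw.2, T.deg_τ]
  rw [Finset.sum_pair hv] at this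
  simp only [T.deg_σ, T.deg_τ, T.dg_inf, T.χ_self v hv, Int.cast_natCast, Int.cast_zero,
    Nat.cast_one] at this
  linear_combination this

theorem chi_symm {v w : P} (hv : v ≠ T.inf) (hw : w ≠ T.inf) (h : v ≠ w) :
    T.χ v (T.σ w) = T.χ w (T.σ v) := by
  have := basic_recip (T.χ_hom v) (T.χ_hom w) {v, w} fun u hu => by
    simp only [Finset.mem_insert, Finset.mem_singleton, not_or] at hu
    by_cases hi : u = T.inf
    · simp [hi, T.χ_inf]
    · simp [T.χ_ne v u hu.1 hi, T.χ_ne w u hu.2 hi]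
  rw [Finset.sum_pair h, T.χ_self v hv, T.χ_self w hw, T.χ_ne w v h hv,
    T.χ_ne v w h.symm hw] at this
  linear_combination this

theorem hom_expand {h : W → F3} (hh : T.IsHom h) {A : Finset P}
    (hA : ∀ v ∉ A, v ≠ T.inf → h (T.τ v) = 0) (g : W) :
    h g = ∑ s ∈ A.erase T.inf, T.χ s g * h (T.τ s) + (T.deg g : F3) * h (T.σ T.inf) := by
  have h1 := hom_sub hh (hom_add (hom_sum (A.erase T.inf)
    fun s _ => hom_smul_const (T.χ_hom s) (h (T.τ s))) (hom_smul_const hom_deg (h (T.σ T.inf))))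
  have h2 := T.uniq _ h1 (fun v hv => ?_) ?_
  · exact sub_eq_zero.1 (congrFun h2 g)
  · simp only [Pi.sub_apply, Pi.add_apply, T.deg_τ, Int.cast_zero, zero_smul, add_zero]
    rw [Finset.sum_eq_single v (fun s _ hs => by rw [T.χ_ne s v hs.symm hv, zero_smul])
      fun hn => by rw [hA v (fun hm => hn (Finset.mem_erase.2 ⟨hv, hm⟩)) hv, smul_zero],
      T.χ_self v hv, one_smul, sub_self]
  · simp [T.χ_inf, T.deg_σ, T.dg_inf]

theorem homU_expand {h : W → Vb} {A : Finset P} (hh : h ∈ T.HomU A) (g : W) :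
    h g = ∑ s ∈ A.erase T.inf, T.χ s g • h (T.τ s) + (T.deg g : F3) • h (T.σ T.inf) := by
  funext i
  rw [hom_expand (hom_apply hh.1 i) (A := A) (fun v hv hi => congrFun (hh.2 v hv hi) i) g]
  simp [Finset.sum_apply]

theorem basic_inj {A B : Finset P} (hAB : A ⊆ B) (hB : T.inf ∈ B) :
    Set.InjOn (fun (h : W → Vb) (s : B) => if s.1 = T.inf then h (T.σ T.inf) else h (T.τ s))
      (T.HomU A) := by
  intro h hh h' hh' e
  funext g
  have e1 : h (T.σ T.inf) = h' (T.σ T.inf) := by simpa using congrFun e ⟨_, hB⟩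
  rw [homU_expand hh, homU_expand hh', e1]
  congr 1
  refine Finset.sum_congr rfl fun s hs => ?_
  obtain ⟨h1, h2⟩ := Finset.mem_erase.1 hs
  have e2 : h (T.τ s) = h' (T.τ s) := by simpa [h1] using congrFun e ⟨_, hAB h2⟩
  rw [e2]

theorem homU_finite (A : Finset P) : (T.HomU A).Finite :=
  Set.Finite.of_finite_image (Set.toFinite _)
    (basic_inj (Finset.subset_insert T.inf A) (Finset.mem_insert_self _ _))

theorem homU_ncard (A : Finset P) (hA : T.inf ∈ A) : (T.HomU A).ncard ≤ 9 ^ A.card := by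
  refine (Set.ncard_le_ncard_of_injOn _ (fun _ _ => Set.mem_univ _) (basic_inj subset_rfl hA)
    Set.finite_univ).trans_eq ?_
  rw [Set.ncard_univ, Nat.card_eq_fintype_card, Fintype.card_fun, Fintype.card_coe]
  simp

/-- the sum of the ramification of a character, weighted by degrees, vanishes -/
theorem sum_deg_tau {h : W → F3} (hh : T.IsHom h) {A : Finset P} (hA : ∀ v ∉ A, h (T.τ v) = 0) :
    ∑ v ∈ A, (T.dg v : F3) * h (T.τ v) = 0 := by
  simpa [T.deg_σ, T.deg_τ] using basic_recip hom_deg hh A fun v hv => by simp [hA v hv, T.deg_τ]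

theorem cq_mul (g h : W) : T.cq (g * h) = T.cq g * T.cq h := by
  rw [cq, T.deg_mul, zpow_add, Units.val_mul]
  rfl

theorem cq_of_deg_zero {g : W} (h : T.deg g = 0) : T.cq g = 1 := by
  rw [cq, h, zpow_zero, Units.val_one]

theorem cq_σ (v : P) : T.cq (T.σ v) = T.Q v := by
  rw [cq, T.deg_σ, zpow_natCast, Units.val_pow_eq_pow_val, IsUnit.unit_spec, Pre.Q, Nat.cast_pow]

theorem star_cq (g : W) : star (T.cq g) = T.cq g := by
  have h1 : Units.map (starRingEnd O).toMonoidHom T.isUnit_q.unit = T.isUnit_q.unit :=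
    Units.ext (star_natCast _)
  have h2 := congrArg Units.val
    (map_zpow (Units.map (starRingEnd O).toMonoidHom) T.isUnit_q.unit (T.deg g))
  rw [h1] at h2
  exact h2

theorem res_cq (g : W) : res (T.cq g) = 1 := by
  have h1 : Units.map res.toMonoidHom T.isUnit_q.unit = 1 :=
    Units.ext (res_natCast_of_mod T.q_mod)
  have h2 := congrArg Units.val (map_zpow (Units.map res.toMonoidHom) T.isUnit_q.unit (T.deg g))
  rw [h1, one_zpow] at h2
  exact h2

/-- coboundaries for the cyclotomic action -/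
theorem inv_cob_cq (v : P) {b : W → O} :
    T.inv v (fun g h => b g + T.cq g * b h - b (g * h)) =
      b (T.τ v ^ T.Q v * T.σ v) - b (T.σ v * T.τ v) := by
  have h0 : ∀ i : ℕ, T.cq (T.τ v ^ i) = 1 := fun i =>
    cq_of_deg_zero (pow_mem (show T.τ v ∈ T.G0 from T.deg_τ v) i)
  have h1 := basic_tel (fun i => b (T.τ v ^ i)) (b (T.τ v)) (one_lt_Q (T := T) v).le
  simp only [Pre.inv, ← pow_succ, h0, one_mul, h1, cq_σ, pow_one]
  ring

end Tame

end

end Pool.Agent.Smith
end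

-- merged part: Pool.Agent.Work.MP_60d5ce_nt.Sm.Act
section
/-!
# The twisted action, cocycles, local types  (task SM Act)

All easy.  `rho_rel`: `sm` for every `j` and `eq_zero_of_forall_dvd`.
-/

namespace Pool.Agent.Smith

open scoped Classical

noncomputable section

variable {W P : Type} [Group W] {T : Tame W P}

namespace Rep

variable {R : Rep T} {x : W → F3}

theorem Act_cancel {m : ℕ} {a b : V} (h : pi ^ m • a = pi ^ m • b) : a = b :=
  funext fun i => pi_pow_mul_cancel (j := m) (congrFun h i)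

theorem Act_dvd_mul {c : O} (A : Matrix (Fin 2) (Fin 2) O) {B : Matrix (Fin 2) (Fin 2) O}
    (h : ∀ a b, c ∣ B a b) (a b : Fin 2) : c ∣ (A * B) a b := by
  rw [Matrix.mul_apply]
  exact Finset.dvd_sum fun l _ => (h l b).mul_left _

theorem Act_VD_mulVec {j : ℕ} {B : Matrix (Fin 2) (Fin 2) O} (h : ∀ a b, pi ^ j ∣ B a b) (t : V) :
    VD j (B.mulVec t) := fun i => by
  simp only [Matrix.mulVec, dotProduct]
  exact Finset.dvd_sum fun l _ => (h i l).mul_right _

theorem Act_one_mod (g : W) (a b : Fin 2) : pi ^ 1 ∣ (R.ρ g - 1) a b := by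
  rw [pow_one]
  exact R.one_mod g a b

theorem rho_rel (v : P) : R.ρ (T.σ v * T.τ v) = R.ρ (T.τ v ^ T.Q v * T.σ v) := by
  ext1 a b
  refine sub_eq_zero.1 (eq_zero_of_forall_dvd fun j => ?_)
  obtain ⟨U, hU, h⟩ := R.sm j
  have hu := h _ (T.rel U hU v)
  have e : R.ρ (T.τ v ^ T.Q v * T.σ v) = R.ρ (T.σ v * T.τ v) *
      R.ρ ((T.σ v * T.τ v)⁻¹ * (T.τ v ^ T.Q v * T.σ v)) := by
    rw [← R.ρ_mul, mul_inv_cancel_left]
  rw [e, ← Matrix.sub_apply, ← dvd_neg, ← Matrix.neg_apply, neg_sub, ← mul_sub_one]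
  exact Act_dvd_mul _ hu a b

theorem M_hom (a b : Fin 2) : T.IsHom fun g => R.M g a b := by
  constructor
  · obtain ⟨U, hU, h⟩ := R.sm 2
    refine ⟨U, hU, fun g u hu => dig_congr ?_⟩
    rw [← Matrix.sub_apply, sub_sub_sub_cancel_right, R.ρ_mul, ← mul_sub_one]
    exact Act_dvd_mul _ (h u hu) a b
  · intro g h
    show dig 1 _ = dig 1 _ + dig 1 _
    rw [← dig_add (Act_one_mod g a b) (Act_one_mod h a b)]
    refine dig_congr ?_
    have e : R.ρ (g * h) - 1 - ((R.ρ g - 1) + (R.ρ h - 1)) = (R.ρ g - 1) * (R.ρ h - 1) := by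
      rw [R.ρ_mul]
      noncomm_ring
    rw [← Matrix.add_apply, ← Matrix.sub_apply, e, Matrix.mul_apply]
    refine Finset.dvd_sum fun l _ => ?_
    rw [pow_add]
    exact mul_dvd_mul (Act_one_mod g a l) (Act_one_mod h l b)

theorem M_unr {v : P} (hv : v ∉ R.S) : R.M (T.τ v) = 0 := by
  ext a b
  simp [M, R.unr v hv]

theorem act_add (g : W) (s t : V) : R.act x g (s + t) = R.act x g s + R.act x g t := by
  simp only [act, Matrix.mulVec_add, smul_add]

theorem act_sub (g : W) (s t : V) : R.act x g (s - t) = R.act x g s - R.act x g t := by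
  simp only [act, Matrix.mulVec_sub, smul_sub]

theorem act_smul (g : W) (c : O) (t : V) : R.act x g (c • t) = c • R.act x g t := by
  simp only [act, Matrix.mulVec_smul]
  exact smul_comm _ _ _

theorem act_zero (g : W) : R.act x g 0 = 0 := by
  simp only [act, Matrix.mulVec_zero, smul_zero]

theorem act_sum {ι : Type*} (s : Finset ι) (g : W) (t : ι → V) :
    R.act x g (∑ i ∈ s, t i) = ∑ i ∈ s, R.act x g (t i) := by
  induction s using Finset.induction_on with
  | empty => simp [act_zero]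
  | insert i s hi ih => rw [Finset.sum_insert hi, Finset.sum_insert hi, act_add, ih]

theorem act_congr {y : W → F3} {g : W} (h : x g = y g) (t : V) : R.act x g t = R.act y g t := by
  simp only [act, h]

theorem act_add_char (y : W → F3) (g : W) (t : V) :
    R.act (x + y) g t = zp (y g) • R.act x g t := by
  simp only [act, Pi.add_apply, zp_add, smul_smul, mul_comm]

theorem act_mul (hx : T.IsHom x) (g h : W) (t : V) :
    R.act x (g * h) t = R.act x g (R.act x h t) := by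
  simp only [act, hx.2, zp_add, R.ρ_mul, Matrix.mulVec_smul, Matrix.mulVec_mulVec, smul_smul]

theorem act_one (hx : T.IsHom x) (t : V) : R.act x 1 t = t := by
  simp only [act, Tame.hom_one hx, zp_zero, R.ρ_one, Matrix.one_mulVec, one_smul]

theorem act_rel (hx : T.IsHom x) (v : P) (t : V) :
    R.act x (T.σ v * T.τ v) t = R.act x (T.τ v ^ T.Q v * T.σ v) t := by
  simp only [act, Tame.sm_rel hx.1 v, rho_rel v]

theorem act_unr {v : P} (hv : v ∉ R.S) (hx : x (T.τ v) = 0) (t : V) : R.act x (T.τ v) t = t := by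
  simp only [act, hx, zp_zero, R.unr v hv, Matrix.one_mulVec, one_smul]

theorem act_VD {j : ℕ} {t : V} (ht : VD j t) (g : W) : VD j (R.act x g t) := by
  exact (ht.mulVec _).smul _

theorem Act_split (g : W) (t : V) :
    R.act x g t - t = (zp (x g) - 1) • t + zp (x g) • (R.ρ g - 1).mulVec t := by
  simp only [act, Matrix.sub_mulVec, Matrix.one_mulVec, smul_sub, sub_smul, one_smul]
  abel

theorem Act_VD_zp (c : F3) (t : V) : VD 1 ((zp c - 1) • t) := fun i => by
  rw [pow_one]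
  exact (pi_dvd_zp_sub_one c).mul_right _

theorem Act_digV_zp (c : F3) (t : V) : digV 1 ((zp c - 1) • t) = (-c) • digV 0 t := by
  funext i
  have h : pi ^ 1 ∣ zp c - 1 := by
    rw [pow_one]
    exact pi_dvd_zp_sub_one c
  have := dig_mul (i := 1) (j := 0) (b := t i) h (by simp)
  rw [dig_one_zp_sub_one] at this
  exact this

theorem act_sub_VD {j : ℕ} {t : V} (ht : VD j t) (g : W) : VD (j + 1) (R.act x g t - t) := by
  obtain ⟨b, rfl⟩ := ht.exists
  rw [act_smul, ← smul_sub, VD_pow_smul_iff, Act_split]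
  exact (Act_VD_zp _ _).add ((Act_VD_mulVec (Act_one_mod g) b).smul _)

theorem digV_act {j : ℕ} {t : V} (ht : VD j t) (g : W) : digV j (R.act x g t) = digV j t := by
  exact digV_congr (act_sub_VD ht g)

theorem digV_act_sub (g : W) (t : V) : digV 1 (R.act x g t - t) = R.wt x (digV 0 t) g := by
  have h1 := Act_VD_mulVec (Act_one_mod (R := R) g) t
  rw [Act_split, digV_add (Act_VD_zp _ _) (h1.smul _), Act_digV_zp, digV_smul _ h1, res_zp,
    one_smul, wt]
  congr 1
  funext i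
  simp only [digV, Matrix.mulVec, dotProduct]
  rw [dig_sum _ fun l _ => (Act_one_mod g i l).mul_right _]
  refine Finset.sum_congr rfl fun l _ => ?_
  exact dig_mul (i := 1) (j := 0) (Act_one_mod g i l) (by simp)

theorem hh_act (g : W) (s t : V) : hh (R.act x g s) (R.act x g t) = T.cq g * hh s t := by
  rw [← R.herm]
  simp only [act, hh, Pi.smul_apply, smul_eq_mul, star_mul']
  linear_combination ((R.ρ g).mulVec s 0 * star ((R.ρ g).mulVec t 1) +
    (R.ρ g).mulVec s 1 * star ((R.ρ g).mulVec t 0)) * zp_mul_star (x g)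

theorem act_sm (hx : T.IsHom x) (j : ℕ) :
    ∃ U, T.Adm U ∧ ∀ u ∈ U, ∀ t, VD j (R.act x u t - t) := by
  obtain ⟨U, hU, h⟩ := hx.1
  obtain ⟨U', hU', h'⟩ := R.sm j
  refine ⟨U ⊓ U', T.adm_inf _ _ hU hU', fun u hu t => ?_⟩
  have h0 : x u = 0 := by
    have := h 1 u hu.1
    rwa [one_mul, Tame.hom_one hx] at this
  rw [Act_split, h0, zp_zero, sub_self, zero_smul, zero_add, one_smul]
  exact Act_VD_mulVec (h' u hu.2) t

theorem wt_hom (hx : T.IsHom x) (t : Vb) : T.IsHom (R.wt x t) := by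
  constructor
  · have hM : T.Sm R.M := Tame.sm_pi fun a => Tame.sm_pi fun b => (M_hom a b).1
    exact Tame.sm_comp₂ hx.1 hM fun c m => (-c) • t + m.mulVec t
  · intro g h
    have hM : R.M (g * h) = R.M g + R.M h := by
      ext a b
      exact (M_hom a b).2 g h
    simp only [wt, hx.2, hM, Matrix.add_mulVec, neg_add, add_smul]
    abel

section coc

variable {j : ℕ} {ψ ψ' : W → V}

theorem Coc.mono (h : R.Coc x j ψ) {i : ℕ} (hi : i ≤ j) : R.Coc x i ψ := by
  obtain ⟨⟨U, hU, h1⟩, h2⟩ := h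
  exact ⟨⟨U, hU, fun g u hu => (h1 g u hu).mono hi⟩, fun g g' => (h2 g g').mono hi⟩

theorem Coc.one (hx : T.IsHom x) (h : R.Coc x j ψ) : VD j (ψ 1) := by
  have := h.2 1 1
  rwa [act_one hx, mul_one, add_sub_cancel_right] at this

theorem Coc.congr (h : R.Coc x j ψ) (h' : ∀ g, VD j (ψ g - ψ' g)) : R.Coc x j ψ' := by
  obtain ⟨⟨U, hU, h1⟩, h2⟩ := h
  refine ⟨⟨U, hU, fun g u hu => ?_⟩, fun g k => ?_⟩
  · have := ((h1 g u hu).sub (h' (g * u))).add (h' g)
    convert this using 1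
    abel
  · have := (((h2 g k).sub (h' g)).sub (act_VD (R := R) (x := x) (h' k) g)).add (h' (g * k))
    convert this using 1
    rw [act_sub]
    abel

theorem Coc.add (h : R.Coc x j ψ) (h' : R.Coc x j ψ') : R.Coc x j (ψ + ψ') := by
  obtain ⟨⟨U, hU, h1⟩, h2⟩ := h
  obtain ⟨⟨U', hU', k1⟩, k2⟩ := h'
  refine ⟨⟨U ⊓ U', T.adm_inf _ _ hU hU', fun g u hu => ?_⟩, fun g k => ?_⟩
  · convert (h1 g u hu.1).add (k1 g u hu.2) using 1
    simp only [Pi.add_apply]
    abel
  · convert (h2 g k).add (k2 g k) using 1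
    simp only [Pi.add_apply, act_add]
    abel

theorem Coc.sub (h : R.Coc x j ψ) (h' : R.Coc x j ψ') : R.Coc x j (ψ - ψ') := by
  obtain ⟨⟨U, hU, h1⟩, h2⟩ := h
  obtain ⟨⟨U', hU', k1⟩, k2⟩ := h'
  refine ⟨⟨U ⊓ U', T.adm_inf _ _ hU hU', fun g u hu => ?_⟩, fun g k => ?_⟩
  · convert (h1 g u hu.1).sub (k1 g u hu.2) using 1
    simp only [Pi.sub_apply]
    abel
  · convert (h2 g k).sub (k2 g k) using 1
    simp only [Pi.sub_apply, act_sub]
    abel

theorem Coc.smul (h : R.Coc x j ψ) (c : O) : R.Coc x j (c • ψ) := by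
  obtain ⟨⟨U, hU, h1⟩, h2⟩ := h
  refine ⟨⟨U, hU, fun g u hu => ?_⟩, fun g k => ?_⟩
  · convert (h1 g u hu).smul c using 1
    simp only [Pi.smul_apply, smul_sub]
  · convert (h2 g k).smul c using 1
    simp only [Pi.smul_apply, act_smul, smul_sub, smul_add]

theorem coc_pow_smul_iff (i : ℕ) : R.Coc x (i + j) (pi ^ i • ψ) ↔ R.Coc x j ψ := by
  simp only [Coc, Pi.smul_apply, act_smul, ← smul_sub, ← smul_add, VD_pow_smul_iff]

theorem Coc.rel (h : R.Coc x j ψ) (v : P) :
    VD j (ψ (T.σ v * T.τ v) - ψ (T.τ v ^ T.Q v * T.σ v)) := by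
  obtain ⟨U, hU, h1⟩ := h.1
  have := (h1 (T.σ v * T.τ v) _ (T.rel U hU v)).neg
  rwa [mul_inv_cancel_left, neg_sub] at this

theorem Coc.fin (hx : T.IsHom x) (h : R.Coc x j ψ) : {v | ¬ VD j (ψ (T.τ v))}.Finite := by
  obtain ⟨U, hU, h1⟩ := h.1
  refine (T.fin U hU).subset fun v hv hu => hv ?_
  have := (h1 1 _ hu).add (h.one hx)
  rwa [one_mul, sub_add_cancel] at this

/-- the leading digit of a cocycle is a smooth homomorphism -/
theorem Coc.hom_dig (h : R.Coc x (j + 1) ψ) (h0 : ∀ g, VD j (ψ g)) :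
    T.IsHom fun g => digV j (ψ g) := by
  obtain ⟨⟨U, hU, h1⟩, h2⟩ := h
  refine ⟨⟨U, hU, fun g u hu => digV_congr (h1 g u hu)⟩, fun g k => ?_⟩
  show digV j (ψ (g * k)) = digV j (ψ g) + digV j (ψ k)
  rw [← digV_congr (h2 g k), digV_add (h0 g) (act_VD (h0 k) g), digV_act (h0 k)]

theorem coc_of_hom {h : W → Vb} (hh : T.IsHom h) :
    R.Coc x (j + 1) fun g => pi ^ j • lftV (h g) := by
  obtain ⟨⟨U, hU, h1⟩, h2⟩ := hh
  refine ⟨⟨U, hU, fun g u hu => ?_⟩, fun g k => ?_⟩
  · simp only [h1 g u hu, sub_self]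
    exact VD.zero _
  · have a := VD_pow_smul j (lftV (h g))
    have b := VD_pow_smul j (lftV (h k))
    have c := VD_pow_smul j (lftV (h (g * k)))
    have b' := act_VD (R := R) (x := x) b g
    rw [← digV_eq_zero_iff ((a.add b').sub c), digV_sub (a.add b') c, digV_add a b', digV_act b,
      digV_pow_smul, digV_pow_smul, digV_pow_smul, digV_lftV, digV_lftV, digV_lftV, h2, sub_self]

/-- a global coboundary divided by a power of `pi` -/
theorem coc_of_cob (hx : T.IsHom x) {m : ℕ} {t : V} (h : ∀ g, pi ^ m • ψ g = R.act x g t - t) :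
    R.Coc x j ψ := by
  rw [← coc_pow_smul_iff m]
  obtain ⟨U, hU, h1⟩ := act_sm (R := R) hx (m + j)
  refine ⟨⟨U, hU, fun g u hu => ?_⟩, fun g k => ?_⟩
  · simp only [Pi.smul_apply, h]
    rw [sub_sub_sub_cancel_right, act_mul hx, ← act_sub]
    exact act_VD (h1 u hu t) g
  · simp only [Pi.smul_apply, h]
    rw [act_mul hx, act_sub]
    convert VD.zero (m + j) using 1
    abel

/-- powers of an element acting trivially -/
theorem Coc.pow_unr (hx : T.IsHom x) (h : R.Coc x j ψ) {g : W} (hg : VD j (ψ g)) (n : ℕ) :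
    VD j (ψ (g ^ n)) := by
  induction n with
  | zero => rw [pow_zero]; exact h.one hx
  | succ n ih =>
    have := (ih.add (act_VD (R := R) (x := x) hg (g ^ n))).sub (h.2 (g ^ n) g)
    rwa [sub_sub_cancel, ← pow_succ] at this

/-- at a prime where the twist is ramified: `1 + ζ + ... + ζ ^ (Q - 1) = 1` -/
theorem Coc.pow_Q (hx : T.IsHom x) (h : R.Coc x j ψ) {v : P} (hv : v ∉ R.S)
    (h1 : x (T.τ v) = 1) : VD j (ψ (T.τ v ^ T.Q v) - ψ (T.τ v)) := by
  have _ := hx
  have ha : ∀ t : V, R.act x (T.τ v) t = ze • t := fun t => by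
    simp only [act, h1, zp_one, R.unr v hv, Matrix.one_mulVec]
  have hs : ∀ n : ℕ, VD j (ψ (T.τ v) + ze • ψ (T.τ v ^ n) - ψ (T.τ v ^ (n + 1))) := fun n => by
    have := h.2 (T.τ v) (T.τ v ^ n)
    rwa [ha, ← pow_succ'] at this
  have h3 : ∀ n : ℕ, VD j (ψ (T.τ v ^ (n + 3)) - ψ (T.τ v ^ n)) := fun n => by
    have := ((((hs n).smul (ze ^ 2)).add ((hs (n + 1)).smul ze)).add (hs (n + 2))).neg
    convert this using 1
    funext i
    simp only [Pi.sub_apply, Pi.add_apply, Pi.neg_apply, Pi.smul_apply, smul_eq_mul]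
    linear_combination ψ (T.τ v) i * ze_sq_add + ψ (T.τ v ^ n) i * ze_cube
  have h4 : ∀ k : ℕ, VD j (ψ (T.τ v ^ (3 * k + 1)) - ψ (T.τ v)) := fun k => by
    induction k with
    | zero => simpa using VD.zero j
    | succ k ih =>
      have := (h3 (3 * k + 1)).add ih
      rwa [sub_add_sub_cancel, show 3 * k + 1 + 3 = 3 * (k + 1) + 1 by ring] at this
  have := h4 (T.Q v / 3)
  rwa [show 3 * (T.Q v / 3) + 1 = T.Q v by have := Tame.Q_mod (T := T) v; omega] at this

end coc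

section ltyp

variable {v : P} {l l' : W → V}

theorem LTyp.zero : R.LTyp x v 0 := by
  exact ⟨0, 0, fun g _ => by simp [act_zero]⟩

theorem LTyp.add (h : R.LTyp x v l) (h' : R.LTyp x v l') : R.LTyp x v (l + l') := by
  obtain ⟨m, t, h⟩ := h
  obtain ⟨m', t', h'⟩ := h'
  refine ⟨m + m', pi ^ m' • t + pi ^ m • t', fun g hg => ?_⟩
  rw [act_add, act_smul, act_smul, add_sub_add_comm, ← smul_sub, ← smul_sub, ← h g hg, ← h' g hg,
    Pi.add_apply, smul_add, smul_smul, smul_smul, pow_add, mul_comm (pi ^ m') (pi ^ m)]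

theorem LTyp.sub (h : R.LTyp x v l) (h' : R.LTyp x v l') : R.LTyp x v (l - l') := by
  obtain ⟨m, t, h⟩ := h
  obtain ⟨m', t', h'⟩ := h'
  refine ⟨m + m', pi ^ m' • t - pi ^ m • t', fun g hg => ?_⟩
  rw [act_sub, act_smul, act_smul, sub_sub_sub_comm, ← smul_sub, ← smul_sub, ← h g hg, ← h' g hg,
    Pi.sub_apply, smul_sub, smul_smul, smul_smul, pow_add, mul_comm (pi ^ m') (pi ^ m)]

theorem LTyp.smul (h : R.LTyp x v l) (c : O) : R.LTyp x v (c • l) := by
  obtain ⟨m, t, h⟩ := h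
  refine ⟨m, c • t, fun g hg => ?_⟩
  rw [act_smul, ← smul_sub, ← h g hg, Pi.smul_apply, smul_comm]

theorem LTyp.sum {ι : Type*} (s : Finset ι) {f : ι → W → V} (h : ∀ i ∈ s, R.LTyp x v (f i)) :
    R.LTyp x v fun g => ∑ i ∈ s, f i g := by
  induction s using Finset.induction_on with
  | empty => exact LTyp.zero
  | insert i s hi ih =>
    simp only [Finset.sum_insert hi]
    exact (h i (Finset.mem_insert_self _ _)).add
      (ih fun l hl => h l (Finset.mem_insert_of_mem hl))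

theorem LTyp.of_pow_smul {i : ℕ} (h : R.LTyp x v l) (h' : ∀ g ∈ T.D v, l g = pi ^ i • l' g) :
    R.LTyp x v l' := by
  obtain ⟨m, t, h⟩ := h
  refine ⟨m + i, t, fun g hg => ?_⟩
  rw [← h g hg, h' g hg, smul_smul, pow_add]

theorem LTyp.twist {y : W → F3} (h : R.LTyp x v l) (hy : ∀ g ∈ T.D v, x g = y g) :
    R.LTyp y v l := by
  obtain ⟨m, t, h⟩ := h
  exact ⟨m, t, fun g hg => by rw [h g hg, act_congr (hy g hg)]⟩

theorem LTyp.coc (hx : T.IsHom x) (h : R.LTyp x v l) :
    ∀ g ∈ T.D v, ∀ g' ∈ T.D v, l (g * g') = l g + R.act x g (l g') := by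
  obtain ⟨m, t, h⟩ := h
  intro g hg g' hg'
  refine Act_cancel (m := m) ?_
  rw [h _ ((T.D v).mul_mem hg hg'), smul_add, ← act_smul, h g hg, h g' hg', act_sub, act_mul hx]
  abel

theorem LTyp.rel (hx : T.IsHom x) (h : R.LTyp x v l) :
    l (T.σ v * T.τ v) = l (T.τ v ^ T.Q v * T.σ v) := by
  obtain ⟨m, t, h⟩ := h
  refine Act_cancel (m := m) ?_
  rw [h _ ((T.D v).mul_mem (Tame.σ_mem v) (Tame.τ_mem v)),
    h _ ((T.D v).mul_mem ((T.D v).pow_mem (Tame.τ_mem v) _) (Tame.σ_mem v)), act_rel hx]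

theorem LTyp.unr (h : R.LTyp x v l) (hv : v ∉ R.S) (h0 : x (T.τ v) = 0) : l (T.τ v) = 0 := by
  obtain ⟨m, t, h⟩ := h
  refine Act_cancel (m := m) ?_
  rw [h _ (Tame.τ_mem v), act_unr hv h0, sub_self, smul_zero]

theorem Act_wt_neg (t : Vb) (g : W) : R.wt x (-t) g = -R.wt x t g := by
  simp only [wt, smul_neg, Matrix.mulVec_neg, neg_add]

/-- structure at a prime where the twist is ramified -/
theorem LTyp.ram (h : R.LTyp x v l) (hv : v ∉ R.S) (h1 : x (T.τ v) = 1) :
    ∀ g ∈ T.D v, digV 0 (l g) = R.wt x (-digV 0 (l (T.τ v))) g := by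
  obtain ⟨m, t, h⟩ := h
  intro g hg
  have h2 : pi ^ m • l (T.τ v) = (zp 1 - 1) • t := by
    rw [h _ (Tame.τ_mem v), Act_split, h1, R.unr v hv, sub_self, Matrix.zero_mulVec, smul_zero,
      add_zero]
  have h3 : (zp 1 - 1) • l g = R.act x g (l (T.τ v)) - l (T.τ v) := by
    refine Act_cancel (m := m) ?_
    rw [smul_comm, h g hg, smul_sub, smul_sub, ← act_smul, ← act_smul, h2]
  have h4 := congrArg (digV 1) h3
  rw [Act_digV_zp, digV_act_sub, neg_one_smul, neg_eq_iff_eq_neg] at h4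
  rw [h4, Act_wt_neg]

end ltyp

section locok

variable {v : P} {j : ℕ} {ψ ψ' : W → V}

theorem LocOK.mono (h : R.LocOK x j ψ v) {i : ℕ} (hi : i ≤ j) : R.LocOK x i ψ v := by
  obtain ⟨l, h1, h2⟩ := h
  exact ⟨l, h1, fun g hg => (h2 g hg).mono hi⟩

theorem LocOK.congr (h : R.LocOK x j ψ v) (h' : ∀ g ∈ T.D v, VD j (ψ g - ψ' g)) :
    R.LocOK x j ψ' v := by
  obtain ⟨l, h1, h2⟩ := h
  refine ⟨l, h1, fun g hg => ?_⟩
  have := (h2 g hg).sub (h' g hg)
  rwa [sub_sub_sub_cancel_left] at this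

theorem LocOK.twist {y : W → F3} (h : R.LocOK x j ψ v) (hy : ∀ g ∈ T.D v, x g = y g) :
    R.LocOK y j ψ v := by
  obtain ⟨l, h1, h2⟩ := h
  exact ⟨l, h1.twist hy, h2⟩

theorem LocOK.sum {ι : Type*} (s : Finset ι) (c : ι → O) {f : ι → W → V}
    (h : ∀ i ∈ s, R.LocOK x j (f i) v) : R.LocOK x j (fun g => ∑ i ∈ s, c i • f i g) v := by
  choose! l h1 h2 using h
  refine ⟨fun g => ∑ i ∈ s, (c i • l i) g, LTyp.sum s fun i hi => (h1 i hi).smul _, fun g hg => ?_⟩
  simp only [Pi.smul_apply, ← Finset.sum_sub_distrib, ← smul_sub]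
  exact VD.sum s fun i hi => (h2 i hi g hg).smul _

theorem lch_spec (h : R.LocOK x j ψ v) :
    R.LTyp x v (R.lch x j ψ v) ∧ ∀ g ∈ T.D v, VD j (ψ g - R.lch x j ψ v g) := by
  rw [lch, dif_pos h]
  exact h.choose_spec

/-- leading digit of a function satisfying the local condition at a ramified prime -/
theorem LocOK.ram {i : ℕ} (h : R.LocOK x j ψ v) (hv : v ∉ R.S) (h1 : x (T.τ v) = 1) (hi : i < j)
    (h0 : ∀ g ∈ T.D v, VD i (ψ g)) :
    ∀ g ∈ T.D v, digV i (ψ g) = R.wt x (-digV i (ψ (T.τ v))) g := by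
  obtain ⟨l, k1, k2⟩ := h
  have k3 : ∀ g ∈ T.D v, ∃ b : V, l g = pi ^ i • b := fun g hg => by
    have := (h0 g hg).sub ((k2 g hg).mono hi.le)
    rw [sub_sub_cancel] at this
    exact this.exists
  choose! l' k4 using k3
  have k5 : ∀ g ∈ T.D v, digV i (ψ g) = digV 0 (l' g) := fun g hg => by
    rw [digV_congr ((k2 g hg).mono hi), k4 g hg, digV_pow_smul]
  intro g hg
  rw [k5 g hg, k5 _ (Tame.τ_mem v)]
  exact (k1.of_pow_smul k4).ram hv h1 g hg

theorem LocOK.lc {i : ℕ} (h : R.LocOK x j ψ v) (hv : v ∉ R.S) (h1 : x (T.τ v) = 1) (hi : i < j)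
    (h0 : ∀ g ∈ T.D v, VD i (ψ g)) : R.Lc (x (T.σ v)) v fun g => digV i (ψ g) := by
  have := h.ram hv h1 hi h0 _ (Tame.σ_mem v)
  rw [Act_wt_neg] at this
  simp only [Lc, this, wt, neg_smul, neg_add, neg_neg, sub_eq_add_neg]

theorem LocOK.ram_zero {i : ℕ} (h : R.LocOK x j ψ v) (hv : v ∉ R.S) (h1 : x (T.τ v) = 1)
    (hi : i < j) (h0 : ∀ g ∈ T.D v, VD i (ψ g)) (hτ : VD (i + 1) (ψ (T.τ v))) :
    ∀ g ∈ T.D v, VD (i + 1) (ψ g) := by
  intro g hg
  rw [← digV_eq_zero_iff (h0 g hg), h.ram hv h1 hi h0 g hg,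
    (digV_eq_zero_iff (h0 _ (Tame.τ_mem v))).2 hτ]
  simp [wt]

end locok

theorem Sel.mono {A : Finset P} {i j : ℕ} {ψ : W → V} (h : R.Sel A x j ψ) (hi : i ≤ j) :
    R.Sel A x i ψ := by
  exact ⟨h.1.mono hi, fun v hv => (h.2.1 v hv).mono hi, fun v hv => (h.2.2 v hv).mono hi⟩

theorem Lifts.mono {A : Finset P} {i j : ℕ} {w : W → Vb} (h : R.Lifts A x j w) (hi : i ≤ j) :
    R.Lifts A x i w := by
  obtain ⟨ψ, h1, h2⟩ := h
  exact ⟨ψ, h1.mono hi, h2⟩

theorem StrongSel.sel {A : Finset P} {j : ℕ} {ψ : W → V} (h : R.StrongSel x j ψ) (hA : R.S ⊆ A)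
    (hx : ∀ v ∉ A, x (T.τ v) = 0) : R.Sel A x j ψ := by
  refine ⟨h.1, fun v _ => h.2 v, fun v hv => ?_⟩
  obtain ⟨l, h1, h2⟩ := h.2 v
  have := h2 _ (Tame.τ_mem v)
  rwa [h1.unr (fun hs => hv (hA hs)) (hx v hv), sub_zero] at this

/-- the coboundary of a lift, divided by `pi` -/
theorem Act_exists_div (t : Vb) : ∃ φ : W → V,
    (∀ g, pi ^ 1 • φ g = R.act x g (lftV t) - lftV t) ∧ ∀ g, digV 0 (φ g) = R.wt x t g := by
  have h : ∀ g, ∃ b : V, R.act x g (lftV t) - lftV t = pi ^ 1 • b := fun g =>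
    (act_sub_VD (VD.triv (lftV t)) g).exists
  choose φ hφ using h
  refine ⟨φ, fun g => (hφ g).symm, fun g => ?_⟩
  rw [← digV_pow_smul 1, ← hφ g, digV_act_sub, digV_lftV]

theorem Act_locOK_sub {v : P} {j : ℕ} {ψ φ : W → V} (h : R.LocOK x j ψ v) (h' : R.LTyp x v φ) :
    R.LocOK x j (ψ - φ) v := by
  obtain ⟨l, h1, h2⟩ := h
  refine ⟨l - φ, h1.sub h', fun g hg => ?_⟩
  rw [Pi.sub_apply, Pi.sub_apply, sub_sub_sub_cancel_right]
  exact h2 g hg

theorem Act_locOK_div {v : P} {i j : ℕ} {ψ : W → V} (h : R.LocOK x (i + j) (pi ^ i • ψ) v) :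
    R.LocOK x j ψ v := by
  obtain ⟨l, h1, h2⟩ := h
  have k3 : ∀ g ∈ T.D v, ∃ b : V, l g = pi ^ i • b := fun g hg => by
    have := (VD_pow_smul i (ψ g)).sub ((h2 g hg).mono (Nat.le_add_right i j))
    rw [Pi.smul_apply, sub_sub_cancel] at this
    exact this.exists
  choose! l' k4 using k3
  refine ⟨l', h1.of_pow_smul k4, fun g hg => ?_⟩
  have := h2 g hg
  rwa [Pi.smul_apply, k4 g hg, ← smul_sub, VD_pow_smul_iff] at this

/-- subtracting a trivial class -/
theorem Lifts.sub_wt (hx : T.IsHom x) {A : Finset P} (hA : R.S ⊆ A) (hx' : ∀ v ∉ A, x (T.τ v) = 0)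
    {j : ℕ} {w : W → Vb} (h : R.Lifts A x j w) (t : Vb) : R.Lifts A x j (w - R.wt x t) := by
  obtain ⟨ψ, ⟨h1, h2, h3⟩, h4⟩ := h
  obtain ⟨φ, k1, k2⟩ := Act_exists_div (R := R) (x := x) t
  have k3 : ∀ v, R.LTyp x v φ := fun v => ⟨1, lftV t, fun g _ => k1 g⟩
  refine ⟨ψ - φ, ⟨h1.sub (coc_of_cob hx k1), fun v hv => Act_locOK_sub (h2 v hv) (k3 v),
    fun v hv => ?_⟩, fun g => ?_⟩
  · rw [Pi.sub_apply, (k3 v).unr (fun hs => hv (hA hs)) (hx' v hv), sub_zero]
    exact h3 v hv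
  · rw [Pi.sub_apply, Pi.sub_apply, digV_sub (VD.triv _) (VD.triv _), h4, k2]

/-- descent: if only trivial classes survive to level `K`, Selmer cocycles have bounded order.
Induction on `j`: subtract `(act g t - t) / pi` and divide by `pi`. -/
theorem Triv.descent (hx : T.IsHom x) {K : ℕ} (hK : R.Triv x K) {j : ℕ} {ψ : W → V}
    (h : R.StrongSel x j ψ) :
    ∃ t : V, ∀ g, VD (j + 1) (pi ^ (K + 1) • ψ g - (R.act x g t - t)) := by
  induction j generalizing ψ with
  | zero =>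
    refine ⟨0, fun g => ?_⟩
    rw [act_zero, sub_self, sub_zero]
    exact (VD_pow_smul _ _).mono (by omega)
  | succ j ih =>
    by_cases hj : j + 1 ≤ K
    · refine ⟨0, fun g => ?_⟩
      rw [act_zero, sub_self, sub_zero]
      exact (VD_pow_smul _ _).mono (by omega)
    · have hKj : K ≤ j + 1 := by omega
      obtain ⟨t0, ht0⟩ := hK ψ ⟨h.1.mono hKj, fun v => (h.2 v).mono hKj⟩
      obtain ⟨φ, k1, k2⟩ := Act_exists_div (R := R) (x := x) t0
      have k3 : ∀ v, R.LTyp x v φ := fun v => ⟨1, lftV t0, fun g _ => k1 g⟩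
      have k4 : ∀ g, ∃ b : V, ψ g - φ g = pi ^ 1 • b := fun g => by
        refine VD.exists ((digV_eq_zero_iff (VD.triv _)).1 ?_)
        rw [digV_sub (VD.triv _) (VD.triv _), ht0, k2, sub_self]
      choose ψ' k5 using k4
      have k6 : ψ - φ = pi ^ 1 • ψ' := funext k5
      have k7 : R.StrongSel x j ψ' := by
        constructor
        · rw [← coc_pow_smul_iff 1, ← k6, add_comm]
          exact h.1.sub (coc_of_cob hx k1)
        · intro v
          refine Act_locOK_div (i := 1) ?_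
          rw [← k6, add_comm]
          exact Act_locOK_sub (h.2 v) (k3 v)
      obtain ⟨t', ht'⟩ := ih k7
      refine ⟨pi ^ K • lftV t0 + pi ^ 1 • t', fun g => ?_⟩
      have k8 := (VD_pow_smul_iff 1 (j + 1) _).2 (ht' g)
      rw [add_comm 1 (j + 1)] at k8
      convert k8 using 1
      rw [act_add, act_smul, act_smul, add_sub_add_comm, ← smul_sub, ← smul_sub, ← k1 g,
        sub_eq_iff_eq_add.1 (k5 g)]
      funext i
      simp only [Pi.sub_apply, Pi.add_apply, Pi.smul_apply, smul_eq_mul]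
      ring

end Rep

end

end Pool.Agent.Smith
end

-- merged part: Pool.Agent.Work.MP_60d5ce_nt.Sm.Cube
section
/-!
# Differences on a cube, graded families  (task SM Cube)

`Gr.mul` and `leibniz` together, by induction on the set of directions (generalising the two
functions): `Dl (insert i B) (f * g) = Dl B (δf * g + f * δg + δf * δg)` with
`δf e = f (insert i e) - f e`, and `δf = pi * f'` on subsets of `B` with `f'` graded on `B`
(use `Dl_inversion` to see that `pi` divides `δf e`).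
-/

namespace Pool.Agent.Smith

noncomputable section

variable {ι : Type} [DecidableEq ι]

/-- alternating sum over the face with directions `B` -/
def Dl {A : Type*} [AddCommGroup A] (B : Finset ι) (f : Finset ι → A) : A :=
  ∑ e ∈ B.powerset, (-1 : ℤ) ^ (B \ e).card • f e

section gen

variable {A : Type*} [AddCommGroup A]

theorem Dl_empty (f : Finset ι → A) : Dl ∅ f = f ∅ := by
  simp [Dl]

theorem Dl_insert {i : ι} {B : Finset ι} (hi : i ∉ B) (f : Finset ι → A) :
    Dl (insert i B) f = Dl B (fun e => f (insert i e)) - Dl B f := by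
  unfold Dl
  rw [Finset.sum_powerset_insert hi, sub_eq_add_neg, add_comm, ← Finset.sum_neg_distrib]
  congr 1
  · refine Finset.sum_congr rfl fun e he => ?_
    rw [Finset.insert_sdiff_insert, Finset.sdiff_insert_of_notMem hi]
  · refine Finset.sum_congr rfl fun e he => ?_
    have h1 : i ∉ e := fun h => hi (Finset.mem_powerset.1 he h)
    rw [Finset.insert_sdiff_of_notMem _ h1,
      Finset.card_insert_of_notMem (fun h => hi (Finset.mem_sdiff.1 h).1), pow_succ, mul_neg_one,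
      neg_smul]

theorem Dl_congr {B : Finset ι} {f g : Finset ι → A} (h : ∀ e ⊆ B, f e = g e) :
    Dl B f = Dl B g := by
  unfold Dl
  exact Finset.sum_congr rfl fun e he => by rw [h e (Finset.mem_powerset.1 he)]

theorem Dl_add (B : Finset ι) (f g : Finset ι → A) :
    Dl B (fun e => f e + g e) = Dl B f + Dl B g := by
  simp only [Dl, smul_add, Finset.sum_add_distrib]

theorem Dl_sub (B : Finset ι) (f g : Finset ι → A) :
    Dl B (fun e => f e - g e) = Dl B f - Dl B g := by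
  simp only [Dl, smul_sub, Finset.sum_sub_distrib]

theorem Dl_map {A' : Type*} [AddCommGroup A'] (φ : A →+ A') (B : Finset ι) (f : Finset ι → A) :
    Dl B (fun e => φ (f e)) = φ (Dl B f) := by
  simp only [Dl, map_sum, map_zsmul]

theorem Dl_sum {κ : Type*} (s : Finset κ) (B : Finset ι) (f : κ → Finset ι → A) :
    Dl B (fun e => ∑ j ∈ s, f j e) = ∑ j ∈ s, Dl B (f j) := by
  simp only [Dl, Finset.smul_sum]
  exact Finset.sum_comm

theorem Dl_const {B : Finset ι} (hB : B.Nonempty) (a : A) : Dl B (fun _ => a) = 0 := by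
  obtain ⟨i, hi⟩ := hB
  rw [← Finset.insert_erase hi, Dl_insert (Finset.notMem_erase i B), sub_self]

theorem Dl_top (B : Finset ι) (f : Finset ι → A) :
    Dl B f = f B + ∑ e ∈ B.powerset.erase B, (-1 : ℤ) ^ (B \ e).card • f e := by
  unfold Dl
  rw [← Finset.add_sum_erase _ _ (Finset.mem_powerset_self B)]
  simp

theorem Dl_inversion (e : Finset ι) (f : Finset ι → A) : f e = ∑ B ∈ e.powerset, Dl B f := by
  induction e using Finset.induction_on generalizing f with
  | empty => simp [Dl_empty]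
  | insert i e hi ih =>
    rw [Finset.sum_powerset_insert hi, ← Finset.sum_add_distrib, ih fun e => f (insert i e)]
    refine Finset.sum_congr rfl fun B hB => ?_
    rw [Dl_insert fun h => hi (Finset.mem_powerset.1 hB h)]
    abel

theorem Dl_mem (I : AddSubgroup A) {B : Finset ι} {f : Finset ι → A} (h : ∀ e ⊆ B, f e ∈ I) :
    Dl B f ∈ I := by
  unfold Dl
  exact I.sum_mem fun e he => I.zsmul_mem (h e (Finset.mem_powerset.1 he)) _

end gen

theorem Dl_apply (B : Finset ι) (f : Finset ι → V) (a : Fin 2) :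
    Dl B f a = Dl B fun e => f e a := by
  simp only [Dl, Finset.sum_apply, Pi.smul_apply]

theorem Dl_eq_sum_smul (B : Finset ι) (f : Finset ι → V) :
    Dl B f = ∑ e ∈ B.powerset, (-1 : O) ^ (B \ e).card • f e := by
  unfold Dl
  refine Finset.sum_congr rfl fun e _ => ?_
  rw [← Int.cast_smul_eq_zsmul O]
  simp

theorem Dl_eq_sum_res (B : Finset ι) (f : Finset ι → F3) :
    Dl B f = ∑ e ∈ B.powerset, res ((-1 : O) ^ (B \ e).card) * f e := by
  unfold Dl
  refine Finset.sum_congr rfl fun e _ => ?_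
  simp

theorem Dl_dvd {j : ℕ} {B : Finset ι} {f : Finset ι → O} (h : ∀ e ⊆ B, pi ^ j ∣ f e) :
    pi ^ j ∣ Dl B f := by
  unfold Dl
  refine Finset.dvd_sum fun e he => ?_
  rw [zsmul_eq_mul]
  exact (h e (Finset.mem_powerset.1 he)).mul_left _

theorem Dl_VD {j : ℕ} {B : Finset ι} {f : Finset ι → V} (h : ∀ e ⊆ B, VD j (f e)) :
    VD j (Dl B f) := by
  intro a
  rw [Dl_apply]
  exact Dl_dvd fun e he => h e he a

theorem dig_Dl {j : ℕ} {B : Finset ι} {f : Finset ι → O} (h : ∀ e ⊆ B, pi ^ j ∣ f e) :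
    dig j (Dl B f) = Dl B fun e => dig j (f e) := by
  unfold Dl
  rw [dig_sum]
  · refine Finset.sum_congr rfl fun e he => ?_
    rw [zsmul_eq_mul, zsmul_eq_mul, dig_mul_left _ (h e (Finset.mem_powerset.1 he)), map_intCast]
  · intro e he
    rw [zsmul_eq_mul]
    exact (h e (Finset.mem_powerset.1 he)).mul_left _

theorem cube_Dl_star (B : Finset ι) (f : Finset ι → O) :
    Dl B (fun e => star (f e)) = star (Dl B f) :=
  Dl_map (starAddEquiv (R := O)).toAddMonoidHom B f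

theorem cube_leib (U : Finset ι) : ∀ (a b : ℕ) (f g : Finset ι → O),
    (∀ B ⊆ U, pi ^ (a + B.card) ∣ Dl B f) → (∀ B ⊆ U, pi ^ (b + B.card) ∣ Dl B g) →
    pi ^ (a + b + U.card) ∣ Dl U (fun e => f e * g e) ∧
      dig (a + b + U.card) (Dl U fun e => f e * g e) = ∑ C ∈ U.powerset,
        dig (a + C.card) (Dl C f) * dig (b + (U \ C).card) (Dl (U \ C) g) := by
  induction U using Finset.induction_on with
  | empty =>
    intro a b f g hf hg
    have h1 := hf ∅ subset_rfl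
    have h2 := hg ∅ subset_rfl
    simp only [Dl_empty, Finset.card_empty, add_zero, Finset.powerset_empty, Finset.sum_singleton,
      Finset.sdiff_self] at h1 h2 ⊢
    exact ⟨by rw [pow_add]; exact mul_dvd_mul h1 h2, dig_mul h1 h2⟩
  | insert i B hi ih =>
    intro a b f g hf hg
    have hδ : ∀ (f : Finset ι → O), ∀ C ⊆ B,
        Dl C (fun e => f (insert i e) - f e) = Dl (insert i C) f := fun f C hC => by
      rw [Dl_insert fun h => hi (hC h), Dl_sub]
    have hcard : ∀ C ⊆ B, (insert i C).card = C.card + 1 := fun C hC =>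
      Finset.card_insert_of_notMem fun h => hi (hC h)
    have hδd : ∀ (a : ℕ) (f : Finset ι → O),
        (∀ C ⊆ insert i B, pi ^ (a + C.card) ∣ Dl C f) →
        ∀ C ⊆ B, pi ^ (a + 1 + C.card) ∣ Dl C (fun e => f (insert i e) - f e) := by
      intro a f hf C hC
      have := hf (insert i C) (Finset.insert_subset_insert i hC)
      rw [hcard C hC] at this
      rw [hδ f C hC, add_assoc, add_comm 1]
      exact this
    have hf0 : ∀ C ⊆ B, pi ^ (a + C.card) ∣ Dl C f := fun C hC =>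
      hf C (hC.trans (Finset.subset_insert i B))
    have hg0 : ∀ C ⊆ B, pi ^ (b + C.card) ∣ Dl C g := fun C hC =>
      hg C (hC.trans (Finset.subset_insert i B))
    obtain ⟨d1, e1⟩ := ih (a + 1) b _ g (hδd a f hf) hg0
    obtain ⟨d2, e2⟩ := ih a (b + 1) f _ hf0 (hδd b g hg)
    obtain ⟨d3, -⟩ := ih (a + 1) (b + 1) _ _ (hδd a f hf) (hδd b g hg)
    have hE : Dl (insert i B) (fun e => f e * g e) =
        Dl B (fun e => f e * (g (insert i e) - g e)) +
          Dl B (fun e => (f (insert i e) - f e) * g e) +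
          Dl B (fun e => (f (insert i e) - f e) * (g (insert i e) - g e)) := by
      rw [← hδ _ B subset_rfl, ← Dl_add, ← Dl_add]
      exact Dl_congr fun e _ => by ring
    have n1 : a + 1 + b + B.card = a + b + (B.card + 1) := by omega
    have n2 : a + (b + 1) + B.card = a + b + (B.card + 1) := by omega
    have n3 : a + 1 + (b + 1) + B.card = a + b + (B.card + 1) + 1 := by omega
    rw [n1] at d1 e1
    rw [n2] at d2 e2
    rw [n3] at d3
    have d3' := (pow_dvd_pow pi (Nat.le_succ _)).trans d3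
    rw [hE, hcard B subset_rfl]
    refine ⟨(d2.add d1).add d3', ?_⟩
    rw [dig_add (d2.add d1) d3', dig_add d2 d1, dig_of_dvd d3, add_zero, e1, e2,
      Finset.sum_powerset_insert hi]
    congr 1
    · refine Finset.sum_congr rfl fun C hC => ?_
      have hC' := Finset.mem_powerset.1 hC
      rw [Finset.insert_sdiff_of_notMem _ fun h => hi (hC' h), hδ g _ Finset.sdiff_subset,
        hcard _ Finset.sdiff_subset, add_assoc b, add_comm 1]
    · refine Finset.sum_congr rfl fun C hC => ?_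
      have hC' := Finset.mem_powerset.1 hC
      rw [Finset.insert_sdiff_insert, Finset.sdiff_insert_of_notMem hi, hδ f _ hC', hcard _ hC',
        add_assoc a, add_comm 1]

theorem cube_prod_zp (b : ι → F3) (B : Finset ι) :
    pi ^ B.card ∣ ∏ i ∈ B, (zp (b i) - 1) ∧
      dig B.card (∏ i ∈ B, (zp (b i) - 1)) = ∏ i ∈ B, -b i := by
  induction B using Finset.induction_on with
  | empty => simp
  | insert i B hi ih =>
    have h1 : pi ^ 1 ∣ zp (b i) - 1 := by simpa using pi_dvd_zp_sub_one (b i)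
    rw [Finset.prod_insert hi, Finset.prod_insert hi, Finset.card_insert_of_notMem hi, add_comm]
    exact ⟨by rw [pow_add]; exact mul_dvd_mul h1 ih.1,
      by rw [dig_mul h1 ih.1, ih.2, dig_one_zp_sub_one]⟩

/-- graded functions on the cube with directions `U` -/
def Gr (U : Finset ι) (f : Finset ι → O) : Prop := ∀ B ⊆ U, pi ^ B.card ∣ Dl B f

/-- graded vector valued functions -/
def GrV (U : Finset ι) (f : Finset ι → V) : Prop := ∀ B ⊆ U, VD B.card (Dl B f)

variable {U : Finset ι}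

theorem grV_iff {f : Finset ι → V} : GrV U f ↔ ∀ a, Gr U fun e => f e a := by
  constructor
  · intro h a B hB
    rw [← Dl_apply]
    exact h B hB a
  · intro h B hB a
    rw [Dl_apply]
    exact h a B hB

theorem Gr.const (c : O) : Gr U fun _ => c := by
  intro B _
  rcases B.eq_empty_or_nonempty with rfl | hB
  · simp
  · rw [Dl_const hB]; exact dvd_zero _

theorem Gr.add {f g : Finset ι → O} (hf : Gr U f) (hg : Gr U g) : Gr U fun e => f e + g e := by
  intro B hB
  rw [Dl_add]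
  exact (hf B hB).add (hg B hB)

theorem Gr.star {f : Finset ι → O} (hf : Gr U f) : Gr U fun e => star (f e) := by
  intro B hB
  rw [cube_Dl_star, dvd_star_iff]
  exact hf B hB

theorem Gr.mul {f g : Finset ι → O} (hf : Gr U f) (hg : Gr U g) : Gr U fun e => f e * g e := by
  intro B hB
  have := (cube_leib B 0 0 f g (fun C hC => by simpa using hf C (hC.trans hB))
    (fun C hC => by simpa using hg C (hC.trans hB))).1
  simpa using this

theorem leibniz {f g : Finset ι → O} (hf : Gr U f) (hg : Gr U g) :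
    dig U.card (Dl U fun e => f e * g e) =
      ∑ C ∈ U.powerset, dig C.card (Dl C f) * dig (U \ C).card (Dl (U \ C) g) := by
  have := (cube_leib U 0 0 f g (fun C hC => by simpa using hf C hC)
    (fun C hC => by simpa using hg C hC)).2
  simpa using this

theorem Dl_zp (c : F3) (b : ι → F3) (B : Finset ι) :
    Dl B (fun e => zp (c + ∑ i ∈ e, b i)) = zp c * ∏ i ∈ B, (zp (b i) - 1) := by
  induction B using Finset.induction_on generalizing c with
  | empty => simp [Dl_empty]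
  | insert i B hi ih =>
    rw [Dl_insert hi, Finset.prod_insert hi, ih c,
      Dl_congr (g := fun e => zp (c + b i + ∑ j ∈ e, b j)) fun e he => by
        rw [Finset.sum_insert fun h => hi (he h), add_assoc], ih, zp_add]
    ring

theorem gr_zp (c : F3) (b : ι → F3) : Gr U fun e => zp (c + ∑ i ∈ e, b i) := by
  intro B _
  rw [Dl_zp]
  exact (cube_prod_zp b B).1.mul_left _

theorem dig_Dl_zp (c : F3) (b : ι → F3) (B : Finset ι) :
    dig B.card (Dl B fun e => zp (c + ∑ i ∈ e, b i)) = ∏ i ∈ B, -b i := by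
  rw [Dl_zp, dig_mul_left _ (cube_prod_zp b B).1, (cube_prod_zp b B).2, res_zp, one_mul]

theorem gr_hh {f g : Finset ι → V} (hf : GrV U f) (hg : GrV U g) :
    Gr U fun e => hh (f e) (g e) := by
  rw [grV_iff] at hf hg
  exact ((hf 0).mul (hg 1).star).add ((hf 1).mul (hg 0).star)

theorem leibniz_hh {f g : Finset ι → V} (hf : GrV U f) (hg : GrV U g) :
    dig U.card (Dl U fun e => hh (f e) (g e)) = ∑ C ∈ U.powerset,
      (-1) ^ (U \ C).card * hb (digV C.card (Dl C f)) (digV (U \ C).card (Dl (U \ C) g)) := by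
  have hf' := grV_iff.1 hf
  have hg' := grV_iff.1 hg
  unfold hh
  rw [Dl_add, dig_add (((hf' 0).mul (hg' 1).star) U subset_rfl)
    (((hf' 1).mul (hg' 0).star) U subset_rfl), leibniz (hf' 0) (hg' 1).star,
    leibniz (hf' 1) (hg' 0).star, ← Finset.sum_add_distrib]
  refine Finset.sum_congr rfl fun C _ => ?_
  rw [cube_Dl_star, cube_Dl_star, dig_star (hg' 1 _ Finset.sdiff_subset),
    dig_star (hg' 0 _ Finset.sdiff_subset)]
  simp only [hb, digV, Dl_apply]
  ring

variable {W P : Type} [Group W] {T : Tame W P}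

/-- the twist at the vertex `e` -/
def xe (x0 : W → F3) (β : ι → W → F3) (e : Finset ι) : W → F3 := fun g => x0 g + ∑ i ∈ e, β i g

/-- leading digits of the differences of a family -/
def Th (ψ : Finset ι → W → V) (B : Finset ι) (g : W) : Vb := digV B.card (Dl B fun e => ψ e g)

/-- the operator by which `g` acts on families -/
def uop (β : ι → W → F3) (g : W) (a : Finset ι → Vb) (B : Finset ι) : Vb :=
  ∑ C ∈ B.powerset, (∏ i ∈ C, -β i g) • a (B \ C)

/-- the cocycle relation of a governing family -/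
def URel (β : ι → W → F3) (U : Finset ι) (Θ : Finset ι → W → Vb) : Prop :=
  ∀ B ⊆ U, ∀ g h, Θ B (g * h) = Θ B g + uop β g (fun C => Θ C h) B

theorem cube_sum_zero {β : ι → W → F3} {g : W} {B : Finset ι} (h : ∀ i ∈ B, β i g = 0)
    (a : Finset ι → Vb) : ∑ C ∈ B.powerset, (∏ i ∈ C, -β i g) • a C = a ∅ := by
  rw [Finset.sum_eq_single ∅]
  · simp
  · intro C hC hne
    obtain ⟨i, hi⟩ := Finset.nonempty_iff_ne_empty.2 hne
    rw [Finset.prod_eq_zero hi (by rw [h i (Finset.mem_powerset.1 hC hi), neg_zero]), zero_smul]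
  · simp

theorem uop_of_zero {β : ι → W → F3} {g : W} {B : Finset ι} (h : ∀ i ∈ B, β i g = 0)
    (a : Finset ι → Vb) : uop β g a B = a B := by
  unfold uop
  rw [cube_sum_zero h fun C => a (B \ C), Finset.sdiff_empty]

theorem uop_single {β : ι → W → F3} {g : W} {B : Finset ι} {i : ι}
    (h : ∀ j ∈ B, j ≠ i → β j g = 0) (a : Finset ι → Vb) :
    uop β g a B = a B - if i ∈ B then β i g • a (B.erase i) else 0 := by
  split_ifs with hi
  · have h' : ∀ j ∈ B.erase i, β j g = 0 := fun j hj =>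
      h j (Finset.mem_of_mem_erase hj) (Finset.ne_of_mem_erase hj)
    have h1 : uop β g a B = ∑ C ∈ (insert i (B.erase i)).powerset,
        (∏ j ∈ C, -β j g) • a (B \ C) := by rw [Finset.insert_erase hi, uop]
    rw [h1, Finset.sum_powerset_insert (Finset.notMem_erase i B),
      cube_sum_zero h' fun C => a (B \ C), Finset.sdiff_empty]
    have h2 : ∑ C ∈ (B.erase i).powerset, (∏ j ∈ insert i C, -β j g) • a (B \ insert i C) =
        ∑ C ∈ (B.erase i).powerset, (∏ j ∈ C, -β j g) • ((-β i g) • a (B \ insert i C)) := by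
      refine Finset.sum_congr rfl fun C hC => ?_
      rw [Finset.prod_insert fun hm => Finset.notMem_erase i B (Finset.mem_powerset.1 hC hm),
        mul_comm, mul_smul]
    rw [h2, cube_sum_zero h' fun C => (-β i g) • a (B \ insert i C)]
    simp only [insert_empty_eq, Finset.sdiff_singleton_eq_erase, neg_smul, sub_eq_add_neg]
  · rw [sub_zero]
    exact uop_of_zero (fun j hj => h j hj fun hji => hi (hji ▸ hj)) a

theorem uop_sub (β : ι → W → F3) (g : W) (a a' : Finset ι → Vb) (B : Finset ι) :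
    uop β g (fun C => a C - a' C) B = uop β g a B - uop β g a' B := by
  simp only [uop, smul_sub, Finset.sum_sub_distrib]

theorem uop_congr {β : ι → W → F3} {g : W} {B : Finset ι} {a a' : Finset ι → Vb}
    (h : ∀ C ⊆ B, a C = a' C) : uop β g a B = uop β g a' B := by
  unfold uop
  exact Finset.sum_congr rfl fun C _ => by rw [h _ Finset.sdiff_subset]

/-- unitriangularity -/
theorem uop_eq_top {β : ι → W → F3} {g : W} {B : Finset ι} {a : Finset ι → Vb}
    (h : ∀ C ⊂ B, a C = 0) : uop β g a B = a B := by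
  unfold uop
  rw [Finset.sum_eq_single ∅]
  · simp
  · intro C hC hne
    rw [h _ (Finset.sdiff_ssubset (Finset.mem_powerset.1 hC)
      (Finset.nonempty_iff_ne_empty.2 hne)), smul_zero]
  · simp

theorem URel.sub {β : ι → W → F3} {Θ Θ' : Finset ι → W → Vb} (h : URel β U Θ) (h' : URel β U Θ') :
    URel β U fun B g => Θ B g - Θ' B g := by
  intro B hB g g'
  simp only
  rw [h B hB, h' B hB, uop_sub]
  abel

theorem xe_hom {x0 : W → F3} {β : ι → W → F3} (hx : T.IsHom x0) (hβ : ∀ i, T.IsHom (β i))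
    (e : Finset ι) : T.IsHom (xe x0 β e) := by
  exact Tame.hom_add hx (Tame.hom_sum e fun i _ => hβ i)

namespace Rep

variable {R : Rep T} {x0 : W → F3} {β : ι → W → F3}

theorem cube_Dl_rho (B : Finset ι) (f : Finset ι → V) (g : W) :
    Dl B (fun e => (R.ρ g).mulVec (f e)) = (R.ρ g).mulVec (Dl B f) :=
  Dl_map (R.ρ g).mulVecLin.toAddMonoidHom B f

theorem cube_grV_rho {f : Finset ι → V} (hf : GrV U f) (g : W) :
    GrV U fun e => (R.ρ g).mulVec (f e) := by
  intro B hB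
  rw [cube_Dl_rho]
  exact (hf B hB).mulVec _

theorem grV_act {f : Finset ι → V} (hf : GrV U f) (g : W) :
    GrV U fun e => R.act (xe x0 β e) g (f e) := by
  rw [grV_iff]
  intro a
  exact (gr_zp (x0 g) fun i => β i g).mul (grV_iff.1 (cube_grV_rho hf g) a)

theorem digV_Dl_act {f : Finset ι → V} (hf : GrV U f) (g : W) :
    digV U.card (Dl U fun e => R.act (xe x0 β e) g (f e)) =
      uop β g (fun C => digV C.card (Dl C f)) U := by
  funext a
  have h1 := leibniz (gr_zp (U := U) (x0 g) fun i => β i g)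
    (grV_iff.1 (cube_grV_rho (R := R) hf g) a)
  rw [digV, Dl_apply]
  refine h1.trans ?_
  rw [uop, Finset.sum_apply]
  refine Finset.sum_congr rfl fun C _ => ?_
  rw [dig_Dl_zp, Pi.smul_apply, smul_eq_mul, ← Dl_apply, cube_Dl_rho]
  congr 1
  have h2 := digV_act (R := R) (x := 0) (hf (U \ C) Finset.sdiff_subset) g
  simp only [act, Pi.zero_apply, zp_zero, one_smul] at h2
  exact congrFun h2 a

/-- the leading digit of the cocycle defect of a graded family -/
theorem defect {ψ : Finset ι → W → V} (hψ : ∀ g, GrV U fun e => ψ e g) (g h : W) :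
    VD U.card (Dl U fun e => ψ e g + R.act (xe x0 β e) g (ψ e h) - ψ e (g * h)) ∧
    digV U.card (Dl U fun e => ψ e g + R.act (xe x0 β e) g (ψ e h) - ψ e (g * h)) =
      Th ψ U g + uop β g (fun C => Th ψ C h) U - Th ψ U (g * h) := by
  have h1 := hψ g U subset_rfl
  have h2 := grV_act (R := R) (x0 := x0) (β := β) (hψ h) g U subset_rfl
  have h3 := hψ (g * h) U subset_rfl
  rw [Dl_sub, Dl_add]
  refine ⟨(h1.add h2).sub h3, ?_⟩
  rw [digV_sub (h1.add h2) h3, digV_add h1 h2, digV_Dl_act (hψ h)]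
  rfl

theorem urel_of_coc {j : ℕ} (hj : U.card < j) {ψ : Finset ι → W → V}
    (hψ : ∀ g, GrV U fun e => ψ e g) (hc : ∀ e ⊆ U, R.Coc (xe x0 β e) j (ψ e)) :
    URel β U (Th ψ) := by
  intro B hB g h
  have h1 := defect (R := R) (x0 := x0) (β := β) (U := B) (ψ := ψ)
    (fun g C hC => hψ g C (hC.trans hB)) g h
  have h2 : VD (B.card + 1) (Dl B fun e => ψ e g + R.act (xe x0 β e) g (ψ e h) - ψ e (g * h)) :=
    (Dl_VD fun e he => (hc e (he.trans hB)).2 g h).mono
      (Nat.succ_le_of_lt (lt_of_le_of_lt (Finset.card_le_card hB) hj))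
  have h3 := (digV_eq_zero_iff h1.1).2 h2
  rw [h1.2] at h3
  exact (sub_eq_zero.1 h3).symm

theorem sm_Th {j : ℕ} (hj : U.card < j) {ψ : Finset ι → W → V}
    (hc : ∀ e ⊆ U, R.Coc (xe x0 β e) j (ψ e)) : T.Sm (Th ψ U) := by
  obtain ⟨U', hU', h⟩ := Tame.exists_adm_le (T := T) U.powerset
    (fun e U' => ∀ g, ∀ u ∈ U', VD j (ψ e (g * u) - ψ e g))
    (fun e U1 U2 h1 h2 g u hu => h1 g u (h2 hu))
    fun e he => (hc e (Finset.mem_powerset.1 he)).1
  refine ⟨U', hU', fun g u hu => ?_⟩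
  unfold Th
  refine digV_congr ?_
  rw [← Dl_sub]
  exact (Dl_VD fun e he => h e (Finset.mem_powerset.2 he) g u hu).mono hj

end Rep

end

end Pool.Agent.Smith
end

-- merged part: Pool.Agent.Work.MP_60d5ce_nt.Sm.Fam
section
/-!
# Counting governing families  (task SM Fam)

`G1` is an additive subgroup in disguise, finite by `homU_finite`.  `G1_union`: the map
`h ↦ (h (τ v))_{v ∈ Z}` has kernel inside `G1 A`.  `ncard_le_pow`: induction on `s`, removing an
element of maximal rank.  `famS_ncard`: two families that agree on all proper subsets of `B`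
differ at `B` by a homomorphism (`uop_eq_top`, `URel.sub`), which lies in `G1`.
-/

namespace Pool.Agent.Smith

open scoped Classical

noncomputable section

/-- counting through fibres whose differences lie in a finite set -/
theorem fam_diff {α β γ : Type*} [AddCommGroup γ] (S : Set α) (φ : α → β) (Im : Set β)
    (hIm : Im.Finite) (hφ : ∀ a ∈ S, φ a ∈ Im) (ψ : α → γ) (G : Set γ) (hG : G.Finite)
    (hinj : ∀ a ∈ S, ∀ a' ∈ S, φ a = φ a' → ψ a = ψ a' → a = a')
    (hd : ∀ a ∈ S, ∀ a' ∈ S, φ a = φ a' → ψ a - ψ a' ∈ G) :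
    S.Finite ∧ S.ncard ≤ G.ncard * Im.ncard := by
  have hfib : ∀ a0 ∈ S, (S ∩ φ ⁻¹' {φ a0}).Finite ∧ (S ∩ φ ⁻¹' {φ a0}).ncard ≤ G.ncard := by
    intro a0 ha0
    have hm : ∀ a ∈ S ∩ φ ⁻¹' {φ a0}, ψ a - ψ a0 ∈ G := fun a ha => hd a ha.1 a0 ha0 ha.2
    have hi : Set.InjOn (fun a => ψ a - ψ a0) (S ∩ φ ⁻¹' {φ a0}) := by
      intro a ha a' ha' h
      have h1 : φ a = φ a0 := ha.2
      have h2 : φ a' = φ a0 := ha'.2
      exact hinj a ha.1 a' ha'.1 (h1.trans h2.symm) (sub_left_injective h)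
    exact ⟨Set.Finite.of_injOn hm hi hG, Set.ncard_le_ncard_of_injOn _ hm hi hG⟩
  have himg : φ '' S ⊆ Im := by
    rintro _ ⟨a, ha, rfl⟩
    exact hφ a ha
  have hS : S.Finite := by
    refine Set.Finite.of_finite_fibers φ (hIm.subset himg) ?_
    rintro _ ⟨a, ha, rfl⟩
    exact (hfib a ha).1
  refine ⟨hS, ?_⟩
  have h1 := Finset.card_le_mul_card_image (f := φ) hS.toFinset G.ncard (by
    intro y hy
    obtain ⟨a, ha, rfl⟩ := Finset.mem_image.1 hy
    have ha' : a ∈ S := hS.mem_toFinset.1 ha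
    refine le_trans (le_of_eq ?_) (hfib a ha').2
    rw [← Set.ncard_coe_finset]
    congr 1
    ext x
    simp)
  rw [Set.ncard_eq_toFinset_card S hS]
  refine h1.trans (Nat.mul_le_mul_left _ ?_)
  rw [← Set.ncard_coe_finset]
  refine Set.ncard_le_ncard ?_ hIm
  intro y hy
  obtain ⟨a, ha, rfl⟩ := Finset.mem_image.1 (Finset.mem_coe.1 hy)
  exact hφ a (hS.mem_toFinset.1 ha)

theorem fam_ncard_univ {P : Type} (Z : Finset P) :
    (Set.univ : Set (Z → Vb)).ncard = 9 ^ Z.card := by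
  rw [Set.ncard_univ, Nat.card_eq_fintype_card, Fintype.card_fun]
  simp

/-- triangular counting -/
theorem ncard_le_pow {κ A : Type*} [AddCommGroup A] (s : Finset κ) (rk : κ → ℕ) (G : Set A)
    (hG : G.Finite) (𝒯 : Set (κ → A)) (h0 : ∀ f ∈ 𝒯, ∀ b ∉ s, f b = 0)
    (h : ∀ f ∈ 𝒯, ∀ f' ∈ 𝒯, ∀ b ∈ s, (∀ c ∈ s, rk c < rk b → f c = f' c) → f b - f' b ∈ G) :
    𝒯.Finite ∧ 𝒯.ncard ≤ G.ncard ^ s.card := by
  induction s using Finset.induction_on_max_value rk generalizing 𝒯 with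
  | empty =>
    have hsub : 𝒯 ⊆ {0} := fun f hf => funext fun b => h0 f hf b (Finset.notMem_empty b)
    refine ⟨(Set.finite_singleton _).subset hsub, ?_⟩
    simpa using Set.ncard_le_ncard hsub (Set.finite_singleton _)
  | insert b s hb hmax ih =>
    obtain ⟨hF, hN⟩ := ih ((fun f : κ → A => Function.update f b 0) '' 𝒯) (by
      rintro _ ⟨f, hf, rfl⟩ c hc
      by_cases hcb : c = b
      · subst hcb
        simp
      · simp only [Function.update_of_ne hcb]
        exact h0 f hf c (by simp [hcb, hc])) (by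
      rintro _ ⟨f, hf, rfl⟩ _ ⟨f', hf', rfl⟩ c hc hag
      have hcb : c ≠ b := fun e => hb (e ▸ hc)
      simp only [Function.update_of_ne hcb]
      refine h f hf f' hf' c (Finset.mem_insert_of_mem hc) fun d hd hdc => ?_
      rcases Finset.mem_insert.1 hd with rfl | hd
      · exact absurd (hmax c hc) (not_le.2 hdc)
      · have hdb : d ≠ b := fun e => hb (e ▸ hd)
        simpa only [Function.update_of_ne hdb] using hag d hd hdc)
    have hne : ∀ f f' : κ → A, Function.update f b 0 = Function.update f' b 0 →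
        ∀ c, c ≠ b → f c = f' c := by
      intro f f' e c hcb
      simpa only [Function.update_of_ne hcb] using congrFun e c
    obtain ⟨h1, h2⟩ := fam_diff 𝒯 (fun f : κ → A => Function.update f b 0) _ hF
      (fun f hf => Set.mem_image_of_mem _ hf) (fun f => f b) G hG
      (by
        intro f _ f' _ e1 e2
        funext c
        by_cases hcb : c = b
        · subst hcb
          exact e2
        · exact hne f f' e1 c hcb)
      (by
        intro f hf f' hf' e
        refine h f hf f' hf' b (Finset.mem_insert_self _ _) fun c _ hc => ?_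
        exact hne f f' e c fun e' => by simp [e'] at hc)
    refine ⟨h1, h2.trans ?_⟩
    rw [Finset.card_insert_of_notMem hb, pow_succ']
    exact Nat.mul_le_mul_left _ hN

variable {W P : Type} [Group W] {T : Tame W P}

namespace Rep

variable (R : Rep T)

/-- homomorphisms unramified outside `A` with the level one condition at the primes of `Ot` -/
def G1 (A Ot : Finset P) (xs : P → F3) : Set (W → Vb) :=
  {h | h ∈ T.HomU A ∧ ∀ j ∈ Ot, R.Lc (xs j) j h}

theorem fam_lc_sub {s : F3} {v : P} {w w' : W → Vb} (h : R.Lc s v w) (h' : R.Lc s v w') :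
    R.Lc s v (w - w') := by
  unfold Lc at *
  simp only [Pi.sub_apply]
  rw [h, h', Matrix.mulVec_sub, smul_sub]
  abel

theorem G1_finite (A Ot : Finset P) (xs : P → F3) : (R.G1 A Ot xs).Finite :=
  (T.homU_finite A).subset fun _ h => h.1

theorem G1_zero (A Ot : Finset P) (xs : P → F3) : 0 ∈ R.G1 A Ot xs := by
  refine ⟨⟨T.hom_zero, fun _ _ _ => rfl⟩, fun j _ => ?_⟩
  simp [Lc]

theorem G1_union (A Z Ot : Finset P) (xs : P → F3) :
    (R.G1 (A ∪ Z) Ot xs).ncard ≤ (R.G1 A Ot xs).ncard * 9 ^ Z.card := by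
  rw [← fam_ncard_univ Z]
  refine (fam_diff (R.G1 (A ∪ Z) Ot xs) (fun h (v : Z) => h (T.τ v)) Set.univ Set.finite_univ
    (fun _ _ => Set.mem_univ _) id _ (R.G1_finite A Ot xs) (fun _ _ _ _ _ e => e) ?_).2
  intro h hh h' hh' e
  refine ⟨⟨T.hom_sub hh.1.1 hh'.1.1, fun v hv hvi => ?_⟩,
    fun j hj => R.fam_lc_sub (hh.2 j hj) (hh'.2 j hj)⟩
  by_cases hz : v ∈ Z
  · exact sub_eq_zero.2 (congrFun e ⟨v, hz⟩)
  · have hv' : v ∉ A ∪ Z := by simp [hv, hz]
    exact sub_eq_zero.2 ((hh.1.2 v hv' hvi).trans (hh'.1.2 v hv' hvi).symm)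

/-- dropping conditions: evaluate at `σ v`, `v ∈ Z` -/
theorem G1_drop (A Z Ot : Finset P) (xs : P → F3) (hZ : ∀ v ∈ Z, v ∉ A ∧ v ≠ T.inf) :
    (R.G1 A Ot xs).ncard ≤ (R.G1 (A ∪ Z) (Ot ∪ Z) xs).ncard * 9 ^ Z.card := by
  rw [← fam_ncard_univ Z]
  refine (fam_diff (R.G1 A Ot xs) (fun h (v : Z) => h (T.σ v)) Set.univ Set.finite_univ
    (fun _ _ => Set.mem_univ _) id _ (R.G1_finite (A ∪ Z) (Ot ∪ Z) xs)
    (fun _ _ _ _ _ e => e) ?_).2
  intro h hh h' hh' e
  have hτ : ∀ v ∉ A, v ≠ T.inf → (h - h') (T.τ v) = 0 := fun v hv hvi =>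
    sub_eq_zero.2 ((hh.1.2 v hv hvi).trans (hh'.1.2 v hv hvi).symm)
  refine ⟨⟨T.hom_sub hh.1.1 hh'.1.1, fun v hv hvi =>
    hτ v (fun ha => hv (Finset.mem_union_left _ ha)) hvi⟩, fun j hj => ?_⟩
  rcases Finset.mem_union.1 hj with hj | hj
  · exact R.fam_lc_sub (hh.2 j hj) (hh'.2 j hj)
  · have h1 : (h - h') (T.σ j) = 0 := sub_eq_zero.2 (congrFun e ⟨j, hj⟩)
    have h2 := hτ j (hZ j hj).1 (hZ j hj).2
    change (h - h') (T.σ j) = xs j • (h - h') (T.τ j) - (R.M (T.σ j)).mulVec ((h - h') (T.τ j))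
    rw [h1, h2]
    simp

variable {ι : Type} [DecidableEq ι]

/-- governing families -/
def FamS (β : ι → W → F3) (U : Finset ι) (A Ot : Finset P) (xs : P → F3) :
    Set (Finset ι → W → Vb) :=
  {Θ | URel β U Θ ∧ (∀ B ⊆ U, T.Sm (Θ B) ∧ (∀ v ∉ A, Θ B (T.τ v) = 0) ∧
    ∀ j ∈ Ot, R.Lc (xs j) j (Θ B)) ∧ ∀ B, ¬ B ⊆ U → Θ B = 0}

theorem famS_ncard (β : ι → W → F3) (U : Finset ι) (A Ot : Finset P) (xs : P → F3) :
    (R.FamS β U A Ot xs).Finite ∧
      (R.FamS β U A Ot xs).ncard ≤ (R.G1 A Ot xs).ncard ^ 2 ^ U.card := by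
  rw [← Finset.card_powerset]
  refine ncard_le_pow U.powerset Finset.card _ (R.G1_finite A Ot xs) _
    (fun Θ hΘ B hB => hΘ.2.2 B fun h => hB (Finset.mem_powerset.2 h)) ?_
  intro Θ hΘ Θ' hΘ' B hB hag
  have hBU : B ⊆ U := Finset.mem_powerset.1 hB
  obtain ⟨s1, u1, l1⟩ := hΘ.2.1 B hBU
  obtain ⟨s2, u2, l2⟩ := hΘ'.2.1 B hBU
  refine ⟨⟨⟨T.sm_comp₂ s1 s2 fun a b => a - b, fun g g' => ?_⟩, fun v hv _ => ?_⟩,
    fun j hj => R.fam_lc_sub (l1 j hj) (l2 j hj)⟩
  · have h1 := (URel.sub hΘ.1 hΘ'.1) B hBU g g'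
    rw [uop_eq_top] at h1
    · exact h1
    · intro C hC
      have := hag C (Finset.mem_powerset.2 (hC.subset.trans hBU)) (Finset.card_lt_card hC)
      simp [this]
  · exact sub_eq_zero.2 ((u1 v hv).trans (u2 v hv).symm)

end Rep

end

end Pool.Agent.Smith
end

-- merged part: Pool.Agent.Work.MP_60d5ce_nt.Sm.Comm
section
/-!
# Independence of the top symbols and the Chebotarev applications  (task SM Comm)

* `URel.conj`: expand `Θ (g * s * g⁻¹ * g) = Θ (g * s)`.
* `exists_comm`: iterated commutators `[t x i, -]` over all `i` (induction on a finite set `I` of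
  directions: an element `z` with all `β x' j z = 0`, and `Φ x' B z = (-1) ^ I.card • na` if
  `B = I` and `x'` agrees with `x` on `I` and at `a`, zero otherwise; use `uop_single`).
* `cheb_zeros`: `U = {g | deg g = 0, χ a g = 0 (a ∈ A'), Φ x B g = 0}` is a normal subgroup, admissible by
  `adm_mono`; `g ↦ (χ a g, Φ x B g)` induces an injection on `G0 / U` (`uop_eq_top`, induction on
  `B`), which bounds the index.  Use the family
  `z (c', t) = (∏ τ a ^ c' a) * ∏ z x ^ t x` (any order, for instance `List.prod` over `toList`),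
  `J = (A' → F3) × (X → F3)`: for each `g` exactly one `c'` puts `g * ∏ τ a ^ c' a` in
  `E0`, and then at most `2 ^ (-s) * 3 ^ card X` values of `t` give many zeros (`count_zeros`).
* `count_zeros`: `∑ t, 2 ^ (number of zeros) = 4 ^ card X` and `(4 / 3) ^ 2 ≤ 2`.
* `pr_lower`: apply `cheb` to the complement of `E0` and use `pnt`.
-/

namespace Pool.Agent.Smith

open scoped Classical

noncomputable section

theorem count_zeros {X : Type} [Fintype X] (u : F3) (hu : u ≠ 0) (c : X → F3) (s : ℕ) :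
    (({t : X → F3 | Fintype.card X + 2 * s ≤ 2 * {x | u * t x + c x = 0}.ncard}.ncard : ℕ) : ℝ) ≤
      (2 : ℝ)⁻¹ ^ s * 3 ^ Fintype.card X := by
  have h4 : ∀ u c : F3, u ≠ 0 → ∑ a : F3, (if u * a + c = 0 then 2 else 1 : ℕ) = 4 := by decide
  have hsum : ∑ t : X → F3, (2 : ℝ) ^ {x | u * t x + c x = 0}.ncard = 4 ^ Fintype.card X := by
    have e1 : ∀ t : X → F3, (2 : ℝ) ^ {x | u * t x + c x = 0}.ncard
        = ∏ x, if u * t x + c x = 0 then 2 else 1 := fun t => by
      rw [Finset.prod_ite, Finset.prod_const_one, mul_one, Finset.prod_const,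
        ← Set.ncard_coe_finset, Finset.coe_filter_univ]
    simp only [e1]
    rw [← Fintype.piFinset_univ, ← Finset.prod_univ_sum (fun _ => Finset.univ)
      fun x a => if u * a + c x = 0 then (2 : ℝ) else 1, ← Finset.card_univ, ← Finset.prod_const]
    exact Finset.prod_congr rfl fun x _ => by exact_mod_cast h4 u (c x) hu
  have hr : √2 ^ 2 = (2 : ℝ) := Real.sq_sqrt zero_le_two
  have hr1 : 4 ≤ 3 * √2 := by
    by_contra h
    nlinarith [Real.sqrt_nonneg 2]
  have hr0 : 0 < √2 ^ Fintype.card X * 2 ^ s := by positivity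
  set S := {t : X → F3 | Fintype.card X + 2 * s ≤ 2 * {x | u * t x + c x = 0}.ncard}
  have h1 : (S.ncard : ℝ) * (√2 ^ Fintype.card X * 2 ^ s) ≤ 4 ^ Fintype.card X := by
    rw [← hsum, Set.ncard_eq_toFinset_card', ← nsmul_eq_mul, ← Finset.sum_const]
    refine (Finset.sum_le_sum fun t ht => ?_).trans
      (Finset.sum_le_sum_of_subset_of_nonneg (Finset.subset_univ _) fun _ _ _ => by positivity)
    have h2 : √2 ^ (Fintype.card X + 2 * s) ≤ √2 ^ (2 * {x | u * t x + c x = 0}.ncard) :=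
      pow_le_pow_right₀ (by nlinarith [Real.sqrt_nonneg 2]) (Set.mem_toFinset (s := S).1 ht)
    rwa [pow_add, pow_mul, pow_mul, hr] at h2
  refine le_of_mul_le_mul_right (h1.trans ((pow_le_pow_left₀ (by norm_num) hr1 _).trans_eq ?_)) hr0
  rw [mul_pow, inv_pow]
  field_simp

variable {W P : Type} [Group W] {T : Tame W P} {ι : Type} [DecidableEq ι]

theorem URel.conj {β : ι → W → F3} (hβ : ∀ i, T.IsHom (β i)) {U : Finset ι}
    {Θ : Finset ι → W → Vb} (h : URel β U Θ) {s : W} (hs : ∀ i ∈ U, β i s = 0) (g : W) :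
    ∀ B ⊆ U, Θ B (g * s * g⁻¹) = uop β g (fun C => Θ C s) B := by
  intro B hB
  have h1 := h B hB (g * s * g⁻¹) g
  rw [inv_mul_cancel_right, h B hB g s,
    uop_of_zero fun i hi => (Tame.hom_conj (hβ i) s g).trans (hs i (hB hi)), add_comm] at h1
  exact (add_right_cancel h1).symm

theorem exists_comm [Fintype ι] [Nonempty ι] {X : Type} (β : X → ι → W → F3)
    (hβ : ∀ x i, T.IsHom (β x i)) (Φ : X → Finset ι → W → Vb)
    (hΦ : ∀ x, URel (β x) Finset.univ (Φ x)) {κ : Type} (c : X → ι → κ) (ca : X → κ)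
    (hinj : ∀ x x', c x = c x' → ca x = ca x' → x = x') (t : X → ι → W) (ta : X → W) (na : Vb)
    (ht : ∀ x x' i j, β x' j (t x i) = if j = i ∧ c x' i = c x i then 1 else 0)
    (hta : ∀ x x' j, β x' j (ta x) = 0)
    (hΦa : ∀ x x' B, Φ x' B (ta x) = if B = ∅ ∧ ca x' = ca x then na else 0) :
    ∃ z : X → W, ∀ x, T.deg (z x) = 0 ∧ (∀ h : W → F3, T.IsHom h → h (z x) = 0) ∧
      ∀ x' B, Φ x' B (z x) =
        if B = Finset.univ ∧ x' = x then (-1 : F3) ^ Fintype.card ι • na else 0 := by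
  have key : ∀ x (I : Finset ι), ∃ z : W, (∀ x' j, β x' j z = 0) ∧
      (I.Nonempty → T.deg z = 0 ∧ ∀ h : W → F3, T.IsHom h → h z = 0) ∧
      ∀ x' B, Φ x' B z = if B = I ∧ (∀ i ∈ I, c x' i = c x i) ∧ ca x' = ca x
        then (-1 : F3) ^ I.card • na else 0 := by
    intro x I
    induction I using Finset.induction_on with
    | empty => exact ⟨ta x, hta x, fun h => absurd h Finset.not_nonempty_empty, by simpa using hΦa x⟩
    | insert i I hi ih =>
      obtain ⟨z, h1, -, h3⟩ := ih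
      have hh : ∀ h : W → F3, T.IsHom h → h (t x i * z * (t x i)⁻¹ * z⁻¹) = 0 := fun h hh => by
        rw [hh.2, Tame.hom_conj hh, Tame.hom_inv hh, add_neg_cancel]
      refine ⟨t x i * z * (t x i)⁻¹ * z⁻¹, fun x' j => hh _ (hβ x' j), fun _ => ⟨?_, hh⟩,
        fun x' B => ?_⟩
      · simp only [T.deg_mul, T.deg_inv]
        omega
      · have h4 := hΦ x' B B.subset_univ (t x i * z * (t x i)⁻¹ * z⁻¹) z
        rw [inv_mul_cancel_right, (hΦ x').conj (hβ x') (fun j _ => h1 x' j) _ B B.subset_univ,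
          uop_of_zero fun j _ => hh _ (hβ x' j),
          uop_single (i := i) fun j _ hj => by rw [ht, if_neg fun h => hj h.1], sub_eq_add_neg,
          add_comm] at h4
        rw [← add_right_cancel h4, ht, h3, Finset.card_insert_of_notMem hi, pow_succ]
        have h5 : B = insert i I ↔ i ∈ B ∧ B.erase i = I :=
          ⟨fun h => by rw [h]; exact ⟨Finset.mem_insert_self _ _, Finset.erase_insert hi⟩,
            fun h => by rw [← h.2, Finset.insert_erase h.1]⟩
        simp only [h5, Finset.forall_mem_insert]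
        by_cases a1 : i ∈ B <;> by_cases a2 : c x' i = c x i <;> simp [a1, a2, neg_ite]
  choose z h1 h2 h3 using fun x => key x Finset.univ
  refine ⟨z, fun x => ⟨(h2 x Finset.univ_nonempty).1, (h2 x Finset.univ_nonempty).2, fun x' B => ?_⟩⟩
  rw [h3, Finset.card_univ]
  refine if_congr (and_congr_right fun _ => ⟨fun h => hinj _ _ ?_ h.2, ?_⟩) rfl rfl
  · exact funext fun i => h.1 i (Finset.mem_univ i)
  · rintro rfl
    exact ⟨fun _ _ => rfl, rfl⟩

namespace Tame

variable (T)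

/-- primes of degree `e` outside `A` with prescribed residue symbols at the primes of `A'` -/
def Pr (A A' : Finset P) (c : P → F3) (e : ℕ) : Set P :=
  {v | T.dg v = e ∧ v ∉ A ∧ ∀ a ∈ A', T.χ a (T.σ v) = c a}

/-- the error terms are small compared with the main term -/
def Small (η : ℝ) (N c e : ℕ) : Prop :=
  (N : ℝ) * (T.err N c e + 2 * (T.q : ℝ) ^ ((e + 1) / 2) + c) ≤ η * (T.q : ℝ) ^ e

variable {T}

theorem Small.mono {η η' : ℝ} {N N' c c' e : ℕ} (h : T.Small η N c e) (h1 : η ≤ η') (h2 : N' ≤ N)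
    (h3 : c' ≤ c) : T.Small η' N' c' e := by
  unfold Small Pre.err at *
  refine le_trans ?_ (h.trans (mul_le_mul_of_nonneg_right h1 (by positivity)))
  gcongr

theorem pr_finite (A A' : Finset P) (c : P → F3) (e : ℕ) : (T.Pr A A' c e).Finite :=
  (T.dg_fin e).subset fun _ h => h.1

theorem comm_exists_chi {S : Finset P} (hS : T.inf ∉ S) (c : P → F3) :
    ∃ y : W, T.deg y = 0 ∧ ∀ a, T.χ a y = if a ∈ S then c a else 0 := by
  induction S using Finset.induction_on with
  | empty => exact ⟨1, T.deg_one, fun a => by simpa using hom_one (T.χ_hom a)⟩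
  | insert v S hv ih =>
    rw [Finset.mem_insert, not_or] at hS
    obtain ⟨y, h1, h2⟩ := ih hS.2
    refine ⟨y * T.τ v ^ (c v).val, T.G0.mul_mem h1 (T.G0.pow_mem (T.deg_τ v) _), fun a => ?_⟩
    rw [(T.χ_hom a).2, hom_pow (T.χ_hom a), h2]
    by_cases h : a = v
    · subst h
      simp [hv, T.χ_self a (Ne.symm hS.1)]
    · simp [h, T.χ_ne a v (Ne.symm h) (Ne.symm hS.1)]

theorem comm_exists_top [Fintype ι] {X : Type} {Φ : X → Finset ι → W → Vb}
    (hadd : ∀ g, (∀ h : W → F3, T.IsHom h → h g = 0) →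
      ∀ x B h, Φ x B (g * h) = Φ x B g + Φ x B h)
    (hone : ∀ x B, Φ x B 1 = 0) {n : Vb} {z : X → W}
    (hz : ∀ x, T.deg (z x) = 0 ∧ (∀ h : W → F3, T.IsHom h → h (z x) = 0) ∧
      ∀ x' B, Φ x' B (z x) = if B = Finset.univ ∧ x' = x then n else 0)
    (t : X → F3) (S : Finset X) :
    ∃ w : W, T.deg w = 0 ∧ (∀ h : W → F3, T.IsHom h → h w = 0) ∧
      ∀ x B, Φ x B w = if B = Finset.univ ∧ x ∈ S then t x • n else 0 := by
  have hpow : ∀ x x' B (m : ℕ), Φ x' B (z x ^ m) = m • Φ x' B (z x) := fun x x' B m => by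
    induction m with
    | zero => rw [pow_zero, hone, zero_smul]
    | succ m ih => rw [pow_succ', hadd _ (hz x).2.1, ih, succ_nsmul']
  induction S using Finset.induction_on with
  | empty => exact ⟨1, T.deg_one, fun h hh => hom_one hh, fun x B => by simpa using hone x B⟩
  | insert v S hv ih =>
    obtain ⟨w, h1, h2, h3⟩ := ih
    refine ⟨w * z v ^ (t v).val, T.G0.mul_mem h1 (T.G0.pow_mem (hz v).1 _), fun h hh => ?_,
      fun x B => ?_⟩
    · rw [hh.2, hom_pow hh, h2 h hh, (hz v).2.1 h hh, smul_zero, add_zero]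
    · rw [hadd _ h2, hpow, h3, (hz v).2.2, ← Nat.cast_smul_eq_nsmul F3, ZMod.natCast_zmod_val]
      by_cases h : x = v
      · subst h
        simp [hv]
      · simp [h]

theorem cheb_zeros [Fintype ι] {X : Type} [Fintype X] {A A' : Finset P} (hA : T.inf ∈ A)
    (hA' : A' ⊆ A.erase T.inf) (c : P → F3) (p0 : ι → P) (p1 : X → ι → P)
    (h0 : ∀ i, p0 i ∈ A') (h1 : ∀ x i, p1 x i ∈ A' ∧ c (p1 x i) = c (p0 i))
    (Φ : X → Finset ι → W → Vb)
    (hΦ : ∀ x, URel (fun i g => T.χ (p1 x i) g - T.χ (p0 i) g) Finset.univ (Φ x))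
    (hsm : ∀ x B, T.Sm (Φ x B)) (hunr : ∀ x B, ∀ v ∉ A, Φ x B (T.τ v) = 0) {n nb : Vb}
    (hn : hb n nb ≠ 0) (z : X → W)
    (hz : ∀ x, T.deg (z x) = 0 ∧ (∀ h : W → F3, T.IsHom h → h (z x) = 0) ∧
      ∀ x' B, Φ x' B (z x) = if B = Finset.univ ∧ x' = x then n else 0)
    (C : X → F3) (s e : ℕ) (he : 0 < e) :
    (e : ℝ) * ({v | v ∈ T.Pr A A' c e ∧ (∀ x B, B ≠ Finset.univ → Φ x B (T.σ v) = 0) ∧
        Fintype.card X + 2 * s ≤ 2 * {x | 2 * hb (Φ x Finset.univ (T.σ v)) nb + C x = 0}.ncard}.ncard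
          : ℝ) ≤
      (2 : ℝ)⁻¹ ^ s * (3 : ℝ)⁻¹ ^ A'.card * ((T.q : ℝ) ^ e +
        T.err (3 ^ A'.card * 9 ^ (2 ^ Fintype.card ι * Fintype.card X)) (∑ v ∈ A, T.dg v) e) := by
  have hβ : ∀ x i, T.IsHom fun g => T.χ (p1 x i) g - T.χ (p0 i) g := fun x i =>
    hom_sub (T.χ_hom _) (T.χ_hom _)
  have hadd : ∀ {d : P → F3} {g : W}, (∀ x i, d (p1 x i) = d (p0 i)) → (∀ a ∈ A', T.χ a g = d a) →
      ∀ x B h, Φ x B (g * h) = Φ x B g + Φ x B h := fun hd hg x B h => by
    rw [hΦ x B B.subset_univ, uop_of_zero fun i _ => by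
      rw [hg _ (h1 x i).1, hg _ (h0 i), hd, sub_self]]
  have hadd0 : ∀ {g : W}, (∀ a ∈ A', T.χ a g = 0) →
      ∀ x B h, Φ x B (g * h) = Φ x B g + Φ x B h := hadd (d := fun _ => 0) fun _ _ => rfl
  have hone : ∀ x B, Φ x B 1 = 0 := fun x B => by
    simpa using hadd0 (fun a _ => hom_one (T.χ_hom a)) x B 1
  let U : Subgroup W :=
    { carrier := {g | T.deg g = 0 ∧ (∀ a ∈ A', T.χ a g = 0) ∧ ∀ x B, Φ x B g = 0}
      one_mem' := ⟨T.deg_one, fun a _ => hom_one (T.χ_hom a), hone⟩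
      mul_mem' := fun {g h} hg hh => ⟨by rw [T.deg_mul, hg.1, hh.1, add_zero],
        fun a ha => by rw [(T.χ_hom a).2, hg.2.1 a ha, hh.2.1 a ha, add_zero],
        fun x B => by rw [hadd0 hg.2.1, hg.2.2, hh.2.2, add_zero]⟩
      inv_mem' := fun {g} hg => ⟨by rw [T.deg_inv, hg.1, neg_zero],
        fun a ha => by rw [hom_inv (T.χ_hom a), hg.2.1 a ha, neg_zero],
        fun x B => by simpa [hone, hg.2.2] using (hadd0 hg.2.1 x B g⁻¹).symm⟩ }
  have hUn : U.Normal := ⟨fun u hu g => ⟨by rw [T.deg_mul, T.deg_mul, T.deg_inv, hu.1]; omega,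
    fun a ha => (hom_conj (T.χ_hom a) u g).trans (hu.2.1 a ha), fun x B => by
      rw [(hΦ x).conj (hβ x) (fun i _ => by rw [hu.2.1 _ (h1 x i).1, hu.2.1 _ (h0 i), sub_self]) g B
        B.subset_univ, uop_eq_top fun C _ => hu.2.2 x C, hu.2.2]⟩⟩
  let F : W → (A' → F3) × (Finset ι × X → Vb) := fun g =>
    (fun a => T.χ a g, fun p => Φ p.2 p.1 g)
  have hU : T.Adm U := by
    obtain ⟨U0, hU0, hF⟩ : T.Sm F := sm_comp₂ (sm_pi fun a : A' => (T.χ_hom a).1)
      (sm_pi fun p : Finset ι × X => hsm p.2 p.1) Prod.mk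
    refine T.adm_mono U0 U hU0 (fun u hu => ?_) hUn fun u hu => hu.1
    have := hF 1 u hu
    rw [one_mul] at this
    exact ⟨T.adm_le U0 hU0 hu, fun a ha =>
      (congrFun (congrArg Prod.fst this) ⟨a, ha⟩).trans (hom_one (T.χ_hom a)),
      fun x B => (congrFun (congrArg Prod.snd this) (B, x)).trans (hone x B)⟩
  have hidx : U.relIndex T.G0 ≤ 3 ^ A'.card * 9 ^ (2 ^ Fintype.card ι * Fintype.card X) := by
    refine (Nat.card_le_card_of_injective (fun k : T.G0 ⧸ U.subgroupOf T.G0 => F k.out.1)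
      fun k k' hk => ?_).trans_eq (by simp [Nat.card_eq_fintype_card])
    rw [← k.out_eq, ← k'.out_eq]
    refine Quotient.sound (QuotientGroup.leftRel_apply.2 ⟨(k.out⁻¹ * k'.out).2, fun a ha => ?_,
      fun x B => ?_⟩)
    · have : T.χ a k.out.1 = T.χ a k'.out.1 := congrFun (congrArg Prod.fst hk) ⟨a, ha⟩
      change T.χ a (k.out.1⁻¹ * k'.out.1) = 0
      rw [(T.χ_hom a).2, hom_inv (T.χ_hom a), this, neg_add_cancel]
    · change Φ x B (k.out.1⁻¹ * k'.out.1) = 0
      induction B using Finset.strongInduction with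
      | H B ih =>
        have h2 : Φ x B k.out.1 = Φ x B k'.out.1 := congrFun (congrArg Prod.snd hk) (B, x)
        have h3 := hΦ x B B.subset_univ k.out.1 (k.out.1⁻¹ * k'.out.1)
        rw [mul_inv_cancel_left, uop_eq_top ih, h2] at h3
        exact left_eq_add.1 h3
  have hinf : T.inf ∉ A' := fun h => Finset.notMem_erase _ _ (hA' h)
  choose y hy hy' using fun c' : A' → F3 =>
    comm_exists_chi (T := T) hinf fun a => if h : a ∈ A' then c' ⟨a, h⟩ else 0
  choose w hw hw' hw'' using fun t : X → F3 => comm_exists_top (T := T)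
    (fun g hg => hadd0 fun a _ => hg _ (T.χ_hom a)) hone hz t Finset.univ
  have hc := T.cheb U hU _ hidx A hA
    (fun v hv => ⟨T.deg_τ v, fun a ha => T.χ_ne a v
      (fun h => hv (h ▸ Finset.mem_of_mem_erase (hA' ha))) fun h => hv (h ▸ hA),
      fun x B => hunr x B v hv⟩)
    {g | (∀ a ∈ A', T.χ a g = c a) ∧ (∀ x B, B ≠ Finset.univ → Φ x B g = 0) ∧
      Fintype.card X + 2 * s ≤ 2 * {x | 2 * hb (Φ x Finset.univ g) nb + C x = 0}.ncard}
    (fun g hg u hu => ?_) (fun g hg h => ?_) e he ((A' → F3) × (X → F3)) (fun j => y j.1 * w j.2)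
    (fun j => by rw [T.deg_mul, hy, hw, add_zero]) ((2 : ℝ)⁻¹ ^ s * (3 : ℝ)⁻¹ ^ A'.card)
    fun g _ => ?_
  · refine le_of_eq_of_le ?_ hc
    simp only [Pr, Set.mem_ofPred_eq, and_assoc]
  · have h2 : ∀ x B, Φ x B (g * u) = Φ x B g := fun x B => by
      rw [hadd (fun x i => (h1 x i).2) hg.1, hu.2.2, add_zero]
    refine ⟨fun a ha => by rw [(T.χ_hom a).2, hg.1 a ha, hu.2.1 a ha, add_zero], ?_⟩
    simp only [h2]
    exact hg.2
  · have h2 : ∀ x B, Φ x B (h * g * h⁻¹) = Φ x B g := fun x B => by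
      rw [(hΦ x).conj (hβ x) (fun i _ => by
        rw [hg.1 _ (h1 x i).1, hg.1 _ (h0 i), (h1 x i).2, sub_self]) h B B.subset_univ]
      exact uop_eq_top fun C hC => hg.2.1 x C (hC.trans_le (Finset.subset_univ B)).ne
    refine ⟨fun a ha => (hom_conj (T.χ_hom a) g h).trans (hg.1 a ha), ?_⟩
    simp only [h2]
    exact hg.2
  · let c0 : A' → F3 := fun a => c a - T.χ a g
    have hg0 : ∀ a ∈ A', T.χ a (g * y c0) = c a := fun a ha => by
      rw [(T.χ_hom a).2, hy', if_pos ha, dif_pos ha, add_sub_cancel]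
    have hu : 2 * hb n nb ≠ 0 := mul_ne_zero (by decide) hn
    refine le_trans ?_ ((count_zeros _ hu
      (fun x => 2 * hb (Φ x Finset.univ (g * y c0)) nb + C x) s).trans_eq ?_)
    · refine Nat.cast_le.2 ((Set.ncard_le_ncard ?_).trans (Set.ncard_image_le (f := Prod.mk c0)))
      rintro ⟨c', t⟩ ⟨k1, -, k2⟩
      obtain rfl : c' = c0 := funext fun a => by
        have := k1 a a.2
        rw [(T.χ_hom a).2, (T.χ_hom a).2, hy', if_pos a.2, dif_pos a.2, hw' _ _ (T.χ_hom a),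
          add_zero] at this
        exact eq_sub_of_add_eq' this
      refine ⟨t, k2.trans_eq ?_, rfl⟩
      congr 3
      funext x
      rw [← mul_assoc, hadd (fun x i => (h1 x i).2) hg0, hw'', if_pos ⟨rfl, Finset.mem_univ x⟩]
      simp only [hb, Pi.add_apply, Pi.smul_apply, smul_eq_mul]
      congr 1
      ring
    · simp only [Fintype.card_prod, Fintype.card_pi, ZMod.card, Finset.prod_const, Finset.card_univ,
        Fintype.card_coe, inv_pow]
      push_cast
      field_simp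

theorem comm_pr_bound {A A' : Finset P} (hA : T.inf ∈ A) (hA' : A' ⊆ A.erase T.inf) (c : P → F3)
    {e : ℕ} (he : 0 < e) : (e : ℝ) * (T.Pr A A' c e).ncard ≤
      (3 : ℝ)⁻¹ ^ A'.card * ((T.q : ℝ) ^ e + T.err (3 ^ A'.card) (∑ v ∈ A, T.dg v) e) := by
  simpa using cheb_zeros (ι := Empty) (X := Empty) hA hA' c Empty.elim Empty.elim
    (fun i => i.elim) (fun i => i.elim) Empty.elim (fun i => i.elim) (fun i => i.elim)
    (fun i => i.elim) (n := ![1, 0]) (nb := ![0, 1]) (by simp [hb]) Empty.elim (fun i => i.elim)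
    Empty.elim 0 e he

theorem comm_err_nonneg (N c e : ℕ) : 0 ≤ T.err N c e := by
  unfold Pre.err
  positivity

theorem comm_small {η : ℝ} {k c e : ℕ} (h : T.Small η (3 ^ k) c e) :
    T.err (3 ^ k) c e + 2 * (T.q : ℝ) ^ ((e + 1) / 2) + c
      ≤ (3 : ℝ)⁻¹ ^ k * (η * (T.q : ℝ) ^ e) := by
  rw [inv_pow, le_inv_mul_iff₀ (by positivity)]
  simpa only [Small, Nat.cast_pow, Nat.cast_ofNat] using h

theorem pr_upper {A A' : Finset P} (hA : T.inf ∈ A) (hA' : A' ⊆ A.erase T.inf) (c : P → F3)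
    {e : ℕ} (he : 0 < e) {η : ℝ} (h : T.Small η (3 ^ A'.card) (∑ v ∈ A, T.dg v) e) :
    ((T.Pr A A' c e).ncard : ℝ) ≤ (1 + η) * ((T.q : ℝ) ^ e / e * (3 : ℝ)⁻¹ ^ A'.card) := by
  have he' : (0 : ℝ) < e := by exact_mod_cast he
  refine le_of_mul_le_mul_left ((comm_pr_bound hA hA' c he).trans ?_) he'
  have h1 := comm_small h
  have h2 : (e : ℝ) * ((1 + η) * ((T.q : ℝ) ^ e / e * (3 : ℝ)⁻¹ ^ A'.card))
      = (3 : ℝ)⁻¹ ^ A'.card * ((T.q : ℝ) ^ e + η * (T.q : ℝ) ^ e) := by field_simp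
  have h3 : (3 : ℝ)⁻¹ ^ A'.card ≤ 1 := pow_le_one₀ (by norm_num) (by norm_num)
  have h4 : (0 : ℝ) ≤ 2 * (T.q : ℝ) ^ ((e + 1) / 2) + (∑ v ∈ A, T.dg v : ℕ) := by positivity
  have h5 := comm_err_nonneg (T := T) (3 ^ A'.card) (∑ v ∈ A, T.dg v) e
  have h6 : 0 ≤ η * (T.q : ℝ) ^ e :=
    nonneg_of_mul_nonneg_right (a := (3 : ℝ)⁻¹ ^ A'.card) (by linarith) (by positivity)
  rw [h2]
  gcongr
  nlinarith

theorem pr_lower {A A' : Finset P} (hA : T.inf ∈ A) (hA' : A' ⊆ A.erase T.inf) (c : P → F3)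
    {e : ℕ} (he : 0 < e) {η : ℝ} (h : T.Small η (3 ^ A'.card) (∑ v ∈ A, T.dg v) e) :
    (1 - η) * ((T.q : ℝ) ^ e / e * (3 : ℝ)⁻¹ ^ A'.card) ≤ ((T.Pr A A' c e).ncard : ℝ) := by
  have he' : (0 : ℝ) < e := by exact_mod_cast he
  have h1 := comm_small h
  have h5 := comm_err_nonneg (T := T) (3 ^ A'.card) (∑ v ∈ A, T.dg v) e
  let D := (T.dg_fin e).toFinset
  let f : P → A' → F3 := fun v a => T.χ a (T.σ v)
  have hfib : ∀ (c' : A' → F3) (d : P → F3), (∀ a : A', d a = c' a) →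
      ((D \ A).filter fun v => f v = c').card = (T.Pr A A' d e).ncard := fun c' d hd => by
    rw [← Set.ncard_coe_finset]
    congr 1
    ext v
    simp only [D, f, Pr, Finset.coe_filter, Finset.mem_sdiff, Set.Finite.mem_toFinset,
      Set.mem_ofPred_eq, and_assoc, funext_iff, ← hd, Subtype.forall]
  have h2 : (e : ℝ) * (D \ A).card ≤ e * (T.Pr A A' c e).ncard + (3 ^ A'.card - 1) *
      ((3 : ℝ)⁻¹ ^ A'.card * ((T.q : ℝ) ^ e + T.err (3 ^ A'.card) (∑ v ∈ A, T.dg v) e)) := by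
    rw [Finset.card_eq_sum_card_fiberwise (f := f) (t := Finset.univ) fun _ _ => Finset.mem_univ _,
      ← Finset.add_sum_erase _ _ (Finset.mem_univ fun a : A' => c a), hfib _ c fun _ => rfl]
    push_cast
    rw [mul_add, Finset.mul_sum]
    refine add_le_add le_rfl ((Finset.sum_le_card_nsmul _ _ ((3 : ℝ)⁻¹ ^ A'.card *
      ((T.q : ℝ) ^ e + T.err (3 ^ A'.card) (∑ v ∈ A, T.dg v) e)) fun c' _ => ?_).trans_eq ?_)
    · rw [hfib c' (fun a => if h : a ∈ A' then c' ⟨a, h⟩ else 0) fun a => dif_pos a.2]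
      exact comm_pr_bound hA hA' _ he
    · rw [nsmul_eq_mul, Finset.card_erase_of_mem (Finset.mem_univ _),
        Nat.cast_pred (Finset.card_pos.2 Finset.univ_nonempty)]
      simp
  have h3 : e * (D ∩ A).card ≤ ∑ v ∈ A, T.dg v := by
    rw [mul_comm, ← smul_eq_mul]
    exact (Finset.card_nsmul_le_sum _ _ _ fun v hv =>
      ((T.dg_fin e).mem_toFinset.1 (Finset.mem_inter.1 hv).1).ge).trans
      (Finset.sum_le_sum_of_subset Finset.inter_subset_right)
  have h4 : {v | T.dg v = e ∧ v ≠ T.inf}.ncard ≤ (D \ A).card + (D ∩ A).card := by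
    rw [Finset.card_sdiff_add_card_inter, ← Set.ncard_coe_finset]
    exact Set.ncard_le_ncard fun v hv => (T.dg_fin e).mem_toFinset.2 hv.1
  have h3' : (e : ℝ) * (D ∩ A).card ≤ (∑ v ∈ A, T.dg v : ℕ) := by exact_mod_cast h3
  have h4' : ({v | T.dg v = e ∧ v ≠ T.inf}.ncard : ℝ) ≤ (D \ A).card + (D ∩ A).card := by
    exact_mod_cast h4
  have h6 := T.pnt e he
  have h7 : (3 : ℝ) ^ A'.card * (3 : ℝ)⁻¹ ^ A'.card = 1 := by rw [← mul_pow]; simp
  have h8 : (e : ℝ) * ((1 - η) * ((T.q : ℝ) ^ e / e * (3 : ℝ)⁻¹ ^ A'.card))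
      = (3 : ℝ)⁻¹ ^ A'.card * (T.q : ℝ) ^ e - (3 : ℝ)⁻¹ ^ A'.card * (η * (T.q : ℝ) ^ e) := by
    field_simp
  refine le_of_mul_le_mul_left ?_ he'
  rw [sub_mul, ← mul_assoc, h7] at h2
  rw [h8]
  nlinarith [mul_le_mul_of_nonneg_left h4' he'.le,
    mul_nonneg (show (0 : ℝ) ≤ (3 : ℝ)⁻¹ ^ A'.card by positivity) h5]

end Tame

end

end Pool.Agent.Smith
end

-- merged part: Pool.Agent.Work.MP_60d5ce_nt.Sm.Cup
section
/-!
# Cup products, isotropy, restricted reciprocity, lifting  (task SM Cup)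

* `isotropy`: `pi ^ m • l = d t`, `pi ^ m' • l' = d t'` on `D v`, `l` is an exact cocycle on `D v`
  (`LTyp.coc`).  With `b g = hh (l g) (act g t')` one has
  `star (pi ^ m') * cup l l' g h = -(b g + cq g * b h - b (g * h))` on `D v`; use `inv_cob_cq`,
  `LTyp.rel`, `act_rel` and cancel the power of `pi`.
* `rrecip`: induction on `j`.  For `j + 1`: `res ∘ θ` has all invariants zero, `hasse` gives `b`;
  `θ' = (θ - d (lft ∘ b)) / pi` (coboundary for the action `cq`) has level `j` and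
  `pi * inv θ' = inv θ` by `inv_cob_cq` and `sm_rel`.
* `lift`: `θ g h = digV k (ψ g + act g (ψ h) - ψ (g * h))` after replacing `ψ` by a function that
  is smooth modulo `pi ^ (k + 1)` (for instance `∑ i < k, pi ^ i • lftV (digV i (ψ g))`, which is
  smooth on the nose); it is a smooth 2-cocycle componentwise.  At `v ∈ A` write `ψ = l + pi ^ k • c`
  on `D v`, then `θ` is the coboundary of `digV 0 ∘ c` there.  At `v ∉ A` the invariant of
  `dψ` is `act σ (ψ τ) - Q • ψ τ` plus the difference in `rel`.  Use `hasse`, subtract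
  `pi ^ k • lftV b`, then remove the finitely many ramified `v ∉ A` by
  `pi ^ k • lftV (∑ χ v g • a v)`.
-/

namespace Pool.Agent.Smith

open scoped Classical

noncomputable section

variable {W P : Type} [Group W] {T : Tame W P}

/-- smooth 2-cocycles modulo `pi ^ j` for the cyclotomic action -/
def Tame.CocO (T : Tame W P) (j : ℕ) (θ : W → W → O) : Prop :=
  (∃ U, T.Adm U ∧ ∀ g h, ∀ u ∈ U, ∀ u' ∈ U, pi ^ j ∣ θ (g * u) (h * u') - θ g h) ∧
    ∀ g h k, pi ^ j ∣ T.cq g * θ h k - θ (g * h) k + θ g (h * k) - θ g h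

theorem cup_hh_add_left (a a' b : V) : hh (a + a') b = hh a b + hh a' b := by
  simp only [hh, Pi.add_apply]; ring

theorem cup_hh_add_right (a b b' : V) : hh a (b + b') = hh a b + hh a b' := by
  simp only [hh, Pi.add_apply, star_add]; ring

theorem cup_hh_sub_left (a a' b : V) : hh (a - a') b = hh a b - hh a' b := by
  simp only [hh, Pi.sub_apply]; ring

theorem cup_hh_sub_right (a b b' : V) : hh a (b - b') = hh a b - hh a b' := by
  simp only [hh, Pi.sub_apply, star_sub]; ring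

theorem cup_hh_smul_right (c : O) (a b : V) : hh a (c • b) = star c * hh a b := by
  simp only [hh, Pi.smul_apply, smul_eq_mul, star_mul']; ring

theorem cup_dvd_left {j : ℕ} {a : V} (ha : VD j a) (b : V) : pi ^ j ∣ hh a b := by
  simpa only [add_zero] using hh_dvd ha (VD.triv b)

theorem cup_dvd_right {j : ℕ} (a : V) {b : V} (hb : VD j b) : pi ^ j ∣ hh a b := by
  simpa using hh_dvd (VD.triv a) hb

theorem cup_res_eq {j : ℕ} {a b : O} (h : pi ^ (j + 1) ∣ a - b) : res a = res b := by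
  rw [← sub_eq_zero, ← map_sub, res_eq_zero_iff]
  exact (dvd_pow_self pi (Nat.succ_ne_zero j)).trans h

theorem cup_dvd_pi {j : ℕ} {a : O} (h : pi ^ (j + 1) ∣ pi * a) : pi ^ j ∣ a := by
  rwa [← pow_mul_dvd_iff 1, pow_one, add_comm]

theorem cup_red (k : ℕ) :
    ∃ r : O → O, (∀ a, pi ^ k ∣ r a - a) ∧ ∀ a b, pi ^ k ∣ a - b → r a = r b :=
  ⟨fun a => (Ideal.Quotient.mk (Ideal.span {pi ^ k}) a).out,
    fun _ => Ideal.mem_span_singleton.1 (Ideal.Quotient.eq.1 (Ideal.Quotient.mk_out _)),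
    fun a b h => by
      simp only [Ideal.Quotient.eq.2 (Ideal.mem_span_singleton.2 h)]⟩

theorem cup_res_sm {j : ℕ} {θ : W → W → O} (hθ : T.CocO (j + 1) θ) :
    T.Sm2 fun g h => res (θ g h) := by
  obtain ⟨U, hU, h⟩ := hθ.1
  exact ⟨U, hU, fun g g' u hu u' hu' => cup_res_eq (h g g' u hu u' hu')⟩

theorem cup_res_coc {j : ℕ} {θ : W → W → O} (hθ : T.CocO (j + 1) θ) :
    IsCoc2 fun g h => res (θ g h) := by
  intro g h k
  have := cup_res_eq (b := 0) (by simpa only [sub_zero] using hθ.2 g h k)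
  simpa only [map_sub, map_add, map_mul, Tame.res_cq, one_mul, map_zero] using this

theorem cup_res_inv (v : P) (θ : W → W → O) :
    T.inv v (fun g h => res (θ g h)) = res (T.inv v θ) :=
  Tame.inv_map res.toAddMonoidHom v θ

/-- restricted reciprocity -/
theorem Tame.rrecip {j : ℕ} {θ : W → W → O} (hθ : T.CocO (j + 1) θ)
    (h : ∀ v, pi ^ j ∣ T.inv v θ) (S : Finset P) (hS : ∀ v ∉ S, pi ^ (j + 1) ∣ T.inv v θ) :
    ∑ v ∈ S, dig j (T.inv v θ) = 0 := by
  induction j generalizing θ with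
  | zero =>
    have := T.recip _ (cup_res_sm hθ) (cup_res_coc hθ) S fun v hv => by
      rw [cup_res_inv, cup_res_eq (b := 0) (by simpa only [sub_zero] using hS v hv), map_zero]
    simpa only [cup_res_inv, dig_zero] using this
  | succ j ih =>
    obtain ⟨b, hb, hθb⟩ := T.hasse _ (cup_res_sm hθ) (cup_res_coc hθ) fun v => by
      rw [cup_res_inv, cup_res_eq (b := 0) (by simpa only [sub_zero] using h v), map_zero]
    have h1 : ∀ g g', ∃ c, θ g g' - (lft (b g) + T.cq g * lft (b g') - lft (b (g * g'))) =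
        pi * c := fun g g' => (res_eq_zero_iff _).1 (by
      simp only [map_sub, map_add, map_mul, Tame.res_cq, one_mul, res_lft, hθb, sub_self])
    choose θ' hθ' using h1
    have h2 : ∀ v, T.inv v θ = pi * T.inv v θ' := fun v => by
      have e := Tame.inv_cob_cq (T := T) v (b := fun g => lft (b g))
      rw [← Tame.sm_rel hb v, sub_self] at e
      rw [← Tame.inv_mul_left, ← sub_zero (T.inv v θ), ← e, ← Tame.inv_sub]
      simp only [hθ']
    have h3 : T.CocO (j + 1) θ' := by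
      obtain ⟨U, hU, hθU⟩ := hθ.1
      obtain ⟨U', hU', hbU⟩ := hb
      refine ⟨⟨U ⊓ U', T.adm_inf _ _ hU hU', fun g g' u hu u' hu' => cup_dvd_pi ?_⟩,
        fun g g' k => cup_dvd_pi ?_⟩
      · have e : T.cq (g * u) = T.cq g := by
          rw [Tame.cq_mul, Tame.cq_of_deg_zero (T.adm_le _ hU hu.1), mul_one]
        rw [mul_sub, ← hθ', ← hθ', e, hbU g u hu.2, hbU g' u' hu'.2, ← mul_assoc, hbU _ u' hu'.2,
          Tame.mul_mid hU' hbU g g' hu.2, sub_sub_sub_cancel_right]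
        exact hθU g g' u hu.1 u' hu'.1
      · have e1 := hθ' g' k
        have e2 := hθ' (g * g') k
        have e3 := hθ' g (g' * k)
        have e4 := hθ' g g'
        rw [Tame.cq_mul, mul_assoc g] at e2
        convert hθ.2 g g' k using 1
        linear_combination -T.cq g * e1 + e2 - e3 + e4
    refine Eq.trans (Finset.sum_congr rfl fun v _ => ?_)
      (ih h3 (fun v => cup_dvd_pi (h2 v ▸ h v)) fun v hv => cup_dvd_pi (h2 v ▸ hS v hv))
    rw [h2, dig_succ, tl_eq (c := 0) (b := T.inv v θ') (by rw [lft_zero, zero_add])]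

namespace Rep

variable {R : Rep T} {x : W → F3}

theorem cup_cocO (hx : T.IsHom x) {j : ℕ} {a b : W → V} (ha : R.Coc x j a) (hb : R.Coc x j b) :
    T.CocO j (R.cup x a b) := by
  obtain ⟨U1, hU1, h1⟩ := ha.1
  obtain ⟨U2, hU2, h2⟩ := hb.1
  obtain ⟨U3, hU3, h3⟩ := act_sm (R := R) hx j
  refine ⟨⟨U1 ⊓ U2 ⊓ U3, T.adm_inf _ _ (T.adm_inf _ _ hU1 hU2) hU3,
    fun g h u hu u' hu' => ?_⟩, fun g h k => ?_⟩
  · have e := (cup_dvd_left (h1 g u hu.1.1) (R.act x (g * u) (b (h * u')))).add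
      (cup_dvd_right (a g) (act_VD (R := R) (x := x)
        ((h3 u hu.2 (b (h * u'))).add (h2 h u' hu'.1.2)) g))
    rw [sub_add_sub_cancel, act_sub, ← act_mul hx, cup_hh_sub_left, cup_hh_sub_right,
      sub_add_sub_cancel] at e
    exact e
  · have e := (cup_dvd_left (ha.2 g h) (R.act x (g * h) (b k))).sub
      (cup_dvd_right (a g) (act_VD (R := R) (x := x) (hb.2 h k) g))
    have e1 := hh_act (R := R) (x := x) g (a h) (R.act x h (b k))
    rw [act_sub, act_add, cup_hh_sub_left, cup_hh_add_left, cup_hh_sub_right,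
      cup_hh_add_right, ← act_mul hx] at e
    rw [← act_mul hx] at e1
    simp only [cup]
    convert e using 1
    linear_combination -e1

theorem isotropy (hx : T.IsHom x) {v : P} {l l' : W → V} (h : R.LTyp x v l) (h' : R.LTyp x v l') :
    T.inv v (R.cup x l l') = 0 := by
  obtain ⟨m, t, ht⟩ := h'
  have e := Tame.inv_cob_cq (T := T) v (b := fun g => hh (l g) (R.act x g t))
  rw [← h.rel hx, ← act_rel hx, sub_self] at e
  have e1 : star (pi ^ m) * T.inv v (R.cup x l l') = 0 := by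
    rw [← Tame.inv_mul_left, ← mul_zero (-1 : O), ← e, ← Tame.inv_mul_left]
    refine Tame.inv_congr v fun g hg g' hg' => ?_
    rw [cup, ← cup_hh_smul_right, ← act_smul, ht g' hg', act_sub, cup_hh_sub_right,
      h.coc hx g hg g' hg', cup_hh_add_left, act_mul hx, hh_act]
    ring
  have e2 := congrArg star e1
  rw [star_mul', star_star, star_zero] at e2
  exact star_eq_zero.1 (pi_pow_mul_eq_zero e2)

/-- leading digit of the invariant of a cup product -/
theorem dig_inv_cup {v : P} {i j : ℕ} {a b : W → V} (ha : ∀ g ∈ T.D v, VD i (a g))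
    (hb : ∀ g ∈ T.D v, VD j (b g))
    (hadd : ∀ g ∈ T.D v, ∀ h ∈ T.D v, digV i (a (g * h)) = digV i (a g) + digV i (a h)) :
    dig (i + j) (T.inv v (R.cup x a b)) =
      (-1) ^ j * T.br v (fun g => digV i (a g)) fun g => digV j (b g) := by
  rw [← Tame.inv_dig v (θ := R.cup x a b) fun g hg g' hg' => hh_dvd (ha g hg) (act_VD (hb g' hg') g),
    ← Tame.inv_hb v hadd]
  refine Eq.trans (Tame.inv_congr v fun g hg g' hg' => ?_)
    (Tame.inv_map (AddMonoidHom.mulLeft ((-1) ^ j : F3)) v _)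
  rw [cup, dig_hh (ha g hg) (act_VD (hb g' hg') g), digV_act (hb g' hg')]
  rfl

theorem isotropy_br (hx : T.IsHom x) {v : P} {l l' : W → V} (h : R.LTyp x v l)
    (h' : R.LTyp x v l') : T.br v (fun g => digV 0 (l g)) (fun g => digV 0 (l' g)) = 0 := by
  have e := dig_inv_cup (R := R) (x := x) (v := v) (i := 0) (j := 0) (a := l) (b := l')
    (fun _ _ => VD.triv _) (fun _ _ => VD.triv _) fun g hg g' hg' => by
      rw [h.coc hx g hg g' hg', digV_add (VD.triv _) (VD.triv _), digV_act (VD.triv _)]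
  rw [isotropy hx h h', dig_zero', pow_zero, one_mul] at e
  exact e.symm

theorem cup_dig_d {k : ℕ} {s t u : V} (hs : VD k s) (ht : VD k t) (hu : VD k u) (g : W) :
    digV k (s + R.act x g t - u) = digV k s + digV k t - digV k u := by
  rw [digV_sub (hs.add (act_VD ht g)) hu, digV_add hs (act_VD ht g), digV_act ht]

theorem cup_act_pow (hx : T.IsHom x) {g : W} (hg : ∀ t, R.act x g t = t) (n : ℕ) (t : V) :
    R.act x (g ^ n) t = t := by
  induction n with
  | zero => rw [pow_zero, act_one hx]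
  | succ n ih => rw [pow_succ, act_mul hx, hg, ih]

theorem cup_cq_pow (v : P) (n : ℕ) : T.cq (T.τ v ^ n) = 1 :=
  Tame.cq_of_deg_zero (T.G0.pow_mem (show T.τ v ∈ T.G0 from T.deg_τ v) n)

theorem cup_sm2 (hx : T.IsHom x) (k : ℕ) {ψ : W → V} (hs : T.Sm ψ) (i : Fin 2) :
    T.Sm2 fun g h => digV k (ψ g + R.act x g (ψ h) - ψ (g * h)) i := by
  obtain ⟨U1, hU1, h1⟩ := hs
  obtain ⟨U2, hU2, h2⟩ := act_sm (R := R) hx (k + 1)
  refine ⟨U1 ⊓ U2, T.adm_inf _ _ hU1 hU2, fun g h u hu u' hu' => congrFun (digV_congr ?_) i⟩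
  rw [h1 g u hu.1, h1 h u' hu'.1, ← mul_assoc, h1 _ u' hu'.1, Tame.mul_mid hU1 h1 g h hu.1,
    sub_sub_sub_cancel_right, add_sub_add_left_eq_sub, act_mul hx, ← act_sub]
  exact act_VD (h2 u hu.2 _) g

theorem cup_coc2 (hx : T.IsHom x) {k : ℕ} {ψ : W → V} (hc : R.Coc x k ψ) (i : Fin 2) :
    IsCoc2 fun g h => digV k (ψ g + R.act x g (ψ h) - ψ (g * h)) i := by
  intro g h l
  have e : R.act x g (ψ h + R.act x h (ψ l) - ψ (h * l)) +
      (ψ g + R.act x g (ψ (h * l)) - ψ (g * (h * l))) =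
      (ψ (g * h) + R.act x (g * h) (ψ l) - ψ (g * h * l)) +
        (ψ g + R.act x g (ψ h) - ψ (g * h)) := by
    rw [act_sub, act_add, act_mul hx, mul_assoc]
    abel
  have e1 := congrArg (digV k) e
  rw [digV_add (act_VD (hc.2 h l) g) (hc.2 _ _), digV_add (hc.2 _ _) (hc.2 _ _),
    digV_act (hc.2 h l)] at e1
  have e2 := congrFun e1 i
  simp only [Pi.add_apply] at e2
  linear_combination e2

theorem cup_inv_loc (hx : T.IsHom x) {k : ℕ} {ψ : W → V} (hs : T.Sm ψ) {v : P}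
    (hv : R.LocOK x k ψ v) (i : Fin 2) :
    T.inv v (fun g h => digV k (ψ g + R.act x g (ψ h) - ψ (g * h)) i) = 0 := by
  obtain ⟨l, hl, h⟩ := hv
  refine Eq.trans (Tame.inv_congr v fun g hg g' hg' => ?_)
    (Tame.inv_cob v (b := fun g => digV k (ψ g - l g) i) (by
      simp only [Tame.sm_rel hs v, hl.rel hx]))
  refine Eq.trans ?_ (congrFun (cup_dig_d (R := R) (x := x) (h g hg) (h g' hg')
    (h _ (mul_mem hg hg')) g) i)
  rw [hl.coc hx g hg g' hg', act_sub]
  refine congrArg (digV k · i) ?_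
  abel

theorem cup_inv_unr (hx : T.IsHom x) {k : ℕ} {ψ : W → V} (hs : T.Sm ψ) (hc : R.Coc x k ψ) {v : P}
    (hv : v ∉ R.S) (h0 : x (T.τ v) = 0) (h : VD k (ψ (T.τ v))) (i : Fin 2) :
    T.inv v (fun g h => digV k (ψ g + R.act x g (ψ h) - ψ (g * h)) i) = 0 := by
  refine (Tame.inv_dig v fun g _ g' _ => hc.2 g g' i).trans (dig_of_dvd ?_)
  have e := Tame.inv_cob_cq (T := T) v (b := fun g => ψ g i)
  rw [← Tame.sm_rel hs v, sub_self] at e
  have e1 : (fun g h => (ψ g + R.act x g (ψ h) - ψ (g * h)) i) = fun g h =>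
      (ψ g i + T.cq g * ψ h i - ψ (g * h) i) + (R.act x g (ψ h) i - T.cq g * ψ h i) := by
    funext g h
    simp only [Pi.add_apply, Pi.sub_apply]
    ring
  rw [e1, Tame.inv_add, e, zero_add]
  simp only [Pre.inv, cup_act_pow hx (act_unr hv h0), cup_cq_pow, one_mul, sub_self,
    Finset.sum_const_zero, sub_zero]
  have e2 : pi ∣ T.cq (T.σ v) - 1 := (res_eq_zero_iff _).1 (by
    rw [map_sub, Tame.res_cq, map_one, sub_self])
  have e3 := (act_sub_VD (R := R) (x := x) h (T.σ v) i).sub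
    ((pow_succ' pi k).dvd.trans (mul_dvd_mul e2 (h i)))
  rw [Pi.sub_apply] at e3
  convert e3 using 1
  ring

theorem cup_lift1 (hx : T.IsHom x) {A : Finset P} (hA : R.S ⊆ A) (hx' : ∀ v ∉ A, x (T.τ v) = 0)
    {k : ℕ} {ψ : W → V} (hs : T.Sm ψ) (h : R.Sel A x k ψ) :
    ∃ ψ', R.Coc x (k + 1) ψ' ∧ ∀ g, VD k (ψ' g - ψ g) := by
  have h1 := fun i => T.hasse _ (cup_sm2 (R := R) hx k hs i) (cup_coc2 hx h.1 i) fun v => by
    by_cases hv : v ∈ A
    · exact cup_inv_loc hx hs (h.2.1 v hv) i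
    · exact cup_inv_unr hx hs h.1 (fun h' => hv (hA h')) (hx' v hv) (h.2.2 v hv) i
  choose b hb hθ using h1
  obtain ⟨U, hU, h2⟩ := Tame.sm_comp₂ hs (Tame.sm_pi (f := fun g i => b i g) hb)
    fun s t => s - pi ^ k • lftV t
  refine ⟨fun g => ψ g - pi ^ k • lftV fun i => b i g, ⟨⟨U, hU, fun g u hu => ?_⟩, fun g g' => ?_⟩,
    fun g => ?_⟩
  · rw [sub_eq_zero.2 (h2 g u hu)]
    exact VD.zero _
  · have h3 := fun g => VD_pow_smul k (lftV fun i => b i g)
    have h4 := ((h3 g).add (act_VD (R := R) (x := x) (h3 g') g)).sub (h3 (g * g'))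
    have h5 := (digV_eq_zero_iff ((h.1.2 g g').sub h4)).1 (by
      rw [digV_sub (h.1.2 g g') h4, cup_dig_d (h3 _) (h3 _) (h3 _), sub_eq_zero]
      simp only [digV_pow_smul, digV_lftV]
      exact funext fun i => hθ i g g')
    rw [act_sub]
    convert h5 using 1
    beta_reduce
    abel
  · rw [sub_sub_cancel_left]
    exact (VD_pow_smul k _).neg

theorem cup_sel {A : Finset P} {k : ℕ} {ψ ψ' : W → V} (h : R.Sel A x k ψ)
    (h' : ∀ g, VD k (ψ' g - ψ g)) : R.Sel A x k ψ' := by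
  have h1 : ∀ g, VD k (ψ g - ψ' g) := fun g => neg_sub (ψ' g) (ψ g) ▸ (h' g).neg
  refine ⟨h.1.congr h1, fun v hv => (h.2.1 v hv).congr fun g _ => h1 g, fun v hv => ?_⟩
  simpa only [sub_add_cancel] using (h' (T.τ v)).add (h.2.2 v hv)

theorem lift (hx : T.IsHom x) {A : Finset P} (hA : R.S ⊆ A) (hx' : ∀ v ∉ A, x (T.τ v) = 0) {k : ℕ}
    {ψ : W → V} (h : R.Sel A x k ψ) :
    ∃ ψ', R.Admi A A x k ψ' ∧ ∀ g, VD k (ψ' g - ψ g) := by
  obtain ⟨r, hr, hr'⟩ := cup_red k
  have h1 : ∀ g, VD k ((fun i => r (ψ g i)) - ψ g) := fun g i => hr _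
  obtain ⟨ψ2, h2, h3⟩ := cup_lift1 hx hA hx' (ψ := fun g i => r (ψ g i)) (by
    obtain ⟨U, hU, h2⟩ := h.1.1
    exact ⟨U, hU, fun g u hu => funext fun i => hr' _ _ (h2 g u hu i)⟩) (cup_sel h h1)
  have h4 : ∀ g, VD k (ψ2 g - ψ g) := fun g => by
    simpa only [sub_add_sub_cancel] using (h3 g).add (h1 g)
  have h5 := Tame.hom_sum (T := T) (h2.fin hx).toFinset
    (x := fun v g => T.χ v g • digV k (ψ2 (T.τ v))) fun v _ => Tame.hom_smul_const (T.χ_hom v) _
  have h6 : ∀ g, VD k ((ψ2 - fun g => pi ^ k • lftV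
      (∑ v ∈ (h2.fin hx).toFinset, T.χ v g • digV k (ψ2 (T.τ v)))) g - ψ g) := fun g => by
    rw [Pi.sub_apply, sub_right_comm]
    exact (h4 g).sub (VD_pow_smul _ _)
  refine ⟨_, ⟨h2.sub (coc_of_hom h5), cup_sel h h6, fun w hw => ?_⟩, h6⟩
  have hw' : w ≠ T.inf := fun e => hw (hA (e ▸ R.inf_mem))
  have h7 := (cup_sel h h4).2.2 w hw
  rw [Pi.sub_apply, Finset.sum_eq_single w, T.χ_self w hw', one_smul]
  · exact VD_sub_lftV h7
  · intro v _ hv
    rw [T.χ_ne v w hv.symm hw', zero_smul]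
  · intro h8
    rw [Set.Finite.mem_toFinset, Set.mem_ofPred_eq, not_not] at h8
    rw [(digV_eq_zero_iff h7).2 h8, smul_zero]

end Rep

end

end Pool.Agent.Smith
end

-- merged part: Pool.Agent.Work.MP_60d5ce_nt.Sm.Vanish
section
/-!
# The local terms `fv` and the vanishing of their sum  (task SM Vanish)

* `fv_eq`: independence of the local lift: `(l - lch) / pi ^ k` is again of type `LTyp`
  (`LTyp.of_pow_smul`), `w ≡ l` modulo `pi`, use `isotropy_br`.
* `fv_sum`: transport all local lifts to the twist `x0` (`LTyp.twist`); `∑ c i • l i` is divisible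
  by `pi ^ k` on `D v`, its quotient is of type `LTyp`, use `isotropy_br`.
* `inv_cup_common`: write `ψ = l + pi ^ k • c`, `ψ' = l' + pi ^ k • c'` on `D v`, expand the cup
  product, use `isotropy`, `dig_inv_cup`, `br_swap`, `k` even and `k ≥ 1`.
* `vanish`: `ψ - ψ0 = pi • δ`, `δ` is a cocycle of level `k`; apply `rrecip` (level `k = j + 1`) to
  `cup δ ψ0`.  At `v ∈ A`: `δ ≡ (l - l0) / pi + pi ^ j • c` modulo `pi ^ k` on `D v`.
  At `v ∉ A`: `ψ0 τ ≡ 0` modulo `pi ^ (k + 1)`, `δ τ ≡ 0` modulo `pi ^ j`, compute `inv` directly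
  (`Coc.pow_unr`, and `δ (τ ^ Q) ≡ Q • δ τ`).
-/

namespace Pool.Agent.Smith

open scoped Classical

noncomputable section

variable {W P : Type} [Group W] {T : Tame W P}

theorem vanish_br_congr {v : P} {a a' b b' : W → Vb} (ha : ∀ g ∈ T.D v, a g = a' g)
    (hb : ∀ g ∈ T.D v, b g = b' g) : T.br v a b = T.br v a' b' := by
  simp only [Tame.br, ha _ (Tame.σ_mem v), ha _ (Tame.τ_mem v), hb _ (Tame.σ_mem v),
    hb _ (Tame.τ_mem v)]

theorem vanish_br_add (v : P) (a a' b : W → Vb) :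
    T.br v (fun g => a g + a' g) b = T.br v a b + T.br v a' b := by
  simp only [Tame.br, hb, Pi.add_apply]
  ring

theorem vanish_br_sum {ι : Type*} (s : Finset ι) (c : ι → F3) (v : P) (a : ι → W → Vb)
    (b : W → Vb) : T.br v (fun g => ∑ i ∈ s, c i • a i g) b = ∑ i ∈ s, c i * T.br v (a i) b := by
  simp only [Tame.br, hb, Finset.sum_apply, Pi.smul_apply, smul_eq_mul, Finset.sum_mul,
    ← Finset.sum_add_distrib, ← Finset.sum_sub_distrib]
  exact Finset.sum_congr rfl fun i _ => by ring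

theorem vanish_digV_zero (j : ℕ) : digV j (0 : V) = 0 := funext fun _ => dig_zero' j

theorem vanish_dig0 {k : ℕ} (hk : 1 ≤ k) {a b : V} (h : VD k (a - b)) : digV 0 a = digV 0 b :=
  digV_congr (j := 0) (h.mono hk)

theorem vanish_inv_dvd (v : P) {j : ℕ} {θ : W → W → O}
    (h : ∀ g ∈ T.D v, ∀ g' ∈ T.D v, pi ^ j ∣ θ g g') : pi ^ j ∣ T.inv v θ := by
  have := Tame.inv_dvd (T := T) v (j := j) (θ := θ) (θ' := fun _ _ => 0) (by simpa using h)
  simpa [Pre.inv] using this

namespace Rep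

variable {R : Rep T} {x : W → F3} {k : ℕ}

theorem vanish_iso (hx : T.IsHom x) {v : P} {n l : W → V} (hn : R.LTyp x v n)
    (hl : R.LTyp x v l) (h : ∀ g ∈ T.D v, VD k (n g)) :
    T.br v (fun g => digV k (n g)) (fun g => digV 0 (l g)) = 0 := by
  have : ∀ g, ∃ b : V, g ∈ T.D v → n g = pi ^ k • b := by
    intro g
    by_cases hg : g ∈ T.D v
    · obtain ⟨b, hb⟩ := (h g hg).exists
      exact ⟨b, fun _ => hb⟩
    · exact ⟨0, fun h' => absurd h' hg⟩
  choose m hm using this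
  rw [← isotropy_br hx (hn.of_pow_smul hm) hl]
  refine vanish_br_congr (fun g hg => ?_) fun _ _ => rfl
  rw [hm g hg, digV_pow_smul]

theorem vanish_cup_dvd (v : P) {i j : ℕ} {a b : W → V} (ha : ∀ g ∈ T.D v, VD i (a g))
    (hb : ∀ g ∈ T.D v, VD j (b g)) : pi ^ (i + j) ∣ T.inv v (R.cup x a b) :=
  vanish_inv_dvd v fun g hg g' hg' => hh_dvd (ha g hg) (act_VD (hb g' hg') g)

theorem vanish_cup_split (v : P) (a a' b b' : W → V) :
    T.inv v (R.cup x a b) = T.inv v (R.cup x a' b') + T.inv v (R.cup x a' (b - b')) +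
      T.inv v (R.cup x (a - a') b) := by
  rw [← Tame.inv_add, ← Tame.inv_add]
  congr 1
  funext g h
  simp only [cup, Pi.sub_apply, act_sub, hh, star_sub]
  ring

theorem vanish_hadd (hx : T.IsHom x) {v : P} {ψ l : W → V} (hc : R.Coc x (k + 1) ψ)
    (hl : R.LTyp x v l) (h : ∀ g ∈ T.D v, VD k (ψ g - l g)) :
    ∀ g ∈ T.D v, ∀ g' ∈ T.D v,
      digV k ((ψ - l) (g * g')) = digV k ((ψ - l) g) + digV k ((ψ - l) g') := by
  intro g hg g' hg'
  simp only [Pi.sub_apply]
  rw [← digV_act (R := R) (x := x) (h g' hg') g, ← digV_add (h g hg) (act_VD (h g' hg') g)]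
  refine digV_congr ?_
  have := (hc.2 g g').neg
  rw [hl.coc hx g hg g' hg', act_sub]
  convert this using 1
  abel

theorem vanish_hadd0 (hx : T.IsHom x) {v : P} {l : W → V} (hl : R.LTyp x v l) :
    ∀ g ∈ T.D v, ∀ g' ∈ T.D v, digV 0 (l (g * g')) = digV 0 (l g) + digV 0 (l g') := by
  intro g hg g' hg'
  rw [hl.coc hx g hg g' hg', digV_add (VD.triv _) (VD.triv _), digV_act (VD.triv _)]

theorem vanish_pow (hx : T.IsHom x) {d : W → V} (hd : R.Coc x (k + 1) d) {g : W}
    (hg : VD k (d g)) (n : ℕ) : digV k (d (g ^ n)) = (n : F3) • digV k (d g) := by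
  induction n with
  | zero =>
    rw [pow_zero, Nat.cast_zero, zero_smul]
    exact (digV_eq_zero_iff ((hd.one hx).mono k.le_succ)).2 (hd.one hx)
  | succ n ih =>
    have h1 := (hd.mono k.le_succ).pow_unr hx hg n
    rw [pow_succ, ← digV_congr (hd.2 (g ^ n) g), digV_add h1 (act_VD hg _), digV_act hg, ih,
      Nat.cast_succ, add_smul, one_smul]

theorem fv_eq (hx : T.IsHom x) (hk : 1 ≤ k) {A : Finset P} {v : P} (hv : v ∈ A) {ψ l : W → V}
    (hl : R.LTyp x v l) (h : ∀ g ∈ T.D v, VD k (ψ g - l g)) :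
    R.fv A x k ψ v = T.br v (fun g => digV k (ψ g - l g)) fun g => digV 0 (ψ g) := by
  obtain ⟨h1, h2⟩ := lch_spec (R := R) (x := x) ⟨l, hl, h⟩
  have h3 : ∀ g ∈ T.D v, VD k ((l - R.lch x k ψ v) g) := fun g hg => by
    have := (h2 g hg).sub (h g hg)
    rwa [sub_sub_sub_cancel_left] at this
  have h4 := vanish_iso hx (hl.sub h1) hl h3
  rw [fv, if_pos hv, vanish_br_congr (a' := fun g => digV k (ψ g - l g) +
    digV k ((l - R.lch x k ψ v) g)) (b' := fun g => digV 0 (l g)), vanish_br_add, h4, add_zero]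
  · exact vanish_br_congr (fun _ _ => rfl) fun g hg => (vanish_dig0 hk (h g hg)).symm
  · intro g hg
    rw [← digV_add (h g hg) (h3 g hg), Pi.sub_apply, sub_add_sub_cancel]
  · exact fun g hg => vanish_dig0 hk (h g hg)

theorem fv_zero {A : Finset P} {v : P} {ψ : W → V} (h1 : VD 1 (ψ (T.σ v)))
    (h2 : VD 1 (ψ (T.τ v))) : R.fv A x k ψ v = 0 := by
  have e1 := (digV_eq_zero_iff (VD.triv _)).2 h1
  have e2 := (digV_eq_zero_iff (VD.triv _)).2 h2
  unfold fv
  split_ifs <;> simp [Tame.br, hb, e1, e2]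

theorem fv_unr {A : Finset P} {v : P} (hv : v ∉ A) {ψ : W → V} (h : VD (k + 1) (ψ (T.τ v))) :
    R.fv A x k ψ v = 0 := by
  have e := (digV_eq_zero_iff (h.mono k.le_succ)).2 h
  simp [fv, hv, hb, e]

/-- linear combinations at a place where twist and leading term are common -/
theorem fv_sum (hk : 1 ≤ k) {ι : Type*} (s : Finset ι) (c : ι → O) (A : ι → Finset P)
    (y : ι → W → F3) (ψ : ι → W → V) {v : P} (hx : T.IsHom x) (hy : ∀ i ∈ s, T.IsHom (y i))
    (hv : ∀ i ∈ s, v ∈ A i) (hyx : ∀ i ∈ s, ∀ g ∈ T.D v, y i g = x g)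
    (hψ : ∀ i ∈ s, R.LocOK (y i) k (ψ i) v) (w : W → Vb)
    (hw : ∀ i ∈ s, ∀ g ∈ T.D v, digV 0 (ψ i g) = w g)
    (hd : ∀ g ∈ T.D v, VD k (∑ i ∈ s, c i • ψ i g)) :
    ∑ i ∈ s, res (c i) * R.fv (A i) (y i) k (ψ i) v =
      T.br v (fun g => digV k (∑ i ∈ s, c i • ψ i g)) w := by
  rcases s.eq_empty_or_nonempty with rfl | ⟨i0, hi0⟩
  · simp [Tame.br, hb, vanish_digV_zero]
  set l : ι → W → V := fun i => R.lch (y i) k (ψ i) v with hldef
  have hl : ∀ i ∈ s, R.LTyp x v (l i) := fun i hi => (lch_spec (hψ i hi)).1.twist (hyx i hi)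
  have hl2 : ∀ i ∈ s, ∀ g ∈ T.D v, VD k (ψ i g - l i g) := fun i hi => (lch_spec (hψ i hi)).2
  have hn : R.LTyp x v fun g => ∑ i ∈ s, (c i • l i) g := LTyp.sum s fun i hi => (hl i hi).smul _
  have hs : ∀ g ∈ T.D v, VD k (∑ i ∈ s, c i • (ψ i g - l i g)) := fun g hg =>
    VD.sum s fun i hi => (hl2 i hi g hg).smul _
  have he : ∀ g, ∑ i ∈ s, c i • ψ i g =
      ∑ i ∈ s, c i • (ψ i g - l i g) + ∑ i ∈ s, (c i • l i) g := by
    intro g
    rw [← Finset.sum_add_distrib]
    exact Finset.sum_congr rfl fun i _ => by rw [smul_sub, Pi.smul_apply, sub_add_cancel]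
  have hn2 : ∀ g ∈ T.D v, VD k (∑ i ∈ s, (c i • l i) g) := fun g hg => by
    have := (hd g hg).sub (hs g hg)
    rwa [he, add_sub_cancel_left] at this
  have h4 := vanish_iso hx hn (hl i0 hi0) hn2
  rw [vanish_br_congr (a' := fun g => digV k (∑ i ∈ s, (c i • l i) g)) (b' := w) (fun _ _ => rfl)
    (fun g hg => (vanish_dig0 hk (hl2 i0 hi0 g hg)).symm.trans (hw i0 hi0 g hg))] at h4
  rw [vanish_br_congr (a' := fun g => ∑ i ∈ s, res (c i) • digV k (ψ i g - l i g) +
    digV k (∑ i ∈ s, (c i • l i) g)) (b' := w) _ (fun _ _ => rfl), vanish_br_add, h4, add_zero,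
    vanish_br_sum]
  · refine Finset.sum_congr rfl fun i hi => ?_
    rw [fv, if_pos (hv i hi)]
    congr 1
    exact vanish_br_congr (fun _ _ => rfl) (hw i hi)
  · intro g hg
    rw [he, digV_add (hs g hg) (hn2 g hg), digV_sum s fun i hi => (hl2 i hi g hg).smul _]
    congr 1
    exact Finset.sum_congr rfl fun i hi => digV_smul _ (hl2 i hi g hg)

theorem inv_cup_common (hk : 1 ≤ k) (hk2 : Even k) {A A' : Finset P} {x' : W → F3}
    (hx : T.IsHom x) (hx' : T.IsHom x') {v : P} (hv : v ∈ A) (hv' : v ∈ A')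
    (hxx : ∀ g ∈ T.D v, x' g = x g) {ψ ψ' : W → V} (hc : R.Coc x (k + 1) ψ)
    (hc' : R.Coc x' (k + 1) ψ') (hl : R.LocOK x k ψ v) (hl' : R.LocOK x' k ψ' v)
    (hw : ∀ g ∈ T.D v, digV 0 (ψ' g) = digV 0 (ψ g)) :
    pi ^ k ∣ T.inv v (R.cup x ψ' ψ) ∧
      dig k (T.inv v (R.cup x ψ' ψ)) = R.fv A' x' k ψ' v - R.fv A x k ψ v := by
  obtain ⟨l, h1, h2⟩ := hl
  obtain ⟨l', h1', h2'⟩ := hl'
  have h1x := h1'.twist hxx
  have d1 : pi ^ k ∣ T.inv v (R.cup x l' (ψ - l)) := by
    simpa using vanish_cup_dvd (R := R) (x := x) v (i := 0) (a := l') (b := ψ - l)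
      (fun _ _ => VD.triv _) h2
  have d2 : pi ^ k ∣ T.inv v (R.cup x (ψ' - l') ψ) :=
    vanish_cup_dvd (R := R) (x := x) v (j := 0) (a := ψ' - l') (b := ψ) h2' (fun _ _ => VD.triv _)
  have e1 := dig_inv_cup (R := R) (x := x) (i := 0) (a := l') (b := ψ - l)
    (fun _ _ => VD.triv _) h2 (vanish_hadd0 hx h1x)
  have e2 := dig_inv_cup (R := R) (x := x) (j := 0) (a := ψ' - l') (b := ψ) h2'
    (fun _ _ => VD.triv _) (vanish_hadd hx' hc' h1' h2')
  rw [zero_add, hk2.neg_one_pow, one_mul, Tame.br_swap] at e1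
  rw [add_zero, pow_zero, one_mul] at e2
  rw [vanish_cup_split v ψ' l' ψ l, isotropy hx h1x h1, zero_add]
  refine ⟨d1.add d2, ?_⟩
  rw [dig_add d1 d2, e1, e2, fv_eq hx hk hv h1 h2, fv_eq hx' hk hv' h1' h2', neg_add_eq_sub]
  congr 1
  · exact vanish_br_congr (fun _ _ => rfl) fun g hg => (hw g hg).symm
  · exact vanish_br_congr (fun _ _ => rfl) fun g hg =>
      (vanish_dig0 hk (h2' g hg)).symm.trans (hw g hg)

theorem vanish (hx : T.IsHom x) (hk : 1 ≤ k) {A A' : Finset P} (hA : R.S ⊆ A) (hAA : A ⊆ A')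
    (hx' : ∀ v ∉ A, x (T.τ v) = 0) {ψ : W → V} (h : R.Admi A A' x k ψ)
    (h0 : R.Lifts A x (k + 1) fun g => digV 0 (ψ g)) : ∑ v ∈ A', R.fv A x k ψ v = 0 := by
  obtain ⟨ψ0, ⟨hc0, hl0, hu0⟩, hw⟩ := h0
  obtain ⟨hc, ⟨-, hl, hu⟩, hu'⟩ := h
  have hd : R.Coc x (k + 1) (ψ - ψ0) := hc.sub hc0
  have key : ∀ v, pi ^ k ∣ T.inv v (R.cup x (ψ - ψ0) ψ0) ∧
      dig k (T.inv v (R.cup x (ψ - ψ0) ψ0)) = R.fv A x k ψ v := by
    intro v
    by_cases hv : v ∈ A
    · obtain ⟨l, h1, h2⟩ := hl v hv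
      obtain ⟨l0, h10, h20⟩ := hl0 v hv
      have h3 : ∀ g ∈ T.D v, VD k ((ψ - ψ0) g - (l - l0) g) := fun g hg => by
        have := (h2 g hg).sub ((h20 g hg).mono k.le_succ)
        rwa [sub_sub_sub_comm] at this
      have d1 : pi ^ (k + 1) ∣ T.inv v (R.cup x (l - l0) (ψ0 - l0)) := by
        simpa using vanish_cup_dvd (R := R) (x := x) v (i := 0) (a := l - l0) (b := ψ0 - l0)
          (fun _ _ => VD.triv _) h20
      have d1' := (pow_dvd_pow pi k.le_succ).trans d1
      have d2 : pi ^ k ∣ T.inv v (R.cup x (ψ - ψ0 - (l - l0)) ψ0) :=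
        vanish_cup_dvd (R := R) (x := x) v (j := 0) (a := ψ - ψ0 - (l - l0)) (b := ψ0) h3
          (fun _ _ => VD.triv _)
      have e2 := dig_inv_cup (R := R) (x := x) (j := 0) (a := ψ - ψ0 - (l - l0)) (b := ψ0) h3
        (fun _ _ => VD.triv _) (vanish_hadd hx hd (h1.sub h10) h3)
      rw [add_zero, pow_zero, one_mul] at e2
      rw [vanish_cup_split v (ψ - ψ0) (l - l0) ψ0 l0, isotropy hx (h1.sub h10) h10, zero_add]
      refine ⟨d1'.add d2, ?_⟩
      rw [dig_add d1' d2, dig_of_dvd d1, zero_add, e2, fv_eq hx hk hv h1 h2]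
      refine vanish_br_congr (fun g hg => digV_congr ?_) fun g _ => hw g
      have := (h20 g hg).neg
      convert this using 1
      simp only [Pi.sub_apply]
      abel
    · have hτ : VD k ((ψ - ψ0) (T.τ v)) := (hu v hv).sub ((hu0 v hv).mono k.le_succ)
      have hQ := (hd.mono k.le_succ).pow_unr hx hτ (T.Q v)
      have a1 : ∀ g, pi ^ (k + 1) ∣ R.cup x (ψ - ψ0) ψ0 g (T.τ v) := fun g => by
        have := hh_dvd (VD.triv ((ψ - ψ0) g)) (act_VD (R := R) (x := x) (hu0 v hv) g)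
        rwa [zero_add] at this
      have a2 : pi ^ k ∣ R.cup x (ψ - ψ0) ψ0 (T.τ v ^ T.Q v) (T.σ v) :=
        hh_dvd (j := 0) hQ (VD.triv _)
      have a3 : pi ^ (k + 1) ∣ T.inv v (R.cup x (ψ - ψ0) ψ0) -
          -R.cup x (ψ - ψ0) ψ0 (T.τ v ^ T.Q v) (T.σ v) := by
        have := (a1 (T.σ v)).sub
          (Finset.dvd_sum fun i (_ : i ∈ Finset.Ico 1 (T.Q v)) => a1 (T.τ v ^ i))
        convert this using 1
        rw [Pre.inv]
        ring
      refine ⟨?_, ?_⟩
      · have := ((pow_dvd_pow pi k.le_succ).trans a3).sub a2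
        rwa [sub_neg_eq_add, add_sub_cancel_right] at this
      · have e := dig_hh (j := 0) hQ (VD.triv (R.act x (T.τ v ^ T.Q v) (ψ0 (T.σ v))))
        rw [add_zero, pow_zero, one_mul, vanish_pow hx hd hτ, Tame.Q_cast, one_smul,
          digV_act (VD.triv _), hw] at e
        have e' : digV k ((ψ - ψ0) (T.τ v)) = digV k (ψ (T.τ v)) := digV_congr (by
          have := (hu0 v hv).neg
          convert this using 1
          simp)
        rw [dig_congr a3, dig_neg a2, fv, if_neg hv, ← e', ← e]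
        rfl
  have : ∀ g, ∃ b : V, (ψ - ψ0) g = pi ^ 1 • b := fun g =>
    ((digV_eq_zero_iff (VD.triv _)).1 (by
      rw [Pi.sub_apply, digV_sub (VD.triv _) (VD.triv _), hw, sub_self])).exists
  choose δ hδ using this
  have hδ' : ψ - ψ0 = pi ^ 1 • δ := funext hδ
  obtain ⟨j, rfl⟩ : ∃ j, k = j + 1 := ⟨k - 1, by omega⟩
  have hδc : R.Coc x (j + 1) δ := by
    rw [← coc_pow_smul_iff 1, ← hδ', add_comm]
    exact hd
  have hI : ∀ v, T.inv v (R.cup x (ψ - ψ0) ψ0) = pi ^ 1 * T.inv v (R.cup x δ ψ0) := by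
    intro v
    rw [← Tame.inv_mul_left, hδ']
    congr 1
    funext g h
    simp only [cup, hh, Pi.smul_apply, smul_eq_mul]
    ring
  have k1 : ∀ v, pi ^ j ∣ T.inv v (R.cup x δ ψ0) := fun v => by
    rw [← pow_mul_dvd_iff 1, ← hI, add_comm]
    exact (key v).1
  have k2 : ∀ v, dig j (T.inv v (R.cup x δ ψ0)) = R.fv A x (j + 1) ψ v := fun v => by
    rw [← (key v).2, hI]
    obtain ⟨c, hc⟩ := k1 v
    rw [hc, ← mul_assoc, ← pow_add, add_comm 1 j, dig_pow_mul, dig_pow_mul]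
  rw [← Finset.sum_congr rfl fun v _ => k2 v]
  refine Tame.rrecip (cup_cocO hx hδc (hc0.mono (Nat.le_succ _))) k1 A' fun v hv => ?_
  rw [← dig_eq_zero_iff (k1 v), k2]
  exact fv_unr (fun h => hv (hAA h)) (hu' v hv)

end Rep

end

end Pool.Agent.Smith
end

-- merged part: Pool.Agent.Work.MP_60d5ce_nt.Sm.Reflect
section
/-!
# The reflection formula on a cube  (task SM Reflect)

`A e g h = cup (x false e) (ψ true e) (ψ false e) g h`, `θ g h = dig k (Dl univ (A · g h))`.
`A e` satisfies the cocycle identity modulo `pi ^ (k + 1)` for the action `cq g * zp (βa g)`, which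
does not depend on `e`, and `pi ^ k` divides `Dl univ (A · g h)` (`gr_hh`, `grV_act`), so `θ` is a
smooth `F3`-valued cocycle; apply `recip` with `S = E.As`.
* `v ∈ C`: `inv θ = Dl (fv true - fv false)` (`inv_cup_common`) `= br v Φ w0` (`fv_sum`, over
  `Bool × Finset ι`, or once for each side).
* `v = p0 i, p1 i`: `θ = 0` on `D v` by `leibniz_hh` (one of `C`, `univ \ C` misses `i`; for the
  second factor use `digV_Dl_act`), and every `fv` vanishes (`fv_zero`, hypothesis `van` with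
  `B = ∅` gives `w s = 0` on `D v`).
* `v = a1`: modulo `pi ^ (k + 1)`, `inv (A e) ≡ -hh (ψ true e τ) (ψ false e σ)` (`Coc.pow_Q`,
  `ψ false e τ ≡ 0`), so `inv θ = -hb na (Th false univ σ)` by `leibniz_hh` and `own`;
  `Dl (fv true) = br (Th true univ) (w true) = hb (Th true univ σ) na` (`fv_sum`, `own`), `fv false = 0`.
* `v = a0`: `inv (A e) ≡ hh (ψ true e σ) (act σ (ψ false e τ))`, `inv θ = hb (Th true univ σ) na`,
  `Dl (fv false) = hb (Th false univ σ) na`, `fv true = 0`.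
So at the cube primes `Dl fv + inv θ` is explicit, at common places `Dl fv = inv θ`, and `∑ inv θ = 0`.
-/

namespace Pool.Agent.Smith

open scoped Classical

noncomputable section

variable {W P : Type} [Group W] {T : Tame W P}

theorem reflect_hh_add_left (a b c : V) : hh (a + b) c = hh a c + hh b c := by
  simp only [hh, Pi.add_apply]
  ring

theorem reflect_hh_sub_left (a b c : V) : hh (a - b) c = hh a c - hh b c := by
  simp only [hh, Pi.sub_apply]
  ring

theorem reflect_hh_smul_left (r : O) (a c : V) : hh (r • a) c = r * hh a c := by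
  simp only [hh, Pi.smul_apply, smul_eq_mul]
  ring

theorem reflect_hh_add_right (a b c : V) : hh a (b + c) = hh a b + hh a c := by
  simp only [hh, Pi.add_apply, star_add]
  ring

theorem reflect_hh_sub_right (a b c : V) : hh a (b - c) = hh a b - hh a c := by
  simp only [hh, Pi.sub_apply, star_sub]
  ring

theorem reflect_dvd_left {j : ℕ} {a : V} (ha : VD j a) (b : V) : pi ^ j ∣ hh a b := by
  simpa only [add_zero] using hh_dvd ha (VD.triv b)

theorem reflect_dvd_right {j : ℕ} (a : V) {b : V} (hb : VD j b) : pi ^ j ∣ hh a b := by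
  simpa using hh_dvd (VD.triv a) hb

theorem reflect_hb_sub (a b c : Vb) : hb (a - b) c = hb a c - hb b c := by
  simp only [hb, Pi.sub_apply]
  ring

theorem reflect_hb_add (a b c : Vb) : hb (a + b) c = hb a c + hb b c := by
  simp only [hb, Pi.add_apply]
  ring

theorem reflect_hb_zero_left (a : Vb) : hb 0 a = 0 := by simp [hb]

theorem reflect_hb_zero_right (a : Vb) : hb a 0 = 0 := by simp [hb]

theorem reflect_inv_Dl {ι : Type} [DecidableEq ι] (v : P) (B : Finset ι)
    (f : Finset ι → W → W → O) :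
    T.inv v (fun g h => Dl B fun e => f e g h) = Dl B fun e => T.inv v (f e) := by
  simp only [Pre.inv, Dl_sub, Dl_sum]

theorem reflect_Dl_mul {ι : Type} [DecidableEq ι] (c : O) (B : Finset ι) (f : Finset ι → O) :
    Dl B (fun e => c * f e) = c * Dl B f :=
  Dl_map (AddMonoidHom.mulLeft c) B f

theorem reflect_dig_congr {ι : Type} [DecidableEq ι] {j : ℕ} {B : Finset ι} {f g : Finset ι → O}
    (h : ∀ e, pi ^ (j + 1) ∣ f e - g e) : dig j (Dl B f) = dig j (Dl B g) :=
  dig_congr (by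
    rw [← Dl_sub]
    exact Dl_dvd fun e _ => h e)

/-- a nondegenerate cube of primes -/
structure CubeE (R : Rep T) (k : ℕ) where
  C : Finset P
  p : Bool → Fin k → P
  a : Bool → P
  x0 : W → F3
  w0 : W → Vb
  na : Vb
  S_sub : R.S ⊆ C
  p_inj : ∀ s s' i i', p s i = p s' i' → s = s' ∧ i = i'
  a_ne : a false ≠ a true
  p_ne_a : ∀ s s' i, p s i ≠ a s'
  p_notMem : ∀ s i, p s i ∉ C
  a_notMem : ∀ s, a s ∉ C
  x0_hom : T.IsHom x0
  x0_p : ∀ i, x0 (T.τ (p false i)) = 1
  x0_a : x0 (T.τ (a false)) = 1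
  x0_unr : ∀ v ∉ C, (∀ i, v ≠ p false i) → v ≠ a false → x0 (T.τ v) = 0
  w0_hom : T.IsHom w0
  w0_a : w0 (T.τ (a false)) = na
  w0_unr : ∀ v ∉ C, v ≠ a false → w0 (T.τ v) = 0
  β_C : ∀ i, ∀ v ∈ C, ∀ g ∈ T.D v, T.χ (p true i) g = T.χ (p false i) g
  β_a : ∀ i s, ∀ g ∈ T.D (a s), T.χ (p true i) g = T.χ (p false i) g
  β_p : ∀ i s j, j ≠ i → ∀ g ∈ T.D (p s j), T.χ (p true i) g = T.χ (p false i) g
  βa_C : ∀ v ∈ C, ∀ g ∈ T.D v, T.χ (a true) g = T.χ (a false) g
  βa_p : ∀ s j, ∀ g ∈ T.D (p s j), T.χ (a true) g = T.χ (a false) g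

namespace CubeE

variable {R : Rep T} {k : ℕ} (E : CubeE R k)

def β (i : Fin k) (g : W) : F3 := T.χ (E.p true i) g - T.χ (E.p false i) g

def βa (g : W) : F3 := T.χ (E.a true) g - T.χ (E.a false) g

/-- twist at a vertex -/
def x (s : Bool) (e : Finset (Fin k)) : W → F3 :=
  xe (fun g => E.x0 g + if s then E.βa g else 0) E.β e

/-- leading term on a side -/
def w (s : Bool) (g : W) : Vb := E.w0 g + if s then E.βa g • E.na else 0

/-- the places with a local condition at a vertex -/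
def A (s : Bool) (e : Finset (Fin k)) : Finset P :=
  insert (E.a s) (E.C ∪ Finset.univ.image fun i => E.p (decide (i ∈ e)) i)

/-- all places involved -/
def As : Finset P :=
  E.C ∪ Finset.univ.image E.a ∪ Finset.univ.image fun z : Bool × Fin k => E.p z.1 z.2

/-- the constant part of the reflection formula -/
def rhs (Φ : W → Vb) : F3 :=
  2 * ∑ v ∈ E.C, T.br v Φ E.w0 + hb (Φ (T.σ (E.a false)) + Φ (T.σ (E.a true))) E.na

/-- the hypotheses on a family over the cube -/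
structure Full (ψ : Bool → Finset (Fin k) → W → V) : Prop where
  admi : ∀ s e, R.Admi (E.A s e) E.As (E.x s e) k (ψ s e)
  lead : ∀ s e g, digV 0 (ψ s e g) = E.w s g
  other : ∀ s e, VD (k + 1) (ψ s e (T.τ (E.a (!s))))
  gr : ∀ s g, GrV Finset.univ fun e => ψ s e g
  own : ∀ s B, B.Nonempty → Th (ψ s) B (T.τ (E.a s)) = 0
  van : ∀ s s' i B, i ∉ B → ∀ g ∈ T.D (E.p s' i), Th (ψ s) B g = 0

theorem x_hom (s : Bool) (e : Finset (Fin k)) : T.IsHom (E.x s e) := by
  refine xe_hom ?_ (fun i => Tame.hom_sub (T.χ_hom _) (T.χ_hom _)) e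
  cases s
  · simpa using E.x0_hom
  · exact Tame.hom_add E.x0_hom (Tame.hom_sub (T.χ_hom (E.a true)) (T.χ_hom (E.a false)))

theorem S_sub_A (s : Bool) (e : Finset (Fin k)) : R.S ⊆ E.A s e := by
  intro v hv
  simp [A, E.S_sub hv]

theorem A_sub_As (s : Bool) (e : Finset (Fin k)) : E.A s e ⊆ E.As := by
  intro v hv
  simp only [A, As, Finset.mem_insert, Finset.mem_union, Finset.mem_image, Finset.mem_univ,
    true_and] at hv ⊢
  rcases hv with rfl | hv | ⟨i, rfl⟩
  · exact Or.inl (Or.inr ⟨s, rfl⟩)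
  · exact Or.inl (Or.inl hv)
  · exact Or.inr ⟨(_, i), rfl⟩

theorem reflect_chi (u : P) {v : P} (hv : v ∉ E.C) :
    T.χ u (T.τ v) = if v = u then 1 else 0 := by
  have h : v ≠ T.inf := fun h => hv (h ▸ E.S_sub R.inf_mem)
  split_ifs with h1
  · exact h1 ▸ T.χ_self v h
  · exact T.χ_ne u v h1 h

theorem reflect_x0 {v : P} (hv : v ∉ E.C) : E.x0 (T.τ v) =
    (if v = E.a false then 1 else 0) + ∑ i, if v = E.p false i then 1 else 0 := by
  by_cases h1 : v = E.a false
  · subst h1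
    rw [E.x0_a, if_pos rfl, Finset.sum_eq_zero fun i _ => if_neg (E.p_ne_a _ _ i).symm, add_zero]
  · by_cases h2 : ∃ i, v = E.p false i
    · obtain ⟨i, rfl⟩ := h2
      rw [E.x0_p, if_neg h1, zero_add, Finset.sum_eq_single i, if_pos rfl]
      · exact fun j _ hj => if_neg fun h => hj (E.p_inj _ _ _ _ h).2.symm
      · simp
    · push Not at h2
      rw [E.x0_unr v hv h2 h1, if_neg h1, zero_add]
      exact (Finset.sum_eq_zero fun i _ => if_neg (h2 i)).symm

theorem reflect_x (s : Bool) (e : Finset (Fin k)) {v : P} (hv : v ∉ E.C) : E.x s e (T.τ v) =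
    (if v = E.a s then 1 else 0) + ∑ i, if v = E.p (decide (i ∈ e)) i then 1 else 0 := by
  have h1 : ∑ i ∈ e, E.β i (T.τ v) = ∑ i, if i ∈ e then E.β i (T.τ v) else 0 := by simp
  have h2 : (∑ i, if v = E.p (decide (i ∈ e)) i then (1 : F3) else 0) =
      (∑ i, if v = E.p false i then 1 else 0) + ∑ i, if i ∈ e then E.β i (T.τ v) else 0 := by
    rw [← Finset.sum_add_distrib]
    refine Finset.sum_congr rfl fun i _ => ?_
    by_cases hi : i ∈ e <;> simp [hi, β, E.reflect_chi _ hv]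
  simp only [x, xe]
  rw [h1, h2, E.reflect_x0 hv]
  cases s
  · simp only [Bool.false_eq_true, if_false]
    ring
  · simp only [if_true, βa, E.reflect_chi _ hv]
    ring

theorem x_unr (s : Bool) (e : Finset (Fin k)) : ∀ v ∉ E.A s e, E.x s e (T.τ v) = 0 := by
  intro v hv
  simp only [A, Finset.mem_insert, Finset.mem_union, Finset.mem_image, Finset.mem_univ,
    true_and, not_or, not_exists] at hv
  rw [E.reflect_x s e hv.2.1, if_neg hv.1, zero_add]
  exact Finset.sum_eq_zero fun i _ => if_neg (Ne.symm (hv.2.2 i))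

theorem x_τ_a (s : Bool) (e : Finset (Fin k)) : E.x s e (T.τ (E.a s)) = 1 := by
  rw [E.reflect_x s e (E.a_notMem s), if_pos rfl,
    Finset.sum_eq_zero fun i _ => if_neg (E.p_ne_a _ _ i).symm, add_zero]

theorem x_τ_p (s : Bool) (e : Finset (Fin k)) (i : Fin k) :
    E.x s e (T.τ (E.p (decide (i ∈ e)) i)) = 1 := by
  rw [E.reflect_x s e (E.p_notMem _ i), if_neg (E.p_ne_a _ _ i), zero_add, Finset.sum_eq_single i,
    if_pos rfl]
  · exact fun j _ hj => if_neg fun h => hj (E.p_inj _ _ _ _ h).2.symm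
  · simp

theorem x_eq_C (s s' : Bool) (e e' : Finset (Fin k)) :
    ∀ v ∈ E.C, ∀ g ∈ T.D v, E.x s e g = E.x s' e' g := by
  intro v hv g hg
  simp [x, xe, β, βa, E.β_C _ v hv g hg, E.βa_C v hv g hg]

theorem x_eq_a (s s' : Bool) (e e' : Finset (Fin k)) :
    ∀ g ∈ T.D (E.a s'), E.x s e g = E.x s e' g := by
  intro g hg
  simp [x, xe, β, E.β_a _ s' g hg]

theorem x_eq_p (s s' s'' : Bool) (e e' : Finset (Fin k)) (i : Fin k) (h : i ∈ e ↔ i ∈ e') :
    ∀ g ∈ T.D (E.p s'' i), E.x s e g = E.x s' e' g := by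
  intro g hg
  have h1 : ∀ f : Finset (Fin k), ∑ j ∈ f, E.β j g = if i ∈ f then E.β i g else 0 := fun f => by
    rw [← Finset.sum_ite_eq' f i fun j => E.β j g]
    refine Finset.sum_congr rfl fun j _ => ?_
    split_ifs with hj
    · rfl
    · exact sub_eq_zero.2 (E.β_p j s'' i (Ne.symm hj) g hg)
  simp [x, xe, h1, h, βa, E.βa_p s'' i g hg]

theorem w_τ_a (s : Bool) : E.w s (T.τ (E.a s)) = E.na := by
  cases s
  · simp [w, E.w0_a]
  · simp [w, βa, E.w0_unr _ (E.a_notMem true) E.a_ne.symm, E.reflect_chi _ (E.a_notMem true),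
      E.a_ne.symm]

section main

variable {E} {ψ : Bool → Finset (Fin k) → W → V}

/-- the cup product at a vertex -/
def reflectA (E : CubeE R k) (ψ : Bool → Finset (Fin k) → W → V) (e : Finset (Fin k)) :
    W → W → O := R.cup (E.x false e) (ψ true e) (ψ false e)

/-- the leading digit of its alternating sum -/
def reflectT (E : CubeE R k) (ψ : Bool → Finset (Fin k) → W → V) (g g' : W) : F3 :=
  dig k (Dl Finset.univ fun e => E.reflectA ψ e g g')

theorem reflect_card : (Finset.univ : Finset (Fin k)).card = k := Finset.card_fin k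

theorem reflect_act (e : Finset (Fin k)) (g : W) (t : V) :
    R.act (E.x true e) g t = zp (E.βa g) • R.act (E.x false e) g t := by
  rw [← Rep.act_add_char]
  refine Rep.act_congr ?_ t
  simp only [x, xe, Pi.add_apply, if_true, Bool.false_eq_true, if_false]
  ring

theorem Full.reflect_gr (h : E.Full ψ) (g g' : W) :
    GrV Finset.univ fun e => R.act (E.x false e) g (ψ false e g') :=
  Rep.grV_act (h.gr false g') g

theorem Full.reflect_dvd (h : E.Full ψ) (g g' : W) :
    pi ^ k ∣ Dl Finset.univ fun e => E.reflectA ψ e g g' := by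
  have := gr_hh (h.gr true g) (h.reflect_gr g g') _ subset_rfl
  rwa [reflect_card] at this

theorem Full.reflect_coc (h : E.Full ψ) : IsCoc2 (E.reflectT ψ) := by
  intro g g' g''
  have key : ∀ e, pi ^ (k + 1) ∣ (zp (E.βa g) * T.cq g) * E.reflectA ψ e g' g'' -
      E.reflectA ψ e (g * g') g'' + E.reflectA ψ e g (g' * g'') - E.reflectA ψ e g g' := by
    intro e
    have h1 := reflect_dvd_left ((h.admi true e).1.2 g g')
      (R.act (E.x false e) (g * g') (ψ false e g''))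
    have h2 := reflect_dvd_right (ψ true e g) (Rep.act_VD (R := R) (x := E.x false e)
      ((h.admi false e).1.2 g' g'') g)
    refine (congrArg _ ?_).mp (h1.sub h2)
    simp only [reflectA, Rep.cup, reflect_act, reflect_hh_add_left, reflect_hh_sub_left,
      reflect_hh_smul_left, reflect_hh_add_right, reflect_hh_sub_right, Rep.act_add, Rep.act_sub,
      Rep.act_mul (E.x_hom false e), Rep.hh_act]
    ring
  have h1 := dig_of_dvd (Dl_dvd (B := Finset.univ) fun e _ => key e)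
  have d1 := (h.reflect_dvd g' g'').mul_left (zp (E.βa g) * T.cq g)
  rw [Dl_sub, Dl_add, Dl_sub, reflect_Dl_mul,
    dig_sub ((d1.sub (h.reflect_dvd _ _)).add (h.reflect_dvd _ _)) (h.reflect_dvd _ _),
    dig_add (d1.sub (h.reflect_dvd _ _)) (h.reflect_dvd _ _), dig_sub d1 (h.reflect_dvd _ _),
    dig_mul_left _ (h.reflect_dvd _ _), map_mul, res_zp, Tame.res_cq, one_mul, one_mul] at h1
  exact h1

theorem Full.reflect_sm (h : E.Full ψ) : T.Sm2 (E.reflectT ψ) := by
  obtain ⟨U, hU, hp⟩ := Tame.exists_adm_le (T := T) (Finset.univ : Finset (Bool × Finset (Fin k)))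
    (fun z U => (∀ g, ∀ u ∈ U, VD (k + 1) (ψ z.1 z.2 (g * u) - ψ z.1 z.2 g)) ∧
      ∀ u ∈ U, ∀ t, VD (k + 1) (R.act (E.x z.1 z.2) u t - t))
    (fun z U U' hz hU => ⟨fun g u hu => hz.1 g u (hU hu), fun u hu => hz.2 u (hU hu)⟩)
    (fun z _ => by
      obtain ⟨U1, a1, b1⟩ := (h.admi z.1 z.2).1.1
      obtain ⟨U2, a2, b2⟩ := Rep.act_sm (R := R) (E.x_hom z.1 z.2) (k + 1)
      exact ⟨U1 ⊓ U2, T.adm_inf _ _ a1 a2, fun g u hu => b1 g u hu.1, fun u hu => b2 u hu.2⟩)
  refine ⟨U, hU, fun g g' u hu u' hu' => reflect_dig_congr fun e => ?_⟩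
  have h1 := reflect_dvd_left ((hp (true, e) (Finset.mem_univ _)).1 g u hu)
    (R.act (E.x false e) (g * u) (ψ false e (g' * u')))
  have h2 := reflect_dvd_right (ψ true e g) (Rep.act_VD (R := R) (x := E.x false e)
    (((hp (false, e) (Finset.mem_univ _)).2 u hu (ψ false e (g' * u'))).add
      ((hp (false, e) (Finset.mem_univ _)).1 g' u' hu')) g)
  refine (congrArg _ ?_).mp (h1.add h2)
  simp only [reflectA, Rep.cup, reflect_hh_sub_left, reflect_hh_add_right, reflect_hh_sub_right,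
    Rep.act_add, Rep.act_sub, Rep.act_mul (E.x_hom false e)]
  ring

theorem Full.reflect_inv (h : E.Full ψ) (v : P) : T.inv v (E.reflectT ψ) =
    dig k (Dl Finset.univ fun e => T.inv v (E.reflectA ψ e)) := by
  rw [← reflect_inv_Dl]
  exact Tame.inv_dig v fun g _ g' _ => h.reflect_dvd g g'

theorem Full.reflect_left (h : E.Full ψ) {v : P} {e : Finset (Fin k)}
    (h1 : VD (k + 1) (ψ true e (T.τ v))) : pi ^ (k + 1) ∣ T.inv v (E.reflectA ψ e) -
      hh (ψ true e (T.σ v)) (R.act (E.x false e) (T.σ v) (ψ false e (T.τ v))) := by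
  have h2 : ∀ n g, pi ^ (k + 1) ∣ E.reflectA ψ e (T.τ v ^ n) g := fun n g =>
    reflect_dvd_left ((h.admi true e).1.pow_unr (E.x_hom true e) h1 n) _
  refine (congrArg _ ?_).mp ((h2 (T.Q v) (T.σ v)).add
    (Finset.dvd_sum (s := Finset.Ico 1 (T.Q v)) fun i _ => h2 i (T.τ v))).neg_right
  simp only [Pre.inv, reflectA, Rep.cup]
  ring

theorem reflect_right {v : P} {e : Finset (Fin k)}
    (h1 : VD (k + 1) (ψ false e (T.τ v))) : pi ^ (k + 1) ∣ T.inv v (E.reflectA ψ e) -
      -hh (ψ true e (T.τ v ^ T.Q v)) (R.act (E.x false e) (T.τ v ^ T.Q v) (ψ false e (T.σ v))) := by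
  have h2 : ∀ g, pi ^ (k + 1) ∣ E.reflectA ψ e g (T.τ v) := fun g =>
    reflect_dvd_right _ (Rep.act_VD h1 g)
  refine (congrArg _ ?_).mp ((h2 (T.σ v)).sub
    (Finset.dvd_sum (s := Finset.Ico 1 (T.Q v)) fun i _ => h2 (T.τ v ^ i)))
  simp only [Pre.inv, reflectA, Rep.cup]
  ring

theorem Full.reflect_out (h : E.Full ψ) {v : P} (hv : v ∉ E.As) : T.inv v (E.reflectT ψ) = 0 := by
  rw [h.reflect_inv]
  refine dig_of_dvd (Dl_dvd fun e _ => ?_)
  have h1 := h.reflect_left ((h.admi true e).2.2 v hv)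
  have h2 := reflect_dvd_right (ψ true e (T.σ v)) (Rep.act_VD (R := R) (x := E.x false e)
    ((h.admi false e).2.2 v hv) (T.σ v))
  simpa using h1.add h2

theorem Full.reflect_empty (h : E.Full ψ) (s : Bool) (g : W) : Th (ψ s) ∅ g = E.w s g := by
  rw [Th, Dl_empty, Finset.card_empty, h.lead]

theorem Full.reflect_fv (hk : 1 ≤ k) (h : E.Full ψ) (s : Bool) {v : P} (hv : ∀ e, v ∈ E.A s e)
    (hx : ∀ e, ∀ g ∈ T.D v, E.x s e g = E.x s ∅ g) :
    Dl Finset.univ (fun e => R.fv (E.A s e) (E.x s e) k (ψ s e) v) =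
      T.br v (Th (ψ s) Finset.univ) (E.w s) := by
  rw [Dl_eq_sum_res, Rep.fv_sum hk _ _ (E.A s) (E.x s) (ψ s) (E.x_hom s ∅)
    (fun e _ => E.x_hom s e) (fun e _ => hv e) (fun e _ => hx e)
    (fun e _ => (h.admi s e).2.1.2.1 v (hv e)) (E.w s) (fun e _ g _ => h.lead s e g)]
  · congr 1
    funext g
    rw [Th, Dl_eq_sum_smul, reflect_card]
  · intro g _
    have := h.gr s g _ subset_rfl
    rwa [Dl_eq_sum_smul, reflect_card] at this

/-- the local term of the reflection formula -/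
def reflectG (E : CubeE R k) (ψ : Bool → Finset (Fin k) → W → V) (v : P) : F3 :=
  Dl Finset.univ (fun e => R.fv (E.A true e) (E.x true e) k (ψ true e) v) -
    Dl Finset.univ (fun e => R.fv (E.A false e) (E.x false e) k (ψ false e) v) +
    T.inv v (E.reflectT ψ)

theorem Full.reflect_C (hk : 1 ≤ k) (hk2 : Even k) (h : E.Full ψ) {v : P} (hv : v ∈ E.C) :
    E.reflectG ψ v =
      2 * T.br v (fun g => Th (ψ true) Finset.univ g - Th (ψ false) Finset.univ g) E.w0 := by
  have hA : ∀ s e, v ∈ E.A s e := fun s e => by simp [A, hv]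
  have hw : ∀ s, ∀ g ∈ T.D v, E.w s g = E.w0 g := fun s g hg => by
    simp [w, βa, E.βa_C v hv g hg]
  have key := fun e => Rep.inv_cup_common hk hk2 (E.x_hom false e) (E.x_hom true e) (hA false e)
    (hA true e) (E.x_eq_C true false e e v hv) (h.admi false e).1 (h.admi true e).1
    ((h.admi false e).2.1.2.1 v (hA false e)) ((h.admi true e).2.1.2.1 v (hA true e))
    (fun g hg => by rw [h.lead, h.lead, hw _ g hg, hw _ g hg])
  have h1 : T.inv v (E.reflectT ψ) =
      Dl Finset.univ (fun e => R.fv (E.A true e) (E.x true e) k (ψ true e) v) -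
        Dl Finset.univ (fun e => R.fv (E.A false e) (E.x false e) k (ψ false e) v) := by
    rw [h.reflect_inv, ← Dl_sub]
    exact (dig_Dl fun e _ => (key e).1).trans (Dl_congr fun e _ => (key e).2)
  rw [reflectG, h1, ← two_mul, h.reflect_fv hk true (hA true) fun e => E.x_eq_C _ _ _ _ v hv,
    h.reflect_fv hk false (hA false) fun e => E.x_eq_C _ _ _ _ v hv]
  simp only [Tame.br, hw _ _ (Tame.σ_mem v), hw _ _ (Tame.τ_mem v), reflect_hb_sub]
  ring

theorem Full.reflect_leib (h : E.Full ψ) (g0 g g' : W) :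
    dig k (Dl Finset.univ fun e => hh (ψ true e g0) (R.act (E.x false e) g (ψ false e g'))) =
      ∑ C ∈ Finset.univ.powerset, (-1) ^ (Finset.univ \ C).card * hb (Th (ψ true) C g0)
        (uop E.β g (fun B => Th (ψ false) B g') (Finset.univ \ C)) := by
  have := leibniz_hh (h.gr true g0) (h.reflect_gr g g')
  rw [reflect_card] at this
  rw [this]
  refine Finset.sum_congr rfl fun C _ => ?_
  congr 2
  exact Rep.digV_Dl_act (fun B _ => h.gr false g' B (Finset.subset_univ _)) g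

theorem Full.reflect_p (h : E.Full ψ) (s : Bool) (i : Fin k) : E.reflectG ψ (E.p s i) = 0 := by
  have h0 : ∀ s' e, ∀ g ∈ T.D (E.p s i), VD 1 (ψ s' e g) := fun s' e g hg => by
    rw [← digV_eq_zero_iff (VD.triv _), h.lead, ← h.reflect_empty]
    exact h.van s' s i ∅ (by simp) g hg
  have h1 : ∀ s', Dl Finset.univ
      (fun e => R.fv (E.A s' e) (E.x s' e) k (ψ s' e) (E.p s i)) = 0 := fun s' => by
    simp only [Rep.fv_zero (h0 s' _ _ (Tame.σ_mem _)) (h0 s' _ _ (Tame.τ_mem _))]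
    simp [Dl]
  have h2 : T.inv (E.p s i) (E.reflectT ψ) = T.inv (E.p s i) fun _ _ => 0 := by
    refine Tame.inv_congr _ fun g hg g' hg' => (h.reflect_leib g g g').trans ?_
    refine Finset.sum_eq_zero fun C _ => ?_
    by_cases hi : i ∈ C
    · rw [uop, Finset.sum_eq_zero, reflect_hb_zero_right, mul_zero]
      intro B _
      rw [h.van false s i _ (by simp [hi]) g' hg', smul_zero]
    · rw [h.van true s i C hi g hg, reflect_hb_zero_left, mul_zero]
  rw [reflectG, h1, h1, h2]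
  simp [Pre.inv]

theorem reflect_notMem (s : Bool) (e : Finset (Fin k)) : E.a (!s) ∉ E.A s e := by
  simp only [A, Finset.mem_insert, Finset.mem_union, Finset.mem_image, Finset.mem_univ,
    true_and, not_or, not_exists]
  refine ⟨?_, E.a_notMem _, fun i => E.p_ne_a _ _ i⟩
  cases s
  · exact E.a_ne.symm
  · exact E.a_ne

theorem Full.reflect_own (hk : 1 ≤ k) (h : E.Full ψ) (s : Bool) :
    Dl Finset.univ (fun e => R.fv (E.A s e) (E.x s e) k (ψ s e) (E.a s)) =
      hb (Th (ψ s) Finset.univ (T.σ (E.a s))) E.na := by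
  have : Nonempty (Fin k) := ⟨⟨0, hk⟩⟩
  rw [h.reflect_fv hk s (fun e => by simp [A]) fun e => E.x_eq_a s s e ∅, Tame.br, w_τ_a,
    h.own s _ Finset.univ_nonempty, reflect_hb_zero_left, sub_zero]

theorem Full.reflect_other (h : E.Full ψ) (s : Bool) :
    Dl Finset.univ (fun e => R.fv (E.A s e) (E.x s e) k (ψ s e) (E.a (!s))) = 0 := by
  simp only [Rep.fv_unr (reflect_notMem s _) (h.other s _)]
  simp [Dl]

theorem Full.reflect_a0 (hk : 1 ≤ k) (h : E.Full ψ) : E.reflectG ψ (E.a false) =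
    hb (Th (ψ true) Finset.univ (T.σ (E.a false)) - Th (ψ false) Finset.univ (T.σ (E.a false)))
      E.na := by
  have h1 : T.inv (E.a false) (E.reflectT ψ) =
      hb (Th (ψ true) Finset.univ (T.σ (E.a false))) E.na := by
    rw [h.reflect_inv, reflect_dig_congr fun e => h.reflect_left (v := E.a false) (h.other true e),
      h.reflect_leib, Finset.sum_eq_single Finset.univ]
    · rw [uop_of_zero (by simp), Finset.sdiff_self, h.reflect_empty, w_τ_a]
      simp
    · intro C _ hC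
      rw [uop_of_zero (β := E.β) fun i _ => sub_eq_zero.2 (E.β_a i false _ (Tame.σ_mem _)),
        h.own false _ (Finset.sdiff_nonempty.2 fun h => hC (Finset.univ_subset_iff.1 h)),
        reflect_hb_zero_right, mul_zero]
    · simp
  have h2 := h.reflect_other true
  rw [Bool.not_true] at h2
  rw [reflectG, h1, h2, h.reflect_own hk, reflect_hb_sub]
  ring

theorem Full.reflect_a1 (hk : 1 ≤ k) (hk2 : Even k) (h : E.Full ψ) : E.reflectG ψ (E.a true) =
    hb (Th (ψ true) Finset.univ (T.σ (E.a true)) - Th (ψ false) Finset.univ (T.σ (E.a true)))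
      E.na := by
  have hS : E.a true ∉ R.S := fun h => E.a_notMem _ (E.S_sub h)
  have hact : ∀ e n t, R.act (E.x false e) (T.τ (E.a true) ^ n) t = t := fun e n t => by
    induction n with
    | zero => rw [pow_zero, Rep.act_one (E.x_hom _ _)]
    | succ n ih =>
      rw [pow_succ, Rep.act_mul (E.x_hom _ _),
        Rep.act_unr hS (E.x_unr false e _ (reflect_notMem false e)), ih]
  have key : ∀ e, pi ^ (k + 1) ∣ T.inv (E.a true) (E.reflectA ψ e) -
      -1 * hh (ψ true e (T.τ (E.a true))) (ψ false e (T.σ (E.a true))) := fun e => by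
    have h1 := reflect_right (E := E) (h.other false e)
    have h2 := reflect_dvd_left ((h.admi true e).1.pow_Q (E.x_hom true e) hS (E.x_τ_a true e))
      (ψ false e (T.σ (E.a true)))
    rw [Bool.not_false, hact] at h1
    refine (congrArg _ ?_).mp (h1.sub h2)
    rw [reflect_hh_sub_left]
    ring
  have h1 : T.inv (E.a true) (E.reflectT ψ) =
      -hb (Th (ψ false) Finset.univ (T.σ (E.a true))) E.na := by
    have d := gr_hh (h.gr true (T.τ (E.a true))) (h.gr false (T.σ (E.a true))) _ subset_rfl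
    have l := leibniz_hh (h.gr true (T.τ (E.a true))) (h.gr false (T.σ (E.a true)))
    rw [reflect_card] at d l
    rw [h.reflect_inv, reflect_dig_congr key, reflect_Dl_mul, neg_one_mul, dig_neg d, l,
      Finset.sum_eq_single ∅]
    · rw [Finset.sdiff_empty, reflect_card, hk2.neg_one_pow, one_mul, hb_comm]
      congr 2
      · rw [Th, reflect_card]
      · exact (h.reflect_empty true _).trans (E.w_τ_a true)
    · intro C _ hC
      have := h.own true C (Finset.nonempty_iff_ne_empty.2 hC)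
      rw [Th] at this
      rw [this, reflect_hb_zero_left, mul_zero]
    · simp
  have h2 := h.reflect_other false
  rw [Bool.not_false] at h2
  rw [reflectG, h1, h2, h.reflect_own hk, reflect_hb_sub]
  ring

end main

theorem reflect (hk : 1 ≤ k) (hk2 : Even k) {ψ : Bool → Finset (Fin k) → W → V} (h : E.Full ψ) :
    Dl Finset.univ (fun e => ∑ v ∈ E.As, R.fv (E.A true e) (E.x true e) k (ψ true e) v) -
      Dl Finset.univ (fun e => ∑ v ∈ E.As, R.fv (E.A false e) (E.x false e) k (ψ false e) v) =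
    E.rhs fun g => Th (ψ true) Finset.univ g - Th (ψ false) Finset.univ g := by
  have h0 := T.recip _ h.reflect_sm h.reflect_coc E.As fun v hv => h.reflect_out hv
  have h1 : ∑ v ∈ E.C ∪ Finset.univ.image E.a, E.reflectG ψ v = ∑ v ∈ E.As, E.reflectG ψ v := by
    refine Finset.sum_subset Finset.subset_union_left fun v hv hv' => ?_
    obtain ⟨z, -, rfl⟩ := Finset.mem_image.1 ((Finset.mem_union.1 hv).resolve_left hv')
    exact h.reflect_p _ _
  have hd : Disjoint E.C (Finset.univ.image E.a) := by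
    rw [Finset.disjoint_right]
    intro v hv
    obtain ⟨s, -, rfl⟩ := Finset.mem_image.1 hv
    exact E.a_notMem s
  have hi : Function.Injective E.a := by
    intro s s' hs
    cases s <;> cases s'
    · rfl
    · exact absurd hs E.a_ne
    · exact absurd hs.symm E.a_ne
    · rfl
  rw [Finset.sum_union hd, Finset.sum_image hi.injOn, Fintype.sum_bool, h.reflect_a0 hk,
    h.reflect_a1 hk hk2, Finset.sum_congr rfl fun v hv => h.reflect_C hk hk2 hv] at h1
  simp only [reflectG, Finset.sum_add_distrib, h0, add_zero, Finset.sum_sub_distrib] at h1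
  rw [Dl_sum, Dl_sum, ← h1, rhs, reflect_hb_add, Finset.mul_sum]
  ring

end CubeE

end

end Pool.Agent.Smith
end

-- merged part: Pool.Agent.Work.MP_60d5ce_nt.Sm.Complete
section
/-!
# Completing a cube  (task SM Complete)

Define `top g = pi ^ k • lftV (Φs g) + Dl univ (ψ false · g) - ∑ e ≠ univ, ± ψ true e g` and let
`ψ'` be `ψ` with the vertex `(true, univ)` replaced by `top`, so that
`Dl univ (ψ' true · g) = pi ^ k • lftV (Φs g) + Dl univ (ψ false · g)` (`Dl_top`).  Show `E.Full ψ'`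
with `Th (ψ' true) univ - Th (ψ false) univ = Φs`, then use `reflect` and `vanish`.
* cocycle modulo `pi ^ (k + 1)`: the defect of `top` is congruent to `Dl univ` of the defects; its
  leading digit is given by `defect`, and vanishes by `rel` and `urel_of_coc` for the side `false`.
* local conditions modulo `pi ^ k`: at `v ∈ C` and `v = a true`, `top ≡ -∑ e ≠ univ, ± ψ true e`
  (`LocOK.sum`, `LocOK.twist`).  At `v = p s i`: `Dl univ = Dl (univ.erase i) (shifted) -
  Dl (univ.erase i)` (`Dl_insert`), and the last term vanishes modulo `pi ^ k` on `D v` by `van`, so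
  `top ≡ -∑ e ∋ i, e ≠ univ, ± ψ true e` on `D v`; these vertices carry the local condition at
  `p true i` for the same twist and are unramified at `p false i`.
* the leading term of `top` is `w true` because `Dl univ` of a constant vanishes.
* for the old vertices `fv` vanishes outside `A s e` (`fv_unr`).
-/

namespace Pool.Agent.Smith

open scoped Classical

noncomputable section

variable {W P : Type} [Group W] {T : Tame W P}

section aux

variable {ι : Type} [DecidableEq ι]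

theorem complete_top_eq (B : Finset ι) (f : Finset ι → V) :
    f B = Dl B f + ∑ e ∈ B.powerset.erase B, (-(-1 : O) ^ (B \ e).card) • f e := by
  rw [Dl_eq_sum_smul, ← Finset.add_sum_erase _ _ (Finset.mem_powerset_self B), add_assoc,
    ← Finset.sum_add_distrib]
  simp

theorem complete_ssub {B e : Finset ι} (he : e ∈ B.powerset.erase B) : e ⊂ B :=
  Finset.ssubset_iff_subset_ne.2
    ⟨Finset.mem_powerset.1 (Finset.mem_of_mem_erase he), Finset.ne_of_mem_erase he⟩

theorem complete_VD_top {j : ℕ} {B : Finset ι} {f : Finset ι → V} (h : VD j (Dl B f))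
    (h' : ∀ e ⊂ B, VD j (f e)) : VD j (f B) := by
  rw [complete_top_eq B f]
  exact h.add (VD.sum _ fun e he => (h' e (complete_ssub he)).smul _)

theorem complete_locOK_top {R : Rep T} {x : W → F3} {v : P} {j : ℕ} {B : Finset ι}
    {f : Finset ι → W → V} (h : ∀ g ∈ T.D v, VD j (Dl B fun e => f e g))
    (h' : ∀ e ⊂ B, R.LocOK x j (f e) v) : R.LocOK x j (f B) v := by
  refine (Rep.LocOK.sum (B.powerset.erase B) (fun e => -(-1 : O) ^ (B \ e).card)
    fun e he => h' e (complete_ssub he)).congr fun g hg => ?_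
  have h1 := complete_top_eq B fun e => f e g
  have h2 : (∑ e ∈ B.powerset.erase B, (-(-1 : O) ^ (B \ e).card) • f e g) - f B g =
      -Dl B fun e => f e g := by
    rw [h1]; abel
  rw [h2]
  exact (h g hg).neg

theorem complete_digV_of_VD {j : ℕ} {a : V} (h : VD (j + 1) a) : digV j a = 0 :=
  (digV_eq_zero_iff (h.mono (Nat.le_succ j))).2 h

theorem complete_lftV_zero : lftV 0 = 0 := funext fun _ => lft_zero

end aux

namespace CubeE

variable {R : Rep T} {k : ℕ} (E : CubeE R k)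

/-- the hypotheses on a family over the cube without its top vertex, and on the function `Φs`
completing the governing family -/
structure Star (ψ : Bool → Finset (Fin k) → W → V) (Φs : W → Vb) : Prop where
  admi : ∀ s e, (s = true → e ≠ Finset.univ) → R.Admi (E.A s e) (E.A s e) (E.x s e) k (ψ s e)
  lead : ∀ s e, (s = true → e ≠ Finset.univ) → ∀ g, digV 0 (ψ s e g) = E.w s g
  gr : ∀ s B, (s = true → B ≠ Finset.univ) → ∀ g, VD B.card (Dl B fun e => ψ s e g)
  own : ∀ s B, (s = true → B ≠ Finset.univ) → B.Nonempty → Th (ψ s) B (T.τ (E.a s)) = 0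
  van : ∀ s s' i B, i ∉ B → ∀ g ∈ T.D (E.p s' i), Th (ψ s) B g = 0
  sm : T.Sm Φs
  rel : URel E.β Finset.univ fun B g =>
    if B = Finset.univ then Φs g else Th (ψ true) B g - Th (ψ false) B g
  unr : ∀ v ∉ E.As, Φs (T.τ v) = 0
  unr_a : ∀ s, Φs (T.τ (E.a s)) = 0

/-- the value of the diagonal pairing at a vertex -/
def Fv (ψ : Bool → Finset (Fin k) → W → V) (s : Bool) (e : Finset (Fin k)) : F3 :=
  ∑ v ∈ E.A s e, R.fv (E.A s e) (E.x s e) k (ψ s e) v

/-- the new top vertex -/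
def top (_E : CubeE R k) (ψ : Bool → Finset (Fin k) → W → V) (Φs : W → Vb) (g : W) : V :=
  pi ^ k • lftV (Φs g) + Dl Finset.univ (fun e => ψ false e g) +
    ∑ e ∈ (Finset.univ : Finset (Fin k)).powerset.erase Finset.univ,
      (-(-1 : O) ^ (Finset.univ \ e).card) • ψ true e g

/-- the completed family -/
def cpl (ψ : Bool → Finset (Fin k) → W → V) (Φs : W → Vb) (s : Bool) (e : Finset (Fin k)) : W → V :=
  if s = true ∧ e = Finset.univ then E.top ψ Φs else ψ s e

section cpl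

variable {E} {ψ : Bool → Finset (Fin k) → W → V} {Φs : W → Vb}

theorem cpl_old {s : Bool} {e : Finset (Fin k)} (h : s = true → e ≠ Finset.univ) :
    E.cpl ψ Φs s e = ψ s e := if_neg fun h' => h h'.1 h'.2

theorem cpl_false : E.cpl ψ Φs false = ψ false := funext fun _ => cpl_old (by simp)

theorem cpl_top : E.cpl ψ Φs true Finset.univ = E.top ψ Φs := if_pos ⟨rfl, rfl⟩

theorem complete_ne_univ {e B : Finset (Fin k)} (he : e ⊆ B) (hB : B ≠ Finset.univ) :
    e ≠ Finset.univ := fun h => hB (Finset.univ_subset_iff.1 (h ▸ he))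

theorem Dl_cpl_old {s : Bool} {B : Finset (Fin k)} (h : s = true → B ≠ Finset.univ) (g : W) :
    Dl B (fun e => E.cpl ψ Φs s e g) = Dl B fun e => ψ s e g :=
  Dl_congr fun e he => by rw [cpl_old fun hs => complete_ne_univ he (h hs)]

theorem Th_cpl_old {s : Bool} {B : Finset (Fin k)} (h : s = true → B ≠ Finset.univ) (g : W) :
    Th (E.cpl ψ Φs s) B g = Th (ψ s) B g := by
  unfold Th
  rw [Dl_cpl_old h]

theorem Dl_cpl_top (g : W) : Dl Finset.univ (fun e => E.cpl ψ Φs true e g) =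
    pi ^ k • lftV (Φs g) + Dl Finset.univ fun e => ψ false e g := by
  have h1 := complete_top_eq Finset.univ fun e => E.cpl ψ Φs true e g
  have h2 : ∑ e ∈ (Finset.univ : Finset (Fin k)).powerset.erase Finset.univ,
      (-(-1 : O) ^ (Finset.univ \ e).card) • E.cpl ψ Φs true e g =
      ∑ e ∈ (Finset.univ : Finset (Fin k)).powerset.erase Finset.univ,
      (-(-1 : O) ^ (Finset.univ \ e).card) • ψ true e g :=
    Finset.sum_congr rfl fun e he => by rw [cpl_old fun _ => Finset.ne_of_mem_erase he]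
  rw [h2, cpl_top, top] at h1
  exact (add_right_cancel h1).symm

theorem complete_mem_A {s : Bool} {e : Finset (Fin k)} {v : P} :
    v ∈ E.A s e ↔ v = E.a s ∨ v ∈ E.C ∨ ∃ i, E.p (decide (i ∈ e)) i = v := by
  simp [A]

theorem complete_a_notMem (s : Bool) (e : Finset (Fin k)) : E.a (!s) ∉ E.A s e := by
  rw [complete_mem_A]
  rintro (h | h | ⟨i, h⟩)
  · cases s
    · exact E.a_ne h.symm
    · exact E.a_ne h
  · exact E.a_notMem _ h
  · exact E.p_ne_a _ _ _ h

theorem complete_card : (Finset.univ : Finset (Fin k)).card = k := by simp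

theorem Star.gr_false (h : E.Star ψ Φs) (g : W) : VD k (Dl Finset.univ fun e => ψ false e g) := by
  have := h.gr false Finset.univ (by simp) g
  rwa [complete_card] at this

theorem Star.VD_top (h : E.Star ψ Φs) (g : W) :
    VD k (Dl Finset.univ fun e => E.cpl ψ Φs true e g) := by
  rw [Dl_cpl_top]
  exact (VD_pow_smul _ _).add (h.gr_false g)

theorem Star.grV (h : E.Star ψ Φs) (s : Bool) (g : W) :
    GrV Finset.univ fun e => E.cpl ψ Φs s e g := by
  intro B _
  by_cases hB : s = true → B ≠ Finset.univ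
  · rw [Dl_cpl_old hB]
    exact h.gr s B hB g
  · push Not at hB
    obtain ⟨rfl, rfl⟩ := hB
    rw [complete_card]
    exact h.VD_top g

theorem Star.Th_top (h : E.Star ψ Φs) (g : W) :
    Th (E.cpl ψ Φs true) Finset.univ g = Φs g + Th (ψ false) Finset.univ g := by
  unfold Th
  rw [Dl_cpl_top, complete_card, digV_add (VD_pow_smul _ _) (h.gr_false g), digV_pow_smul,
    digV_lftV]

theorem Star.lead_top (hk : 1 ≤ k) (h : E.Star ψ Φs) (g : W) :
    digV 0 (E.top ψ Φs g) = E.w true g := by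
  have hne : (Finset.univ : Finset (Fin k)).Nonempty := ⟨⟨0, hk⟩, Finset.mem_univ _⟩
  have h1 : VD 1 ((fun e => E.cpl ψ Φs true e g - lftV (E.w true g)) Finset.univ) := by
    refine complete_VD_top (f := fun e => E.cpl ψ Φs true e g - lftV (E.w true g)) ?_
      fun e he => ?_
    · rw [Dl_sub, Dl_const hne, sub_zero]
      exact (h.VD_top g).mono hk
    · have h2 := VD_sub_lftV (VD.triv (ψ true e g))
      rw [h.lead true e (fun _ => he.ne) g, pow_zero, one_smul] at h2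
      rw [cpl_old fun _ => he.ne]
      exact h2
  simp only [cpl_top] at h1
  rw [digV_congr (j := 0) h1, digV_lftV]

theorem Star.urel (h : E.Star ψ Φs) (g g' : W) :
    Th (E.cpl ψ Φs true) Finset.univ (g * g') = Th (E.cpl ψ Φs true) Finset.univ g +
      uop E.β g (fun C => Th (E.cpl ψ Φs true) C g') Finset.univ := by
  have h1 : URel E.β Finset.univ (Th (ψ false)) :=
    Rep.urel_of_coc (R := R) (x0 := fun g => E.x0 g + if false then E.βa g else 0) (j := k + 1)
      (by rw [complete_card]; exact Nat.lt_succ_self k)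
      (fun g B _ => h.gr false B (by simp) g) fun e _ => (h.admi false e (by simp)).1
  have h2 := h1 Finset.univ subset_rfl g g'
  have h3 := h.rel Finset.univ subset_rfl g g'
  have h4 : (fun C => if C = Finset.univ then Φs g' else Th (ψ true) C g' - Th (ψ false) C g') =
      fun C => Th (E.cpl ψ Φs true) C g' - Th (ψ false) C g' := by
    funext C
    split_ifs with hC
    · rw [hC, h.Th_top, add_sub_cancel_right]
    · rw [Th_cpl_old fun _ => hC]
  simp only [if_true] at h3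
  rw [h4, uop_sub] at h3
  rw [h.Th_top, h.Th_top, h2, h3]
  abel

theorem Star.coc_top (h : E.Star ψ Φs) : R.Coc (E.x true Finset.univ) (k + 1) (E.top ψ Φs) := by
  constructor
  · obtain ⟨U, hU, hU'⟩ := h.sm
    obtain ⟨U', hV, hV'⟩ := Tame.exists_adm_le (T := T)
      (Finset.univ.filter fun z : Bool × Finset (Fin k) => z.1 = true → z.2 ≠ Finset.univ)
      (fun z U => ∀ g, ∀ u ∈ U, VD (k + 1) (ψ z.1 z.2 (g * u) - ψ z.1 z.2 g))
      (fun _ _ _ h1 h2 g u hu => h1 g u (h2 hu))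
      fun z hz => (h.admi z.1 z.2 (Finset.mem_filter.1 hz).2).1.1
    refine ⟨U ⊓ U', T.adm_inf _ _ hU hV, fun g u hu => ?_⟩
    have h1 : VD (k + 1)
        ((fun e => E.cpl ψ Φs true e (g * u) - E.cpl ψ Φs true e g) Finset.univ) := by
      refine complete_VD_top (f := fun e => E.cpl ψ Φs true e (g * u) - E.cpl ψ Φs true e g) ?_
        fun e he => ?_
      · rw [Dl_sub, Dl_cpl_top, Dl_cpl_top, hU' g u hu.1, add_sub_add_left_eq_sub, ← Dl_sub]
        exact Dl_VD fun e _ => hV' (false, e) (by simp) g u hu.2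
      · rw [cpl_old fun _ => he.ne]
        exact hV' (true, e) (by simpa using he.ne) g u hu.2
    simpa only [cpl_top] using h1
  · intro g g'
    obtain ⟨h1, h2⟩ := Rep.defect (R := R) (x0 := fun g => E.x0 g + if true then E.βa g else 0)
      (β := E.β) (h.grV true) g g'
    rw [h.urel, sub_self, digV_eq_zero_iff h1, complete_card] at h2
    have h3 := complete_VD_top h2 fun e he => by
      rw [cpl_old fun _ => he.ne]
      exact (h.admi true e fun _ => he.ne).1.2 g g'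
    rw [← cpl_top]
    exact h3

theorem complete_insert_ne {i : Fin k} {e : Finset (Fin k)} (he : e ⊂ Finset.univ.erase i) :
    insert i e ≠ Finset.univ := by
  intro h
  refine he.ne ?_
  rw [← h, Finset.erase_insert fun hi => Finset.notMem_erase i _ (he.subset hi)]

theorem Star.VD_shift (h : E.Star ψ Φs) (s : Bool) (i : Fin k) :
    ∀ g ∈ T.D (E.p s i),
      VD k (Dl (Finset.univ.erase i) fun e => E.cpl ψ Φs true (insert i e) g) := by
  intro g hg
  have hne : Finset.univ.erase i ≠ Finset.univ := fun h =>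
    Finset.notMem_erase i Finset.univ (by rw [h]; exact Finset.mem_univ _)
  have h1 := Dl_insert (Finset.notMem_erase i Finset.univ) fun e => E.cpl ψ Φs true e g
  rw [Finset.insert_erase (Finset.mem_univ i), Dl_cpl_old (B := Finset.univ.erase i) fun _ => hne,
    eq_sub_iff_add_eq] at h1
  rw [← h1]
  refine (h.VD_top g).add ?_
  have h2 := h.van true s i _ (Finset.notMem_erase i Finset.univ) g hg
  unfold Th at h2
  rw [digV_eq_zero_iff (h.gr true _ (fun _ => hne) g), Finset.card_erase_add_one (Finset.mem_univ i),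
    complete_card] at h2
  exact h2

theorem Star.sel_top (h : E.Star ψ Φs) :
    R.Sel (E.A true Finset.univ) (E.x true Finset.univ) k (E.top ψ Φs) := by
  refine ⟨h.coc_top.mono (Nat.le_succ k), fun v hv => ?_, fun v hv => ?_⟩
  · rcases complete_mem_A.1 hv with rfl | hC | ⟨i, rfl⟩
    · rw [← cpl_top]
      refine complete_locOK_top (fun g _ => h.VD_top g) fun e he => ?_
      rw [cpl_old fun _ => he.ne]
      exact ((h.admi true e fun _ => he.ne).2.1.2.1 _ (complete_mem_A.2 (Or.inl rfl))).twist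
        (E.x_eq_a true true e Finset.univ)
    · rw [← cpl_top]
      refine complete_locOK_top (fun g _ => h.VD_top g) fun e he => ?_
      rw [cpl_old fun _ => he.ne]
      exact ((h.admi true e fun _ => he.ne).2.1.2.1 _
        (complete_mem_A.2 (Or.inr (Or.inl hC)))).twist (E.x_eq_C true true e Finset.univ v hC)
    · rw [← cpl_top, ← Finset.insert_erase (Finset.mem_univ i)]
      refine complete_locOK_top (f := fun e => E.cpl ψ Φs true (insert i e)) (h.VD_shift _ i)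
        fun e he => ?_
      rw [cpl_old fun _ => complete_insert_ne he]
      refine ((h.admi true _ fun _ => complete_insert_ne he).2.1.2.1 _
        (complete_mem_A.2 (Or.inr (Or.inr ⟨i, by simp⟩)))).twist
        (E.x_eq_p true true _ _ _ i (by simp))
  · by_cases hp : ∃ i, v = E.p false i
    · obtain ⟨i, rfl⟩ := hp
      rw [← cpl_top, ← Finset.insert_erase (Finset.mem_univ i)]
      refine complete_VD_top (f := fun e => E.cpl ψ Φs true (insert i e) (T.τ (E.p false i)))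
        (h.VD_shift _ i _ (Tame.τ_mem _)) fun e he => ?_
      rw [cpl_old fun _ => complete_insert_ne he]
      refine (h.admi true _ fun _ => complete_insert_ne he).2.1.2.2 _ fun hm => ?_
      rcases complete_mem_A.1 hm with h1 | h1 | ⟨j, h1⟩
      · exact E.p_ne_a _ _ _ h1
      · exact E.p_notMem _ _ h1
      · obtain ⟨h2, rfl⟩ := E.p_inj _ _ _ _ h1
        simp at h2
    · rw [← cpl_top]
      refine complete_VD_top (f := fun e => E.cpl ψ Φs true e (T.τ v)) (h.VD_top _) fun e he => ?_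
      rw [cpl_old fun _ => he.ne]
      refine (h.admi true e fun _ => he.ne).2.1.2.2 _ fun hm => ?_
      rcases complete_mem_A.1 hm with h1 | h1 | ⟨j, h1⟩
      · exact hv (complete_mem_A.2 (Or.inl h1))
      · exact hv (complete_mem_A.2 (Or.inr (Or.inl h1)))
      · by_cases hj : j ∈ e
        · exact hv (complete_mem_A.2 (Or.inr (Or.inr ⟨j, by simpa [hj] using h1⟩)))
        · exact hp ⟨j, by simpa [hj] using h1.symm⟩

theorem Star.full (hk : 1 ≤ k) (h : E.Star ψ Φs) : E.Full (E.cpl ψ Φs) := by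
  have hne : (Finset.univ : Finset (Fin k)).Nonempty := ⟨⟨0, hk⟩, Finset.mem_univ _⟩
  have hcases : ∀ (s : Bool) (e : Finset (Fin k)),
      (s = true → e ≠ Finset.univ) ∨ (s = true ∧ e = Finset.univ) := fun s e => by tauto
  refine ⟨fun s e => ?_, fun s e g => ?_, fun s e => ?_, h.grV, fun s B hB => ?_,
    fun s s' i B hi g hg => ?_⟩
  · rcases hcases s e with h1 | ⟨rfl, rfl⟩
    · rw [cpl_old h1]
      obtain ⟨h2, h3, h4⟩ := h.admi s e h1
      exact ⟨h2, h3, fun v hv => h4 v fun hm => hv (E.A_sub_As s e hm)⟩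
    · rw [cpl_top]
      refine ⟨h.coc_top, h.sel_top, fun v hv => ?_⟩
      rw [← cpl_top]
      refine complete_VD_top (f := fun e => E.cpl ψ Φs true e (T.τ v)) ?_ fun e he => ?_
      · rw [Dl_cpl_top, h.unr v hv, complete_lftV_zero, smul_zero, zero_add]
        exact Dl_VD fun e _ => (h.admi false e (by simp)).2.2 v fun hm => hv (E.A_sub_As _ _ hm)
      · rw [cpl_old fun _ => he.ne]
        exact (h.admi true e fun _ => he.ne).2.2 v fun hm => hv (E.A_sub_As _ _ hm)
  · rcases hcases s e with h1 | ⟨rfl, rfl⟩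
    · rw [cpl_old h1]
      exact h.lead s e h1 g
    · rw [cpl_top]
      exact h.lead_top hk g
  · rcases hcases s e with h1 | ⟨rfl, rfl⟩
    · rw [cpl_old h1]
      exact (h.admi s e h1).2.2 _ (complete_a_notMem s e)
    · refine complete_VD_top (f := fun e => E.cpl ψ Φs true e (T.τ (E.a (!true)))) ?_
        fun e he => ?_
      · rw [Dl_cpl_top, h.unr_a, complete_lftV_zero, smul_zero, zero_add]
        have h2 := h.own false Finset.univ (by simp) hne
        unfold Th at h2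
        rw [complete_card] at h2
        exact (digV_eq_zero_iff (h.gr_false _)).1 h2
      · rw [cpl_old fun _ => he.ne]
        exact (h.admi true e fun _ => he.ne).2.2 _ (complete_a_notMem true e)
  · rcases hcases s B with h1 | ⟨rfl, rfl⟩
    · rw [Th_cpl_old h1]
      exact h.own s B h1 hB
    · rw [h.Th_top, h.unr_a, zero_add]
      unfold Th
      rw [complete_card]
      exact complete_digV_of_VD
        (Dl_VD fun e _ => (h.admi false e (by simp)).2.2 _ (complete_a_notMem false e))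
  · rw [Th_cpl_old (B := B) fun _ hB => hi (by rw [hB]; exact Finset.mem_univ i)]
    exact h.van s s' i B hi g hg

theorem Star.sum_old (h : E.Star ψ Φs) {s : Bool} {e : Finset (Fin k)}
    (he : s = true → e ≠ Finset.univ) :
    ∑ v ∈ E.As, R.fv (E.A s e) (E.x s e) k (E.cpl ψ Φs s e) v = E.Fv ψ s e := by
  rw [cpl_old he]
  exact (Finset.sum_subset (E.A_sub_As s e) fun v _ hv =>
    Rep.fv_unr hv ((h.admi s e he).2.2 v hv)).symm

end cpl

theorem complete (hk : 1 ≤ k) (hk2 : Even k) {ψ : Bool → Finset (Fin k) → W → V} {Φs : W → Vb}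
    (h : E.Star ψ Φs) :
    R.Lifts (E.A true Finset.univ) (E.x true Finset.univ) k (E.w true) ∧
      (R.Lifts (E.A true Finset.univ) (E.x true Finset.univ) (k + 1) (E.w true) →
        Dl Finset.univ (fun e => if e = Finset.univ then 0 else E.Fv ψ true e) -
          Dl Finset.univ (E.Fv ψ false) = E.rhs Φs) := by
  refine ⟨⟨E.top ψ Φs, h.sel_top, h.lead_top hk⟩, fun hl => ?_⟩
  have hf := h.full hk
  have h1 := E.reflect hk hk2 hf
  have h2 : (fun g => Th (E.cpl ψ Φs true) Finset.univ g -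
      Th (E.cpl ψ Φs false) Finset.univ g) = Φs := by
    funext g
    rw [h.Th_top, cpl_false, add_sub_cancel_right]
  have h3 : (fun e => ∑ v ∈ E.As, R.fv (E.A true e) (E.x true e) k (E.cpl ψ Φs true e) v) =
      fun e => if e = Finset.univ then 0 else E.Fv ψ true e := by
    funext e
    split_ifs with he
    · subst he
      refine Rep.vanish (E.x_hom _ _) hk (E.S_sub_A _ _) (E.A_sub_As _ _) (E.x_unr _ _)
        (hf.admi true Finset.univ) ?_
      rw [show (fun g => digV 0 (E.cpl ψ Φs true Finset.univ g)) = E.w true from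
        funext (hf.lead true Finset.univ)]
      exact hl
    · exact h.sum_old fun _ => he
  have h4 : (fun e => ∑ v ∈ E.As, R.fv (E.A false e) (E.x false e) k (E.cpl ψ Φs false e) v) =
      E.Fv ψ false := funext fun e => h.sum_old (by simp)
  rw [h2, h3, h4] at h1
  exact h1

end CubeE

end

end Pool.Agent.Smith
end
end

-- merged part: Pool.Agent.Work.MP_60d5ce_nt.Sm.TateMod
section
/-!
# Coordinates on the three-power torsion of a divisible group; matrix lemmas

Hints.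
* `exists_tateB`: choose `e i j` with `e i 0 = 0`, `e i 1 = T i`, `3 • e i (j + 1) = e i j`, and put
  `pt j a = ∑ i, (a i).appr j • e i j` (`PadicInt.appr`, `PadicInt.toZModPow`).
* `exists_mat`: the columns modulo `3 ^ j` are compatible; pass to the limit (`IsPrecomplete`,
  `PadicInt.lift`, or `PadicInt.ofIntSeq`).
-/

namespace Pool.Agent.Smith

noncomputable section

/-- vectors of three-adic integers -/
abbrev Z2 : Type := Fin 2 → ℤ_[3]

/-- a basis of the Tate module -/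
structure TateB (A : Type) [AddCommGroup A] where
  pt : ℕ → Z2 →+ A
  three : ∀ j a, 3 • pt (j + 1) a = pt j a
  ker : ∀ j a, pt j a = 0 ↔ ∀ i, (3 : ℤ_[3]) ^ j ∣ a i
  surj : ∀ j P, 3 ^ j • P = 0 → ∃ a, pt j a = P

variable {A : Type} [AddCommGroup A]

theorem TateMod_appr (j : ℕ) (x : ℤ_[3]) : (3 : ℤ_[3]) ^ j ∣ x - (x.appr j : ℕ) :=
  Ideal.mem_span_singleton.1 (PadicInt.appr_spec j x)

theorem TateMod_int {j : ℕ} {n : ℤ} (h : (3 : ℤ) ^ j ∣ n) : (3 : ℤ_[3]) ^ j ∣ (n : ℤ_[3]) := by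
  simpa using (Int.castRingHom ℤ_[3]).map_dvd h

theorem TateMod_zero {x : ℤ_[3]} (h : ∀ j, (3 : ℤ_[3]) ^ j ∣ x) : x = 0 :=
  PadicInt.ext_of_toZModPow.1 fun j => by
    rw [map_zero, ← RingHom.mem_ker, PadicInt.ker_toZModPow, Ideal.mem_span_singleton]
    exact h j

theorem TateMod_lim (c : ℕ → ℤ_[3]) (h : ∀ j, (3 : ℤ_[3]) ^ j ∣ c (j + 1) - c j) :
    ∃ x, ∀ j, (3 : ℤ_[3]) ^ j ∣ x - c j := by
  have e : ∀ (j : ℕ) (a b : ℤ_[3]), a ≡ b [SMOD (IsLocalRing.maximalIdeal ℤ_[3] ^ j • ⊤ :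
      Submodule ℤ_[3] ℤ_[3])] ↔ (3 : ℤ_[3]) ^ j ∣ b - a := fun j a b => by
    rw [SModEq.sub_mem, PadicInt.maximalIdeal_eq_span_p, Ideal.span_singleton_pow, smul_eq_mul,
      Ideal.mul_top, Ideal.mem_span_singleton, dvd_sub_comm]
    rfl
  obtain ⟨x, hx⟩ := IsPrecomplete.prec (I := IsLocalRing.maximalIdeal ℤ_[3]) inferInstance (f := c)
    fun {m n} hmn => (e _ _ _).2 (by
      induction n, hmn using Nat.le_induction with
      | base => simp
      | succ n hn ih => simpa using dvd_add ((pow_dvd_pow _ hn).trans (h n)) ih)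
  exact ⟨x, fun j => (e _ _ _).1 (hx j)⟩

theorem TateMod_hom (j : ℕ) (e : A) (he : 3 ^ j • e = 0) : ∃ φ : ℤ_[3] →+ A,
    ∀ (x : ℤ_[3]) (n : ℤ), (3 : ℤ_[3]) ^ j ∣ x - n → φ x = n • e := by
  obtain ⟨ψ, hψ⟩ : ∃ ψ : ZMod (3 ^ j) →+ A, ∀ n : ℤ, ψ n = n • e :=
    ⟨ZMod.lift (3 ^ j) ⟨zmultiplesHom A e, (natCast_zsmul e _).trans he⟩,
      fun n => by rw [ZMod.lift_coe]; rfl⟩
  refine ⟨ψ.comp (PadicInt.toZModPow j : ℤ_[3] →+* _).toAddMonoidHom, fun x n h => ?_⟩
  have : PadicInt.toZModPow j x = (n : ZMod (3 ^ j)) := by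
    rw [← map_intCast (PadicInt.toZModPow (p := 3) j), ← sub_eq_zero, ← map_sub, ← RingHom.mem_ker,
      PadicInt.ker_toZModPow, Ideal.mem_span_singleton]
    exact h
  exact (congrArg ψ this).trans (hψ n)

theorem TateMod_seq (hdiv : ∀ P : A, ∃ R, 3 • R = P) (T : A) (h : 3 • T = 0) :
    ∃ e : ℕ → A, e 0 = 0 ∧ (∀ j, 3 • e (j + 1) = e j) ∧ ∀ j, 3 ^ j • e (j + 1) = T := by
  choose R hR using hdiv
  refine ⟨fun j => 3 • R^[j] T, h, fun j => by simp only [Function.iterate_succ_apply', hR],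
    fun j => ?_⟩
  simp only [Function.iterate_succ_apply', hR]
  induction j with
  | zero => simp
  | succ j ih => rw [Function.iterate_succ_apply', pow_succ, mul_smul, hR, ih]

theorem exists_tateB (T0 T1 : A) (hdiv : ∀ P : A, ∃ R, 3 • R = P) (h0 : 3 • T0 = 0)
    (h1 : 3 • T1 = 0) (hind : ∀ a b : ℤ, a • T0 + b • T1 = 0 → 3 ∣ a ∧ 3 ∣ b)
    (hspan : ∀ P : A, 3 • P = 0 → ∃ a b : ℤ, P = a • T0 + b • T1) :
    ∃ B : TateB A, B.pt 1 ![1, 0] = T0 ∧ B.pt 1 ![0, 1] = T1 := by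
  obtain ⟨e, e0, e1, e2⟩ := TateMod_seq hdiv T0 h0
  obtain ⟨f, f0, f1, f2⟩ := TateMod_seq hdiv T1 h1
  have tor : ∀ {T : A} {e : ℕ → A}, 3 • T = 0 → e 0 = 0 → (∀ j, 3 ^ j • e (j + 1) = T) →
      ∀ j, 3 ^ j • e j = 0 := fun h0 e0 e2 j => by
    rcases j with _ | j
    · simp [e0]
    · rw [pow_succ', mul_smul, e2, h0]
  choose φ hφ using fun j => TateMod_hom j (e j) (tor h0 e0 e2 j)
  choose ψ hψ using fun j => TateMod_hom j (f j) (tor h1 f0 f2 j)
  have ap : ∀ (j : ℕ) (x : ℤ_[3]), (3 : ℤ_[3]) ^ j ∣ x - ((x.appr j : ℤ) : ℤ_[3]) := fun j x => by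
    simpa using TateMod_appr j x
  have z3 : ∀ (n : ℤ) (P : A), (3 * n) • P = n • 3 • P := fun n P => by
    rw [mul_comm, mul_smul, ← natCast_zsmul]; rfl
  have ker : ∀ (j : ℕ) (m n : ℤ), m • e j + n • f j = 0 → 3 ^ j ∣ m ∧ 3 ^ j ∣ n := fun j => by
    induction j with
    | zero => simp
    | succ j ih =>
      intro m n h
      obtain ⟨⟨m, rfl⟩, n, rfl⟩ := hind m n (by
        rw [← e2 j, ← f2 j, smul_comm m, smul_comm n, ← smul_add, h, smul_zero])
      rw [z3, z3, e1, f1] at h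
      rw [pow_succ']
      exact ⟨mul_dvd_mul_left _ (ih m n h).1, mul_dvd_mul_left _ (ih m n h).2⟩
  have sur : ∀ (j : ℕ) (P : A), 3 ^ j • P = 0 → ∃ m n : ℤ, P = m • e j + n • f j := fun j => by
    induction j with
    | zero => exact fun P h => ⟨0, 0, by simpa using h⟩
    | succ j ih =>
      intro P h
      obtain ⟨m, n, h2⟩ := ih (3 • P) (by rw [← mul_smul, ← pow_succ, h])
      obtain ⟨a, b, h3⟩ := hspan (P - (m • e (j + 1) + n • f (j + 1))) (by
        rw [smul_sub, smul_add, smul_comm _ m, smul_comm _ n, e1, f1, h2, sub_self])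
      refine ⟨m + a * (3 ^ j : ℕ), n + b * (3 ^ j : ℕ), ?_⟩
      rw [add_smul, add_smul, mul_smul, mul_smul, natCast_zsmul, natCast_zsmul, e2, f2,
        add_add_add_comm, ← h3, add_sub_cancel]
  refine ⟨⟨fun j => (φ j).comp (Pi.evalAddMonoidHom _ 0) + (ψ j).comp (Pi.evalAddMonoidHom _ 1),
    fun j a => ?_, fun j a => ?_, fun j P h => ?_⟩, ?_, ?_⟩
  · change 3 • (φ _ (a 0) + ψ _ (a 1)) = φ _ (a 0) + ψ _ (a 1)
    rw [hφ _ _ _ (ap (j + 1) _), hψ _ _ _ (ap (j + 1) _),
      hφ j _ _ ((pow_dvd_pow _ j.le_succ).trans (ap (j + 1) _)),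
      hψ j _ _ ((pow_dvd_pow _ j.le_succ).trans (ap (j + 1) _)), smul_add, smul_comm, e1,
      smul_comm, f1]
  · change φ _ (a 0) + ψ _ (a 1) = 0 ↔ _
    rw [Fin.forall_fin_two]
    constructor
    · intro h
      rw [hφ _ _ _ (ap j _), hψ _ _ _ (ap j _)] at h
      obtain ⟨a0, a1⟩ := ker j _ _ h
      exact ⟨by simpa using dvd_add (ap j (a 0)) (TateMod_int a0),
        by simpa using dvd_add (ap j (a 1)) (TateMod_int a1)⟩
    · rintro ⟨a0, a1⟩
      rw [hφ j _ 0 (by simpa using a0), hψ j _ 0 (by simpa using a1)]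
      simp
  · obtain ⟨m, n, rfl⟩ := sur j P h
    exact ⟨![m, n], congrArg₂ (· + ·) (hφ j _ m (by simp)) (hψ j _ n (by simp))⟩
  · change φ 1 1 + ψ 1 0 = T0
    rw [hφ 1 1 1 (by simp), map_zero, ← e2 0]
    simp
  · change φ 1 0 + ψ 1 1 = T1
    rw [hψ 1 1 1 (by simp), map_zero, ← f2 0]
    simp

namespace TateB

variable (B : TateB A)

theorem pow_smul_pt (j : ℕ) (a : Z2) : 3 ^ j • B.pt j a = 0 := by
  rw [← map_nsmul, B.ker]
  intro i
  simp

theorem pow_smul_add (i j : ℕ) (a : Z2) : 3 ^ i • B.pt (i + j) a = B.pt j a := by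
  induction i with
  | zero => simp
  | succ i ih => rw [pow_succ, mul_smul, Nat.add_right_comm, B.three, ih]

theorem pt_pow_smul (i j : ℕ) (a : Z2) : B.pt (i + j) ((3 : ℤ_[3]) ^ i • a) = B.pt j a := by
  rw [← B.pow_smul_add i j a, ← map_nsmul, ← Nat.cast_smul_eq_nsmul ℤ_[3]]
  simp

theorem pt_eq_iff (j : ℕ) (a b : Z2) :
    B.pt j a = B.pt j b ↔ ∀ i, (3 : ℤ_[3]) ^ j ∣ a i - b i := by
  rw [← sub_eq_zero, ← map_sub, B.ker]
  rfl

include B in
theorem torsion_finite (j : ℕ) : {P : A | 3 ^ j • P = 0}.Finite := by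
  refine (Set.finite_range fun v : Fin 2 → Fin (3 ^ j) =>
    B.pt j fun i => ((v i : ℕ) : ℤ_[3])).subset fun P hP => ?_
  obtain ⟨a, rfl⟩ := B.surj j P hP
  exact ⟨fun i => ⟨(a i).appr j, PadicInt.appr_lt _ _⟩,
    ((B.pt_eq_iff j _ _).2 fun i => TateMod_appr j (a i)).symm⟩

theorem TateMod_smul (j : ℕ) (c : ℤ_[3]) (a : Z2) : B.pt j (c • a) = c.appr j • B.pt j a := by
  rw [← map_nsmul, pt_eq_iff]
  intro i
  simpa [← sub_mul] using (TateMod_appr j c).mul_right (a i)

theorem exists_mat (f : A →+ A) :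
    ∃ m : Matrix (Fin 2) (Fin 2) ℤ_[3], ∀ j a, f (B.pt j a) = B.pt j (m.mulVec a) := by
  choose c hc using fun k j => B.surj j (f (B.pt j (Pi.single k 1))) (by
    rw [← map_nsmul, pow_smul_pt, map_zero])
  choose m hm using fun i k => TateMod_lim (fun j => c k j i) fun j =>
    (B.pt_eq_iff j _ _).1 (by rw [← B.three, hc, ← map_nsmul, B.three, hc]) i
  refine ⟨Matrix.of m, fun j a => ?_⟩
  have e1 : a = ∑ k, a k • Pi.single k (1 : ℤ_[3]) := by
    funext i; fin_cases i <;> simp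
  have e2 : (Matrix.of m).mulVec a = ∑ k, a k • fun i => m i k := by
    funext i; simp [Matrix.mulVec, dotProduct, mul_comm]
  rw [e2, map_sum]
  conv_lhs => rw [e1, map_sum, map_sum]
  refine Finset.sum_congr rfl fun k _ => ?_
  rw [TateMod_smul, TateMod_smul, map_nsmul, ← hc, (B.pt_eq_iff j _ _).2 fun i => hm i k j]

/-- the matrix of an endomorphism -/
def mat (f : A →+ A) : Matrix (Fin 2) (Fin 2) ℤ_[3] := (B.exists_mat f).choose

theorem mat_spec (f : A →+ A) (j : ℕ) (a : Z2) : f (B.pt j a) = B.pt j ((B.mat f).mulVec a) :=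
  (B.exists_mat f).choose_spec j a

theorem mat_unique {f : A →+ A} {m : Matrix (Fin 2) (Fin 2) ℤ_[3]}
    (h : ∀ j a, f (B.pt j a) = B.pt j (m.mulVec a)) : B.mat f = m := by
  ext a b
  refine sub_eq_zero.1 (TateMod_zero fun j => ?_)
  simpa using (B.pt_eq_iff j _ _).1 ((B.mat_spec f j (Pi.single b 1)).symm.trans (h j _)) a

theorem mat_one {f : A →+ A} (h : ∀ (j : ℕ) (P : A), 3 ^ j • P = 0 → f P = P) : B.mat f = 1 := by
  exact B.mat_unique fun j a => by rw [Matrix.one_mulVec, h j _ (B.pow_smul_pt j a)]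

theorem mat_mul {f g fg : A →+ A} (h : ∀ P, fg P = f (g P)) : B.mat fg = B.mat f * B.mat g := by
  exact B.mat_unique fun j a => by rw [h, mat_spec, mat_spec, Matrix.mulVec_mulVec]

theorem mat_dvd_iff (f : A →+ A) (j : ℕ) :
    (∀ a b, (3 : ℤ_[3]) ^ j ∣ (B.mat f - 1) a b) ↔ ∀ P : A, 3 ^ j • P = 0 → f P = P := by
  constructor
  · intro h P hP
    obtain ⟨a, rfl⟩ := B.surj j P hP
    rw [mat_spec, ← sub_eq_zero, ← map_sub, B.ker]
    intro i
    rw [show (B.mat f).mulVec a - a = (B.mat f - 1).mulVec a by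
      rw [Matrix.sub_mulVec, Matrix.one_mulVec]]
    exact Finset.dvd_sum (s := Finset.univ) fun k _ => (h i k).mul_right (a k)
  · intro h a b
    have := (B.pt_eq_iff j _ _).1 ((B.mat_spec f j (Pi.single b 1)).symm.trans
      (h _ (B.pow_smul_pt j _))) a
    simpa [Matrix.one_apply, Pi.single_apply] using this

open Classical in
/-- coordinates of a torsion point -/
def crd (j : ℕ) (P : A) : Z2 := if h : ∃ a, B.pt j a = P then h.choose else 0

theorem pt_crd {j : ℕ} {P : A} (h : 3 ^ j • P = 0) : B.pt j (B.crd j P) = P := by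
  rw [crd, dif_pos (B.surj j P h)]
  exact (B.surj j P h).choose_spec

end TateB

end

end Pool.Agent.Smith
end

-- merged part: Pool.Agent.Work.MP_60d5ce_nt.Sm.LatM
section
/-!
# Two by two matrices over the three-adic integers, and the lattice over `O`

Hint.
* `det_of_mult`: `N = B - 1` has `det N = 0` (divisible by all powers of three, multiply by the
  adjugate), trace zero, `N * N = 0`, `B ^ Q = 1 + Q N`, so `A N = Q N A`; `trace (N A) = 0` gives
  `N A = adj A * N`, so `A A N = Q det A • N`; the columns of `N` are parallel to `a` modulo `3 ^ j`,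
  so `A N = Q • N`.
-/

namespace Pool.Agent.Smith

noncomputable section

theorem LatM_prime : Prime (3 : ℤ_[3]) := by simpa using PadicInt.prime_p (p := 3)

theorem LatM_zero {c : ℤ_[3]} (h : ∀ j : ℕ, ∃ u : ℤ_[3], ¬ (3 : ℤ_[3]) ∣ u ∧ 3 ^ j ∣ c * u) :
    c = 0 := padic_eq_zero_of_forall_dvd fun j => by
  obtain ⟨u, h1, h2⟩ := h j
  exact LatM_prime.pow_dvd_of_dvd_mul_right j h1 h2

theorem pow_three_congr {m : Matrix (Fin 2) (Fin 2) ℤ_[3]} (h00 : (3 : ℤ_[3]) ∣ m 0 0 - 1)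
    (h10 : (3 : ℤ_[3]) ∣ m 1 0) (h11 : (3 : ℤ_[3]) ∣ m 1 1 - 1) (j : ℕ) :
    ∀ a b, (3 : ℤ_[3]) ^ j ∣ (m ^ 3 ^ j - 1 : Matrix (Fin 2) (Fin 2) ℤ_[3]) a b := by
  cases j with
  | zero => simp
  | succ j =>
    suffices h : ∃ K : Matrix (Fin 2) (Fin 2) ℤ_[3], m ^ 3 ^ (j + 1) = 1 + (3 : ℤ_[3]) ^ (j + 1) • K by
      obtain ⟨K, hK⟩ := h
      intro a b
      rw [hK, add_sub_cancel_left]
      exact ⟨K a b, rfl⟩
    induction j with
    | zero =>
      obtain ⟨p, hp⟩ := h00
      obtain ⟨r, hr⟩ := h10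
      obtain ⟨s, hs⟩ := h11
      obtain ⟨N, rfl⟩ : ∃ N, m = 1 + N := ⟨m - 1, by simp⟩
      have h1 : N * N = (3 : ℤ_[3]) • !![3 * p ^ 2 + N 0 1 * r, (p + s) * N 0 1;
          3 * r * (p + s), r * N 0 1 + 3 * s ^ 2] := by
        simp at hp hr hs
        ext a b
        fin_cases a <;> fin_cases b <;> simp [Matrix.mul_apply, Fin.sum_univ_two, hp, hr, hs] <;> ring
      obtain ⟨X, hX⟩ : ∃ X, N * N = (3 : ℤ_[3]) • X := ⟨_, h1⟩
      refine ⟨N + N * N + X * N, ?_⟩
      have h2 : (1 + N) ^ 3 = 1 + (N + N + N) + (N * N + N * N + N * N) + N * N * N := by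
        noncomm_ring
      rw [zero_add, pow_one, pow_one, h2, hX, smul_mul_assoc]
      module
    | succ j ih =>
      obtain ⟨K, hK⟩ := ih
      refine ⟨K + (3 : ℤ_[3]) ^ (j + 1) • (K * K) + (3 : ℤ_[3]) ^ (2 * j + 1) • (K * K * K), ?_⟩
      have h2 : ∀ N : Matrix (Fin 2) (Fin 2) ℤ_[3],
          (1 + N) ^ 3 = 1 + (N + N + N) + (N * N + N * N + N * N) + N * N * N := fun N => by
        noncomm_ring
      rw [pow_succ 3 (j + 1), pow_mul, hK, h2]
      simp only [smul_mul_assoc, mul_smul_comm]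
      match_scalars <;> ring

theorem unip_of_fix {B : Matrix (Fin 2) (Fin 2) ℤ_[3]} (hB : B.det = 1)
    (h : ∀ j : ℕ, ∃ a : Z2, (∃ i, ¬ (3 : ℤ_[3]) ∣ a i) ∧
      ∀ i, (3 : ℤ_[3]) ^ j ∣ (B.mulVec a - a) i) : (B - 1) * (B - 1) = 0 := by
  rw [Matrix.det_fin_two] at hB
  have h0 : (B 0 0 - 1) * (B 1 1 - 1) - B 0 1 * B 1 0 = 0 := LatM_zero fun j => by
    obtain ⟨a, ⟨i, hi⟩, ha⟩ := h j
    have a0 := ha 0
    have a1 := ha 1
    simp only [Pi.sub_apply, Matrix.mulVec, dotProduct, Fin.sum_univ_two] at a0 a1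
    refine ⟨a i, hi, ?_⟩
    fin_cases i
    · convert (a0.mul_left (B 1 1 - 1)).sub (a1.mul_left (B 0 1)) using 1
      simp only [Fin.zero_eta]
      ring
    · convert (a1.mul_left (B 0 0 - 1)).sub (a0.mul_left (B 1 0)) using 1
      simp only [Fin.mk_one]
      ring
  ext a b
  fin_cases a <;> fin_cases b <;> simp [Matrix.mul_apply, Fin.sum_univ_two, Matrix.one_apply]
  · linear_combination (B 0 0 - 1) * hB - B 0 0 * h0
  · linear_combination B 0 1 * hB - B 0 1 * h0
  · linear_combination B 1 0 * hB - B 1 0 * h0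
  · linear_combination (B 1 1 - 1) * hB - B 1 1 * h0

theorem det_of_mult {A B : Matrix (Fin 2) (Fin 2) ℤ_[3]} {Q : ℕ} (hQ : 1 < Q) (hB : B.det = 1)
    (hne : B ≠ 1) (hrel : A * B = B ^ Q * A)
    (h : ∀ j : ℕ, ∃ a : Z2, (∃ i, ¬ (3 : ℤ_[3]) ∣ a i) ∧
      (∀ i, (3 : ℤ_[3]) ^ j ∣ (B.mulVec a - a) i) ∧
      ∀ i, (3 : ℤ_[3]) ^ j ∣ (A.mulVec a - (Q : ℤ_[3]) • a) i) : A.det = Q := by
  have h1 := unip_of_fix hB fun j => (h j).imp fun a ha => ⟨ha.1, ha.2.1⟩
  obtain ⟨N, rfl⟩ : ∃ N, B = 1 + N := ⟨B - 1, by simp⟩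
  rw [add_sub_cancel_left] at h1
  have hN : N ≠ 0 := fun e => hne (by rw [e, add_zero])
  have h2 : ∀ n : ℕ, (1 + N) ^ n = 1 + (n : ℤ_[3]) • N := by
    intro n
    induction n with
    | zero => simp
    | succ n ih =>
      rw [pow_succ, ih, add_mul, mul_add, mul_add, smul_mul_assoc, smul_mul_assoc, h1]
      simp only [one_mul, mul_one, Nat.cast_succ]
      module
  have h3 : A * N = (Q : ℤ_[3]) • (N * A) := by
    rw [h2, mul_add, add_mul, mul_one, one_mul, smul_mul_assoc] at hrel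
    exact add_left_cancel hrel
  have ht : N 1 1 = -N 0 0 := by
    have a0 : N.det * N.det = 0 := by rw [← Matrix.det_mul, h1, Matrix.det_zero]
    have a1 := mul_self_eq_zero.1 a0
    simp [Matrix.det_fin_two] at a1 hB
    linear_combination hB - a1
  have key : ∀ v0 v1 c0 c1 : ℤ_[3], (∀ j : ℕ, ∃ a : Z2, (∃ i, ¬ (3 : ℤ_[3]) ∣ a i) ∧
      3 ^ j ∣ v0 * a 1 - v1 * a 0 ∧ 3 ^ j ∣ c0 * a 0 + c1 * a 1) → c0 * v0 + c1 * v1 = 0 := by
    intro v0 v1 c0 c1 hh
    refine LatM_zero fun j => ?_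
    obtain ⟨a, ⟨i, hi⟩, a0, a1⟩ := hh j
    refine ⟨a i, hi, ?_⟩
    fin_cases i
    · convert (a1.mul_left v0).sub (a0.mul_left c1) using 1
      simp only [Fin.zero_eta]
      ring
    · convert (a1.mul_left v1).add (a0.mul_left c0) using 1
      simp only [Fin.mk_one]
      ring
  have h4 : (A - (Q : ℤ_[3]) • 1) * N = 0 := by
    ext r c
    rw [Matrix.mul_apply, Fin.sum_univ_two]
    refine key _ _ _ _ fun j => ?_
    obtain ⟨a, hi, a0, a1⟩ := h j
    refine ⟨a, hi, ?_, ?_⟩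
    · have b0 := a0 0
      have b1 := a0 1
      simp only [Matrix.add_mulVec, Matrix.one_mulVec, add_sub_cancel_left] at b0 b1
      simp only [Matrix.mulVec, dotProduct, Fin.sum_univ_two] at b0 b1
      fin_cases c
      · convert b1.neg_right using 1
        simp only [Fin.zero_eta, ht]
        ring
      · convert b0 using 1
        simp only [Fin.mk_one, ht]
        ring
    · have b0 := a1 r
      rw [← Matrix.one_mulVec a, ← Matrix.smul_mulVec, Matrix.one_mulVec, ← Matrix.sub_mulVec] at b0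
      simpa only [Matrix.mulVec, dotProduct, Fin.sum_univ_two] using b0
  rw [sub_mul, smul_mul_assoc, one_mul, sub_eq_zero] at h4
  have hQ0 : (Q : ℤ_[3]) ≠ 0 := Nat.cast_ne_zero.2 (by omega)
  have hQ1 : (Q : ℤ_[3]) - 1 ≠ 0 := sub_ne_zero.2 (Nat.cast_ne_one.2 (by omega))
  have h5 : N * A = N := smul_right_injective _ hQ0 (h3.symm.trans h4)
  have ch : A * A - (A 0 0 + A 1 1) • A + A.det • (1 : Matrix (Fin 2) (Fin 2) ℤ_[3]) = 0 := by
    ext a b
    fin_cases a <;> fin_cases b <;> simp [Matrix.mul_apply, Fin.sum_univ_two, Matrix.det_fin_two] <;>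
      ring
  have e1 : (1 - (A 0 0 + A 1 1) + A.det) • N = 0 := by
    have := congrArg (N * ·) ch
    simp only [mul_add, mul_sub, mul_smul_comm, ← mul_assoc, h5, mul_one, mul_zero] at this
    rw [← this]
    module
  have e2 : ((Q : ℤ_[3]) * Q - (A 0 0 + A 1 1) * Q + A.det) • N = 0 := by
    have := congrArg (· * N) ch
    simp only [add_mul, sub_mul, smul_mul_assoc, mul_smul_comm, mul_assoc, h4, one_mul,
      zero_mul] at this
    rw [← this]
    module
  have f1 := (smul_eq_zero.1 e1).resolve_right hN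
  have f2 := (smul_eq_zero.1 e2).resolve_right hN
  refine mul_left_cancel₀ hQ1 ?_
  linear_combination (Q : ℤ_[3]) * f1 - f2

/-- the matrix on the lattice spanned by `e1` and `pi * e2` -/
def IsLat (m : Matrix (Fin 2) (Fin 2) ℤ_[3]) (ρ : Matrix (Fin 2) (Fin 2) O) : Prop :=
  ρ 0 0 = algebraMap _ O (m 0 0) ∧ ρ 0 1 = pi * algebraMap _ O (m 0 1) ∧
    pi * ρ 1 0 = algebraMap _ O (m 1 0) ∧ ρ 1 1 = algebraMap _ O (m 1 1)

/-- from the Tate module to the lattice: multiplication by `pi` -/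
def latv (a : Z2) : V := ![pi * algebraMap _ O (a 0), algebraMap _ O (a 1)]

/-- from the lattice to the Tate module: three times the trace of the quotient by `pi` -/
def kap (t : V) : Z2 := ![2 * (-pi * t 0).re, 2 * (3 * t 1).re]

variable {m m' : Matrix (Fin 2) (Fin 2) ℤ_[3]} {ρ ρ' : Matrix (Fin 2) (Fin 2) O}

theorem LatM_iff : IsLat m ρ ↔ ∃ y : ℤ_[3], m 1 0 = -3 * y ∧
    ρ = !![algebraMap _ O (m 0 0), pi * algebraMap _ O (m 0 1);
      pi * algebraMap _ O y, algebraMap _ O (m 1 1)] := by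
  constructor
  · rintro ⟨h1, h2, h3, h4⟩
    have a1 := congrArg QuadraticAlgebra.re h3
    have a2 := congrArg QuadraticAlgebra.im h3
    simp [pi] at a1 a2
    refine ⟨(ρ 1 0).im, by rw [← a1]; ring, ?_⟩
    refine Matrix.ext fun a b => ?_
    fin_cases a <;> fin_cases b
    · exact h1
    · exact h2
    · ext <;> simp [pi, a2]
    · exact h4
  · rintro ⟨y, h, rfl⟩
    refine ⟨rfl, rfl, ?_, rfl⟩
    rw [h]
    ext <;> simp [pi]

theorem exists_isLat (h : (3 : ℤ_[3]) ∣ m 1 0) : ∃ ρ, IsLat m ρ := by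
  obtain ⟨y, hy⟩ := h
  exact ⟨_, LatM_iff.2 ⟨-y, by rw [hy]; ring, rfl⟩⟩

theorem IsLat.unique (h : IsLat m ρ) (h' : IsLat m ρ') : ρ = ρ' := by
  obtain ⟨y, h1, rfl⟩ := LatM_iff.1 h
  obtain ⟨y', h2, rfl⟩ := LatM_iff.1 h'
  obtain rfl : y = y' := mul_left_cancel₀ (by norm_num) (h1.symm.trans h2)
  rfl

theorem isLat_one : IsLat 1 1 := by
  simp [IsLat]

theorem IsLat.mul (h : IsLat m ρ) (h' : IsLat m' ρ') : IsLat (m * m') (ρ * ρ') := by
  obtain ⟨y, h1, rfl⟩ := LatM_iff.1 h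
  obtain ⟨y', h2, rfl⟩ := LatM_iff.1 h'
  refine ⟨?_, ?_, ?_, ?_⟩ <;> ext <;> simp [Matrix.mul_apply, Fin.sum_univ_two, pi, h1, h2] <;> ring

theorem IsLat.det (h : IsLat m ρ) : ρ.det = algebraMap _ O m.det := by
  obtain ⟨y, h1, rfl⟩ := LatM_iff.1 h
  ext <;> simp [Matrix.det_fin_two, pi, h1] <;> ring

theorem IsLat.herm (h : IsLat m ρ) (a b : V) :
    hh (ρ.mulVec a) (ρ.mulVec b) = algebraMap _ O m.det * hh a b := by
  obtain ⟨y, h1, rfl⟩ := LatM_iff.1 h
  ext <;> simp [hh, Matrix.mulVec, dotProduct, Fin.sum_univ_two, Matrix.det_fin_two, pi, h1] <;> ring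

theorem IsLat.dvd (h : IsLat m ρ) {j : ℕ} (hj : ∀ a b, (3 : ℤ_[3]) ^ j ∣ (m - 1) a b) :
    ∀ a b, pi ^ (2 * j - 1) ∣ (ρ - 1) a b := by
  have h0 : ∀ a b, pi ^ (2 * j - 1) ∣ algebraMap ℤ_[3] O ((m - 1) a b) := fun a b =>
    (pow_dvd_pow pi (Nat.sub_le _ _)).trans (dvd_algebraMap (hj a b))
  intro a b
  fin_cases a <;> fin_cases b
  · simpa [h.1] using h0 0 0
  · simpa [h.2.1] using (h0 0 1).mul_left pi
  · cases j with
    | zero => simp
    | succ j =>
      have a1 : pi ^ (1 + (2 * (j + 1) - 1)) ∣ pi ^ 1 * ρ 1 0 := by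
        rw [pow_one, h.2.2.1, show 1 + (2 * (j + 1) - 1) = 2 * (j + 1) by omega]
        simpa using dvd_algebraMap (hj 1 0)
      simpa using (pow_mul_dvd_iff _ _ _).1 a1
  · simpa [h.2.2.2] using h0 1 1

theorem IsLat.one_mod (h : IsLat m ρ) (h00 : (3 : ℤ_[3]) ∣ m 0 0 - 1) (h10 : (3 : ℤ_[3]) ∣ m 1 0)
    (h11 : (3 : ℤ_[3]) ∣ m 1 1 - 1) :
    (∀ a b, pi ∣ (ρ - 1) a b) ∧ ∀ a, pi ^ 2 ∣ (ρ - 1) a a := by
  have a0 : pi ^ 2 ∣ (ρ - 1) 0 0 := by
    simpa [h.1] using dvd_algebraMap (j := 1) (a := m 0 0 - 1) (by simpa using h00)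
  have a1 : pi ^ 2 ∣ (ρ - 1) 1 1 := by
    simpa [h.2.2.2] using dvd_algebraMap (j := 1) (a := m 1 1 - 1) (by simpa using h11)
  refine ⟨fun a b => ?_, fun a => ?_⟩
  · fin_cases a <;> fin_cases b
    · exact (dvd_pow_self pi two_ne_zero).trans a0
    · simp [h.2.1]
    · obtain ⟨y, -, rfl⟩ := LatM_iff.1 h
      simp
    · exact (dvd_pow_self pi two_ne_zero).trans a1
  · fin_cases a
    · exact a0
    · exact a1

theorem IsLat.dig01 (h : IsLat m ρ) : dig 1 ((ρ - 1) 0 1) = 0 ↔ (3 : ℤ_[3]) ∣ m 0 1 := by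
  have e : (ρ - 1) 0 1 = pi ^ 1 * algebraMap _ O (m 0 1) := by simp [h.2.1]
  rw [e, dig_pow_mul, res_algebraMap, three_dvd_iff]

theorem IsLat.dig10 (h : IsLat m ρ) : dig 1 ((ρ - 1) 1 0) = 0 ↔ (9 : ℤ_[3]) ∣ m 1 0 := by
  obtain ⟨y, h1, rfl⟩ := LatM_iff.1 h
  have e : (!![algebraMap _ O (m 0 0), pi * algebraMap _ O (m 0 1);
      pi * algebraMap _ O y, algebraMap _ O (m 1 1)] - 1) 1 0 = pi ^ 1 * algebraMap _ O y := by simp
  rw [e, dig_pow_mul, res_algebraMap, ← three_dvd_iff, h1, neg_mul, dvd_neg,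
    show (9 : ℤ_[3]) = 3 * 3 by norm_num, mul_dvd_mul_iff_left (by norm_num)]

theorem IsLat.mulVec_latv (h : IsLat m ρ) (a : Z2) : ρ.mulVec (latv a) = latv (m.mulVec a) := by
  obtain ⟨y, h1, rfl⟩ := LatM_iff.1 h
  funext i
  fin_cases i <;> ext <;> simp [latv, Matrix.mulVec, dotProduct, Fin.sum_univ_two, pi, h1]

theorem IsLat.kap_mulVec (h : IsLat m ρ) (t : V) : kap (ρ.mulVec t) = m.mulVec (kap t) := by
  obtain ⟨y, h1, rfl⟩ := LatM_iff.1 h
  funext i
  fin_cases i <;> simp [kap, Matrix.mulVec, dotProduct, Fin.sum_univ_two, pi, h1, QuadraticAlgebra.re_ofNat,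
    QuadraticAlgebra.im_ofNat] <;> ring

theorem latv_add (a b : Z2) : latv (a + b) = latv a + latv b := by
  funext i
  fin_cases i <;> simp [latv, mul_add]

theorem latv_sub (a b : Z2) : latv (a - b) = latv a - latv b := by
  funext i
  fin_cases i <;> simp [latv, mul_sub]

theorem latv_smul (c : ℤ_[3]) (a : Z2) : latv (c • a) = algebraMap _ O c • latv a := by
  funext i
  fin_cases i <;> simp [latv, mul_left_comm]

theorem latv_dvd {j : ℕ} {a : Z2} (h : ∀ i, (3 : ℤ_[3]) ^ j ∣ a i) : VD (2 * j) (latv a) := by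
  intro i
  fin_cases i
  · exact (dvd_algebraMap (h 0)).mul_left pi
  · exact dvd_algebraMap (h 1)

theorem kap_add (s t : V) : kap (s + t) = kap s + kap t := by
  funext i
  fin_cases i <;> simp [kap, pi] <;> ring

theorem kap_smul (c : ℤ_[3]) (t : V) : kap (algebraMap _ O c • t) = c • kap t := by
  funext i
  fin_cases i <;> simp [kap, pi] <;> ring

theorem kap_dvd {j : ℕ} {t : V} (h : VD (2 * j) t) (i : Fin 2) : (3 : ℤ_[3]) ^ j ∣ kap t i := by
  fin_cases i
  · exact (dvd_re_of_dvd ((h 0).mul_left (-pi))).1.mul_left 2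
  · exact (dvd_re_of_dvd ((h 1).mul_left 3)).1.mul_left 2

theorem kap_zp (x : F3) (a : Z2) :
    kap (zp x • latv a) = (if x = 0 then (6 : ℤ_[3]) else -3) • a := by
  have h := two_mul_hf
  funext i
  fin_cases x
  · change kap (zp 0 • latv a) i = ((if (0 : F3) = 0 then (6 : ℤ_[3]) else -3) • a) i
    fin_cases i <;> simp [kap, latv, pi, QuadraticAlgebra.re_ofNat, QuadraticAlgebra.im_ofNat] <;> ring
  · change kap (ze ^ 1 • latv a) i = ((if (1 : F3) = 0 then (6 : ℤ_[3]) else -3) • a) i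
    rw [if_neg (by decide)]
    fin_cases i <;> simp [kap, latv, pi, ze, QuadraticAlgebra.re_ofNat, QuadraticAlgebra.im_ofNat]
    · linear_combination (3 * a 0) * h
    · linear_combination (3 * a 1) * h
  · change kap (ze ^ 2 • latv a) i = ((if (2 : F3) = 0 then (6 : ℤ_[3]) else -3) • a) i
    rw [if_neg (by decide), ← star_ze]
    fin_cases i <;> simp [kap, latv, pi, ze, QuadraticAlgebra.re_ofNat, QuadraticAlgebra.im_ofNat]
    · linear_combination (3 * a 0) * h
    · linear_combination (3 * a 1) * h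

end

end Pool.Agent.Smith
end

-- merged part: Pool.Agent.Work.MP_60d5ce_nt.Sm.BoxA
section
-- merged part: Pool.Agent.Work.MP_60d5ce_nt.Sm.MomA
section
/-!
# The random model of level one: definitions and counting lemmas

Hints.
* `count_span`: the linear map from `Prs ι → F3` to `({i // i ∉ {u, v, w}} → Vb)`,
  `s ↦ (i ↦ ∑ j, sym s i j • (n j - n i))`, is onto (use only the symbols between `i` and `u, v, w`),
  so all its fibres have the same cardinality.
* `count_dir`: the same after applying the linear form `φ`, with `u, v`.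
* `count_full`: union bound over the value `a` and the set (of fewer than `K` elements of `L`) where it
  is taken: at most `N * K * l ^ K * (N - 1) ^ (l - K) * N ^ (r - l)` functions, `l = card L`.
* `count_aff`: a nonzero linear form on `κ → F3` has fibres of the same cardinality.
-/

namespace Pool.Agent.Smith

open scoped Classical

noncomputable section

/-- unordered pairs -/
abbrev Prs (ι : Type) [LinearOrder ι] : Type := {z : ι × ι // z.2 < z.1}

/-- configurations of symbols -/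
abbrev Cfg (ι κ : Type) [LinearOrder ι] : Type := (ι → κ → F3) × (Prs ι → F3)

/-- affine functions of the symbols at the fixed places -/
abbrev Aff (κ A : Type) : Type := (κ → A) × A

variable {ι κ : Type} [Fintype ι] [LinearOrder ι] [Fintype κ]

/-- the symmetric matrix of symbols -/
def sym (s : Prs ι → F3) (i j : ι) : F3 :=
  if h : j < i then s ⟨(i, j), h⟩ else if h : i < j then s ⟨(j, i), h⟩ else 0

/-- evaluation of an affine function -/
def ev {A : Type} [AddCommGroup A] [Module F3 A] (e : F3) (f : Aff κ A) (u : κ → F3) : A :=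
  ∑ a, u a • f.1 a + e • f.2

/-- classes of level one -/
def Sol (e : ι → F3) (X : Aff κ F3) (Mm : Aff κ (Matrix (Fin 2) (Fin 2) F3)) (c : Cfg ι κ) :
    Finset (Aff κ Vb × (ι → Vb)) :=
  Finset.univ.filter fun z => ∀ i, ∑ j, sym c.2 i j • (z.2 j - z.2 i) =
    ev (e i) X (c.1 i) • z.2 i - (ev (e i) Mm (c.1 i)).mulVec (z.2 i) - ev (e i) z.1 (c.1 i)

/-- trivial classes -/
def TrivS (X : Aff κ F3) (Mm : Aff κ (Matrix (Fin 2) (Fin 2) F3)) (z : Aff κ Vb × (ι → Vb)) :
    Prop :=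
  ∃ t : Vb, (∀ i, z.2 i = -t) ∧ (∀ a, z.1.1 a = (-X.1 a) • t + (Mm.1 a).mulVec t) ∧
    z.1.2 = (-X.2) • t + Mm.2.mulVec t

/-- generic ramification vectors -/
def GenS (K : ℕ) (L : Finset ι) (n : ι → Vb) : Prop :=
  ∃ (t : Vb) (U : Finset ι) (a b : ι), U ⊆ L ∧ U.card = K ∧ a ∈ L ∧ b ∈ L ∧ a ∉ U ∧ b ∉ U ∧
    a ≠ b ∧ (∀ i ∈ U, n i = t) ∧ hb (n a - t) (n b - t) ≠ 0

theorem sym_symm (s : Prs ι → F3) (i j : ι) : sym s i j = sym s j i := by
  unfold sym
  rcases lt_trichotomy i j with h | rfl | h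
  · rw [dif_neg h.not_gt, dif_pos h, dif_pos h]
  · rfl
  · rw [dif_pos h, dif_neg h.not_gt, dif_pos h]

theorem card_Prs : Fintype.card (Prs ι) = ∑ i : ι, (Finset.univ.filter (· < i)).card := by
  rw [Fintype.card_subtype]
  simp only [Finset.card_filter]
  rw [Fintype.sum_prod_type]

theorem card_Cfg : Fintype.card (Cfg ι κ) =
    3 ^ ∑ i : ι, (Fintype.card κ + (Finset.univ.filter (· < i)).card) := by
  rw [Fintype.card_prod, Fintype.card_fun, Fintype.card_fun, Fintype.card_fun, ZMod.card, card_Prs,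
    Finset.sum_add_distrib, Finset.sum_const, Finset.card_univ, smul_eq_mul, pow_add, ← pow_mul,
    mul_comm (Fintype.card κ)]

theorem MomA_fib {G H : Type} [AddCommGroup G] [AddCommGroup H] [Fintype G] [Fintype H]
    (φ : G →+ H) (hφ : Function.Surjective φ) (y : H) (T : Finset G) (hT : ∀ g, g ∈ T ↔ φ g = y) :
    Fintype.card H * T.card = Fintype.card G := by
  have e : T = Finset.univ.filter fun g => φ g = y := by
    ext g
    simp [hT]
  rw [← Finset.card_univ (α := G), Finset.card_eq_sum_card_fiberwise (f := φ) (s := Finset.univ)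
    (t := Finset.univ) (fun _ _ => Finset.mem_coe.2 (Finset.mem_univ _)), e,
    Finset.sum_congr rfl fun x _ => AddMonoidHom.card_fiber_eq_of_mem_range φ (hφ x) (hφ y)]
  simp

omit [Fintype ι] in
theorem MomA_sym_of (b : ι → ι → F3) (h1 : ∀ i j, b i j = b j i) (h2 : ∀ i, b i i = 0) (i j : ι) :
    sym (fun z : Prs ι => b z.1.1 z.1.2) i j = b i j := by
  unfold sym
  split_ifs with h h'
  · rfl
  · exact h1 _ _
  · rw [le_antisymm (not_lt.1 h) (not_lt.1 h'), h2]

omit [Fintype ι] in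
theorem MomA_sym_add (s s' : Prs ι → F3) (i j : ι) : sym (s + s') i j = sym s i j + sym s' i j := by
  unfold sym
  split_ifs
  · rfl
  · rfl
  · rw [add_zero]

theorem MomA_count {A : Type} [AddCommGroup A] [Module F3 A] [Fintype A] (n c : ι → A)
    (S : Finset ι) (hS : ∀ i y, y ∈ Submodule.span F3 ((fun j => n j - n i) '' S))
    (T : Finset (Prs ι → F3)) (hT : ∀ s ∈ T, ∀ i, ∑ j, sym s i j • (n j - n i) = c i) {m : ℕ}
    (hm : S.card ≤ m) :
    Fintype.card A ^ Fintype.card ι * T.card ≤ Fintype.card A ^ m * Fintype.card (Prs ι → F3) := by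
  obtain ⟨φ, hφ⟩ : ∃ φ : (Prs ι → F3) →+ ({i // i ∉ S} → A),
      ∀ s i, φ s i = ∑ j, sym s i j • (n j - n i) :=
    ⟨AddMonoidHom.mk' (fun s i => ∑ j, sym s i j • (n j - n i)) fun s s' => by
      funext i
      simp only [MomA_sym_add, add_smul, Finset.sum_add_distrib, Pi.add_apply], fun _ _ => rfl⟩
  have hsurj : Function.Surjective φ := fun y => by
    choose a ha using fun i => (Submodule.mem_span_image_finset_iff_exists_fun' F3).1
      (hS i (if h : i ∉ S then y ⟨i, h⟩ else 0))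
    obtain ⟨b, hb⟩ : ∃ b : ι → ι → F3, ∀ i j, b i j = if i ∉ S ∧ j ∈ S then a i j else
      if j ∉ S ∧ i ∈ S then a j i else 0 := ⟨_, fun _ _ => rfl⟩
    have hs := MomA_sym_of b (fun i j => by
      by_cases hi : i ∈ S <;> by_cases hj : j ∈ S <;> simp [hb, hi, hj]) (fun i => by simp [hb])
    refine ⟨fun z => b z.1.1 z.1.2, funext fun i => ?_⟩
    have e := ha i
    rw [dif_pos i.2] at e
    rw [hφ, ← e, ← Finset.sum_subset (Finset.subset_univ S)]
    · refine Finset.sum_congr rfl fun j hj => ?_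
      rw [hs, hb, if_pos ⟨i.2, hj⟩]
    · intro j _ hj
      rw [hs, hb, if_neg fun h => hj h.2, if_neg fun h => i.2 h.2, zero_smul]
  have h1 := MomA_fib φ hsurj (fun i => c i) (Finset.univ.filter fun s => φ s = fun i => c i.1)
    (by simp)
  have h2 : T.card ≤ (Finset.univ.filter fun s => φ s = fun i => c i.1).card :=
    Finset.card_le_card fun s hs => Finset.mem_filter.2 ⟨Finset.mem_univ _, funext fun i => by
      rw [hφ, hT s hs]⟩
  have h3 : Fintype.card ι ≤ m + Fintype.card {i // i ∉ S} := by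
    rw [Fintype.card_subtype_compl, Fintype.card_coe]
    omega
  rw [← h1, Fintype.card_fun, ← mul_assoc, ← pow_add]
  exact Nat.mul_le_mul (Nat.pow_le_pow_right Fintype.card_pos h3) h2

theorem MomA_full {α ι : Type} [Fintype α] [Fintype ι] [Nonempty α] (K : ℕ) (L : Finset ι) (a : α) :
    ((Finset.univ.filter fun n : ι → α => (L.filter fun i => n i = a).card < K).card : ℝ) ≤
      2 ^ K * (1 - 1 / (2 * (Fintype.card α : ℝ))) ^ L.card *
        (Fintype.card α : ℝ) ^ Fintype.card ι := by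
  have hN : (0 : ℝ) < Fintype.card α := by exact_mod_cast Fintype.card_pos
  have h1 := Fintype.prod_sum (fun (i : ι) (x : α) => if i ∈ L ∧ x = a then (1 / 2 : ℝ) else 1)
  have h2 : ∀ i, ∑ x : α, (if i ∈ L ∧ x = a then (1 / 2 : ℝ) else 1) =
      (if i ∈ L then 1 - 1 / (2 * (Fintype.card α : ℝ)) else 1) * Fintype.card α := fun i => by
    split_ifs with hi
    · have : ∀ x : α, (if i ∈ L ∧ x = a then (1 / 2 : ℝ) else 1) =
          1 - if x = a then (1 / 2 : ℝ) else 0 := fun x => by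
        by_cases hx : x = a <;> simp [hi, hx]
        norm_num
      simp only [this, Finset.sum_sub_distrib, Finset.sum_ite_eq', Finset.mem_univ, if_true,
        Finset.sum_const, Finset.card_univ, nsmul_eq_mul]
      field_simp
    · simp [hi]
  simp only [h2, Finset.prod_mul_distrib, Finset.prod_ite_mem, Finset.univ_inter, Finset.prod_const,
    Finset.card_univ] at h1
  rw [mul_assoc, h1, Finset.mul_sum, Finset.card_filter, Nat.cast_sum]
  refine Finset.sum_le_sum fun n _ => ?_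
  have h3 : ∏ i, (if i ∈ L ∧ n i = a then (1 / 2 : ℝ) else 1) =
      (1 / 2) ^ (L.filter fun i => n i = a).card := by
    rw [Finset.prod_ite, Finset.prod_const_one, mul_one, Finset.prod_const]
    congr 2
    ext i
    simp
  rw [h3]
  split_ifs with h
  · rw [Nat.cast_one, one_div, inv_pow, ← div_eq_mul_inv, one_le_div (by positivity)]
    exact pow_le_pow_right₀ one_le_two h.le
  · rw [Nat.cast_zero]
    positivity

theorem MomA_dec : ∀ p q : F3, ¬ (p = 0 ∧ q = 0) → ∃ d e : F3,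
    ((d = 1 ∧ e = 0) ∨ (d = 0 ∧ e = 1) ∨ (d = 1 ∧ e = 1) ∨ (d = 1 ∧ e = -1)) ∧
      ∀ x y : F3, p * y - q * x = 0 → ∃ c : F3, x = c * d ∧ y = c * e := by
  decide

theorem count_span (n c : ι → Vb) (u v w : ι)
    (h : (n v - n u) 0 * (n w - n u) 1 - (n v - n u) 1 * (n w - n u) 0 ≠ 0) :
    9 ^ Fintype.card ι * (Finset.univ.filter fun s : Prs ι → F3 =>
      ∀ i, ∑ j, sym s i j • (n j - n i) = c i).card ≤ 9 ^ 3 * Fintype.card (Prs ι → F3) := by
  have e : Fintype.card Vb = 9 := by simp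
  rw [← e]
  refine MomA_count n c {u, v, w} (fun i y => ?_) _ (fun s hs => (Finset.mem_filter.1 hs).2)
    Finset.card_le_three
  have hy : y = ((y 0 * (n w - n u) 1 - y 1 * (n w - n u) 0) /
      ((n v - n u) 0 * (n w - n u) 1 - (n v - n u) 1 * (n w - n u) 0)) •
        ((n v - n i) - (n u - n i)) + (((n v - n u) 0 * y 1 - (n v - n u) 1 * y 0) /
      ((n v - n u) 0 * (n w - n u) 1 - (n v - n u) 1 * (n w - n u) 0)) •
        ((n w - n i) - (n u - n i)) := by
    rw [sub_sub_sub_cancel_right, sub_sub_sub_cancel_right]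
    generalize n v - n u = p at h ⊢
    generalize n w - n u = q at h ⊢
    funext k
    fin_cases k
    · simp only [Fin.zero_eta, Pi.add_apply, Pi.smul_apply, smul_eq_mul]
      rw [div_mul_eq_mul_div, div_mul_eq_mul_div, ← add_div, eq_div_iff h]
      ring
    · simp only [Fin.mk_one, Pi.add_apply, Pi.smul_apply, smul_eq_mul]
      rw [div_mul_eq_mul_div, div_mul_eq_mul_div, ← add_div, eq_div_iff h]
      ring
  have hm : ∀ j ∈ ({u, v, w} : Finset ι),
      n j - n i ∈ Submodule.span F3 ((fun j => n j - n i) '' ({u, v, w} : Finset ι)) :=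
    fun j hj => Submodule.subset_span ⟨j, hj, rfl⟩
  rw [hy]
  exact add_mem (Submodule.smul_mem _ _ (sub_mem (hm v (by simp)) (hm u (by simp))))
    (Submodule.smul_mem _ _ (sub_mem (hm w (by simp)) (hm u (by simp))))

theorem count_dir (n c : ι → F3) (u v : ι) (h : n u ≠ n v) :
    3 ^ Fintype.card ι * (Finset.univ.filter fun s : Prs ι → F3 =>
      ∀ i, ∑ j, sym s i j * (n j - n i) = c i).card ≤ 9 * Fintype.card (Prs ι → F3) := by
  have := MomA_count n c {u, v} (fun i y => ?_) (Finset.univ.filter fun s : Prs ι → F3 =>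
    ∀ i, ∑ j, sym s i j * (n j - n i) = c i) (fun s hs => (Finset.mem_filter.1 hs).2)
    Finset.card_le_two
  · rw [ZMod.card] at this
    exact this
  have hy : y = (y / (n v - n u)) • ((n v - n i) - (n u - n i)) := by
    rw [sub_sub_sub_cancel_right, smul_eq_mul, div_mul_cancel₀ _ (sub_ne_zero.2 h.symm)]
  have hm : ∀ j ∈ ({u, v} : Finset ι),
      n j - n i ∈ Submodule.span F3 ((fun j => n j - n i) '' ({u, v} : Finset ι)) :=
    fun j hj => Submodule.subset_span ⟨j, hj, rfl⟩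
  rw [hy]
  exact Submodule.smul_mem _ _ (sub_mem (hm v (by simp)) (hm u (by simp)))

theorem count_full (α : Type) [Fintype α] (K : ℕ) {ε : ℝ} (hε : 0 < ε) :
    ∃ A : ℕ, ∀ {ι : Type} [Fintype ι] (L : Finset ι), A ≤ L.card →
      ((Finset.univ.filter fun n : ι → α =>
        ∃ a, (L.filter fun i => n i = a).card < K).card : ℝ) ≤
        ε * (Fintype.card α : ℝ) ^ Fintype.card ι := by
  rcases isEmpty_or_nonempty α with hα | hα
  · refine ⟨0, fun L _ => ?_⟩
    rw [Finset.filter_eq_empty_iff.2 fun n _ h => h.elim fun a _ => hα.elim a]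
    simp only [Finset.card_empty, Nat.cast_zero]
    positivity
  have hN : (1 : ℝ) ≤ Fintype.card α := by exact_mod_cast Fintype.card_pos
  obtain ⟨θ, hθ⟩ : ∃ θ : ℝ, θ = 1 - 1 / (2 * (Fintype.card α : ℝ)) := ⟨_, rfl⟩
  have h0 : 0 ≤ θ := by
    rw [hθ, sub_nonneg, div_le_one (by positivity)]
    linarith
  have h1 : θ < 1 := by
    rw [hθ]
    exact sub_lt_self _ (by positivity)
  obtain ⟨A, hA⟩ := exists_pow_lt_of_lt_one
    (show 0 < ε / (Fintype.card α * 2 ^ K) by positivity) h1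
  refine ⟨A, fun {ι} _ L hL => ?_⟩
  have h2 : (Finset.univ.filter fun n : ι → α => ∃ a, (L.filter fun i => n i = a).card < K).card ≤
      ∑ a, (Finset.univ.filter fun n : ι → α => (L.filter fun i => n i = a).card < K).card := by
    refine le_trans (Finset.card_le_card fun n hn => ?_) Finset.card_biUnion_le
    obtain ⟨a, ha⟩ := (Finset.mem_filter.1 hn).2
    exact Finset.mem_biUnion.2 ⟨a, Finset.mem_univ _, Finset.mem_filter.2 ⟨Finset.mem_univ _, ha⟩⟩
  refine (Nat.cast_le.2 h2).trans ?_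
  rw [Nat.cast_sum]
  refine (Finset.sum_le_sum fun a _ => MomA_full K L a).trans ?_
  rw [Finset.sum_const, Finset.card_univ, nsmul_eq_mul, ← hθ, ← mul_assoc, ← mul_assoc]
  refine mul_le_mul_of_nonneg_right ?_ (by positivity)
  rw [← le_div_iff₀' (by positivity)]
  exact (pow_le_pow_of_le_one h0 h1.le hL).trans hA.le

theorem count_aff (e c : F3) (f : Aff κ F3) (h : f.1 ≠ 0) :
    3 * (Finset.univ.filter fun u : κ → F3 => ev e f u = c).card = Fintype.card (κ → F3) := by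
  obtain ⟨φ, hφ⟩ : ∃ φ : (κ → F3) →+ F3, ∀ u, φ u = ∑ a, u a • f.1 a :=
    ⟨AddMonoidHom.mk' (fun u => ∑ a, u a • f.1 a) fun u u' => by
      simp only [Pi.add_apply, add_smul, Finset.sum_add_distrib], fun _ => rfl⟩
  obtain ⟨a, ha⟩ := Function.ne_iff.1 h
  have := MomA_fib φ (fun y => ⟨Pi.single a (y / f.1 a), ?_⟩) (c - e • f.2)
    (Finset.univ.filter fun u : κ → F3 => ev e f u = c) fun u => ?_
  · rwa [ZMod.card] at this
  · rw [hφ, Finset.sum_eq_single a, Pi.single_eq_same, smul_eq_mul, div_mul_cancel₀ _ ha]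
    · intro b _ hb
      rw [Pi.single_eq_of_ne hb, zero_smul]
    · simp
  · rw [Finset.mem_filter, hφ, eq_sub_iff_add_eq]
    exact and_iff_right (Finset.mem_univ _)

/-- a family in the plane is constant, collinear, or contains a triangle -/
theorem plane_cases (n : ι → Vb) :
    (∃ u v w, (n v - n u) 0 * (n w - n u) 1 - (n v - n u) 1 * (n w - n u) 0 ≠ 0) ∨
      ∃ (t d : Vb) (c : ι → F3), (d = ![1, 0] ∨ d = ![0, 1] ∨ d = ![1, 1] ∨ d = ![1, -1]) ∧
        ∀ i, n i = t + c i • d := by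
  by_cases h : ∃ u v w, (n v - n u) 0 * (n w - n u) 1 - (n v - n u) 1 * (n w - n u) 0 ≠ 0
  · exact Or.inl h
  right
  push Not at h
  by_cases h' : ∃ u v, n v ≠ n u
  · obtain ⟨u, v, huv⟩ := h'
    obtain ⟨d, e, h1, h2⟩ := MomA_dec ((n v - n u) 0) ((n v - n u) 1) fun h0 => huv (by
      rw [← sub_eq_zero]
      funext k
      fin_cases k
      · exact h0.1
      · exact h0.2)
    choose c hc using fun w => h2 _ _ (h u v w)
    refine ⟨n u, ![d, e], c, ?_, fun i => ?_⟩
    · rcases h1 with ⟨rfl, rfl⟩ | ⟨rfl, rfl⟩ | ⟨rfl, rfl⟩ | ⟨rfl, rfl⟩ <;> simp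
    · rw [← sub_eq_iff_eq_add']
      funext k
      fin_cases k
      · exact (hc i).1
      · exact (hc i).2
  · push Not at h'
    rcases isEmpty_or_nonempty ι with hι | ⟨⟨u⟩⟩
    · exact ⟨0, _, 0, Or.inl rfl, fun i => hι.elim i⟩
    · exact ⟨n u, _, 0, Or.inl rfl, fun i => by rw [Pi.zero_apply, zero_smul, add_zero, h' u i]⟩

end

end Pool.Agent.Smith
end

-- merged part: Pool.Agent.Work.MP_60d5ce_nt.Sm.Seq
section
/-!
# Sequential counting of primes with prescribed symbols  (task SM Seq)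

* `seq_count` (needs `0 ≤ hi`, since the step hypothesis can be vacuous): induction on `𝒩`, removing the largest element (`Finset.induction_on_max`); the
  extensions to `insert ν 𝒩` fibre over the extensions to `𝒩` (`g ↦ update g ν (f ν)`).
* `valid_count`: the set in the step hypothesis of `seq_count` is
  `T.Pr (A0 ∪ image g prev) (A0.erase inf ∪ image g (prev.filter (adj ν))) c (e ν)` with
  `c a = cl ν a` on `A0` and `c (g μ) = s ν μ` (`g` is injective on `prev`; use `chi_symm`);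
  apply `pr_upper`, `pr_lower` and `Small.mono`.
* `marginal`: sum the fibre bounds.
-/

namespace Pool.Agent.Smith

open scoped Classical

noncomputable section

/-- unary and binary constraints hold on `𝒜` -/
def ValidOn {𝒱 Pp : Type} (Un : 𝒱 → Pp → Prop) (Bi : 𝒱 → 𝒱 → Pp → Pp → Prop) (𝒜 : Finset 𝒱)
    (f : 𝒱 → Pp) : Prop :=
  (∀ ν ∈ 𝒜, Un ν (f ν)) ∧ ∀ ν ∈ 𝒜, ∀ μ ∈ 𝒜, ν ≠ μ → Bi ν μ (f ν) (f μ)

theorem seq_fiber {α β : Type} (S : Set α) (Tt : Set β) (hT : Tt.Finite) (π : α → β)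
    (hπ : ∀ x ∈ S, π x ∈ Tt) (hfib : ∀ y ∈ Tt, {x | x ∈ S ∧ π x = y}.Finite) (lo hi : ℝ)
    (hb : ∀ y ∈ Tt, lo ≤ ({x | x ∈ S ∧ π x = y}.ncard : ℝ) ∧
      ({x | x ∈ S ∧ π x = y}.ncard : ℝ) ≤ hi) :
    S.Finite ∧ lo * Tt.ncard ≤ (S.ncard : ℝ) ∧ (S.ncard : ℝ) ≤ hi * Tt.ncard := by
  have hS : S.Finite := by
    refine (hT.biUnion hfib).subset fun x hx => ?_
    exact Set.mem_biUnion (hπ x hx) ⟨hx, rfl⟩
  have hc : (S.ncard : ℝ) = ∑ y ∈ hT.toFinset, ({x | x ∈ S ∧ π x = y}.ncard : ℝ) := by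
    rw [Set.ncard_eq_toFinset_card S hS,
      Finset.card_eq_sum_card_fiberwise (f := π) (t := hT.toFinset)
        (fun x hx => by simpa using hπ x (by simpa using hx))]
    push_cast
    refine Finset.sum_congr rfl fun y _ => ?_
    rw [← Set.ncard_coe_finset]
    congr 2
    ext x
    simp
  refine ⟨hS, ?_, ?_⟩
  · rw [hc, Set.ncard_eq_toFinset_card Tt hT, mul_comm, ← nsmul_eq_mul]
    exact Finset.card_nsmul_le_sum _ _ _ fun y hy => (hb y (by simpa using hy)).1
  · rw [hc, Set.ncard_eq_toFinset_card Tt hT, mul_comm, ← nsmul_eq_mul]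
    exact Finset.sum_le_card_nsmul _ _ _ fun y hy => (hb y (by simpa using hy)).2

theorem seq_valid_mono {𝒱 Pp : Type} {Un : 𝒱 → Pp → Prop} {Bi : 𝒱 → 𝒱 → Pp → Pp → Prop}
    {𝒜 𝒜' : Finset 𝒱} {f f' : 𝒱 → Pp} (h : ValidOn Un Bi 𝒜 f) (hs : 𝒜' ⊆ 𝒜)
    (he : ∀ ν ∈ 𝒜', f' ν = f ν) : ValidOn Un Bi 𝒜' f' :=
  ⟨fun ν hν => by rw [he ν hν]; exact h.1 ν (hs hν), fun ν hν μ hμ hne => by
    rw [he ν hν, he μ hμ]; exact h.2 ν (hs hν) μ (hs hμ) hne⟩

theorem seq_count {𝒱 Pp : Type} [LinearOrder 𝒱] (Un : 𝒱 → Pp → Prop)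
    (Bi : 𝒱 → 𝒱 → Pp → Pp → Prop) (𝒜 𝒩 : Finset 𝒱) (hd : Disjoint 𝒜 𝒩) (lo hi : 𝒱 → ℝ)
    (hlo : ∀ ν ∈ 𝒩, 0 ≤ lo ν) (hhi : ∀ ν ∈ 𝒩, 0 ≤ hi ν) (hfin : ∀ ν ∈ 𝒩, {p | Un ν p}.Finite)
    (hstep : ∀ ν ∈ 𝒩, ∀ g, ValidOn Un Bi (𝒜 ∪ 𝒩.filter (· < ν)) g →
      lo ν ≤ ({p | ValidOn Un Bi (insert ν (𝒜 ∪ 𝒩.filter (· < ν))) (Function.update g ν p)}.ncard : ℝ) ∧
      ({p | ValidOn Un Bi (insert ν (𝒜 ∪ 𝒩.filter (· < ν))) (Function.update g ν p)}.ncard : ℝ) ≤ hi ν)
    (f : 𝒱 → Pp) (hf : ValidOn Un Bi 𝒜 f) :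
    {g | ValidOn Un Bi (𝒜 ∪ 𝒩) g ∧ ∀ ν ∉ 𝒩, g ν = f ν}.Finite ∧
      ∏ ν ∈ 𝒩, lo ν ≤ ({g | ValidOn Un Bi (𝒜 ∪ 𝒩) g ∧ ∀ ν ∉ 𝒩, g ν = f ν}.ncard : ℝ) ∧
      ({g | ValidOn Un Bi (𝒜 ∪ 𝒩) g ∧ ∀ ν ∉ 𝒩, g ν = f ν}.ncard : ℝ) ≤ ∏ ν ∈ 𝒩, hi ν := by
  induction 𝒩 using Finset.induction_on_max with
  | empty =>
    have : {g | ValidOn Un Bi (𝒜 ∪ ∅) g ∧ ∀ ν ∉ (∅ : Finset 𝒱), g ν = f ν} = {f} := by
      ext g
      simp only [Finset.union_empty, Finset.notMem_empty, not_false_eq_true, forall_const,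
        Set.mem_ofPred_eq, Set.mem_singleton_iff]
      constructor
      · exact fun h => funext h.2
      · rintro rfl
        exact ⟨hf, fun _ => rfl⟩
    rw [this]
    simp
  | insert a s hlt ih =>
    have has : a ∉ s := fun h => lt_irrefl _ (hlt a h)
    have haA : a ∉ 𝒜 := fun h => Finset.disjoint_left.mp hd h (Finset.mem_insert_self a s)
    have haU : a ∉ 𝒜 ∪ s := by simp [has, haA]
    have hfil : ∀ ν ∈ s, (insert a s).filter (· < ν) = s.filter (· < ν) := by
      intro ν hν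
      rw [Finset.filter_insert, if_neg (not_lt.mpr (hlt ν hν).le)]
    have hfila : (insert a s).filter (· < a) = s := by
      rw [Finset.filter_insert, if_neg (lt_irrefl a)]
      exact Finset.filter_true_of_mem hlt
    obtain ⟨h1, h2, h3⟩ := ih (hd.mono_right (Finset.subset_insert a s))
      (fun ν hν => hlo ν (Finset.mem_insert_of_mem hν))
      (fun ν hν => hhi ν (Finset.mem_insert_of_mem hν))
      (fun ν hν => hfin ν (Finset.mem_insert_of_mem hν))
      (fun ν hν g hg => by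
        have := hstep ν (Finset.mem_insert_of_mem hν) g (by rw [hfil ν hν]; exact hg)
        rwa [hfil ν hν] at this)
    have hst := hstep a (Finset.mem_insert_self a s)
    rw [hfila] at hst
    have hun : 𝒜 ∪ insert a s = insert a (𝒜 ∪ s) := Finset.union_insert a 𝒜 s
    have hfibre : ∀ g ∈ {g | ValidOn Un Bi (𝒜 ∪ s) g ∧ ∀ ν ∉ s, g ν = f ν},
        {x | x ∈ {g | ValidOn Un Bi (𝒜 ∪ insert a s) g ∧ ∀ ν ∉ insert a s, g ν = f ν} ∧
          Function.update x a (f a) = g} =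
        (fun p => Function.update g a p) ''
          {p | ValidOn Un Bi (insert a (𝒜 ∪ s)) (Function.update g a p)} := by
      intro g hg
      ext x
      simp only [Set.mem_ofPred_eq, Set.mem_image, hun]
      constructor
      · rintro ⟨⟨hx1, _⟩, rfl⟩
        refine ⟨x a, ?_, by simp⟩
        simpa using hx1
      · rintro ⟨p, hp, rfl⟩
        refine ⟨⟨hp, fun ν hν => ?_⟩, ?_⟩
        · rw [Finset.mem_insert, not_or] at hν
          rw [Function.update_of_ne hν.1]
          exact hg.2 ν hν.2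
        · rw [Function.update_idem, ← hg.2 a has, Function.update_eq_self]
    have hinj : ∀ g : 𝒱 → Pp, Function.Injective fun p => Function.update g a p :=
      fun g p p' h => by simpa using congrFun h a
    obtain ⟨k1, k2, k3⟩ := seq_fiber
      {g | ValidOn Un Bi (𝒜 ∪ insert a s) g ∧ ∀ ν ∉ insert a s, g ν = f ν}
      {g | ValidOn Un Bi (𝒜 ∪ s) g ∧ ∀ ν ∉ s, g ν = f ν} h1
      (fun x => Function.update x a (f a))
      (fun x hx => ⟨seq_valid_mono hx.1
          (Finset.union_subset_union (Finset.Subset.refl _) (Finset.subset_insert a s))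
          (fun ν hν => Function.update_of_ne (fun h : ν = a => haU (h ▸ hν)) _ _), fun ν hν => by
        by_cases h : ν = a
        · subst h; simp
        · rw [Function.update_of_ne h]
          exact hx.2 ν (by simp [h, hν])⟩)
      (fun g hg => by
        rw [hfibre g hg]
        refine Set.Finite.image _ ((hfin a (Finset.mem_insert_self a s)).subset fun p hp => ?_)
        simpa using hp.1 a (Finset.mem_insert_self a _))
      (lo a) (hi a)
      (fun g hg => by
        rw [hfibre g hg, Set.ncard_image_of_injective _ (hinj g)]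
        exact hst g hg.1)
    refine ⟨k1, ?_, ?_⟩
    · rw [Finset.prod_insert has]
      exact (mul_le_mul_of_nonneg_left h2 (hlo a (Finset.mem_insert_self a s))).trans k2
    · rw [Finset.prod_insert has]
      exact k3.trans (mul_le_mul_of_nonneg_left h3 (hhi a (Finset.mem_insert_self a s)))

theorem marginal {Ω Y : Type} (Om : Finset Ω) (YY : Finset Y) (pr : Ω → Y)
    (hpr : ∀ ω ∈ Om, pr ω ∈ YY) {a b : ℝ} (ha : 0 < a)
    (h : ∀ y ∈ YY, a ≤ (Om.filter fun ω => pr ω = y).card ∧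
      ((Om.filter fun ω => pr ω = y).card : ℝ) ≤ b) (B : Finset Y) (hB : B ⊆ YY) :
    ((Om.filter fun ω => pr ω ∈ B).card : ℝ) * YY.card ≤ b / a * Om.card * B.card ∧
      (Om.card : ℝ) * B.card ≤ b / a * (Om.filter fun ω => pr ω ∈ B).card * YY.card ∧
      a * YY.card ≤ Om.card := by
  have key : ∀ C : Finset Y, C ⊆ YY →
      a * C.card ≤ ((Om.filter fun ω => pr ω ∈ C).card : ℝ) ∧
        ((Om.filter fun ω => pr ω ∈ C).card : ℝ) ≤ b * C.card := by
    intro C hC
    have hc : ((Om.filter fun ω => pr ω ∈ C).card : ℝ) =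
        ∑ y ∈ C, ((Om.filter fun ω => pr ω = y).card : ℝ) := by
      rw [Finset.card_eq_sum_card_fiberwise (f := pr) (s := Om.filter fun ω => pr ω ∈ C) (t := C)
        (fun x hx => (Finset.mem_filter.mp hx).2)]
      push_cast
      refine Finset.sum_congr rfl fun y hy => ?_
      congr 2
      ext x
      simp only [Finset.mem_filter]
      constructor
      · exact fun hx => ⟨hx.1.1, hx.2⟩
      · exact fun hx => ⟨⟨hx.1, hx.2 ▸ hy⟩, hx.2⟩
    constructor
    · rw [hc, mul_comm, ← nsmul_eq_mul]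
      exact Finset.card_nsmul_le_sum _ _ _ fun y hy => (h y (hC hy)).1
    · rw [hc, mul_comm, ← nsmul_eq_mul]
      exact Finset.sum_le_card_nsmul _ _ _ fun y hy => (h y (hC hy)).2
  obtain ⟨h1, h2⟩ := key B hB
  obtain ⟨h3, h4⟩ := key YY (Finset.Subset.refl _)
  rw [Finset.filter_true_of_mem hpr] at h3 h4
  have n1 : (0 : ℝ) ≤ (Om.filter fun ω => pr ω ∈ B).card := Nat.cast_nonneg _
  have n2 : (0 : ℝ) ≤ YY.card := Nat.cast_nonneg _
  have n3 : (0 : ℝ) ≤ B.card := Nat.cast_nonneg _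
  have n4 : (0 : ℝ) ≤ Om.card := Nat.cast_nonneg _
  refine ⟨?_, ?_, h3⟩
  · have : b / a * Om.card * B.card = (b * B.card) * Om.card / a := by ring
    rw [this, le_div_iff₀ ha]
    calc ((Om.filter fun ω => pr ω ∈ B).card : ℝ) * YY.card * a
        = ((Om.filter fun ω => pr ω ∈ B).card : ℝ) * (a * YY.card) := by ring
      _ ≤ (b * B.card) * Om.card := mul_le_mul h2 h3 (by positivity) (n1.trans h2)
  · have : b / a * (Om.filter fun ω => pr ω ∈ B).card * YY.card =
        (b * YY.card) * (Om.filter fun ω => pr ω ∈ B).card / a := by ring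
    rw [this, le_div_iff₀ ha]
    calc (Om.card : ℝ) * B.card * a = (Om.card : ℝ) * (a * B.card) := by ring
      _ ≤ (b * YY.card) * (Om.filter fun ω => pr ω ∈ B).card :=
        mul_le_mul h4 h1 (by positivity) (n4.trans h4)

variable {W P : Type} [Group W]

namespace Tame

variable (T : Tame W P)

/-- degree and symbols at the fixed places -/
def Un {𝒱 : Type} (A0 : Finset P) (e : 𝒱 → ℕ) (cl : 𝒱 → P → F3) (ν : 𝒱) (p : P) : Prop :=
  T.dg p = e ν ∧ p ∉ A0 ∧ ∀ a ∈ A0.erase T.inf, T.χ a (T.σ p) = cl ν a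

/-- distinctness and mutual symbols -/
def Bi {𝒱 : Type} (adj : 𝒱 → 𝒱 → Prop) (s : 𝒱 → 𝒱 → F3) (ν μ : 𝒱) (p p' : P) : Prop :=
  p ≠ p' ∧ (adj ν μ → T.χ p' (T.σ p) = s ν μ)

/-- the expected number of choices -/
def wtp (e n : ℕ) : ℝ := (T.q : ℝ) ^ e / e * (3 : ℝ)⁻¹ ^ n

theorem seq_eta_nonneg {η : ℝ} {N c e : ℕ} (h : T.Small η N c e) : 0 ≤ η := by
  have hq : (0 : ℝ) < T.q := by
    have := T.q_ge
    exact_mod_cast (by omega : 0 < T.q)
  have h0 : (0 : ℝ) ≤ (N : ℝ) * (T.err N c e + 2 * (T.q : ℝ) ^ ((e + 1) / 2) + c) := by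
    unfold Pre.err
    positivity
  exact nonneg_of_mul_nonneg_left (h0.trans h) (pow_pos hq e)

theorem seq_wtp_nonneg (e n : ℕ) : 0 ≤ T.wtp e n := by
  unfold wtp
  positivity

theorem seq_step {𝒱 : Type} [LinearOrder 𝒱] {A0 : Finset P} (hA : T.inf ∈ A0) (e : 𝒱 → ℕ)
    (cl : 𝒱 → P → F3) (adj : 𝒱 → 𝒱 → Prop) (hadj : ∀ ν μ, adj ν μ → adj μ ν) (s : 𝒱 → 𝒱 → F3)
    (hs : ∀ ν μ, s ν μ = s μ ν) (prev : Finset 𝒱) (ν : 𝒱) (hν : ν ∉ prev) {η : ℝ}
    (he : 0 < e ν)
    (hsm : T.Small η (3 ^ (A0.card + prev.card)) (∑ v ∈ A0, T.dg v + ∑ μ ∈ prev, e μ) (e ν))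
    (g : 𝒱 → P) (hg : ValidOn (T.Un A0 e cl) (T.Bi adj s) prev g) :
    (1 - η) * T.wtp (e ν) ((A0.erase T.inf).card + (prev.filter (adj ν)).card) ≤
      ({p | ValidOn (T.Un A0 e cl) (T.Bi adj s) (insert ν prev) (Function.update g ν p)}.ncard : ℝ) ∧
    ({p | ValidOn (T.Un A0 e cl) (T.Bi adj s) (insert ν prev) (Function.update g ν p)}.ncard : ℝ) ≤
      (1 + η) * T.wtp (e ν) ((A0.erase T.inf).card + (prev.filter (adj ν)).card) := by
  have hinj : Set.InjOn g prev := fun μ hμ μ' hμ' h => by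
    by_contra hne
    exact (hg.2 μ hμ μ' hμ' hne).1 h
  have hout : ∀ μ ∈ prev, g μ ∉ A0 := fun μ hμ => (hg.1 μ hμ).2.1
  set A : Finset P := A0 ∪ prev.image g with hAdef
  set A' : Finset P := A0.erase T.inf ∪ (prev.filter (adj ν)).image g with hA'def
  set c : P → F3 := fun a =>
    if a ∈ A0 then cl ν a else if h : ∃ μ ∈ prev, g μ = a then s ν h.choose else 0 with hc
  have hc0 : ∀ a ∈ A0, c a = cl ν a := fun a ha => if_pos ha
  have hc1 : ∀ μ ∈ prev, c (g μ) = s ν μ := by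
    intro μ hμ
    have h : ∃ μ' ∈ prev, g μ' = g μ := ⟨μ, hμ, rfl⟩
    have h' : c (g μ) = s ν h.choose := by
      simp only [hc]
      rw [if_neg (hout μ hμ), dif_pos h]
    rw [h', hinj h.choose_spec.1 hμ h.choose_spec.2]
  have hupd : ∀ p, ∀ μ ∈ prev, Function.update g ν p μ = g μ :=
    fun p μ hμ => Function.update_of_ne (fun h : μ = ν => hν (h ▸ hμ)) _ _
  have hset : {p | ValidOn (T.Un A0 e cl) (T.Bi adj s) (insert ν prev) (Function.update g ν p)} =
      T.Pr A A' c (e ν) := by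
    ext p
    simp only [Set.mem_ofPred_eq, Pr]
    constructor
    · rintro ⟨h1, h2⟩
      have k1 := h1 ν (Finset.mem_insert_self _ _)
      rw [Function.update_self] at k1
      have k2 : ∀ μ ∈ prev, T.Bi adj s ν μ p (g μ) := by
        intro μ hμ
        have := h2 ν (Finset.mem_insert_self _ _) μ (Finset.mem_insert_of_mem hμ)
          (fun h => hν (h ▸ hμ))
        rwa [Function.update_self, hupd p μ hμ] at this
      refine ⟨k1.1, fun hp => ?_, fun a ha => ?_⟩
      · rcases Finset.mem_union.mp hp with hp | hp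
        · exact k1.2.1 hp
        · obtain ⟨μ, hμ, rfl⟩ := Finset.mem_image.mp hp
          exact (k2 μ hμ).1 rfl
      · rcases Finset.mem_union.mp ha with ha | ha
        · rw [hc0 a (Finset.mem_of_mem_erase ha)]
          exact k1.2.2 a ha
        · obtain ⟨μ, hμ, rfl⟩ := Finset.mem_image.mp ha
          rw [Finset.mem_filter] at hμ
          rw [hc1 μ hμ.1]
          exact (k2 μ hμ.1).2 hμ.2
    · rintro ⟨h1, h2, h3⟩
      have hp0 : p ∉ A0 := fun h => h2 (Finset.mem_union_left _ h)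
      have hpg : ∀ μ ∈ prev, p ≠ g μ := fun μ hμ h =>
        h2 (Finset.mem_union_right _ (Finset.mem_image.mpr ⟨μ, hμ, h.symm⟩))
      have hsym : ∀ μ ∈ prev, adj ν μ → T.χ (g μ) (T.σ p) = s ν μ := by
        intro μ hμ hadjμ
        rw [← hc1 μ hμ]
        exact h3 _ (Finset.mem_union_right _
          (Finset.mem_image.mpr ⟨μ, Finset.mem_filter.mpr ⟨hμ, hadjμ⟩, rfl⟩))
      constructor
      · intro μ hμ
        rcases Finset.mem_insert.mp hμ with rfl | hμ
        · rw [Function.update_self]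
          refine ⟨h1, hp0, fun a ha => ?_⟩
          rw [← hc0 a (Finset.mem_of_mem_erase ha)]
          exact h3 a (Finset.mem_union_left _ ha)
        · rw [hupd p μ hμ]
          exact hg.1 μ hμ
      · intro μ hμ μ' hμ' hne
        rcases Finset.mem_insert.mp hμ with hμν | hμ
        · rcases Finset.mem_insert.mp hμ' with hμν' | hμ'
          · exact absurd (hμν.trans hμν'.symm) hne
          · rw [hμν, Function.update_self, hupd p μ' hμ']
            exact ⟨hpg μ' hμ', hsym μ' hμ'⟩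
        · rcases Finset.mem_insert.mp hμ' with hμν' | hμ'
          · rw [hμν', Function.update_self, hupd p μ hμ]
            refine ⟨(hpg μ hμ).symm, fun hadjμ => ?_⟩
            rw [chi_symm (T := T) (v := p) (w := g μ) (fun h => hp0 (h ▸ hA))
              (fun h => hout μ hμ (h ▸ hA)) (hpg μ hμ), hs]
            exact hsym μ hμ (hadj _ _ hadjμ)
          · rw [hupd p μ hμ, hupd p μ' hμ']
            exact hg.2 μ hμ μ' hμ' hne
  have hcard : A'.card = (A0.erase T.inf).card + (prev.filter (adj ν)).card := by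
    rw [hA'def, Finset.card_union_of_disjoint, Finset.card_image_of_injOn
      (hinj.mono (Finset.coe_subset.mpr (Finset.filter_subset _ _)))]
    rw [Finset.disjoint_right]
    intro a ha ha'
    obtain ⟨μ, hμ, rfl⟩ := Finset.mem_image.mp ha
    exact hout μ (Finset.mem_filter.mp hμ).1 (Finset.mem_of_mem_erase ha')
  have hsum : ∑ v ∈ A, T.dg v = ∑ v ∈ A0, T.dg v + ∑ μ ∈ prev, e μ := by
    rw [hAdef, Finset.sum_union, Finset.sum_image hinj]
    · congr 1
      exact Finset.sum_congr rfl fun μ hμ => (hg.1 μ hμ).1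
    · rw [Finset.disjoint_right]
      intro a ha ha'
      obtain ⟨μ, hμ, rfl⟩ := Finset.mem_image.mp ha
      exact hout μ hμ ha'
  have hAinf : T.inf ∈ A := Finset.mem_union_left _ hA
  have hsub : A' ⊆ A.erase T.inf := by
    intro a ha
    rcases Finset.mem_union.mp ha with ha | ha
    · exact Finset.mem_erase.mpr ⟨Finset.ne_of_mem_erase ha,
        Finset.mem_union_left _ (Finset.mem_of_mem_erase ha)⟩
    · obtain ⟨μ, hμ, rfl⟩ := Finset.mem_image.mp ha
      have hμ' := (Finset.mem_filter.mp hμ).1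
      exact Finset.mem_erase.mpr ⟨fun h => hout μ hμ' (h ▸ hA),
        Finset.mem_union_right _ (Finset.mem_image_of_mem g hμ')⟩
  have hsm' : T.Small η (3 ^ A'.card) (∑ v ∈ A, T.dg v) (e ν) := by
    refine hsm.mono le_rfl (Nat.pow_le_pow_right (by norm_num) ?_) hsum.le
    rw [hcard]
    exact Nat.add_le_add Finset.card_erase_le (Finset.card_filter_le _ _)
  rw [hset, ← hcard]
  exact ⟨pr_lower hAinf hsub c he hsm', pr_upper hAinf hsub c he hsm'⟩

theorem valid_count {𝒱 : Type} [LinearOrder 𝒱] {A0 : Finset P} (hA : T.inf ∈ A0) (e : 𝒱 → ℕ)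
    (cl : 𝒱 → P → F3) (adj : 𝒱 → 𝒱 → Prop) (hadj : ∀ ν μ, adj ν μ → adj μ ν) (s : 𝒱 → 𝒱 → F3)
    (hs : ∀ ν μ, s ν μ = s μ ν) (𝒜 𝒩 : Finset 𝒱) (hd : Disjoint 𝒜 𝒩) (η : 𝒱 → ℝ)
    (he : ∀ ν ∈ 𝒩, 0 < e ν) (hη : ∀ ν ∈ 𝒩, η ν ≤ 1)
    (hsm : ∀ ν ∈ 𝒩, T.Small (η ν) (3 ^ (A0.card + (𝒜 ∪ 𝒩.filter (· < ν)).card))
      (∑ v ∈ A0, T.dg v + ∑ μ ∈ 𝒜 ∪ 𝒩.filter (· < ν), e μ) (e ν))
    (f : 𝒱 → P) (hf : ValidOn (T.Un A0 e cl) (T.Bi adj s) 𝒜 f) :
    {g | ValidOn (T.Un A0 e cl) (T.Bi adj s) (𝒜 ∪ 𝒩) g ∧ ∀ ν ∉ 𝒩, g ν = f ν}.Finite ∧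
      ∏ ν ∈ 𝒩, (1 - η ν) * T.wtp (e ν)
          ((A0.erase T.inf).card + ((𝒜 ∪ 𝒩.filter (· < ν)).filter (adj ν)).card) ≤
        ({g | ValidOn (T.Un A0 e cl) (T.Bi adj s) (𝒜 ∪ 𝒩) g ∧ ∀ ν ∉ 𝒩, g ν = f ν}.ncard : ℝ) ∧
      ({g | ValidOn (T.Un A0 e cl) (T.Bi adj s) (𝒜 ∪ 𝒩) g ∧ ∀ ν ∉ 𝒩, g ν = f ν}.ncard : ℝ) ≤
        ∏ ν ∈ 𝒩, (1 + η ν) * T.wtp (e ν)
          ((A0.erase T.inf).card + ((𝒜 ∪ 𝒩.filter (· < ν)).filter (adj ν)).card) := by
  refine seq_count (T.Un A0 e cl) (T.Bi adj s) 𝒜 𝒩 hd _ _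
    (fun ν hν => mul_nonneg (sub_nonneg.mpr (hη ν hν)) (T.seq_wtp_nonneg _ _))
    (fun ν hν => mul_nonneg (add_nonneg zero_le_one (T.seq_eta_nonneg (hsm ν hν)))
      (T.seq_wtp_nonneg _ _))
    (fun ν _ => (T.dg_fin (e ν)).subset fun p hp => hp.1) (fun ν hν g hg => ?_) f hf
  refine T.seq_step hA e cl adj hadj s hs _ ν (fun h => ?_) (he ν hν) (hsm ν hν) g hg
  rcases Finset.mem_union.mp h with h | h
  · exact Finset.disjoint_left.mp hd h hν
  · exact lt_irrefl _ (Finset.mem_filter.mp h).2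

end Tame

end

end Pool.Agent.Smith
end

-- merged part: Pool.Agent.Work.MP_60d5ce_nt.Sm.BoxA
section
/-!
# Boxes of primes: definitions, classes of level one, equidistribution of the symbols

Hints.
* `hom_σ`: `homU_expand` (or `hom_expand` coordinatewise) at `σ (p i)`.
* `exists_w`: `homU_expand`; `lc_iff`: expand `Lc` with `hom_σ` and `chi_symm`; the diagonal term
  `χ (p i) (σ (p i)) • n i` appears on both sides.
* `exists_sol`: `StrongSel.sel`, `Coc.hom_dig`, `LocOK.lc`; a trivial solution gives `w = wt t`.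
* `fib_card`: `valid_count` with `𝒜 = ∅`, `𝒩 = univ`, all pairs adjacent, `s = sym c.2`; the box is the
  product of the sets `Pr S1 ∅ 0 (e i)` (`pr_lower`); `∏ (1 + η) ≤ 8 / 7`, `∏ (1 - η) ≥ 7 / 8`;
  `card_Cfg`.
-/

namespace Pool.Agent.Smith

open scoped Classical

noncomputable section

variable {W P : Type} [Group W] {T : Tame W P}

/-- a box: fixed places, a fixed character, distinct degrees -/
structure Box (R : Rep T) (ι : Type) where
  S1 : Finset P
  x0 : W → F3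
  e : ι → ℕ
  S_sub : R.S ⊆ S1
  x0_hom : T.IsHom x0
  x0_unr : ∀ v ∉ S1, x0 (T.τ v) = 0
  e_inj : Function.Injective e
  e_pos : ∀ i, 0 < e i

namespace Box

variable {R : Rep T} {ι : Type} [Fintype ι] [LinearOrder ι] (X : Box R ι)

/-- the points of the box -/
def pts : Set (ι → P) := {p | ∀ i, T.dg (p i) = X.e i ∧ p i ∉ X.S1}

/-- the twist -/
def x (p : ι → P) (g : W) : F3 := X.x0 g + ∑ i, T.χ (p i) g

/-- the places with a local condition -/
def A (p : ι → P) : Finset P := X.S1 ∪ Finset.univ.image p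

/-- the finite fixed places -/
abbrev κ : Type := {a // a ∈ X.S1.erase T.inf}

/-- the symbols of a point -/
def cfg (p : ι → P) : Cfg ι X.κ :=
  (fun i a => T.χ a.1 (T.σ (p i)), fun z => T.χ (p z.1.2) (T.σ (p z.1.1)))

/-- the affine function attached to a homomorphism -/
def aff {B : Type} (h : W → B) : Aff X.κ B := (fun a => h (T.τ a.1), h (T.σ T.inf))

/-- the class with given ramification -/
def w (p : ι → P) (z : Aff X.κ Vb × (ι → Vb)) (g : W) : Vb :=
  ∑ a : X.κ, T.χ a.1 g • z.1.1 a + (T.deg g : F3) • z.1.2 + ∑ i, T.χ (p i) g • z.2 i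

/-- classes of level one -/
def Sol (c : Cfg ι X.κ) : Finset (Aff X.κ Vb × (ι → Vb)) :=
  Smith.Sol (fun i => (X.e i : F3)) (X.aff X.x0) (X.aff R.M) c

/-- points with given symbols -/
def fib (c : Cfg ι X.κ) : Set (ι → P) := {p | p ∈ X.pts ∧ X.cfg p = c}

/-- error terms for the equidistribution of all symbols -/
def SmA (η : ι → ℝ) : Prop :=
  ∑ i, η i ≤ 1 / 8 ∧ ∀ i, T.Small (η i) (3 ^ (X.S1.card + (Finset.univ.filter (· < i)).card))
    (∑ v ∈ X.S1, T.dg v + ∑ j ∈ Finset.univ.filter (· < i), X.e j) (X.e i)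

/-- error terms for the large degrees -/
def SmL (B : ℕ) (L : Finset ι) : Prop :=
  ∀ j ∈ L, T.Small (1 / (B : ℝ)) (B * 3 ^ (X.S1.card + Fintype.card ι))
    (∑ v ∈ X.S1, T.dg v + B * ∑ i, X.e i) (X.e j)

variable {X}

theorem pts_finite : X.pts.Finite :=
  (Set.Finite.pi' fun i => T.dg_fin (X.e i)).subset fun _ hp i => (hp i).1

theorem inj {p : ι → P} (hp : p ∈ X.pts) : Function.Injective p := fun i j h =>
  X.e_inj (by rw [← (hp i).1, ← (hp j).1, h])

theorem BoxA_inf : T.inf ∈ X.S1 := X.S_sub R.inf_mem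

theorem BoxA_ne {p : ι → P} (hp : p ∈ X.pts) (i : ι) : p i ≠ T.inf := fun h =>
  (hp i).2 (h ▸ BoxA_inf)

theorem x_hom (p : ι → P) : T.IsHom (X.x p) :=
  Tame.hom_add X.x0_hom (Tame.hom_sum Finset.univ fun i _ => T.χ_hom (p i))

theorem x_unr (p : ι → P) : ∀ v ∉ X.A p, X.x p (T.τ v) = 0 := by
  intro v hv
  rw [A, Finset.mem_union, not_or] at hv
  rw [x, X.x0_unr v hv.1, zero_add]
  exact Finset.sum_eq_zero fun i _ => T.χ_ne _ v
    (fun h => hv.2 (Finset.mem_image.2 ⟨i, Finset.mem_univ i, h.symm⟩))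
    fun h => hv.1 (h ▸ BoxA_inf)

theorem x_τ {p : ι → P} (hp : p ∈ X.pts) (i : ι) : X.x p (T.τ (p i)) = 1 := by
  rw [x, X.x0_unr _ (hp i).2, zero_add, Finset.sum_eq_single i
    (fun j _ hj => T.χ_ne _ _ (fun h => hj (inj hp h).symm) (BoxA_ne hp i)) (by simp),
    T.χ_self _ (BoxA_ne hp i)]

theorem chi_sym {p : ι → P} (hp : p ∈ X.pts) {i j : ι} (h : i ≠ j) :
    T.χ (p j) (T.σ (p i)) = sym (X.cfg p).2 i j := by
  unfold sym
  split_ifs with h1 h2
  · rfl
  · exact Tame.chi_symm (BoxA_ne hp j) (BoxA_ne hp i) fun h0 => h (inj hp h0).symm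
  · exact absurd (le_antisymm (not_lt.1 h1) (not_lt.1 h2)) h

theorem BoxA_expand {p : ι → P} (hp : p ∈ X.pts) {h : W → Vb} (hh : h ∈ T.HomU (X.A p)) :
    h = X.w p (X.aff h, fun i => h (T.τ (p i))) := by
  funext g
  have e : (X.A p).erase T.inf = X.S1.erase T.inf ∪ Finset.univ.image p := by
    rw [A, Finset.erase_union_distrib, Finset.erase_eq_of_notMem (s := Finset.univ.image p)]
    intro h0
    obtain ⟨i, -, hi⟩ := Finset.mem_image.1 h0
    exact BoxA_ne hp i hi
  have hd : Disjoint (X.S1.erase T.inf) (Finset.univ.image p) := by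
    rw [Finset.disjoint_right]
    intro v hv h1
    obtain ⟨i, -, rfl⟩ := Finset.mem_image.1 hv
    exact (hp i).2 (Finset.mem_of_mem_erase h1)
  rw [Tame.homU_expand hh g, e, Finset.sum_union hd, Finset.sum_image fun i _ j _ h0 => inj hp h0,
    ← Finset.sum_coe_sort (X.S1.erase T.inf), add_right_comm]
  rfl

theorem exists_w {p : ι → P} (hp : p ∈ X.pts) {h : W → Vb} (hh : h ∈ T.HomU (X.A p)) :
    ∃ z, h = X.w p z := ⟨_, BoxA_expand hp hh⟩

theorem BoxA_hom {h : W → F3} (hh : T.IsHom h) (h0 : ∀ v ∉ X.S1, h (T.τ v) = 0) (g : W) :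
    h g = ev (T.deg g : F3) (X.aff h) fun a => T.χ a.1 g := by
  rw [Tame.hom_expand hh (A := X.S1) (fun v hv _ => h0 v hv) g,
    ← Finset.sum_coe_sort (X.S1.erase T.inf)]
  rfl

theorem BoxA_M (g : W) : R.M g = ev (T.deg g : F3) (X.aff R.M) fun a => T.χ a.1 g := by
  ext a b
  rw [BoxA_hom (X := X) (Rep.M_hom (R := R) a b)
    (fun v hv => by rw [Rep.M_unr fun h => hv (X.S_sub h)]; rfl) g]
  simp [ev, aff, Matrix.sum_apply]

theorem BoxA_w_τ {p : ι → P} (hp : p ∈ X.pts) (z : Aff X.κ Vb × (ι → Vb)) (i : ι) :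
    X.w p z (T.τ (p i)) = z.2 i := by
  rw [w, Finset.sum_eq_zero fun a _ => by
      rw [T.χ_ne a.1 (p i) (fun h => (hp i).2 (h ▸ Finset.mem_of_mem_erase a.2)) (BoxA_ne hp i),
        zero_smul],
    Finset.sum_eq_single i (fun j _ hj => by
      rw [T.χ_ne _ _ (fun h => hj (inj hp h).symm) (BoxA_ne hp i), zero_smul]) (by simp),
    T.χ_self _ (BoxA_ne hp i), T.deg_τ]
  simp

theorem lc_iff {p : ι → P} (hp : p ∈ X.pts) (z : Aff X.κ Vb × (ι → Vb)) :
    (∀ i, R.Lc (X.x p (T.σ (p i))) (p i) (X.w p z)) ↔ z ∈ X.Sol (X.cfg p) := by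
  simp only [Sol, Smith.Sol, Finset.mem_filter, Finset.mem_univ, true_and]
  refine forall_congr' fun i => ?_
  have hd : ((T.deg (T.σ (p i)) : ℤ) : F3) = (X.e i : F3) := by
    rw [T.deg_σ, (hp i).1, Int.cast_natCast]
  have e1 : X.x0 (T.σ (p i)) = ev (X.e i : F3) (X.aff X.x0) ((X.cfg p).1 i) := by
    rw [BoxA_hom X.x0_hom X.x0_unr, hd]; rfl
  have e2 : R.M (T.σ (p i)) = ev (X.e i : F3) (X.aff R.M) ((X.cfg p).1 i) := by
    rw [BoxA_M (X := X), hd]; rfl
  have e3 : X.w p z (T.σ (p i)) =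
      ev (X.e i : F3) z.1 ((X.cfg p).1 i) + ∑ j, T.χ (p j) (T.σ (p i)) • z.2 j := by
    rw [w, hd]; rfl
  have e4 : ∑ j, sym (X.cfg p).2 i j • (z.2 j - z.2 i) =
      ∑ j, T.χ (p j) (T.σ (p i)) • z.2 j - (∑ j, T.χ (p j) (T.σ (p i))) • z.2 i := by
    rw [Finset.sum_smul, ← Finset.sum_sub_distrib]
    refine Finset.sum_congr rfl fun j _ => ?_
    by_cases h : i = j
    · subst h
      simp
    · rw [← chi_sym hp h, smul_sub]
  rw [Rep.Lc, BoxA_w_τ hp, e3, e4, x, e1, e2, add_smul]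
  constructor
  · intro h
    linear_combination h
  · intro h
    linear_combination h

theorem g1_card {p : ι → P} (hp : p ∈ X.pts) :
    (R.G1 (X.A p) (Finset.univ.image p) fun v => X.x p (T.σ v)).ncard ≤
      (X.Sol (X.cfg p)).card := by
  rw [← Set.ncard_coe_finset]
  refine le_trans (Set.ncard_le_ncard ?_ ((Finset.finite_toSet _).image _))
    (Set.ncard_image_le (f := X.w p) (Finset.finite_toSet _))
  rintro h ⟨h1, h2⟩
  obtain ⟨z, rfl⟩ := exists_w hp h1
  exact ⟨z, (lc_iff hp z).1 fun i => h2 _ (Finset.mem_image_of_mem p (Finset.mem_univ i)), rfl⟩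

theorem BoxA_triv (p : ι → P) {z : Aff X.κ Vb × (ι → Vb)}
    (h : TrivS (X.aff X.x0) (X.aff R.M) z) : ∃ t, ∀ g, X.w p z g = R.wt (X.x p) t g := by
  obtain ⟨t, h1, h2, h3⟩ := h
  refine ⟨t, fun g => ?_⟩
  rw [Rep.wt, x, BoxA_hom X.x0_hom X.x0_unr g, BoxA_M (X := X) g, w]
  simp only [h1, h2, h3, ev, smul_add, Finset.sum_add_distrib, Matrix.add_mulVec, Matrix.sum_mulVec,
    Matrix.smul_mulVec, neg_add, add_smul, neg_smul, smul_neg, Finset.sum_neg_distrib,
    Finset.sum_smul, smul_eq_mul, mul_smul]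
  abel

theorem exists_sol {p : ι → P} (hp : p ∈ X.pts) {K : ℕ} (hK : 1 ≤ K) (h : ¬ R.Triv (X.x p) K) :
    ∃ z ∈ X.Sol (X.cfg p), ¬ TrivS (X.aff X.x0) (X.aff R.M) z ∧
      R.Lifts (X.A p) (X.x p) K (X.w p z) := by
  unfold Rep.Triv at h
  push Not at h
  obtain ⟨ψ, hψ, hn⟩ := h
  have hs : R.Sel (X.A p) (X.x p) K ψ :=
    hψ.sel (X.S_sub.trans Finset.subset_union_left) (x_unr p)
  have hh : (fun g => digV 0 (ψ g)) ∈ T.HomU (X.A p) :=
    ⟨Rep.Coc.hom_dig (j := 0) (hψ.1.mono hK) fun g => VD.triv _,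
      fun v hv _ => (digV_eq_zero_iff (VD.triv _)).2 ((hs.2.2 v hv).mono hK)⟩
  obtain ⟨z, hz⟩ := exists_w hp hh
  refine ⟨z, (lc_iff hp z).1 fun i => ?_, fun ht => ?_, ψ, hs, fun g => congrFun hz g⟩
  · rw [← hz]
    exact (hψ.2 (p i)).lc (fun h => (hp i).2 (X.S_sub h)) (x_τ hp i) hK fun g _ => VD.triv _
  · obtain ⟨t, ht⟩ := BoxA_triv p ht
    obtain ⟨g, hg⟩ := hn t
    exact hg ((congrFun hz g).trans (ht g))

omit [LinearOrder ι] [Fintype ι] in
theorem BoxA_prod (s : Finset ι) {η : ι → ℝ} (h0 : ∀ i, 0 ≤ η i) (h1 : ∀ i, η i ≤ 1) :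
    1 - ∑ i ∈ s, η i ≤ ∏ i ∈ s, (1 - η i) := by
  induction s using Finset.induction_on with
  | empty => simp
  | insert i s hi ih =>
    rw [Finset.sum_insert hi, Finset.prod_insert hi]
    have h2 : 0 ≤ ∑ i ∈ s, η i := Finset.sum_nonneg fun j _ => h0 j
    nlinarith [mul_le_mul_of_nonneg_left ih (sub_nonneg.2 (h1 i)), mul_nonneg (h0 i) h2]

theorem fib_card {η : ι → ℝ} (h : X.SmA η) (c : Cfg ι X.κ) :
    (X.fib c).ncard * Fintype.card (Cfg ι X.κ) ≤ 2 * X.pts.ncard := by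
  have h0 : ∀ i, 0 ≤ η i := fun i => T.seq_eta_nonneg (h.2 i)
  have h1 : ∀ i, η i ≤ 1 := fun i =>
    ((Finset.single_le_sum (fun j _ => h0 j) (Finset.mem_univ i)).trans h.1).trans (by norm_num)
  obtain ⟨hfin, -, hup⟩ := T.valid_count (BoxA_inf (X := X)) X.e
    (fun i a => if ha : a ∈ X.S1.erase T.inf then c.1 i ⟨a, ha⟩ else 0) (fun _ _ => True)
    (fun _ _ h => h) (sym c.2) (sym_symm c.2) ∅ Finset.univ (Finset.disjoint_empty_left _) η
    (fun i _ => X.e_pos i) (fun i _ => h1 i)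
    (fun i _ => by rw [Finset.empty_union]; exact h.2 i) (fun _ => T.inf)
    ⟨fun _ h => absurd h (Finset.notMem_empty _), fun _ h => absurd h (Finset.notMem_empty _)⟩
  have k1 : ((X.fib c).ncard : ℝ) ≤ ∏ i, (1 + η i) * T.wtp (X.e i)
      (Fintype.card X.κ + (Finset.univ.filter (· < i)).card) := by
    refine le_trans (Nat.cast_le.2 (Set.ncard_le_ncard ?_ hfin)) (hup.trans_eq ?_)
    · rintro p ⟨hp, rfl⟩
      refine ⟨⟨fun i _ => ⟨(hp i).1, (hp i).2, fun a ha => ?_⟩, fun i _ j _ hij =>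
        ⟨fun h => hij (inj hp h), fun _ => chi_sym hp hij⟩⟩,
          fun i hi => absurd (Finset.mem_univ i) hi⟩
      exact Eq.symm (dif_pos ha)
    · simp only [Finset.empty_union, Finset.filter_true, Fintype.card_coe]
  have k2 : ∏ i, (1 - η i) * ((T.q : ℝ) ^ X.e i / X.e i) ≤ X.pts.ncard := by
    have e : X.pts = ↑(Fintype.piFinset fun i =>
        (Tame.pr_finite (T := T) X.S1 ∅ 0 (X.e i)).toFinset) := by
      ext p
      simp [pts, Tame.Pr]
    rw [e, Set.ncard_coe_finset, Fintype.card_piFinset, Nat.cast_prod]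
    refine Finset.prod_le_prod (fun i _ => mul_nonneg (sub_nonneg.2 (h1 i)) (by positivity))
      fun i _ => ?_
    have k3 := Tame.pr_lower (BoxA_inf (X := X)) (Finset.empty_subset _) 0 (X.e_pos i)
      ((h.2 i).mono le_rfl (Nat.pow_le_pow_right (by norm_num) (Nat.zero_le _))
        (Nat.le_add_right _ _))
    rw [Finset.card_empty, pow_zero, mul_one, Set.ncard_eq_toFinset_card _
      (Tame.pr_finite (T := T) X.S1 ∅ 0 (X.e i))] at k3
    exact k3
  have k4 : (7 / 8 : ℝ) ≤ ∏ i, (1 - η i) := by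
    have := BoxA_prod Finset.univ h0 h1
    linarith [h.1]
  have k5 : (∏ i, (1 + η i)) * ∏ i, (1 - η i) ≤ 1 := by
    rw [← Finset.prod_mul_distrib]
    exact Finset.prod_le_one (fun i _ => mul_nonneg (by linarith [h0 i]) (sub_nonneg.2 (h1 i)))
      fun i _ => by nlinarith [h0 i]
  have k6 : 0 ≤ ∏ i, (1 + η i) := Finset.prod_nonneg fun i _ => by linarith [h0 i]
  have k7 : ∏ i, (1 + η i) ≤ 2 * ∏ i, (1 - η i) := by nlinarith
  have k8 : (0 : ℝ) ≤ ∏ i, (T.q : ℝ) ^ X.e i / X.e i := Finset.prod_nonneg fun i _ => by positivity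
  have k9 : (∏ i, (1 + η i) * T.wtp (X.e i) (Fintype.card X.κ + (Finset.univ.filter (· < i)).card)) *
      (Fintype.card (Cfg ι X.κ) : ℝ) = (∏ i, (1 + η i)) * ∏ i, (T.q : ℝ) ^ X.e i / X.e i := by
    have k0 : Fintype.card (Cfg ι X.κ) =
        3 ^ ∑ i : ι, (Fintype.card X.κ + (Finset.univ.filter (· < i)).card) := by
      convert card_Cfg (ι := ι) (κ := X.κ)
    rw [k0, ← Finset.prod_pow_eq_pow_sum, Nat.cast_prod, ← Finset.prod_mul_distrib,
      ← Finset.prod_mul_distrib]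
    refine Finset.prod_congr rfl fun i _ => ?_
    rw [Tame.wtp, Nat.cast_pow, Nat.cast_ofNat, mul_assoc, mul_assoc, ← mul_pow,
      inv_mul_cancel₀ (by norm_num), one_pow, mul_one]
  rw [Finset.prod_mul_distrib] at k2
  have k10 : ((X.fib c).ncard : ℝ) * (Fintype.card (Cfg ι X.κ) : ℝ) ≤ 2 * X.pts.ncard :=
    calc _ ≤ _ := mul_le_mul_of_nonneg_right k1 (Nat.cast_nonneg _)
      _ = _ := k9
      _ ≤ (2 * ∏ i, (1 - η i)) * ∏ i, (T.q : ℝ) ^ X.e i / X.e i :=
          mul_le_mul_of_nonneg_right k7 k8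
      _ ≤ _ := by rw [mul_assoc]; exact mul_le_mul_of_nonneg_left k2 zero_le_two
  exact_mod_cast k10

end Box

end

end Pool.Agent.Smith
end

-- merged part: Pool.Agent.Work.MP_60d5ce_nt.Sm.Comb
section
/-!
# Pure combinatorics: density of consistent cubes, greedy cover and union bound  (task SM Comb)

* `collision`: Cauchy-Schwarz (`sq_sum_le_card_mul_sum_sq`) over the fibres of `f`.
* `density`: by induction on `B`, `dd δ Col B.card * M ^ (1 + k + B.card) ≤ #{c | Cons B c}`.  Step: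
  map a cube to (cube with the `i`-th coordinates replaced by a fixed value, colour); the image has
  at most `M ^ (k + B.card) * Col` elements (use `hdiag`); a colliding pair glues to a cube for
  `insert i B`, injectively.  Last, collide the cubes for `univ` along the first coordinate
  (`M ^ (2 * k)` keys) and average over the base point.
* `cover_union`: for each `p` choose greedily `D 1, D 2, ...` (at most `J` rounds); the pieces are
  `Y' D \ ⋃ earlier`, determined by `D` and a subset of `𝒟` with at most `J` elements, that is by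
  `D` and a map `Fin J → Option 𝒟`.  Call `p` bad if some such piece has many zeros.
* `numerics`: `s = ⌊ε * M ^ (k + 1) / J⌋`; the logarithm of the first factor is `O (M ^ k)`.
-/

namespace Pool.Agent.Smith

open scoped Classical

noncomputable section

theorem collision {α κ : Type*} (C : Finset α) (f : α → κ) (n : ℕ) (hn : (C.image f).card ≤ n) :
    (C.card : ℝ) ^ 2 ≤ n * ((C ×ˢ C).filter fun z => f z.1 = f z.2).card := by
  have h1 : ((C ×ˢ C).filter fun z => f z.1 = f z.2).card =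
      ∑ y ∈ C.image f, (C.filter fun x => f x = y).card ^ 2 := by
    rw [Finset.card_eq_sum_card_fiberwise (f := fun z : α × α => f z.1) (t := C.image f)
      fun z hz => Finset.mem_image_of_mem f (Finset.mem_product.1 (Finset.mem_filter.1 hz).1).1]
    refine Finset.sum_congr rfl fun y _ => ?_
    rw [sq, ← Finset.card_product]
    congr 1
    ext z
    simp only [Finset.mem_filter, Finset.mem_product]
    constructor
    · rintro ⟨⟨⟨a, b⟩, c⟩, d⟩
      exact ⟨⟨a, d⟩, b, c ▸ d⟩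
    · rintro ⟨⟨a, b⟩, c, d⟩
      exact ⟨⟨⟨a, c⟩, b.trans d.symm⟩, b⟩
  have h2 : C.card ^ 2 ≤ n * ((C ×ˢ C).filter fun z => f z.1 = f z.2).card := by
    rw [h1]
    conv_lhs => rw [Finset.card_eq_sum_card_image f C]
    exact sq_sum_le_card_mul_sum_sq.trans (Nat.mul_le_mul_right _ hn)
  exact_mod_cast h2

/-- the density after `m` gluing steps -/
def dd (δ : ℝ) (Col : ℕ) : ℕ → ℝ
  | 0 => δ
  | m + 1 => dd δ Col m ^ 2 / Col

theorem dd_pos {δ : ℝ} (hδ : 0 < δ) {Col : ℕ} (hC : 0 < Col) (m : ℕ) : 0 < dd δ Col m := by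
  induction m with
  | zero => exact hδ
  | succ m ih => exact div_pos (pow_pos ih 2) (Nat.cast_pos.2 hC)

/-- points of the grid -/
abbrev Pt (k M : ℕ) : Type := Fin M × (Fin k → Fin M)

theorem comb_dd_nonneg {δ : ℝ} (hδ : 0 ≤ δ) (Col m : ℕ) : 0 ≤ dd δ Col m := by
  cases m with
  | zero => exact hδ
  | succ m => exact div_nonneg (sq_nonneg _) (Nat.cast_nonneg _)

/-- the consistent cubes -/
def combC {k M : ℕ} (R : Fin M → (Fin k → Fin M) → (Fin k → Fin M) → Prop) :
    Finset (Fin M × (Fin k → Fin M) × (Fin k → Fin M)) :=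
  Finset.univ.filter fun c => R c.1 c.2.1 c.2.2

theorem comb_mem {k M : ℕ} {R : Fin M → (Fin k → Fin M) → (Fin k → Fin M) → Prop}
    {c : Fin M × (Fin k → Fin M) × (Fin k → Fin M)} : c ∈ combC R ↔ R c.1 c.2.1 c.2.2 := by
  simp [combC]

theorem comb_step {k M Col : ℕ} {κ : Type} (B : Finset (Fin k)) {i : Fin k} (hi : i ∉ B)
    (R R' : Fin M → (Fin k → Fin M) → (Fin k → Fin M) → Prop)
    (col : Fin M → (Fin k → Fin M) → (Fin k → Fin M) → κ)
    (hdiag : ∀ α z0 z1, R α z0 z1 → ∀ i ∉ B, z1 i = z0 i)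
    (hcol : ∀ α z0 z1, ∃ 𝒮 : Finset κ, 𝒮.card ≤ Col ∧ ∀ m,
      R α (Function.update z0 i m) (Function.update z1 i m) →
        col α (Function.update z0 i m) (Function.update z1 i m) ∈ 𝒮)
    (hglue : ∀ α z0 z1 m m', R α (Function.update z0 i m) (Function.update z1 i m) →
      R α (Function.update z0 i m') (Function.update z1 i m') →
      col α (Function.update z0 i m) (Function.update z1 i m) =
        col α (Function.update z0 i m') (Function.update z1 i m') →
      R' α (Function.update z0 i m) (Function.update z1 i m')) :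
    ((combC R).card : ℝ) ^ 2 ≤ (M ^ (k + B.card) * Col : ℕ) * (combC R').card := by
  choose 𝒮 h𝒮 h𝒮' using hcol
  let f : Fin M × (Fin k → Fin M) × (Fin k → Fin M) → ((Fin k → Fin M) × (B → Fin M)) × κ :=
    fun c => ((Function.update c.2.1 i c.1, fun j => c.2.2 j), col c.1 c.2.1 c.2.2)
  have h1 : ((combC R).image f).card ≤ M ^ (k + B.card) * Col := by
    refine (Finset.card_le_card (t := Finset.univ.biUnion
      fun w : (Fin k → Fin M) × (B → Fin M) =>
        {w} ×ˢ 𝒮 (w.1 i) w.1 fun j => if h : j ∈ B then w.2 ⟨j, h⟩ else w.1 j) ?_).trans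
      ((Finset.card_biUnion_le_card_mul _ _ Col fun w _ => ?_).trans_eq (by simp [pow_add]))
    · intro y hy
      obtain ⟨⟨α, z0, z1⟩, hc, rfl⟩ := Finset.mem_image.1 hy
      replace hc : R α z0 z1 := comb_mem.1 hc
      refine Finset.mem_biUnion.2 ⟨_, Finset.mem_univ _,
        Finset.mem_product.2 ⟨Finset.mem_singleton_self _, ?_⟩⟩
      have e0 : Function.update (Function.update z0 i α) i (z0 i) = z0 := by simp
      have e1 : Function.update (fun j => if j ∈ B then z1 j else Function.update z0 i α j) i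
          (z0 i) = z1 := by
        funext j
        by_cases hj : j = i
        · rw [hj, Function.update_self, hdiag _ _ _ hc i hi]
        · rw [Function.update_of_ne hj]
          split_ifs with h
          · rfl
          · rw [Function.update_of_ne hj, hdiag _ _ _ hc j h]
      have := h𝒮' α (Function.update z0 i α)
        (fun j => if j ∈ B then z1 j else Function.update z0 i α j) (z0 i)
      rw [e0, e1] at this
      simpa [f] using this hc
    · rw [Finset.card_product, Finset.card_singleton, one_mul]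
      exact h𝒮 _ _ _
  refine (collision _ f _ (le_of_eq_of_le (by congr; exact Subsingleton.elim _ _) h1)).trans
    (mul_le_mul_of_nonneg_left (Nat.cast_le.2 ?_) (Nat.cast_nonneg _))
  have key : ∀ z, z ∈ combC R ×ˢ combC R ∧ f z.1 = f z.2 →
      z.2.1 = z.1.1 ∧ z.2.2.1 = Function.update z.1.2.1 i (z.2.2.2 i) ∧
        z.1.2.2 = Function.update z.2.2.2 i (z.1.2.1 i) ∧ R' z.1.1 z.1.2.1 z.2.2.2 := by
    rintro ⟨⟨α, z0, z1⟩, α', z0', z1'⟩ hz
    simp only [Finset.mem_product, comb_mem, f, Prod.mk.injEq] at hz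
    obtain ⟨⟨hc, hc'⟩, ⟨e0, e1⟩, e2⟩ := hz
    obtain rfl : α' = α := by simpa using (congrFun e0 i).symm
    have g0 : ∀ j, j ≠ i → z0 j = z0' j := fun j hj => by
      simpa [Function.update_of_ne hj] using congrFun e0 j
    have a0 : z0' = Function.update z0 i (z1' i) := by
      funext j
      by_cases hj : j = i
      · rw [hj, Function.update_self, hdiag _ _ _ hc' i hi]
      · rw [Function.update_of_ne hj, g0 j hj]
    have a1 : z1 = Function.update z1' i (z0 i) := by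
      funext j
      by_cases hj : j = i
      · rw [hj, Function.update_self, hdiag _ _ _ hc i hi]
      · rw [Function.update_of_ne hj]
        by_cases h : j ∈ B
        · exact congrFun e1 ⟨j, h⟩
        · rw [hdiag _ _ _ hc j h, hdiag _ _ _ hc' j h, g0 j hj]
    refine ⟨rfl, a0, a1, ?_⟩
    have := hglue α' z0 z1' (z0 i) (z1' i)
    rw [Function.update_eq_self, Function.update_eq_self, ← a0, ← a1] at this
    exact this hc hc' e2
  refine Finset.card_le_card_of_injOn (fun z => (z.1.1, z.1.2.1, z.2.2.2))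
    (fun z hz => comb_mem.2 (key z (by simpa using hz)).2.2.2) fun z hz w hw e => ?_
  obtain ⟨a1, a2, a3, -⟩ := key z (by simpa using hz)
  obtain ⟨b1, b2, b3, -⟩ := key w (by simpa using hw)
  simp only [Prod.mk.injEq] at e
  obtain ⟨e1, e2, e3⟩ := e
  refine Prod.ext (Prod.ext e1 (Prod.ext e2 ?_)) (Prod.ext ?_ (Prod.ext ?_ e3))
  · rw [a3, b3, e2, e3]
  · rw [a1, b1, e1]
  · rw [a2, b2, e2, e3]

theorem comb_last {k M : ℕ} (R : Fin M → (Fin k → Fin M) → (Fin k → Fin M) → Prop) :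
    ((combC R).card : ℝ) ^ 2 ≤ (M ^ k * M ^ k : ℕ) * ∑ x0 : Pt k M,
      ((Finset.univ.filter fun x : Pt k M => R x0.1 x0.2 x.2 ∧ R x.1 x0.2 x.2).card : ℝ) := by
  refine (collision _ (fun c => c.2) _ ((Finset.card_le_univ _).trans_eq (by simp))).trans
    (mul_le_mul_of_nonneg_left ?_ (Nat.cast_nonneg _))
  have h1 : ∑ x0 : Pt k M,
      (Finset.univ.filter fun x : Pt k M => R x0.1 x0.2 x.2 ∧ R x.1 x0.2 x.2).card =
      (Finset.univ.filter fun p : Pt k M × Pt k M =>
        R p.1.1 p.1.2 p.2.2 ∧ R p.2.1 p.1.2 p.2.2).card := by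
    simp only [Finset.card_filter]
    exact (Fintype.sum_prod_type fun p : Pt k M × Pt k M =>
      if R p.1.1 p.1.2 p.2.2 ∧ R p.2.1 p.1.2 p.2.2 then 1 else 0).symm
  rw [← Nat.cast_sum, Nat.cast_le, h1]
  refine Finset.card_le_card_of_injOn (fun z => ((z.1.1, z.1.2.1), (z.2.1, z.1.2.2)))
    (fun z hz => ?_) fun z hz w hw e => ?_
  · simp only [Finset.coe_filter, Finset.mem_product, comb_mem, Set.mem_ofPred_eq] at hz
    simp only [Finset.coe_filter, Finset.mem_univ, true_and, Set.mem_ofPred_eq]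
    exact ⟨hz.1.1, hz.2 ▸ hz.1.2⟩
  · simp only [Finset.coe_filter, Set.mem_ofPred_eq] at hz hw
    simp only [Prod.mk.injEq] at e
    have h2 : z.1.2 = w.1.2 := Prod.ext e.1.2 e.2.2
    exact Prod.ext (Prod.ext e.1.1 h2) (Prod.ext e.2.1 (hz.2.symm.trans (h2.trans hw.2)))

theorem density {k M Col : ℕ} (hM : 0 < M) (hC : 0 < Col) {κ : Type} {δ : ℝ} (hδ : 0 ≤ δ)
    (Y : Finset (Pt k M)) (hY : δ * (M : ℝ) ^ (k + 1) ≤ Y.card)
    (Cons : Finset (Fin k) → Fin M → (Fin k → Fin M) → (Fin k → Fin M) → Prop)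
    (col : Finset (Fin k) → Fin k → Fin M → (Fin k → Fin M) → (Fin k → Fin M) → κ)
    (h0 : ∀ y ∈ Y, Cons ∅ y.1 y.2 y.2)
    (hdiag : ∀ B α z0 z1, Cons B α z0 z1 → ∀ i ∉ B, z1 i = z0 i)
    (hcol : ∀ B, ∀ i ∉ B, ∀ α z0 z1, ∃ 𝒮 : Finset κ, 𝒮.card ≤ Col ∧ ∀ m,
      Cons B α (Function.update z0 i m) (Function.update z1 i m) →
        col B i α (Function.update z0 i m) (Function.update z1 i m) ∈ 𝒮)
    (hglue : ∀ B, ∀ i ∉ B, ∀ α z0 z1 m m',
      Cons B α (Function.update z0 i m) (Function.update z1 i m) →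
      Cons B α (Function.update z0 i m') (Function.update z1 i m') →
      col B i α (Function.update z0 i m) (Function.update z1 i m) =
        col B i α (Function.update z0 i m') (Function.update z1 i m') →
      Cons (insert i B) α (Function.update z0 i m) (Function.update z1 i m')) :
    ∃ x0 : Pt k M, dd δ Col k ^ 2 * (M : ℝ) ^ (k + 1) ≤
      (Finset.univ.filter fun x : Pt k M =>
        Cons Finset.univ x0.1 x0.2 x.2 ∧ Cons Finset.univ x.1 x0.2 x.2).card := by
  have hM' : (0 : ℝ) < M := Nat.cast_pos.2 hM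
  have hC' : (0 : ℝ) < Col := Nat.cast_pos.2 hC
  have key : ∀ B : Finset (Fin k),
      dd δ Col B.card * (M : ℝ) ^ (k + 1 + B.card) ≤ (combC (Cons B)).card := by
    intro B
    induction B using Finset.induction_on with
    | empty =>
      refine hY.trans (Nat.cast_le.2 (Finset.card_le_card_of_injOn (fun y => (y.1, y.2, y.2))
        (fun y hy => comb_mem.2 (h0 y hy)) fun y _ y' _ e => ?_))
      simp only [Prod.mk.injEq] at e
      exact Prod.ext e.1 e.2.1
    | insert i B hi ih =>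
      have h1 := (pow_le_pow_left₀ (mul_nonneg (comb_dd_nonneg hδ _ _) (by positivity)) ih 2).trans
        (comb_step B hi (Cons B) (Cons (insert i B)) (col B i) (hdiag B) (hcol B i hi)
          (hglue B i hi))
      rw [Finset.card_insert_of_notMem hi, dd, div_mul_eq_mul_div, div_le_iff₀ hC']
      refine le_of_mul_le_mul_left ?_ (pow_pos hM' (k + B.card))
      push_cast at h1
      convert h1 using 1 <;> ring
  have h1 := key Finset.univ
  rw [Finset.card_univ, Fintype.card_fin] at h1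
  have h2 := (pow_le_pow_left₀ (mul_nonneg (comb_dd_nonneg hδ _ _) (by positivity)) h1 2).trans
    (comb_last (Cons Finset.univ))
  have : Nonempty (Fin M) := ⟨⟨0, hM⟩⟩
  obtain ⟨x0, -, h⟩ := Finset.exists_le_of_sum_le (s := (Finset.univ : Finset (Pt k M)))
    (f := fun _ => dd δ Col k ^ 2 * (M : ℝ) ^ (k + 1)) Finset.univ_nonempty
    (le_of_mul_le_mul_left (le_trans (le_of_eq (by simp; ring)) h2) (by positivity))
  exact ⟨x0, h⟩

/-- points sharing a coordinate with `x0` -/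
def star {k M : ℕ} (x0 : Pt k M) : Finset (Pt k M) :=
  Finset.univ.filter fun y => y.1 = x0.1 ∨ ∃ i, y.2 i = x0.2 i

theorem card_star {k M : ℕ} (x0 : Pt k M) : (star x0).card ≤ (k + 1) * M ^ k := by
  have h1 : (Finset.univ.filter fun y : Pt k M => y.1 = x0.1).card ≤ M ^ k := by
    refine (Finset.card_le_card_of_injOn (fun y => y.2) (fun _ _ => Finset.mem_univ _)
      fun y hy y' hy' e => ?_).trans_eq (by simp)
    exact Prod.ext ((Finset.mem_filter.1 hy).2.trans (Finset.mem_filter.1 hy').2.symm) e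
  have h2 : ∀ i, (Finset.univ.filter fun y : Pt k M => y.2 i = x0.2 i).card ≤ M ^ k := fun i => by
    refine (Finset.card_le_card_of_injOn (fun y => Function.update y.2 i y.1)
      (fun _ _ => Finset.mem_univ _) fun y hy y' hy' e => ?_).trans_eq (by simp)
    refine Prod.ext (by simpa using congrFun e i) (funext fun j => ?_)
    by_cases hj : j = i
    · rw [hj, (Finset.mem_filter.1 hy).2, (Finset.mem_filter.1 hy').2]
    · simpa [Function.update_of_ne hj] using congrFun e j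
  have h3 : star x0 ⊆ (Finset.univ.filter fun y : Pt k M => y.1 = x0.1) ∪
      Finset.univ.biUnion fun i => Finset.univ.filter fun y : Pt k M => y.2 i = x0.2 i := by
    intro y hy
    simpa [star] using hy
  have h4 := Finset.card_biUnion_le_card_mul _ _ _ fun i (_ : i ∈ Finset.univ) => h2 i
  rw [Finset.card_univ, Fintype.card_fin] at h4
  refine (Finset.card_le_card h3).trans ((Finset.card_union_le _ _).trans ?_)
  rw [add_mul, one_mul, add_comm]
  exact add_le_add h4 h1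

/-- unions of at most `j` of the sets `Y' D` -/
def combF {X Dt : Type} (𝒟 : Finset Dt) (Y' : Dt → Finset X) : ℕ → Finset (Finset X)
  | 0 => {∅}
  | j + 1 => combF 𝒟 Y' j ∪ (combF 𝒟 Y' j ×ˢ 𝒟).image fun z => z.1 ∪ Y' z.2

theorem combF_card {X Dt : Type} (𝒟 : Finset Dt) (Y' : Dt → Finset X) (j : ℕ) :
    (combF 𝒟 Y' j).card ≤ (𝒟.card + 1) ^ j := by
  induction j with
  | zero => simp [combF]
  | succ j ih =>
    refine (Finset.card_union_le _ _).trans ((add_le_add_right Finset.card_image_le _).trans ?_)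
    rw [Finset.card_product, pow_succ, mul_add, mul_one, add_comm]
    exact add_le_add (Nat.mul_le_mul_right _ ih) ih

theorem combF_mono {X Dt : Type} (𝒟 : Finset Dt) (Y' : Dt → Finset X) : Monotone (combF 𝒟 Y') :=
  monotone_nat_of_le_succ fun _ => Finset.subset_union_left

theorem comb_greedy {X Dt : Type} [Fintype X] (𝒟 : Finset Dt) (Y' : Dt → Finset X)
    (valid : Dt → Prop) (Y Z : Finset X) (zero : Dt → X → Prop) {a b : ℝ} {s J : ℕ}
    (h1 : ∀ D ∈ 𝒟, valid D → Y' D ⊆ Y) (h2 : ∀ D ∈ 𝒟, valid D → ∀ x ∈ Y' D, x ∈ Z → zero D x)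
    (h3 : ∀ Y'' ⊆ Y, a ≤ Y''.card → ∃ D ∈ 𝒟, valid D ∧ b ≤ (Y' D ∩ Y'').card)
    (h4 : ∀ U ∈ combF 𝒟 Y' J, ∀ D ∈ 𝒟, valid D →
      2 * ((Y' D \ U).filter fun x => zero D x).card ≤ (Y' D \ U).card + 2 * s) :
    ∀ j ≤ J, ∃ U ∈ combF 𝒟 Y' j, U ⊆ Y ∧ 2 * (Z ∩ U).card ≤ U.card + 2 * (j * s) ∧
      (((Y \ U).card : ℝ) < a ∨ j * b ≤ U.card) := by
  intro j
  induction j with
  | zero => exact fun _ => ⟨∅, Finset.mem_singleton_self _, Finset.empty_subset _, by simp, by simp⟩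
  | succ j ih =>
    intro hj
    obtain ⟨U, hU, hUY, g1, g2⟩ := ih (by omega)
    by_cases ha : ((Y \ U).card : ℝ) < a
    · exact ⟨U, Finset.mem_union_left _ hU, hUY, by rw [add_mul]; omega, Or.inl ha⟩
    obtain ⟨D, hD, hv, g3⟩ := h3 _ Finset.sdiff_subset (not_lt.1 ha)
    have g4 := h4 U (combF_mono 𝒟 Y' (by omega : j ≤ J) hU) D hD hv
    have g5 : (U ∪ Y' D).card = (Y' D \ U).card + U.card := by
      rw [Finset.card_sdiff_add_card, Finset.union_comm]
    have g6 : (Z ∩ (U ∪ Y' D)).card ≤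
        (Z ∩ U).card + ((Y' D \ U).filter fun x => zero D x).card := by
      refine (Finset.card_le_card fun x hx => ?_).trans (Finset.card_union_le _ _)
      simp only [Finset.mem_inter, Finset.mem_union, Finset.mem_filter, Finset.mem_sdiff] at hx ⊢
      by_cases hxU : x ∈ U
      · exact Or.inl ⟨hx.1, hxU⟩
      · have hx' := hx.2.resolve_left hxU
        exact Or.inr ⟨⟨hx', hxU⟩, h2 D hD hv x hx' hx.1⟩
    have g7 : (Y' D ∩ (Y \ U)).card ≤ (Y' D \ U).card := Finset.card_le_card fun x hx => by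
      simp only [Finset.mem_inter, Finset.mem_sdiff] at hx ⊢
      exact ⟨hx.1, hx.2.2⟩
    refine ⟨U ∪ Y' D, Finset.mem_union_right _
      (Finset.mem_image.2 ⟨(U, D), Finset.mem_product.2 ⟨hU, hD⟩, rfl⟩),
      Finset.union_subset hUY (h1 D hD hv), by rw [add_mul]; omega, Or.inr ?_⟩
    have g8 := g3.trans (Nat.cast_le.2 g7)
    have g9 := g2.resolve_left ha
    rw [g5]
    push_cast
    linarith

theorem cover_union {X Dt Pp : Type} [Fintype X] (𝒟 : Finset Dt) (Y' : Dt → Finset X)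
    (PP : Finset Pp) (valid : Pp → Dt → Prop) (Y Z : Pp → Finset X) (zero : Dt → X → Pp → Prop)
    {ε δ θ : ℝ} {s J : ℕ} (hε : 0 ≤ ε) (hδ : 0 < δ) (hθ : 0 ≤ θ) (hJ : 1 ≤ δ * J)
    (hZ : ∀ p ∈ PP, Z p ⊆ Y p) (h1 : ∀ p ∈ PP, ∀ D ∈ 𝒟, valid p D → Y' D ⊆ Y p)
    (h2 : ∀ p ∈ PP, ∀ D ∈ 𝒟, valid p D → ∀ x ∈ Y' D, x ∈ Z p → zero D x p)
    (h3 : ∀ p ∈ PP, ∀ Y'' ⊆ Y p, ε * Fintype.card X ≤ Y''.card →
      ∃ D ∈ 𝒟, valid p D ∧ δ * Fintype.card X ≤ (Y' D ∩ Y'').card)
    (h4 : ∀ D ∈ 𝒟, ∀ Q ⊆ Y' D, ((PP.filter fun p => valid p D ∧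
      Q.card + 2 * s ≤ 2 * (Q.filter fun x => zero D x p).card).card : ℝ) ≤ θ) :
    ∑ p ∈ PP, ((Z p).card : ℝ) ≤ (∑ p ∈ PP, ((Y p).card : ℝ)) / 2 +
      PP.card * (ε * Fintype.card X + J * s) + ((𝒟.card : ℝ) + 1) ^ (J + 1) * θ * Fintype.card X := by
  let bad : Finset X × Dt → Pp → Prop := fun z p => valid p z.2 ∧ (Y' z.2 \ z.1).card + 2 * s ≤
    2 * ((Y' z.2 \ z.1).filter fun x => zero z.2 x p).card
  let Bad : Finset Pp := (combF 𝒟 Y' J ×ˢ 𝒟).biUnion fun z => PP.filter (bad z)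
  have hX : (0 : ℝ) ≤ Fintype.card X := Nat.cast_nonneg _
  have hB : (Bad.card : ℝ) ≤ ((𝒟.card : ℝ) + 1) ^ (J + 1) * θ := by
    refine (Nat.cast_le.2 Finset.card_biUnion_le).trans ?_
    rw [Nat.cast_sum]
    refine (Finset.sum_le_card_nsmul _ _ θ fun z hz =>
      h4 z.2 (Finset.mem_product.1 hz).2 _ Finset.sdiff_subset).trans ?_
    rw [nsmul_eq_mul, Finset.card_product]
    refine mul_le_mul_of_nonneg_right ?_ hθ
    have := Nat.mul_le_mul (combF_card 𝒟 Y' J) (Nat.le_succ 𝒟.card)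
    rw [← pow_succ] at this
    exact_mod_cast this
  have hp : ∀ p ∈ PP, ((Z p).card : ℝ) ≤ ((Y p).card : ℝ) / 2 + (ε * Fintype.card X + J * s) +
      if p ∈ Bad then (Fintype.card X : ℝ) else 0 := fun p hp => by
    split_ifs with hb
    · exact (Nat.cast_le.2 (Finset.card_le_univ _)).trans (le_add_of_nonneg_left (by positivity))
    obtain ⟨U, -, hUY, g1, g2⟩ := comb_greedy 𝒟 Y' (valid p) (Y p) (Z p) (fun D x => zero D x p)
      (s := s) (h1 p hp) (h2 p hp) (h3 p hp) (fun U hU D hD hv => by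
        by_contra h
        exact hb (Finset.mem_biUnion.2 ⟨(U, D), Finset.mem_product.2 ⟨hU, hD⟩,
          Finset.mem_filter.2 ⟨hp, hv, (not_le.1 h).le⟩⟩)) J le_rfl
    have g3 : (Z p).card ≤ (Z p ∩ U).card + (Y p \ U).card := by
      rw [← Finset.card_inter_add_card_sdiff (Z p) U]
      exact add_le_add_right (Finset.card_le_card (Finset.sdiff_subset_sdiff (hZ p hp) le_rfl)) _
    have g4 : (((Y p \ U).card + U.card : ℕ) : ℝ) = (Y p).card := by
      rw [Finset.card_sdiff_add_card_eq_card hUY]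
    have g5 : ((Y p).card : ℝ) ≤ Fintype.card X := Nat.cast_le.2 (Finset.card_le_univ _)
    have g6 : (0 : ℝ) ≤ (Y p \ U).card := Nat.cast_nonneg _
    have g7 := mul_le_mul_of_nonneg_right hJ hX
    have g8 := mul_nonneg hε hX
    have g1' := (Nat.cast_le (α := ℝ)).2 g1
    have g3' := (Nat.cast_le (α := ℝ)).2 g3
    push_cast at g1' g3' g4
    rcases g2 with g2 | g2 <;> linarith
  refine (Finset.sum_le_sum hp).trans ?_
  rw [Finset.sum_add_distrib, Finset.sum_add_distrib, ← Finset.sum_div, Finset.sum_const,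
    nsmul_eq_mul, Finset.sum_ite_mem, Finset.sum_const, nsmul_eq_mul]
  exact add_le_add_right (mul_le_mul_of_nonneg_right
    ((Nat.cast_le.2 (Finset.card_le_card Finset.inter_subset_right)).trans hB) hX) _

theorem numerics (k C J : ℕ) (hJ : 0 < J) {ε : ℝ} (hε : 0 < ε) : ∃ M0 : ℕ, ∀ M ≥ M0, ∃ s : ℕ,
    (J * s : ℝ) ≤ ε * (M : ℝ) ^ (k + 1) ∧
      ((M : ℝ) ^ (k + 1) * (C : ℝ) ^ ((k + 1) * M ^ k) + 1) ^ (J + 1) * (3 * (2 : ℝ)⁻¹ ^ s) ≤ ε := by
  have hJ' : (0 : ℝ) < J := Nat.cast_pos.2 hJ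
  have hr0 : (0 : ℝ) < (2 : ℝ)⁻¹ ^ (ε / J) := by positivity
  have hr1 : (2 : ℝ)⁻¹ ^ (ε / J) < 1 :=
    Real.rpow_lt_one (by norm_num) (by norm_num) (div_pos hε hJ')
  have h1 := (tendsto_pow_const_mul_const_pow_of_abs_lt_one ((k + 1) * (J + 1))
    ((abs_of_pos hr0).trans_lt hr1)).const_mul ((2 * ((C : ℝ) + 1)) ^ ((k + 1) * (J + 1)))
  rw [mul_zero] at h1
  obtain ⟨M0, hM0⟩ := Filter.eventually_atTop.1
    ((h1.eventually (ge_mem_nhds (show 0 < min 1 (ε / 6) by positivity))).and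
      (Filter.eventually_ge_atTop 1))
  refine ⟨M0, fun M hM => ⟨⌊ε * (M : ℝ) ^ (k + 1) / J⌋₊,
    (le_div_iff₀' hJ').1 (Nat.floor_le (by positivity)), ?_⟩⟩
  obtain ⟨g1, g2⟩ := hM0 M hM
  have hM1 : (1 : ℝ) ≤ M := Nat.one_le_cast.2 g2
  have hC : (0 : ℝ) ≤ C := Nat.cast_nonneg C
  have ht : 1 ≤ M ^ k := Nat.one_le_pow _ _ g2
  have hn : k + 1 ≤ (k + 1) * M ^ k := Nat.le_mul_of_pos_right _ ht
  have a1 : (M : ℝ) ^ (k + 1) * (C : ℝ) ^ ((k + 1) * M ^ k) + 1 ≤
      (2 * ((C : ℝ) + 1) * M) ^ ((k + 1) * M ^ k) := by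
    have b1 : (M : ℝ) ^ (k + 1) * (C : ℝ) ^ ((k + 1) * M ^ k) ≤
        (((C : ℝ) + 1) * M) ^ ((k + 1) * M ^ k) := by
      rw [mul_pow, mul_comm]
      exact mul_le_mul (pow_le_pow_left₀ hC (by linarith) _) (pow_le_pow_right₀ hM1 hn)
        (by positivity) (by positivity)
    have b2 : (1 : ℝ) ≤ (((C : ℝ) + 1) * M) ^ ((k + 1) * M ^ k) :=
      one_le_pow₀ (one_le_mul_of_one_le_of_one_le (by linarith) hM1)
    have b3 : (2 : ℝ) ≤ 2 ^ ((k + 1) * M ^ k) := le_self_pow₀ one_le_two (by omega)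
    rw [mul_assoc, mul_pow 2]
    nlinarith
  have a2 : (2 : ℝ)⁻¹ ^ ⌊ε * (M : ℝ) ^ (k + 1) / J⌋₊ ≤ 2 * (((2 : ℝ)⁻¹ ^ (ε / J)) ^ M) ^ M ^ k := by
    rw [← pow_mul, ← Real.rpow_natCast, ← Real.rpow_natCast (_ ^ (ε / J)),
      ← Real.rpow_mul (by norm_num),
      ← inv_mul_le_iff₀ two_pos, mul_comm, ← Real.rpow_add_one (by norm_num)]
    refine Real.rpow_le_rpow_of_exponent_ge (by norm_num) (by norm_num)
      (le_trans (le_of_eq ?_) (Nat.lt_floor_add_one _).le)
    push_cast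
    ring
  have a3 := (pow_le_of_le_one (by positivity) (g1.trans (min_le_left _ _))
    (by omega : M ^ k ≠ 0)).trans (g1.trans (min_le_right _ _))
  refine (mul_le_mul (pow_le_pow_left₀ (by positivity) a1 _)
    (mul_le_mul_of_nonneg_left a2 (by norm_num)) (by positivity) (by positivity)).trans ?_
  rw [← mul_assoc, ← mul_pow, mul_pow, ← pow_mul, le_div_iff₀ (by norm_num)] at a3
  rw [← pow_mul, mul_right_comm (k + 1)]
  linarith

end

end Pool.Agent.Smith
end

-- merged part: Pool.Agent.Work.MP_60d5ce_nt.Sm.Grid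
section
/-!
# Grids of primes: definitions

`k + 2` primes vary: `b = none`, `a = some none`, and `i = some (some i)`.  All residue symbols are
prescribed.  `Y j` is the set of choices for which the class `wy` lifts to level `j`.
-/

namespace Pool.Agent.Smith

open scoped Classical

noncomputable section

variable {W P : Type} [Group W] {T : Tame W P}

/-- labels of the varying primes -/
abbrev Jx (k : ℕ) : Type := Option (Option (Fin k))

/-- the fixed data of one step -/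
structure Env (R : Rep T) (k : ℕ) where
  S1 : Finset P
  Ot : Finset P
  x1 : W → F3
  w1 : W → Vb
  na : Vb
  nb : Vb
  e : Jx k → ℕ
  cl : Jx k → P → F3
  s : Jx k → Jx k → F3
  S_sub : R.S ⊆ S1
  disj : Disjoint S1 Ot
  x1_hom : T.IsHom x1
  x1_unr : ∀ v ∉ S1 ∪ Ot, x1 (T.τ v) = 0
  x1_ot : ∀ v ∈ Ot, x1 (T.τ v) = 1
  w1_hom : T.IsHom w1
  w1_unr : ∀ v ∉ S1 ∪ Ot, w1 (T.τ v) = 0
  hab : hb na nb ≠ 0
  s_symm : ∀ i j, s i j = s j i
  e_pos : ∀ j, 0 < e j

/-- vertices of a grid -/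
abbrev GV (k M : ℕ) : Type := Option (Fin k) × Fin M

/-- the coordinate of a point in a direction -/
def coord {k M : ℕ} (x : Pt k M) : Option (Fin k) → Fin M
  | none => x.1
  | some i => x.2 i

/-- the primes of a point of the grid -/
def pt {k M : ℕ} (Z : GV k M → P) (pb : P) (x : Pt k M) : Jx k → P
  | none => pb
  | some j => Z (j, coord x j)

/-- vertex of a cube -/
def mix {k M : ℕ} (e : Finset (Fin k)) (z0 z1 : Fin k → Fin M) : Fin k → Fin M :=
  fun i => if i ∈ e then z1 i else z0 i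

/-- vertex of a cube with two sides -/
def vtx {k M : ℕ} (x0 x : Pt k M) (s : Bool) (e : Finset (Fin k)) : Pt k M :=
  (if s then x.1 else x0.1, mix e x0.2 x.2)

/-- the directions in which two points differ -/
def Bx {k M : ℕ} (z0 z : Fin k → Fin M) : Finset (Fin k) := Finset.univ.filter fun i => z i ≠ z0 i

/-- the type of the data attached to a base point -/
abbrev Dt (W : Type) (k M : ℕ) : Type :=
  Pt k M × (Pt k M → Prop × F3 × (Finset (Fin k) → W → Vb))

/-- the recorded difference of the two sides -/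
def DPhi {k M : ℕ} (D : Dt W k M) (x : Pt k M) (B : Finset (Fin k)) : W → Vb :=
  (D.2 (vtx D.1 x true B)).2.2 B

namespace Env

variable {R : Rep T} {k : ℕ} (E : Env R k)

/-- the fixed places -/
def A0 : Finset P := E.S1 ∪ E.Ot

/-- degrees and symbols are the prescribed ones -/
def Valid (y : Jx k → P) : Prop :=
  ValidOn (T.Un E.A0 E.e E.cl) (T.Bi (fun _ _ => True) E.s) Finset.univ y

/-- the twist -/
def xy (y : Jx k → P) (g : W) : F3 := E.x1 g + ∑ j, T.χ (y j) g

/-- the class -/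
def wy (y : Jx k → P) (g : W) : Vb :=
  E.w1 g + T.χ (y (some none)) g • E.na + T.χ (y none) g • E.nb

/-- the places with a local condition -/
def Ay (y : Jx k → P) : Finset P := E.A0 ∪ Finset.univ.image y

/-- the value of the twist at the Frobenius of another prime -/
def xs (v : P) : F3 := E.x1 (T.σ v) + ∑ j, E.cl j v

/-- the choices for which the class lifts to level `j` -/
def Y (j : ℕ) : Set (Jx k → P) := {y | E.Valid y ∧ R.Lifts (E.Ay y) (E.xy y) j (E.wy y)}

/-- the chosen admissible cocycle -/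
def Psi (y : Jx k → P) : W → V :=
  if h : ∃ ψ, R.Admi (E.Ay y) (E.Ay y) (E.xy y) k ψ ∧ ∀ g, digV 0 (ψ g) = E.wy y g then h.choose
  else 0

/-- the obstruction -/
def Fy (y : Jx k → P) : F3 := ∑ v ∈ E.Ay y, R.fv (E.Ay y) (E.xy y) k (E.Psi y) v

/-- the bound for the number of families -/
def Cfam (k Rb : ℕ) : ℕ := (Rb * 9 ^ (2 * k + 2)) ^ 2 ^ k

/-- the bound for the number of colours -/
def Ccol (k Rb : ℕ) : ℕ := Cfam k Rb * 9 ^ (2 ^ k * (k + 2))

variable {M : ℕ}

/-- valid grids -/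
def GridOK (Z : GV k M → P) : Prop :=
  ValidOn (T.Un E.A0 (fun ν : GV k M => E.e (some ν.1)) fun ν => E.cl (some ν.1))
    (T.Bi (fun ν μ : GV k M => ν.1 ≠ μ.1) fun ν μ => E.s (some ν.1) (some μ.1)) Finset.univ Z

/-- valid last primes -/
def PbOK (Z : GV k M → P) (pb : P) : Prop :=
  T.Un E.A0 E.e E.cl none pb ∧ ∀ ν, pb ≠ Z ν ∧ T.χ (Z ν) (T.σ pb) = E.s none (some ν.1)

theorem pb_finite (Z : GV k M → P) : {pb | E.PbOK Z pb}.Finite :=
  (T.dg_fin (E.e none)).subset fun _ h => h.1.1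

/-- the valid last primes -/
def PP (Z : GV k M → P) : Finset P := (E.pb_finite Z).toFinset

variable (Z : GV k M → P) (pb : P)

/-- the points of the grid that lift to level `j` -/
def YG (j : ℕ) : Finset (Pt k M) := Finset.univ.filter fun x => pt Z pb x ∈ E.Y j

/-- the cocycles on a cube -/
def cψ (α : Fin M) (z0 z1 : Fin k → Fin M) (e : Finset (Fin k)) : W → V :=
  E.Psi (pt Z pb (α, mix e z0 z1))

/-- consistent cubes -/
structure Cons (Y'' : Finset (Pt k M)) (B : Finset (Fin k)) (α : Fin M) (z0 z1 : Fin k → Fin M) :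
    Prop where
  diag : ∀ i ∉ B, z1 i = z0 i
  mem : ∀ e ⊆ B, (α, mix e z0 z1) ∈ Y''
  gr : ∀ B' ⊆ B, ∀ g, VD B'.card (Dl B' fun e => E.cψ Z pb α z0 z1 e g)
  own : ∀ B' ⊆ B, B'.Nonempty → ∀ j : Jx k, (∀ i ∈ B', j ≠ some (some i)) →
    Th (E.cψ Z pb α z0 z1) B' (T.τ (pt Z pb (α, z0) j)) = 0

/-- the colour of a cube -/
def col (B : Finset (Fin k)) (i : Fin k) (α : Fin M) (z0 z1 : Fin k → Fin M) :
    (Finset (Fin k) → W → Vb) × (Finset (Fin k) → Jx k → Vb) :=
  (fun B' => if B' ⊆ B then Th (E.cψ Z pb α z0 z1) B' else 0,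
    fun B' j => if j = some (some i) then 0 else
      digV (B'.card + 1) (Dl B' fun e => E.cψ Z pb α z0 z1 e (T.τ (pt Z pb (α, z0) j))))

/-- the cube from `x0` to `y` on the side of `y` is consistent -/
def ok (x0 y : Pt k M) : Prop := E.Cons Z pb (E.YG Z pb k) (Bx x0.2 y.2) y.1 x0.2 y.2

/-- the difference of the two sides -/
def Phi (x0 y : Pt k M) : Finset (Fin k) → W → Vb :=
  if E.ok Z pb x0 y ∧ E.ok Z pb x0 (x0.1, y.2) ∧ Bx x0.2 y.2 ≠ Finset.univ then
    fun B => if B ⊆ Bx x0.2 y.2 then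
      fun g => Th (E.cψ Z pb y.1 x0.2 y.2) B g - Th (E.cψ Z pb x0.1 x0.2 y.2) B g else 0
  else 0

/-- the data attached to a base point -/
def dat (x0 : Pt k M) : Dt W k M :=
  (x0, fun y => if y ∈ star x0 then (E.ok Z pb x0 y, E.Fy (pt Z pb y), E.Phi Z pb x0 y)
    else (False, 0, 0))

/-- all the data -/
def DD : Finset (Dt W k M) := (E.PP Z ×ˢ Finset.univ).image fun z => E.dat Z z.1 z.2

/-- the characters of a cube -/
def βx (_E : Env R k) (Z : GV k M → P) (z0 z1 : Fin k → Fin M) (i : Fin k) (g : W) : F3 :=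
  T.χ (Z (some i, z1 i)) g - T.χ (Z (some i, z0 i)) g

/-- the fixed places and the primes of a cube, except the last one -/
def cubeP (x0 x : Pt k M) : Finset P :=
  E.A0 ∪ Finset.univ.image (fun j => Z (j, coord x0 j)) ∪ Finset.univ.image fun j => Z (j, coord x j)

/-- `Φs` completes the recorded family -/
structure Compl (D : Dt W k M) (x : Pt k M) (Φs : W → Vb) : Prop where
  sm : T.Sm Φs
  rel : URel (E.βx Z D.1.2 x.2) Finset.univ fun B g =>
    if B = Finset.univ then Φs g else DPhi D x B g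
  unr : ∀ v ∉ E.cubeP Z D.1 x, Φs (T.τ v) = 0
  unr0 : Φs (T.τ (Z (none, D.1.1))) = 0
  unr1 : Φs (T.τ (Z (none, x.1))) = 0

/-- the tops that can be completed -/
def Yp (D : Dt W k M) : Finset (Pt k M) :=
  Finset.univ.filter fun x => x ∉ star D.1 ∧
    (∀ s e, (s = true → e ≠ Finset.univ) → (D.2 (vtx D.1 x s e)).1) ∧
    (∀ i, ∀ g ∈ T.D (Z (some i, x.2 i)), DPhi D x (Finset.univ.erase i) g = 0) ∧
    ∃ Φs, E.Compl Z D x Φs

/-- the chosen completion -/
def Phs (D : Dt W k M) (x : Pt k M) : W → Vb :=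
  if h : ∃ Φs, E.Compl Z D x Φs then h.choose else 0

/-- the value of the class at `τ v`, `v` a fixed place -/
def wτ (a v : P) : Vb :=
  E.w1 (T.τ v) + T.χ a (T.τ v) • E.na + (if v = T.inf then -(E.e none : F3) else 0) • E.nb

/-- the value of the class at `σ v`, `v` a fixed place -/
def wσ (a v : P) : Vb :=
  E.w1 (T.σ v) + T.χ a (T.σ v) • E.na + (if v = T.inf then 0 else E.cl none v) • E.nb

/-- the constant, independent of the last prime -/
def Cst (D : Dt W k M) (x : Pt k M) : F3 :=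
  2 * ∑ v ∈ E.A0, (hb (E.Phs Z D x (T.σ v)) (E.wτ (Z (none, D.1.1)) v) -
      hb (E.Phs Z D x (T.τ v)) (E.wσ (Z (none, D.1.1)) v)) +
    hb (E.Phs Z D x (T.σ (Z (none, D.1.1))) + E.Phs Z D x (T.σ (Z (none, x.1)))) E.na -
    (Dl Finset.univ (fun e => if e = Finset.univ then 0 else (D.2 (vtx D.1 x true e)).2.1) -
      Dl Finset.univ fun e => (D.2 (vtx D.1 x false e)).2.1)

/-- the equation forced on the last prime -/
def zero (D : Dt W k M) (x : Pt k M) (pb : P) : Prop :=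
  2 * hb (E.Phs Z D x (T.σ pb)) E.nb + E.Cst Z D x = 0

end Env

end

end Pool.Agent.Smith
end

-- merged part: Pool.Agent.Work.MP_60d5ce_nt.Sm.GridA
section
/-!
# Grids of primes: symbols, the chosen cocycles, cubes

Hints.  Two characters `χ p`, `χ p'` agree on `D v` as soon as they agree at `σ v` and `τ v`
(`hom_eq_on_D`); at `v = inf` use `χ_inf` and `chi_tau_inf`, elsewhere `chi_symm` and `χ_ne`.
`Psi_spec`: `Rep.lift`.
-/

namespace Pool.Agent.Smith

open scoped Classical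

noncomputable section

variable {W P : Type} [Group W] {T : Tame W P}

section comb

variable {k M : ℕ}

theorem mix_empty (z0 z1 : Fin k → Fin M) : mix ∅ z0 z1 = z0 := by
  funext i
  simp [mix]

theorem mix_univ (z0 z1 : Fin k → Fin M) : mix Finset.univ z0 z1 = z1 := by
  funext i
  simp [mix]

theorem mix_mix {e B : Finset (Fin k)} (h : e ⊆ B) (z0 z1 : Fin k → Fin M) :
    mix e z0 (mix B z0 z1) = mix e z0 z1 := by
  funext i
  by_cases hi : i ∈ e
  · simp [mix, hi, h hi]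
  · simp [mix, hi]

theorem not_mem_star {x0 x : Pt k M} : x ∉ star x0 ↔ ∀ j, coord x j ≠ coord x0 j := by
  simp only [star, Finset.mem_filter, Finset.mem_univ, true_and, not_or, not_exists]
  constructor
  · rintro ⟨h1, h2⟩ (_ | i)
    · exact h1
    · exact h2 i
  · exact fun h => ⟨h none, fun i => h (some i)⟩

theorem Bx_mix {x0 x : Pt k M} (h : x ∉ star x0) (e : Finset (Fin k)) :
    Bx x0.2 (mix e x0.2 x.2) = e := by
  ext i
  have : x.2 i ≠ x0.2 i := not_mem_star.1 h (some i)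
  by_cases hi : i ∈ e
  · simpa [Bx, mix, hi] using this
  · simp [Bx, mix, hi]

theorem vtx_mem_star (x0 x : Pt k M) {s : Bool} {e : Finset (Fin k)}
    (h : s = true → e ≠ Finset.univ) : vtx x0 x s e ∈ star x0 := by
  simp only [star, Finset.mem_filter, Finset.mem_univ, true_and, vtx]
  cases s
  · exact Or.inl rfl
  · obtain ⟨i, hi⟩ : ∃ i, i ∉ e := by
      by_contra hn
      exact h rfl (Finset.eq_univ_of_forall fun i => by_contra fun hi => hn ⟨i, hi⟩)
    exact Or.inr ⟨i, by simp [mix, hi]⟩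

theorem vtx_top (x0 x : Pt k M) : vtx x0 x true Finset.univ = x := by
  simp [vtx, mix_univ]

end comb

namespace Env

variable {R : Rep T} {k : ℕ} {E : Env R k}

theorem inf_mem_A0 : T.inf ∈ E.A0 := by
  exact Finset.mem_union_left _ (E.S_sub R.inf_mem)

theorem gridA_ne_inf {v : P} (hv : v ∉ E.A0) : v ≠ T.inf := fun h => hv (h ▸ inf_mem_A0)

theorem gridA_ot_ne {v : P} (hv : v ∈ E.Ot) : v ≠ T.inf := fun h =>
  Finset.disjoint_left.1 E.disj (E.S_sub R.inf_mem) (h ▸ hv)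

theorem gridA_σ {𝒱 : Type} {e : 𝒱 → ℕ} {cl : 𝒱 → P → F3} {ν : 𝒱} {p v : P}
    (h : T.Un E.A0 e cl ν p) (hv : v ∈ E.A0) (hi : v ≠ T.inf) : T.χ p (T.σ v) = cl ν v := by
  rw [← h.2.2 v (Finset.mem_erase.2 ⟨hi, hv⟩)]
  exact Tame.chi_symm (gridA_ne_inf h.2.1) hi fun e => h.2.1 (e ▸ hv)

theorem gridA_τ {𝒱 : Type} {e : 𝒱 → ℕ} {cl : 𝒱 → P → F3} {ν : 𝒱} {p v : P}
    (h : T.Un E.A0 e cl ν p) (hv : v ∈ E.A0) :
    T.χ p (T.τ v) = if v = T.inf then -(e ν : F3) else 0 := by
  split_ifs with hi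
  · rw [hi, Tame.chi_tau_inf (gridA_ne_inf h.2.1), h.1]
  · exact T.χ_ne _ _ (fun e => h.2.1 (e ▸ hv)) hi

theorem S_sub_Ay (y : Jx k → P) : R.S ⊆ E.Ay y := by
  exact fun v hv => Finset.mem_union_left _ (Finset.mem_union_left _ (E.S_sub hv))

theorem xy_hom (y : Jx k → P) : T.IsHom (E.xy y) := by
  exact Tame.hom_add E.x1_hom (Tame.hom_sum Finset.univ fun j _ => T.χ_hom (y j))

theorem wy_hom (y : Jx k → P) : T.IsHom (E.wy y) := by
  exact Tame.hom_add (Tame.hom_add E.w1_hom (Tame.hom_smul_const (T.χ_hom _) E.na))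
    (Tame.hom_smul_const (T.χ_hom _) E.nb)

theorem xy_unr (y : Jx k → P) : ∀ v ∉ E.Ay y, E.xy y (T.τ v) = 0 := by
  intro v hv
  simp only [Ay, Finset.mem_union, Finset.mem_image, Finset.mem_univ, true_and, not_or,
    not_exists] at hv
  have hi : v ≠ T.inf := fun h => hv.1 (h ▸ inf_mem_A0)
  rw [xy, E.x1_unr v hv.1, Finset.sum_eq_zero fun j _ => T.χ_ne _ v (Ne.symm (hv.2 j)) hi,
    add_zero]

theorem valid_finite : {y | E.Valid y}.Finite := by
  exact (Set.Finite.pi' fun j => T.dg_fin (E.e j)).subset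
    fun y hy j => (hy.1 j (Finset.mem_univ _)).1

theorem Y_anti {i j : ℕ} (h : i ≤ j) : E.Y j ⊆ E.Y i := by
  exact fun y hy => ⟨hy.1, hy.2.mono h⟩

section valid

variable {y : Jx k → P}

theorem Valid.notMem (h : E.Valid y) (j : Jx k) : y j ∉ E.A0 := by
  exact (h.1 j (Finset.mem_univ _)).2.1

theorem Valid.notMem_S (h : E.Valid y) (j : Jx k) : y j ∉ R.S := by
  exact fun hs => h.notMem j (Finset.mem_union_left _ (E.S_sub hs))

theorem Valid.inj (h : E.Valid y) : Function.Injective y := by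
  intro i j hij
  by_contra hne
  exact (h.2 i (Finset.mem_univ _) j (Finset.mem_univ _) hne).1 hij

theorem Valid.xy_τ (h : E.Valid y) (j : Jx k) : E.xy y (T.τ (y j)) = 1 := by
  have hi := gridA_ne_inf (h.notMem j)
  rw [xy, E.x1_unr _ (h.notMem j), zero_add, Finset.sum_eq_single j
    (fun i _ hij => T.χ_ne _ _ (fun e => hij (h.inj e).symm) hi) (by simp), T.χ_self _ hi]

theorem Valid.xy_τ_ot (h : E.Valid y) {v : P} (hv : v ∈ E.Ot) : E.xy y (T.τ v) = 1 := by
  have h1 : v ∈ E.A0 := Finset.mem_union_right _ hv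
  rw [xy, E.x1_ot v hv, Finset.sum_eq_zero fun j _ => T.χ_ne (y j) v
    (fun e => h.notMem j (e ▸ h1)) (gridA_ot_ne hv), add_zero]

theorem Valid.xy_σ_ot (h : E.Valid y) {v : P} (hv : v ∈ E.Ot) : E.xy y (T.σ v) = E.xs v := by
  rw [xy, xs, Finset.sum_congr rfl fun j _ => gridA_σ (h.1 j (Finset.mem_univ _))
    (Finset.mem_union_right _ hv) (gridA_ot_ne hv)]

theorem wy_unr {v : P} (hv : v ∉ E.A0) (ha : v ≠ y (some none)) (hb : v ≠ y none) :
    E.wy y (T.τ v) = 0 := by
  rw [wy, E.w1_unr v hv, T.χ_ne _ v ha (gridA_ne_inf hv), T.χ_ne _ v hb (gridA_ne_inf hv)]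
  simp

theorem Valid.wy_τ_a (h : E.Valid y) : E.wy y (T.τ (y (some none))) = E.na := by
  have hi := gridA_ne_inf (h.notMem (some none))
  rw [wy, E.w1_unr _ (h.notMem _), T.χ_self _ hi,
    T.χ_ne _ _ (fun e => by simpa using h.inj e) hi]
  simp

theorem Valid.wy_τ_b (h : E.Valid y) : E.wy y (T.τ (y none)) = E.nb := by
  have hi := gridA_ne_inf (h.notMem none)
  rw [wy, E.w1_unr _ (h.notMem _), T.χ_self _ hi,
    T.χ_ne _ _ (fun e => by simpa using h.inj e) hi]
  simp

theorem Valid.wy_τ_A0 (h : E.Valid y) {v : P} (hv : v ∈ E.A0) :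
    E.wy y (T.τ v) = E.wτ (y (some none)) v := by
  rw [wy, wτ, gridA_τ (h.1 none (Finset.mem_univ _)) hv]

theorem Valid.wy_σ_A0 (h : E.Valid y) {v : P} (hv : v ∈ E.A0) :
    E.wy y (T.σ v) = E.wσ (y (some none)) v := by
  rw [wy, wσ]
  split_ifs with hi
  · rw [hi, T.χ_inf (y none)]
  · rw [gridA_σ (h.1 none (Finset.mem_univ _)) hv hi]

theorem Psi_spec (hk : 1 ≤ k) (h : y ∈ E.Y k) :
    R.Admi (E.Ay y) (E.Ay y) (E.xy y) k (E.Psi y) ∧ ∀ g, digV 0 (E.Psi y g) = E.wy y g := by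
  have h1 : ∃ ψ, R.Admi (E.Ay y) (E.Ay y) (E.xy y) k ψ ∧ ∀ g, digV 0 (ψ g) = E.wy y g := by
    obtain ⟨ψ, h1, h2⟩ := h.2
    obtain ⟨ψ', h3, h4⟩ := Rep.lift (xy_hom y) (S_sub_Ay y) (xy_unr y) h1
    exact ⟨ψ', h3, fun g => (digV_congr ((h4 g).mono hk)).trans (h2 g)⟩
  rw [Psi, dif_pos h1]
  exact h1.choose_spec

end valid

variable {M : ℕ} {Z : GV k M → P} {pb : P}

theorem mem_PP : pb ∈ E.PP Z ↔ E.PbOK Z pb := by
  simp [PP]

theorem GridOK.inj (hZ : E.GridOK Z) : Function.Injective Z := by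
  intro i j hij
  by_contra hne
  exact (hZ.2 i (Finset.mem_univ _) j (Finset.mem_univ _) hne).1 hij

theorem GridOK.notMem (hZ : E.GridOK Z) (ν : GV k M) : Z ν ∉ E.A0 := by
  exact (hZ.1 ν (Finset.mem_univ _)).2.1

theorem valid_pt (hZ : E.GridOK Z) (hp : E.PbOK Z pb) (x : Pt k M) : E.Valid (pt Z pb x) := by
  refine ⟨?_, ?_⟩
  · rintro (_ | j) -
    · exact hp.1
    · exact hZ.1 (j, coord x j) (Finset.mem_univ _)
  · rintro (_ | j) - (_ | j') - hne
    · exact absurd rfl hne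
    · exact ⟨(hp.2 _).1, fun _ => (hp.2 (j', coord x j')).2⟩
    · refine ⟨(hp.2 _).1.symm, fun _ => ?_⟩
      rw [E.s_symm, ← (hp.2 (j, coord x j)).2]
      exact Tame.chi_symm (gridA_ne_inf hp.1.2.1) (gridA_ne_inf (hZ.notMem _)) (hp.2 _).1
    · have hj : j ≠ j' := fun e => hne (congrArg some e)
      have := hZ.2 (j, coord x j) (Finset.mem_univ _) (j', coord x j') (Finset.mem_univ _)
        fun e => hj (congrArg Prod.fst e)
      exact ⟨this.1, fun _ => this.2 hj⟩

theorem chi_eq_A0 (hZ : E.GridOK Z) (j : Option (Fin k)) (m m' : Fin M) {v : P} (hv : v ∈ E.A0) :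
    ∀ g ∈ T.D v, T.χ (Z (j, m)) g = T.χ (Z (j, m')) g := by
  have h1 := hZ.1 (j, m) (Finset.mem_univ _)
  have h2 := hZ.1 (j, m') (Finset.mem_univ _)
  refine Tame.hom_eq_on_D (T.χ_hom _) (T.χ_hom _) ?_ ((gridA_τ h1 hv).trans (gridA_τ h2 hv).symm)
  by_cases hi : v = T.inf
  · rw [hi, T.χ_inf, T.χ_inf]
  · exact (gridA_σ h1 hv hi).trans (gridA_σ h2 hv hi).symm

theorem chi_eq_pb (hZ : E.GridOK Z) (hp : E.PbOK Z pb) (j : Option (Fin k)) (m m' : Fin M) :
    ∀ g ∈ T.D pb, T.χ (Z (j, m)) g = T.χ (Z (j, m')) g := by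
  have hi := gridA_ne_inf hp.1.2.1
  exact Tame.hom_eq_on_D (T.χ_hom _) (T.χ_hom _) ((hp.2 (j, m)).2.trans (hp.2 (j, m')).2.symm)
    ((T.χ_ne _ _ (hp.2 _).1 hi).trans (T.χ_ne _ _ (hp.2 _).1 hi).symm)

theorem chi_eq_Z (hZ : E.GridOK Z) (j : Option (Fin k)) (m m' : Fin M) {ν : GV k M}
    (h : ν.1 ≠ j) : ∀ g ∈ T.D (Z ν), T.χ (Z (j, m)) g = T.χ (Z (j, m')) g := by
  have hi := gridA_ne_inf (hZ.notMem ν)
  have h1 := fun m => hZ.2 ν (Finset.mem_univ _) (j, m) (Finset.mem_univ _)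
    fun e => h (congrArg Prod.fst e)
  exact Tame.hom_eq_on_D (T.χ_hom _) (T.χ_hom _) (((h1 m).2 h).trans ((h1 m').2 h).symm)
    ((T.χ_ne _ _ (h1 m).1 hi).trans (T.χ_ne _ _ (h1 m').1 hi).symm)

theorem xy_eq_D (hZ : E.GridOK Z) (hp : E.PbOK Z pb) (x x' : Pt k M) {v : P}
    (hv : v ∈ E.A0 ∨ v = pb ∨ ∃ ν, v = Z ν ∧ coord x ν.1 = coord x' ν.1) :
    ∀ g ∈ T.D v, E.xy (pt Z pb x) g = E.xy (pt Z pb x') g := by
  intro g hg
  rw [xy, xy]
  congr 1
  refine Finset.sum_congr rfl ?_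
  rintro (_ | j) -
  · rfl
  · rcases hv with hv | rfl | ⟨ν, rfl, hν⟩
    · exact chi_eq_A0 hZ j _ _ hv g hg
    · exact chi_eq_pb hZ hp j _ _ g hg
    · by_cases hj : ν.1 = j
      · simp only [pt, ← hj, hν]
      · exact chi_eq_Z hZ j _ _ hj g hg

theorem xy_mix (α : Fin M) (z0 z1 : Fin k → Fin M) (e : Finset (Fin k)) :
    E.xy (pt Z pb (α, mix e z0 z1)) = xe (E.xy (pt Z pb (α, z0))) (E.βx Z z0 z1) e := by
  funext g
  have h1 : ∀ i, T.χ (Z (some i, mix e z0 z1 i)) g =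
      T.χ (Z (some i, z0 i)) g + if i ∈ e then E.βx Z z0 z1 i g else 0 := fun i => by
    by_cases hi : i ∈ e <;> simp [mix, βx, hi]
  simp only [xy, xe, Fintype.sum_option, pt, coord, h1, Finset.sum_add_distrib,
    Finset.sum_ite_mem, Finset.univ_inter]
  ring

theorem wy_mix (α : Fin M) (z0 z1 : Fin k → Fin M) :
    E.wy (pt Z pb (α, z1)) = E.wy (pt Z pb (α, z0)) := by
  rfl

theorem mem_Ay_pt {x : Pt k M} {v : P} :
    v ∈ E.Ay (pt Z pb x) ↔ v ∈ E.A0 ∨ v = pb ∨ ∃ j, v = Z (j, coord x j) := by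
  simp only [Ay, Finset.mem_union, Finset.mem_image, Finset.mem_univ, true_and]
  refine or_congr_right ⟨?_, ?_⟩
  · rintro ⟨_ | j, rfl⟩
    · exact Or.inl rfl
    · exact Or.inr ⟨j, rfl⟩
  · rintro (rfl | ⟨j, rfl⟩)
    · exact ⟨none, rfl⟩
    · exact ⟨some j, rfl⟩

theorem gridA_notMem (hZ : E.GridOK Z) (hp : E.PbOK Z pb) (ν : GV k M) :
    Z ν ∉ insert pb E.A0 := fun h =>
  (Finset.mem_insert.1 h).elim (fun h => (hp.2 ν).1 h.symm) (hZ.notMem ν)

theorem gridA_C (hZ : E.GridOK Z) (hp : E.PbOK Z pb) (j : Option (Fin k)) (m m' : Fin M) {v : P}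
    (hv : v ∈ insert pb E.A0) : ∀ g ∈ T.D v, T.χ (Z (j, m)) g = T.χ (Z (j, m')) g := by
  rcases Finset.mem_insert.1 hv with rfl | hv
  · exact chi_eq_pb hZ hp j m m'
  · exact chi_eq_A0 hZ j m m' hv

/-- the cube with base `x0` and top `x` -/
def cube (hZ : E.GridOK Z) (hp : E.PbOK Z pb) {x0 x : Pt k M} (hx : x ∉ star x0) : CubeE R k where
  C := insert pb E.A0
  p s i := Z (some i, if s then x.2 i else x0.2 i)
  a s := Z (none, if s then x.1 else x0.1)
  x0 := E.xy (pt Z pb x0)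
  w0 := E.wy (pt Z pb x0)
  na := E.na
  S_sub := fun v hv => Finset.mem_insert_of_mem (Finset.mem_union_left _ (E.S_sub hv))
  p_inj := by
    intro s s' i i' h
    obtain ⟨h1, h2⟩ := Prod.ext_iff.1 (hZ.inj h)
    obtain rfl : i = i' := Option.some.inj h1
    have h3 : x.2 i ≠ x0.2 i := not_mem_star.1 hx (some i)
    refine ⟨?_, rfl⟩
    cases s <;> cases s'
    · rfl
    · exact absurd h2.symm h3
    · exact absurd h2 h3
    · rfl
  a_ne := fun h => not_mem_star.1 hx none (Prod.ext_iff.1 (hZ.inj h)).2.symm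
  p_ne_a := fun s s' i h => by simpa using (Prod.ext_iff.1 (hZ.inj h)).1
  p_notMem := fun s i => gridA_notMem hZ hp _
  a_notMem := fun s => gridA_notMem hZ hp _
  x0_hom := xy_hom _
  x0_p := fun i => (valid_pt hZ hp x0).xy_τ (some (some i))
  x0_a := (valid_pt hZ hp x0).xy_τ (some none)
  x0_unr := by
    intro v hv h1 h2
    refine xy_unr _ v fun h => ?_
    rcases mem_Ay_pt.1 h with h | h | ⟨_ | i, h⟩
    · exact hv (Finset.mem_insert_of_mem h)
    · exact hv (h ▸ Finset.mem_insert_self _ _)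
    · exact h2 h
    · exact h1 i h
  w0_hom := wy_hom _
  w0_a := (valid_pt hZ hp x0).wy_τ_a
  w0_unr := fun v hv h => wy_unr (fun h => hv (Finset.mem_insert_of_mem h)) h
    fun h => hv (Finset.mem_insert.2 (Or.inl h))
  β_C := fun i v hv => gridA_C hZ hp _ _ _ hv
  β_a := fun i s => chi_eq_Z hZ _ _ _ (by simp)
  β_p := fun i s j hj => chi_eq_Z hZ _ _ _ (by simpa using hj)
  βa_C := fun v hv => gridA_C hZ hp _ _ _ hv
  βa_p := fun s j => chi_eq_Z hZ _ _ _ (by simp)

variable (hZ : E.GridOK Z) (hp : E.PbOK Z pb) {x0 x : Pt k M} (hx : x ∉ star x0)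

theorem cube_β : (cube hZ hp hx).β = E.βx Z x0.2 x.2 := by
  rfl

theorem cube_x (s : Bool) (e : Finset (Fin k)) :
    (cube hZ hp hx).x s e = E.xy (pt Z pb (vtx x0 x s e)) := by
  rw [vtx, xy_mix, CubeE.x, cube_β]
  congr 1
  funext g
  cases s
  · simp [cube]
  · simp only [cube, CubeE.βa, xy, Fintype.sum_option, pt, coord, if_true, Bool.false_eq_true,
      if_false]
    ring

theorem cube_w (s : Bool) (e : Finset (Fin k)) :
    (cube hZ hp hx).w s = E.wy (pt Z pb (vtx x0 x s e)) := by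
  funext g
  cases s
  · simp only [CubeE.w, Bool.false_eq_true, if_false, add_zero]
    rfl
  · simp only [cube, CubeE.w, CubeE.βa, wy, vtx, pt, coord, if_true, Bool.false_eq_true,
      if_false, sub_smul]
    abel

theorem cube_A (s : Bool) (e : Finset (Fin k)) :
    (cube hZ hp hx).A s e = E.Ay (pt Z pb (vtx x0 x s e)) := by
  ext v
  rw [mem_Ay_pt]
  simp only [CubeE.A, cube, Finset.mem_insert, Finset.mem_union, Finset.mem_image, Finset.mem_univ,
    true_and, decide_eq_true_eq]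
  constructor
  · rintro (h | (h | h) | ⟨i, h⟩)
    · exact Or.inr (Or.inr ⟨none, h⟩)
    · exact Or.inr (Or.inl h)
    · exact Or.inl h
    · exact Or.inr (Or.inr ⟨some i, h.symm⟩)
  · rintro (h | h | ⟨_ | i, h⟩)
    · exact Or.inr (Or.inl (Or.inr h))
    · exact Or.inr (Or.inl (Or.inl h))
    · exact Or.inl h
    · exact Or.inr (Or.inr ⟨i, h.symm⟩)

theorem cube_As : (cube hZ hp hx).As = insert pb (E.cubeP Z x0 x) := by
  ext v
  simp only [CubeE.As, cube, cubeP, Finset.mem_insert, Finset.mem_union, Finset.mem_image,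
    Finset.mem_univ, true_and]
  constructor
  · rintro (((h | h) | ⟨_ | _, h⟩) | ⟨⟨_ | _, i⟩, h⟩)
    · exact Or.inl h
    · exact Or.inr (Or.inl (Or.inl h))
    · exact Or.inr (Or.inl (Or.inr ⟨none, h⟩))
    · exact Or.inr (Or.inr ⟨none, h⟩)
    · exact Or.inr (Or.inl (Or.inr ⟨some i, h⟩))
    · exact Or.inr (Or.inr ⟨some i, h⟩)
  · rintro (h | (h | ⟨_ | i, h⟩) | ⟨_ | i, h⟩)
    · exact Or.inl (Or.inl (Or.inl h))
    · exact Or.inl (Or.inl (Or.inr h))
    · exact Or.inl (Or.inr ⟨false, h⟩)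
    · exact Or.inr ⟨(false, i), h⟩
    · exact Or.inl (Or.inr ⟨true, h⟩)
    · exact Or.inr ⟨(true, i), h⟩

end Env

end

end Pool.Agent.Smith
end
end
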