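import Pool.Agent.Work.MP_60d5ce_nt.Sm.BoxA

-- merged part: Pool.Agent.Work.MP_60d5ce_nt.Sm.Step
section
-- merged part: Pool.Agent.Work.MP_60d5ce_nt.Sm.GridB
section
/-!
# Properties of consistent cubes

Hints.  All vertices `(α, mix e z0 z1)`, `e ⊆ B`, lie in `YG k`, so `Psi_spec` applies to them, with
twist `xe ..` (`xy_mix`).  `Dl B'` of the cocycles satisfies the local condition at a place where
all vertices `e ⊆ B'` do and all twists agree on `D v` (`Dl_eq_sum_smul`, `LocOK.sum`,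
`LocOK.twist`, `xy_eq_D`); then use `LocOK.lc`, `LocOK.ram_zero` (`B'.card < k` when `B' ≠ univ`).
* `th_top`: if `z1 i = z0 i` this is `th_base`.  Otherwise `Dl B' (ψ (insert i ·)) =
  Dl (insert i B') ψ + Dl B' ψ` (`Dl_insert`) has the same digit; these vertices carry the local
  condition at `Z (some i, z1 i)`, and `th_unr` gives the value at `τ`.
* `th_pb`: the difference of the two sides satisfies the local condition at `pb`; at `τ pb` use `own`
  for `B'` nonempty and `wy_τ_b` for `B' = ∅`.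
-/

namespace Pool.Agent.Smith

open scoped Classical

noncomputable section

variable {W P : Type} [Group W] {T : Tame W P}

theorem GridB_Dl {ι : Type} [DecidableEq ι] {R : Rep T} {x : W → F3} {j : ℕ} {v : P} {B : Finset ι}
    {f : Finset ι → W → V} (h : ∀ e ⊆ B, R.LocOK x j (f e) v) :
    R.LocOK x j (fun g => Dl B fun e => f e g) v := by
  simp only [Dl_eq_sum_smul]
  exact Rep.LocOK.sum _ _ fun e he => h e (Finset.mem_powerset.1 he)

theorem GridB_sub {R : Rep T} {x : W → F3} {j : ℕ} {v : P} {f f' : W → V} (h : R.LocOK x j f v)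
    (h' : R.LocOK x j f' v) : R.LocOK x j (fun g => f g - f' g) v := by
  obtain ⟨l, h1, h2⟩ := h
  obtain ⟨l', h3, h4⟩ := h'
  refine ⟨l - l', h1.sub h3, fun g hg => ?_⟩
  have := (h2 g hg).sub (h4 g hg)
  rwa [sub_sub_sub_comm] at this

theorem GridB_card {k : ℕ} {B : Finset (Fin k)} (h : B ≠ Finset.univ) : B.card < k := by
  simpa using Finset.card_lt_card (Finset.ssubset_univ_iff.2 h)

theorem GridB_card' {k : ℕ} (B : Finset (Fin k)) : B.card < k + 1 := by
  simpa using Nat.lt_succ_of_le (Finset.card_le_univ B)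

namespace Env

variable {R : Rep T} {k : ℕ} {E : Env R k} {M : ℕ} {Z : GV k M → P} {pb : P}

variable {Y'' : Finset (Pt k M)} {B B' : Finset (Fin k)} {α α' : Fin M} {z0 z1 : Fin k → Fin M}

theorem GridB_mix (hB : B' ⊆ B) (g : W) :
    Dl B' (fun e => E.cψ Z pb α z0 (mix B z0 z1) e g) = Dl B' fun e => E.cψ Z pb α z0 z1 e g :=
  Dl_congr fun e he => by rw [cψ, cψ, mix_mix (he.trans hB)]

theorem Cons.GridB_spec (hk : 1 ≤ k) (hY : Y'' ⊆ E.YG Z pb k) (h : E.Cons Z pb Y'' B α z0 z1)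
    {e : Finset (Fin k)} (he : e ⊆ B) :
    R.Admi (E.Ay (pt Z pb (α, mix e z0 z1))) (E.Ay (pt Z pb (α, mix e z0 z1)))
      (E.xy (pt Z pb (α, mix e z0 z1))) k (E.cψ Z pb α z0 z1 e) ∧
      ∀ g, digV 0 (E.cψ Z pb α z0 z1 e g) = E.wy (pt Z pb (α, mix e z0 z1)) g :=
  Psi_spec hk (Finset.mem_filter.1 (hY (h.mem e he))).2

theorem Cons.GridB_coc (hk : 1 ≤ k) (hY : Y'' ⊆ E.YG Z pb k) (h : E.Cons Z pb Y'' B α z0 z1)
    {e : Finset (Fin k)} (he : e ⊆ B) :
    R.Coc (xe (E.xy (pt Z pb (α, z0))) (E.βx Z z0 z1) e) (k + 1) (E.cψ Z pb α z0 z1 e) := by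
  rw [← xy_mix]
  exact (h.GridB_spec hk hY he).1.1

theorem Cons.GridB_loc (hk : 1 ≤ k) (hZ : E.GridOK Z) (hp : E.PbOK Z pb) (hY : Y'' ⊆ E.YG Z pb k)
    (h : E.Cons Z pb Y'' B α z0 z1) {e : Finset (Fin k)} (he : e ⊆ B) (x : Pt k M) {v : P}
    (hv : v ∈ E.A0 ∨ v = pb ∨ ∃ i, v = Z (some i, x.2 i) ∧ mix e z0 z1 i = x.2 i) :
    R.LocOK (E.xy (pt Z pb x)) k (E.cψ Z pb α z0 z1 e) v := by
  refine ((h.GridB_spec hk hY he).1.2.1.2.1 v (mem_Ay_pt.2 ?_)).twist (xy_eq_D hZ hp _ _ ?_)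
  · refine hv.imp_right (Or.imp_right ?_)
    rintro ⟨i, h1, h2⟩
    exact ⟨some i, by rw [h1, ← h2]; rfl⟩
  · refine hv.imp_right (Or.imp_right ?_)
    rintro ⟨i, h1, h2⟩
    exact ⟨_, h1, h2⟩

theorem Cons.mono (h : E.Cons Z pb Y'' B α z0 z1) {Y3 : Finset (Pt k M)} (hY : Y'' ⊆ Y3) :
    E.Cons Z pb Y3 B α z0 z1 := by
  exact ⟨h.diag, fun e he => hY (h.mem e he), h.gr, h.own⟩

theorem Cons.restrict (h : E.Cons Z pb Y'' B α z0 z1) (hB : B' ⊆ B) :
    E.Cons Z pb Y'' B' α z0 (mix B' z0 z1) := by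
  refine ⟨fun i hi => if_neg hi, fun e he => ?_, fun C hC g => ?_, fun C hC hne j hj => ?_⟩
  · rw [mix_mix he]
    exact h.mem e (he.trans hB)
  · rw [GridB_mix hC]
    exact h.gr C (hC.trans hB) g
  · rw [Th, GridB_mix hC]
    exact h.own C (hC.trans hB) hne j hj

theorem th_mix (hB : B' ⊆ B) :
    Th (E.cψ Z pb α z0 (mix B z0 z1)) B' = Th (E.cψ Z pb α z0 z1) B' := by
  funext g
  rw [Th, Th, GridB_mix hB]

theorem Cons.th_empty (hk : 1 ≤ k) (hY : Y'' ⊆ E.YG Z pb k) (h : E.Cons Z pb Y'' B α z0 z1) :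
    Th (E.cψ Z pb α z0 z1) ∅ = E.wy (pt Z pb (α, z0)) := by
  funext g
  rw [Th, Dl_empty, Finset.card_empty, (h.GridB_spec hk hY (Finset.empty_subset B)).2, mix_empty]

theorem Cons.th_sm (hk : 1 ≤ k) (hY : Y'' ⊆ E.YG Z pb k) (h : E.Cons Z pb Y'' B α z0 z1)
    (hB : B' ⊆ B) : T.Sm (Th (E.cψ Z pb α z0 z1) B') := by
  exact Rep.sm_Th (GridB_card' B') fun e he => h.GridB_coc hk hY (he.trans hB)

theorem Cons.urel (hk : 1 ≤ k) (hY : Y'' ⊆ E.YG Z pb k) (h : E.Cons Z pb Y'' B α z0 z1) :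
    URel (E.βx Z z0 z1) B (Th (E.cψ Z pb α z0 z1)) := by
  exact Rep.urel_of_coc (GridB_card' B) (fun g C hC => h.gr C hC g)
    fun e he => h.GridB_coc hk hY he

theorem Cons.th_unr (hk : 1 ≤ k) (hY : Y'' ⊆ E.YG Z pb k) (h : E.Cons Z pb Y'' B α z0 z1)
    (hB : B' ⊆ B) {v : P} (h0 : v ∉ E.A0) (hb : B' = ∅ → v ≠ pb)
    (ha : B' = ∅ → v ≠ Z (none, α))
    (hi : ∀ i ∈ B', v ≠ Z (some i, z0 i) ∧ v ≠ Z (some i, z1 i)) :
    Th (E.cψ Z pb α z0 z1) B' (T.τ v) = 0 := by
  rcases B'.eq_empty_or_nonempty with rfl | hne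
  · rw [h.th_empty hk hY]
    exact wy_unr h0 (ha rfl) (hb rfl)
  by_cases hj : ∃ j, v = pt Z pb (α, z0) j
  · obtain ⟨j, rfl⟩ := hj
    refine h.own B' hB hne j fun i hi' e => ?_
    subst e
    exact (hi i hi').1 rfl
  refine complete_digV_of_VD (VD.mono (Dl_VD fun e he => ?_) (GridB_card' B'))
  refine (h.GridB_spec hk hY (he.trans hB)).1.2.2 v fun hv => ?_
  rcases mem_Ay_pt.1 hv with h1 | h1 | ⟨_ | i, h1⟩
  · exact h0 h1
  · exact hj ⟨none, h1⟩
  · exact hj ⟨some none, h1⟩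
  · by_cases hie : i ∈ e
    · exact (hi i (he hie)).2 (h1.trans (congrArg (fun m => Z (some i, m)) (if_pos hie)))
    · exact hj ⟨some (some i), h1.trans (congrArg (fun m => Z (some i, m)) (if_neg hie))⟩

theorem Cons.GridB_tau (hk : 1 ≤ k) (hZ : E.GridOK Z) (hp : E.PbOK Z pb) (hY : Y'' ⊆ E.YG Z pb k)
    (h : E.Cons Z pb Y'' B α z0 z1) (hB : B' ⊆ B) {i : Fin k} (hi : i ∉ B') (m : Fin M) :
    Th (E.cψ Z pb α z0 z1) B' (T.τ (Z (some i, m))) = 0 := by
  have key : ∀ i' ∈ B', ∀ m', Z (some i, m) ≠ Z (some i', m') := fun i' hi' m' e =>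
    hi ((Option.some.inj (congrArg Prod.fst (hZ.inj e)) : i = i') ▸ hi')
  exact h.th_unr hk hY hB (hZ.notMem _) (fun _ => (hp.2 _).1.symm)
    (fun _ e => Option.some_ne_none i (congrArg Prod.fst (hZ.inj e)))
    fun i' hi' => ⟨key i' hi' _, key i' hi' _⟩

theorem Cons.th_lc (hk : 1 ≤ k) (hZ : E.GridOK Z) (hp : E.PbOK Z pb) (hY : Y'' ⊆ E.YG Z pb k)
    (h : E.Cons Z pb Y'' B α z0 z1) (hB : B' ⊆ B) (hu : B' ≠ Finset.univ) {v : P} (hv : v ∈ E.Ot) :
    R.Lc (E.xs v) v (Th (E.cψ Z pb α z0 z1) B') := by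
  have hV := valid_pt hZ hp (α, z0)
  rw [← hV.xy_σ_ot hv]
  exact (GridB_Dl fun e he => h.GridB_loc hk hZ hp hY (he.trans hB) (α, z0)
    (Or.inl (Finset.mem_union_right _ hv))).lc
    (fun hS => Finset.disjoint_left.1 E.disj (E.S_sub hS) hv) (hV.xy_τ_ot hv) (GridB_card hu)
    fun g _ => h.gr B' hB g

theorem Cons.th_base (hk : 1 ≤ k) (hZ : E.GridOK Z) (hp : E.PbOK Z pb) (hY : Y'' ⊆ E.YG Z pb k)
    (h : E.Cons Z pb Y'' B α z0 z1) (hB : B' ⊆ B) {i : Fin k} (hi : i ∉ B') :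
    ∀ g ∈ T.D (Z (some i, z0 i)), Th (E.cψ Z pb α z0 z1) B' g = 0 := by
  have hV := valid_pt hZ hp (α, z0)
  have hu : B' ≠ Finset.univ := fun e => hi (e ▸ Finset.mem_univ i)
  intro g hg
  exact complete_digV_of_VD ((GridB_Dl fun e he => h.GridB_loc hk hZ hp hY (he.trans hB) (α, z0)
    (Or.inr (Or.inr ⟨i, rfl, if_neg fun h' => hi (he h')⟩))).ram_zero
    (hV.notMem_S (some (some i))) (hV.xy_τ (some (some i))) (GridB_card hu)
    (fun g _ => h.gr B' hB g)
    ((digV_eq_zero_iff (h.gr B' hB _)).1 (h.GridB_tau hk hZ hp hY hB hi _)) g hg)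

theorem Cons.th_top (hk : 1 ≤ k) (hZ : E.GridOK Z) (hp : E.PbOK Z pb) (hY : Y'' ⊆ E.YG Z pb k)
    (h : E.Cons Z pb Y'' B α z0 z1) {i : Fin k} (hB : insert i B' ⊆ B) (hi : i ∉ B') :
    ∀ g ∈ T.D (Z (some i, z1 i)), Th (E.cψ Z pb α z0 z1) B' g = 0 := by
  have hV := valid_pt hZ hp (α, z1)
  have hu : B' ≠ Finset.univ := fun e => hi (e ▸ Finset.mem_univ i)
  have hB' : B' ⊆ B := (Finset.subset_insert i B').trans hB
  have h1 : ∀ g, VD (B'.card + 1) (Dl B' (fun e => E.cψ Z pb α z0 z1 (insert i e) g) -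
      Dl B' fun e => E.cψ Z pb α z0 z1 e g) := fun g => by
    have := h.gr _ hB g
    rwa [Finset.card_insert_of_notMem hi, Dl_insert hi] at this
  have h2 : ∀ g, VD B'.card (Dl B' fun e => E.cψ Z pb α z0 z1 (insert i e) g) := fun g => by
    simpa using ((h1 g).mono (Nat.le_succ _)).add (h.gr B' hB' g)
  intro g hg
  refine (digV_congr (h1 g)).symm.trans (complete_digV_of_VD ?_)
  exact (GridB_Dl (f := fun e => E.cψ Z pb α z0 z1 (insert i e)) fun e he =>
    h.GridB_loc hk hZ hp hY ((Finset.insert_subset_insert i he).trans hB) (α, z1)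
    (Or.inr (Or.inr ⟨i, rfl, if_pos (Finset.mem_insert_self i e)⟩))).ram_zero
    (hV.notMem_S (some (some i))) (hV.xy_τ (some (some i))) (GridB_card hu) (fun g _ => h2 g)
    ((digV_eq_zero_iff (h2 _)).1
      ((digV_congr (h1 _)).trans (h.GridB_tau hk hZ hp hY hB' hi _))) g hg

theorem Cons.th_pb (hk : 1 ≤ k) (hZ : E.GridOK Z) (hp : E.PbOK Z pb) (hY : Y'' ⊆ E.YG Z pb k)
    (h : E.Cons Z pb Y'' B α z0 z1) (h' : E.Cons Z pb Y'' B α' z0 z1) (hB : B' ⊆ B)
    (hu : B' ≠ Finset.univ) :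
    ∀ g ∈ T.D pb, Th (E.cψ Z pb α' z0 z1) B' g = Th (E.cψ Z pb α z0 z1) B' g := by
  have hV := valid_pt hZ hp (α, z0)
  have h1 : Th (E.cψ Z pb α' z0 z1) B' (T.τ pb) = Th (E.cψ Z pb α z0 z1) B' (T.τ pb) := by
    rcases B'.eq_empty_or_nonempty with rfl | hne
    · rw [h.th_empty hk hY, h'.th_empty hk hY]
      exact (valid_pt hZ hp (α', z0)).wy_τ_b.trans hV.wy_τ_b.symm
    · exact (h'.own B' hB hne none fun _ _ => nofun).trans
        (h.own B' hB hne none fun _ _ => nofun).symm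
  intro g hg
  refine digV_congr ((GridB_sub
    (GridB_Dl fun e he => h'.GridB_loc hk hZ hp hY (he.trans hB) (α, z0) (Or.inr (Or.inl rfl)))
    (GridB_Dl fun e he => h.GridB_loc hk hZ hp hY (he.trans hB) (α, z0)
      (Or.inr (Or.inl rfl)))).ram_zero (hV.notMem_S none) (hV.xy_τ none) (GridB_card hu)
    (fun g _ => (h'.gr B' hB g).sub (h.gr B' hB g)) ?_ g hg)
  refine (digV_eq_zero_iff ((h'.gr B' hB _).sub (h.gr B' hB _))).1 ?_
  rw [digV_sub (h'.gr B' hB _) (h.gr B' hB _)]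
  exact sub_eq_zero.2 h1

end Env

end

end Pool.Agent.Smith
end

-- merged part: Pool.Agent.Work.MP_60d5ce_nt.Sm.GridC
section
/-!
# Many consistent cubes

Hints.
* `dvd_succ_of_dig_eq`: induction on `j` with `tl_spec`, `dig_succ`.
* `col_card`: the first component lies in `R.FamS β B (A0 ∪ Zs) Ot xs` with `β j = βx z0 z1 j` for
  `j ≠ i`, `β i = 0`, and `Zs` the set of `pb`, `Z (none, α)`, `Z (some j, z0 j)`, `Z (some j, z1 j)`,
  `j ≠ i` (`urel`, `th_sm`, `th_unr`, `th_lc`; `famS_ncard`, `G1_union`, `G1_zero`); the second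
  component lies in a finite type with `9 ^ (2 ^ k * (k + 2))` elements.
* `glue`: for `B' = insert i B''`, `Dl B' = Dl B'' (second cube) - Dl B'' (first cube)` (`Dl_insert`);
  equal leading digits give one more power of `pi`; at the `τ` of the base primes, `dvd_succ_of_dig_eq`.
* `dens`: `density`.
-/

namespace Pool.Agent.Smith

open scoped Classical

noncomputable section

variable {W P : Type} [Group W] {T : Tame W P}

theorem dvd_succ_of_dig_eq {j : ℕ} {a b : O} (h : pi ^ j ∣ a - b) (hd : dig j a = dig j b) :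
    pi ^ (j + 1) ∣ a - b := by
  induction j generalizing a b with
  | zero =>
    have h0 : res a = res b := hd
    have := (res_eq_zero_iff (a - b)).1 (by rw [map_sub, h0, sub_self])
    simpa using this
  | succ j ih =>
    obtain ⟨c, hc⟩ := h
    have h1 : tl a = tl b + pi ^ j * c :=
      tl_eq (c := res b) (by linear_combination hc + tl_spec b)
    rw [dig_succ, dig_succ] at hd
    obtain ⟨d, hd'⟩ := ih (a := tl a) (b := tl b) ⟨c, by rw [h1]; ring⟩ hd
    refine ⟨d, ?_⟩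
    linear_combination hc + pi * hd' - pi * h1

theorem GridC_mix_lo {k M : ℕ} {e : Finset (Fin k)} {i : Fin k} (hi : i ∉ e)
    (z0 z1 : Fin k → Fin M) (m m' : Fin M) :
    mix e (Function.update z0 i m) (Function.update z1 i m') =
      mix e (Function.update z0 i m) (Function.update z1 i m) := by
  funext j
  by_cases hj : j = i
  · subst hj
    simp [mix, hi]
  · simp [mix, Function.update_of_ne hj]

theorem GridC_mix_hi {k M : ℕ} {e : Finset (Fin k)} {i : Fin k} (hi : i ∉ e)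
    (z0 z1 : Fin k → Fin M) (m m' : Fin M) :
    mix (insert i e) (Function.update z0 i m) (Function.update z1 i m') =
      mix e (Function.update z0 i m') (Function.update z1 i m') := by
  funext j
  by_cases hj : j = i
  · subst hj
    simp [mix, hi]
  · simp [mix, Function.update_of_ne hj, hj]

namespace Env

variable {R : Rep T} {k : ℕ} {E : Env R k} {M : ℕ} {Z : GV k M → P} {pb : P}

variable {Y'' : Finset (Pt k M)}

theorem cons_empty {y : Pt k M} (hy : y ∈ Y'') : E.Cons Z pb Y'' ∅ y.1 y.2 y.2 := by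
  refine ⟨fun _ _ => rfl, fun e he => ?_, fun B' hB' g => ?_, fun B' hB' hn => ?_⟩
  · rw [Finset.subset_empty.1 he, mix_empty]
    exact hy
  · rw [Finset.subset_empty.1 hB', Finset.card_empty]
    exact VD.triv _
  · rw [Finset.subset_empty.1 hB'] at hn
    exact absurd hn Finset.not_nonempty_empty

theorem col_card (hk : 1 ≤ k) (hZ : E.GridOK Z) (hp : E.PbOK Z pb) (hY : Y'' ⊆ E.YG Z pb k)
    {Rb : ℕ} (hR : (R.G1 E.A0 E.Ot E.xs).ncard ≤ Rb) (B : Finset (Fin k)) {i : Fin k} (hi : i ∉ B)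
    (α : Fin M) (z0 z1 : Fin k → Fin M) :
    ∃ 𝒮 : Finset ((Finset (Fin k) → W → Vb) × (Finset (Fin k) → Jx k → Vb)),
      𝒮.card ≤ Ccol k Rb ∧ ∀ m,
        E.Cons Z pb Y'' B α (Function.update z0 i m) (Function.update z1 i m) →
          E.col Z pb B i α (Function.update z0 i m) (Function.update z1 i m) ∈ 𝒮 := by
  set Zs : Finset P := insert pb (insert (Z (none, α))
    (Finset.univ.image (fun j : Fin k => Z (some j, z0 j)) ∪
      Finset.univ.image fun j : Fin k => Z (some j, z1 j))) with hZs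
  have hcard : Zs.card ≤ 2 * k + 2 := by
    have h1 := Finset.card_image_le (s := (Finset.univ : Finset (Fin k)))
      (f := fun j : Fin k => Z (some j, z0 j))
    have h2 := Finset.card_image_le (s := (Finset.univ : Finset (Fin k)))
      (f := fun j : Fin k => Z (some j, z1 j))
    have h3 := Finset.card_union_le (Finset.univ.image fun j : Fin k => Z (some j, z0 j))
      (Finset.univ.image fun j : Fin k => Z (some j, z1 j))
    have h4 := Finset.card_insert_le (Z (none, α))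
      (Finset.univ.image (fun j : Fin k => Z (some j, z0 j)) ∪
        Finset.univ.image fun j : Fin k => Z (some j, z1 j))
    have h5 := Finset.card_insert_le pb (insert (Z (none, α))
      (Finset.univ.image (fun j : Fin k => Z (some j, z0 j)) ∪
        Finset.univ.image fun j : Fin k => Z (some j, z1 j)))
    rw [Finset.card_univ, Fintype.card_fin] at h1 h2
    rw [hZs]
    omega
  obtain ⟨hF, hN⟩ := R.famS_ncard (E.βx Z z0 z1) B (E.A0 ∪ Zs) E.Ot E.xs
  refine ⟨hF.toFinset ×ˢ Finset.univ, ?_, fun m h => ?_⟩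
  · rw [Finset.card_product, ← Set.ncard_eq_toFinset_card _ hF, Ccol]
    refine Nat.mul_le_mul ?_ (le_of_eq ?_)
    · have h1 : (R.G1 (E.A0 ∪ Zs) E.Ot E.xs).ncard ≤ Rb * 9 ^ (2 * k + 2) :=
        (R.G1_union E.A0 Zs E.Ot E.xs).trans
          (Nat.mul_le_mul hR (Nat.pow_le_pow_right (by norm_num) hcard))
      have h2 : 0 < (R.G1 (E.A0 ∪ Zs) E.Ot E.xs).ncard :=
        (Set.ncard_pos (R.G1_finite _ _ _)).2 ⟨0, R.G1_zero _ _ _⟩
      have h3 : B.card ≤ k := by simpa using Finset.card_le_univ B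
      refine hN.trans ((Nat.pow_le_pow_left h1 _).trans ?_)
      exact Nat.pow_le_pow_right (h2.trans_le h1) (Nat.pow_le_pow_right (by norm_num) h3)
    · rw [Finset.card_univ, Fintype.card_fun, Fintype.card_fun, Fintype.card_fun,
        Fintype.card_finset, Fintype.card_option, Fintype.card_option, Fintype.card_fin,
        Fintype.card_fin, ZMod.card, ← pow_mul, ← pow_mul, mul_comm (2 ^ k), pow_mul, pow_mul,
        pow_mul]
      rfl
  · refine Finset.mem_product.2 ⟨hF.mem_toFinset.2 ⟨fun B' hB' g g' => ?_,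
      fun B' hB' => ?_, fun B' hB' => ?_⟩, Finset.mem_univ _⟩
    · simp only [col, if_pos hB']
      rw [h.urel hk hY B' hB' g g']
      congr 1
      unfold uop
      refine Finset.sum_congr rfl fun C hC => ?_
      have hC' := Finset.mem_powerset.1 hC
      simp only [if_pos (Finset.sdiff_subset.trans hB' : B' \ C ⊆ B)]
      congr 1
      refine Finset.prod_congr rfl fun j hj => ?_
      have hji : j ≠ i := fun e => hi (e ▸ hB' (hC' hj))
      simp only [βx, Function.update_of_ne hji]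
    · simp only [col, if_pos hB']
      refine ⟨h.th_sm hk hY hB', fun v hv => ?_, fun v hv => h.th_lc hk hZ hp hY hB' ?_ hv⟩
      · rw [Finset.mem_union, not_or] at hv
        refine h.th_unr hk hY hB' hv.1 (fun _ e => hv.2 ?_) (fun _ e => hv.2 ?_) fun j hj => ?_
        · rw [e, hZs]
          exact Finset.mem_insert_self _ _
        · rw [e, hZs]
          exact Finset.mem_insert_of_mem (Finset.mem_insert_self _ _)
        · have hji : j ≠ i := fun e => hi (e ▸ hB' hj)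
          simp only [Function.update_of_ne hji]
          refine ⟨fun e => hv.2 ?_, fun e => hv.2 ?_⟩
          · rw [e, hZs]
            exact Finset.mem_insert_of_mem (Finset.mem_insert_of_mem (Finset.mem_union_left _
              (Finset.mem_image.2 ⟨j, Finset.mem_univ _, rfl⟩)))
          · rw [e, hZs]
            exact Finset.mem_insert_of_mem (Finset.mem_insert_of_mem (Finset.mem_union_right _
              (Finset.mem_image.2 ⟨j, Finset.mem_univ _, rfl⟩)))
      · intro e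
        exact hi (hB' (e ▸ Finset.mem_univ i))
    · simp only [col, if_neg hB']

theorem glue (B : Finset (Fin k)) {i : Fin k} (hi : i ∉ B) (α : Fin M) (z0 z1 : Fin k → Fin M)
    (m m' : Fin M) (h : E.Cons Z pb Y'' B α (Function.update z0 i m) (Function.update z1 i m))
    (h' : E.Cons Z pb Y'' B α (Function.update z0 i m') (Function.update z1 i m'))
    (hc : E.col Z pb B i α (Function.update z0 i m) (Function.update z1 i m) =
      E.col Z pb B i α (Function.update z0 i m') (Function.update z1 i m')) :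
    E.Cons Z pb Y'' (insert i B) α (Function.update z0 i m) (Function.update z1 i m') := by
  have hlo : ∀ e ⊆ B, mix e (Function.update z0 i m) (Function.update z1 i m') =
      mix e (Function.update z0 i m) (Function.update z1 i m) := fun e he =>
    GridC_mix_lo (fun hm => hi (he hm)) z0 z1 m m'
  have hhi : ∀ e ⊆ B, mix (insert i e) (Function.update z0 i m) (Function.update z1 i m') =
      mix e (Function.update z0 i m') (Function.update z1 i m') := fun e he =>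
    GridC_mix_hi (fun hm => hi (he hm)) z0 z1 m m'
  have dlo : ∀ B' ⊆ B, ∀ g,
      (Dl B' fun e => E.cψ Z pb α (Function.update z0 i m) (Function.update z1 i m') e g) =
        Dl B' fun e => E.cψ Z pb α (Function.update z0 i m) (Function.update z1 i m) e g :=
    fun B' hB' g => Dl_congr fun e he => by simp only [cψ, hlo e (he.trans hB')]
  have dhi : ∀ B' ⊆ B, ∀ g,
      (Dl (insert i B') fun e =>
        E.cψ Z pb α (Function.update z0 i m) (Function.update z1 i m') e g) =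
      (Dl B' fun e => E.cψ Z pb α (Function.update z0 i m') (Function.update z1 i m') e g) -
        Dl B' fun e => E.cψ Z pb α (Function.update z0 i m) (Function.update z1 i m) e g := by
    intro B' hB' g
    have e1 : (Dl B' fun e =>
        E.cψ Z pb α (Function.update z0 i m) (Function.update z1 i m') (insert i e) g) =
        Dl B' fun e => E.cψ Z pb α (Function.update z0 i m') (Function.update z1 i m') e g :=
      Dl_congr fun e he => by simp only [cψ, hhi e (he.trans hB')]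
    rw [Dl_insert fun hm => hi (hB' hm), dlo B' hB' g, e1]
  have hone : ∀ B' ⊆ B, ∀ g, VD (B'.card + 1)
      ((Dl B' fun e => E.cψ Z pb α (Function.update z0 i m') (Function.update z1 i m') e g) -
        Dl B' fun e => E.cψ Z pb α (Function.update z0 i m) (Function.update z1 i m) e g) := by
    intro B' hB' g
    have h1 := congrFun (congrFun (congrArg Prod.fst hc) B') g
    simp only [col, if_pos hB', Th] at h1
    refine (digV_eq_zero_iff ((h'.gr B' hB' g).sub (h.gr B' hB' g))).1 ?_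
    rw [digV_sub (h'.gr B' hB' g) (h.gr B' hB' g), h1, sub_self]
  have hsplit : ∀ e ⊆ insert i B, e ⊆ B ∨ ∃ e' ⊆ B, e = insert i e' := by
    intro e he
    by_cases hie : i ∈ e
    · exact Or.inr ⟨e.erase i, Finset.subset_insert_iff.1 he, (Finset.insert_erase hie).symm⟩
    · exact Or.inl ((Finset.subset_insert_iff_of_notMem hie).1 he)
  refine ⟨fun j hj => ?_, fun e he => ?_, fun B' hB' g => ?_, fun B' hB' hn j hj => ?_⟩
  · rw [Finset.mem_insert, not_or] at hj
    have := h.diag j hj.2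
    simpa only [Function.update_of_ne hj.1] using this
  · rcases hsplit e he with he1 | ⟨e, he1, rfl⟩
    · rw [hlo e he1]
      exact h.mem e he1
    · rw [hhi e he1]
      exact h'.mem e he1
  · rcases hsplit B' hB' with hB | ⟨B', hB, rfl⟩
    · rw [dlo B' hB g]
      exact h.gr B' hB g
    · rw [dhi B' hB g, Finset.card_insert_of_notMem fun hm => hi (hB hm)]
      exact hone B' hB g
  · rcases hsplit B' hB' with hB | ⟨B', hB, rfl⟩
    · have := h.own B' hB hn j hj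
      simp only [Th] at this ⊢
      rw [dlo B' hB]
      exact this
    · have hji : j ≠ some (some i) := hj i (Finset.mem_insert_self _ _)
      have hpt : pt Z pb (α, Function.update z0 i m') j = pt Z pb (α, Function.update z0 i m) j := by
        rcases j with _ | _ | j
        · rfl
        · rfl
        · have : j ≠ i := fun e => hji (by rw [e])
          simp only [pt, coord, Function.update_of_ne this]
      have h2 := congrFun (congrFun (congrArg Prod.snd hc) B') j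
      simp only [col, if_neg hji, hpt] at h2
      simp only [Th]
      rw [dhi B' hB, Finset.card_insert_of_notMem fun hm => hi (hB hm)]
      funext a
      exact dig_of_dvd (dvd_succ_of_dig_eq (hone B' hB _ a) (congrFun h2 a).symm)

theorem Ccol_pos {Rb : ℕ} (hR : 0 < Rb) : 0 < Ccol k Rb := by
  unfold Ccol Cfam
  positivity

theorem dens (hk : 1 ≤ k) (hM : 0 < M) (hZ : E.GridOK Z) (hp : E.PbOK Z pb)
    (hY : Y'' ⊆ E.YG Z pb k) {Rb : ℕ} (hR : (R.G1 E.A0 E.Ot E.xs).ncard ≤ Rb) {δ : ℝ}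
    (hδ : 0 ≤ δ) (hc : δ * (M : ℝ) ^ (k + 1) ≤ Y''.card) :
    ∃ x0 : Pt k M, dd δ (Ccol k Rb) k ^ 2 * (M : ℝ) ^ (k + 1) ≤
      (Finset.univ.filter fun x : Pt k M => E.Cons Z pb Y'' Finset.univ x0.1 x0.2 x.2 ∧
        E.Cons Z pb Y'' Finset.univ x.1 x0.2 x.2).card := by
  have h2 : 0 < (R.G1 E.A0 E.Ot E.xs).ncard :=
    (Set.ncard_pos (R.G1_finite _ _ _)).2 ⟨0, R.G1_zero _ _ _⟩
  exact density hM (Ccol_pos (h2.trans_le hR)) hδ Y'' hc (E.Cons Z pb Y'') (E.col Z pb)
    (fun y hy => cons_empty hy) (fun B α z0 z1 h => h.diag)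
    (fun B i hi α z0 z1 => col_card hk hZ hp hY hR B hi α z0 z1)
    fun B i hi α z0 z1 m m' h h' hc => glue B hi α z0 z1 m m' h h' hc

end Env

end

end Pool.Agent.Smith
end

-- merged part: Pool.Agent.Work.MP_60d5ce_nt.Sm.GridD
section
/-!
# Completable tops: they lift, they force an equation, and there are many

Hints.  For `x ∉ star x0` the data at `vtx x0 x s e` are the true ones (`vtx_mem_star`), and
`ok x0 (vtx x0 x s e)` is `Cons (YG k) e (side s) x0.2 (mix e x0.2 x.2)` (`Bx_mix`).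
* `star_of_mem`: `van` at the base prime is `th_base`; at the top prime it is `th_top` for the cube
  `insert i B`, unless `s = true` and `insert i B = univ`, where the third condition of `Yp` is used.
* `Yp_sub`, `zero_of_lift`: `CubeE.complete`; split the sum over `insert pb A0` in `rhs`
  (`wy_τ_A0`, `wy_σ_A0`, `wy_τ_b`, and `Phs (τ pb) = 0` by `Compl.unr`).
* `mem_Yp`: `Cons.restrict`, `Cons.mono`; take `Φs` the difference of `Th univ` of the two sides.
-/

namespace Pool.Agent.Smith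

open scoped Classical

noncomputable section

variable {W P : Type} [Group W] {T : Tame W P}

namespace Env

variable {R : Rep T} {k : ℕ} {E : Env R k} {M : ℕ} {Z : GV k M → P} {pb : P}

variable {x0 x : Pt k M}

theorem GridD_dat {s : Bool} {e : Finset (Fin k)} (h : s = true → e ≠ Finset.univ) :
    (E.dat Z pb x0).2 (vtx x0 x s e) = (E.ok Z pb x0 (vtx x0 x s e),
      E.Fy (pt Z pb (vtx x0 x s e)), E.Phi Z pb x0 (vtx x0 x s e)) :=
  if_pos (vtx_mem_star x0 x h)

theorem GridD_ok (hx : x ∉ star x0) {s : Bool} {e : Finset (Fin k)} :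
    E.ok Z pb x0 (vtx x0 x s e) ↔
      E.Cons Z pb (E.YG Z pb k) e (if s then x.1 else x0.1) x0.2 (mix e x0.2 x.2) := by
  unfold ok
  rw [show Bx x0.2 (vtx x0 x s e).2 = e from Bx_mix hx e]
  rfl

theorem GridD_urel {β : Fin k → W → F3} {U : Finset (Fin k)} {Θ Θ' : Finset (Fin k) → W → Vb}
    (h : URel β U Θ) (e : ∀ B g, Θ B g = Θ' B g) : URel β U Θ' :=
  (show Θ = Θ' from funext₂ e) ▸ h

theorem GridD_ne {i : Fin k} {B : Finset (Fin k)} (hi : i ∉ B) : B ≠ Finset.univ :=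
  fun h => hi (h ▸ Finset.mem_univ i)

theorem dphi_eq (hx : x ∉ star x0) {B : Finset (Fin k)} (hB : B ≠ Finset.univ)
    (h1 : E.ok Z pb x0 (vtx x0 x true B)) (h0 : E.ok Z pb x0 (vtx x0 x false B)) (g : W) :
    DPhi (E.dat Z pb x0) x B g =
      Th (E.cψ Z pb x.1 x0.2 x.2) B g - Th (E.cψ Z pb x0.1 x0.2 x.2) B g := by
  have hb : Bx x0.2 (vtx x0 x true B).2 = B := Bx_mix hx B
  have h2 : DPhi (E.dat Z pb x0) x B = E.Phi Z pb x0 (vtx x0 x true B) B :=
    congrArg (fun z : Prop × F3 × (Finset (Fin k) → W → Vb) => z.2.2 B)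
      (GridD_dat (s := true) fun _ => hB)
  rw [h2, Phi, if_pos ⟨h1, h0, hb.symm ▸ hB⟩, hb, if_pos subset_rfl,
    ← th_mix (z1 := x.2) subset_rfl, ← th_mix (α := x0.1) (z1 := x.2) subset_rfl]
  rfl

theorem Yp_ok (hx : x ∈ E.Yp Z (E.dat Z pb x0)) {s : Bool} {e : Finset (Fin k)}
    (h : s = true → e ≠ Finset.univ) :
    E.Cons Z pb (E.YG Z pb k) e (if s then x.1 else x0.1) x0.2 (mix e x0.2 x.2) := by
  obtain ⟨h1, h2, -⟩ := (Finset.mem_filter.1 hx).2
  have h3 : ((E.dat Z pb x0).2 (vtx x0 x s e)).1 := h2 s e h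
  rw [GridD_dat h] at h3
  exact (GridD_ok h1).1 h3

theorem Phs_spec {D : Dt W k M} (hx : x ∈ E.Yp Z D) : E.Compl Z D x (E.Phs Z D x) := by
  have h := (Finset.mem_filter.1 hx).2.2.2.2
  rw [Phs, dif_pos h]
  exact h.choose_spec

theorem GridD_dphi (hx : x ∈ E.Yp Z (E.dat Z pb x0)) {B : Finset (Fin k)} (hB : B ≠ Finset.univ)
    (g : W) : DPhi (E.dat Z pb x0) x B g =
      Th (E.cψ Z pb x.1 x0.2 x.2) B g - Th (E.cψ Z pb x0.1 x0.2 x.2) B g := by
  have hs : x ∉ star x0 := (Finset.mem_filter.1 hx).2.1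
  exact dphi_eq hs hB ((GridD_ok hs).2 (Yp_ok hx fun _ => hB))
    ((GridD_ok hs).2 (Yp_ok hx (by simp))) g

theorem GridD_Y (hx : x ∈ E.Yp Z (E.dat Z pb x0)) {s : Bool} {e : Finset (Fin k)}
    (h : s = true → e ≠ Finset.univ) : pt Z pb (vtx x0 x s e) ∈ E.Y k := by
  have h1 := (Yp_ok hx h).mem e subset_rfl
  rw [mix_mix subset_rfl] at h1
  exact (Finset.mem_filter.1 h1).2

theorem GridD_top (hk : 1 ≤ k) (hZ : E.GridOK Z) (hp : E.PbOK Z pb)
    (hx : x ∈ E.Yp Z (E.dat Z pb x0)) {s : Bool} {i : Fin k} {B : Finset (Fin k)} (hi : i ∉ B)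
    (h : s = true → insert i B ≠ Finset.univ) : ∀ g ∈ T.D (Z (some i, x.2 i)),
      Th (E.cψ Z pb (if s then x.1 else x0.1) x0.2 x.2) B g = 0 := by
  intro g hg
  rw [← th_mix (Finset.subset_insert i B)]
  refine (Yp_ok hx h).th_top hk hZ hp subset_rfl subset_rfl hi g ?_
  rwa [show mix (insert i B) x0.2 x.2 i = x.2 i from if_pos (Finset.mem_insert_self i B)]

theorem star_of_mem (hk : 1 ≤ k) (hZ : E.GridOK Z) (hp : E.PbOK Z pb) (hs : x ∉ star x0)
    (hx : x ∈ E.Yp Z (E.dat Z pb x0)) :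
    (cube hZ hp hs).Star (fun s e => E.Psi (pt Z pb (vtx x0 x s e)))
      (E.Phs Z (E.dat Z pb x0) x) := by
  have hc := Phs_spec hx
  refine ⟨fun s e h => ?_, fun s e h => ?_, fun s B h g => ?_, fun s B h hB => ?_,
    fun s s' i B hi g hg => ?_, hc.sm, ?_, fun v hv => hc.unr v fun h => hv ?_, fun s => ?_⟩
  · rw [cube_A, cube_x]
    exact (Psi_spec hk (GridD_Y hx h)).1
  · rw [cube_w hZ hp hs s e]
    exact (Psi_spec hk (GridD_Y hx h)).2
  · have h1 := (Yp_ok hx h).gr B subset_rfl g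
    rw [Dl_congr (g := fun e => E.cψ Z pb (if s then x.1 else x0.1) x0.2 x.2 e g)
      fun e he => by rw [cψ, mix_mix he]; rfl] at h1
    exact h1
  · have h1 := (Yp_ok hx h).own B subset_rfl hB (some none) (by simp)
    rw [th_mix subset_rfl] at h1
    exact h1
  · change Th (E.cψ Z pb (if s then x.1 else x0.1) x0.2 x.2) B g = 0
    cases s'
    · rw [← th_mix subset_rfl]
      exact (Yp_ok hx fun _ => GridD_ne hi).th_base hk hZ hp subset_rfl subset_rfl hi g hg
    · by_cases h : s = true → insert i B ≠ Finset.univ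
      · exact GridD_top hk hZ hp hx hi h g hg
      · push Not at h
        obtain ⟨rfl, h⟩ := h
        have h1 := (Finset.mem_filter.1 hx).2.2.2.1 i g hg
        rw [← h, Finset.erase_insert hi, GridD_dphi hx (GridD_ne hi), sub_eq_zero] at h1
        exact h1.trans (GridD_top (s := false) hk hZ hp hx hi (by simp) g hg)
  · rw [cube_β]
    refine GridD_urel hc.rel fun B g => ?_
    split_ifs with hB
    · rfl
    · exact GridD_dphi hx hB g
  · rw [cube_As]
    exact Finset.mem_insert_of_mem h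
  · cases s
    · exact hc.unr0
    · exact hc.unr1

theorem Yp_sub (hk : 1 ≤ k) (hk2 : Even k) (hZ : E.GridOK Z) (hp : E.PbOK Z pb) :
    E.Yp Z (E.dat Z pb x0) ⊆ E.YG Z pb k := by
  intro x hx
  have hs : x ∉ star x0 := (Finset.mem_filter.1 hx).2.1
  have h := ((cube hZ hp hs).complete hk hk2 (star_of_mem hk hZ hp hs hx)).1
  rw [cube_A, cube_x, cube_w hZ hp hs true Finset.univ, vtx_top] at h
  exact Finset.mem_filter.2 ⟨Finset.mem_univ _, valid_pt hZ hp x, h⟩

theorem zero_of_lift (hk : 1 ≤ k) (hk2 : Even k) (hZ : E.GridOK Z) (hp : E.PbOK Z pb)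
    (hx : x ∈ E.Yp Z (E.dat Z pb x0)) (h1 : x ∈ E.YG Z pb (k + 1)) :
    E.zero Z (E.dat Z pb x0) x pb := by
  have hs : x ∉ star x0 := (Finset.mem_filter.1 hx).2.1
  have h := ((cube hZ hp hs).complete hk hk2 (star_of_mem hk hZ hp hs hx)).2 (by
    rw [cube_A, cube_x, cube_w hZ hp hs true Finset.univ, vtx_top]
    exact (Finset.mem_filter.1 h1).2.2)
  have hv := valid_pt hZ hp x0
  have hb0 : pb ∉ E.A0 := hv.notMem none
  have hτ : E.Phs Z (E.dat Z pb x0) x (T.τ pb) = 0 := (Phs_spec hx).unr pb (by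
    simp only [cubeP, Finset.mem_union, Finset.mem_image, not_or, not_exists, not_and]
    exact ⟨⟨hb0, fun j _ => (hp.2 _).1.symm⟩, fun j _ => (hp.2 _).1.symm⟩)
  have hF : ∀ s e, (s = true → e ≠ Finset.univ) →
      (cube hZ hp hs).Fv (fun s e => E.Psi (pt Z pb (vtx x0 x s e))) s e =
        ((E.dat Z pb x0).2 (vtx x0 x s e)).2.1 := fun s e h => by
    rw [GridD_dat h, CubeE.Fv, cube_A, cube_x]
    rfl
  have e1 : (fun e => if e = Finset.univ then 0 else
      (cube hZ hp hs).Fv (fun s e => E.Psi (pt Z pb (vtx x0 x s e))) true e) =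
      fun e => if e = Finset.univ then 0 else ((E.dat Z pb x0).2 (vtx x0 x true e)).2.1 := by
    funext e
    split_ifs with he
    · rfl
    · exact hF true e fun _ => he
  have e2 : (cube hZ hp hs).Fv (fun s e => E.Psi (pt Z pb (vtx x0 x s e))) false =
      fun e => ((E.dat Z pb x0).2 (vtx x0 x false e)).2.1 := funext fun e => hF false e (by simp)
  have e3 : ∑ v ∈ insert pb E.A0, T.br v (E.Phs Z (E.dat Z pb x0) x) (E.wy (pt Z pb x0)) =
      hb (E.Phs Z (E.dat Z pb x0) x (T.σ pb)) E.nb +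
        ∑ v ∈ E.A0, (hb (E.Phs Z (E.dat Z pb x0) x (T.σ v)) (E.wτ (Z (none, x0.1)) v) -
          hb (E.Phs Z (E.dat Z pb x0) x (T.τ v)) (E.wσ (Z (none, x0.1)) v)) := by
    rw [Finset.sum_insert hb0]
    congr 1
    · rw [Tame.br, hτ, show E.wy (pt Z pb x0) (T.τ pb) = E.nb from hv.wy_τ_b]
      simp [hb]
    · refine Finset.sum_congr rfl fun v hv' => ?_
      rw [Tame.br, hv.wy_τ_A0 hv', hv.wy_σ_A0 hv']
      rfl
  rw [e1, e2] at h
  have e4 : (cube hZ hp hs).rhs (E.Phs Z (E.dat Z pb x0) x) =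
      2 * ∑ v ∈ insert pb E.A0, T.br v (E.Phs Z (E.dat Z pb x0) x) (E.wy (pt Z pb x0)) +
        hb (E.Phs Z (E.dat Z pb x0) x (T.σ (Z (none, x0.1))) +
          E.Phs Z (E.dat Z pb x0) x (T.σ (Z (none, x.1)))) E.na := rfl
  rw [e4, e3] at h
  unfold zero Cst
  change _ + (_ * ∑ v ∈ E.A0, (hb _ (E.wτ (Z (none, x0.1)) v) - hb _ (E.wσ (Z (none, x0.1)) v)) +
    hb (_ + _) _ - (Dl _ (fun e => if e = Finset.univ then 0 else
      ((E.dat Z pb x0).2 (vtx x0 x true e)).2.1) -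
        Dl _ fun e => ((E.dat Z pb x0).2 (vtx x0 x false e)).2.1)) = 0
  rw [h]
  change _ + (_ + hb (E.Phs Z (E.dat Z pb x0) x (T.σ (Z (none, x0.1))) + _) _ - _) = 0
  ring

theorem mem_Yp (hk : 1 ≤ k) (hZ : E.GridOK Z) (hp : E.PbOK Z pb) {Y'' : Finset (Pt k M)}
    (hY : Y'' ⊆ E.YG Z pb k) (hs : x ∉ star x0)
    (h0 : E.Cons Z pb Y'' Finset.univ x0.1 x0.2 x.2)
    (h1 : E.Cons Z pb Y'' Finset.univ x.1 x0.2 x.2) : x ∈ E.Yp Z (E.dat Z pb x0) ∩ Y'' := by
  have hc : ∀ (s : Bool) (e : Finset (Fin k)), E.ok Z pb x0 (vtx x0 x s e) := fun s e => by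
    rw [GridD_ok hs]
    cases s
    · exact (h0.restrict (Finset.subset_univ e)).mono hY
    · exact (h1.restrict (Finset.subset_univ e)).mono hY
  have hne : (Finset.univ : Finset (Fin k)) ≠ ∅ :=
    Finset.ne_empty_of_mem (Finset.mem_univ ⟨0, hk⟩)
  have hu : ∀ v ∉ E.A0, (∀ i, v ≠ Z (some i, x0.2 i) ∧ v ≠ Z (some i, x.2 i)) →
      Th (E.cψ Z pb x.1 x0.2 x.2) Finset.univ (T.τ v) -
        Th (E.cψ Z pb x0.1 x0.2 x.2) Finset.univ (T.τ v) = 0 := fun v hv hi => by
    rw [h1.th_unr hk hY subset_rfl hv (fun h => absurd h hne) (fun h => absurd h hne)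
      fun i _ => hi i, h0.th_unr hk hY subset_rfl hv (fun h => absurd h hne)
      (fun h => absurd h hne) fun i _ => hi i, sub_zero]
  have ha : ∀ (m : Fin M) (i : Fin k), Z (none, m) ≠ Z (some i, x0.2 i) ∧
      Z (none, m) ≠ Z (some i, x.2 i) := fun m i =>
    ⟨fun h => by simpa using hZ.inj h, fun h => by simpa using hZ.inj h⟩
  refine Finset.mem_inter.2 ⟨Finset.mem_filter.2 ⟨Finset.mem_univ _, hs, fun s e h => ?_,
    fun i g hg => ?_, fun g => Th (E.cψ Z pb x.1 x0.2 x.2) Finset.univ g -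
      Th (E.cψ Z pb x0.1 x0.2 x.2) Finset.univ g, ?_, ?_, fun v hv => ?_, ?_, ?_⟩, ?_⟩
  · change ((E.dat Z pb x0).2 (vtx x0 x s e)).1
    rw [GridD_dat h]
    exact hc s e
  · have hi := Finset.notMem_erase i (Finset.univ : Finset (Fin k))
    rw [dphi_eq hs (GridD_ne hi) (hc _ _) (hc _ _),
      h1.th_top hk hZ hp hY (Finset.subset_univ _) hi g hg,
      h0.th_top hk hZ hp hY (Finset.subset_univ _) hi g hg, sub_zero]
  · exact Tame.sm_comp₂ (h1.th_sm hk hY subset_rfl) (h0.th_sm hk hY subset_rfl) (· - ·)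
  · refine GridD_urel ((h1.urel hk hY).sub (h0.urel hk hY)) fun B g => ?_
    split_ifs with hB
    · rw [hB]
    · exact (dphi_eq hs hB (hc _ _) (hc _ _) g).symm
  · simp only [cubeP, Finset.mem_union, Finset.mem_image, not_or, not_exists, not_and] at hv
    exact hu v hv.1.1 fun i => ⟨fun h => hv.1.2 (some i) (Finset.mem_univ _) h.symm,
      fun h => hv.2 (some i) (Finset.mem_univ _) h.symm⟩
  · exact hu _ (hZ.notMem _) (ha _)
  · exact hu _ (hZ.notMem _) (ha _)
  · have := h1.mem Finset.univ subset_rfl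
    rwa [mix_univ] at this

end Env

end

end Pool.Agent.Smith
end

-- merged part: Pool.Agent.Work.MP_60d5ce_nt.Sm.GridE
section
/-!
# The number of data, and independence of the forced equations

Hints.
* `phi_mem`: `urel`, `URel.sub`, `th_sm`, `th_unr` (at `pb`: for `B = ∅` the difference is
  `(χ (Z (none, y.1)) - χ (Z (none, x0.1))) • na` by `th_empty`), `th_lc`; zero is in `FamS`.
* `DD_card`: `dat pb x0` is determined by `x0` and a function on `star x0` with values in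
  `Prop × F3 × FamS ..` (`Finset.card_pi`, `card_star`, `famS_ncard`, `G1_union`).
* `zeros_bound`: if no `pb` is valid the set is empty.  Otherwise `D = dat pb0 x0`.  Apply
  `exists_comm` and `cheb_zeros` with `X = Q`, `A = A0 ∪ image Z`, `A' = A.erase inf`,
  `c (Z ν) = s none (some ν.1)`, `c = cl none` on `A0`, `p0 i = Z (some i, x0.2 i)`,
  `p1 x i = Z (some i, x.2 i)`, `Φ x B = if B = univ then Phs D x else DPhi D x B`,
  `t x i = τ (p1 x i)`, `ta x = τ (Z (none, x.1))`, `n = (-1) ^ k • na`.  For a valid `pb`,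
  `Φ x B (σ pb) = 0` for `B ≠ univ` by `dphi_eq` and `th_pb`.  Compare with `pr_lower` for
  `PP Z = Pr A A' c (e none)`, `η = 1 / 2`; `Small` also gives `err ≤ q ^ e / 2`.
-/

namespace Pool.Agent.Smith

open scoped Classical

noncomputable section

variable {W P : Type} [Group W] {T : Tame W P}

namespace Env

variable {R : Rep T} {k : ℕ} {E : Env R k} {M : ℕ} {Z : GV k M → P} {pb : P}

theorem phi_mem (hk : 1 ≤ k) (hZ : E.GridOK Z) (hp : E.PbOK Z pb) (x0 y : Pt k M) :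
    E.Phi Z pb x0 y ∈
      R.FamS (E.βx Z x0.2 y.2) (Bx x0.2 y.2) (E.cubeP Z x0 y) E.Ot E.xs := by
  unfold Phi
  split_ifs with h
  · obtain ⟨h1, h0, hne⟩ := h
    have h1' : E.Cons Z pb (E.YG Z pb k) (Bx x0.2 y.2) y.1 x0.2 y.2 := h1
    have h0' : E.Cons Z pb (E.YG Z pb k) (Bx x0.2 y.2) x0.1 x0.2 y.2 := h0
    refine ⟨fun B hB g g' => ?_, fun B hB => ?_, fun B hB => if_neg hB⟩
    · have h2 := (h1'.urel hk subset_rfl).sub (h0'.urel hk subset_rfl) B hB g g'
      simp only [if_pos hB]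
      refine h2.trans ?_
      congr 1
      exact uop_congr fun C hC => by rw [if_pos (hC.trans hB)]
    · have hu : B ≠ Finset.univ := fun e => hne (Finset.univ_subset_iff.1 (e ▸ hB))
      simp only [if_pos hB]
      refine ⟨Tame.sm_comp₂ (h1'.th_sm hk subset_rfl hB) (h0'.th_sm hk subset_rfl hB) (· - ·),
        fun v hv => ?_, fun j hj => R.fam_lc_sub (h1'.th_lc hk hZ hp subset_rfl hB hu hj)
          (h0'.th_lc hk hZ hp subset_rfl hB hu hj)⟩
      by_cases hvp : v = pb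
      · subst hvp
        exact sub_eq_zero.2 (h0'.th_pb hk hZ hp subset_rfl h1' hB hu _ (Tame.τ_mem _))
      · simp only [cubeP, Finset.mem_union, Finset.mem_image, Finset.mem_univ, true_and, not_or,
          not_exists] at hv
        obtain ⟨⟨hA, hx0⟩, hy⟩ := hv
        have hi : ∀ i ∈ B, v ≠ Z (some i, x0.2 i) ∧ v ≠ Z (some i, y.2 i) := fun i _ =>
          ⟨fun e => hx0 (some i) e.symm, fun e => hy (some i) e.symm⟩
        rw [h1'.th_unr hk subset_rfl hB hA (fun _ => hvp) (fun _ e => hy none e.symm) hi,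
          h0'.th_unr hk subset_rfl hB hA (fun _ => hvp) (fun _ e => hx0 none e.symm) hi, sub_zero]
  · refine ⟨fun B _ g g' => by simp [uop], fun B _ => ⟨Tame.sm_const 0, fun _ _ => rfl,
      fun j _ => by simp [Rep.Lc]⟩, fun _ _ => rfl⟩

theorem GridE_fam {Rb : ℕ} (hR : (R.G1 E.A0 E.Ot E.xs).ncard ≤ Rb) (x0 y : Pt k M) :
    (R.FamS (E.βx Z x0.2 y.2) (Bx x0.2 y.2) (E.cubeP Z x0 y) E.Ot E.xs).ncard ≤ Cfam k Rb := by
  have hpos : 0 < Rb :=
    ((Set.ncard_pos (R.G1_finite _ _ _)).2 ⟨_, R.G1_zero _ _ _⟩).trans_le hR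
  have hc : ∀ x : Pt k M, (Finset.univ.image fun j => Z (j, coord x j)).card ≤ k + 1 := fun x =>
    Finset.card_image_le.trans (by simp)
  have h1 : (R.G1 (E.cubeP Z x0 y) E.Ot E.xs).ncard ≤ Rb * 9 ^ (2 * k + 2) := by
    rw [cubeP, Finset.union_assoc]
    refine (R.G1_union _ _ _ _).trans (Nat.mul_le_mul hR (Nat.pow_le_pow_right (by norm_num) ?_))
    have := hc x0
    have := hc y
    exact (Finset.card_union_le _ _).trans (by omega)
  refine (R.famS_ncard _ _ _ _ _).2.trans ((Nat.pow_le_pow_left h1 _).trans ?_)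
  exact Nat.pow_le_pow_right (by positivity)
    (Nat.pow_le_pow_right (by norm_num) ((Finset.card_le_univ _).trans (by simp)))

theorem DD_card (hk : 1 ≤ k) (hZ : E.GridOK Z) {Rb : ℕ}
    (hR : (R.G1 E.A0 E.Ot E.xs).ncard ≤ Rb) :
    (E.DD Z).card ≤ M ^ (k + 1) * (6 * Cfam k Rb) ^ ((k + 1) * M ^ k) := by
  have hpos : 0 < Rb :=
    ((Set.ncard_pos (R.G1_finite _ _ _)).2 ⟨_, R.G1_zero _ _ _⟩).trans_le hR
  let F : Pt k M → Pt k M → Finset (Prop × F3 × (Finset (Fin k) → W → Vb)) := fun x0 y =>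
    Finset.univ ×ˢ Finset.univ ×ˢ
      (R.famS_ncard (E.βx Z x0.2 y.2) (Bx x0.2 y.2) (E.cubeP Z x0 y) E.Ot E.xs).1.toFinset
  have hF : ∀ x0 y, (F x0 y).card ≤ 6 * Cfam k Rb := fun x0 y => by
    have := GridE_fam (Z := Z) hR x0 y
    rw [Set.ncard_eq_toFinset_card _ (R.famS_ncard _ _ _ _ _).1] at this
    simp only [F, Finset.card_product, Finset.card_univ, Fintype.card_prop, ZMod.card]
    omega
  have hsub : E.DD Z ⊆ Finset.univ.biUnion fun x0 : Pt k M => ((star x0).pi (F x0)).image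
      fun f => (x0, fun y => if h : y ∈ star x0 then f y h else (False, 0, 0)) := by
    intro D hD
    obtain ⟨⟨p, x0⟩, hz, rfl⟩ := Finset.mem_image.1 hD
    have hp := mem_PP.1 (Finset.mem_product.1 hz).1
    refine Finset.mem_biUnion.2 ⟨x0, Finset.mem_univ _, Finset.mem_image.2
      ⟨fun y _ => (E.ok Z p x0 y, E.Fy (pt Z p y), E.Phi Z p x0 y), Finset.mem_pi.2 fun y _ => ?_,
        ?_⟩⟩
    · exact Finset.mem_product.2 ⟨Finset.mem_univ _, Finset.mem_product.2 ⟨Finset.mem_univ _,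
        (Set.Finite.mem_toFinset _).2 (phi_mem hk hZ hp x0 y)⟩⟩
    · simp only [dat, dite_eq_ite]
  refine (Finset.card_le_card hsub).trans ((Finset.card_biUnion_le_card_mul _ _
    ((6 * Cfam k Rb) ^ ((k + 1) * M ^ k)) fun x0 _ => ?_).trans (le_of_eq ?_))
  · refine Finset.card_image_le.trans ?_
    rw [Finset.card_pi]
    refine (Finset.prod_le_pow_card _ _ _ fun y _ => hF x0 y).trans
      (Nat.pow_le_pow_right ?_ (card_star x0))
    unfold Cfam
    positivity
  · simp [pow_succ']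

theorem GridE_chi (hZ : E.GridOK Z) (ν μ : GV k M) :
    T.χ (Z ν) (T.τ (Z μ)) = if ν = μ then 1 else 0 := by
  have hi : Z μ ≠ T.inf := fun e => hZ.notMem μ (e ▸ inf_mem_A0)
  split_ifs with h
  · rw [h, T.χ_self _ hi]
  · exact T.χ_ne _ _ (fun e => h (hZ.inj e).symm) hi

variable {x0 x : Pt k M}

theorem GridE_star {D : Dt W k M} (hx : x ∈ E.Yp Z D) : x ∉ star D.1 :=
  (Finset.mem_filter.1 hx).2.1

theorem GridE_dphi (hx : x ∈ E.Yp Z (E.dat Z pb x0)) {B : Finset (Fin k)} (hB : B ≠ Finset.univ)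
    (g : W) : DPhi (E.dat Z pb x0) x B g = Th (E.cψ Z pb x.1 x0.2 (mix B x0.2 x.2)) B g -
      Th (E.cψ Z pb x0.1 x0.2 (mix B x0.2 x.2)) B g := by
  have hs : x ∉ star x0 := GridE_star hx
  have hok : ∀ s : Bool, E.ok Z pb x0 (vtx x0 x s B) := fun s => by
    have := Yp_ok hx (s := s) fun _ => hB
    rw [← Bx_mix hs B] at this
    rw [ok]
    convert this using 2
    all_goals simp only [vtx, Bx_mix hs]
  rw [dphi_eq hs hB (hok true) (hok false), th_mix subset_rfl, th_mix subset_rfl]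

theorem GridE_mem (hk : 1 ≤ k) (hZ : E.GridOK Z) (hp : E.PbOK Z pb) (hs : x ∉ star x0)
    {B : Finset (Fin k)} (hB : B ≠ Finset.univ) : T.Sm (DPhi (E.dat Z pb x0) x B) ∧
      ∀ v ∉ E.A0 ∪ Finset.univ.image Z, DPhi (E.dat Z pb x0) x B (T.τ v) = 0 := by
  have h1 : DPhi (E.dat Z pb x0) x B = E.Phi Z pb x0 (vtx x0 x true B) B := by
    simp only [DPhi, dat, if_pos (vtx_mem_star x0 x (s := true) fun _ => hB)]
  have h2 := (phi_mem hk hZ hp x0 (vtx x0 x true B)).2.1 B (Bx_mix hs B).ge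
  rw [h1]
  refine ⟨h2.1, fun v hv => h2.2.1 v fun hm => hv ?_⟩
  simp only [cubeP, Finset.mem_union, Finset.mem_image, Finset.mem_univ, true_and] at hm ⊢
  rcases hm with (h | ⟨j, h⟩) | ⟨j, h⟩
  exacts [Or.inl h, Or.inr ⟨_, h⟩, Or.inr ⟨_, h⟩]

theorem GridE_ta (hk : 1 ≤ k) (hZ : E.GridOK Z) (hx : x ∈ E.Yp Z (E.dat Z pb x0)) {α : Fin M}
    (hα : α ≠ x0.1) (B : Finset (Fin k)) :
    (if B = Finset.univ then E.Phs Z (E.dat Z pb x0) x (T.τ (Z (none, α)))
      else DPhi (E.dat Z pb x0) x B (T.τ (Z (none, α)))) =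
      if B = ∅ ∧ x.1 = α then E.na else 0 := by
  have : Nonempty (Fin k) := ⟨⟨0, hk⟩⟩
  by_cases hB : B = Finset.univ
  · rw [if_pos hB, if_neg fun h => Finset.univ_nonempty.ne_empty (hB ▸ h.1)]
    by_cases h : x.1 = α
    · exact h ▸ (Phs_spec hx).unr1
    · refine (Phs_spec hx).unr _ ?_
      simp only [cubeP, Finset.mem_union, Finset.mem_image, Finset.mem_univ, true_and, not_or,
        not_exists]
      refine ⟨⟨hZ.notMem _, fun j e => ?_⟩, fun j e => ?_⟩
      · obtain ⟨rfl, e⟩ := Prod.mk.inj (hZ.inj e)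
        exact hα e.symm
      · obtain ⟨rfl, e⟩ := Prod.mk.inj (hZ.inj e)
        exact h e
  · have h1 := Yp_ok hx (s := true) fun _ => hB
    have h0 := Yp_ok hx (s := false) fun _ => hB
    simp only [if_true, Bool.false_eq_true, if_false] at h1 h0
    rw [if_neg hB, GridE_dphi hx hB]
    by_cases he : B = ∅
    · subst he
      rw [h1.th_empty hk subset_rfl, h0.th_empty hk subset_rfl]
      simp only [wy, pt, coord, GridE_chi hZ, Prod.mk.injEq, true_and, if_neg hα.symm]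
      split_ifs <;> simp
    · have hi : ∀ i ∈ B, Z (none, α) ≠ Z (some i, x0.2 i) ∧
          Z (none, α) ≠ Z (some i, mix B x0.2 x.2 i) := fun i _ =>
        ⟨fun e => by simpa using hZ.inj e, fun e => by simpa using hZ.inj e⟩
      rw [h1.th_unr hk subset_rfl subset_rfl (hZ.notMem _) (fun h => absurd h he)
          (fun h => absurd h he) hi,
        h0.th_unr hk subset_rfl subset_rfl (hZ.notMem _) (fun h => absurd h he)
          (fun h => absurd h he) hi, sub_zero, if_neg fun h => he h.1]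

/-- the prescribed symbols -/
def GridE_c (E : Env R k) (Z : GV k M → P) (v : P) : F3 :=
  if h : ∃ ν, v = Z ν then E.s none (some h.choose.1) else E.cl none v

theorem GridE_c_Z (hZ : E.GridOK Z) (ν : GV k M) : GridE_c E Z (Z ν) = E.s none (some ν.1) := by
  have h : ∃ μ, Z ν = Z μ := ⟨ν, rfl⟩
  rw [GridE_c, dif_pos h, ← hZ.inj h.choose_spec]

theorem GridE_pr (hZ : E.GridOK Z) : (E.PP Z : Set P) = T.Pr (E.A0 ∪ Finset.univ.image Z)
    ((E.A0 ∪ Finset.univ.image Z).erase T.inf) (GridE_c E Z) (E.e none) := by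
  have h0 : ∀ a ∈ E.A0, GridE_c E Z a = E.cl none a := fun a ha =>
    dif_neg fun ⟨ν, e⟩ => hZ.notMem ν (e ▸ ha)
  ext p
  rw [Finset.mem_coe, mem_PP]
  constructor
  · rintro ⟨⟨h1, h2, h3⟩, h4⟩
    refine ⟨h1, fun h => ?_, fun a ha => ?_⟩
    · rcases Finset.mem_union.1 h with h | h
      · exact h2 h
      · obtain ⟨ν, -, e⟩ := Finset.mem_image.1 h
        exact (h4 ν).1 e.symm
    · obtain ⟨hi, ha⟩ := Finset.mem_erase.1 ha
      rcases Finset.mem_union.1 ha with h | h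
      · rw [h0 a h, h3 a (Finset.mem_erase.2 ⟨hi, h⟩)]
      · obtain ⟨ν, -, rfl⟩ := Finset.mem_image.1 h
        rw [GridE_c_Z hZ, (h4 ν).2]
  · rintro ⟨h1, h2, h3⟩
    have hm : ∀ ν, Z ν ∈ E.A0 ∪ Finset.univ.image Z := fun ν =>
      Finset.mem_union_right _ (Finset.mem_image_of_mem _ (Finset.mem_univ _))
    refine ⟨⟨h1, fun h => h2 (Finset.mem_union_left _ h), fun a ha => ?_⟩,
      fun ν => ⟨fun e => h2 (e ▸ hm ν), ?_⟩⟩
    · obtain ⟨hi, ha⟩ := Finset.mem_erase.1 ha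
      rw [h3 a (Finset.mem_erase.2 ⟨hi, Finset.mem_union_left _ ha⟩), h0 a ha]
    · rw [h3 (Z ν) (Finset.mem_erase.2 ⟨fun e => hZ.notMem ν (e ▸ inf_mem_A0), hm ν⟩),
        GridE_c_Z hZ]

theorem GridE_dg (hZ : E.GridOK Z) : ∑ v ∈ E.A0 ∪ Finset.univ.image Z, T.dg v =
    ∑ v ∈ E.A0, T.dg v + M * ∑ j, E.e (some j) := by
  rw [Finset.sum_union (Finset.disjoint_right.2 fun a ha => by
      obtain ⟨ν, -, rfl⟩ := Finset.mem_image.1 ha
      exact hZ.notMem ν),
    Finset.sum_image fun a _ b _ h => hZ.inj h,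
    Finset.sum_congr rfl fun ν hν => (hZ.1 ν hν).1, Fintype.sum_prod_type, Finset.mul_sum]
  simp

theorem zeros_bound (hk : 1 ≤ k) (hZ : E.GridOK Z)
    (hsm : T.Small (1 / 2) (3 ^ (E.A0.card + (k + 1) * M) * 9 ^ (2 ^ k * M ^ (k + 1)))
      (∑ v ∈ E.A0, T.dg v + M * ∑ j, E.e (some j)) (E.e none))
    (D : Dt W k M) {Q : Finset (Pt k M)} (hQ : Q ⊆ E.Yp Z D) (s : ℕ) :
    (((E.PP Z).filter fun p => D = E.dat Z p D.1 ∧
      Q.card + 2 * s ≤ 2 * (Q.filter fun x => E.zero Z D x p).card).card : ℝ) ≤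
      3 * (2 : ℝ)⁻¹ ^ s * (E.PP Z).card := by
  set S := (E.PP Z).filter fun p => D = E.dat Z p D.1 ∧
    Q.card + 2 * s ≤ 2 * (Q.filter fun x => E.zero Z D x p).card with hS
  rcases S.eq_empty_or_nonempty with h | ⟨p0, hp0⟩
  · rw [h, Finset.card_empty, Nat.cast_zero]
    positivity
  have : Nonempty (Fin k) := ⟨⟨0, hk⟩⟩
  obtain ⟨hp0, hD0, -⟩ := Finset.mem_filter.1 hp0
  rw [mem_PP] at hp0
  have hst : ∀ x : Q, ∀ j, coord x.1 j ≠ coord D.1 j := fun x =>
    not_mem_star.1 (GridE_star (hQ x.2))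
  set A := E.A0 ∪ Finset.univ.image Z with hA
  have hiA : T.inf ∈ A := Finset.mem_union_left _ inf_mem_A0
  have hm : ∀ ν, Z ν ∈ A.erase T.inf := fun ν => Finset.mem_erase.2
    ⟨fun e => hZ.notMem ν (e ▸ inf_mem_A0),
      Finset.mem_union_right _ (Finset.mem_image_of_mem _ (Finset.mem_univ _))⟩
  let Φ : Q → Finset (Fin k) → W → Vb := fun x B g =>
    if B = Finset.univ then E.Phs Z D x g else DPhi D x B g
  have hΦ : ∀ x : Q, URel (E.βx Z D.1.2 x.1.2) Finset.univ (Φ x) := fun x =>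
    (Phs_spec (hQ x.2)).rel
  obtain ⟨z, hz⟩ := exists_comm (T := T) (fun x : Q => E.βx Z D.1.2 x.1.2)
    (fun x i => Tame.hom_sub (T.χ_hom _) (T.χ_hom _)) Φ hΦ (fun x => x.1.2) (fun x => x.1.1)
    (fun x x' h h' => Subtype.ext (Prod.ext h' h)) (fun x i => T.τ (Z (some i, x.1.2 i)))
    (fun x => T.τ (Z (none, x.1.1))) E.na
    (fun x x' i j => by
      simp only [βx, GridE_chi hZ, Prod.mk.injEq, Option.some.injEq]
      by_cases h : j = i
      · subst h
        have := (hst x (some j)).symm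
        simp only [coord] at this
        simp [this]
      · simp [h])
    (fun x x' j => by simp [βx, GridE_chi hZ])
    (fun x x' B => by
      have h1 := hQ x'.2
      rw [hD0] at h1
      have h2 := GridE_ta hk hZ h1 (hst x none) B
      rw [← hD0] at h2
      exact h2.trans (by congr))
  have hmem : ∀ (x : Q) B, B ≠ Finset.univ → T.Sm (DPhi D x B) ∧
      ∀ v ∉ A, DPhi D x B (T.τ v) = 0 := fun x B hB => by
    have := GridE_mem hk hZ hp0 (GridE_star (hQ x.2)) hB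
    rwa [← hD0] at this
  have hch := Tame.cheb_zeros hiA subset_rfl (GridE_c E Z) (fun i => Z (some i, D.1.2 i))
    (fun (x : Q) i => Z (some i, x.1.2 i)) (fun _ => hm _)
    (fun x i => ⟨hm _, by rw [GridE_c_Z hZ, GridE_c_Z hZ]⟩) Φ hΦ
    (fun x B => by
      by_cases hB : B = Finset.univ
      · simp only [Φ, if_pos hB]; exact (Phs_spec (hQ x.2)).sm
      · simp only [Φ, if_neg hB]; exact (hmem x B hB).1)
    (fun x B v hv => by
      by_cases hB : B = Finset.univ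
      · simp only [Φ, if_pos hB]
        refine (Phs_spec (hQ x.2)).unr v fun hm => hv ?_
        simp only [cubeP, hA, Finset.mem_union, Finset.mem_image, Finset.mem_univ, true_and] at hm ⊢
        rcases hm with (h | ⟨j, h⟩) | ⟨j, h⟩
        exacts [Or.inl h, Or.inr ⟨_, h⟩, Or.inr ⟨_, h⟩]
      · simp only [Φ, if_neg hB]; exact (hmem x B hB).2 v hv)
    (nb := E.nb) (by
      have h1 : hb ((-1 : F3) ^ Fintype.card (Fin k) • E.na) E.nb =
          (-1) ^ Fintype.card (Fin k) * hb E.na E.nb := by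
        simp only [hb, Pi.smul_apply, smul_eq_mul]; ring
      rw [h1]
      exact mul_ne_zero (pow_ne_zero _ (by decide)) E.hab)
    z hz (fun x => E.Cst Z D x) s (E.e none) (E.e_pos _)
  have hle : (S.card : ℝ) ≤ ({v | v ∈ T.Pr A (A.erase T.inf) (GridE_c E Z) (E.e none) ∧
      (∀ (x : Q) B, B ≠ Finset.univ → Φ x B (T.σ v) = 0) ∧ Fintype.card Q + 2 * s ≤
        2 * {x : Q | 2 * hb (Φ x Finset.univ (T.σ v)) E.nb + E.Cst Z D x = 0}.ncard}.ncard : ℝ) := by
    rw [← Set.ncard_coe_finset]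
    refine Nat.cast_le.2 (Set.ncard_le_ncard (fun p hp => ?_)
      ((Tame.pr_finite _ _ _ _).subset fun _ h => h.1))
    obtain ⟨hp, hD, hc⟩ := Finset.mem_filter.1 (Finset.mem_coe.1 hp)
    refine ⟨GridE_pr hZ ▸ Finset.mem_coe.2 hp, fun x B hB => ?_, ?_⟩
    · have h1 := hQ x.2
      rw [hD] at h1
      have h2 := GridE_dphi h1 hB (T.σ p)
      rw [← hD] at h2
      simp only [Φ, if_neg hB]
      rw [h2, sub_eq_zero]
      exact (Yp_ok h1 (s := false) fun _ => hB).th_pb hk hZ (mem_PP.1 hp) subset_rfl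
        (Yp_ok h1 (s := true) fun _ => hB) subset_rfl hB _ (Tame.σ_mem _)
    · rw [Fintype.card_coe]
      refine hc.trans (Nat.mul_le_mul_left _ (le_of_eq ?_))
      rw [← Set.ncard_coe_finset, ← Set.ncard_image_of_injective _ Subtype.val_injective]
      congr 1
      ext x
      simp only [Φ, if_true, Finset.coe_filter, Set.mem_ofPred_eq, Set.mem_image, Subtype.exists,
        exists_and_right, exists_eq_right, zero, exists_prop]
  have hc1 : (A.erase T.inf).card ≤ E.A0.card + (k + 1) * M :=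
    Finset.card_erase_le.trans ((Finset.card_union_le _ _).trans
      (Nat.add_le_add_left (Finset.card_image_le.trans (by simp)) _))
  have hc2 : Fintype.card Q ≤ M ^ (k + 1) := by
    rw [Fintype.card_coe]
    exact (Finset.card_le_univ _).trans (by simp [pow_succ'])
  have hs1 := hsm.mono le_rfl (N' := 3 ^ (A.erase T.inf).card *
    9 ^ (2 ^ Fintype.card (Fin k) * Fintype.card Q))
    (Nat.mul_le_mul (Nat.pow_le_pow_right (by norm_num) hc1) (Nat.pow_le_pow_right (by norm_num)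
      (by rw [Fintype.card_fin]; exact Nat.mul_le_mul_left _ hc2))) (GridE_dg hZ).le
  have hlow := Tame.pr_lower hiA subset_rfl (GridE_c E Z) (E.e_pos none)
    (hs1.mono le_rfl (Nat.le_mul_of_pos_right _ (by positivity)) le_rfl)
  rw [← GridE_pr hZ, Set.ncard_coe_finset] at hlow
  unfold Tame.Small at hs1
  rw [← hA] at hs1
  generalize hN : 3 ^ (A.erase T.inf).card * 9 ^ (2 ^ Fintype.card (Fin k) * Fintype.card Q) = N
    at hs1 hch
  have hN1 : (1 : ℝ) ≤ N := by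
    rw [← hN]
    exact_mod_cast Nat.succ_le_of_lt (by positivity)
  have he0 := Tame.comm_err_nonneg (T := T) N (∑ v ∈ A, T.dg v) (E.e none)
  have herr : T.err N (∑ v ∈ A, T.dg v) (E.e none) ≤ 1 / 2 * (T.q : ℝ) ^ E.e none := by
    refine le_trans ?_ ((le_mul_of_one_le_left (by positivity) hN1).trans hs1)
    rw [add_assoc]
    exact le_add_of_nonneg_right (by positivity)
  have he : (0 : ℝ) < E.e none := by exact_mod_cast E.e_pos none
  refine le_of_mul_le_mul_left (((mul_le_mul_of_nonneg_left hle he.le).trans hch).trans ?_) he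
  calc _ ≤ (2 : ℝ)⁻¹ ^ s * (3 : ℝ)⁻¹ ^ (A.erase T.inf).card *
        ((T.q : ℝ) ^ E.e none + 1 / 2 * (T.q : ℝ) ^ E.e none) := by gcongr
    _ = E.e none * (3 * (2 : ℝ)⁻¹ ^ s * ((1 - 1 / 2) *
        ((T.q : ℝ) ^ E.e none / E.e none * (3 : ℝ)⁻¹ ^ (A.erase T.inf).card))) := by
      field_simp
      ring
    _ ≤ _ := by gcongr

end Env

end

end Pool.Agent.Smith
end

-- merged part: Pool.Agent.Work.MP_60d5ce_nt.Sm.Step
section
/-!
# One step: at most half of the classes of even level `k` lift to level `k + 1`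

Hints.
* `grid`: `cover_union` with `𝒟 = DD Z`, `Y' = Yp Z`, `valid p D := D = dat Z p D.1`, `Y p = YG Z p k`,
  `Z p = YG Z p (k + 1)`, `ε / 3`, `δ = dd (ε / 3) (Ccol k Rb') k ^ 2 / 2` (`Rb' = max Rb 1`),
  `J = ⌈1 / δ⌉`, `θ = 3 * 2⁻¹ ^ s * card PP`, `M ≥ M0` of `numerics` with `C = 6 * Cfam k Rb'`, and
  `(k + 1) / M ≤ δ` so that the star of `x0` costs at most half (`dens`, `mem_Yp`, `card_star`).
* `step`: `Ω` is the set of `g : Option (GV k M) → P` valid for the labels `Option.map Prod.fst`,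
  adjacency meaning different labels; it is the set of pairs (valid grid, valid last prime)
  (`chi_symm`).  For each position `x`, `g ↦ pt (g ∘ some) (g none) x` maps `Ω` to the valid points
  with fibres counted by `valid_count` (any linear order on the finite type of vertices, for
  instance `LinearOrder.lift'` of `Fintype.equivFin`; `𝒜` the `k + 2` vertices at position `x`), the
  ratio of the bounds being `((1 + η) / (1 - η)) ^ card 𝒩`.  Use `marginal` twice, sum over `x`.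
  `Small.mono` with `j'` a label of maximal degree.
-/

namespace Pool.Agent.Smith

open scoped Classical

noncomputable section

theorem grid {k : ℕ} (hk : 1 ≤ k) (hk2 : Even k) (Rb : ℕ) {ε : ℝ} (hε : 0 < ε) :
    ∃ M : ℕ, 0 < M ∧ ∀ {W P : Type} [Group W] {T : Tame W P} {R : Rep T} (E : Env R k),
      (R.G1 E.A0 E.Ot E.xs).ncard ≤ Rb → ∀ Z : GV k M → P, E.GridOK Z →
      T.Small (1 / 2) (3 ^ (E.A0.card + (k + 1) * M) * 9 ^ (2 ^ k * M ^ (k + 1)))
        (∑ v ∈ E.A0, T.dg v + M * ∑ j, E.e (some j)) (E.e none) →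
      ∑ p ∈ E.PP Z, ((E.YG Z p (k + 1)).card : ℝ) ≤ (∑ p ∈ E.PP Z, ((E.YG Z p k).card : ℝ)) / 2 +
        ε * (E.PP Z).card * (M : ℝ) ^ (k + 1) := by
  have hR1 : 0 < max Rb 1 := lt_max_of_lt_right one_pos
  obtain ⟨δ, hδ⟩ : ∃ δ : ℝ, δ = dd (ε / 3) (Env.Ccol k (max Rb 1)) k ^ 2 / 2 := ⟨_, rfl⟩
  have δ0 : 0 < δ := by
    have := dd_pos (δ := ε / 3) (by positivity) (Env.Ccol_pos (k := k) hR1) k
    rw [hδ]
    positivity
  have hJ : 1 ≤ δ * (⌈1 / δ⌉₊ : ℕ) := by
    have := mul_le_mul_of_nonneg_left (Nat.le_ceil (1 / δ)) δ0.le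
    rwa [mul_one_div_cancel δ0.ne'] at this
  obtain ⟨M0, hM0⟩ := numerics k (6 * Env.Cfam k (max Rb 1)) ⌈1 / δ⌉₊
    (Nat.ceil_pos.2 (by positivity)) (ε := ε / 3) (by positivity)
  obtain ⟨M, M1, M2, M3⟩ : ∃ M : ℕ, 0 < M ∧ M0 ≤ M ∧ (k + 1 : ℝ) ≤ δ * M := by
    refine ⟨max M0 ⌈(k + 1 : ℝ) / δ⌉₊ + 1, Nat.succ_pos _,
      (le_max_left _ _).trans (Nat.le_succ _), ?_⟩
    rw [mul_comm, ← div_le_iff₀ δ0]
    exact (Nat.le_ceil _).trans (Nat.cast_le.2 ((le_max_right _ _).trans (Nat.le_succ _)))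
  obtain ⟨s, s1, s2⟩ := hM0 M M2
  refine ⟨M, M1, fun {W P} _ {T R} E hR Z hZ hsm => ?_⟩
  have hR' := hR.trans (le_max_left Rb 1)
  have hX : (Fintype.card (Pt k M) : ℝ) = (M : ℝ) ^ (k + 1) := by
    simp [pow_succ']
  have h := cover_union (E.DD Z) (E.Yp Z) (E.PP Z) (fun p D => D = E.dat Z p D.1)
    (fun p => E.YG Z p k) (fun p => E.YG Z p (k + 1)) (E.zero Z) (ε := ε / 3) (δ := δ)
    (θ := 3 * (2 : ℝ)⁻¹ ^ s * (E.PP Z).card) (s := s) (J := ⌈1 / δ⌉₊) (by positivity) δ0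
    (by positivity) hJ
    (fun p _ x hx => Finset.mem_filter.2
      ⟨Finset.mem_univ _, Env.Y_anti (Nat.le_succ k) (Finset.mem_filter.1 hx).2⟩)
    (fun p hp D _ hD => hD ▸ Env.Yp_sub hk hk2 hZ (Env.mem_PP.1 hp))
    (fun p hp D _ hD x hx hx' => by
      rw [hD] at hx ⊢
      exact Env.zero_of_lift hk hk2 hZ (Env.mem_PP.1 hp) hx hx')
    (fun p hp Y'' hY hc => by
      rw [hX] at hc ⊢
      obtain ⟨x0, hx0⟩ := Env.dens hk M1 hZ (Env.mem_PP.1 hp) hY hR' (by positivity) hc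
      refine ⟨E.dat Z p x0, Finset.mem_image.2
        ⟨(p, x0), Finset.mem_product.2 ⟨hp, Finset.mem_univ _⟩, rfl⟩, rfl, ?_⟩
      have h1 : (Finset.univ.filter fun x : Pt k M => E.Cons Z p Y'' Finset.univ x0.1 x0.2 x.2 ∧
          E.Cons Z p Y'' Finset.univ x.1 x0.2 x.2) ⊆ (E.Yp Z (E.dat Z p x0) ∩ Y'') ∪ star x0 := by
        intro x hx
        by_cases hs : x ∈ star x0
        · exact Finset.mem_union_right _ hs
        · exact Finset.mem_union_left _ (Env.mem_Yp hk hZ (Env.mem_PP.1 hp) hY hs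
            (Finset.mem_filter.1 hx).2.1 (Finset.mem_filter.1 hx).2.2)
      have h2 := (Finset.card_le_card h1).trans ((Finset.card_union_le _ _).trans
        (Nat.add_le_add_left (card_star x0) _))
      have h3 := hx0.trans (Nat.cast_le.2 h2)
      have h4 := mul_le_mul_of_nonneg_right M3 (by positivity : (0 : ℝ) ≤ (M : ℝ) ^ k)
      push_cast at h3
      rw [show dd (ε / 3) (Env.Ccol k (max Rb 1)) k ^ 2 = 2 * δ by rw [hδ]; ring] at h3
      rw [pow_succ] at h3 ⊢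
      refine le_of_le_of_eq (b := ((E.Yp Z (E.dat Z p x0) ∩ Y'').card : ℝ)) (by linarith only [h4, h3]) ?_
      congr
      exact Subsingleton.elim _ _)
    (fun D _ Q hQ => by
      refine le_of_eq_of_le ?_ (Env.zeros_bound hk hZ hsm D hQ s)
      congr)
  rw [hX] at h
  have h5 : ((E.DD Z).card : ℝ) ≤ (M : ℝ) ^ (k + 1) *
      ((6 * Env.Cfam k (max Rb 1) : ℕ) : ℝ) ^ ((k + 1) * M ^ k) := by
    exact_mod_cast Env.DD_card hk hZ hR'
  have h6 : (((E.DD Z).card : ℝ) + 1) ^ (⌈1 / δ⌉₊ + 1) * (3 * (2 : ℝ)⁻¹ ^ s) ≤ ε / 3 :=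
    le_trans (by gcongr) s2
  have h7 := mul_le_mul_of_nonneg_right h6
    (by positivity : (0 : ℝ) ≤ (E.PP Z).card * (M : ℝ) ^ (k + 1))
  have h8 := mul_le_mul_of_nonneg_left s1 (Nat.cast_nonneg (α := ℝ) (E.PP Z).card)
  linarith only [h, h7, h8]

section

variable {W P : Type} [Group W] {T : Tame W P}

theorem Step_fib {𝒱 J : Type} [Fintype 𝒱] [Fintype J] {A0 : Finset P} (hA : T.inf ∈ A0)
    (e : J → ℕ) (cl : J → P → F3) (s : J → J → F3) (hs : ∀ i j, s i j = s j i) (he : ∀ j, 0 < e j)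
    (lab : 𝒱 → J) (pos : J → 𝒱) (hlp : ∀ j, lab (pos j) = j) {η r : ℝ} (η0 : 0 ≤ η) (η1 : η < 1)
    (hr : ((1 + η) / (1 - η)) ^ Fintype.card 𝒱 ≤ r) {c : ℕ} (hc : ∀ j, e j ≤ c)
    (hsm : ∀ j, T.Small η (3 ^ (A0.card + Fintype.card 𝒱))
      (∑ v ∈ A0, T.dg v + Fintype.card 𝒱 * c) (e j)) :
    ∃ a : ℝ, 0 < a ∧ ∀ y, ValidOn (T.Un A0 e cl) (T.Bi (fun _ _ => True) s) Finset.univ y →
      a ≤ ({g | ValidOn (T.Un A0 (fun ν => e (lab ν)) fun ν => cl (lab ν))
        (T.Bi (fun ν μ => lab ν ≠ lab μ) fun ν μ => s (lab ν) (lab μ)) Finset.univ g ∧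
          (fun j => g (pos j)) = y}.ncard : ℝ) ∧
      ({g | ValidOn (T.Un A0 (fun ν => e (lab ν)) fun ν => cl (lab ν))
        (T.Bi (fun ν μ => lab ν ≠ lab μ) fun ν μ => s (lab ν) (lab μ)) Finset.univ g ∧
          (fun j => g (pos j)) = y}.ncard : ℝ) ≤ r * a := by
  let _ : LinearOrder 𝒱 := LinearOrder.lift' (Fintype.equivFin 𝒱) (Fintype.equivFin 𝒱).injective
  obtain ⟨𝒜, h𝒜⟩ : ∃ 𝒜 : Finset 𝒱, ∀ ν, ν ∈ 𝒜 ↔ ∃ j, pos j = ν :=
    ⟨Finset.univ.filter fun ν => ∃ j, pos j = ν, by simp⟩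
  obtain ⟨𝒩, h𝒩⟩ : ∃ 𝒩 : Finset 𝒱, ∀ ν, ν ∈ 𝒩 ↔ ν ∉ 𝒜 :=
    ⟨Finset.univ.filter fun ν => ν ∉ 𝒜, by simp⟩
  have hq : (0 : ℝ) < T.q := by
    have := T.q_ge
    exact_mod_cast (by omega : 0 < T.q)
  have hw : ∀ j n, 0 < T.wtp (e j) n := fun j n => by
    have : (0 : ℝ) < e j := Nat.cast_pos.2 (he j)
    unfold Tame.wtp
    positivity
  have H := T.valid_count hA (fun ν => e (lab ν)) (fun ν => cl (lab ν))
    (fun ν μ => lab ν ≠ lab μ) (fun _ _ h => h.symm) (fun ν μ => s (lab ν) (lab μ))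
    (fun _ _ => hs _ _) 𝒜 𝒩 (Finset.disjoint_right.2 fun ν h => (h𝒩 ν).1 h) (fun _ => η)
    (fun ν _ => he _) (fun _ _ => η1.le) fun ν _ => (hsm (lab ν)).mono le_rfl
      (Nat.pow_le_pow_right (by norm_num) (Nat.add_le_add_left (Finset.card_le_univ _) _))
      (Nat.add_le_add_left ((Finset.sum_le_card_nsmul _ _ c fun μ _ => hc _).trans
        (Nat.mul_le_mul_right c (Finset.card_le_univ _))) _)
  have η2 : 0 < 1 - η := by linarith only [η1]
  apply Exists.intro
  constructor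
  swap
  intro y hy
  obtain ⟨-, h1, h2⟩ := H (fun ν => y (lab ν)) ⟨fun ν _ => hy.1 _ (Finset.mem_univ _),
    fun ν hν μ hμ hne => by
      obtain ⟨i, rfl⟩ := (h𝒜 ν).1 hν
      obtain ⟨j, rfl⟩ := (h𝒜 μ).1 hμ
      have := hy.2 (lab (pos i)) (Finset.mem_univ _) (lab (pos j)) (Finset.mem_univ _)
        (by rw [hlp, hlp]; exact fun h => hne (congrArg pos h))
      exact ⟨this.1, fun _ => this.2 trivial⟩⟩
  have hU : ∀ ν, ν ∈ 𝒜 ∪ 𝒩 := fun ν => by
    rw [Finset.mem_union, h𝒩]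
    exact em _
  rw [Finset.eq_univ_of_forall hU] at h1 h2
  have e1 : ∀ g : 𝒱 → P, (fun j => g (pos j)) = y ↔ ∀ ν ∉ 𝒩, g ν = y (lab ν) := fun g => by
    constructor
    · rintro rfl ν hν
      obtain ⟨j, rfl⟩ := (h𝒜 ν).1 (by rwa [h𝒩, not_not] at hν)
      rw [hlp]
    · intro h
      funext j
      rw [h _ (by rw [h𝒩, not_not, h𝒜]; exact ⟨j, rfl⟩), hlp]
  simp only [e1]
  refine ⟨h1, h2.trans ?_⟩
  have ρ1 : 1 ≤ (1 + η) / (1 - η) := by
    rw [le_div_iff₀ η2]
    linarith only [η0]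
  refine le_trans (le_of_eq ?_) (mul_le_mul_of_nonneg_right
    ((pow_le_pow_right₀ ρ1 (Finset.card_le_univ 𝒩)).trans hr)
    (Finset.prod_pos fun ν _ => mul_pos η2 (hw _ _)).le)
  rw [← Finset.prod_const, ← Finset.prod_mul_distrib]
  refine Finset.prod_congr rfl fun ν _ => ?_
  field_simp
  exact Finset.prod_pos fun ν _ => mul_pos η2 (hw _ _)

variable {R : Rep T} {k M : ℕ} (E : Env R k)

/-- labels of the vertices together with the last prime -/
def Step_lab (ν : Option (GV k M)) : Jx k := ν.map Prod.fst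

/-- the vertices at a position -/
def Step_pos (x : Pt k M) (j : Jx k) : Option (GV k M) := j.map fun i => (i, coord x i)

/-- valid grids together with a valid last prime -/
def Step_ok (g : Option (GV k M) → P) : Prop :=
  ValidOn (T.Un E.A0 (fun ν => E.e (Step_lab ν)) fun ν => E.cl (Step_lab ν))
    (T.Bi (fun ν μ => Step_lab ν ≠ Step_lab μ) fun ν μ => E.s (Step_lab ν) (Step_lab μ))
    Finset.univ g

theorem Step_lab_pos (x : Pt k M) (j : Jx k) : Step_lab (Step_pos x j) = j := by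
  cases j <;> rfl

theorem Step_pt (g : Option (GV k M) → P) (x : Pt k M) :
    pt (fun ν => g (some ν)) (g none) x = fun j => g (Step_pos x j) := by
  funext j
  cases j <;> rfl

theorem Step_ok_iff (g : Option (GV k M) → P) : Step_ok E g ↔
    E.GridOK (fun ν => g (some ν)) ∧ E.PbOK (fun ν => g (some ν)) (g none) := by
  have m := fun ν : Option (GV k M) => Finset.mem_univ ν
  have m' := fun ν : GV k M => Finset.mem_univ ν
  constructor
  · intro h
    refine ⟨⟨fun ν _ => h.1 (some ν) (m _), fun ν _ μ _ hne => ?_⟩, h.1 none (m _), fun ν => ?_⟩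
    · have := h.2 (some ν) (m _) (some μ) (m _) fun h' => hne (Option.some.inj h')
      exact ⟨this.1, fun h' => this.2 fun h'' => h' (Option.some.inj h'')⟩
    · have := h.2 none (m _) (some ν) (m _) (by simp)
      exact ⟨this.1, this.2 (by simp [Step_lab])⟩
  · rintro ⟨h1, h2, h3⟩
    refine ⟨fun ν _ => ?_, fun ν _ μ _ hne => ?_⟩
    · cases ν with
      | none => exact h2
      | some ν => exact h1.1 ν (m' _)
    · cases ν with
      | none =>
        cases μ with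
        | none => exact absurd rfl hne
        | some μ => exact ⟨(h3 μ).1, fun _ => (h3 μ).2⟩
      | some ν =>
        cases μ with
        | none =>
          refine ⟨(h3 ν).1.symm, fun _ => ?_⟩
          exact (T.chi_symm (v := g none) (w := g (some ν))
            (fun h => h2.2.1 (h.symm ▸ Env.inf_mem_A0))
            (fun h => h1.notMem ν (show g (some ν) ∈ _ from h.symm ▸ Env.inf_mem_A0)) (h3 ν).1).trans
            ((h3 ν).2.trans (E.s_symm _ _))
        | some μ =>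
          have := h1.2 ν (m' _) μ (m' _) fun h' => hne (congrArg some h')
          exact ⟨this.1, fun h' => this.2 fun h'' => h' (congrArg some h'')⟩

theorem Step_fin : {g : Option (GV k M) → P | Step_ok E g}.Finite :=
  (Set.Finite.pi' fun ν => T.dg_fin (E.e (Step_lab ν))).subset fun _ h ν =>
    (h.1 ν (Finset.mem_univ _)).1

theorem Step_sum {Om : Finset (Option (GV k M) → P)} (hO : ∀ g, g ∈ Om ↔ Step_ok E g)
    (F : (GV k M → P) → P → ℝ) (h : ∀ Z, E.GridOK Z → 0 ≤ ∑ p ∈ E.PP Z, F Z p) :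
    0 ≤ ∑ g ∈ Om, F (fun ν => g (some ν)) (g none) := by
  rw [← Finset.sum_fiberwise_of_maps_to (g := fun g ν => g (some ν))
    fun g hg => Finset.mem_image_of_mem _ hg]
  refine Finset.sum_nonneg fun Z hZ => ?_
  obtain ⟨g0, hg0, rfl⟩ := Finset.mem_image.1 hZ
  have hZ' := ((Step_ok_iff E g0).1 ((hO g0).1 hg0)).1
  refine (h _ hZ').trans_eq (Finset.sum_nbij' (fun p ν => ν.elim p fun μ => g0 (some μ))
    (fun g => g none) (fun p hp => ?_) (fun g hg => ?_) (fun _ _ => rfl) (fun g hg => ?_)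
    fun _ _ => rfl)
  · exact Finset.mem_filter.2 ⟨(hO _).2 ((Step_ok_iff E _).2 ⟨hZ', Env.mem_PP.1 hp⟩), rfl⟩
  · obtain ⟨h1, h2⟩ := Finset.mem_filter.1 hg
    exact Env.mem_PP.2 (h2 ▸ ((Step_ok_iff E g).1 ((hO g).1 h1)).2)
  · funext ν
    cases ν with
    | none => rfl
    | some μ => exact (congrFun (Finset.mem_filter.1 hg).2 μ).symm

theorem Step_YG (Z : GV k M → P) (p : P) (j : ℕ) :
    {x | pt Z p x ∈ E.Y j}.ncard = (E.YG Z p j).card := by
  rw [← Set.ncard_coe_finset]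
  congr 1
  ext x
  simp [Env.YG]

end

theorem Step_abs {Ω Y X : Type} [Fintype X] [Nonempty X] (Om : Finset Ω) {V Y0 Y1 : Set Y}
    (hV : V.Finite) (h0 : Y0 ⊆ V) (h1 : Y1 ⊆ V) (pr : X → Ω → Y)
    (hpr : ∀ x, ∀ ω ∈ Om, pr x ω ∈ V) {r ε : ℝ} (r0 : 0 ≤ r) (ε0 : 0 ≤ ε)
    (hf : ∀ x, ∃ a : ℝ, 0 < a ∧ ∀ y ∈ V, a ≤ {ω | ω ∈ Om ∧ pr x ω = y}.ncard ∧
      ({ω | ω ∈ Om ∧ pr x ω = y}.ncard : ℝ) ≤ r * a)
    (hs : 0 ≤ ∑ ω ∈ Om, (({x | pr x ω ∈ Y0}.ncard : ℝ) / 2 + ε * Fintype.card X -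
      {x | pr x ω ∈ Y1}.ncard)) :
    (Y1.ncard : ℝ) ≤ r ^ 2 / 2 * Y0.ncard + r * ε * V.ncard := by
  lift V to Finset Y using hV
  lift Y0 to Finset Y using V.finite_toSet.subset h0
  lift Y1 to Finset Y using V.finite_toSet.subset h1
  choose a a0 ha using hf
  have e1 : ∀ x y, {ω | ω ∈ Om ∧ pr x ω = y}.ncard = (Om.filter fun ω => pr x ω = y).card :=
    fun x y => by rw [← Set.ncard_coe_finset, Finset.coe_filter]
  have e2 : ∀ B : Finset Y, ∑ ω ∈ Om, (({x | pr x ω ∈ (B : Set Y)}.ncard : ℕ) : ℝ) =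
      ∑ x, ((Om.filter fun ω => pr x ω ∈ B).card : ℝ) := fun B => by
    have e3 : ∀ ω, {x | pr x ω ∈ (B : Set Y)}.ncard =
        (Finset.univ.filter fun x => pr x ω ∈ B).card := fun ω => by
      rw [← Set.ncard_coe_finset]
      congr 1
      ext x
      simp
    simp only [e3, Finset.card_filter]
    push_cast
    exact Finset.sum_comm
  simp only [e1] at ha
  have mg := fun x B hB => marginal Om V (pr x) (hpr x) (a0 x) (ha x) B hB
  simp only [fun x => mul_div_cancel_right₀ r (a0 x).ne'] at mg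
  rw [Finset.sum_sub_distrib, Finset.sum_add_distrib, ← Finset.sum_div, Finset.sum_const,
    nsmul_eq_mul, e2, e2] at hs
  have g2 := Finset.sum_le_sum fun x (_ : x ∈ Finset.univ) => (mg x Y0 h0).1
  have g3 := Finset.sum_le_sum fun x (_ : x ∈ Finset.univ) => (mg x Y1 h1).2.1
  have g4 := (mg (Classical.arbitrary X) Y0 h0).2.2
  have g5 : (Y1.card : ℝ) ≤ V.card := Nat.cast_le.2 (Finset.card_le_card h1)
  rw [Finset.sum_const, Finset.card_univ, nsmul_eq_mul, ← Finset.sum_mul] at g2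
  rw [Finset.sum_const, Finset.card_univ, nsmul_eq_mul, ← Finset.sum_mul, ← Finset.mul_sum] at g3
  have N0 : (0 : ℝ) < Fintype.card X := Nat.cast_pos.2 Fintype.card_pos
  simp only [Set.ncard_coe_finset]
  rcases (Nat.cast_nonneg (α := ℝ) V.card).eq_or_lt with v0 | v1
  · exact (g5.trans v0.ge).trans (by positivity)
  have o0 : (0 : ℝ) < Om.card := (mul_pos (a0 _) v1).trans_le g4
  have g6 := mul_le_mul_of_nonneg_left (sub_nonneg.1 hs) (by positivity : 0 ≤ r * V.card)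
  have g7 := mul_le_mul_of_nonneg_left g2 (by positivity : 0 ≤ r / 2)
  exact le_of_mul_le_mul_left (by linarith only [g3, g6, g7]) (mul_pos N0 o0)

theorem Step_B0 (n N : ℕ) {t : ℝ} (ht : 0 < t) : ∃ B : ℕ, 2 ≤ B ∧ N ≤ B ∧
    ((1 + 1 / (B : ℝ)) / (1 - 1 / (B : ℝ))) ^ n ≤ 1 + t := by
  have h0 := tendsto_one_div_atTop_nhds_zero_nat (𝕜 := ℝ)
  have h1 := ((h0.const_add 1).div (h0.const_sub 1) (by norm_num)).pow n
  have h2 := h1.eventually (ge_mem_nhds (show _ < 1 + t by simpa using ht))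
  obtain ⟨B, b1, b2, b3⟩ := ((Filter.eventually_ge_atTop 2).and
    ((Filter.eventually_ge_atTop N).and h2)).exists
  exact ⟨B, b1, b2, b3⟩

theorem step {k : ℕ} (hk : 1 ≤ k) (hk2 : Even k) (Rb : ℕ) {ε : ℝ} (hε : 0 < ε) :
    ∃ B0 : ℕ, 0 < B0 ∧ ∀ {W P : Type} [Group W] {T : Tame W P} {R : Rep T} (E : Env R k),
      (R.G1 E.A0 E.Ot E.xs).ncard ≤ Rb →
      (∀ j j', T.Small (1 / (B0 : ℝ)) (B0 * 3 ^ E.A0.card) (∑ v ∈ E.A0, T.dg v + B0 * E.e j')
        (E.e j)) →
      ((E.Y (k + 1)).ncard : ℝ) ≤ (1 / 2 + ε) * (E.Y k).ncard + ε * {y | E.Valid y}.ncard := by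
  obtain ⟨M, M0, hM⟩ := grid hk hk2 Rb (half_pos hε)
  obtain ⟨t, t0, t1, t2⟩ : ∃ t : ℝ, 0 < t ∧ t ≤ 1 ∧ t ≤ 2 * ε / 3 :=
    ⟨min 1 (2 * ε / 3), lt_min one_pos (by positivity), min_le_left _ _, min_le_right _ _⟩
  have hn : Fintype.card (Option (GV k M)) = (k + 1) * M + 1 := by simp
  obtain ⟨B0, b1, b2, b3⟩ := Step_B0 (Fintype.card (Option (GV k M)))
    (3 ^ ((k + 1) * M + 1) * 9 ^ (2 ^ k * M ^ (k + 1))) t0
  have b4 : 3 ^ ((k + 1) * M + 1) ≤ B0 := (Nat.le_mul_of_pos_right _ (by positivity)).trans b2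
  have b5 : (k + 1) * M + 1 ≤ B0 := (Nat.lt_pow_self (by norm_num)).le.trans b4
  have b6 : 1 / (B0 : ℝ) ≤ 1 / 2 := one_div_le_one_div_of_le two_pos (by exact_mod_cast b1)
  refine ⟨B0, by omega, fun {W P} _ {T R} E hR hsm => ?_⟩
  obtain ⟨j', hj'⟩ := Finite.exists_max E.e
  obtain ⟨Om, hO⟩ : ∃ Om : Finset (Option (GV k M) → P), ∀ g, g ∈ Om ↔ Step_ok E g :=
    ⟨(Step_fin E).toFinset, fun g => Set.Finite.mem_toFinset _⟩
  have hX : (Fintype.card (Pt k M) : ℝ) = (M : ℝ) ^ (k + 1) := by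
    simp [pow_succ']
  have : Nonempty (Pt k M) := ⟨(⟨0, M0⟩, fun _ => ⟨0, M0⟩)⟩
  have key := Step_abs Om (V := {y | E.Valid y}) (Y0 := E.Y k) (Y1 := E.Y (k + 1)) Env.valid_finite
    (fun _ h => h.1) (fun _ h => h.1) (fun x g => pt (fun ν => g (some ν)) (g none) x)
    (fun x g hg => by
      have := (Step_ok_iff E g).1 ((hO g).1 hg)
      exact Env.valid_pt this.1 this.2 x) (r := 1 + t) (ε := ε / 2) (by positivity) (by positivity)
    (fun x => by
      simp only [hO, Step_pt]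
      exact Step_fib (T := T) Env.inf_mem_A0 E.e E.cl E.s E.s_symm E.e_pos Step_lab (Step_pos x)
        (Step_lab_pos x) (by positivity) (by linarith only [b6]) b3 hj' fun i => (hsm i j').mono le_rfl
          (by rw [hn, pow_add, mul_comm]; exact Nat.mul_le_mul_right _ b4)
          (Nat.add_le_add_left (Nat.mul_le_mul_right _ (hn ▸ b5)) _))
    (by
      simp only [Step_YG, hX]
      refine Step_sum E hO (fun Z p => ((E.YG Z p k).card : ℝ) / 2 + ε / 2 * (M : ℝ) ^ (k + 1) -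
        (E.YG Z p (k + 1)).card) fun Z hZ => ?_
      have := hM E hR Z hZ ((hsm none j').mono b6 ?_ (Nat.add_le_add_left ?_ _))
      · rw [Finset.sum_sub_distrib, Finset.sum_add_distrib, ← Finset.sum_div, Finset.sum_const,
          nsmul_eq_mul]
        linarith only [this]
      · rw [pow_add, mul_assoc, mul_comm]
        refine Nat.mul_le_mul_right _ (le_trans (Nat.mul_le_mul_right _ ?_) b2)
        exact Nat.pow_le_pow_right (by norm_num) (Nat.le_succ _)
      · have h1 := Finset.sum_le_card_nsmul Finset.univ (fun j => E.e (some j)) _ fun j _ => hj' _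
        rw [Finset.card_univ, Fintype.card_option, Fintype.card_fin, smul_eq_mul] at h1
        refine (Nat.mul_le_mul_left M h1).trans ?_
        rw [← mul_assoc, mul_comm M]
        exact Nat.mul_le_mul_right _ ((Nat.le_succ _).trans b5))
  have g10 : (1 + t) ^ 2 / 2 * ((E.Y k).ncard : ℝ) ≤ (1 / 2 + ε) * (E.Y k).ncard :=
    mul_le_mul_of_nonneg_right (by linarith only [t2, t0, t1, mul_nonneg_of_nonpos_of_nonpos (le_of_lt (Mathlib.Tactic.Linarith.sub_neg_of_lt t0)) (Mathlib.Tactic.Linarith.sub_nonpos_of_le t1)]) (Nat.cast_nonneg _)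
  have g11 : (1 + t) * (ε / 2) * ({y | E.Valid y}.ncard : ℝ) ≤ ε * {y | E.Valid y}.ncard :=
    mul_le_mul_of_nonneg_right (by linarith only [hε, t1, mul_nonneg_of_nonpos_of_nonpos (le_of_lt (Mathlib.Tactic.Linarith.sub_neg_of_lt hε)) (Mathlib.Tactic.Linarith.sub_nonpos_of_le t1)]) (Nat.cast_nonneg _)
  linarith only [key, g10, g11]

end

end Pool.Agent.Smith
end
end

-- merged part: Pool.Agent.Work.MP_60d5ce_nt.Sm.BoxB
section
/-!
# One step inside a fibre of the box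

Hint.  Partition `fib c` according to the restriction of `p` to the complement of the range of
`lab`.  For `p0 ∈ fib c` build `E : Env R k` with the same `S1`, `Ot` the image under `p0` of the
complement, `x1 = x0 + ∑ χ (p0 i)`, `w1 = (∑ χ a • z.1.1 a + deg • z.1.2) - x0 • t + M t +
∑ χ (p0 i) • (n i - t)` (sums over the complement), `na = n (lab a) - t`, `nb = n (lab b) - t`,
`e j = X.e (lab j)`, `cl j a = c.1 (lab j) a` on `S1.erase inf` and `sym c.2 (lab j) i` at `p0 i`,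
`s j j' = sym c.2 (lab j) (lab j')`.  Then `p ↦ p ∘ lab` is a bijection from the class of `p0` onto the
valid `y`, `xy y = x p`, `Ay y = A p`, `wy y = w p z - wt (x p) (-t)`, and `Lifts.sub_wt` (twice, with
`t` and `-t`) shows that lifting is unchanged.  The bound on `G1` is `G1_drop` and `g1_card`
(`E.xs` agrees with `fun v => x p0 (σ v)` on `Ot`).  Take `B = B0 + 1` with `B0` from `step` for
`Rb * 9 ^ (k + 2)`.
-/

namespace Pool.Agent.Smith

open scoped Classical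

/-- summation over the classes of a partition -/
theorem BoxB_part {α β : Type} {S : Set α} (hS : S.Finite) (π : α → β) (Q1 Q2 : α → Prop)
    (a b : ℝ) (h : ∀ p0 ∈ S, ({p | (p ∈ S ∧ π p = π p0) ∧ Q1 p}.ncard : ℝ) ≤
      a * {p | (p ∈ S ∧ π p = π p0) ∧ Q2 p}.ncard + b * {p | (p ∈ S ∧ π p = π p0) ∧ True}.ncard) :
    ({p | p ∈ S ∧ Q1 p}.ncard : ℝ) ≤ a * {p | p ∈ S ∧ Q2 p}.ncard + b * S.ncard := by
  have key : ∀ Q : α → Prop, ({p | p ∈ S ∧ Q p}.ncard : ℝ) =
      ∑ y ∈ hS.toFinset.image π, ({p | (p ∈ S ∧ π p = y) ∧ Q p}.ncard : ℝ) := by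
    intro Q
    have e : {p | p ∈ S ∧ Q p} = ↑(hS.toFinset.filter Q) := by
      ext p
      simp
    rw [e, Set.ncard_coe_finset, Finset.card_eq_sum_card_fiberwise (f := π)
      (t := hS.toFinset.image π) fun p hp =>
        Finset.mem_coe.2 (Finset.mem_image_of_mem π (Finset.mem_filter.1 hp).1), Nat.cast_sum]
    refine Finset.sum_congr rfl fun y _ => ?_
    rw [← Set.ncard_coe_finset]
    congr 2
    ext p
    simp only [Finset.coe_filter, Finset.mem_filter, Set.Finite.mem_toFinset, Set.mem_ofPred_eq]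
    tauto
  have e : S = {p | p ∈ S ∧ True} := by simp
  conv_rhs => rw [e]
  simp only [Set.mem_ofPred_eq, and_true]
  have k3 := key fun _ => True
  simp only [and_true] at k3 h
  rw [key Q1, key Q2, k3, Finset.mul_sum, Finset.mul_sum, ← Finset.sum_add_distrib]
  refine Finset.sum_le_sum fun y hy => ?_
  obtain ⟨p0, hp0, rfl⟩ := Finset.mem_image.1 hy
  exact h p0 (hS.mem_toFinset.1 hp0)

section
variable {W P : Type} [Group W] {T : Tame W P} {R : Rep T} {ι : Type} [Fintype ι] [LinearOrder ι]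
  {X : Box R ι} {k : ℕ}

theorem BoxB_ne_inf {v : P} (h : v ∉ X.S1) : v ≠ T.inf := fun e => h (e ▸ X.S_sub R.inf_mem)

theorem BoxB_fib {c : Cfg ι X.κ} {p : ι → P} : p ∈ X.fib c ↔ p ∈ X.pts ∧
    (∀ i (a : X.κ), T.χ a.1 (T.σ (p i)) = c.1 i a) ∧
      ∀ i j, i ≠ j → T.χ (p j) (T.σ (p i)) = sym c.2 i j := by
  constructor
  · rintro ⟨h, rfl⟩
    exact ⟨h, fun _ _ => rfl, fun i j hij => Box.chi_sym h hij⟩
  · rintro ⟨h, h1, h2⟩
    refine ⟨h, Prod.ext (funext fun i => funext fun a => h1 i a) (funext fun z => ?_)⟩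
    have := h2 z.1.1 z.1.2 z.2.ne'
    rwa [sym, dif_pos z.2] at this

/-- the indices that do not vary -/
noncomputable def BoxB_C (lab : Jx k → ι) : Finset ι := (Finset.univ.image lab)ᶜ

theorem BoxB_mem {lab : Jx k → ι} {i : ι} : i ∈ BoxB_C lab ↔ ∀ j, lab j ≠ i := by
  simp [BoxB_C]

theorem BoxB_cases (lab : Jx k → ι) (i : ι) : i ∈ BoxB_C lab ∨ ∃ j, i = lab j := by
  by_cases h : ∃ j, i = lab j
  · exact Or.inr h
  · exact Or.inl (BoxB_mem.2 fun j e => h ⟨j, e.symm⟩)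

theorem BoxB_sum {A : Type} [AddCommMonoid A] {lab : Jx k → ι} (hl : Function.Injective lab)
    (f : ι → A) : ∑ i, f i = ∑ i ∈ BoxB_C lab, f i + ∑ j, f (lab j) := by
  rw [← Finset.sum_compl_add_sum (Finset.univ.image lab), Finset.sum_image fun _ _ _ _ h => hl h]
  rfl

theorem BoxB_image {lab : Jx k → ι} (p : ι → P) :
    (BoxB_C lab).image p ∪ Finset.univ.image (p ∘ lab) = Finset.univ.image p := by
  ext v
  simp only [Finset.mem_union, Finset.mem_image, Finset.mem_univ, true_and, Function.comp]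
  constructor
  · rintro (⟨i, -, h⟩ | ⟨j, h⟩)
    · exact ⟨i, h⟩
    · exact ⟨_, h⟩
  · rintro ⟨i, h⟩
    rcases BoxB_cases lab i with hi | ⟨j, rfl⟩
    · exact Or.inl ⟨i, hi, h⟩
    · exact Or.inr ⟨j, h⟩

variable {c : Cfg ι X.κ} (z : Aff X.κ Vb × (ι → Vb)) (t : Vb) (lab : Jx k → ι)
  (hab : hb (z.2 (lab (some none)) - t) (z.2 (lab none) - t) ≠ 0) {p0 : ι → P} (h0 : p0 ∈ X.fib c)

/-- the data of the step -/
noncomputable def BoxB_env : Env R k where
  S1 := X.S1
  Ot := (BoxB_C lab).image p0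
  x1 g := X.x0 g + ∑ i ∈ BoxB_C lab, T.χ (p0 i) g
  w1 g := ∑ a : X.κ, T.χ a.1 g • z.1.1 a + (T.deg g : F3) • z.1.2 + R.wt X.x0 t g +
    ∑ i ∈ BoxB_C lab, T.χ (p0 i) g • (z.2 i - t)
  na := z.2 (lab (some none)) - t
  nb := z.2 (lab none) - t
  e j := X.e (lab j)
  cl j a := T.χ a (T.σ (p0 (lab j)))
  s j j' := sym c.2 (lab j) (lab j')
  S_sub := X.S_sub
  disj := by
    rw [Finset.disjoint_right]
    intro v hv
    obtain ⟨i, -, rfl⟩ := Finset.mem_image.1 hv
    exact (h0.1 i).2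
  x1_hom := Tame.hom_add X.x0_hom (Tame.hom_sum _ fun i _ => T.χ_hom _)
  x1_unr v hv := by
    rw [Finset.notMem_union] at hv
    rw [X.x0_unr v hv.1, zero_add]
    exact Finset.sum_eq_zero fun i hi => T.χ_ne _ _
      (fun e => hv.2 (e ▸ Finset.mem_image_of_mem p0 hi)) (BoxB_ne_inf hv.1)
  x1_ot v hv := by
    obtain ⟨i, hi, rfl⟩ := Finset.mem_image.1 hv
    rw [X.x0_unr _ (h0.1 i).2, zero_add, Finset.sum_eq_single_of_mem i hi fun j _ hj =>
      T.χ_ne _ _ (fun e => hj (Box.inj h0.1 e).symm) (BoxB_ne_inf (h0.1 i).2)]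
    exact T.χ_self _ (BoxB_ne_inf (h0.1 i).2)
  w1_hom := Tame.hom_add (Tame.hom_add (Tame.hom_add
    (Tame.hom_sum _ fun a _ => Tame.hom_smul_const (T.χ_hom _) _)
    (Tame.hom_smul_const Tame.hom_deg _)) (Rep.wt_hom X.x0_hom t))
    (Tame.hom_sum _ fun i _ => Tame.hom_smul_const (T.χ_hom _) _)
  w1_unr v hv := by
    rw [Finset.notMem_union] at hv
    have h1 := BoxB_ne_inf hv.1
    rw [Finset.sum_eq_zero, Finset.sum_eq_zero, T.deg_τ, Rep.wt, X.x0_unr v hv.1,
      Rep.M_unr fun h => hv.1 (X.S_sub h)]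
    · simp
    · intro i hi
      rw [T.χ_ne (p0 i) v (fun e => hv.2 (e ▸ Finset.mem_image_of_mem p0 hi)) h1, zero_smul]
    · intro a _
      rw [T.χ_ne a.1 v (fun e => hv.1 (e ▸ Finset.mem_of_mem_erase a.2)) h1, zero_smul]
  hab := hab
  s_symm _ _ := sym_symm _ _ _
  e_pos _ := X.e_pos _

variable {lab}

theorem BoxB_valid (hl : Function.Injective lab) {p : ι → P} (hp : p ∈ X.fib c)
    (he : ∀ i ∈ BoxB_C lab, p i = p0 i) : (BoxB_env z t lab hab h0).Valid (p ∘ lab) := by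
  obtain ⟨a1, a2, a3⟩ := BoxB_fib.1 hp
  obtain ⟨-, b2, b3⟩ := BoxB_fib.1 h0
  refine ⟨fun j _ => ⟨(a1 _).1, fun h => ?_, fun a ha => ?_⟩, fun j _ j' _ hj =>
    ⟨fun e => hj (hl (Box.inj a1 e)), fun _ => a3 _ _ fun e => hj (hl e)⟩⟩
  · rcases Finset.mem_union.1 h with h | h
    · exact (a1 _).2 h
    · obtain ⟨i, hi, e⟩ := Finset.mem_image.1 h
      exact BoxB_mem.1 hi j (Box.inj a1 (e.symm.trans (he i hi).symm))
  · rcases Finset.mem_union.1 (Finset.mem_of_mem_erase ha) with h | h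
    · have h' : a ∈ X.S1.erase T.inf := Finset.mem_erase.2 ⟨Finset.ne_of_mem_erase ha, h⟩
      exact (a2 (lab j) ⟨a, h'⟩).trans (b2 (lab j) ⟨a, h'⟩).symm
    · obtain ⟨i, hi, rfl⟩ := Finset.mem_image.1 h
      have h1 := a3 _ _ (BoxB_mem.1 hi j)
      rw [he i hi] at h1
      exact h1.trans (b3 _ _ (BoxB_mem.1 hi j)).symm

theorem BoxB_surj (hl : Function.Injective lab) {y : Jx k → P}
    (hy : (BoxB_env z t lab hab h0).Valid y) :
    ∃ p ∈ X.fib c, (∀ i ∈ BoxB_C lab, p i = p0 i) ∧ p ∘ lab = y := by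
  obtain ⟨b1, b2, b3⟩ := BoxB_fib.1 h0
  have e1 : ∀ j, Function.extend lab y p0 (lab j) = y j := fun j => hl.extend_apply _ _ _
  have e2 : ∀ i ∈ BoxB_C lab, Function.extend lab y p0 i = p0 i := fun i hi =>
    Function.extend_apply' _ _ _ fun ⟨j, e⟩ => BoxB_mem.1 hi j e
  have u := fun j => hy.1 j (Finset.mem_univ j)
  have u1 : ∀ j, y j ∉ X.S1 := fun j h => (u j).2.1 (Finset.mem_union_left _ h)
  have u2 : ∀ j, ∀ i ∈ BoxB_C lab, T.χ (p0 i) (T.σ (y j)) = sym c.2 (lab j) i := fun j i hi =>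
    ((u j).2.2 (p0 i) (Finset.mem_erase.2 ⟨BoxB_ne_inf (b1 i).2,
      Finset.mem_union_right _ (Finset.mem_image_of_mem p0 hi)⟩)).trans
      (b3 _ _ (BoxB_mem.1 hi j))
  refine ⟨Function.extend lab y p0, BoxB_fib.2 ⟨fun i => ?_, fun i a => ?_, fun i i' hi => ?_⟩, e2,
    funext e1⟩
  · rcases BoxB_cases lab i with h | ⟨j, rfl⟩
    · rw [e2 i h]
      exact b1 i
    · rw [e1]
      exact ⟨(u j).1, u1 j⟩
  · rcases BoxB_cases lab i with h | ⟨j, rfl⟩
    · rw [e2 i h, b2]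
    · rw [e1, ← b2]
      exact (u j).2.2 a (Finset.mem_erase.2 ⟨Finset.ne_of_mem_erase a.2,
        Finset.mem_union_left _ (Finset.mem_of_mem_erase a.2)⟩)
  · rcases BoxB_cases lab i with h | ⟨j, rfl⟩ <;> rcases BoxB_cases lab i' with h' | ⟨j', rfl⟩
    · rw [e2 i h, e2 i' h', b3 _ _ hi]
    · rw [e2 i h, e1, sym_symm, ← u2 j' i h]
      refine Tame.chi_symm (BoxB_ne_inf (u1 j')) (BoxB_ne_inf (b1 i).2) fun e => ?_
      exact (u j').2.1 (Finset.mem_union_right _ (e ▸ Finset.mem_image_of_mem p0 h))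
    · rw [e2 i' h', e1, u2 j i' h']
    · rw [e1, e1]
      exact (hy.2 j (Finset.mem_univ _) j' (Finset.mem_univ _) fun e => hi (by rw [e])).2 trivial

theorem BoxB_lifts (hl : Function.Injective lab) (ht : ∀ i, z.2 (lab (some (some i))) = t)
    {p : ι → P} (he : ∀ i ∈ BoxB_C lab, p i = p0 i) (j : ℕ) :
    R.Lifts (X.A p) (X.x p) j (X.w p z) ↔
      R.Lifts ((BoxB_env z t lab hab h0).Ay (p ∘ lab)) ((BoxB_env z t lab hab h0).xy (p ∘ lab)) j
        ((BoxB_env z t lab hab h0).wy (p ∘ lab)) := by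
  have e1 : (BoxB_env z t lab hab h0).Ay (p ∘ lab) = X.A p := by
    change X.S1 ∪ (BoxB_C lab).image p0 ∪ _ = _
    rw [Finset.union_assoc, ← Finset.image_congr (f := p) fun i hi => he i hi, BoxB_image]
    rfl
  have e2 : (BoxB_env z t lab hab h0).xy (p ∘ lab) = X.x p := by
    funext g
    change X.x0 g + ∑ i ∈ BoxB_C lab, T.χ (p0 i) g + ∑ j, T.χ (p (lab j)) g = _
    rw [Box.x, BoxB_sum hl fun i => T.χ (p i) g, add_assoc,
      Finset.sum_congr rfl fun i hi => by rw [← he i hi]]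
  have e3 : (BoxB_env z t lab hab h0).wy (p ∘ lab) = X.w p z - R.wt (X.x p) (-t) := by
    funext g
    change ∑ a : X.κ, T.χ a.1 g • z.1.1 a + (T.deg g : F3) • z.1.2 + R.wt X.x0 t g +
      ∑ i ∈ BoxB_C lab, T.χ (p0 i) g • (z.2 i - t) +
      T.χ (p (lab (some none))) g • (z.2 (lab (some none)) - t) +
      T.χ (p (lab none)) g • (z.2 (lab none) - t) = _
    have a1 : ∑ i, T.χ (p i) g • (z.2 i - t) = ∑ i ∈ BoxB_C lab, T.χ (p0 i) g • (z.2 i - t) +
        (T.χ (p (lab none)) g • (z.2 (lab none) - t) +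
          T.χ (p (lab (some none))) g • (z.2 (lab (some none)) - t)) := by
      rw [BoxB_sum hl, Fintype.sum_option, Fintype.sum_option,
        Finset.sum_congr rfl fun i hi => by rw [he i hi]]
      simp [ht]
    simp only [smul_sub, Finset.sum_sub_distrib, ← Finset.sum_smul] at a1
    simp only [Pi.sub_apply, Box.w, Box.x, Rep.wt, Matrix.mulVec_neg, smul_sub,
      Finset.sum_sub_distrib, ← Finset.sum_smul]
    rw [sub_eq_iff_eq_add.1 a1]
    module
  have hA : R.S ⊆ X.A p := X.S_sub.trans Finset.subset_union_left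
  rw [e1, e2, e3]
  refine ⟨fun h => h.sub_wt (Box.x_hom p) hA (Box.x_unr p) _, fun h => ?_⟩
  have h1 := h.sub_wt (Box.x_hom p) hA (Box.x_unr p) t
  have e4 : X.w p z - R.wt (X.x p) (-t) - R.wt (X.x p) t = X.w p z := by
    funext g
    simp [Rep.Act_wt_neg]
  rwa [e4] at h1

theorem BoxB_G1 (hl : Function.Injective lab) :
    (R.G1 (BoxB_env z t lab hab h0).A0 (BoxB_env z t lab hab h0).Ot
      (BoxB_env z t lab hab h0).xs).ncard ≤ (X.Sol c).card * 9 ^ (k + 2) := by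
  have b1 := h0.1
  have e1 : R.G1 (BoxB_env z t lab hab h0).A0 (BoxB_env z t lab hab h0).Ot
      (BoxB_env z t lab hab h0).xs =
      R.G1 (X.S1 ∪ (BoxB_C lab).image p0) ((BoxB_C lab).image p0) fun v => X.x p0 (T.σ v) := by
    have : ∀ v ∈ (BoxB_C lab).image p0, (BoxB_env z t lab hab h0).xs v = X.x p0 (T.σ v) := by
      intro v hv
      obtain ⟨i, hi, rfl⟩ := Finset.mem_image.1 hv
      change X.x0 _ + ∑ i' ∈ BoxB_C lab, T.χ (p0 i') (T.σ (p0 i)) +
        ∑ j, T.χ (p0 i) (T.σ (p0 (lab j))) = _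
      rw [Box.x, BoxB_sum hl fun i' => T.χ (p0 i') (T.σ (p0 i)), add_assoc]
      congr 2
      refine Finset.sum_congr rfl fun j _ => ?_
      exact Tame.chi_symm (BoxB_ne_inf (b1 _).2) (BoxB_ne_inf (b1 _).2)
        fun e => BoxB_mem.1 hi j (Box.inj b1 e).symm
    ext h
    refine and_congr_right fun _ => forall₂_congr fun v hv => ?_
    rw [this v hv]
  have h1 := R.G1_drop (X.S1 ∪ (BoxB_C lab).image p0) (Finset.univ.image (p0 ∘ lab))
    ((BoxB_C lab).image p0) (fun v => X.x p0 (T.σ v)) (by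
      intro v hv
      obtain ⟨j, -, rfl⟩ := Finset.mem_image.1 hv
      refine ⟨fun h => ?_, BoxB_ne_inf (b1 _).2⟩
      rcases Finset.mem_union.1 h with h | h
      · exact (b1 _).2 h
      · obtain ⟨i, hi, e⟩ := Finset.mem_image.1 h
        exact BoxB_mem.1 hi j (Box.inj b1 e).symm)
  rw [Finset.union_assoc, BoxB_image] at h1
  have h2 := Box.g1_card b1
  rw [h0.2] at h2
  rw [e1]
  refine h1.trans (Nat.mul_le_mul h2 (Nat.pow_le_pow_right (by norm_num) ?_))
  refine Finset.card_image_le.trans (le_of_eq ?_)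
  simp

theorem BoxB_small {B0 : ℕ} (hB : 0 < B0) {L : Finset ι} (hL : ∀ j, lab j ∈ L)
    (h : X.SmL (B0 + 1) L) (j j' : Jx k) :
    T.Small (1 / (B0 : ℝ)) (B0 * 3 ^ (BoxB_env z t lab hab h0).A0.card)
      (∑ v ∈ (BoxB_env z t lab hab h0).A0, T.dg v + B0 * (BoxB_env z t lab hab h0).e j')
      ((BoxB_env z t lab hab h0).e j) := by
  refine (h _ (hL j)).mono ?_ ?_ ?_
  · exact one_div_le_one_div_of_le (by exact_mod_cast hB) (by simp)
  · refine Nat.mul_le_mul (Nat.le_succ _) (Nat.pow_le_pow_right (by norm_num) ?_)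
    exact (Finset.card_union_le _ _).trans (Nat.add_le_add_left
      (Finset.card_image_le.trans (Finset.card_le_univ _)) _)
  · have a1 : ∑ v ∈ (BoxB_env z t lab hab h0).A0, T.dg v =
        ∑ v ∈ X.S1, T.dg v + ∑ i ∈ BoxB_C lab, X.e i := by
      rw [Env.A0, Finset.sum_union (BoxB_env z t lab hab h0).disj]
      congr 1
      change ∑ v ∈ (BoxB_C lab).image p0, T.dg v = _
      rw [Finset.sum_image fun _ _ _ _ e => Box.inj h0.1 e]
      exact Finset.sum_congr rfl fun i _ => (h0.1 i).1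
    have a2 : ∑ i ∈ BoxB_C lab, X.e i ≤ ∑ i, X.e i :=
      Finset.sum_le_sum_of_subset (Finset.subset_univ _)
    have a3 : X.e (lab j') ≤ ∑ i, X.e i :=
      Finset.single_le_sum (fun _ _ => Nat.zero_le _) (Finset.mem_univ _)
    have a4 := Nat.mul_le_mul_left B0 a3
    rw [a1, add_mul, one_mul]
    change _ + B0 * X.e (lab j') ≤ _
    omega

theorem BoxB_ncard (hl : Function.Injective lab) {Q : (ι → P) → Prop} {Q' : (Jx k → P) → Prop}
    (hQ : ∀ p, (∀ i ∈ BoxB_C lab, p i = p0 i) → (Q p ↔ Q' (p ∘ lab))) :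
    {p | (p ∈ X.fib c ∧ (fun i : BoxB_C lab => p i) = fun i : BoxB_C lab => p0 i) ∧ Q p}.ncard =
      {y | (BoxB_env z t lab hab h0).Valid y ∧ Q' y}.ncard := by
  have e : ∀ p : ι → P, ((fun i : BoxB_C lab => p i) = fun i : BoxB_C lab => p0 i) ↔
      ∀ i ∈ BoxB_C lab, p i = p0 i := fun p =>
    ⟨fun h i hi => congrFun h ⟨i, hi⟩, fun h => funext fun i => h i i.2⟩
  simp only [e]
  refine Set.ncard_congr (fun p _ => p ∘ lab) (fun p hp => ?_) (fun p p' hp hp' h => ?_)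
    fun y hy => ?_
  · exact ⟨BoxB_valid z t hab h0 hl hp.1.1 hp.1.2, (hQ p hp.1.2).1 hp.2⟩
  · funext i
    rcases BoxB_cases lab i with hi | ⟨j, rfl⟩
    · rw [hp.1.2 i hi, hp'.1.2 i hi]
    · exact congrFun h j
  · obtain ⟨p, a1, a2, rfl⟩ := BoxB_surj z t hab h0 hl hy.1
    exact ⟨p, ⟨⟨a1, a2⟩, (hQ p a2).2 hy.2⟩, rfl⟩

end

theorem fib_step {k : ℕ} (hk : 1 ≤ k) (hk2 : Even k) (Rb : ℕ) {ε : ℝ} (hε : 0 < ε) :
    ∃ B : ℕ, 0 < B ∧ ∀ {W P : Type} [Group W] {T : Tame W P} {R : Rep T} {ι : Type} [Fintype ι]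
      [LinearOrder ι] (X : Box R ι) (L : Finset ι) (c : Cfg ι X.κ) (z : Aff X.κ Vb × (ι → Vb))
      (t : Vb) (lab : Jx k → ι), Function.Injective lab → (∀ j, lab j ∈ L) →
      (∀ i, z.2 (lab (some (some i))) = t) →
      hb (z.2 (lab (some none)) - t) (z.2 (lab none) - t) ≠ 0 →
      (X.Sol c).card ≤ Rb → X.SmL B L →
      ({p | p ∈ X.fib c ∧ R.Lifts (X.A p) (X.x p) (k + 1) (X.w p z)}.ncard : ℝ) ≤
        (1 / 2 + ε) * {p | p ∈ X.fib c ∧ R.Lifts (X.A p) (X.x p) k (X.w p z)}.ncard +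
          ε * (X.fib c).ncard := by
  obtain ⟨B0, hB, H⟩ := step hk hk2 (Rb * 9 ^ (k + 2)) hε
  refine ⟨B0 + 1, Nat.succ_pos _, ?_⟩
  intro W P _ T R ι _ _ X L c z t lab hl hL ht hab hR hS
  refine BoxB_part (S := X.fib c) (Box.pts_finite.subset fun p hp => hp.1)
    (fun (p : ι → P) (i : BoxB_C lab) => p i) _ _ _ _ fun p0 h0 => ?_
  have h1 := H (BoxB_env z t lab hab h0)
    ((BoxB_G1 z t hab h0 hl).trans (Nat.mul_le_mul_right _ hR)) (BoxB_small z t hab h0 hB hL hS)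
  have h2 := fun j => BoxB_ncard z t hab h0 hl (Q' := fun y =>
    R.Lifts ((BoxB_env z t lab hab h0).Ay y) ((BoxB_env z t lab hab h0).xy y) j
      ((BoxB_env z t lab hab h0).wy y)) fun p he => BoxB_lifts z t hab h0 hl ht he j
  rw [h2, h2, BoxB_ncard z t hab h0 hl (Q' := fun _ => True) fun _ _ => Iff.rfl]
  simpa only [and_true, Env.Y] using h1

end Pool.Agent.Smith
end
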