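import Mathlib
import Pool.Agent.Work.MP_60d5ce_nt.Sm.LocEx

-- merged part: Pool.Agent.Work.MP_60d5ce_nt.Sm.Tsen
section
/-!
# Tsen's theorem for cubic forms, norm surjectivity

Hints.
* `exists_common_zero`: if the only common zero is the origin, the Nullstellensatz makes the maximal
  ideal `(X_1, ..., X_n)` the radical of, so a minimal prime over, the span of `r` elements; Krull's
  height theorem (`Ideal.height_le_spanRank_toENat_of_mem_minimal_primes` and relatives) bounds its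
  height by `r`, while it has height `n` (`MvPolynomial.ringKrullDim_of_isNoetherianRing`, or the
  chain of kernels of partial evaluations).
* `tsen_poly`: `r` cubic forms over `𝕜[X]` in `n > 3 r` variables: substitute polynomials of degree
  at most `m` with unknown coefficients: `n (m + 1)` unknowns, `r (3 m + D + 1)` equations.
* `tsen_ext`: clear denominators and expand in a basis of `M` over `RatFunc 𝕜`
  (`n N` variables, `N` forms).
* `norm_surj`: the form `N(x) - a z ^ 3` in four variables over `M`, `N(x) = x * s x * s (s x)`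
  written in a basis of `M'` over `M` (coefficients: apply an `M`-linear projection `M' → M` that is
  the identity on `M`).
-/

namespace Pool.Agent.Smith

open Polynomial

variable {𝕜 : Type} [Field 𝕜] [IsAlgClosed 𝕜]

/-- killing the variables in `S` -/
noncomputable def Tsen_kill {ι : Type} [DecidableEq ι] (K : Type) [Field K] (S : Finset ι) :
    MvPolynomial ι K →ₐ[K] MvPolynomial ι K :=
  MvPolynomial.aeval fun i => if i ∈ S then 0 else MvPolynomial.X i

theorem Tsen_height {ι : Type} [DecidableEq ι] (K : Type) [Field K] (S : Finset ι) :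
    (S.card : ℕ∞) ≤ (RingHom.ker (Tsen_kill K S)).height := by
  induction S using Finset.induction_on with
  | empty => simp
  | insert i S hi ih =>
    have h1 : (RingHom.ker (Tsen_kill K S)).IsPrime := RingHom.ker_isPrime _
    have h2 : (RingHom.ker (Tsen_kill K (insert i S))).IsPrime := RingHom.ker_isPrime _
    have e : (Tsen_kill K (insert i S)).comp (Tsen_kill K S) = Tsen_kill K (insert i S) := by
      refine MvPolynomial.algHom_ext fun j => ?_
      by_cases hj : j ∈ S <;> simp [Tsen_kill, hj]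
    have hlt : RingHom.ker (Tsen_kill K S) < RingHom.ker (Tsen_kill K (insert i S)) := by
      refine lt_of_le_of_ne (fun p hp => ?_) fun h => ?_
      · rw [RingHom.mem_ker] at hp ⊢
        rw [← e, AlgHom.comp_apply, hp, map_zero]
      · have : MvPolynomial.X i ∈ RingHom.ker (Tsen_kill K S) := by
          rw [h, RingHom.mem_ker]
          simp [Tsen_kill]
        rw [RingHom.mem_ker] at this
        simp [Tsen_kill, hi] at this
    rw [Finset.card_insert_of_notMem hi, Nat.cast_add, Nat.cast_one]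
    exact (add_le_add_left ih 1).trans (Ideal.height_add_one_le_of_lt_of_isPrime hlt)

theorem exists_common_zero {ι κ : Type} [Fintype ι] [Fintype κ]
    (h : Fintype.card κ < Fintype.card ι) (f : κ → MvPolynomial ι 𝕜)
    (hf : ∀ j, MvPolynomial.eval 0 (f j) = 0) :
    ∃ x : ι → 𝕜, x ≠ 0 ∧ ∀ j, MvPolynomial.eval x (f j) = 0 := by
  classical
  by_contra hc
  push Not at hc
  obtain ⟨I, hI⟩ : ∃ I : Ideal (MvPolynomial ι 𝕜), I = Ideal.span (Finset.univ.image f : Finset _) :=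
    ⟨_, rfl⟩
  have hZ : MvPolynomial.zeroLocus 𝕜 I = {0} := by
    rw [hI, MvPolynomial.zeroLocus_span]
    ext x
    simp only [Finset.coe_image, Finset.coe_univ, Set.image_univ, Set.forall_mem_range,
      Set.mem_singleton_iff, Set.mem_ofPred_eq]
    constructor
    · intro hx
      by_contra h0
      obtain ⟨j, hj⟩ := hc x h0
      exact hj (hx j)
    · rintro rfl
      exact hf
  have hR := MvPolynomial.vanishingIdeal_zeroLocus_eq_radical (K := 𝕜) I
  rw [hZ] at hR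
  have hP : I.radical.IsPrime := by
    rw [← hR]
    infer_instance
  have hmin : I.radical ∈ (Ideal.span (Finset.univ.image f : Finset _)).minimalPrimes := by
    rw [← hI, ← Ideal.radical_minimalPrimes, Ideal.minimalPrimes_eq_subsingleton_self]
    rfl
  have h1 := Ideal.height_le_card_of_mem_minimalPrimes_span_finset hmin
  have h2 : RingHom.ker (Tsen_kill 𝕜 (Finset.univ : Finset ι)) ≤ I.radical := fun p hp => by
    rw [← hR, MvPolynomial.mem_vanishingIdeal_singleton_iff]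
    rw [RingHom.mem_ker] at hp
    have e : (MvPolynomial.aeval (0 : ι → 𝕜)).comp (Tsen_kill 𝕜 (Finset.univ : Finset ι)) =
        MvPolynomial.aeval (0 : ι → 𝕜) := by
      refine MvPolynomial.algHom_ext fun j => ?_
      simp [Tsen_kill]
    rw [← e, AlgHom.comp_apply, hp, map_zero]
  have h3 := (Tsen_height 𝕜 (Finset.univ : Finset ι)).trans ((Ideal.height_mono h2).trans h1)
  have h4 : (Finset.univ : Finset ι).card ≤ (Finset.univ.image f).card := by exact_mod_cast h3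
  have h5 := Finset.card_image_le (s := Finset.univ) (f := f)
  rw [Finset.card_univ] at h4 h5
  omega

theorem tsen_poly {ι κ : Type} [Fintype ι] [Fintype κ] (h : 3 * Fintype.card κ < Fintype.card ι)
    (c : κ → ι → ι → ι → 𝕜[X]) :
    ∃ x : ι → 𝕜[X], x ≠ 0 ∧ ∀ j, ∑ a, ∑ b, ∑ d, c j a b d * x a * x b * x d = 0 := by
  classical
  obtain ⟨D, hD⟩ : ∃ D : ℕ, ∀ j a b d, (c j a b d).natDegree ≤ D :=
    ⟨Finset.univ.sup fun i : κ × ι × ι × ι => (c i.1 i.2.1 i.2.2.1 i.2.2.2).natDegree,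
      fun j a b d => Finset.le_sup (f := fun i : κ × ι × ι × ι =>
        (c i.1 i.2.1 i.2.2.1 i.2.2.2).natDegree) (Finset.mem_univ (j, a, b, d))⟩
  obtain ⟨m, hm⟩ : ∃ m, m = Fintype.card κ * D := ⟨_, rfl⟩
  obtain ⟨P, hP⟩ : ∃ P : (ι × Fin (m + 1) → 𝕜) → ι → 𝕜[X],
      ∀ y a, P y a = ∑ i : Fin (m + 1), monomial i (y (a, i)) := ⟨_, fun _ _ => rfl⟩
  obtain ⟨G, hG⟩ : ∃ G : ι → (MvPolynomial (ι × Fin (m + 1)) 𝕜)[X],
      ∀ a, G a = ∑ i : Fin (m + 1), monomial i (MvPolynomial.X (a, i)) := ⟨_, fun _ => rfl⟩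
  have hGP : ∀ y a, (G a).map (MvPolynomial.eval y) = P y a := fun y a => by
    rw [hG, hP, Polynomial.map_sum]
    simp
  obtain ⟨F, hF⟩ : ∃ F : κ → (MvPolynomial (ι × Fin (m + 1)) 𝕜)[X],
      ∀ j, F j = ∑ a, ∑ b, ∑ d, (c j a b d).map MvPolynomial.C * G a * G b * G d :=
    ⟨_, fun _ => rfl⟩
  have hFP : ∀ y j l, MvPolynomial.eval y ((F j).coeff l) =
      (∑ a, ∑ b, ∑ d, c j a b d * P y a * P y b * P y d).coeff l := fun y j l => by
    have e : (MvPolynomial.eval y).comp (MvPolynomial.C : 𝕜 →+* _) = RingHom.id 𝕜 := by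
      ext z
      simp
    rw [← coeff_map, hF]
    simp only [Polynomial.map_sum, Polynomial.map_mul, hGP, Polynomial.map_map, e, Polynomial.map_id]
  have hdeg : ∀ y a, (P y a).natDegree ≤ m := fun y a => by
    rw [hP]
    exact natDegree_sum_le_of_forall_le _ _ fun i _ =>
      (natDegree_monomial_le _).trans (Nat.lt_succ_iff.1 i.2)
  have hco : ∀ y a (i : Fin (m + 1)), (P y a).coeff i = y (a, i) := fun y a i => by
    rw [hP, finsetSum_coeff, Finset.sum_eq_single i]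
    · simp
    · intro i' _ hi
      rw [coeff_monomial, if_neg fun h' => hi (Fin.ext h')]
    · simp
  obtain ⟨y, hy0, hy⟩ := exists_common_zero (ι := ι × Fin (m + 1)) (κ := κ × Fin (D + 3 * m + 1))
    (by
      simp only [Fintype.card_prod, Fintype.card_fin]
      have := Nat.mul_le_mul_right (m + 1) (Nat.succ_le_of_lt h)
      nlinarith)
    (fun i => (F i.1).coeff i.2)
    (fun i => by
      have : ∀ a, P 0 a = 0 := fun a => by simp [hP]
      rw [hFP]
      simp [this])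
  refine ⟨P y, fun h0 => hy0 ?_, fun j => ?_⟩
  · funext i
    rw [← hco y i.1 i.2, h0]
    simp
  · have hd : (∑ a, ∑ b, ∑ d, c j a b d * P y a * P y b * P y d).natDegree ≤ D + 3 * m := by
      refine natDegree_sum_le_of_forall_le _ _ fun a _ => natDegree_sum_le_of_forall_le _ _
        fun b _ => natDegree_sum_le_of_forall_le _ _ fun d _ => ?_
      have h1 := natDegree_mul_le (p := c j a b d * P y a * P y b) (q := P y d)
      have h2 := natDegree_mul_le (p := c j a b d * P y a) (q := P y b)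
      have h3 := natDegree_mul_le (p := c j a b d) (q := P y a)
      have := hD j a b d
      have := hdeg y a
      have := hdeg y b
      have := hdeg y d
      omega
    ext l
    rw [coeff_zero]
    by_cases hl : l < D + 3 * m + 1
    · rw [← hFP]
      exact hy (j, ⟨l, hl⟩)
    · exact coeff_eq_zero_of_natDegree_lt (by omega)

theorem Tsen_rat {ι κ : Type} [Fintype ι] [Fintype κ] (h : 3 * Fintype.card κ < Fintype.card ι)
    (c : κ → ι → ι → ι → RatFunc 𝕜) :
    ∃ x : ι → RatFunc 𝕜, x ≠ 0 ∧ ∀ j, ∑ a, ∑ b, ∑ d, c j a b d * x a * x b * x d = 0 := by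
  obtain ⟨q, hq⟩ := IsLocalization.exist_integer_multiples_of_finite (nonZeroDivisors 𝕜[X])
    (fun i : κ × ι × ι × ι => c i.1 i.2.1 i.2.2.1 i.2.2.2)
  choose c' hc' using hq
  obtain ⟨x, hx0, hx⟩ := tsen_poly h fun j a b d => c' (j, a, b, d)
  have hinj : Function.Injective (algebraMap 𝕜[X] (RatFunc 𝕜)) := IsFractionRing.injective _ _
  refine ⟨fun a => algebraMap 𝕜[X] (RatFunc 𝕜) (x a), fun h0 => hx0 ?_, fun j => ?_⟩
  · funext a
    exact hinj ((congrFun h0 a).trans (map_zero _).symm)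
  · have hq0 : algebraMap 𝕜[X] (RatFunc 𝕜) q ≠ 0 :=
      (map_ne_zero_iff _ hinj).2 (nonZeroDivisors.coe_ne_zero q)
    refine (mul_eq_zero_iff_left hq0).1 ?_
    have := congrArg (algebraMap 𝕜[X] (RatFunc 𝕜)) (hx j)
    simp only [map_sum, map_mul, map_zero, hc', Algebra.smul_def] at this
    rw [← this]
    simp only [Finset.mul_sum, mul_assoc]

theorem tsen_ext {M : Type} [Field M] [Algebra (RatFunc 𝕜) M] [FiniteDimensional (RatFunc 𝕜) M]
    {ι : Type} [Fintype ι] (h : 3 < Fintype.card ι) (c : ι → ι → ι → M) :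
    ∃ x : ι → M, x ≠ 0 ∧ ∑ a, ∑ b, ∑ d, c a b d * x a * x b * x d = 0 := by
  obtain ⟨N, hN⟩ : ∃ N, N = Module.finrank (RatFunc 𝕜) M := ⟨_, rfl⟩
  have hN0 : 0 < N := hN ▸ Module.finrank_pos
  have e : Module.Basis (Fin N) (RatFunc 𝕜) M := Module.finBasisOfFinrankEq _ _ hN.symm
  obtain ⟨y, hy0, hy⟩ := Tsen_rat (𝕜 := 𝕜) (ι := ι × Fin N) (κ := Fin N)
    (by
      simp only [Fintype.card_prod, Fintype.card_fin]
      exact Nat.mul_lt_mul_of_pos_right h hN0)
    (fun j a b d => e.repr (c a.1 b.1 d.1 * e a.2 * e b.2 * e d.2) j)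
  refine ⟨fun a => ∑ s, y (a, s) • e s, fun h0 => hy0 ?_, ?_⟩
  · funext i
    exact Fintype.linearIndependent_iff.1 e.linearIndependent _ (congrFun h0 i.1) i.2
  · have key : ∑ a, ∑ b, ∑ d, c a b d * (∑ s, y (a, s) • e s) * (∑ s, y (b, s) • e s) *
        (∑ s, y (d, s) • e s) = ∑ a : ι × Fin N, ∑ b : ι × Fin N, ∑ d : ι × Fin N,
          (y a * y b * y d) • (c a.1 b.1 d.1 * e a.2 * e b.2 * e d.2) := by
      simp only [Fintype.sum_prod_type]
      refine Finset.sum_congr rfl fun a _ => ?_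
      refine Eq.trans ?_ Finset.sum_comm
      refine Finset.sum_congr rfl fun b _ => ?_
      have : ∀ d, c a b d * (∑ s, y (a, s) • e s) * (∑ s, y (b, s) • e s) *
          (∑ s, y (d, s) • e s) = ∑ s, ∑ t, ∑ u,
            (y (a, s) * y (b, t) * y (d, u)) • (c a b d * e s * e t * e u) := fun d => by
        rw [Finset.mul_sum _ _ (c a b d), Finset.sum_mul, Finset.sum_mul]
        refine Finset.sum_congr rfl fun s _ => ?_
        rw [Finset.mul_sum _ (fun t => y (b, t) • e t) (c a b d * y (a, s) • e s), Finset.sum_mul]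
        refine Finset.sum_congr rfl fun t _ => ?_
        rw [Finset.mul_sum]
        refine Finset.sum_congr rfl fun u _ => ?_
        simp only [Algebra.smul_def, map_mul]
        ring
      simp only [this]
      rw [Finset.sum_comm]
      exact Finset.sum_congr rfl fun s _ => Finset.sum_comm
    rw [key]
    refine e.ext_elem fun j => ?_
    rw [map_zero, Finsupp.zero_apply, ← hy j]
    simp only [map_sum, map_smul, Finsupp.finsetSum_apply, Finsupp.smul_apply, smul_eq_mul]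
    refine Finset.sum_congr rfl fun a _ => Finset.sum_congr rfl fun b _ =>
      Finset.sum_congr rfl fun d _ => ?_
    ring

theorem norm_surj {M M' : Type} [Field M] [Algebra (RatFunc 𝕜) M]
    [FiniteDimensional (RatFunc 𝕜) M] [Field M'] [Algebra M M'] [IsGalois M M']
    (h3 : Module.finrank M M' = 3) (a : M) : ∃ x : M', Algebra.norm M x = a := by
  have : FiniteDimensional M M' := Module.finite_of_finrank_pos (by omega)
  have e : Module.Basis (Fin 3) M M' := Module.finBasisOfFinrankEq _ _ h3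
  obtain ⟨A, hA⟩ : ∃ A : Option (Fin 3) → Matrix (Fin 3) (Fin 3) M,
      A = fun o => o.elim 0 fun i => Algebra.leftMulMatrix e (e i) := ⟨_, rfl⟩
  obtain ⟨δ, hδ⟩ : ∃ δ : Option (Fin 3) → M, δ = fun o => o.elim 1 fun _ => 0 := ⟨_, rfl⟩
  obtain ⟨y, hy0, hy⟩ := tsen_ext (𝕜 := 𝕜) (M := M) (ι := Option (Fin 3)) (by simp)
    (fun p q r => A p 0 0 * A q 1 1 * A r 2 2 - A p 0 0 * A q 1 2 * A r 2 1 -
      A p 0 1 * A q 1 0 * A r 2 2 + A p 0 1 * A q 1 2 * A r 2 0 + A p 0 2 * A q 1 0 * A r 2 1 -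
      A p 0 2 * A q 1 1 * A r 2 0 - a * δ p * δ q * δ r)
  have hn : Algebra.norm M (∑ i, y (some i) • e i) = a * y none ^ 3 := by
    rw [Algebra.norm_eq_matrix_det e, map_sum, Matrix.det_fin_three]
    simp only [hA, hδ, Fintype.sum_option, Fin.sum_univ_three, Option.elim_none, Option.elim_some,
      Matrix.zero_apply] at hy
    simp only [Fin.sum_univ_three, map_smul, Matrix.add_apply, Matrix.smul_apply, smul_eq_mul]
    generalize Algebra.leftMulMatrix e (e 0) = M0, Algebra.leftMulMatrix e (e 1) = M1,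
      Algebra.leftMulMatrix e (e 2) = M2 at hy ⊢
    linear_combination hy
  have hz : y none ≠ 0 := fun h0 => by
    rw [h0, zero_pow three_ne_zero, mul_zero, Algebra.norm_eq_zero_iff] at hn
    refine hy0 (funext fun o => ?_)
    cases o with
    | none => exact h0
    | some i => exact Fintype.linearIndependent_iff.1 e.linearIndependent _ hn i
  refine ⟨algebraMap M M' (y none)⁻¹ * ∑ i, y (some i) • e i, ?_⟩
  rw [map_mul, Algebra.norm_algebraMap, hn, h3]
  field_simp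

end Pool.Agent.Smith
end

-- merged part: Pool.Agent.Work.MP_60d5ce_nt.Sm.Brauer
section
/-!
# Vanishing of the second cohomology of a 3-group with values in the units

`G` is a finite 3-group acting faithfully on a field `M`.  Hypothesis: for `H ≤ H'` subgroups, `H`
normal of index three in `H'`, every element fixed by `H'` is a norm from the elements fixed by `H`.

Hint: induction on the order of a subgroup `H'` on which the cocycle is a coboundary.  Let `H` be
normal of index three in `G`, `c` trivial on `H × H` after a coboundary.  Hilbert 90 for `H` (Mathlib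
`groupCohomology.isMulCoboundary₁_of_isMulCocycle₁_of_aut_to_units`, or directly: a resolvent
`∑ f(h) * h a` is nonzero by `linearIndependent_monoidHom`) makes `c` cohomologous to an inflated
cocycle with values fixed by `H`:  first arrange `c(g, h) = 1` for `h ∈ H` (define `b(s ^ i h) =
c(s ^ i, h)`), then `h ↦ c(h, s ^ i)` is a 1-cocycle of `H`.  For the cyclic quotient, the cocycle is
a coboundary as soon as `c(1,s) c(s,s) c(s ^ 2,s)` is a norm.
-/

namespace Pool.Agent.Smith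

theorem hilbert90 {G M : Type} [Group G] [Finite G] [Field M] (φ : G →* (M ≃+* M))
    (hφ : Function.Injective φ) (f : G → M) (h0 : ∀ g, f g ≠ 0)
    (hf : ∀ g h, f (g * h) = f g * φ g (f h)) : ∃ a : M, a ≠ 0 ∧ ∀ g, f g * φ g a = a := by
  classical
  have := Fintype.ofFinite G
  have hinj : Function.Injective (fun g : G => ((φ g : M →+* M) : M →* M)) := by
    intro g g' h
    apply hφ
    ext x
    exact DFunLike.congr_fun h x
  have hli := (linearIndependent_monoidHom M M).comp _ hinj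
  rw [Fintype.linearIndependent_iff] at hli
  obtain ⟨x, hx⟩ : ∃ x : M, ∑ h, f h * φ h x ≠ 0 := by
    by_contra hn
    push Not at hn
    refine h0 1 (hli f ?_ 1)
    funext x
    rw [Finset.sum_apply]
    exact hn x
  refine ⟨_, hx, fun g => ?_⟩
  rw [map_sum, Finset.mul_sum, ← Equiv.sum_comp (Equiv.mulLeft g) (fun h => f h * φ h x)]
  refine Finset.sum_congr rfl fun h _ => ?_
  simp only [Equiv.coe_mulLeft, hf, map_mul, RingAut.mul_apply]
  ring

lemma brauer_index_top {G : Type} [Group G] [Finite G] {n : ℕ} (hG : Nat.card G = 3 ^ (n + 1)) :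
    ∃ (K : Subgroup G) (s : G), Nat.card K = 3 ^ n ∧ K.Normal ∧ s ∉ K ∧ s ^ 3 ∈ K ∧
      ∀ g, ∃ (i : ℕ) (h : G), h ∈ K ∧ g = s ^ i * h := by
  have : Fact (Nat.Prime 3) := ⟨Nat.prime_three⟩
  obtain ⟨K, hK⟩ := Sylow.exists_subgroup_card_pow_prime (G := G) 3 (n := n)
    (by rw [hG]; exact pow_dvd_pow 3 (Nat.le_succ n))
  have hi : K.index = 3 := by
    have h := K.card_mul_index
    rw [hK, hG, pow_succ] at h
    exact Nat.eq_of_mul_eq_mul_left (by positivity) h
  have hn : K.Normal := by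
    apply Subgroup.normal_of_index_eq_minFac_card
    rw [hi, hG, Nat.prime_three.pow_minFac (Nat.succ_ne_zero n)]
  obtain ⟨s, hs⟩ : ∃ s, s ∉ K := by
    by_contra h
    push Not at h
    have : K = ⊤ := eq_top_iff.mpr fun x _ => h x
    rw [this, Subgroup.index_top] at hi
    omega
  refine ⟨K, s, hK, hn, hs, by simpa [hi] using K.pow_index_mem s, fun g => ?_⟩
  have hs' : (s : G ⧸ K) ≠ 1 := fun h => hs ((QuotientGroup.eq_one_iff s).mp h)
  obtain ⟨i, hi'⟩ := mem_powers_of_prime_card (G := G ⧸ K) (p := 3) hi (g' := (g : G ⧸ K)) hs'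
  refine ⟨i, (s ^ i)⁻¹ * g, ?_, by group⟩
  rw [← QuotientGroup.eq]
  simpa using hi'

lemma brauer_index {G : Type} [Group G] [Finite G] {n : ℕ} (H : Subgroup G)
    (hH : Nat.card H = 3 ^ (n + 1)) :
    ∃ (K : Subgroup G) (s : G), Nat.card K = 3 ^ n ∧ s ∉ K ∧ s ^ 3 ∈ K ∧
      (∀ h ∈ K, s * h * s⁻¹ ∈ K) ∧ (∀ h ∈ K, s⁻¹ * h * s ∈ K) ∧
      ∀ g ∈ H, ∃ (i : ℕ) (h : G), h ∈ K ∧ g = s ^ i * h := by
  obtain ⟨K, s, hK, hn, hs, hs3, hg⟩ := brauer_index_top hH
  refine ⟨K.map H.subtype, s, ?_, ?_, ⟨s ^ 3, hs3, rfl⟩, ?_, ?_, ?_⟩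
  · rw [Subgroup.card_map_of_injective H.subtype_injective, hK]
  · rintro ⟨t, ht, e⟩
    exact hs (by rwa [← Subtype.ext e])
  · rintro _ ⟨h, hh, rfl⟩
    exact ⟨s * h * s⁻¹, hn.conj_mem h hh s, rfl⟩
  · rintro _ ⟨h, hh, rfl⟩
    exact ⟨s⁻¹ * h * s, hn.conj_mem' h hh s, rfl⟩
  · intro g hgH
    obtain ⟨i, h, hh, e⟩ := hg ⟨g, hgH⟩
    exact ⟨i, h, ⟨h, hh, rfl⟩, congrArg Subtype.val e⟩

/-- Gluing a section on `K` with a lift `u` of `s`. -/
lemma brauer_glue {G E : Type} [Group G] [Group E] (π : E →* G) (H K : Subgroup G) (s : G)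
    (hs : s ∉ K) (hs3 : s ^ 3 ∈ K) (hn : ∀ h ∈ K, s⁻¹ * h * s ∈ K)
    (hg : ∀ g ∈ H, ∃ (i : ℕ) (h : G), h ∈ K ∧ g = s ^ i * h) (v : G → E)
    (hv1 : ∀ h ∈ K, π (v h) = h) (hv2 : ∀ g ∈ K, ∀ h ∈ K, v (g * h) = v g * v h) (u : E)
    (hu : π u = s) (hu1 : ∀ h ∈ K, u * v (s⁻¹ * h * s) = v h * u) (hu3 : u ^ 3 = v (s ^ 3)) :
    ∃ w : G → E, (∀ h ∈ H, π (w h) = h) ∧ ∀ g ∈ H, ∀ h ∈ H, w (g * h) = w g * w h := by
  classical
  have hmove : ∀ (j : ℕ), ∀ h ∈ K, ∃ k ∈ K, h * s ^ j = s ^ j * k ∧ v h * u ^ j = u ^ j * v k := by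
    intro j
    induction j with
    | zero => exact fun h hh => ⟨h, hh, by simp, by simp⟩
    | succ j ih =>
      intro h hh
      obtain ⟨k, hk, e1, e2⟩ := ih h hh
      refine ⟨s⁻¹ * k * s, hn k hk, ?_, ?_⟩
      · rw [pow_succ, ← mul_assoc, e1]; group
      · rw [pow_succ, ← mul_assoc, e2, mul_assoc, mul_assoc, hu1 k hk]
  have hcube : ∀ (k : ℕ), ∀ h ∈ K, u ^ (3 * k) * v h = v (s ^ (3 * k) * h) := by
    intro k
    induction k with
    | zero => intro h _; simp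
    | succ k ih =>
      intro h hh
      rw [Nat.mul_succ, pow_add, pow_add, mul_assoc, mul_assoc, hu3, ← hv2 _ hs3 _ hh,
        ih _ (K.mul_mem hs3 hh)]
  have hd : ∀ d : ℕ, s ^ d ∈ K → ∃ k, d = 3 * k := by
    intro d hd
    have h3 : s ^ (3 * (d / 3)) ∈ K := by rw [pow_mul]; exact K.pow_mem hs3 _
    have hr : s ^ (d % 3) ∈ K := by
      have := K.mul_mem (K.inv_mem h3) hd
      rwa [show s ^ d = s ^ (3 * (d / 3)) * s ^ (d % 3) by rw [← pow_add, Nat.div_add_mod],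
        inv_mul_cancel_left] at this
    have : d % 3 = 0 ∨ d % 3 = 1 ∨ d % 3 = 2 := by omega
    rcases this with h | h | h
    · exact ⟨d / 3, by omega⟩
    · rw [h, pow_one] at hr
      exact absurd hr hs
    · rw [h] at hr
      have := K.mul_mem hs3 (K.inv_mem hr)
      rw [show s ^ 3 * (s ^ 2)⁻¹ = s by group] at this
      exact absurd this hs
  have hwd0 : ∀ (i d : ℕ), ∀ h ∈ K, ∀ h' ∈ K, s ^ i * h = s ^ (i + d) * h' →
      u ^ i * v h = u ^ (i + d) * v h' := by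
    intro i d h hh h' hh' e
    rw [pow_add, mul_assoc, mul_left_cancel_iff] at e
    have hm : s ^ d ∈ K := by
      have := K.mul_mem hh (K.inv_mem hh')
      rwa [e, mul_inv_cancel_right] at this
    obtain ⟨k, rfl⟩ := hd d hm
    rw [pow_add, mul_assoc, hcube k h' hh', e]
  have hwd : ∀ (i j : ℕ), ∀ h ∈ K, ∀ h' ∈ K, s ^ i * h = s ^ j * h' →
      u ^ i * v h = u ^ j * v h' := by
    intro i j h hh h' hh' e
    rcases le_total i j with hij | hij
    · obtain ⟨d, rfl⟩ := Nat.exists_eq_add_of_le hij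
      exact hwd0 i d h hh h' hh' e
    · obtain ⟨d, rfl⟩ := Nat.exists_eq_add_of_le hij
      exact (hwd0 j d h' hh' h hh e.symm).symm
  choose! ii hh hK he using hg
  refine ⟨fun g => u ^ ii g * v (hh g), fun g hgH => ?_, fun g hgH g' hgH' => ?_⟩
  · rw [map_mul, map_pow, hu, hv1 _ (hK g hgH), ← he g hgH]
  · obtain ⟨k, hk, e1, e2⟩ := hmove (ii g') (hh g) (hK g hgH)
    have hm := H.mul_mem hgH hgH'
    have e3 : s ^ ii (g * g') * hh (g * g') = s ^ (ii g + ii g') * (k * hh g') := by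
      rw [← he _ hm, pow_add, mul_assoc, ← mul_assoc (s ^ ii g'), ← e1, mul_assoc,
        ← he g' hgH', ← mul_assoc, ← he g hgH]
    beta_reduce
    rw [hwd _ _ _ (hK _ hm) _ (K.mul_mem hk (hK g' hgH')) e3, hv2 _ hk _ (hK g' hgH'), pow_add,
      mul_assoc, mul_assoc, ← mul_assoc (u ^ ii g'), ← e2, mul_assoc]

/-- The action on units. -/
def brauerAct {G M : Type} [Group G] [Field M] (φ : G →* (M ≃+* M)) (g : G) (a : Mˣ) : Mˣ :=
  Units.mk0 (φ g a) (by simp)

lemma brauerAct_coe {G M : Type} [Group G] [Field M] (φ : G →* (M ≃+* M)) (g : G) (a : Mˣ) :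
    (brauerAct φ g a : M) = φ g a := rfl

/-- A good lift of `s`. -/
lemma brauer_lift {G M E : Type} [Group G] [Finite G] [Field M] [Group E] (φ : G →* (M ≃+* M))
    (hφ : Function.Injective φ) (π : E →* G) (hπ : Function.Surjective π) (ι : Mˣ →* E)
    (hι : Function.Injective ι) (hπι : ∀ a, π (ι a) = 1) (hker : ∀ e, π e = 1 → ∃ a, e = ι a)
    (hconj : ∀ e a, e * ι a = ι (brauerAct φ (π e) a) * e) (K : Subgroup G) (s : G)
    (hs3 : s ^ 3 ∈ K) (hn : ∀ h ∈ K, s⁻¹ * h * s ∈ K)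
    (hN : ∀ a : M, (∀ h ∈ K, φ h a = a) → φ s a = a →
        ∃ x : M, (∀ h ∈ K, φ h x = x) ∧ x * φ s x * φ (s ^ 2) x = a) (v : G → E)
    (hv1 : ∀ h ∈ K, π (v h) = h) (hv2 : ∀ g ∈ K, ∀ h ∈ K, v (g * h) = v g * v h) :
    ∃ u : E, π u = s ∧ (∀ h ∈ K, u * v (s⁻¹ * h * s) = v h * u) ∧ u ^ 3 = v (s ^ 3) := by
  obtain ⟨u0, hu0⟩ := hπ s
  have h1 : ∀ h : K, ∃ a : Mˣ, u0 * v (s⁻¹ * h * s) = ι a * v h * u0 := by
    intro h
    obtain ⟨a, ha⟩ := hker (u0 * v (s⁻¹ * h * s) * u0⁻¹ * (v h)⁻¹) (by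
      simp only [map_mul, map_inv, hu0, hv1 _ (hn _ h.2), hv1 _ h.2]
      group)
    exact ⟨a, by rw [← ha]; group⟩
  choose f hf using h1
  have hcoc : ∀ g h : K, f (g * h) = f g * brauerAct φ g (f h) := by
    intro g h
    apply hι
    have e1 := hf (g * h)
    rw [Subgroup.coe_mul, show s⁻¹ * ((g : G) * h) * s = (s⁻¹ * g * s) * (s⁻¹ * h * s) by group,
      hv2 _ (hn _ g.2) _ (hn _ h.2), ← mul_assoc, hf g, mul_assoc _ u0, hf h,
      hv2 _ g.2 _ h.2] at e1
    have e2 := hconj (v g) (f h)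
    rw [hv1 _ g.2] at e2
    rw [map_mul]
    have e3 : ι (f g) * v g * (ι (f h) * v h * u0) =
        ι (f g) * (v g * ι (f h)) * v h * u0 := by group
    rw [e3, e2] at e1
    have e4 : ι (f g) * (ι (brauerAct φ g (f h)) * v g) * v h * u0 =
        ι (f g) * ι (brauerAct φ g (f h)) * (v g * v h) * u0 := by group
    rw [e4] at e1
    exact (mul_right_cancel (mul_right_cancel e1)).symm
  obtain ⟨a, ha0, ha⟩ := hilbert90 (G := K) (φ.comp K.subtype)
    (hφ.comp K.subtype_injective) (fun h => (f h : M)) (fun h => (f h).ne_zero)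
    (fun g h => by rw [hcoc, Units.val_mul, brauerAct_coe]; rfl)
  obtain ⟨u1, hu1⟩ : ∃ u1, u0 = ι (Units.mk0 a ha0) * u1 :=
    ⟨(ι (Units.mk0 a ha0))⁻¹ * u0, by group⟩
  have hπ1 : π u1 = s := by rw [← hu0, hu1, map_mul, hπι, one_mul]
  have P1 : ∀ h ∈ K, u1 * v (s⁻¹ * h * s) = v h * u1 := by
    intro h hh
    have e1 := hf ⟨h, hh⟩
    have e2 := hconj (v h) (Units.mk0 a ha0)
    rw [hv1 _ hh] at e2
    have e3 : f ⟨h, hh⟩ * brauerAct φ h (Units.mk0 a ha0) = Units.mk0 a ha0 :=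
      Units.ext (ha ⟨h, hh⟩)
    rw [hu1] at e1
    have e4 : ι (f ⟨h, hh⟩) * v h * (ι (Units.mk0 a ha0) * u1) =
        ι (f ⟨h, hh⟩) * (v h * ι (Units.mk0 a ha0)) * u1 := by group
    simp only at e1
    rw [e4, e2, ← mul_assoc (ι (f ⟨h, hh⟩)), ← map_mul, e3, mul_assoc (ι _), mul_assoc (ι _)] at e1
    exact mul_left_cancel e1
  obtain ⟨m, hm⟩ : ∃ m, u1 ^ 3 = ι m * v (s ^ 3) := by
    obtain ⟨m, hm⟩ := hker (u1 ^ 3 * (v (s ^ 3))⁻¹) (by
      simp only [map_mul, map_inv, map_pow, hπ1, hv1 _ hs3, mul_inv_cancel])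
    exact ⟨m, by rw [← hm]; group⟩
  have hms : φ s m = m := by
    have e1 := P1 _ hs3
    rw [show s⁻¹ * s ^ 3 * s = s ^ 3 by group] at e1
    have e2 : u1 * u1 ^ 3 = u1 ^ 3 * u1 := by group
    have e3 := hconj u1 m
    rw [hm, ← mul_assoc, e3, hπ1, mul_assoc, mul_assoc, e1] at e2
    exact congrArg Units.val (hι (mul_right_cancel e2))
  have hmK : ∀ h ∈ K, φ h m = m := by
    intro h hh
    have k1 := hn _ hh
    have k2 := hn _ k1
    have k3 := hn _ k2
    have e1 : v h * u1 ^ 3 = u1 ^ 3 * v (s⁻¹ * (s⁻¹ * (s⁻¹ * h * s) * s) * s) := by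
      rw [show u1 ^ 3 = u1 * u1 * u1 by rw [pow_succ, pow_two], ← mul_assoc, ← mul_assoc,
        ← P1 _ hh, mul_assoc u1 _ u1, ← P1 _ k1, ← mul_assoc, mul_assoc _ _ u1, ← P1 _ k2,
        ← mul_assoc]
    have e2 := hconj (v h) m
    rw [hm, ← mul_assoc, e2, hv1 _ hh, mul_assoc, mul_assoc, ← hv2 _ hh _ hs3, ← hv2 _ hs3 _ k3,
      show s ^ 3 * (s⁻¹ * (s⁻¹ * (s⁻¹ * h * s) * s) * s) = h * s ^ 3 by
        rw [pow_succ, pow_two]; group] at e1
    exact congrArg Units.val (hι (mul_right_cancel e1))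
  obtain ⟨x, hxK, hx⟩ := hN m hmK hms
  have hx0 : x ≠ 0 := by
    rintro rfl
    exact m.ne_zero (by rw [← hx]; simp)
  obtain ⟨u2, hu2⟩ : ∃ u2, u1 = ι (Units.mk0 x hx0) * u2 :=
    ⟨(ι (Units.mk0 x hx0))⁻¹ * u1, by group⟩
  have hπ2 : π u2 = s := by rw [← hπ1, hu2, map_mul, hπι, one_mul]
  refine ⟨u2, hπ2, fun h hh => ?_, ?_⟩
  · have e1 := P1 h hh
    have e2 := hconj (v h) (Units.mk0 x hx0)
    rw [hv1 _ hh, show brauerAct φ h (Units.mk0 x hx0) = Units.mk0 x hx0 from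
      Units.ext (hxK h hh)] at e2
    rw [hu2, ← mul_assoc (v h), e2, mul_assoc (ι _), mul_assoc (ι _)] at e1
    exact mul_left_cancel e1
  · have e1 := hconj u2 (Units.mk0 x hx0)
    have e2 := hconj (u2 ^ 2) (Units.mk0 x hx0)
    rw [hπ2] at e1
    rw [map_pow, hπ2] at e2
    have e3 : Units.mk0 x hx0 * brauerAct φ s (Units.mk0 x hx0) *
        brauerAct φ (s ^ 2) (Units.mk0 x hx0) = m := Units.ext hx
    have e4 : (ι (Units.mk0 x hx0) * u2) ^ 3 = ι (Units.mk0 x hx0) * (u2 * ι (Units.mk0 x hx0)) *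
        u2 * ι (Units.mk0 x hx0) * u2 := by
      rw [pow_succ, pow_two]; group
    have e5 : ι (Units.mk0 x hx0) * (ι (brauerAct φ s (Units.mk0 x hx0)) * u2) *
        u2 * ι (Units.mk0 x hx0) * u2 = ι (Units.mk0 x hx0) *
        ι (brauerAct φ s (Units.mk0 x hx0)) * (u2 ^ 2 * ι (Units.mk0 x hx0)) * u2 := by
      rw [pow_two]; group
    rw [hu2, e4, e1, e5, e2, ← e3, map_mul, map_mul] at hm
    have e6 : ∀ y z : E, y * (z * u2 ^ 2) * u2 = y * z * u2 ^ 3 := by
      intro y z; group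
    rw [e6] at hm
    exact mul_left_cancel hm

lemma brauer_split {G M E : Type} [Group G] [Finite G] [Field M] [Group E] (φ : G →* (M ≃+* M))
    (hφ : Function.Injective φ)
    (hN : ∀ (H : Subgroup G) (s : G), s ∉ H → s ^ 3 ∈ H → (∀ h ∈ H, s * h * s⁻¹ ∈ H) →
      ∀ a : M, (∀ h ∈ H, φ h a = a) → φ s a = a →
        ∃ x : M, (∀ h ∈ H, φ h x = x) ∧ x * φ s x * φ (s ^ 2) x = a)
    (π : E →* G) (hπ : Function.Surjective π) (ι : Mˣ →* E)
    (hι : Function.Injective ι) (hπι : ∀ a, π (ι a) = 1) (hker : ∀ e, π e = 1 → ∃ a, e = ι a)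
    (hconj : ∀ e a, e * ι a = ι (brauerAct φ (π e) a) * e) (n : ℕ) :
    ∀ H : Subgroup G, Nat.card H = 3 ^ n →
      ∃ w : G → E, (∀ h ∈ H, π (w h) = h) ∧ ∀ g ∈ H, ∀ h ∈ H, w (g * h) = w g * w h := by
  induction n with
  | zero =>
    intro H hH
    rw [pow_zero, Subgroup.card_eq_one] at hH
    subst hH
    refine ⟨fun _ => 1, fun h hh => ?_, fun _ _ _ _ => by simp⟩
    rw [map_one, Subgroup.mem_bot.mp hh]
  | succ n ih =>
    intro H hH
    obtain ⟨K, s, hK, hs, hs3, hn1, hn2, hg⟩ := brauer_index H hH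
    obtain ⟨v, hv1, hv2⟩ := ih K hK
    obtain ⟨u, hu, hu1, hu3⟩ := brauer_lift φ hφ π hπ ι hι hπι hker hconj K s hs3 hn2
      (hN K s hs hs3 hn1) v hv1 hv2
    exact brauer_glue π H K s hs hs3 hn2 hg v hv1 hv2 u hu hu1 hu3

/-- Data of a cocycle. -/
structure BrauerData (G M : Type) [Group G] [Field M] where
  φ : G →* (M ≃+* M)
  c : G → G → M
  h0 : ∀ g h, c g h ≠ 0
  hc : ∀ g h l, φ g (c h l) * c g (h * l) = c (g * h) l * c g h

/-- The extension defined by a cocycle. -/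
structure BrauerExt {G M : Type} [Group G] [Field M] (D : BrauerData G M) where
  m : M
  g : G
  hm : m ≠ 0

section Ext

variable {G M : Type} [Group G] [Field M] {D : BrauerData G M}

lemma BrauerExt.ext' {a b : BrauerExt D} (h1 : a.m = b.m) (h2 : a.g = b.g) : a = b := by
  cases a; cases b; cases h1; cases h2; rfl

lemma BrauerData.c_one_left (D : BrauerData G M) (l : G) : D.c 1 l = D.c 1 1 := by
  have h := D.hc 1 1 l
  simp only [map_one, one_mul, RingAut.one_apply] at h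
  exact mul_left_cancel₀ (D.h0 1 l) h

lemma BrauerData.c_one_right (D : BrauerData G M) (g : G) : D.c g 1 = D.φ g (D.c 1 1) := by
  have h := D.hc g 1 1
  simp only [mul_one] at h
  exact (mul_right_cancel₀ (D.h0 g 1) h).symm

instance : Mul (BrauerExt D) :=
  ⟨fun a b => ⟨a.m * D.φ a.g b.m * D.c a.g b.g, a.g * b.g,
    mul_ne_zero (mul_ne_zero a.hm (by simpa using b.hm)) (D.h0 _ _)⟩⟩

instance : One (BrauerExt D) := ⟨⟨(D.c 1 1)⁻¹, 1, inv_ne_zero (D.h0 1 1)⟩⟩

instance : Inv (BrauerExt D) :=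
  ⟨fun a => ⟨(D.c 1 1 * D.φ a.g⁻¹ a.m * D.c a.g⁻¹ a.g)⁻¹, a.g⁻¹,
    inv_ne_zero (mul_ne_zero (mul_ne_zero (D.h0 1 1) (by simpa using a.hm)) (D.h0 _ _))⟩⟩

lemma BrauerExt.mul_m (a b : BrauerExt D) : (a * b).m = a.m * D.φ a.g b.m * D.c a.g b.g := rfl
lemma BrauerExt.mul_g (a b : BrauerExt D) : (a * b).g = a.g * b.g := rfl
lemma BrauerExt.one_m : (1 : BrauerExt D).m = (D.c 1 1)⁻¹ := rfl
lemma BrauerExt.one_g : (1 : BrauerExt D).g = 1 := rfl
lemma BrauerExt.inv_m (a : BrauerExt D) :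
    a⁻¹.m = (D.c 1 1 * D.φ a.g⁻¹ a.m * D.c a.g⁻¹ a.g)⁻¹ := rfl
lemma BrauerExt.inv_g (a : BrauerExt D) : a⁻¹.g = a.g⁻¹ := rfl

instance : Group (BrauerExt D) :=
  Group.ofLeftAxioms
    (fun a b c => by
      refine BrauerExt.ext' ?_ (mul_assoc _ _ _)
      simp only [BrauerExt.mul_m, BrauerExt.mul_g, map_mul, RingAut.mul_apply]
      linear_combination (-(a.m * D.φ a.g b.m * D.φ a.g (D.φ b.g c.m))) * D.hc a.g b.g c.g)
    (fun a => by
      refine BrauerExt.ext' ?_ (one_mul _)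
      have := D.h0 1 1
      simp only [BrauerExt.mul_m, BrauerExt.one_m, BrauerExt.one_g, map_one, RingAut.one_apply,
        D.c_one_left a.g]
      field_simp)
    (fun a => by
      refine BrauerExt.ext' ?_ (inv_mul_cancel _)
      have := D.h0 1 1
      have := D.h0 a.g⁻¹ a.g
      have : D.φ a.g⁻¹ a.m ≠ 0 := by simpa using a.hm
      simp only [BrauerExt.mul_m, BrauerExt.one_m, BrauerExt.inv_m, BrauerExt.inv_g]
      field_simp)

/-- The projection. -/
def BrauerExt.proj (D : BrauerData G M) : BrauerExt D →* G where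
  toFun a := a.g
  map_one' := rfl
  map_mul' _ _ := rfl

/-- The inclusion of the units. -/
def BrauerExt.incl (D : BrauerData G M) : Mˣ →* BrauerExt D :=
  MonoidHom.mk' (fun a => ⟨a * (D.c 1 1)⁻¹, 1, mul_ne_zero a.ne_zero (inv_ne_zero (D.h0 1 1))⟩)
    (fun a b => by
      refine BrauerExt.ext' ?_ (mul_one _).symm
      have := D.h0 1 1
      simp only [BrauerExt.mul_m, map_one, RingAut.one_apply, Units.val_mul]
      field_simp)

lemma BrauerExt.incl_m (a : Mˣ) : (BrauerExt.incl D a).m = a * (D.c 1 1)⁻¹ := rfl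
lemma BrauerExt.incl_g (a : Mˣ) : (BrauerExt.incl D a).g = 1 := rfl

end Ext

theorem brauer_three {G M : Type} [Group G] [Finite G] [Field M] (hG : IsPGroup 3 G)
    (φ : G →* (M ≃+* M)) (hφ : Function.Injective φ)
    (hN : ∀ (H : Subgroup G) (s : G), s ∉ H → s ^ 3 ∈ H → (∀ h ∈ H, s * h * s⁻¹ ∈ H) →
      ∀ a : M, (∀ h ∈ H, φ h a = a) → φ s a = a →
        ∃ x : M, (∀ h ∈ H, φ h x = x) ∧ x * φ s x * φ (s ^ 2) x = a)
    (c : G → G → M) (h0 : ∀ g h, c g h ≠ 0)
    (hc : ∀ g h l, φ g (c h l) * c g (h * l) = c (g * h) l * c g h) :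
    ∃ b : G → M, (∀ g, b g ≠ 0) ∧ ∀ g h, c g h * b (g * h) = b g * φ g (b h) := by
  have : Fact (Nat.Prime 3) := ⟨Nat.prime_three⟩
  obtain ⟨n, hn⟩ := IsPGroup.iff_card.mp hG
  let D : BrauerData G M := ⟨φ, c, h0, hc⟩
  have h11 := D.h0 1 1
  obtain ⟨w, hw1, hw2⟩ := brauer_split φ hφ hN (BrauerExt.proj D)
    (fun g => ⟨⟨1, g, one_ne_zero⟩, rfl⟩) (BrauerExt.incl D)
    (fun a b h => Units.ext (mul_right_cancel₀ (inv_ne_zero h11) (congrArg BrauerExt.m h)))
    (fun _ => rfl)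
    (fun e he => ⟨Units.mk0 (e.m * D.c 1 1) (mul_ne_zero e.hm h11),
      BrauerExt.ext' (by rw [BrauerExt.incl_m, Units.val_mk0, mul_inv_cancel_right₀ h11]) he⟩)
    (fun e a => by
      refine BrauerExt.ext' ?_ ((mul_one _).trans (one_mul _).symm)
      have h2 : D.φ e.g (D.c 1 1) ≠ 0 := by simpa using h11
      have h3 : φ (BrauerExt.proj D e) a = D.φ e.g a := rfl
      simp only [BrauerExt.mul_m, BrauerExt.incl_m, BrauerExt.incl_g, brauerAct_coe, map_mul,
        map_inv₀, map_one, RingAut.one_apply, D.c_one_left e.g, D.c_one_right e.g, h3]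
      field_simp)
    n ⊤ (by rw [Subgroup.card_top, hn])
  refine ⟨fun g => (w g).m⁻¹, fun g => inv_ne_zero (w g).hm, fun g h => ?_⟩
  have e1 : (w g).g = g := hw1 g trivial
  have e2 : (w h).g = h := hw1 h trivial
  have e3 : (w (g * h)).m = (w g).m * φ g (w h).m * c g h := by
    rw [hw2 g trivial h trivial, BrauerExt.mul_m, e1, e2]
  have := (w g).hm
  have : φ g (w h).m ≠ 0 := by simpa using (w h).hm
  have := h0 g h
  simp only [e3, map_inv₀]
  field_simp

end Pool.Agent.Smith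
end

-- merged part: Pool.Agent.Work.MP_60d5ce_nt.Sm.H2
section
/-!
# The geometric group has no second cohomology with values in `F3`

Hint.  `θ` comes from the finite 3-group `G = Gal(MU U / RatFunc Kb)` (`Adm.exists_res`,
`Adm.card_gal`, `Adm.index_pow`).  `c = ζ ^ θ` is a coboundary of `b : G → M` by `brauer_three`; its
norm hypothesis is `norm_surj` for the fixed fields of `H ⊔ <s>` and `H`.  Then `b ^ 3` is a
1-cocycle, `b g ^ 3 * g a = a` by `hilbert90`.  With `α ^ 3 = a` in `Ω`, `b g * g α / α` is a cube root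
of unity `ζ ^ β g`, and `θ = dβ` on `WG0`.  Smoothness: `adm_core` for `H = {u ∈ U | u α = α}`.
Extend `β` by zero outside `WG0`.
-/

namespace Pool.Agent.Smith

section norm

variable {𝕜 : Type} [Field 𝕜] [IsAlgClosed 𝕜] {L : Type} [Field L] [Algebra (RatFunc 𝕜) L]
  [FiniteDimensional (RatFunc 𝕜) L]

theorem H2_cyclic (σ : L ≃ₐ[RatFunc 𝕜] L) (h1 : σ ≠ 1) (h3 : σ ^ 3 = 1) (a : L) (ha : σ a = a) :
    ∃ x : L, x * σ x * σ (σ x) = a := by
  classical
  have : Fact (Nat.Prime 3) := ⟨Nat.prime_three⟩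
  have hord : orderOf σ = 3 := orderOf_eq_prime h3 h1
  let M := IntermediateField.fixedField (Subgroup.zpowers σ)
  have hgal : IsGalois M L := IsGalois.of_fixed_field L (Subgroup.zpowers σ)
  have hfin : Module.finrank M L = 3 := by
    rw [IntermediateField.finrank_fixedField_eq_card, Nat.card_zpowers, hord]
  have hmem : a ∈ M := by
    rw [IntermediateField.mem_fixedField_iff]
    intro f hf
    exact (Subgroup.zpowers_le.2 (show σ ∈ MulAction.stabilizer (L ≃ₐ[RatFunc 𝕜] L) a from ha)) hf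
  obtain ⟨x, hx⟩ := norm_surj (𝕜 := 𝕜) (M := M) (M' := L) hfin ⟨a, hmem⟩
  let τ : L ≃ₐ[M] L := { σ.toRingEquiv with
    commutes' := fun c => (IntermediateField.mem_fixedField_iff _ _).1 c.2 σ
      (Subgroup.mem_zpowers σ) }
  have hτ : ∀ y, τ y = σ y := fun _ => rfl
  have n1 : τ ≠ 1 := fun h => h1 (AlgEquiv.ext fun y => by rw [← hτ, h]; rfl)
  have n2 : τ * τ ≠ 1 := fun h => h1 (by
    have e : σ * σ = 1 := AlgEquiv.ext fun y => by
      have := congrArg (fun f : L ≃ₐ[M] L => f y) h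
      exact this
    rw [pow_succ, sq, e, one_mul] at h3
    exact h3)
  have n3 : τ ≠ τ * τ := fun h => n1 (left_eq_mul.1 h)
  have hu : ({1, τ, τ * τ} : Finset (L ≃ₐ[M] L)) = Finset.univ := by
    refine Finset.eq_univ_of_card _ ?_
    rw [← Nat.card_eq_fintype_card, IsGalois.card_aut_eq_finrank, hfin]
    exact Finset.card_eq_three.2 ⟨_, _, _, n1.symm, n2.symm, n3, rfl⟩
  have h := Algebra.norm_eq_prod_automorphisms M x
  rw [hx, ← hu, Finset.prod_insert (by simp [n1.symm, n2.symm]), Finset.prod_pair n3] at h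
  refine ⟨x, ?_⟩
  rw [mul_assoc]
  exact h.symm

theorem H2_norm (H : Subgroup (L ≃ₐ[RatFunc 𝕜] L)) (s : L ≃ₐ[RatFunc 𝕜] L) (hs : s ∉ H)
    (h3 : s ^ 3 ∈ H) (hn : ∀ h ∈ H, s * h * s⁻¹ ∈ H) (a : L) (ha : ∀ h ∈ H, h a = a)
    (hsa : s a = a) : ∃ x : L, (∀ h ∈ H, h x = x) ∧ x * s x * (s ^ 2) x = a := by
  let N := IntermediateField.fixedField H
  have hn' : ∀ h ∈ H, s⁻¹ * h * s ∈ H := fun h hh => by
    have := H.mul_mem (H.mul_mem (H.inv_mem h3) (hn _ (hn h hh))) h3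
    convert this using 1
    group
  have hmap : ∀ y : N, s y ∈ N := fun y => by
    rw [IntermediateField.mem_fixedField_iff]
    intro h hh
    have := (IntermediateField.mem_fixedField_iff _ _).1 y.2 _ (hn' h hh)
    rw [AlgEquiv.mul_apply, AlgEquiv.mul_apply, AlgEquiv.aut_inv, AlgEquiv.symm_apply_eq] at this
    exact this
  let f : N →ₐ[RatFunc 𝕜] N := ((s : L →ₐ[RatFunc 𝕜] L).comp N.val).codRestrict
    N.toSubalgebra hmap
  let σ : N ≃ₐ[RatFunc 𝕜] N := AlgEquiv.ofBijective f f.bijective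
  have hσ : ∀ y : N, (σ y : L) = s y := fun _ => rfl
  have n1 : σ ≠ 1 := fun h => hs (by
    rw [← IntermediateField.fixingSubgroup_fixedField H, IntermediateField.mem_fixingSubgroup_iff]
    intro y hy
    rw [← hσ ⟨y, hy⟩, h]
    rfl)
  have n3 : σ ^ 3 = 1 := AlgEquiv.ext fun y => Subtype.ext (by
    have := (IntermediateField.mem_fixedField_iff _ _).1 y.2 _ h3
    rw [pow_three, AlgEquiv.mul_apply, AlgEquiv.mul_apply] at this ⊢
    rw [hσ, hσ, hσ]
    exact this)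
  obtain ⟨x, hx⟩ := H2_cyclic σ n1 n3 ⟨a, (IntermediateField.mem_fixedField_iff _ _).2 ha⟩
    (Subtype.ext hsa)
  refine ⟨x, (IntermediateField.mem_fixedField_iff _ _).1 x.2, ?_⟩
  rw [sq, AlgEquiv.mul_apply]
  exact congrArg Subtype.val hx

/-- A cocycle of cube roots of unity on a 3-group of automorphisms. -/
theorem H2_fin (hG : IsPGroup 3 (L ≃ₐ[RatFunc 𝕜] L)) (z : L) (hz : z ^ 3 = 1)
    (hfix : ∀ x : L ≃ₐ[RatFunc 𝕜] L, x z = z)
    (θ : (L ≃ₐ[RatFunc 𝕜] L) → (L ≃ₐ[RatFunc 𝕜] L) → F3) (hθ : IsCoc2 θ) :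
    ∃ (b : (L ≃ₐ[RatFunc 𝕜] L) → L) (a : L), a ≠ 0 ∧ (∀ x, b x ^ 3 * x a = a) ∧
      ∀ x y, z ^ (θ x y).val * b (x * y) = b x * x (b y) := by
  have z0 : z ≠ 0 := fun h => by
    rw [h, zero_pow three_ne_zero] at hz
    exact zero_ne_one hz
  let φ : (L ≃ₐ[RatFunc 𝕜] L) →* (L ≃+* L) := MulSemiringAction.toRingAut _ L
  have hφ : ∀ x y, φ x y = x y := fun _ _ => rfl
  have hinj : Function.Injective φ := fun x y h => AlgEquiv.ext fun c => by
    rw [← hφ, ← hφ, h]
  obtain ⟨b, hb0, hb⟩ := brauer_three hG φ hinj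
    (fun H s h1 h2 h3 a h4 h5 => H2_norm H s h1 h2 h3 a h4 h5)
    (fun x y => z ^ (θ x y).val) (fun _ _ => pow_ne_zero _ z0) (fun g h l => by
      rw [hφ, map_pow, hfix, ← GalKum_pow_add hz, ← GalKum_pow_add hz]
      congr 2
      linear_combination hθ g h l)
  obtain ⟨a, ha0, ha⟩ := hilbert90 φ hinj (fun x => b x ^ 3) (fun x => pow_ne_zero _ (hb0 x))
    (fun g h => by
      have e : (z ^ (θ g h).val) ^ 3 = 1 := by rw [← pow_mul, mul_comm, pow_mul, hz, one_pow]
      rw [map_pow, ← mul_pow, ← hb, mul_pow, e, one_mul])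
  exact ⟨b, a, ha0, ha, hb⟩

end norm

variable {k : Type} [Field k] [Fintype k] {Ω : Type} [Field Ω] [Algebra (RatFunc k) Ω]
  [Algebra k Ω] [IsScalarTower k (RatFunc k) Ω] [IsSepClosure (RatFunc k) Ω]

theorem h2_geom {ζ : k} (hζ : IsPrimitiveRoot ζ 3) (θ : WG k Ω → WG k Ω → F3)
    {U : Subgroup (WG k Ω)} (hU : Adm U)
    (hs : ∀ g h, ∀ u ∈ U, ∀ u' ∈ U, θ (g * u) (h * u') = θ g h) (hθ : IsCoc2 θ) :
    ∃ (b : WG k Ω → F3) (U' : Subgroup (WG k Ω)), Adm U' ∧ (∀ g, ∀ u ∈ U', b (g * u) = b g) ∧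
      ∀ g h, wdeg g = 0 → wdeg h = 0 → θ g h = b g + b h - b (g * h) := by
  classical
  have := hU.finiteDimensional
  obtain ⟨π, hπs, hπ, hπ1⟩ := hU.exists_res
  have hG : IsPGroup 3 (MU U ≃ₐ[RatFunc (Kb k Ω)] MU U) := by
    obtain ⟨j, hj⟩ := hU.index_pow
    exact IsPGroup.of_card (hU.card_gal.trans hj)
  choose σ hσ using hπs
  have hθπ : ∀ g h : WG0 k Ω, θ (σ (π g)).1 (σ (π h)).1 = θ g.1 h.1 := by
    have e : ∀ g : WG0 k Ω, ((σ (π g))⁻¹ * g).1 ∈ U := fun g =>
      (hπ1 _).1 (by rw [map_mul, map_inv, hσ, inv_mul_cancel])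
    intro g h
    rw [← hs _ _ _ (e g) _ (e h)]
    simp
  have hzp := GalKum_prim (Ω := Ω) hζ
  obtain ⟨z, hz⟩ : ∃ z, z = algebraMap k Ω ζ := ⟨_, rfl⟩
  rw [← hz] at hzp
  have hzfix : ∀ g : WG k Ω, gal g z = z := fun g => by rw [hz]; exact gal_algebraMap g ζ
  have hzm : z ∈ MU U := (mem_MU hU.le).2 fun u _ => hzfix u
  have z3 : z ^ 3 = 1 := hzp.pow_eq_one
  obtain ⟨b, a, ha0, ha, hb⟩ := H2_fin hG ⟨z, hzm⟩ (Subtype.ext z3)
    (fun x => Subtype.ext (by rw [← hσ x, hπ]; exact hzfix _))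
    (fun x y => θ (σ x).1 (σ y).1) (fun x y w => by
      have e1 := hθπ (σ x * σ y) (σ w)
      have e2 := hθπ (σ x) (σ y * σ w)
      simp only [map_mul, hσ] at e1 e2
      simp only [e1, e2]
      exact hθ _ _ _)
  have h3 : (3 : k) ≠ 0 := by exact_mod_cast hζ.neZero'.ne
  obtain ⟨α, hα⟩ : ∃ α : Ω, α ^ 3 = a := ⟨_, cbrt_spec (k := k) h3 _⟩
  have ha0' : (a : Ω) ≠ 0 := fun h => ha0 (Subtype.ext h)
  have hα0 : α ≠ 0 := fun h => ha0' (by rw [← hα, h, zero_pow three_ne_zero])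
  have hβ : ∀ g : WG0 k Ω, ∃ n : F3, (b (π g) : Ω) * gal g.1 α / α = z ^ n.val := fun g => by
    refine GalKum_root hzp ?_
    have e : (b (π g) : Ω) ^ 3 * gal g.1 a = a := by
      rw [← hπ]
      exact congrArg Subtype.val (ha (π g))
    rw [div_pow, mul_pow, ← map_pow, hα, e, div_self ha0']
  choose β hβ using hβ
  have hinj : ∀ m n : F3, z ^ m.val = z ^ n.val → m = n := fun m n h => by
    rw [← GalKum_lg hzp m, h, GalKum_lg hzp n]
  let H : Subgroup (WG k Ω) := U ⊓ (MulAction.stabilizer (Gam k Ω) α).comap gal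
  have mH : ∀ g, g ∈ H ↔ g ∈ U ∧ gal g α = α := fun g => Iff.rfl
  obtain ⟨S, hS⟩ := hU.2.2.1
  have hH : Adm H.normalCore := by
    refine adm_core H (inf_le_left.trans hU.le) (insert α S) (fun g hg h => (mH g).2
      ⟨hS g hg fun c hc => h c (Finset.mem_insert_of_mem hc), h α (Finset.mem_insert_self _ _)⟩)
      fun g hg => ?_
    obtain ⟨j, hj⟩ := hU.2.2.2 g hg
    refine ⟨j + 1, ?_⟩
    rw [pow_succ, pow_mul]
    generalize g ^ 3 ^ j = u at hj
    refine (mH _).2 ⟨U.pow_mem hj 3, ?_⟩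
    obtain ⟨n, hn⟩ := GalKum_root (u := gal u α / α) hzp (by
      rw [div_pow, ← map_pow, hα, (mem_MU hU.le).1 a.2 u hj, div_self ha0'])
    have e := (div_eq_iff hα0).1 hn
    have e3 : (z ^ n.val) ^ 3 = 1 := by rw [← pow_mul, mul_comm, pow_mul, z3, one_pow]
    rw [map_pow, pow_three, AlgEquiv.mul_apply, AlgEquiv.mul_apply]
    simp only [e, map_mul, map_pow, hzfix]
    linear_combination α * e3
  refine ⟨fun g => if h : wdeg g = 0 then β ⟨g, h⟩ else 0, H.normalCore, hH, fun g u hu => ?_,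
    fun g h hg hh => ?_⟩
  · obtain ⟨hu1, hu2⟩ := (mH u).1 (H.normalCore_le hu)
    have hu0 : wdeg u = 0 := hU.le hu1
    by_cases hg : wdeg g = 0
    · have hgu : wdeg (g * u) = 0 := by rw [wdeg_mul, hg, hu0, add_zero]
      simp only [dif_pos hg, dif_pos hgu]
      refine hinj _ _ ?_
      rw [← hβ, ← hβ]
      have e : π ⟨g * u, hgu⟩ = π ⟨g, hg⟩ := by
        rw [show (⟨g * u, hgu⟩ : WG0 k Ω) = ⟨g, hg⟩ * ⟨u, hu0⟩ from rfl, map_mul,
          (hπ1 ⟨u, hu0⟩).2 hu1, mul_one]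
      rw [e]
      simp only [map_mul, AlgEquiv.mul_apply, hu2]
    · have hgu : ¬ wdeg (g * u) = 0 := by rw [wdeg_mul, hu0, add_zero]; exact hg
      simp only [dif_neg hg, dif_neg hgu]
  · have hgh : wdeg (g * h) = 0 := by rw [wdeg_mul, hg, hh, add_zero]
    simp only [dif_pos hg, dif_pos hh, dif_pos hgh]
    rw [eq_sub_iff_add_eq]
    refine hinj _ _ ?_
    rw [GalKum_pow_add z3, GalKum_pow_add z3, ← hβ, ← hβ ⟨g, hg⟩]
    have e1 : z ^ (θ g h).val * (b (π ⟨g * h, hgh⟩) : Ω) =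
        b (π ⟨g, hg⟩) * gal g (b (π ⟨h, hh⟩)) := by
      have := congrArg Subtype.val (hb (π ⟨g, hg⟩) (π ⟨h, hh⟩))
      rw [hθπ, ← map_mul] at this
      rw [← hπ ⟨g, hg⟩]
      exact this
    have e2 : (b (π ⟨h, hh⟩) : Ω) * gal h α = z ^ (β ⟨h, hh⟩).val * α :=
      (div_eq_iff hα0).1 (hβ ⟨h, hh⟩)
    have e3 := congrArg (gal g) e2
    simp only [map_mul, map_pow, hzfix] at e3
    simp only [map_mul, AlgEquiv.mul_apply]
    field_simp
    linear_combination gal g (gal h α) * e1 + (b (π ⟨g, hg⟩) : Ω) * e3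

end Pool.Agent.Smith
end
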