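import Mathlib
import Pool.Agent.Work.MP_60d5ce_nt.Sm.LocEx
import Pool.Agent.Work.MP_60d5ce_nt.Sm.H2

-- merged part: Pool.Agent.Work.MP_60d5ce_nt.Sm.Stepanov
section
-- merged part: Pool.Agent.Work.MP_60d5ce_nt.Sm.Crv
section
/-!
# Galois covers of the line given by absolute values; spaces of functions with bounded poles

Hints.
* `mem_LL_iff`: for `f ∈ LL m` the coefficients of `∏ (X - h f)` lie in `RatFunc 𝕜`, have size at most
  one at all finite points, so are polynomials, and their size at infinity bounds the degree.  The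
  converse is the ultrametric inequality.
* `card_zeros`: the norm `∏ h f` is a nonzero polynomial of degree at most `N m`; at `x ∉ Ram` each
  small factor has size at most `1/2`.
* `exists_ord`: `card_zeros`-like, the order of `f` at `x` is at most the order of the norm.
* `finrank_le`: `N m + 1` points outside `Ram`; the residue at a point is a linear form (`res`).
* `exists_ord_basis`: induction on the dimension, or: the orders taken by nonzero elements of the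
  space form a set with as many elements as the dimension.
-/

namespace Pool.Agent.Smith

open Polynomial

noncomputable section

variable (𝕜 M : Type) [Field 𝕜] [Field M] [Algebra 𝕜 M] [Algebra (RatFunc 𝕜) M]

/-- the coordinate -/
def tM : M := algebraMap (RatFunc 𝕜) M RatFunc.X

/-- one absolute value above every point of the line -/
structure Crv where
  w : Option 𝕜 → AbsoluteValue M ℝ
  na : ∀ y, IsNonarchimedean (w y)
  w_fin : ∀ (x : 𝕜) (p : 𝕜[X]), p ≠ 0 →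
    w (some x) (aeval (tM 𝕜 M) p) = 2 ^ (-(p.rootMultiplicity x : ℤ))
  w_inf : ∀ p : 𝕜[X], p ≠ 0 → w none (aeval (tM 𝕜 M) p) = 2 ^ (p.natDegree : ℤ)
  res : ∀ y a, w y a ≤ 1 → ∃ c : 𝕜, w y (a - algebraMap 𝕜 M c) < 1
  Ram : Finset 𝕜
  disc : ∀ x ∉ Ram, ∀ a, a ≠ 0 → ∃ n : ℤ, w (some x) a = 2 ^ n
  pgrp : IsPGroup 3 (M ≃ₐ[RatFunc 𝕜] M)
  three : (3 : 𝕜) ≠ 0

variable {𝕜 M} [IsScalarTower 𝕜 (RatFunc 𝕜) M]

theorem crv_aeval (p : 𝕜[X]) :
    aeval (tM 𝕜 M) p = algebraMap (RatFunc 𝕜) M (algebraMap 𝕜[X] (RatFunc 𝕜) p) := by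
  rw [tM, aeval_algebraMap_apply, RatFunc.aeval_X_left_eq_algebraMap]

theorem crv_fix (h : M ≃ₐ[RatFunc 𝕜] M) (p : 𝕜[X]) : h (aeval (tM 𝕜 M) p) = aeval (tM 𝕜 M) p := by
  rw [crv_aeval, AlgEquiv.commutes]

theorem crv_fix_const (h : M ≃ₐ[RatFunc 𝕜] M) (c : 𝕜) :
    h (algebraMap 𝕜 M c) = algebraMap 𝕜 M c := by
  rw [IsScalarTower.algebraMap_apply 𝕜 (RatFunc 𝕜) M, AlgEquiv.commutes]

theorem crv_root {w : AbsoluteValue M ℝ} (hw : IsNonarchimedean w) {B : ℝ} (hB : 0 < B) {n : ℕ}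
    (hn : 0 < n) {c : ℕ → M} (hc : ∀ i < n, w (c i) ≤ B ^ (n - i)) {g : M}
    (h : g ^ n + ∑ i ∈ Finset.range n, c i * g ^ i = 0) : w g ≤ B := by
  by_contra h1
  rw [not_le] at h1
  obtain ⟨i, hi, h2⟩ := hw.finset_image_add_of_nonempty (fun i => c i * g ^ i)
    (Finset.nonempty_range_iff.2 hn.ne')
  have hi' := Finset.mem_range.1 hi
  rw [eq_neg_of_add_eq_zero_right h, w.map_neg, map_pow, map_mul, map_pow,
    ← Nat.sub_add_cancel hi'.le, pow_add] at h2
  have h3 := (hc i hi').trans_lt (pow_lt_pow_left₀ h1 hB.le (Nat.sub_ne_zero_of_lt hi'))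
  exact (mul_lt_mul_of_pos_right h3 (pow_pos (hB.trans h1) i)).not_ge h2

namespace Crv

variable (C : Crv 𝕜 M)

omit [IsScalarTower 𝕜 (RatFunc 𝕜) M] in
theorem crv_const (y : Option 𝕜) {c : 𝕜} (hc : c ≠ 0) : C.w y (algebraMap 𝕜 M c) = 1 := by
  rw [← aeval_C (tM 𝕜 M)]
  cases y with
  | none => rw [C.w_inf _ (C_ne_zero.2 hc), natDegree_C, Nat.cast_zero, zpow_zero]
  | some x => rw [C.w_fin x _ (C_ne_zero.2 hc), rootMultiplicity_C, Nat.cast_zero, neg_zero, zpow_zero]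

omit [IsScalarTower 𝕜 (RatFunc 𝕜) M] in
theorem crv_step {x : 𝕜} (hx : x ∉ C.Ram) {k : ℕ} {g : M} (h : C.w (some x) g < 2 ^ (-(k : ℤ))) :
    C.w (some x) g ≤ 2 ^ (-((k + 1 : ℕ) : ℤ)) := by
  rcases eq_or_ne g 0 with rfl | h0
  · rw [map_zero]
    positivity
  · obtain ⟨n, hn⟩ := C.disc x hx g h0
    rw [hn, zpow_lt_zpow_iff_right₀ one_lt_two] at h
    rw [hn, zpow_le_zpow_iff_right₀ one_lt_two]
    omega

theorem w_const (y : Option 𝕜) (c : 𝕜) : C.w y (algebraMap 𝕜 M c) ≤ 1 := by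
  rcases eq_or_ne c 0 with rfl | hc
  · simp
  · exact (C.crv_const y hc).le

/-- functions regular at finite distance with poles of order at most `m` at infinity -/
def LL (m : ℕ) : Submodule 𝕜 M where
  carrier := {f | (∀ (x : 𝕜) (h : M ≃ₐ[RatFunc 𝕜] M), C.w (some x) (h f) ≤ 1) ∧
    ∀ h : M ≃ₐ[RatFunc 𝕜] M, C.w none (h f) ≤ 2 ^ m}
  add_mem' := by
    rintro f g ⟨h1, h2⟩ ⟨h3, h4⟩
    refine ⟨fun x h => ?_, fun h => ?_⟩
    · rw [map_add]
      exact (C.na _ _ _).trans (max_le (h1 x h) (h3 x h))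
    · rw [map_add]
      exact (C.na _ _ _).trans (max_le (h2 h) (h4 h))
  zero_mem' := by
    refine ⟨fun x h => ?_, fun h => ?_⟩ <;> simp
  smul_mem' := by
    rintro c f ⟨h1, h2⟩
    refine ⟨fun x h => ?_, fun h => ?_⟩
    · rw [Algebra.smul_def, map_mul, crv_fix_const, map_mul]
      exact mul_le_one₀ (C.w_const _ c) ((C.w _).nonneg _) (h1 x h)
    · rw [Algebra.smul_def, map_mul, crv_fix_const, map_mul]
      exact (mul_le_of_le_one_left ((C.w _).nonneg _) (C.w_const _ c)).trans (h2 h)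

theorem mem_LL {m : ℕ} {f : M} : f ∈ C.LL m ↔
    (∀ (x : 𝕜) (h : M ≃ₐ[RatFunc 𝕜] M), C.w (some x) (h f) ≤ 1) ∧
      ∀ h : M ≃ₐ[RatFunc 𝕜] M, C.w none (h f) ≤ 2 ^ m := Iff.rfl

theorem LL_mono {m n : ℕ} (h : m ≤ n) : C.LL m ≤ C.LL n := by
  exact fun f hf => ⟨hf.1, fun g => (hf.2 g).trans (pow_le_pow_right₀ one_le_two h)⟩

theorem mul_mem_LL {m n : ℕ} {f g : M} (hf : f ∈ C.LL m) (hg : g ∈ C.LL n) :
    f * g ∈ C.LL (m + n) := by
  refine ⟨fun x h => ?_, fun h => ?_⟩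
  · rw [map_mul, map_mul]
    exact mul_le_one₀ (hf.1 x h) ((C.w _).nonneg _) (hg.1 x h)
  · rw [map_mul, map_mul, pow_add]
    exact mul_le_mul (hf.2 h) (hg.2 h) ((C.w _).nonneg _) (by positivity)

theorem pow_mem_LL {m : ℕ} {f : M} (hf : f ∈ C.LL m) (n : ℕ) : f ^ n ∈ C.LL (m * n) := by
  induction n with
  | zero => exact ⟨fun x h => by simp, fun h => by simp⟩
  | succ n ih =>
    rw [pow_succ, mul_add_one]
    exact C.mul_mem_LL ih hf

theorem aeval_mem_LL (p : 𝕜[X]) : aeval (tM 𝕜 M) p ∈ C.LL p.natDegree := by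
  rcases eq_or_ne p 0 with rfl | hp
  · rw [map_zero]
    exact zero_mem _
  refine ⟨fun x h => ?_, fun h => ?_⟩
  · rw [crv_fix, C.w_fin x p hp]
    exact zpow_le_one_of_nonpos₀ one_le_two (by simp)
  · rw [crv_fix, C.w_inf p hp, zpow_natCast]

theorem crv_act {m : ℕ} {f : M} (hf : f ∈ C.LL m) (g : M ≃ₐ[RatFunc 𝕜] M) : g f ∈ C.LL m :=
  ⟨fun x h => hf.1 x (h * g), fun h => hf.2 (h * g)⟩

theorem crv_prod {ι : Type*} {m : ℕ} (s : Finset ι) {r : ι → M} (h : ∀ i ∈ s, r i ∈ C.LL m) :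
    ∏ i ∈ s, r i ∈ C.LL (s.card * m) := by
  classical
  induction s using Finset.induction_on with
  | empty => exact ⟨fun x h => by simp, fun h => by simp⟩
  | insert a s ha ih =>
    rw [Finset.prod_insert ha, Finset.card_insert_of_notMem ha, add_one_mul, add_comm]
    exact C.mul_mem_LL (h a (Finset.mem_insert_self a s))
      (ih fun i hi => h i (Finset.mem_insert_of_mem hi))

theorem crv_res (m : ℕ) (x : 𝕜) : ∃ φ : C.LL m →ₗ[𝕜] 𝕜, ∀ f : C.LL m,
    C.w (some x) (f - algebraMap 𝕜 M (φ f)) < 1 := by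
  choose φ hφ using fun f : C.LL m => C.res (some x) f (f.2.1 x 1)
  have h1 : ∀ (f : C.LL m) (c : 𝕜), C.w (some x) (f - algebraMap 𝕜 M c) < 1 → φ f = c := by
    intro f c h
    by_contra h2
    have h3 := C.na (some x) (f - algebraMap 𝕜 M c) (-(f - algebraMap 𝕜 M (φ f)))
    rw [(C.w _).map_neg, show (f : M) - algebraMap 𝕜 M c + -(f - algebraMap 𝕜 M (φ f)) =
      algebraMap 𝕜 M (φ f - c) by rw [map_sub]; ring, C.crv_const _ (sub_ne_zero.2 h2)] at h3
    exact (max_lt h (hφ f)).not_ge h3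
  refine ⟨⟨⟨φ, fun f g => h1 _ _ ?_⟩, fun c f => h1 _ _ ?_⟩, hφ⟩
  · rw [Submodule.coe_add, map_add, add_sub_add_comm]
    exact (C.na _ _ _).trans_lt (max_lt (hφ f) (hφ g))
  · rw [Submodule.coe_smul, RingHom.id_apply, smul_eq_mul, map_mul, Algebra.smul_def, ← mul_sub,
      map_mul]
    exact (mul_le_of_le_one_left ((C.w _).nonneg _) (C.w_const _ c)).trans_lt (hφ f)

variable [IsAlgClosed 𝕜] [FiniteDimensional (RatFunc 𝕜) M] [IsGalois (RatFunc 𝕜) M]

theorem exists_poly {a : RatFunc 𝕜} (ha : ∀ x, C.w (some x) (algebraMap (RatFunc 𝕜) M a) ≤ 1) :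
    ∃ p : 𝕜[X], algebraMap 𝕜[X] (RatFunc 𝕜) p = a := by
  have h1 : a.denom = 1 := by
    refine a.monic_denom.degree_le_zero_iff_eq_one.1 (not_lt.1 fun hd => ?_)
    obtain ⟨x, hx⟩ := IsAlgClosed.exists_root _ hd.ne'
    have h2 : ¬ a.num.IsRoot x := fun h => by
      obtain ⟨u, v, e⟩ := a.isCoprime_num_denom
      have := congrArg (eval x) e
      rw [eval_add, eval_mul, eval_mul, h.eq_zero, hx.eq_zero, eval_one] at this
      simp at this
    have h3 : a.num ≠ 0 := fun h => h2 (by simp [h])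
    have h4 := ha x
    rw [← a.num_div_denom, map_div₀, map_div₀, ← crv_aeval, ← crv_aeval, C.w_fin x _ h3,
      C.w_fin x _ a.denom_ne_zero, rootMultiplicity_eq_zero h2, ← zpow_sub₀ two_ne_zero,
      zpow_le_one_iff_right₀ one_lt_two] at h4
    have h5 := (rootMultiplicity_pos a.denom_ne_zero).2 hx
    omega
  exact ⟨a.num, by simpa [h1] using a.num_div_denom⟩

theorem crv_fixed {d : ℕ} {c : M} (hc : c ∈ C.LL d) (h : ∀ g : M ≃ₐ[RatFunc 𝕜] M, g c = c) :
    ∃ p : 𝕜[X], p.natDegree ≤ d ∧ aeval (tM 𝕜 M) p = c := by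
  obtain ⟨a, rfl⟩ := (IsGalois.mem_range_algebraMap_iff_fixed c).2 h
  obtain ⟨p, rfl⟩ := C.exists_poly (a := a) fun x => hc.1 x 1
  refine ⟨p, ?_, crv_aeval p⟩
  rcases eq_or_ne p 0 with rfl | hp
  · simp
  · have h1 := hc.2 1
    rwa [AlgEquiv.one_apply, ← crv_aeval, C.w_inf p hp, zpow_natCast,
      pow_le_pow_iff_right₀ one_lt_two] at h1

theorem crv_norm {m : ℕ} {f : M} (hf : f ∈ C.LL m) (h0 : f ≠ 0) : ∃ p : 𝕜[X], p ≠ 0 ∧
    p.natDegree ≤ Module.finrank (RatFunc 𝕜) M * m ∧ ∀ x : 𝕜,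
      ∏ h : M ≃ₐ[RatFunc 𝕜] M, C.w (some x) (h f) = 2 ^ (-(p.rootMultiplicity x : ℤ)) := by
  obtain ⟨p, h1, h2⟩ := C.crv_fixed (C.crv_prod Finset.univ fun h _ => C.crv_act hf h) fun g => by
    rw [map_prod]
    exact Fintype.prod_equiv (Equiv.mulLeft g) _ _ fun h => rfl
  have h3 : p ≠ 0 := by
    rintro rfl
    rw [map_zero] at h2
    exact Finset.prod_ne_zero_iff.2 (fun h _ => (map_ne_zero h).2 h0) h2.symm
  rw [Finset.card_univ, ← Nat.card_eq_fintype_card, IsGalois.card_aut_eq_finrank] at h1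
  exact ⟨p, h3, h1, fun x => by rw [← C.w_fin x p h3, h2, map_prod]⟩

theorem mem_LL_iff {m : ℕ} {f : M} : f ∈ C.LL m ↔ ∃ (n : ℕ) (a : ℕ → 𝕜[X]), 0 < n ∧
    (∀ i < n, (a i).natDegree ≤ (n - i) * m) ∧
      f ^ n + ∑ i ∈ Finset.range n, aeval (tM 𝕜 M) (a i) * f ^ i = 0 := by
  constructor
  · intro hf
    obtain ⟨P, hP⟩ : ∃ P : M[X], P = ∏ h : M ≃ₐ[RatFunc 𝕜] M, (X + Polynomial.C (-h f)) := ⟨_, rfl⟩
    have h1 : P.Monic := hP ▸ monic_prod_of_monic _ _ fun h _ => monic_X_add_C _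
    have h2 : P.natDegree = Fintype.card (M ≃ₐ[RatFunc 𝕜] M) := by
      rw [hP, natDegree_prod_of_monic _ _ fun h _ => monic_X_add_C _]
      simp only [natDegree_X_add_C, Finset.sum_const, Finset.card_univ, smul_eq_mul, mul_one]
    have h3 : ∀ g : M ≃ₐ[RatFunc 𝕜] M, P.map (g : M →+* M) = P := fun g => by
      rw [hP, Polynomial.map_prod]
      refine Fintype.prod_equiv (Equiv.mulLeft g) _ _ fun h => ?_
      simp
    have h4 : ∀ i, ∃ p : 𝕜[X], i < P.natDegree →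
        p.natDegree ≤ (P.natDegree - i) * m ∧ aeval (tM 𝕜 M) p = P.coeff i := fun i => by
      by_cases hi : i < P.natDegree
      · refine (C.crv_fixed (d := (P.natDegree - i) * m) (c := P.coeff i) ?_ fun g => ?_).imp
          fun p hp _ => hp
        · rw [h2] at hi ⊢
          rw [hP, Finset.prod_X_add_C_coeff _ _ hi.le]
          refine Submodule.sum_mem _ fun s hs => ?_
          rw [← Finset.card_univ, ← (Finset.mem_powersetCard.1 hs).2]
          exact C.crv_prod s fun h _ => neg_mem (C.crv_act hf h)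
        · conv_rhs => rw [← h3 g, coeff_map]
          rfl
      · exact ⟨0, fun h => (hi h).elim⟩
    choose a ha using h4
    refine ⟨P.natDegree, a, h2 ▸ Fintype.card_pos, fun i hi => (ha i hi).1, ?_⟩
    have h5 : P.eval f = 0 := by
      rw [hP, eval_prod]
      exact Finset.prod_eq_zero (Finset.mem_univ 1) (by simp)
    rw [h1.as_sum, eval_add, eval_pow, eval_X, eval_finsetSum] at h5
    rw [← h5]
    congr 1
    refine Finset.sum_congr rfl fun i hi => ?_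
    rw [(ha i (Finset.mem_range.1 hi)).2, eval_mul, eval_C, eval_pow, eval_X]
  · rintro ⟨n, a, hn, h1, h2⟩
    have h3 : ∀ h : M ≃ₐ[RatFunc 𝕜] M,
        h f ^ n + ∑ i ∈ Finset.range n, aeval (tM 𝕜 M) (a i) * h f ^ i = 0 := fun h => by
      have := congrArg h h2
      simpa only [map_add, map_pow, map_sum, map_mul, crv_fix, map_zero] using this
    refine ⟨fun x h => crv_root (C.na _) one_pos hn (fun i _ => ?_) (h3 h),
      fun h => crv_root (C.na _) (by positivity) hn (fun i hi => ?_) (h3 h)⟩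
    · rw [one_pow]
      exact (C.aeval_mem_LL (a i)).1 x 1
    · rw [← pow_mul, mul_comm]
      exact (C.LL_mono (h1 i hi) (C.aeval_mem_LL (a i))).2 1

theorem map_mem_LL (g : M ≃+* M) (ht : g (tM 𝕜 M) = tM 𝕜 M)
    (hc : ∀ c : 𝕜, ∃ c' : 𝕜, g (algebraMap 𝕜 M c) = algebraMap 𝕜 M c') {m : ℕ} {f : M}
    (hf : f ∈ C.LL m) : g f ∈ C.LL m := by
  choose σ hσ using hc
  have h1 : ∀ p : 𝕜[X], ∃ q : 𝕜[X], q.natDegree ≤ p.natDegree ∧
      g (aeval (tM 𝕜 M) p) = aeval (tM 𝕜 M) q := fun p => by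
    refine ⟨∑ i ∈ Finset.range (p.natDegree + 1), Polynomial.C (σ (p.coeff i)) * X ^ i,
      natDegree_sum_le_of_forall_le _ _ fun i hi => (natDegree_C_mul_X_pow_le _ _).trans
        (Nat.lt_succ_iff.1 (Finset.mem_range.1 hi)), ?_⟩
    rw [aeval_eq_sum_range, map_sum, map_sum]
    refine Finset.sum_congr rfl fun i _ => ?_
    rw [Algebra.smul_def, map_mul, map_pow, hσ, ht, map_mul, map_pow, aeval_C, aeval_X]
  choose τ h2 h3 using h1
  obtain ⟨n, a, hn, h4, h5⟩ := C.mem_LL_iff.1 hf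
  refine C.mem_LL_iff.2 ⟨n, fun i => τ (a i), hn, fun i hi => (h2 _).trans (h4 i hi), ?_⟩
  have := congrArg g h5
  simpa only [map_add, map_pow, map_sum, map_mul, h3, map_zero] using this

theorem card_zeros {m : ℕ} {f : M} (hf : f ∈ C.LL m) (h0 : f ≠ 0)
    (Z : Finset (𝕜 × (M ≃ₐ[RatFunc 𝕜] M)))
    (hZ : ∀ z ∈ Z, z.1 ∉ C.Ram ∧ C.w (some z.1) (z.2 f) < 1) :
    Z.card ≤ Module.finrank (RatFunc 𝕜) M * m := by
  classical
  obtain ⟨p, hp, h1, h2⟩ := C.crv_norm hf h0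
  refine le_trans ?_ ((card_roots' p).trans h1)
  rw [← Finset.card_val, ← Multiset.card_map Prod.fst]
  refine Multiset.card_le_card (Multiset.le_iff_count.2 fun x => ?_)
  rw [count_roots, Multiset.count_map, ← Finset.filter_val, Finset.card_val,
    ← Finset.card_image_of_injOn (f := Prod.snd) fun z hz z' hz' e => Prod.ext
      ((Finset.mem_filter.1 hz).2.symm.trans (Finset.mem_filter.1 hz').2) e]
  generalize hS : (Z.filter fun z => x = z.1).image Prod.snd = S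
  have h3 : ∏ h : M ≃ₐ[RatFunc 𝕜] M, C.w (some x) (h f) ≤
      ∏ h : M ≃ₐ[RatFunc 𝕜] M, if h ∈ S then (2 : ℝ) ^ (-1 : ℤ) else 1 := by
    refine Finset.prod_le_prod (fun h _ => (C.w _).nonneg _) fun h _ => ?_
    split_ifs with h4
    · rw [← hS] at h4
      obtain ⟨z, h5, rfl⟩ := Finset.mem_image.1 h4
      obtain ⟨h6, rfl⟩ := Finset.mem_filter.1 h5
      simpa using C.crv_step (k := 0) (hZ z h6).1 (by simpa using (hZ z h6).2)
    · exact hf.1 x h
  rw [h2, Finset.prod_ite_mem, Finset.univ_inter, Finset.prod_const, ← zpow_natCast, ← zpow_mul,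
    zpow_le_zpow_iff_right₀ one_lt_two] at h3
  omega

theorem exists_ord {m : ℕ} {f : M} (hf : f ∈ C.LL m) (h0 : f ≠ 0) {x : 𝕜} (hx : x ∉ C.Ram) :
    ∃ n : ℕ, n ≤ Module.finrank (RatFunc 𝕜) M * m ∧ C.w (some x) f = 2 ^ (-(n : ℤ)) := by
  classical
  obtain ⟨p, hp, h1, h2⟩ := C.crv_norm hf h0
  obtain ⟨n, hn⟩ := C.disc x hx f h0
  have h3 : C.w (some x) f ≤ 1 := hf.1 x 1
  have h4 : ∏ h : M ≃ₐ[RatFunc 𝕜] M, C.w (some x) (h f) ≤ C.w (some x) f := by
    rw [← Finset.mul_prod_erase _ _ (Finset.mem_univ 1)]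
    exact mul_le_of_le_one_right ((C.w _).nonneg _)
      (Finset.prod_le_one (fun h _ => (C.w _).nonneg _) fun h _ => hf.1 x h)
  rw [h2, hn, zpow_le_zpow_iff_right₀ one_lt_two] at h4
  rw [hn, zpow_le_one_iff_right₀ one_lt_two] at h3
  have h5 : p.rootMultiplicity x ≤ p.natDegree := by
    rw [← count_roots]
    exact (Multiset.count_le_card _ _).trans (card_roots' p)
  refine ⟨(-n).toNat, by omega, ?_⟩
  rw [hn]
  congr 1
  omega

theorem crv_inj (m : ℕ) :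
    ∃ Φ : C.LL m →ₗ[𝕜] Fin (Module.finrank (RatFunc 𝕜) M * m + 1) → 𝕜, Function.Injective Φ := by
  classical
  choose φ hφ using C.crv_res m
  have := C.Ram.finite_toSet.infinite_compl.to_subtype
  let e : ℕ ↪ ↥((C.Ram : Set 𝕜)ᶜ) := Infinite.natEmbedding _
  refine ⟨LinearMap.pi fun i => φ (e i), (injective_iff_map_eq_zero _).2 fun f hf => ?_⟩
  by_contra h0
  have h1 := C.card_zeros f.2 (fun h => h0 (Subtype.ext h))
    (Finset.univ.image fun i : Fin (Module.finrank (RatFunc 𝕜) M * m + 1) => ((e i : 𝕜), 1))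
    fun z hz => by
      obtain ⟨i, -, rfl⟩ := Finset.mem_image.1 hz
      have h2 := hφ (e i) f
      rw [show φ (e i) f = 0 from congrFun hf i, map_zero, sub_zero] at h2
      exact ⟨(e i).2, h2⟩
  rw [Finset.card_image_of_injective _ fun i j h =>
    Fin.ext (e.injective (Subtype.ext (Prod.ext_iff.1 h).1)), Finset.card_univ,
    Fintype.card_fin] at h1
  omega

theorem finite_LL (m : ℕ) : Module.Finite 𝕜 (C.LL m) := by
  obtain ⟨Φ, hΦ⟩ := C.crv_inj m
  exact Module.Finite.of_injective Φ hΦ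

theorem finrank_le (m : ℕ) :
    Module.finrank 𝕜 (C.LL m) ≤ Module.finrank (RatFunc 𝕜) M * m + 1 := by
  obtain ⟨Φ, hΦ⟩ := C.crv_inj m
  simpa using LinearMap.finrank_le_finrank_of_injective hΦ

theorem exists_ord_basis (m : ℕ) {x : 𝕜} (hx : x ∉ C.Ram) :
    ∃ (r : Fin (Module.finrank 𝕜 (C.LL m)) → M) (n : Fin (Module.finrank 𝕜 (C.LL m)) → ℕ),
      Function.Injective n ∧ ∀ i, r i ∈ C.LL m ∧ n i ≤ Module.finrank (RatFunc 𝕜) M * m ∧
        C.w (some x) (r i) = 2 ^ (-(n i : ℤ)) := by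
  classical
  have := C.finite_LL m
  let V : ℕ → Submodule 𝕜 M := fun k =>
    { carrier := {g | g ∈ C.LL m ∧ C.w (some x) g ≤ 2 ^ (-(k : ℤ))}
      add_mem' := fun hf hg => ⟨add_mem hf.1 hg.1, (C.na _ _ _).trans (max_le hf.2 hg.2)⟩
      zero_mem' := ⟨zero_mem _, by
        rw [map_zero]
        positivity⟩
      smul_mem' := fun c f hf => ⟨Submodule.smul_mem _ c hf.1, by
        rw [Algebra.smul_def, map_mul]
        exact (mul_le_of_le_one_left ((C.w _).nonneg _) (C.w_const _ c)).trans hf.2⟩ }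
  have hV : ∀ k, FiniteDimensional 𝕜 (V k) := fun k =>
    Submodule.finiteDimensional_of_le (S₂ := C.LL m) fun g hg => hg.1
  let A : ℕ → Finset ℕ := fun k => (Finset.range k).filter fun n =>
    ∃ r ∈ C.LL m, C.w (some x) r = 2 ^ (-(n : ℤ))
  have h1 : ∀ k, Module.finrank 𝕜 (C.LL m) ≤ Module.finrank 𝕜 (V k) + (A k).card := fun k => by
    induction k with
    | zero => exact Submodule.finrank_mono fun g hg => ⟨hg, by simpa using hg.1 x 1⟩
    | succ k ih =>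
      refine ih.trans ?_
      simp only [A, Finset.range_add_one, Finset.filter_insert]
      split_ifs with hk
      · obtain ⟨r, hr, e⟩ := hk
        have h2 : 0 < C.w (some x) r := by
          rw [e]
          positivity
        have h3 : r ≠ 0 := (C.w _).pos_iff.1 h2
        have h4 : V k ≤ V (k + 1) ⊔ 𝕜 ∙ r := fun g hg => by
          obtain ⟨c, hc⟩ := C.res (some x) (g / r) (by
            rw [map_div₀, div_le_one h2, e]
            exact hg.2)
          refine Submodule.mem_sup.2 ⟨g - c • r, ⟨sub_mem hg.1 (Submodule.smul_mem _ c hr), ?_⟩,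
            c • r, Submodule.smul_mem _ c (Submodule.mem_span_singleton_self r), sub_add_cancel _ _⟩
          refine C.crv_step hx ?_
          rw [← e, show g - c • r = (g / r - algebraMap 𝕜 M c) * r by
            rw [sub_mul, div_mul_cancel₀ _ h3, Algebra.smul_def], map_mul]
          exact mul_lt_of_lt_one_left h2 hc
        have h5 := Submodule.finrank_mono h4
        have h6 := Submodule.finrank_sup_add_finrank_inf_eq (V (k + 1)) (𝕜 ∙ r)
        rw [finrank_span_singleton h3] at h6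
        rw [Finset.card_insert_of_notMem (by simp)]
        omega
      · have h2 : V k ≤ V (k + 1) := fun g hg =>
          ⟨hg.1, C.crv_step hx (hg.2.lt_of_ne fun e => hk ⟨g, hg.1, e⟩)⟩
        exact Nat.add_le_add_right (Submodule.finrank_mono h2) _
  have h2 : V (Module.finrank (RatFunc 𝕜) M * m + 1) = ⊥ := by
    refine eq_bot_iff.2 fun g hg => ?_
    by_contra h0
    obtain ⟨n, h3, h4⟩ := C.exists_ord hg.1 h0 hx
    have h5 := hg.2
    rw [h4, zpow_le_zpow_iff_right₀ one_lt_two] at h5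
    omega
  have h3 := h1 (Module.finrank (RatFunc 𝕜) M * m + 1)
  rw [h2, finrank_bot, zero_add] at h3
  have h4 := fun i => Finset.mem_filter.1 (Finset.orderEmbOfCardLe_mem _ h3 i)
  choose r h5 h6 using fun i => (h4 i).2
  exact ⟨r, _, (Finset.orderEmbOfCardLe _ h3).injective, fun i =>
    ⟨h5 i, Nat.lt_succ_iff.1 (Finset.mem_range.1 (h4 i).1), h6 i⟩⟩

end Crv

end

end Pool.Agent.Smith
end

-- merged part: Pool.Agent.Work.MP_60d5ce_nt.Sm.RiemannA
section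
/-!
# Tools for the different bound and Riemann's inequality
-/

namespace Pool.Agent.Smith

open Polynomial

section Abs

variable {M : Type} [Field M]

theorem riemann_sum_le {w : AbsoluteValue M ℝ} (hw : IsNonarchimedean w) {ι : Type*}
    (s : Finset ι) (f : ι → M) {B : ℝ} (hB : 0 ≤ B) (h : ∀ i ∈ s, w (f i) ≤ B) :
    w (∑ i ∈ s, f i) ≤ B := by
  rcases s.eq_empty_or_nonempty with rfl | hs
  · simpa using hB
  · obtain ⟨i, hi, h'⟩ := hw.finset_image_add_of_nonempty f hs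
    exact h'.trans (h i hi)

theorem riemann_sum_lt {w : AbsoluteValue M ℝ} (hw : IsNonarchimedean w) {ι : Type*}
    (s : Finset ι) (f : ι → M) {B : ℝ} (hB : 0 < B) (h : ∀ i ∈ s, w (f i) < B) :
    w (∑ i ∈ s, f i) < B := by
  rcases s.eq_empty_or_nonempty with rfl | hs
  · simpa using hB
  · obtain ⟨i, hi, h'⟩ := hw.finset_image_add_of_nonempty f hs
    exact h'.trans_lt (h i hi)

theorem riemann_sub_le {w : AbsoluteValue M ℝ} (hw : IsNonarchimedean w) {a b : M} {B : ℝ}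
    (ha : w a ≤ B) (hb : w b ≤ B) : w (a - b) ≤ B := by
  rw [sub_eq_add_neg]
  exact (hw _ _).trans (max_le ha (by rwa [w.map_neg]))

theorem riemann_add_eq {w : AbsoluteValue M ℝ} (hw : IsNonarchimedean w) {a b : M}
    (h : w b < w a) : w (a + b) = w a := by
  refine le_antisymm ((hw _ _).trans (max_le le_rfl h.le)) ?_
  by_contra hc
  have h1 : w a ≤ max (w (a + b)) (w b) := by
    have := riemann_sub_le hw (le_max_left (w (a + b)) (w b)) (le_max_right (w (a + b)) (w b))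
    rwa [add_sub_cancel_right] at this
  exact absurd h1 (not_le.mpr (max_lt (not_le.mp hc) h))

variable {K : Type} [Field K] [Algebra K M]

/-- the conjugate of an absolute value -/
def riemannConj (w : AbsoluteValue M ℝ) (h : M ≃ₐ[K] M) : AbsoluteValue M ℝ where
  toFun a := w (h a)
  map_mul' a b := by rw [map_mul, map_mul]
  nonneg' a := w.nonneg _
  eq_zero' a := by rw [w.eq_zero, map_eq_zero_iff _ h.injective]
  add_le' a b := by
    rw [map_add]
    exact w.add_le _ _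

theorem riemannConj_apply (w : AbsoluteValue M ℝ) (h : M ≃ₐ[K] M) (a : M) :
    riemannConj w h a = w (h a) := rfl

theorem riemann_sep [Finite (M ≃ₐ[K] M)] (w : AbsoluteValue M ℝ) {π : K}
    (hπ : w (algebraMap K M π) = 2⁻¹) (h0 : M ≃ₐ[K] M) :
    ∃ e : M, 1 < w (h0 e) ∧ ∀ h : M ≃ₐ[K] M, riemannConj w h ≠ riemannConj w h0 → w (h e) < 1 := by
  let v : Set.range (riemannConj (K := K) w) → AbsoluteValue M ℝ := fun i => i.1
  have hv : ∀ i, v i (algebraMap K M π) = 2⁻¹ := by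
    rintro ⟨_, h, rfl⟩
    change w (h (algebraMap K M π)) = _
    rw [h.commutes, hπ]
  have h1 : ∀ i, (v i).IsNontrivial := by
    intro i
    refine ⟨algebraMap K M π, fun h => ?_, by rw [hv]; norm_num⟩
    have := hv i
    rw [h, map_zero] at this
    norm_num at this
  have h2 : Pairwise fun i j => ¬ (v i).IsEquiv (v j) := by
    intro i j hij he
    obtain ⟨c, -, hc⟩ := AbsoluteValue.isEquiv_iff_exists_rpow_eq.mp he
    have h3 : ((2 : ℝ)⁻¹) ^ c = ((2 : ℝ)⁻¹) ^ (1 : ℝ) := by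
      have := congrFun hc (algebraMap K M π)
      simp only [hv] at this
      rw [this, Real.rpow_one]
    have h4 : c = 1 := (Real.rpow_right_inj (by norm_num) (by norm_num)).mp h3
    refine hij (Subtype.ext (AbsoluteValue.ext fun a => ?_))
    have := congrFun hc a
    simp only [h4, Real.rpow_one] at this
    exact this
  obtain ⟨e, he, he'⟩ := AbsoluteValue.exists_one_lt_lt_one_pi_of_not_isEquiv h1 h2 ⟨_, h0, rfl⟩
  exact ⟨e, he, fun h hh => he' ⟨_, h, rfl⟩ fun hc => hh (congrArg Subtype.val hc)⟩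

theorem riemann_approx [Finite (M ≃ₐ[K] M)] {w : AbsoluteValue M ℝ} (hw : IsNonarchimedean w)
    {π : K} (hπ : w (algebraMap K M π) = 2⁻¹) (h0 : M ≃ₐ[K] M) {u : M} (hu : u ≠ 0) :
    ∃ ε : M, ∀ h : M ≃ₐ[K] M, (riemannConj w h = riemannConj w h0 → w (h ε - 1) < 1) ∧
      (riemannConj w h ≠ riemannConj w h0 → w (h ε) < 1 ∧ w (h ε) ≤ w (h u)) := by
  obtain ⟨e, he, he'⟩ := riemann_sep w hπ h0
  have h1 : ∀ h : M ≃ₐ[K] M, ∀ᶠ n : ℕ in Filter.atTop,
      riemannConj w h ≠ riemannConj w h0 → w (h e) ^ n ≤ w (h u) := by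
    intro h
    by_cases hh : riemannConj w h = riemannConj w h0
    · exact Filter.Eventually.of_forall fun n hn => absurd hh hn
    · have hpos : 0 < w (h u) := w.pos ((map_ne_zero_iff _ h.injective).mpr hu)
      have := (tendsto_pow_atTop_nhds_zero_of_lt_one (w.nonneg (h e)) (he' h hh)).eventually
        (ge_mem_nhds hpos)
      exact this.mono fun n hn _ => hn
  obtain ⟨n, hn, hn1⟩ := ((Filter.eventually_all.mpr h1).and (Filter.eventually_gt_atTop 0)).exists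
  refine ⟨e ^ n / (1 + e ^ n), fun h => ⟨fun hh => ?_, fun hh => ?_⟩⟩
  · have h2 : w (h e) = w (h0 e) := by rw [← riemannConj_apply, hh, riemannConj_apply]
    have h3 : 1 < w (h e ^ n) := by
      rw [map_pow, h2]
      exact one_lt_pow₀ he hn1.ne'
    have h4 : w (1 + h e ^ n) = w (h e ^ n) := by
      rw [add_comm]
      exact riemann_add_eq hw (by rwa [map_one])
    have h5 : 1 + h e ^ n ≠ 0 := by
      intro hc
      rw [hc, map_zero] at h4
      linarith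
    have h6 : h (e ^ n / (1 + e ^ n)) - 1 = -(1 + h e ^ n)⁻¹ := by
      rw [map_div₀, map_add, map_one, map_pow]
      field_simp
      ring
    rw [h6, w.map_neg, map_inv₀, h4]
    exact inv_lt_one_of_one_lt₀ h3
  · have h3 : w (h e ^ n) < 1 := by
      rw [map_pow]
      exact pow_lt_one₀ (w.nonneg _) (he' h hh) hn1.ne'
    have h4 : w (1 + h e ^ n) = 1 := by
      rw [riemann_add_eq hw (by rwa [map_one]), map_one]
    have h6 : w (h (e ^ n / (1 + e ^ n))) = w (h e ^ n) := by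
      rw [map_div₀, map_add, map_one, map_pow, map_div₀, h4, div_one]
    rw [h6]
    refine ⟨h3, ?_⟩
    rw [map_pow]
    exact hn h hh

open Classical in
theorem riemann_card [Fintype (M ≃ₐ[K] M)] (w : AbsoluteValue M ℝ)
    (hp : IsPGroup 3 (M ≃ₐ[K] M)) (h0 : M ≃ₐ[K] M) : ∃ k : ℕ,
    (Finset.univ.filter fun h : M ≃ₐ[K] M => riemannConj w h = riemannConj w h0).card = 3 ^ k := by
  let S : Subgroup (M ≃ₐ[K] M) :=
    { carrier := {g | ∀ a, w (g a) = w a}
      one_mem' := fun _ => rfl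
      mul_mem' := fun {g g'} hg hg' a => by rw [AlgEquiv.mul_apply, hg, hg']
      inv_mem' := fun {g} hg a => by
        rw [← hg (g⁻¹ a), ← AlgEquiv.mul_apply, mul_inv_cancel, AlgEquiv.one_apply] }
  have : Fact (Nat.Prime 3) := ⟨Nat.prime_three⟩
  obtain ⟨k, hk⟩ := (hp.to_subgroup S).exists_card_eq
  refine ⟨k, ?_⟩
  rw [← hk, ← Fintype.card_subtype, ← Nat.card_eq_fintype_card]
  refine Nat.card_congr ((Equiv.mulRight h0⁻¹).subtypeEquiv fun h => ?_)
  change _ ↔ ∀ a, w ((h * h0⁻¹) a) = w a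
  constructor
  · intro hh a
    rw [AlgEquiv.mul_apply, ← riemannConj_apply, hh, riemannConj_apply, ← AlgEquiv.mul_apply,
      mul_inv_cancel, AlgEquiv.one_apply]
  · intro hh
    refine AbsoluteValue.ext fun a => ?_
    rw [riemannConj_apply, riemannConj_apply, ← hh (h0 a), ← AlgEquiv.mul_apply,
      inv_mul_cancel_right]

theorem riemann_dual [FiniteDimensional K M] [IsGalois K M] {w : AbsoluteValue M ℝ}
    (hw : IsNonarchimedean w) {π : K} (hπ : w (algebraMap K M π) = 2⁻¹)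
    (hp : IsPGroup 3 (M ≃ₐ[K] M)) (h3 : w 3 = 1) (a : M)
    (ha : ∀ b : M, (∀ h : M ≃ₐ[K] M, w (h b) ≤ 1) →
      w (algebraMap K M (Algebra.trace K M (a * b))) ≤ 1) (h0 : M ≃ₐ[K] M) : w (h0 a) < 2 := by
  classical
  by_contra hc
  rw [not_lt] at hc
  have ha0 : a ≠ 0 := by
    rintro rfl
    rw [map_zero, map_zero] at hc
    linarith
  have hπ0 : algebraMap K M π ≠ 0 := by
    intro h
    rw [h, map_zero] at hπ
    norm_num at hπ
  have hu : algebraMap K M π * a ≠ 0 := mul_ne_zero hπ0 ha0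
  obtain ⟨ε, hε⟩ := riemann_approx hw hπ h0 hu
  have h1 := ha (ε / (algebraMap K M π * a)) fun h => by
    have hpos : 0 < w (h (algebraMap K M π * a)) :=
      w.pos ((map_ne_zero_iff _ h.injective).mpr hu)
    rw [map_div₀, map_div₀, div_le_one hpos]
    by_cases hh : riemannConj w h = riemannConj w h0
    · have h2 : w (h ε) ≤ 1 := by
        have := hw (h ε - 1) 1
        rw [sub_add_cancel, map_one] at this
        exact this.trans (max_le ((hε h).1 hh).le le_rfl)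
      have h4 : w (h a) = w (h0 a) := by rw [← riemannConj_apply, hh, riemannConj_apply]
      rw [map_mul, map_mul, h.commutes, hπ, h4]
      linarith
    · exact ((hε h).2 hh).2
  have h2 : algebraMap K M (Algebra.trace K M (a * (ε / (algebraMap K M π * a)))) =
      (algebraMap K M π)⁻¹ * ∑ h : M ≃ₐ[K] M, h ε := by
    rw [trace_eq_sum_automorphisms, Finset.mul_sum]
    refine Finset.sum_congr rfl fun h _ => ?_
    have : a * (ε / (algebraMap K M π * a)) = (algebraMap K M π)⁻¹ * ε := by field_simp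
    rw [this, map_mul, map_inv₀, h.commutes]
  obtain ⟨k, hk⟩ := riemann_card w hp h0
  have h4 : ∑ h : M ≃ₐ[K] M, h ε = 3 ^ k + ∑ h : M ≃ₐ[K] M,
      (h ε - if riemannConj w h = riemannConj w h0 then 1 else 0) := by
    rw [Finset.sum_sub_distrib, Finset.sum_boole]
    have : (3 : M) ^ k = ((3 ^ k : ℕ) : M) := by push_cast; rfl
    rw [this, ← hk]
    ring
  have h5 : w (3 ^ k) = 1 := by rw [map_pow, h3, one_pow]
  have h6 : w (∑ h : M ≃ₐ[K] M, h ε) = 1 := by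
    rw [h4, riemann_add_eq hw, h5]
    rw [h5]
    refine riemann_sum_lt hw _ _ one_pos fun h _ => ?_
    split_ifs with hh
    · exact (hε h).1 hh
    · rw [sub_zero]
      exact ((hε h).2 hh).1
  rw [h2, map_mul, map_inv₀, hπ, h6] at h1
  norm_num at h1

end Abs

end Pool.Agent.Smith
end

-- merged part: Pool.Agent.Work.MP_60d5ce_nt.Sm.Riemann
section
/-!
# The tame different bound and Riemann's inequality

Hints.
* `dual_bound`: suppose `w (h0 a) ≥ 2`.  Two absolute values `w ∘ h` are equal or inequivalent (they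
  agree on `RatFunc 𝕜`; `AbsoluteValue.isEquiv_iff_exists_rpow_eq`).  Weak approximation
  (`AbsoluteValue.exists_one_lt_lt_one_pi_of_not_isEquiv`, then `e ^ n / (1 + e ^ n)`) gives `ε` close
  to one for `w ∘ h0` and as small as we like for the others.  With `π` of size `1/2` in the base,
  `b = ε / (π a)` is integral and `trace (a b) = π⁻¹ ∑ h ε`, where `∑ h ε` is congruent to the order of
  the stabiliser of `w`, a power of three.  So the trace has size two.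
* `riemann`: take a basis `b i ∈ LL (d i)` of `M` with `∑ d i` minimal.  By minimality it is a local
  integral basis at every point (on `b i / t ^ d i` at infinity), so `dual_bound` applies to the dual
  basis; `R * b* i`, `R = ∏ (X - x)` over `x ∈ Ram`, is nonzero and integral at finite distance, so it
  is not small at infinity, and `d i ≤ card Ram`.  The `t ^ j * b i` are independent in `LL m`.
-/

namespace Pool.Agent.Smith

open Polynomial

variable {𝕜 M : Type} [Field 𝕜] [Field M] [Algebra 𝕜 M] [Algebra (RatFunc 𝕜) M]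
  [IsScalarTower 𝕜 (RatFunc 𝕜) M] [IsAlgClosed 𝕜] [FiniteDimensional (RatFunc 𝕜) M]
  [IsGalois (RatFunc 𝕜) M]

omit [IsAlgClosed 𝕜] [FiniteDimensional (RatFunc 𝕜) M] [IsGalois (RatFunc 𝕜) M] in
theorem riemann_alg (p : 𝕜[X]) :
    algebraMap (RatFunc 𝕜) M (algebraMap 𝕜[X] (RatFunc 𝕜) p) = aeval (tM 𝕜 M) p := by
  rw [← RatFunc.aeval_X_left_eq_algebraMap, tM, aeval_algebraMap_apply]

theorem riemann_zpow_le {n : ℤ} {k : ℤ} (h : (2 : ℝ) ^ n < 2 ^ (k + 1)) : (2 : ℝ) ^ n ≤ 2 ^ k := by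
  rw [zpow_lt_zpow_iff_right₀ one_lt_two] at h
  exact zpow_le_zpow_right₀ one_le_two (by omega)

namespace Crv

variable (C : Crv 𝕜 M)

section Base

omit [IsAlgClosed 𝕜] [FiniteDimensional (RatFunc 𝕜) M] [IsGalois (RatFunc 𝕜) M]

theorem riemann_int (y : Option 𝕜) {g : RatFunc 𝕜} (hg : g ≠ 0) :
    ∃ n : ℤ, C.w y (algebraMap (RatFunc 𝕜) M g) = 2 ^ n := by
  have h : ∀ p : 𝕜[X], p ≠ 0 → ∃ n : ℤ, C.w y (aeval (tM 𝕜 M) p) = 2 ^ n := by
    intro p hp
    cases y with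
    | none => exact ⟨_, C.w_inf p hp⟩
    | some x => exact ⟨_, C.w_fin x p hp⟩
  obtain ⟨n, hn⟩ := h _ (RatFunc.num_ne_zero hg)
  obtain ⟨m, hm⟩ := h _ (RatFunc.denom_ne_zero g)
  refine ⟨n - m, ?_⟩
  rw [← RatFunc.num_div_denom g, map_div₀, map_div₀, riemann_alg, riemann_alg, hn, hm,
    zpow_sub₀ two_ne_zero]

theorem riemann_lin_self (x : 𝕜) : C.w (some x) (algebraMap (RatFunc 𝕜) M
    (algebraMap 𝕜[X] (RatFunc 𝕜) (X - Polynomial.C x))) = 2⁻¹ := by
  rw [riemann_alg, C.w_fin x _ (X_sub_C_ne_zero x), rootMultiplicity_X_sub_C_self]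
  norm_num

theorem riemann_lin_ne {x x' : 𝕜} (h : x' ≠ x) : C.w (some x') (algebraMap (RatFunc 𝕜) M
    (algebraMap 𝕜[X] (RatFunc 𝕜) (X - Polynomial.C x))) = 1 := by
  classical
  rw [riemann_alg, C.w_fin x' _ (X_sub_C_ne_zero x), rootMultiplicity_X_sub_C, if_neg h]
  norm_num

theorem riemann_lin_inf (x : 𝕜) : C.w none (algebraMap (RatFunc 𝕜) M
    (algebraMap 𝕜[X] (RatFunc 𝕜) (X - Polynomial.C x))) = 2 := by
  rw [riemann_alg, C.w_inf _ (X_sub_C_ne_zero x), natDegree_X_sub_C]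
  norm_num

theorem riemann_X_inf : C.w none (algebraMap (RatFunc 𝕜) M RatFunc.X) = 2 := by
  have := C.riemann_lin_inf 0
  rwa [map_zero, sub_zero, RatFunc.algebraMap_X] at this

theorem riemann_poly_fin (x : 𝕜) (p : 𝕜[X]) :
    C.w (some x) (algebraMap (RatFunc 𝕜) M (algebraMap 𝕜[X] (RatFunc 𝕜) p)) ≤ 1 := by
  by_cases hp : p = 0
  · simp [hp]
  · rw [riemann_alg, C.w_fin x p hp]
    exact zpow_le_one_of_nonpos₀ one_le_two (by omega)

theorem riemann_X_fin (x : 𝕜) : C.w (some x) (algebraMap (RatFunc 𝕜) M RatFunc.X) ≤ 1 := by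
  have := C.riemann_poly_fin x X
  rwa [RatFunc.algebraMap_X] at this

theorem riemann_unif (y : Option 𝕜) :
    ∃ π : RatFunc 𝕜, C.w y (algebraMap (RatFunc 𝕜) M π) = 2⁻¹ := by
  cases y with
  | none => exact ⟨RatFunc.X⁻¹, by rw [map_inv₀, map_inv₀, C.riemann_X_inf]⟩
  | some x => exact ⟨_, C.riemann_lin_self x⟩

theorem riemann_const (y : Option 𝕜) (c : 𝕜) :
    C.w y (algebraMap (RatFunc 𝕜) M (algebraMap 𝕜 (RatFunc 𝕜) c)) ≤ 1 := by
  rw [← IsScalarTower.algebraMap_apply]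
  exact C.w_const y c

omit [IsScalarTower 𝕜 (RatFunc 𝕜) M] in
theorem riemann_three (y : Option 𝕜) : C.w y 3 = 1 := by
  have h : aeval (tM 𝕜 M) (Polynomial.C (3 : 𝕜)) = 3 := by
    rw [aeval_C, map_ofNat]
  have h0 : Polynomial.C (3 : 𝕜) ≠ 0 := C_ne_zero.mpr C.three
  rw [← h]
  cases y with
  | none =>
    rw [C.w_inf _ h0, natDegree_C]
    norm_num
  | some x =>
    rw [C.w_fin x _ h0, rootMultiplicity_C]
    norm_num

theorem riemann_half (y : Option 𝕜) {g : RatFunc 𝕜}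
    (hg : C.w y (algebraMap (RatFunc 𝕜) M g) < 1) : C.w y (algebraMap (RatFunc 𝕜) M g) ≤ 2⁻¹ := by
  by_cases h0 : g = 0
  · simp [h0]
  · obtain ⟨n, hn⟩ := C.riemann_int y h0
    rw [hn] at hg ⊢
    have := riemann_zpow_le (n := n) (k := -1) (by simpa using hg)
    simpa using this

theorem riemann_res (y : Option 𝕜) {g : RatFunc 𝕜}
    (hg : C.w y (algebraMap (RatFunc 𝕜) M g) ≤ 1) : ∃ c : 𝕜,
    C.w y (algebraMap (RatFunc 𝕜) M (g - algebraMap 𝕜 (RatFunc 𝕜) c)) ≤ 2⁻¹ := by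
  obtain ⟨c, hc⟩ := C.res y _ hg
  refine ⟨c, C.riemann_half y ?_⟩
  rwa [map_sub, ← IsScalarTower.algebraMap_apply]

omit [IsScalarTower 𝕜 (RatFunc 𝕜) M] in
theorem riemann_smul (y : Option 𝕜) (h : M ≃ₐ[RatFunc 𝕜] M) (g : RatFunc 𝕜) (a : M) :
    C.w y (h (g • a)) = C.w y (algebraMap (RatFunc 𝕜) M g) * C.w y (h a) := by
  rw [map_smul, Algebra.smul_def, map_mul]

end Base

theorem dual_bound (y : Option 𝕜) (a : M)
    (ha : ∀ b : M, (∀ h : M ≃ₐ[RatFunc 𝕜] M, C.w y (h b) ≤ 1) →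
      C.w y (algebraMap (RatFunc 𝕜) M (Algebra.trace (RatFunc 𝕜) M (a * b))) ≤ 1)
    (h : M ≃ₐ[RatFunc 𝕜] M) : C.w y (h a) < 2 := by
  obtain ⟨π, hπ⟩ := C.riemann_unif y
  exact riemann_dual (C.na y) hπ C.pgrp (C.riemann_three y) a ha h

theorem riemann_nonzero {f : M}
    (h1 : ∀ (x : 𝕜) (h : M ≃ₐ[RatFunc 𝕜] M), C.w (some x) (h f) ≤ 1)
    (h2 : ∀ h : M ≃ₐ[RatFunc 𝕜] M, C.w none (h f) < 1) : f = 0 := by
  by_contra h0
  have hn := Algebra.norm_eq_prod_automorphisms (K := RatFunc 𝕜) f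
  obtain ⟨p, hp⟩ := C.exists_poly (a := Algebra.norm (RatFunc 𝕜) f) fun x => by
    rw [hn, map_prod]
    exact Finset.prod_le_one (fun _ _ => (C.w _).nonneg _) fun h _ => h1 x h
  have hp0 : p ≠ 0 := by
    rintro rfl
    rw [map_zero] at hp
    exact h0 (Algebra.norm_eq_zero_iff.mp hp.symm)
  have h3 : 1 ≤ C.w none (algebraMap (RatFunc 𝕜) M (Algebra.norm (RatFunc 𝕜) f)) := by
    rw [← hp, riemann_alg, C.w_inf p hp0]
    exact one_le_zpow₀ one_le_two (by omega)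
  classical
  rw [hn, map_prod, ← Finset.mul_prod_erase _ _ (Finset.mem_univ 1)] at h3
  have h4 : ∏ h ∈ Finset.univ.erase (1 : M ≃ₐ[RatFunc 𝕜] M), C.w none (h f) ≤ 1 :=
    Finset.prod_le_one (fun _ _ => (C.w _).nonneg _) fun h _ => (h2 h).le
  have h5 := mul_le_of_le_one_right ((C.w none).nonneg ((1 : M ≃ₐ[RatFunc 𝕜] M) f)) h4
  linarith [h2 1]

theorem riemann_local {ι : Type} [Fintype ι] [DecidableEq ι] (y : Option 𝕜)
    (b : Module.Basis ι (RatFunc 𝕜) M) (s : ι → RatFunc 𝕜) (hs : ∀ i, s i ≠ 0)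
    (hb : ∀ (i : ι) (h : M ≃ₐ[RatFunc 𝕜] M),
      C.w y (h (b i)) ≤ C.w y (algebraMap (RatFunc 𝕜) M (s i))) :
    (∀ (i : ι) (h : M ≃ₐ[RatFunc 𝕜] M),
      C.w y (algebraMap (RatFunc 𝕜) M (s i)) * C.w y (h (b.traceDual i)) < 2) ∨
    ∃ c : ι → 𝕜, (∃ i, c i ≠ 0) ∧ ∀ h : M ≃ₐ[RatFunc 𝕜] M,
      C.w y (h (∑ i, (algebraMap 𝕜 (RatFunc 𝕜) (c i) / s i) • b i)) ≤ 2⁻¹ := by
  by_cases hA : ∀ x : M, (∀ h : M ≃ₐ[RatFunc 𝕜] M, C.w y (h x) ≤ 1) →
      ∀ i, C.w y (algebraMap (RatFunc 𝕜) M (s i * b.repr x i)) ≤ 1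
  · refine Or.inl fun i h => ?_
    rw [← C.riemann_smul]
    refine C.dual_bound y _ (fun x hx => ?_) h
    have h1 : Algebra.trace (RatFunc 𝕜) M (s i • b.traceDual i * x) = s i * b.repr x i := by
      have h2 := b.traceDual.traceDual_repr_apply x i
      rw [Module.Basis.traceDual_traceDual, Algebra.traceForm_apply] at h2
      rw [smul_mul_assoc, map_smul, h2, mul_comm x, smul_eq_mul]
    rw [h1]
    exact hA x hx i
  · right
    push Not at hA
    obtain ⟨x, hx, i1, hi1⟩ := hA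
    obtain ⟨i0, -, hi0⟩ := Finset.exists_max_image Finset.univ
      (fun i => C.w y (algebraMap (RatFunc 𝕜) M (s i * b.repr x i))) ⟨i1, Finset.mem_univ _⟩
    set u := s i0 * b.repr x i0 with hu
    have hu1 : 1 < C.w y (algebraMap (RatFunc 𝕜) M u) := hi1.trans_le (hi0 i1 (Finset.mem_univ _))
    have hu0 : u ≠ 0 := by
      intro h
      rw [h, map_zero, map_zero] at hu1
      linarith
    have hu2 : C.w y (algebraMap (RatFunc 𝕜) M u⁻¹) ≤ 2⁻¹ := by
      refine C.riemann_half y ?_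
      rw [map_inv₀, map_inv₀]
      exact inv_lt_one_of_one_lt₀ hu1
    have hc : ∀ i, ∃ c : 𝕜, C.w y (algebraMap (RatFunc 𝕜) M
        (s i * b.repr x i / u - algebraMap 𝕜 (RatFunc 𝕜) c)) ≤ 2⁻¹ := fun i =>
      C.riemann_res y (by
        rw [map_div₀, map_div₀, div_le_one (by linarith)]
        exact hi0 i (Finset.mem_univ _))
    choose c hc using hc
    refine ⟨c, ⟨i0, fun h => ?_⟩, fun h => ?_⟩
    · have := hc i0
      rw [h, map_zero, sub_zero, ← hu, div_self hu0, map_one, map_one] at this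
      norm_num at this
    · have h1 : ∑ i, (algebraMap 𝕜 (RatFunc 𝕜) (c i) / s i) • b i = u⁻¹ • x -
          ∑ i, ((s i * b.repr x i / u - algebraMap 𝕜 (RatFunc 𝕜) (c i)) / s i) • b i := by
        conv_rhs => rw [← b.sum_repr x]
        rw [Finset.smul_sum, ← Finset.sum_sub_distrib]
        refine Finset.sum_congr rfl fun i _ => ?_
        rw [b.sum_repr x, smul_smul, ← sub_smul]
        congr 1
        have := hs i
        field_simp
        ring
      rw [h1, map_sub]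
      refine riemann_sub_le (C.na y) ?_ ?_
      · rw [C.riemann_smul]
        exact (mul_le_of_le_one_right ((C.w y).nonneg _) (hx h)).trans hu2
      · rw [map_sum]
        refine riemann_sum_le (C.na y) _ _ (by norm_num) fun i _ => ?_
        have hpos : 0 < C.w y (algebraMap (RatFunc 𝕜) M (s i)) :=
          (C.w y).pos ((_root_.map_ne_zero _).mpr (hs i))
        rw [C.riemann_smul, map_div₀, map_div₀, div_mul_eq_mul_div, mul_div_assoc]
        exact (mul_le_of_le_one_right ((C.w y).nonneg _)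
          ((div_le_one hpos).mpr (hb i h))).trans (hc i)

theorem riemann_mult (a : M) : ∃ g : RatFunc 𝕜, g ≠ 0 ∧ ∃ d : ℕ, g • a ∈ C.LL d := by
  let : Algebra 𝕜[X] M :=
    ((algebraMap (RatFunc 𝕜) M).comp (algebraMap 𝕜[X] (RatFunc 𝕜))).toAlgebra
  have : IsScalarTower 𝕜[X] (RatFunc 𝕜) M := IsScalarTower.of_algebraMap_eq fun _ => rfl
  have h1 : IsAlgebraic 𝕜[X] a := (IsFractionRing.isAlgebraic_iff 𝕜[X] (RatFunc 𝕜) M).mpr
    (Algebra.IsAlgebraic.isAlgebraic a)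
  obtain ⟨p, hp0, P, hP, hPa⟩ := h1.exists_integral_multiple
  refine ⟨algebraMap 𝕜[X] (RatFunc 𝕜) p, RatFunc.algebraMap_ne_zero hp0,
    ∑ i ∈ Finset.range P.natDegree, (P.coeff i).natDegree, ?_⟩
  rw [algebraMap_smul]
  have hn : 0 < P.natDegree := by
    rw [Nat.pos_iff_ne_zero]
    intro h
    rw [hP.natDegree_eq_zero.mp h, eval₂_one] at hPa
    exact one_ne_zero hPa
  refine C.mem_LL_iff.mpr ⟨P.natDegree, P.coeff, hn, fun i hi => ?_, ?_⟩
  · refine (Finset.single_le_sum (f := fun i => (P.coeff i).natDegree) (fun _ _ => Nat.zero_le _)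
      (Finset.mem_range.mpr hi)).trans ?_
    exact Nat.le_mul_of_pos_left _ (by omega)
  · rw [hP.as_sum, eval₂_add, eval₂_pow, eval₂_X, eval₂_finsetSum] at hPa
    rw [← hPa]
    congr 1
    refine Finset.sum_congr rfl fun i _ => ?_
    rw [eval₂_mul, eval₂_C, eval₂_pow, eval₂_X, ← riemann_alg]
    rfl

theorem riemann_exch {ι : Type} [Fintype ι] [DecidableEq ι] {b : ι → M}
    (hb : LinearIndependent (RatFunc 𝕜) b) {d : ι → ℕ} (hd : ∀ i, b i ∈ C.LL (d i)) (i0 : ι)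
    (g : ι → RatFunc 𝕜) (hg : g i0 ≠ 0)
    (h1 : ∀ (x : 𝕜) (h : M ≃ₐ[RatFunc 𝕜] M), C.w (some x) (h (∑ i, g i • b i)) ≤ 1)
    (h2 : ∀ h : M ≃ₐ[RatFunc 𝕜] M, C.w none (h (∑ i, g i • b i)) ≤ 2 ^ d i0 * 2⁻¹) :
    ∃ (b' : ι → M) (d' : ι → ℕ), LinearIndependent (RatFunc 𝕜) b' ∧ (∀ i, b' i ∈ C.LL (d' i)) ∧
      ∑ i, d' i < ∑ i, d i := by
  have h0 : ∑ i, g i • b i ≠ 0 := fun h => hg (Fintype.linearIndependent_iff.mp hb g h i0)
  obtain ⟨k, hk⟩ : ∃ k, d i0 = k + 1 := by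
    refine Nat.exists_eq_succ_of_ne_zero fun h => h0 (C.riemann_nonzero h1 fun σ => ?_)
    have := h2 σ
    rw [h] at this
    exact this.trans_lt (by norm_num)
  refine ⟨Function.update b i0 (∑ i, g i • b i), Function.update d i0 k, ?_, fun i => ?_, ?_⟩
  · refine hb.update i0 _ ⟨1, one_mem _,
      (Finsupp.linearEquivFunOnFinite (RatFunc 𝕜) (RatFunc 𝕜) ι).symm g,
      mem_nonZeroDivisors_of_ne_zero hg, ?_⟩
    rw [one_smul, Finsupp.linearCombination_eq_fintype_linearCombination_apply,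
      Fintype.linearCombination_apply]
  · by_cases hi : i = i0
    · subst hi
      rw [Function.update_self, Function.update_self]
      refine C.mem_LL.mpr ⟨h1, fun σ => ?_⟩
      have := h2 σ
      rwa [hk, pow_succ, mul_inv_cancel_right₀ two_ne_zero] at this
    · rw [Function.update_of_ne hi, Function.update_of_ne hi]
      exact hd i
  · refine Finset.sum_lt_sum (fun i _ => ?_) ⟨i0, Finset.mem_univ _, ?_⟩
    · by_cases hi : i = i0
      · subst hi
        rw [Function.update_self]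
        omega
      · rw [Function.update_of_ne hi]
    · rw [Function.update_self]
      omega

theorem riemann_fin {ι : Type} [Fintype ι] [DecidableEq ι] (b : Module.Basis ι (RatFunc 𝕜) M)
    {d : ι → ℕ} (hd : ∀ i, b i ∈ C.LL (d i))
    (hmin : ∀ (b' : ι → M) (d' : ι → ℕ), LinearIndependent (RatFunc 𝕜) b' →
      (∀ i, b' i ∈ C.LL (d' i)) → ∑ i, d i ≤ ∑ i, d' i) (x : 𝕜) (i : ι)
    (h : M ≃ₐ[RatFunc 𝕜] M) : C.w (some x) (h (b.traceDual i)) < 2 := by
  rcases C.riemann_local (some x) b (fun _ => 1) (fun _ => one_ne_zero)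
    (fun i h => by simpa using (C.mem_LL.mp (hd i)).1 x h) with hA | ⟨c, ⟨i1, hi1⟩, hc⟩
  · simpa using hA i h
  exfalso
  classical
  obtain ⟨i0, hi0, hmax⟩ := Finset.exists_max_image (Finset.univ.filter fun i => c i ≠ 0) d
    ⟨i1, by simpa using hi1⟩
  have hc0 : c i0 ≠ 0 := by simpa using hi0
  set π := algebraMap 𝕜[X] (RatFunc 𝕜) (X - Polynomial.C x) with hπ
  have hπ0 : π ≠ 0 := RatFunc.algebraMap_ne_zero (X_sub_C_ne_zero x)
  have he : ∑ i, (π⁻¹ * (algebraMap 𝕜 (RatFunc 𝕜) (c i) / 1)) • b i =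
      π⁻¹ • ∑ i, (algebraMap 𝕜 (RatFunc 𝕜) (c i) / 1) • b i := by
    rw [Finset.smul_sum]
    exact Finset.sum_congr rfl fun i _ => mul_smul _ _ _
  obtain ⟨b', d', h1, h2, h3⟩ := C.riemann_exch b.linearIndependent hd i0
    (fun i => π⁻¹ * (algebraMap 𝕜 (RatFunc 𝕜) (c i) / 1))
    (mul_ne_zero (inv_ne_zero hπ0) (div_ne_zero ((_root_.map_ne_zero _).mpr hc0) one_ne_zero))
    (fun x' σ => by
      rw [he, C.riemann_smul, map_inv₀, map_inv₀]
      by_cases hx : x' = x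
      · subst hx
        rw [C.riemann_lin_self]
        have := hc σ
        linarith
      · rw [C.riemann_lin_ne hx, inv_one, one_mul, map_sum]
        refine riemann_sum_le (C.na _) _ _ zero_le_one fun i _ => ?_
        rw [C.riemann_smul, div_one]
        exact mul_le_one₀ (C.riemann_const _ _) ((C.w _).nonneg _) ((C.mem_LL.mp (hd i)).1 x' σ))
    (fun σ => by
      rw [he, C.riemann_smul, map_inv₀, map_inv₀, C.riemann_lin_inf, mul_comm, map_sum]
      refine mul_le_mul_of_nonneg_right ?_ (by norm_num)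
      refine riemann_sum_le (C.na _) _ _ (by positivity) fun i _ => ?_
      rw [C.riemann_smul, div_one]
      by_cases hi : c i = 0
      · rw [hi, map_zero, map_zero, map_zero, zero_mul]
        positivity
      · refine (mul_le_of_le_one_left ((C.w _).nonneg _) (C.riemann_const _ _)).trans ?_
        exact ((C.mem_LL.mp (hd i)).2 σ).trans
          (pow_le_pow_right₀ one_le_two (hmax i (by simpa using hi))))
  exact absurd (hmin b' d' h1 h2) (not_le.mpr h3)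

theorem riemann_inf {ι : Type} [Fintype ι] [DecidableEq ι] (b : Module.Basis ι (RatFunc 𝕜) M)
    {d : ι → ℕ} (hd : ∀ i, b i ∈ C.LL (d i))
    (hmin : ∀ (b' : ι → M) (d' : ι → ℕ), LinearIndependent (RatFunc 𝕜) b' →
      (∀ i, b' i ∈ C.LL (d' i)) → ∑ i, d i ≤ ∑ i, d' i) (i : ι)
    (h : M ≃ₐ[RatFunc 𝕜] M) : 2 ^ d i * C.w none (h (b.traceDual i)) < 2 := by
  have hX : ∀ k : ℕ, C.w none (algebraMap (RatFunc 𝕜) M (RatFunc.X ^ k)) = 2 ^ k := fun k => by
    rw [map_pow, map_pow, C.riemann_X_inf]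
  rcases C.riemann_local none b (fun i => RatFunc.X ^ d i)
    (fun _ => pow_ne_zero _ RatFunc.X_ne_zero)
    (fun i h => by rw [hX]; exact (C.mem_LL.mp (hd i)).2 h) with hA | ⟨c, ⟨i1, hi1⟩, hc⟩
  · have := hA i h
    rwa [hX] at this
  exfalso
  classical
  obtain ⟨i0, hi0, hmax⟩ := Finset.exists_max_image (Finset.univ.filter fun i => c i ≠ 0) d
    ⟨i1, by simpa using hi1⟩
  have hc0 : c i0 ≠ 0 := by simpa using hi0
  have he : ∑ i, (RatFunc.X ^ d i0 * (algebraMap 𝕜 (RatFunc 𝕜) (c i) / RatFunc.X ^ d i)) • b i =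
      (RatFunc.X ^ d i0 : RatFunc 𝕜) •
        ∑ i, (algebraMap 𝕜 (RatFunc 𝕜) (c i) / RatFunc.X ^ d i) • b i := by
    rw [Finset.smul_sum]
    exact Finset.sum_congr rfl fun i _ => mul_smul _ _ _
  obtain ⟨b', d', h1, h2, h3⟩ := C.riemann_exch b.linearIndependent hd i0
    (fun i => RatFunc.X ^ d i0 * (algebraMap 𝕜 (RatFunc 𝕜) (c i) / RatFunc.X ^ d i))
    (mul_ne_zero (pow_ne_zero _ RatFunc.X_ne_zero)
      (div_ne_zero ((_root_.map_ne_zero _).mpr hc0) (pow_ne_zero _ RatFunc.X_ne_zero)))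
    (fun x σ => by
      rw [map_sum]
      refine riemann_sum_le (C.na _) _ _ zero_le_one fun i _ => ?_
      rw [C.riemann_smul]
      refine mul_le_one₀ ?_ ((C.w _).nonneg _) ((C.mem_LL.mp (hd i)).1 x σ)
      by_cases hi : c i = 0
      · simp [hi]
      · obtain ⟨k, hk⟩ := Nat.exists_eq_add_of_le (hmax i (by simpa using hi))
        have h4 : RatFunc.X ^ d i0 * (algebraMap 𝕜 (RatFunc 𝕜) (c i) / RatFunc.X ^ d i) =
            RatFunc.X ^ k * algebraMap 𝕜 (RatFunc 𝕜) (c i) := by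
          have : (RatFunc.X : RatFunc 𝕜) ≠ 0 := RatFunc.X_ne_zero
          rw [hk, pow_add]
          field_simp
        rw [h4, map_mul, map_mul, map_pow, map_pow]
        exact mul_le_one₀ (pow_le_one₀ ((C.w _).nonneg _) (C.riemann_X_fin x)) ((C.w _).nonneg _)
          (C.riemann_const _ _))
    (fun σ => by
      rw [he, C.riemann_smul, hX]
      exact mul_le_mul_of_nonneg_left (hc σ) (by positivity))
  exact absurd (hmin b' d' h1 h2) (not_le.mpr h3)

theorem riemann_deg {ι : Type} [Fintype ι] [DecidableEq ι] (b : Module.Basis ι (RatFunc 𝕜) M)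
    {d : ι → ℕ} (hd : ∀ i, b i ∈ C.LL (d i))
    (hmin : ∀ (b' : ι → M) (d' : ι → ℕ), LinearIndependent (RatFunc 𝕜) b' →
      (∀ i, b' i ∈ C.LL (d' i)) → ∑ i, d i ≤ ∑ i, d' i) (i : ι) : d i ≤ C.Ram.card := by
  by_contra hlt
  rw [not_le] at hlt
  set R : 𝕜[X] := ∏ x ∈ C.Ram, (X - Polynomial.C x) with hR
  have hR0 : R ≠ 0 := Finset.prod_ne_zero_iff.mpr fun x _ => X_sub_C_ne_zero x
  refine smul_ne_zero (RatFunc.algebraMap_ne_zero hR0) (b.traceDual.ne_zero i)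
    (C.riemann_nonzero (fun x σ => ?_) fun σ => ?_)
  · rw [C.riemann_smul]
    have h1 := C.riemann_fin b hd hmin x i σ
    by_cases hx : x ∈ C.Ram
    · have h2 : C.w (some x) (algebraMap (RatFunc 𝕜) M (algebraMap 𝕜[X] (RatFunc 𝕜) R)) ≤ 2⁻¹ := by
        classical
        rw [hR, ← Finset.mul_prod_erase _ _ hx, map_mul, map_mul, map_mul, C.riemann_lin_self]
        exact mul_le_of_le_one_right (by norm_num) (C.riemann_poly_fin x _)
      refine (mul_le_mul h2 h1.le ((C.w _).nonneg _) (by norm_num)).trans (by norm_num)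
    · obtain ⟨n, hn⟩ := C.disc x hx (σ (b.traceDual i))
        ((map_ne_zero_iff _ σ.injective).mpr (b.traceDual.ne_zero i))
      refine mul_le_one₀ (C.riemann_poly_fin x _) ((C.w _).nonneg _) ?_
      rw [hn] at h1 ⊢
      have := riemann_zpow_le (n := n) (k := 0) (by simpa using h1)
      simpa using this
  · rw [C.riemann_smul, riemann_alg, C.w_inf R hR0, hR, natDegree_finsetProd_X_sub_C_eq_card,
      zpow_natCast]
    have h1 := C.riemann_inf b hd hmin i σ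
    have h2 : (2 : ℝ) ^ (C.Ram.card + 1) ≤ 2 ^ d i := pow_le_pow_right₀ one_le_two hlt
    have h3 := mul_le_mul_of_nonneg_right h2 ((C.w none).nonneg (σ (b.traceDual i)))
    rw [pow_succ] at h3
    linarith

theorem riemann_basis : ∃ b : Fin (Module.finrank (RatFunc 𝕜) M) → M,
    LinearIndependent (RatFunc 𝕜) b ∧ ∀ i, b i ∈ C.LL C.Ram.card := by
  classical
  have hex : ∃ D : ℕ, ∃ (b : Fin (Module.finrank (RatFunc 𝕜) M) → M)
      (d : Fin (Module.finrank (RatFunc 𝕜) M) → ℕ), LinearIndependent (RatFunc 𝕜) b ∧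
      (∀ i, b i ∈ C.LL (d i)) ∧ ∑ i, d i = D := by
    let b0 := Module.finBasis (RatFunc 𝕜) M
    choose g hg d hd using fun i => C.riemann_mult (b0 i)
    exact ⟨_, fun i => g i • b0 i, d,
      b0.linearIndependent.units_smul fun i => Units.mk0 (g i) (hg i), hd, rfl⟩
  obtain ⟨b, d, hb, hd, hD⟩ := Nat.find_spec hex
  have : Nonempty (Fin (Module.finrank (RatFunc 𝕜) M)) := ⟨⟨0, Module.finrank_pos⟩⟩
  refine ⟨b, hb, fun i => C.LL_mono ?_ (hd i)⟩
  refine C.riemann_deg (basisOfLinearIndependentOfCardEqFinrank hb (Fintype.card_fin _))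
    (fun j => ?_) (fun b' d' h1 h2 => ?_) i
  · rw [coe_basisOfLinearIndependentOfCardEqFinrank]
    exact hd j
  · rw [hD]
    exact Nat.find_min' hex ⟨b', d', h1, h2, rfl⟩

theorem riemann (m : ℕ) : Module.finrank (RatFunc 𝕜) M * m ≤
    Module.finrank 𝕜 (C.LL m) + Module.finrank (RatFunc 𝕜) M * C.Ram.card := by
  rcases le_total m C.Ram.card with hm | hm
  · exact (Nat.mul_le_mul_left _ hm).trans (Nat.le_add_left _ _)
  obtain ⟨k, rfl⟩ := Nat.exists_eq_add_of_le hm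
  obtain ⟨b, hb, hd⟩ := C.riemann_basis
  have h1 : LinearIndependent 𝕜 fun j : Fin k => (RatFunc.X : RatFunc 𝕜) ^ (j : ℕ) := by
    have h2 := ((basisMonomials 𝕜).linearIndependent.comp (fun j : Fin k => (j : ℕ))
      Fin.val_injective).map' (IsScalarTower.toAlgHom 𝕜 𝕜[X] (RatFunc 𝕜)).toLinearMap
      (LinearMap.ker_eq_bot.mpr (RatFunc.algebraMap_injective 𝕜))
    have h3 : (fun j : Fin k => (RatFunc.X : RatFunc 𝕜) ^ (j : ℕ)) =
        (IsScalarTower.toAlgHom 𝕜 𝕜[X] (RatFunc 𝕜)).toLinearMap ∘ (basisMonomials 𝕜) ∘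
          fun j : Fin k => (j : ℕ) := by
      funext j
      simp [← X_pow_eq_monomial]
    rw [h3]
    exact h2
  have h3 := linearIndependent_smul h1 hb
  have h4 : ∀ p : Fin k × Fin (Module.finrank (RatFunc 𝕜) M),
      (RatFunc.X : RatFunc 𝕜) ^ (p.1 : ℕ) • b p.2 ∈ C.LL (C.Ram.card + k) := by
    intro p
    have h5 := C.mul_mem_LL (C.aeval_mem_LL (X ^ (p.1 : ℕ))) (hd p.2)
    rw [natDegree_X_pow, ← riemann_alg, map_pow, RatFunc.algebraMap_X, ← Algebra.smul_def] at h5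
    exact C.LL_mono (by have := p.1.2; omega) h5
  have := C.finite_LL (C.Ram.card + k)
  have h6 : LinearIndependent 𝕜 fun p : Fin k × Fin (Module.finrank (RatFunc 𝕜) M) =>
      (⟨_, h4 p⟩ : C.LL (C.Ram.card + k)) :=
    LinearIndependent.of_comp (C.LL (C.Ram.card + k)).subtype h3
  have h7 := h6.fintype_card_le_finrank
  rw [Fintype.card_prod, Fintype.card_fin, Fintype.card_fin, mul_comm] at h7
  rw [mul_add]
  omega

end Crv

end Pool.Agent.Smith
end

-- merged part: Pool.Agent.Work.MP_60d5ce_nt.Sm.Stepanov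
section
/-!
# The Bombieri-Stepanov upper bound

Hints.  `N = finrank`, `r = card Ram`, `s = q ^ (e / 2)`, `s' = q ^ ((e + 1) / 2)`, `s * s' = q ^ e`,
`l = (s' - 1) / N`.  If `l ≤ 2 r + 1` use `card_zeros` for `t - t ^ q ^ e`: at most `N q ^ e` zeros and
`s ≤ s' ≤ N (2 r + 2)`.  Otherwise `m = r + s / N + 3 r + 22`.  With `r i` from `exists_ord_basis l`,
the linear map `(b i) ↦ ∑ r i ^ s * b i` from `(LL m) ^ dim (LL l)` to `LL (l s + m)` has a nonzero
kernel (`riemann`, `finrank_le`: `N (l - r) * N (m - r) > N (l s + m) + 1`).  Put `c i = g⁻¹ (b i)`,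
`F = ∑ r i * c i ^ s' ∈ LL (l + m s')`.  `F ≠ 0` since the orders of the nonzero terms at the chosen
point are distinct modulo `s'` (`N l < s'`).  `F ^ s = ∑ r i ^ s * (c i ^ q ^ e - g (c i))` is small at
the points of `Z`.  So `card Z ≤ N (l + m s') ≤ q ^ e + N (4 r + 23) s'`.
-/

namespace Pool.Agent.Smith

open Polynomial

theorem stepanov_sum_lt {M ι : Type} [Field M] {w : AbsoluteValue M ℝ} (hw : IsNonarchimedean w)
    {c : ℝ} (hc : 0 < c) (T : Finset ι) (f : ι → M) (h : ∀ i ∈ T, w (f i) < c) :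
    w (∑ i ∈ T, f i) < c := by
  refine Finset.sum_induction f (fun a => w a < c) (fun a b ha hb => ?_) (by simpa using hc) h
  exact (hw a b).trans_lt (max_lt ha hb)

theorem stepanov_sum_ne {M ι : Type} [Field M] [Fintype ι] {w : AbsoluteValue M ℝ}
    (hw : IsNonarchimedean w) (f : ι → M) {j : ι} (hj : f j ≠ 0)
    (h : ∀ i k, f i ≠ 0 → w (f i) = w (f k) → i = k) : ∑ i, f i ≠ 0 := by
  classical
  obtain ⟨i, -, hi⟩ := Finset.exists_max_image Finset.univ (fun i => w (f i)) ⟨j, Finset.mem_univ j⟩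
  have h0 : 0 < w (f i) := (w.pos hj).trans_le (hi j (Finset.mem_univ j))
  have h1 := stepanov_sum_lt hw h0 (Finset.univ.erase i) f fun k hk =>
    lt_of_le_of_ne (hi k (Finset.mem_univ k)) fun e =>
      Finset.ne_of_mem_erase hk (h i k (w.pos_iff.1 h0) e.symm).symm
  intro e
  rw [← Finset.add_sum_erase _ _ (Finset.mem_univ i), add_eq_zero_iff_eq_neg] at e
  rw [e, w.map_neg] at h1
  exact lt_irrefl _ h1

theorem stepanov_pow_sum {M ι : Type} [Field M] {q : ℕ} (hq : q ≠ 0)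
    (hadd : ∀ a b : M, (a + b) ^ q = a ^ q + b ^ q) (k : ℕ) (T : Finset ι) (f : ι → M) :
    (∑ i ∈ T, f i) ^ q ^ k = ∑ i ∈ T, f i ^ q ^ k := by
  classical
  have h : ∀ (k : ℕ) (a b : M), (a + b) ^ q ^ k = a ^ q ^ k + b ^ q ^ k := by
    intro k
    induction k with
    | zero => simp
    | succ k ih => intro a b; simp only [pow_succ q, pow_mul, ih, hadd]
  induction T using Finset.induction_on with
  | empty => simp [hq]
  | insert a T ha ih => rw [Finset.sum_insert ha, Finset.sum_insert ha, h, ih]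

theorem stepanov_num {N r s l u A D : ℕ} (hN : 0 < N) (hl : 2 * r + 2 ≤ l)
    (hs : s ≤ N * l + N) (hu : s + N * (3 * r + 21) + 1 ≤ N * u) (hA : N * l ≤ A + N * r)
    (hD : N * (r + u) ≤ D + N * r) : N * (l * s + (r + u)) + 1 < A * D := by
  obtain ⟨v, rfl⟩ : ∃ v, l = r + (v + r + 2) := ⟨l - (2 * r + 2), by omega⟩
  obtain ⟨a, ha⟩ : ∃ a, N * (v + r + 2) = a + 1 := ⟨N * (v + r + 2) - 1, by
    have := Nat.mul_pos hN (show 0 < v + r + 2 by omega)
    omega⟩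
  have h1 : a + 1 ≤ A := by rw [mul_add, ha] at hA; omega
  have h2 : N * u ≤ D := by rw [mul_add] at hD; omega
  refine lt_of_lt_of_le ?_ (Nat.mul_le_mul h1 h2)
  have h3 : N * ((r + (v + r + 2)) * s + (r + u)) = N * r * s + (a + 1) * s + N * r + N * u := by
    rw [← ha]; ring
  have h4 : N * r + 2 * N ≤ a + 1 := by rw [← ha]; nlinarith [Nat.zero_le (N * v)]
  have h5 : s + 1 ≤ 2 * (a + 1) := by rw [mul_add, ha] at hs; omega
  have h6 : s + 3 * (N * r) + 22 ≤ N * u := by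
    have : N * (3 * r + 21) = 3 * (N * r) + 21 * N := by ring
    omega
  have h7 : r = 0 ∨ 2 ≤ a := by
    rcases Nat.eq_zero_or_pos r with h | h
    · exact Or.inl h
    · have := Nat.mul_pos hN h
      omega
  rw [h3]
  have h8 := Nat.mul_le_mul_left a h6
  have h9 := Nat.mul_le_mul_right (N * r + 1) h5
  have h10 : 2 * (N * r) ≤ a * (N * r) := by
    rcases h7 with h | h
    · simp [h]
    · exact Nat.mul_le_mul_right _ h
  have h11 : 1 ≤ a := by omega
  generalize N * r = R at *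
  generalize N * u = b at *
  nlinarith

variable {𝕜 M : Type} [Field 𝕜] [Field M] [Algebra 𝕜 M] [Algebra (RatFunc 𝕜) M]
  [IsScalarTower 𝕜 (RatFunc 𝕜) M] [IsAlgClosed 𝕜] [FiniteDimensional (RatFunc 𝕜) M]
  [IsGalois (RatFunc 𝕜) M]

/-- the auxiliary function -/
theorem Crv.stepanov_aux (C : Crv 𝕜 M) {s s' l m : ℕ} (hs : s ≠ 0)
    (hadd : ∀ (d : ℕ) (f : Fin d → M), (∑ i, f i) ^ s = ∑ i, f i ^ s) (g : M ≃+* M)
    (ht : g (tM 𝕜 M) = tM 𝕜 M)
    (hc : ∀ c : 𝕜, ∃ c' : 𝕜, g.symm (algebraMap 𝕜 M c) = algebraMap 𝕜 M c')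
    (hl : Module.finrank (RatFunc 𝕜) M * l < s')
    (hd : Module.finrank (RatFunc 𝕜) M * (l * s + m) + 1 <
      Module.finrank 𝕜 (C.LL l) * Module.finrank 𝕜 (C.LL m))
    (Z : Finset (𝕜 × (M ≃ₐ[RatFunc 𝕜] M)))
    (hZ : ∀ z ∈ Z, z.1 ∉ C.Ram ∧
      ∀ m, ∀ f ∈ C.LL m, C.w (some z.1) (z.2 (g f - f ^ (s' * s))) < 1) :
    Z.card ≤ Module.finrank (RatFunc 𝕜) M * (l + m * s') := by
  obtain ⟨x, hx⟩ := Infinite.exists_notMem_finset C.Ram
  obtain ⟨r, n, hn, hr⟩ := C.exists_ord_basis l hx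
  have := C.finite_LL m
  have := C.finite_LL (l * s + m)
  let φ : (Fin (Module.finrank 𝕜 (C.LL l)) → C.LL m) →ₗ[𝕜] C.LL (l * s + m) :=
    { toFun := fun b => ⟨∑ i, r i ^ s * (b i : M), Submodule.sum_mem _ fun i _ =>
        C.mul_mem_LL (C.pow_mem_LL (hr i).1 s) (b i).2⟩
      map_add' := fun b b' => Subtype.ext (by simp [mul_add, Finset.sum_add_distrib])
      map_smul' := fun a b => Subtype.ext (by simp [Finset.smul_sum]) }
  have hk : LinearMap.ker φ ≠ ⊥ := φ.ker_ne_bot_of_finrank_lt (by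
    rw [Module.finrank_pi_fintype, Finset.sum_const, Finset.card_univ, Fintype.card_fin,
      smul_eq_mul]
    exact (C.finrank_le _).trans_lt hd)
  obtain ⟨b, hb, hb0⟩ := Submodule.exists_mem_ne_zero_of_ne_bot hk
  have hb1 : ∑ i, r i ^ s * (b i : M) = 0 := congrArg Subtype.val (LinearMap.mem_ker.1 hb)
  obtain ⟨j, hj⟩ := Function.ne_iff.1 hb0
  have hcm : ∀ i, g.symm (b i) ∈ C.LL m := fun i =>
    C.map_mem_LL g.symm (g.symm_apply_eq.2 ht.symm) hc (b i).2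
  have hr0 : ∀ i, r i ≠ 0 := fun i h => by
    have h1 := (hr i).2.2
    rw [h, map_zero] at h1
    exact (zpow_pos two_pos _).ne h1
  have hw : ∀ i, r i * g.symm (b i) ^ s' ≠ 0 →
      ∃ k : ℕ, C.w (some x) (r i * g.symm (b i) ^ s') = 2 ^ (-((n i + s' * k : ℕ) : ℤ)) := by
    intro i hi
    obtain ⟨k, -, hk⟩ := C.exists_ord (hcm i)
      (fun h => hi (by rw [h, zero_pow (by omega), mul_zero])) hx
    refine ⟨k, ?_⟩
    rw [map_mul, map_pow, (hr i).2.2, hk, ← zpow_natCast, ← zpow_mul, ← zpow_add₀ two_ne_zero]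
    congr 1
    push_cast
    ring
  refine C.card_zeros (f := ∑ i, r i * g.symm (b i) ^ s') (Submodule.sum_mem _ fun i _ =>
    C.mul_mem_LL (hr i).1 (C.pow_mem_LL (hcm i) s')) ?_ Z fun z hz => ⟨(hZ z hz).1, ?_⟩
  · refine stepanov_sum_ne (C.na (some x)) _ (j := j) (mul_ne_zero (hr0 j) (pow_ne_zero _ ?_)) ?_
    · exact (map_ne_zero g.symm).2 fun h => hj (Subtype.ext h)
    · intro i k hi hik
      obtain ⟨a, ha⟩ := hw i hi
      obtain ⟨a', ha'⟩ := hw k fun h => hi (by rwa [h, map_zero, AbsoluteValue.eq_zero] at hik)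
      rw [ha, ha', zpow_right_inj₀ two_pos (by norm_num), neg_inj, Nat.cast_inj] at hik
      have h1 := congrArg (· % s') hik
      simp only [Nat.add_mul_mod_self_left] at h1
      rw [Nat.mod_eq_of_lt ((hr i).2.1.trans_lt hl), Nat.mod_eq_of_lt ((hr k).2.1.trans_lt hl)] at h1
      exact hn h1
  · have h1 : (∑ i, r i * g.symm (b i) ^ s') ^ s =
        -∑ i, r i ^ s * (g (g.symm (b i)) - g.symm (b i) ^ (s' * s)) := by
      simp only [hadd, mul_pow, ← pow_mul, g.apply_symm_apply, mul_sub, Finset.sum_sub_distrib, hb1,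
        zero_sub, neg_neg]
    rw [← pow_lt_one_iff_of_nonneg (AbsoluteValue.nonneg _ _) hs, ← map_pow, ← map_pow, h1, map_neg,
      AbsoluteValue.map_neg, map_sum]
    refine stepanov_sum_lt (C.na _) one_pos _ _ fun i _ => ?_
    rw [map_mul, map_mul, map_pow, map_pow]
    exact mul_lt_one_of_nonneg_of_lt_one_right
      (pow_le_one₀ (AbsoluteValue.nonneg _ _) ((hr i).1.1 z.1 z.2)) (AbsoluteValue.nonneg _ _)
      ((hZ z hz).2 m _ (hcm i))

theorem Crv.stepanov_triv (C : Crv 𝕜 M) {Q : ℕ} (hQ : 2 ≤ Q) (g : M ≃+* M)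
    (ht : g (tM 𝕜 M) = tM 𝕜 M) (Z : Finset (𝕜 × (M ≃ₐ[RatFunc 𝕜] M)))
    (hZ : ∀ z ∈ Z, z.1 ∉ C.Ram ∧
      ∀ m, ∀ f ∈ C.LL m, C.w (some z.1) (z.2 (g f - f ^ Q)) < 1) :
    Z.card ≤ Module.finrank (RatFunc 𝕜) M * Q := by
  have hd : (X - X ^ Q : 𝕜[X]).natDegree = Q := by
    rw [natDegree_sub_eq_right_of_natDegree_lt (by rw [natDegree_X, natDegree_X_pow]; omega),
      natDegree_X_pow]
  have h0 : (X - X ^ Q : 𝕜[X]) ≠ 0 := fun h => by
    rw [h, natDegree_zero] at hd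
    omega
  have h1 := C.aeval_mem_LL (X - X ^ Q)
  have h2 := C.w_inf _ h0
  have h3 := C.aeval_mem_LL X
  rw [hd] at h1
  rw [map_sub, map_pow, aeval_X] at h1 h2
  rw [aeval_X] at h3
  refine C.card_zeros h1 (fun h => ?_) Z fun z hz => ⟨(hZ z hz).1, ?_⟩
  · rw [h, map_zero] at h2
    exact (zpow_pos two_pos _).ne h2
  · have h4 := (hZ z hz).2 _ _ h3
    rwa [ht] at h4

theorem Crv.stepanov (C : Crv 𝕜 M) {q e : ℕ} (hq : 4 ≤ q) (he : 0 < e)
    (hadd : ∀ a b : M, (a + b) ^ q = a ^ q + b ^ q) (g : M ≃+* M) (ht : g (tM 𝕜 M) = tM 𝕜 M)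
    (hc : ∀ c : 𝕜, ∃ c' : 𝕜, g.symm (algebraMap 𝕜 M c) = algebraMap 𝕜 M c')
    (Z : Finset (𝕜 × (M ≃ₐ[RatFunc 𝕜] M)))
    (hZ : ∀ z ∈ Z, z.1 ∉ C.Ram ∧
      ∀ m, ∀ f ∈ C.LL m, C.w (some z.1) (z.2 (g f - f ^ q ^ e)) < 1) :
    (Z.card : ℝ) ≤ (q : ℝ) ^ e + 18 * (Module.finrank (RatFunc 𝕜) M : ℝ) ^ 2 *
      (C.Ram.card + 2) * (q : ℝ) ^ ((e + 1) / 2) := by
  have hN : 0 < Module.finrank (RatFunc 𝕜) M := Module.finrank_pos
  have hss : q ^ ((e + 1) / 2) * q ^ (e / 2) = q ^ e := by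
    rw [← pow_add]
    congr 1
    omega
  have hs0 : 0 < q ^ (e / 2) := by positivity
  have hs1 : q ^ (e / 2) ≤ q ^ ((e + 1) / 2) := Nat.pow_le_pow_right (by omega) (by omega)
  have hQ : 2 ≤ q ^ e := le_trans (by omega) (Nat.le_self_pow he.ne' q)
  have haux := fun l m => C.stepanov_aux (s := q ^ (e / 2)) (s' := q ^ ((e + 1) / 2)) (l := l)
    (m := m) hs0.ne' (fun d f => stepanov_pow_sum (by omega) hadd _ _ f) g ht hc
  have htriv := C.stepanov_triv hQ g ht Z hZ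
  have hR := C.riemann
  suffices h : Z.card ≤ q ^ e + 18 * Module.finrank (RatFunc 𝕜) M ^ 2 * (C.Ram.card + 2) *
      q ^ ((e + 1) / 2) by exact_mod_cast h
  rw [← hss] at hZ htriv ⊢
  generalize q ^ (e / 2) = s at *
  generalize q ^ ((e + 1) / 2) = s' at *
  generalize Module.finrank (RatFunc 𝕜) M = N at *
  generalize C.Ram.card = r at *
  have hl1 := Nat.mul_div_le (s' - 1) N
  have hl2 := Nat.lt_mul_div_succ (s' - 1) hN
  have hu1 := Nat.mul_div_le s N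
  have hu2 := Nat.lt_mul_div_succ s hN
  generalize (s' - 1) / N = l at *
  generalize s / N = u at *
  rw [mul_add, mul_one] at hl2 hu2
  have hNN : N ≤ N ^ 2 := Nat.le_self_pow two_ne_zero N
  by_cases hl : l ≤ 2 * r + 1
  · have h1 := Nat.mul_le_mul_left N hl
    have h2 : s ≤ N * (2 * r + 2) := by
      have : N * (2 * r + 2) = N * (2 * r + 1) + N := by ring
      omega
    calc Z.card ≤ N * (s' * s) := htriv
      _ ≤ N * (s' * (N * (2 * r + 2))) := by gcongr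
      _ = N ^ 2 * (2 * r + 2) * s' := by ring
      _ ≤ N ^ 2 * (18 * (r + 2)) * s' := by gcongr; omega
      _ = 18 * N ^ 2 * (r + 2) * s' := by ring
      _ ≤ _ := Nat.le_add_left _ _
  · have h1 := haux l (r + (u + 3 * r + 22)) (by omega) (stepanov_num hN (by omega) (by omega) (by
      have : N * (u + 3 * r + 22) = N * u + N + N * (3 * r + 21) := by ring
      omega) (hR _) (hR _)) Z hZ
    calc Z.card ≤ _ := h1
      _ = N * l + s' * (N * u) + N * (4 * r + 22) * s' := by ring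
      _ ≤ N * s' + s' * s + N * (4 * r + 22) * s' := by
          have h2 : N * l ≤ N * s' := (hl1.trans (Nat.sub_le _ _)).trans
            (Nat.le_mul_of_pos_left _ hN)
          exact Nat.add_le_add_right (Nat.add_le_add h2 (Nat.mul_le_mul_left _ hu1)) _
      _ = s' * s + N * (4 * r + 23) * s' := by ring
      _ ≤ s' * s + N ^ 2 * (18 * (r + 2)) * s' := by gcongr; omega
      _ = _ := by ring

end Pool.Agent.Smith
end
end

-- merged part: Pool.Agent.Work.MP_60d5ce_nt.Sm.Cheb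
section
-- merged part: Pool.Agent.Work.MP_60d5ce_nt.Sm.GalLoc
section
/-!
# Places and local models: elementary facts

Hints.
* `Loc.kum_tau`: `r ^ 3 = unif ^ n * u` with `w u = 1`; a cube root `s` of `u` has `τ s = ζ ^ i * s`
  and `w (τ s - s) < 1` (`τh_res`), while `ζ ^ i - 1` is zero or a constant of size one.
* `exists_place`: `v` is the minimal polynomial of `y` over `k`; its roots are the `x ^ q ^ i`
  (`FiniteField.minpoly_frobeniusAlgHom`, `FiniteField.orderOf_frobeniusAlgEquivOfAlgebraic` on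
  `k⟮x⟯`, or: the product of `X - x ^ q ^ i` over one period has coefficients fixed by `frob`).
-/

namespace Pool.Agent.Smith

open scoped Classical
open Polynomial

noncomputable section

variable {k : Type} [Field k] [Fintype k] {Ω : Type} [Field Ω] [Algebra (RatFunc k) Ω]
  [Algebra k Ω] [IsScalarTower k (RatFunc k) Ω]

section places

theorem pdg_pos (v : Pl k) : 0 < pdg v := by
  cases v with
  | none => exact Nat.one_pos
  | some p => exact p.2.2.natDegree_pos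

theorem pdg_fin (e : ℕ) : {v : Pl k | pdg v = e}.Finite := by
  have h : {p : {p : k[X] // p.Monic ∧ Irreducible p} | p.1.natDegree = e}.Finite := by
    refine Set.Finite.of_finite_image (f := fun p (i : Fin (e + 1)) => p.1.coeff i)
      (Set.toFinite _) fun p hp p' hp' h => Subtype.ext (Polynomial.ext fun i => ?_)
    by_cases hi : i < e + 1
    · exact congrFun h ⟨i, hi⟩
    · have h1 : p.1.natDegree = e := hp
      have h2 : p'.1.natDegree = e := hp'
      rw [coeff_eq_zero_of_natDegree_lt (by omega), coeff_eq_zero_of_natDegree_lt (by omega)]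
  refine ((h.image some).insert none).subset fun v hv => ?_
  cases v with
  | none => exact Set.mem_insert _ _
  | some p => exact Set.mem_insert_of_mem _ ⟨p, hv, rfl⟩

variable {ζ : k} {v : Pl k}

theorem Loc.w_na (l : Loc Ω ζ v) : IsNonarchimedean l.w := by
  intro a b
  simpa only [Loc.w_apply, map_add] using l.wΛ_na (l.ι a) (l.ι b)

theorem Loc.w_lin (l : Loc Ω ζ v) (hv : v ≠ none) {y : Kb k Ω} (hy : y ≠ l.x) :
    l.w (tt k Ω - y) = 1 := by
  obtain ⟨p, rfl⟩ := Option.ne_none_iff_exists'.1 hv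
  have h1 : l.w (tt k Ω - l.x) = 2⁻¹ := l.w_unif
  have h2 : l.w ((l.x - y : Kb k Ω) : Ω) = 1 := l.w_const _ (sub_ne_zero.2 hy.symm)
  have e : tt k Ω - y = (tt k Ω - l.x) + ((l.x - y : Kb k Ω) : Ω) := by
    push_cast
    ring
  rw [e, l.w_na.add_eq_right_of_lt (by rw [h1, h2]; norm_num), h2]

theorem Loc.w_τ (l : Loc Ω ζ v) (a : Ω) : l.w (gal l.τ a) = l.w a := by
  rw [Loc.w_apply, l.ι_τ, l.wΛ_iso, Loc.w_apply]

theorem Loc.w_σ (l : Loc Ω ζ v) (a : Ω) : l.w (gal l.σ a) = l.w a := by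
  rw [Loc.w_apply, l.ι_σ, l.wΛ_iso, Loc.w_apply]

theorem Loc.τ_res (l : Loc Ω ζ v) {a : Ω} (ha : l.w a ≤ 1) : l.w (gal l.τ a - a) < 1 := by
  rw [Loc.w_apply, map_sub, l.ι_τ]
  exact l.τh_res _ ha

theorem Loc.σ_res (l : Loc Ω ζ v) {a : Ω} (ha : l.w a ≤ 1) :
    l.w (gal l.σ a - a ^ Fintype.card k ^ pdg v) < 1 := by
  rw [Loc.w_apply, map_sub, map_pow, l.ι_σ]
  exact l.σh_res _ ha

theorem Loc.w_res (l : Loc Ω ζ v) {a : Ω} (ha : l.w a ≤ 1) : ∃ c : Kb k Ω, l.w (a - c) < 1 := by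
  obtain ⟨c, hc⟩ := l.Λ_res _ ha
  exact ⟨c, by rwa [Loc.w_apply, map_sub]⟩

end places

variable [IsSepClosure (RatFunc k) Ω]

section places

variable {ζ : k} {v : Pl k}

theorem galloc_split (l : Loc Ω ζ v) {p : (Kb k Ω)[X]} (hp : p ≠ 0) :
    l.w (aeval (tt k Ω) p) = (p.roots.map fun a : Kb k Ω => l.w (tt k Ω - a)).prod := by
  have h1 : l.w (algebraMap (Kb k Ω) Ω p.leadingCoeff) = 1 :=
    l.w_const _ (leadingCoeff_ne_zero.2 hp)
  conv_lhs => rw [(IsAlgClosed.splits p).eq_prod_roots]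
  rw [map_mul, map_mul, aeval_C, h1, one_mul, map_multiset_prod, map_multiset_prod,
    Multiset.map_map, Multiset.map_map]
  congr 1
  refine Multiset.map_congr rfl fun a _ => ?_
  simp

omit [IsSepClosure (RatFunc k) Ω] in
theorem galloc_fix {x : Kb k Ω} (m : ℕ) : (frob k Ω ^ m) x = x ↔ (minpoly k x).natDegree ∣ m := by
  have hx : IsIntegral k x := Algebra.IsIntegral.isIntegral x
  rw [(minpoly.irreducible hx).natDegree_dvd_iff_dvd_X_pow_card_pow_sub_X, minpoly.dvd_iff,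
    frob_pow_apply, Nat.card_eq_fintype_card, map_sub, map_pow, aeval_X, sub_eq_zero]

omit [IsSepClosure (RatFunc k) Ω] in
theorem galloc_inj {x : Kb k Ω} {i j : ℕ} (hi : i < (minpoly k x).natDegree)
    (hj : j < (minpoly k x).natDegree) (h : (frob k Ω ^ i) x = (frob k Ω ^ j) x) : i = j := by
  wlog hij : i ≤ j generalizing i j
  · exact (this hj hi h.symm (by omega)).symm
  obtain ⟨m, rfl⟩ := Nat.exists_eq_add_of_le hij
  rw [pow_add, AlgEquiv.mul_apply] at h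
  have h1 := (galloc_fix m).1 ((frob k Ω ^ i).injective h).symm
  have := Nat.eq_zero_of_dvd_of_lt h1 (by omega)
  omega

omit [IsSepClosure (RatFunc k) Ω] in
theorem galloc_min {p : {p : k[X] // p.Monic ∧ Irreducible p}} (l : Loc Ω ζ (some p)) :
    p.1 = minpoly k l.x :=
  minpoly.eq_of_irreducible_of_monic p.2.2 (l.root p rfl) p.2.1

theorem Loc.w_poly (l : Loc Ω ζ v) (hv : v ≠ none) {p : (Kb k Ω)[X]} (hp : p ≠ 0) :
    l.w (aeval (tt k Ω) p) = 2 ^ (-(p.rootMultiplicity l.x : ℤ)) := by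
  rw [galloc_split l hp, ← count_roots]
  generalize p.roots = s
  induction s using Multiset.induction_on with
  | empty => simp
  | cons a s ih =>
    rw [Multiset.map_cons, Multiset.prod_cons, ih]
    by_cases ha : a = l.x
    · obtain ⟨p, rfl⟩ := Option.ne_none_iff_exists'.1 hv
      have h1 : l.w (tt k Ω - l.x) = 2⁻¹ := l.w_unif
      rw [ha, h1, Multiset.count_cons_self]
      push_cast
      rw [neg_add, zpow_add₀ two_ne_zero, zpow_neg_one, mul_comm]
    · rw [l.w_lin hv ha, one_mul, Multiset.count_cons_of_ne (Ne.symm ha)]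

theorem Loc.w_poly_inf (l : Loc Ω ζ none) {p : (Kb k Ω)[X]} (hp : p ≠ 0) :
    l.w (aeval (tt k Ω) p) = 2 ^ (p.natDegree : ℤ) := by
  have h1 : l.w (tt k Ω) = 2 := by
    have h : l.w (tt k Ω)⁻¹ = 2⁻¹ := l.w_unif
    rwa [map_inv₀, inv_inj] at h
  have h2 : ∀ a : Kb k Ω, l.w (tt k Ω - a) = 2 := fun a => by
    by_cases ha : a = 0
    · simp [ha, h1]
    · have h3 : l.w (-(a : Ω)) = 1 := by
        rw [AbsoluteValue.map_neg]
        exact l.w_const _ ha
      rw [sub_eq_add_neg, l.w_na.add_eq_left_of_lt (by rw [h1, h3]; norm_num), h1]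
  rw [galloc_split l hp, (IsAlgClosed.splits p).natDegree_eq_card_roots]
  simp [h2]

theorem Loc.kum_tau (hζ : IsPrimitiveRoot ζ 3) (l : Loc Ω ζ v) {r : Ω} (hr : r ≠ 0)
    (hf : gal l.τ (r ^ 3) = r ^ 3) {n : ℤ} (hn : l.w (r ^ 3) = 2 ^ (-n)) :
    kum ζ r (gal l.τ) = (n : F3) := by
  have h3 : (3 : k) ≠ 0 := by exact_mod_cast hζ.neZero'.out
  have hz := hζ.map_of_injective (algebraMap k Ω).injective
  have hz0 : algebraMap k Ω ζ ≠ 0 := hz.ne_zero (by norm_num)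
  obtain ⟨s, hs⟩ : ∃ s : Ω, s ^ 3 = unif v l.x := ⟨_, cbrt_spec h3 _⟩
  have hw : l.w (s ^ 3) = 2⁻¹ := hs ▸ l.w_unif
  have hs0 : s ≠ 0 := by
    rintro rfl
    simp at hw
  have hτ := l.kummer s hs
  obtain ⟨u, rfl⟩ : ∃ u, r = u * s ^ n := ⟨r / s ^ n, (div_mul_cancel₀ _ (zpow_ne_zero _ hs0)).symm⟩
  have hu0 : u ≠ 0 := left_ne_zero_of_mul hr
  have e3 : (s ^ n) ^ 3 = (s ^ 3) ^ n := by
    rw [← zpow_natCast, ← zpow_natCast, ← zpow_mul, ← zpow_mul, mul_comm]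
  have hu : l.w u = 1 := by
    rw [mul_pow, e3, map_mul, map_zpow₀, hw, inv_zpow', map_pow,
      mul_eq_right₀ (zpow_ne_zero _ two_ne_zero)] at hn
    exact (pow_eq_one_iff_of_nonneg (l.w.nonneg u) three_ne_zero).1 hn
  have hf' : gal l.τ (u ^ 3) = u ^ 3 := by
    have h1 : gal l.τ (s ^ 3) = s ^ 3 := by rw [map_pow, hτ, mul_pow, hz.pow_eq_one, one_mul]
    rw [mul_pow, e3, map_mul, map_zpow₀, h1] at hf
    exact mul_right_cancel₀ (zpow_ne_zero _ (pow_ne_zero _ hs0)) hf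
  have hτu : gal l.τ u = u := by
    have h1 := kum_spec hζ hu0 hf'
    have h2 := l.τ_res hu.le
    generalize (kum ζ u (gal l.τ)).val = i at h1
    by_contra hne
    have h4 : algebraMap k (Kb k Ω) (ζ ^ i - 1) ≠ 0 := by
      rw [_root_.map_ne_zero, sub_ne_zero]
      intro h
      rw [← map_pow, h, map_one, one_mul] at h1
      exact hne h1
    have h5 : l.w (algebraMap k Ω (ζ ^ i - 1)) = 1 := l.w_const _ h4
    rw [h1, ← sub_one_mul, map_mul, hu, mul_one] at h2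
    rw [map_sub, map_pow, map_one] at h5
    exact h2.ne h5
  refine kum_eq hζ hr ?_
  have e : algebraMap k Ω ζ ^ n = algebraMap k Ω ζ ^ (n : F3).val := by
    rw [← zpow_natCast, ZMod.val_intCast]
    conv_lhs => rw [← Int.mul_ediv_add_emod n (3 : ℕ), zpow_add₀ hz0, zpow_mul, zpow_natCast,
      hz.pow_eq_one, one_zpow, one_mul]
  rw [map_mul, map_zpow₀, hτu, hτ, mul_zpow, e]
  ring

/-- every constant is conjugate to the chosen point of a finite place -/
theorem exists_place (ℓ : Locs Ω ζ) (y : Kb k Ω) :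
    ∃ (v : Pl k) (i : ℕ), v ≠ none ∧ i < pdg v ∧ y = (frob k Ω ^ i) (ℓ v).x := by
  have hy : IsIntegral k y := Algebra.IsIntegral.isIntegral y
  let p : {p : k[X] // p.Monic ∧ Irreducible p} :=
    ⟨minpoly k y, minpoly.monic hy, minpoly.irreducible hy⟩
  have hp : minpoly k y = minpoly k (ℓ (some p)).x := galloc_min (ℓ (some p))
  have hd : pdg (some p) = (minpoly k (ℓ (some p)).x).natDegree := congrArg natDegree hp
  refine ⟨some p, ?_⟩
  rw [hd]
  generalize (ℓ (some p)).x = x at hp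
  have h0 : minpoly k x ≠ 0 := hp ▸ minpoly.ne_zero hy
  have h1 : (Finset.range (minpoly k x).natDegree).image (fun i => (frob k Ω ^ i) x) =
      ((minpoly k x).aroots (Kb k Ω)).toFinset := by
    refine Finset.eq_of_subset_of_card_le (fun z hz => ?_) ?_
    · obtain ⟨i, -, rfl⟩ := Finset.mem_image.1 hz
      rw [Multiset.mem_toFinset, mem_aroots]
      exact ⟨h0, by rw [aeval_algHom_apply, minpoly.aeval, map_zero]⟩
    · rw [Finset.card_image_of_injOn fun i hi j hj h =>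
        galloc_inj (Finset.mem_range.1 hi) (Finset.mem_range.1 hj) h, Finset.card_range]
      exact (Multiset.toFinset_card_le _).trans ((card_roots' _).trans natDegree_map_le)
  have h2 : y ∈ ((minpoly k x).aroots (Kb k Ω)).toFinset := by
    rw [Multiset.mem_toFinset, mem_aroots]
    exact ⟨h0, hp ▸ minpoly.aeval k y⟩
  rw [← h1] at h2
  obtain ⟨i, hi, rfl⟩ := Finset.mem_image.1 h2
  exact ⟨i, Option.some_ne_none _, Finset.mem_range.1 hi, rfl⟩

theorem place_unique (ℓ : Locs Ω ζ) {v v' : Pl k} (hv : v ≠ none) (hv' : v' ≠ none) {i i' : ℕ}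
    (hi : i < pdg v) (hi' : i' < pdg v')
    (h : (frob k Ω ^ i) (ℓ v).x = (frob k Ω ^ i') (ℓ v').x) : v = v' ∧ i = i' := by
  obtain ⟨p, rfl⟩ := Option.ne_none_iff_exists'.1 hv
  obtain ⟨p', rfl⟩ := Option.ne_none_iff_exists'.1 hv'
  have h1 := congrArg (minpoly k) h
  rw [minpoly.algEquiv_eq, minpoly.algEquiv_eq, ← galloc_min, ← galloc_min] at h1
  obtain rfl : p = p' := Subtype.ext h1
  have hd : pdg (some p) = (minpoly k (ℓ (some p)).x).natDegree :=
    congrArg natDegree (galloc_min (ℓ (some p)))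
  exact ⟨rfl, galloc_inj (hd ▸ hi) (hd ▸ hi') h⟩

theorem frob_pdg (l : Loc Ω ζ v) (hv : v ≠ none) : (frob k Ω ^ pdg v) l.x = l.x := by
  obtain ⟨p, rfl⟩ := Option.ne_none_iff_exists'.1 hv
  rw [galloc_fix, ← galloc_min]
  rfl

end places

end

end Pool.Agent.Smith
end

-- merged part: Pool.Agent.Work.MP_60d5ce_nt.Sm.RecipA
section
/-!
# Characters of the Weil group: existence, uniqueness, finiteness, generation

Hints.
* `ord_conj`: `kum r (g⁻¹ τ g) = kum (g r) τ`, then `Loc.kum_tau`.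
* `uniq_geom`: `exists_kummer` gives `r ^ 3 = jK b`; for a constant `y = frob ^ i x_v`
  (`exists_place`) and `g = φ ^ (-i)`, `Loc.kum_tau` and `Loc.w_poly` show that three divides the order
  of `b` at `y`; so `b` is a constant times a cube, constants are cubes, `r ∈ jK`-range.
* `tau_fin`: `U` contains the fixer of a finite set; for `a` in it, the minimal polynomial over
  `RatFunc k` has integral coefficients and its roots have differences of size one at all places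
  outside a finite set (a nonzero element of `RatFunc k` has size one at almost all places; use the
  product of the differences of the roots, or Bezout `u f + v f' = 1`), and `w (τ a - a) < 1`.
* `gen`: `Z` consists of `φ = σ ∞` and the `τ v`, `v ∈ A`.  Apply `frattini` to `WG0 / U` and the
  subgroup generated by the conjugates `φ ^ i * τ v * φ ^ (-i)`, `i ∈ ℤ`, `v ∈ A`, with `uniq_geom`.
-/

namespace Pool.Agent.Smith

open Polynomial

theorem RecipA_cube {K : Type} [Field K] [IsAlgClosed K] (p : K[X])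
    (h : ∀ y, 3 ∣ p.rootMultiplicity y) : ∃ s, p = s ^ 3 := by
  classical
  obtain ⟨u, hu⟩ := Multiset.exists_smul_of_dvd_count p.roots (k := 3) fun a _ => by
    rw [count_roots]
    exact h a
  obtain ⟨d, hd⟩ := IsAlgClosed.exists_pow_nat_eq p.leadingCoeff (n := 3) (by norm_num)
  refine ⟨C d * (u.map fun a => X - C a).prod, ?_⟩
  rw [mul_pow, ← map_pow, hd, ← Multiset.prod_nsmul, ← Multiset.map_nsmul, ← hu]
  exact (IsAlgClosed.splits p).eq_prod_roots

theorem RecipA_sum {Ω ι : Type} [Field Ω] {w : AbsoluteValue Ω ℝ} (hw : IsNonarchimedean w)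
    (s : Finset ι) (f : ι → Ω) {B : ℝ} (hB : 0 < B) (h : ∀ i ∈ s, w (f i) < B) :
    w (∑ i ∈ s, f i) < B := by
  classical
  induction s using Finset.induction_on with
  | empty => simpa using hB
  | insert i s hi ih =>
    rw [Finset.sum_insert hi]
    exact (hw _ _).trans_lt (max_lt (h i (Finset.mem_insert_self _ _))
      (ih fun j hj => h j (Finset.mem_insert_of_mem hj)))

variable {k : Type} [Field k] [Fintype k] {Ω : Type} [Field Ω] [Algebra (RatFunc k) Ω]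
  [Algebra k Ω] [IsScalarTower k (RatFunc k) Ω] [IsSepClosure (RatFunc k) Ω] {ζ : k}

theorem ord_conj (hζ : IsPrimitiveRoot ζ 3) {v : Pl k} (l : Loc Ω ζ v) {r : Ω}
    {b : RatFunc (Kb k Ω)} (hr : r ≠ 0) (hb : r ^ 3 = jK k Ω b) (g : WG k Ω) {n : ℤ}
    (hn : l.w (gal g (r ^ 3)) = 2 ^ (-n)) : kum ζ r (gal (g⁻¹ * l.τ * g)) = (n : F3) := by
  obtain ⟨b', hb'⟩ := gal_jK g b
  have h1 : gal g r ≠ 0 := (_root_.map_ne_zero _).2 hr
  have h2 : gal l.τ (gal g r ^ 3) = gal g r ^ 3 := by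
    rw [← map_pow, hb, hb', geom_fix l.deg_τ]
  have h3 := kum_spec hζ h1 h2
  rw [l.kum_tau hζ h1 h2 (by rwa [← map_pow])] at h3
  refine kum_eq hζ hr ?_
  rw [map_mul, map_mul, AlgEquiv.mul_apply, AlgEquiv.mul_apply, h3, map_mul, map_pow,
    gal_algebraMap, ← AlgEquiv.mul_apply, ← map_mul, inv_mul_cancel, map_one, AlgEquiv.one_apply]

theorem kum_hom (hζ : IsPrimitiveRoot ζ 3) (ℓ : Locs Ω ζ) {r : Ω} {a : RatFunc k} (hr : r ≠ 0)
    (ha : r ^ 3 = algebraMap (RatFunc k) Ω a) : (pre ℓ).IsHom fun g => kum ζ r (gal g) := by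
  obtain ⟨b, hb⟩ := jK_range (Ω := Ω) a
  obtain ⟨U, hU, h⟩ := adm_kum hζ (ha.trans hb.symm)
  have h3 : ∀ g : Gam k Ω, g (r ^ 3) = r ^ 3 := fun g => by rw [ha, AlgEquiv.commutes]
  refine ⟨⟨U, hU, fun g u hu => ?_⟩, fun g g' => ?_⟩
  · simp only [kum, map_mul, AlgEquiv.mul_apply, h u hu]
  · simp only [map_mul]
    exact kum_mul hζ hr (h3 _) (h3 _)

theorem deg_hom (ℓ : Locs Ω ζ) (c : F3) : (pre ℓ).IsHom fun g => (wdeg g : F3) * c := by
  refine ⟨⟨_, adm_WG0, fun g u hu => ?_⟩, fun g g' => ?_⟩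
  · simp only [wdeg_mul, mem_WG0.1 hu, add_zero]
  · simp only [wdeg_mul, Int.cast_add, add_mul]

theorem RecipA_cbrt (hζ : IsPrimitiveRoot ζ 3) {p : k[X]} (hp : p ≠ 0) :
    cbrt (aeval (tt k Ω) p) ≠ 0 ∧ cbrt (aeval (tt k Ω) p) ^ 3 = aeval (tt k Ω) p := by
  have h := cbrt_spec (k := k) (by exact_mod_cast hζ.neZero'.out) (aeval (tt k Ω) p)
  refine ⟨fun h0 => ?_, h⟩
  rw [h0, zero_pow three_ne_zero, aeval_tt_base] at h
  exact (_root_.map_ne_zero _).2 (RatFunc.algebraMap_ne_zero hp) h.symm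

theorem RecipA_chi_tau (hζ : IsPrimitiveRoot ζ 3) (ℓ : Locs Ω ζ)
    (p : {p : k[X] // p.Monic ∧ Irreducible p}) {w : Pl k} (hw : w ≠ none) :
    chi ℓ (some p) (ℓ w).τ =
      ((p.1.map (algebraMap k (Kb k Ω))).rootMultiplicity (ℓ w).x : ℤ) := by
  obtain ⟨h1, h2⟩ := RecipA_cbrt (Ω := Ω) hζ p.2.1.ne_zero
  simp only [chi, (ℓ w).deg_τ, Int.cast_zero, zero_mul, sub_zero]
  refine (ℓ w).kum_tau hζ h1 (by rw [h2, aeval_tt_base, AlgEquiv.commutes]) ?_
  rw [h2, ← aeval_tt_map]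
  exact (ℓ w).w_poly hw (Polynomial.map_ne_zero p.2.1.ne_zero)

theorem chi_hom (hζ : IsPrimitiveRoot ζ 3) (ℓ : Locs Ω ζ) (v : Pl k) :
    (pre ℓ).IsHom (chi ℓ v) := by
  cases v with
  | none => exact ⟨⟨_, adm_WG0, fun _ _ _ => rfl⟩, fun _ _ => (add_zero _).symm⟩
  | some p =>
    obtain ⟨h1, h2⟩ := RecipA_cbrt (Ω := Ω) hζ p.2.1.ne_zero
    obtain ⟨⟨U, hU, a1⟩, a2⟩ := kum_hom hζ ℓ h1 (h2.trans (aeval_tt_base _))
    refine ⟨⟨U, hU, fun g u hu => ?_⟩, fun g g' => ?_⟩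
    · have h3 : wdeg u = 0 := hU.2.1 u hu
      have h4 := a1 g u hu
      simp only [chi, wdeg_mul, h3, add_zero] at h4 ⊢
      rw [h4]
    · have h4 := a2 g g'
      simp only [chi, wdeg_mul, Int.cast_add] at h4 ⊢
      rw [h4]
      ring

theorem chi_self (hζ : IsPrimitiveRoot ζ 3) (ℓ : Locs Ω ζ) (v : Pl k) (hv : v ≠ none) :
    chi ℓ v (ℓ v).τ = 1 := by
  obtain ⟨p, rfl⟩ := Option.ne_none_iff_exists'.1 hv
  have h1 := rootMultiplicity_le_one_of_separable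
    ((PerfectField.separable_of_irreducible p.2.2).map (f := algebraMap k (Kb k Ω))) (ℓ (some p)).x
  have h2 := (rootMultiplicity_pos (Polynomial.map_ne_zero (f := algebraMap k (Kb k Ω))
    p.2.1.ne_zero) (x := (ℓ (some p)).x)).2 (by
      rw [IsRoot, eval_map_algebraMap]
      exact (ℓ (some p)).root p rfl)
  rw [RecipA_chi_tau hζ ℓ p hv, le_antisymm h1 h2]
  rfl

theorem chi_ne (hζ : IsPrimitiveRoot ζ 3) (ℓ : Locs Ω ζ) (v w : Pl k) (h : w ≠ v) (hw : w ≠ none) :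
    chi ℓ v (ℓ w).τ = 0 := by
  cases v with
  | none => rfl
  | some p =>
    rw [RecipA_chi_tau hζ ℓ p hw, rootMultiplicity_eq_zero]
    · rfl
    · obtain ⟨p', rfl⟩ := Option.ne_none_iff_exists'.1 hw
      rw [IsRoot, eval_map_algebraMap]
      exact fun h0 => h (congrArg some (Subtype.ext ((galloc_min _).trans
        (minpoly.eq_of_irreducible_of_monic p.2.2 h0 p.2.1).symm)))

theorem chi_inf (ℓ : Locs Ω ζ) (v : Pl k) : chi ℓ v (ℓ none).σ = 0 := by
  cases v with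
  | none => rfl
  | some p => simp [chi, (ℓ none).deg_σ, pdg]

theorem RecipA_deg (ℓ : Locs Ω ζ) (i : ℤ) : wdeg ((ℓ none).σ ^ i) = i := by
  rw [wdeg_zpow, (ℓ none).deg_σ]
  exact mul_one i

theorem uniq_geom (hζ : IsPrimitiveRoot ζ 3) (ℓ : Locs Ω ζ) (h : WG k Ω → F3)
    (hh : ∀ g g', wdeg g = 0 → wdeg g' = 0 → h (g * g') = h g + h g') {U : Subgroup (WG k Ω)}
    (hU : Adm U) (hs : ∀ u ∈ U, h u = 0)
    (h0 : ∀ v, v ≠ none → ∀ i : ℤ, h ((ℓ none).σ ^ i * (ℓ v).τ * (ℓ none).σ ^ (-i)) = 0) :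
    ∀ g, wdeg g = 0 → h g = 0 := by
  obtain ⟨r0, b, hr0, hb, hk0⟩ := exists_kummer hζ h hh hU hs
  have hfix : ∀ g : WG k Ω, wdeg g = 0 → ∀ p : (Kb k Ω)[X],
      gal g (aeval (tt k Ω) p) = aeval (tt k Ω) p := fun g hg p => by
    rw [← jK_poly, geom_fix hg]
  have hd : aeval (tt k Ω) b.denom ≠ 0 :=
    (map_ne_zero_iff _ (aeval_tt_injective k Ω)).2 b.denom_ne_zero
  obtain ⟨r, p, hr, hp, hk⟩ : ∃ (r : Ω) (p : (Kb k Ω)[X]), r ≠ 0 ∧ r ^ 3 = aeval (tt k Ω) p ∧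
      ∀ g, wdeg g = 0 → kum ζ r (gal g) = h g := by
    refine ⟨r0 * aeval (tt k Ω) b.denom, b.num * b.denom ^ 2, mul_ne_zero hr0 hd, ?_,
      fun g hg => ?_⟩
    · rw [mul_pow, hb, jK_div, map_mul, map_pow]
      field_simp
    · rw [← hk0 g hg, kum, kum, map_mul, hfix g hg, mul_div_mul_right _ _ hd]
  have hp0 : p ≠ 0 := by
    rintro rfl
    exact pow_ne_zero 3 hr (hp.trans (map_zero _))
  obtain ⟨s, rfl⟩ := RecipA_cube p fun y => by
    obtain ⟨v, i, hv, -, rfl⟩ := exists_place ℓ y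
    have h1 := ord_conj hζ (ℓ v) hr (hp.trans (jK_poly k Ω p).symm) ((ℓ none).σ ^ (-(i : ℤ)))
      (by rw [hp, gal_aeval]; exact (ℓ v).w_poly hv (Polynomial.map_ne_zero hp0))
    rw [hk _ (by rw [wdeg_mul, wdeg_mul, wdeg_inv, (ℓ v).deg_τ]; ring), ← zpow_neg, neg_neg,
      h0 v hv, RecipA_deg] at h1
    rw [eq_rootMultiplicity_map (f := ((frob k Ω ^ (-(i : ℤ)) : Kb k Ω ≃ₐ[k] Kb k Ω) :
      Kb k Ω →+* Kb k Ω)) (RingHom.injective _), RingHom.coe_coe, ← AlgEquiv.mul_apply,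
      ← zpow_natCast, ← zpow_add, neg_add_cancel, zpow_zero, AlgEquiv.one_apply]
    exact Int.natCast_dvd_natCast.1 ((ZMod.intCast_zmod_eq_zero_iff_dvd _ 3).1 h1.symm)
  intro g hg
  rw [map_pow] at hp
  have hs0 : aeval (tt k Ω) s ≠ 0 := fun e =>
    pow_ne_zero 3 hr (by rw [hp, e, zero_pow three_ne_zero])
  rw [← hk g hg, kum_congr hζ hp, kum_eq_zero_iff hζ hs0 (by rw [map_pow, hfix g hg]), hfix g hg]

theorem uniq_hom (hζ : IsPrimitiveRoot ζ 3) (ℓ : Locs Ω ζ) (h : WG k Ω → F3)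
    (hh : (pre ℓ).IsHom h) (h0 : ∀ v, v ≠ none → h (ℓ v).τ = 0) (h1 : h (ℓ none).σ = 0) :
    h = 0 := by
  obtain ⟨⟨U, hU, a1⟩, a2⟩ := hh
  have h2 : h 1 = 0 := by simpa using a2 1 1
  have h3 : ∀ i : ℤ, h ((ℓ none).σ ^ i) = 0 := fun i => by
    have := map_zpow (MonoidHom.mk' (fun g => Multiplicative.ofAdd (h g))
      fun g g' => congrArg Multiplicative.ofAdd (a2 g g')) (ℓ none).σ i
    simpa [h1] using this
  have h4 := uniq_geom hζ ℓ h (fun g g' _ _ => a2 g g') hU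
    (fun u hu => by rw [← h2, ← a1 1 u hu, one_mul])
    fun v hv i => by rw [a2, a2, h3, h3, h0 v hv, add_zero, add_zero]
  funext g
  have h5 := h4 (g * (ℓ none).σ ^ (-wdeg g)) (by rw [wdeg_mul, RecipA_deg, add_neg_cancel])
  rwa [a2, h3, add_zero] at h5

theorem RecipA_int0 (ℓ : Locs Ω ζ) (b : RatFunc k) :
    {v | ¬ (ℓ v).w (algebraMap (RatFunc k) Ω b) ≤ 1}.Finite := by
  refine (((Set.finite_le_nat b.denom.natDegree).biUnion fun e _ => pdg_fin (k := k) e).insert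
    none).subset fun v hv => ?_
  by_contra hc
  rw [Set.mem_insert_iff, not_or] at hc
  obtain ⟨p, rfl⟩ := Option.ne_none_iff_exists'.1 hc.1
  refine hv ?_
  rw [← b.num_div_denom, map_div₀, map_div₀, ← aeval_tt_base, ← aeval_tt_base, ← aeval_tt_map,
    ← aeval_tt_map b.denom, (ℓ _).w_poly hc.1 (Polynomial.map_ne_zero b.denom_ne_zero),
    rootMultiplicity_eq_zero, Nat.cast_zero, neg_zero, zpow_zero, div_one]
  · by_cases h0 : b.num = 0
    · simp [h0]
    · rw [(ℓ _).w_poly hc.1 (Polynomial.map_ne_zero h0)]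
      exact zpow_le_one_of_nonpos₀ one_le_two (by simp)
  · rw [IsRoot, eval_map_algebraMap]
    refine fun h0 => hc.2 (Set.mem_biUnion (x := p.1.natDegree) ?_ rfl)
    refine natDegree_le_of_dvd ?_ b.denom_ne_zero
    rw [galloc_min (ℓ (some p))]
    exact minpoly.dvd _ _ h0

theorem RecipA_int (ℓ : Locs Ω ζ) (c : Ω) : {v | ¬ (ℓ v).w c ≤ 1}.Finite := by
  have : Algebra.IsSeparable (RatFunc k) Ω := IsSepClosure.separable
  have hc : IsIntegral (RatFunc k) c := Algebra.IsIntegral.isIntegral c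
  refine ((Finset.range (minpoly (RatFunc k) c).natDegree).finite_toSet.biUnion
    fun i _ => RecipA_int0 ℓ ((minpoly (RatFunc k) c).coeff i)).subset fun v hv => ?_
  by_contra hn
  have h1 : 1 < (ℓ v).w c := not_le.1 hv
  have h2 := minpoly.aeval (RatFunc k) c
  rw [(minpoly.monic hc).as_sum, map_add, map_pow, aeval_X, map_sum, add_eq_zero_iff_eq_neg] at h2
  have h3 := congrArg (ℓ v).w h2
  rw [AbsoluteValue.map_neg, map_pow] at h3
  refine (RecipA_sum (ℓ v).w_na _ _ (pow_pos (zero_lt_one.trans h1) _) fun i hi => ?_).ne h3.symm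
  rw [map_mul, aeval_C, map_pow, aeval_X, map_mul, map_pow]
  exact (mul_le_of_le_one_left (pow_nonneg ((ℓ v).w.nonneg c) i)
    (by_contra fun h => hn (Set.mem_biUnion hi h))).trans_lt
    (pow_lt_pow_right₀ h1 (Finset.mem_range.1 hi))

theorem tau_fin (ℓ : Locs Ω ζ) {U : Subgroup (WG k Ω)} (hU : Adm U) :
    {v | (ℓ v).τ ∉ U}.Finite := by
  obtain ⟨S, hS⟩ := hU.2.2.1
  obtain ⟨S', h1, h2⟩ := exists_stable (k := k) S
  refine (S'.finite_toSet.biUnion fun a _ => (RecipA_int ℓ a).union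
    (S'.finite_toSet.biUnion fun a' _ => RecipA_int ℓ (a' - a)⁻¹)).subset fun v hv => ?_
  by_contra hn
  refine hv (hS _ (ℓ v).deg_τ fun a ha => by_contra fun hne => ?_)
  have h3 : (ℓ v).w a ≤ 1 := by_contra fun h => hn (Set.mem_biUnion (h1 ha) (Or.inl h))
  have h4 : (ℓ v).w (gal (ℓ v).τ a - a)⁻¹ ≤ 1 := by_contra fun h =>
    hn (Set.mem_biUnion (h1 ha) (Or.inr (Set.mem_biUnion (h2 _ a (h1 ha)) h)))
  rw [map_inv₀, inv_le_one₀ ((ℓ v).w.pos (sub_ne_zero.2 hne))] at h4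
  exact h4.not_gt ((ℓ v).τ_res h3)

theorem gen (hζ : IsPrimitiveRoot ζ 3) (ℓ : Locs Ω ζ) (A : Finset (Pl k)) :
    ∃ Z : Finset (WG k Ω), ∀ U : Subgroup (WG k Ω), Adm U → (∀ v ∉ A, (ℓ v).τ ∈ U) →
      Subgroup.closure (Z : Set (WG k Ω)) ⊔ U = ⊤ := by
  classical
  refine ⟨insert (ℓ none).σ (A.image fun v => (ℓ v).τ), fun U hU hA => ?_⟩
  set H := Subgroup.closure
    ((insert (ℓ none).σ (A.image fun v => (ℓ v).τ) : Finset (WG k Ω)) : Set (WG k Ω)) ⊔ U
  have hφ : (ℓ none).σ ∈ H :=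
    Subgroup.mem_sup_left (Subgroup.subset_closure (Finset.mem_insert_self _ _))
  have hτ : ∀ v, (ℓ v).τ ∈ H := fun v => by
    by_cases hv : v ∈ A
    · exact Subgroup.mem_sup_left (Subgroup.subset_closure
        (Finset.mem_insert_of_mem (Finset.mem_image_of_mem _ hv)))
    · exact Subgroup.mem_sup_right (hA v hv)
  have := hU.normal
  have : Finite (WG0 k Ω ⧸ U.subgroupOf (WG0 k Ω)) := Nat.finite_of_card_ne_zero hU.index
  have hP : IsPGroup 3 (WG0 k Ω ⧸ U.subgroupOf (WG0 k Ω)) := fun x => by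
    obtain ⟨g, rfl⟩ := QuotientGroup.mk_surjective x
    obtain ⟨j, hj⟩ := hU.2.2.2 g.1 g.2
    exact ⟨j, by rw [← QuotientGroup.mk_pow, QuotientGroup.eq_one_iff]; exact hj⟩
  have htop := frattini hP ((H.subgroupOf (WG0 k Ω)).map (QuotientGroup.mk' _)) fun h hh hH => by
    let h' : WG k Ω → F3 := fun g => if hg : wdeg g = 0 then h (QuotientGroup.mk ⟨g, hg⟩) else 0
    have e : ∀ g (hg : wdeg g = 0), h' g = h (QuotientGroup.mk ⟨g, hg⟩) := fun g hg => dif_pos hg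
    have h1 : ∀ g ∈ H, wdeg g = 0 → h' g = 0 := fun g hg hg' =>
      (e g hg').trans (hH _ ⟨⟨g, hg'⟩, hg, rfl⟩)
    have h2 := uniq_geom hζ ℓ h' (fun g g' hg hg' => by
        rw [e g hg, e g' hg', e _ ((WG0 k Ω).mul_mem hg hg'), ← hh]
        rfl) hU (fun u hu => h1 u (Subgroup.mem_sup_right hu) (hU.2.1 u hu))
      fun v _ i => h1 _ (H.mul_mem (H.mul_mem (H.zpow_mem hφ _) (hτ v)) (H.zpow_mem hφ _))
        (by rw [wdeg_mul, wdeg_mul, RecipA_deg, RecipA_deg, (ℓ v).deg_τ]; ring)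
    funext x
    obtain ⟨g, rfl⟩ := QuotientGroup.mk_surjective x
    exact (e g.1 g.2).symm.trans (h2 g.1 g.2)
  refine eq_top_iff.2 fun g _ => ?_
  have hg : g * (ℓ none).σ ^ (-wdeg g) ∈ WG0 k Ω := by
    rw [mem_WG0, wdeg_mul, RecipA_deg, add_neg_cancel]
  obtain ⟨g', h1, h2⟩ : QuotientGroup.mk (⟨_, hg⟩ : WG0 k Ω) ∈ (H.subgroupOf (WG0 k Ω)).map
      (QuotientGroup.mk' (U.subgroupOf (WG0 k Ω))) := htop ▸ Subgroup.mem_top _
  have h3 : g'.1⁻¹ * (g * (ℓ none).σ ^ (-wdeg g)) ∈ H :=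
    Subgroup.mem_sup_right ((QuotientGroup.eq (s := U.subgroupOf (WG0 k Ω))).1 h2)
  exact (H.mul_mem_cancel_right (H.zpow_mem hφ _)).1 ((H.mul_mem_cancel_left (H.inv_mem h1)).1 h3)

end Pool.Agent.Smith
end

-- merged part: Pool.Agent.Work.MP_60d5ce_nt.Sm.RecipB
section
/-!
# Reciprocity and the Hasse principle for `F3`-valued 2-cocycles of the Weil group

Hints.  `inv v` kills coboundaries of smooth functions (by `rel`; same computation as `inv_cob` in
`Basic.lean`, redo it here for `pre ℓ`).  By `h2_geom` assume `θ g h = 0` for `g, h ∈ WG0`.  Put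
`H g u = θ g u - θ (g u g⁻¹) g` for `u ∈ WG0`: additive in `u`, `H (g g') u = H g (g' u g'⁻¹) + H g' u`,
`H g = 0` for `g ∈ WG0`, so `H g` depends only on the degree of `g`.  With `φ = σ ∞` and `h = H φ`:
`inv v θ = H (σ v) (τ v) = ∑ i < pdg v, h (φ ^ i * τ v * φ ^ (-i))`.  By `exists_kummer`, `h` is the
Kummer character of `r`, `r ^ 3 = jK b`, and by `ord_conj` the `i`-th term is the order of `b` at
the constant `frob ^ i x_v` (at infinity: degree of the denominator minus degree of the numerator).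
`recip`: all orders add up to zero (`exists_place`, `place_unique`).
`hasse`: if the orders add up to zero modulo three over each Frobenius orbit there is a polynomial
`p` over `Kb` (prescribed orders modulo three) with Kummer character `h'` such that
`h u = h' (φ u φ⁻¹) - h' u` (check on the conjugates of the `τ v`, `uniq_geom`); subtract the
coboundary of `h'` extended by zero, so `h = 0` and `H = 0`; then with `g = u φ ^ n` define
`b (u φ ^ n) = β n - θ u (φ ^ n)` where `β` trivialises `θ` on the powers of `φ`.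
-/

namespace Pool.Agent.Smith

section abstract

variable {W : Type} [Group W] {θ : W → W → F3}

theorem RecipB_one_left (hθ : IsCoc2 θ) (g : W) : θ 1 g = θ 1 1 := by
  have := hθ 1 1 g
  simp only [one_mul] at this
  linear_combination this

theorem RecipB_one_right (hθ : IsCoc2 θ) (g : W) : θ g 1 = θ 1 1 := by
  have := hθ g 1 1
  simp only [mul_one] at this
  linear_combination -this

/-- the conjugation defect of a cocycle -/
def RecipB_H (θ : W → W → F3) (g u : W) : F3 := θ g u - θ (g * u * g⁻¹) g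

theorem RecipB_H_add (hθ : IsCoc2 θ) (g u u' : W) (h1 : θ u u' = 0)
    (h2 : θ (g * u * g⁻¹) (g * u' * g⁻¹) = 0) :
    RecipB_H θ g (u * u') = RecipB_H θ g u + RecipB_H θ g u' := by
  have c1 := hθ g u u'
  have c2 := hθ (g * u * g⁻¹) (g * u' * g⁻¹) g
  have c3 := hθ (g * u * g⁻¹) g u'
  have e1 : g * u * g⁻¹ * (g * u' * g⁻¹) = g * (u * u') * g⁻¹ := by group
  have e2 : g * u' * g⁻¹ * g = g * u' := by group
  have e3 : g * u * g⁻¹ * g = g * u := by group
  rw [e1, e2] at c2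
  rw [e3] at c3
  unfold RecipB_H
  linear_combination c1 + c2 - c3 - h1 + h2

theorem RecipB_H_mul (hθ : IsCoc2 θ) (g g' u : W) :
    RecipB_H θ (g * g') u = RecipB_H θ g (g' * u * g'⁻¹) + RecipB_H θ g' u := by
  have c1 := hθ g g' u
  have c2 := hθ (g * (g' * u * g'⁻¹) * g⁻¹) g g'
  have c3 := hθ g (g' * u * g'⁻¹) g'
  have e1 : g * g' * u * (g * g')⁻¹ = g * (g' * u * g'⁻¹) * g⁻¹ := by group
  have e2 : g * (g' * u * g'⁻¹) * g⁻¹ * g = g * (g' * u * g'⁻¹) := by group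
  have e3 : g' * u * g'⁻¹ * g' = g' * u := by group
  rw [e2] at c2
  rw [e3] at c3
  unfold RecipB_H
  rw [e1]
  linear_combination -c1 - c2 + c3

theorem RecipB_H_one (hθ : IsCoc2 θ) (u : W) : RecipB_H θ 1 u = 0 := by
  unfold RecipB_H
  rw [RecipB_one_left hθ u, RecipB_one_right hθ (1 * u * 1⁻¹), sub_self]

theorem RecipB_H_pow (hθ : IsCoc2 θ) (φ u : W) (n : ℕ) :
    RecipB_H θ (φ ^ n) u =
      ∑ i ∈ Finset.range n, RecipB_H θ φ (φ ^ (i : ℤ) * u * φ ^ (-(i : ℤ))) := by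
  induction n with
  | zero => simpa using RecipB_H_one hθ u
  | succ n ih =>
    rw [pow_succ', RecipB_H_mul hθ, ih, Finset.sum_range_succ, add_comm, zpow_neg, zpow_natCast]

theorem RecipB_exists_seq (c : F3) (f : ℤ → F3) :
    ∃ β : ℤ → F3, β 0 = c ∧ ∀ n, β (n + 1) = β n - f n := by
  refine ⟨fun n => c - ∑ i ∈ Finset.Ico 0 n, f i + ∑ i ∈ Finset.Ico n 0, f i, by simp, fun n => ?_⟩
  beta_reduce
  rcases le_or_gt 0 n with h | h
  · have h1 : Finset.Ico 0 (n + 1) = insert n (Finset.Ico 0 n) := by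
      ext i
      simp only [Finset.mem_Ico, Finset.mem_insert]
      omega
    rw [h1, Finset.sum_insert (by simp), Finset.Ico_eq_empty_of_le (a := n + 1) (by omega),
      Finset.Ico_eq_empty_of_le h]
    ring
  · have h1 : Finset.Ico n 0 = insert n (Finset.Ico (n + 1) 0) := by
      ext i
      simp only [Finset.mem_Ico, Finset.mem_insert]
      omega
    rw [h1, Finset.sum_insert (by simp), Finset.Ico_eq_empty_of_le (b := n + 1) (by omega),
      Finset.Ico_eq_empty_of_le h.le]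
    ring

theorem RecipB_cyclic (hθ : IsCoc2 θ) (φ : W) :
    ∃ β : ℤ → F3, ∀ n m : ℤ, θ (φ ^ n) (φ ^ m) = β n + β m - β (n + m) := by
  obtain ⟨β, h0, h1⟩ := RecipB_exists_seq (θ 1 1) fun n => θ (φ ^ n) φ
  refine ⟨β, fun n m => ?_⟩
  have step : ∀ m : ℤ, θ (φ ^ n) (φ ^ (m + 1)) - (β n + β (m + 1) - β (n + (m + 1))) =
      θ (φ ^ n) (φ ^ m) - (β n + β m - β (n + m)) := fun m => by
    have c := hθ (φ ^ n) (φ ^ m) φ
    rw [← zpow_add, ← zpow_add_one] at c
    rw [← add_assoc n m 1, h1, h1]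
    linear_combination c
  induction m using Int.induction_on with
  | zero => rw [zpow_zero, RecipB_one_right hθ, h0, add_zero]; ring
  | succ m ih => linear_combination step m + ih
  | pred m ih =>
    have := step (-(m : ℤ) - 1)
    rw [sub_add_cancel] at this
    linear_combination ih - this

theorem RecipB_final (hθ : IsCoc2 θ) (u u' a a' : W) (h1 : θ u (a * u' * a⁻¹) = 0)
    (h2 : RecipB_H θ a u' = 0) :
    θ (u * a) (u' * a') = θ a a' - θ u a - θ u' a' + θ (u * (a * u' * a⁻¹)) (a * a') := by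
  have c1 := hθ u a (u' * a')
  have c2 := hθ a u' a'
  have c3 := hθ (a * u' * a⁻¹) a a'
  have c4 := hθ u (a * u' * a⁻¹) (a * a')
  have e1 : a * u' * a⁻¹ * a = a * u' := by group
  have e2 : a * u' * a⁻¹ * (a * a') = a * (u' * a') := by group
  rw [e1] at c3
  rw [e2] at c4
  unfold RecipB_H at h2
  linear_combination -c1 + c2 - c3 + c4 + h1 + h2

theorem RecipB_tel (f : ℕ → F3) (c : F3) {n : ℕ} (hn : 1 ≤ n) :
    ∑ i ∈ Finset.Ico 1 n, (f i + c - f (i + 1)) = f 1 + (n - 1) * c - f n := by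
  induction n, hn using Nat.le_induction with
  | base => simp
  | succ n hn ih =>
    rw [Finset.sum_Ico_succ_top hn, ih]
    push_cast
    ring

theorem RecipB_exists_poly {K : Type} [Field K] (M : K → F3) (hM : {y | M y ≠ 0}.Finite) :
    ∃ p : Polynomial K, p ≠ 0 ∧ ∀ y, (p.rootMultiplicity y : F3) = M y := by
  classical
  have hfin : (Function.support fun y => (M y).val).Finite :=
    hM.subset fun y hy h => hy (by simp only [h]; rfl)
  refine ⟨((Finsupp.toMultiset (Finsupp.ofSupportFinite _ hfin)).map fun a =>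
    Polynomial.X - Polynomial.C a).prod, (Polynomial.monic_multiset_prod_of_monic _ _
      fun a _ => Polynomial.monic_X_sub_C a).ne_zero, fun y => ?_⟩
  rw [← Polynomial.count_roots, Polynomial.roots_multiset_prod_X_sub_C, Finsupp.count_toMultiset,
    Finsupp.ofSupportFinite_coe, ZMod.natCast_zmod_val]

end abstract

variable {k : Type} [Field k] [Fintype k] {Ω : Type} [Field Ω] [Algebra (RatFunc k) Ω]
  [Algebra k Ω] [IsScalarTower k (RatFunc k) Ω] [IsSepClosure (RatFunc k) Ω] {ζ : k}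

omit [IsSepClosure (RatFunc k) Ω] in
theorem RecipB_conj_deg (g : WG k Ω) {u : WG k Ω} (hu : wdeg u = 0) : wdeg (g * u * g⁻¹) = 0 := by
  rw [wdeg_mul, wdeg_mul, wdeg_inv, hu]
  ring

omit [IsSepClosure (RatFunc k) Ω] [IsScalarTower k (RatFunc k) Ω] in
theorem RecipB_deg_inf (ℓ : Locs Ω ζ) : wdeg (ℓ none).σ = 1 := (ℓ none).deg_σ

theorem RecipB_card (hζ : IsPrimitiveRoot ζ 3) : (Fintype.card k : F3) = 1 := by
  have h1 : 3 ∣ Fintype.card k - 1 :=
    (hζ.pow_eq_one_iff_dvd _).1 (FiniteField.pow_card_sub_one_eq_one ζ (hζ.ne_zero (by norm_num)))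
  have h2 : 1 ≤ Fintype.card k := Fintype.card_pos
  rw [← Nat.sub_add_cancel h2, Nat.cast_add, (ZMod.natCast_eq_zero_iff _ _).2 h1, zero_add,
    Nat.cast_one]

omit [IsSepClosure (RatFunc k) Ω] in
/-- subtracting a smooth coboundary -/
theorem RecipB_sub (hζ : IsPrimitiveRoot ζ 3) (ℓ : Locs Ω ζ) {θ : WG k Ω → WG k Ω → F3}
    (hs : (pre ℓ).Sm2 θ) (hθ : IsCoc2 θ) {b : WG k Ω → F3} (hb : (pre ℓ).Sm b) :
    (pre ℓ).Sm2 (fun g h => θ g h - (b g + b h - b (g * h))) ∧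
      IsCoc2 (fun g h => θ g h - (b g + b h - b (g * h))) ∧
      ∀ v, (pre ℓ).inv v (fun g h => θ g h - (b g + b h - b (g * h))) = (pre ℓ).inv v θ := by
  obtain ⟨U, hU, h1⟩ := hs
  obtain ⟨U', hU', h2⟩ := hb
  have hU0 : Adm U := hU
  have hU1 : Adm U' := hU'
  refine ⟨⟨U ⊓ U', hU0.inf hU1, fun g h u hu u' hu' => ?_⟩, fun g h l => ?_, fun v => ?_⟩
  · have e : g * u * (h * u') = g * h * (h⁻¹ * u * h * u') := by group
    simp only
    rw [h1 g h u hu.1 u' hu'.1, h2 g u hu.2, h2 h u' hu'.2, e,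
      h2 _ _ (mul_mem (hU1.normal.conj_mem' u hu.2 h) hu'.2)]
  · have := hθ g h l
    simp only [mul_assoc]
    linear_combination this
  · have hQ : ((pre ℓ).Q v : F3) = 1 := by
      change ((Fintype.card k ^ pdg v : ℕ) : F3) = 1
      rw [Nat.cast_pow, RecipB_card hζ, one_pow]
    have hQ1 : 1 ≤ (pre ℓ).Q v := Nat.one_le_pow _ _ Fintype.card_pos
    have hr : b ((pre ℓ).σ v * (pre ℓ).τ v) = b ((pre ℓ).τ v ^ (pre ℓ).Q v * (pre ℓ).σ v) := by
      have := h2 ((ℓ v).σ * (ℓ v).τ) _ ((ℓ v).rel U' hU1)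
      rw [mul_inv_cancel_left] at this
      exact this.symm
    have h3 := RecipB_tel (fun i => b ((pre ℓ).τ v ^ i)) (b ((pre ℓ).τ v)) hQ1
    simp only [Pre.inv, Finset.sum_sub_distrib (f := fun i => θ ((pre ℓ).τ v ^ i) ((pre ℓ).τ v)),
      ← pow_succ, h3, hr, hQ, pow_one]
    ring

omit [IsSepClosure (RatFunc k) Ω] in
/-- the invariant of a cocycle vanishing on the geometric group -/
theorem RecipB_inv (ℓ : Locs Ω ζ) {θ : WG k Ω → WG k Ω → F3} (hs : (pre ℓ).Sm2 θ) (hθ : IsCoc2 θ)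
    (h0 : ∀ g h, wdeg g = 0 → wdeg h = 0 → θ g h = 0) (v : Pl k) :
    (pre ℓ).inv v θ = ∑ i ∈ Finset.range (pdg v),
      RecipB_H θ (ℓ none).σ ((ℓ none).σ ^ (i : ℤ) * (ℓ v).τ * (ℓ none).σ ^ (-(i : ℤ))) := by
  obtain ⟨U, hU, h1⟩ := hs
  have hU0 : Adm U := hU
  have hτ : wdeg (ℓ v).τ = 0 := (ℓ v).deg_τ
  have e1 : (ℓ v).σ = ((ℓ v).σ * ((ℓ none).σ ^ pdg v)⁻¹) * (ℓ none).σ ^ pdg v := by group
  have d1 : wdeg ((ℓ v).σ * ((ℓ none).σ ^ pdg v)⁻¹) = 0 := by
    rw [wdeg_mul, wdeg_inv, wdeg_pow, RecipB_deg_inf, (ℓ v).deg_σ]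
    ring
  have e2 : RecipB_H θ (ℓ v).σ (ℓ v).τ = RecipB_H θ ((ℓ none).σ ^ pdg v) (ℓ v).τ := by
    conv_lhs => rw [e1]
    rw [RecipB_H_mul hθ, RecipB_H, h0 _ _ d1 (RecipB_conj_deg _ hτ),
      h0 _ _ (RecipB_conj_deg _ (RecipB_conj_deg _ hτ)) d1, sub_self, zero_add]
  rw [← RecipB_H_pow hθ, ← e2]
  have e3 : (ℓ v).τ ^ Fintype.card k ^ pdg v = (ℓ v).σ * (ℓ v).τ * (ℓ v).σ⁻¹ *
      ((ℓ v).σ * (((ℓ v).σ * (ℓ v).τ)⁻¹ * ((ℓ v).τ ^ Fintype.card k ^ pdg v * (ℓ v).σ)) *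
        (ℓ v).σ⁻¹) := by group
  have e4 : θ ((ℓ v).τ ^ Fintype.card k ^ pdg v) (ℓ v).σ =
      θ ((ℓ v).σ * (ℓ v).τ * (ℓ v).σ⁻¹) (ℓ v).σ := by
    have := h1 ((ℓ v).σ * (ℓ v).τ * (ℓ v).σ⁻¹) (ℓ v).σ _
      (hU0.normal.conj_mem _ ((ℓ v).rel U hU0) (ℓ v).σ) 1 (one_mem _)
    rw [← e3, mul_one] at this
    exact this
  have e5 : ∑ i ∈ Finset.Ico 1 (Fintype.card k ^ pdg v), θ ((ℓ v).τ ^ i) (ℓ v).τ = 0 :=
    Finset.sum_eq_zero fun i _ => h0 _ _ (by rw [wdeg_pow, hτ, mul_zero]) hτ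
  change θ (ℓ v).σ (ℓ v).τ - θ ((ℓ v).τ ^ Fintype.card k ^ pdg v) (ℓ v).σ -
    ∑ i ∈ Finset.Ico 1 (Fintype.card k ^ pdg v), θ ((ℓ v).τ ^ i) (ℓ v).τ = _
  rw [e4, e5, sub_zero, RecipB_H]

omit [IsSepClosure (RatFunc k) Ω] in
theorem RecipB_ne {r : Ω} {b : RatFunc (Kb k Ω)} (hr : r ≠ 0) (hb : r ^ 3 = jK k Ω b) : b ≠ 0 := by
  rintro rfl
  rw [map_zero] at hb
  exact pow_ne_zero 3 hr hb

/-- the order of a geometric function at a constant, modulo three -/
noncomputable def RecipB_ord (b : RatFunc (Kb k Ω)) (y : Kb k Ω) : F3 :=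
  (b.num.rootMultiplicity y : F3) - (b.denom.rootMultiplicity y : F3)

theorem RecipB_kum_fin (hζ : IsPrimitiveRoot ζ 3) (ℓ : Locs Ω ζ) {r : Ω} {b : RatFunc (Kb k Ω)}
    (hr : r ≠ 0) (hb : r ^ 3 = jK k Ω b) {v : Pl k} (hv : v ≠ none) (i : ℤ) :
    kum ζ r (gal ((ℓ none).σ ^ i * (ℓ v).τ * (ℓ none).σ ^ (-i))) =
      RecipB_ord b ((frob k Ω ^ i) (ℓ v).x) := by
  have hb0 := RecipB_ne hr hb
  have hd : wdeg ((ℓ none).σ ^ (-i)) = -i := by rw [wdeg_zpow, RecipB_deg_inf, mul_one]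
  have key : ∀ p : Polynomial (Kb k Ω), p ≠ 0 →
      (ℓ v).w (gal ((ℓ none).σ ^ (-i)) (Polynomial.aeval (tt k Ω) p)) =
        2 ^ (-(p.rootMultiplicity ((frob k Ω ^ i) (ℓ v).x) : ℤ)) := fun p hp => by
    have hinj : Function.Injective
        ((frob k Ω ^ (-i) : Kb k Ω ≃ₐ[k] Kb k Ω) : Kb k Ω →+* Kb k Ω) := RingHom.injective _
    rw [gal_aeval, hd, (ℓ v).w_poly hv ((Polynomial.map_ne_zero_iff hinj).2 hp),
      Polynomial.eq_rootMultiplicity_map hinj ((frob k Ω ^ i) (ℓ v).x)]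
    congr 4
    change _ = (frob k Ω ^ (-i)) ((frob k Ω ^ i) (ℓ v).x)
    rw [← AlgEquiv.mul_apply, ← zpow_add, neg_add_cancel, zpow_zero, AlgEquiv.one_apply]
  have h1 := ord_conj hζ (ℓ v) hr hb ((ℓ none).σ ^ (-i))
    (n := (b.num.rootMultiplicity ((frob k Ω ^ i) (ℓ v).x) : ℤ) -
      (b.denom.rootMultiplicity ((frob k Ω ^ i) (ℓ v).x) : ℤ)) (by
      rw [hb, jK_div, map_div₀, map_div₀, key _ (RatFunc.num_ne_zero hb0), key _ b.denom_ne_zero,
        ← zpow_sub₀ two_ne_zero]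
      congr 1
      ring)
  rw [← zpow_neg, neg_neg] at h1
  rw [h1, RecipB_ord]
  push_cast
  rfl

theorem RecipB_kum_inf (hζ : IsPrimitiveRoot ζ 3) (ℓ : Locs Ω ζ) {r : Ω} {b : RatFunc (Kb k Ω)}
    (hr : r ≠ 0) (hb : r ^ 3 = jK k Ω b) :
    kum ζ r (gal (ℓ none).τ) = (b.denom.natDegree : F3) - (b.num.natDegree : F3) := by
  have hb0 := RecipB_ne hr hb
  have h1 := (ℓ none).kum_tau hζ hr (by rw [hb, geom_fix (ℓ none).deg_τ])
    (n := (b.denom.natDegree : ℤ) - (b.num.natDegree : ℤ)) (by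
      rw [hb, jK_div, map_div₀, (ℓ none).w_poly_inf (RatFunc.num_ne_zero hb0),
        (ℓ none).w_poly_inf b.denom_ne_zero, ← zpow_sub₀ two_ne_zero]
      congr 1
      ring)
  rw [h1]
  push_cast
  rfl

/-- the description of all invariants by one geometric function -/
theorem RecipB_main (hζ : IsPrimitiveRoot ζ 3) (ℓ : Locs Ω ζ) {θ : WG k Ω → WG k Ω → F3}
    (hs : (pre ℓ).Sm2 θ) (hθ : IsCoc2 θ) (h0 : ∀ g h, wdeg g = 0 → wdeg h = 0 → θ g h = 0) :
    ∃ (r : Ω) (b : RatFunc (Kb k Ω)), r ≠ 0 ∧ r ^ 3 = jK k Ω b ∧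
      (∀ g, wdeg g = 0 → kum ζ r (gal g) = RecipB_H θ (ℓ none).σ g) ∧
      (pre ℓ).inv none θ = (b.denom.natDegree : F3) - (b.num.natDegree : F3) ∧
      ∀ v, v ≠ none → (pre ℓ).inv v θ =
        ∑ i ∈ Finset.range (pdg v), RecipB_ord b ((frob k Ω ^ i) (ℓ v).x) := by
  have hinv := RecipB_inv ℓ hs hθ h0
  obtain ⟨U, hU, h1⟩ := hs
  have hU0 : Adm U := hU
  obtain ⟨r, b, hr, hb, hk⟩ := exists_kummer hζ (RecipB_H θ (ℓ none).σ)
    (fun g g' hg hg' => RecipB_H_add hθ _ _ _ (h0 _ _ hg hg')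
      (h0 _ _ (RecipB_conj_deg _ hg) (RecipB_conj_deg _ hg'))) hU0 (fun u hu => by
      have e1 := h1 (ℓ none).σ 1 1 (one_mem _) u hu
      have e2 := h1 1 (ℓ none).σ _ (hU0.normal.conj_mem u hu (ℓ none).σ) 1 (one_mem _)
      rw [mul_one, one_mul] at e1 e2
      rw [RecipB_H, e1, e2, RecipB_one_left hθ, RecipB_one_right hθ, sub_self])
  refine ⟨r, b, hr, hb, hk, ?_, fun v hv => ?_⟩
  · rw [hinv, ← RecipB_kum_inf hζ ℓ hr hb, hk _ (ℓ none).deg_τ]
    simp [pdg]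
  · rw [hinv]
    refine Finset.sum_congr rfl fun i _ => ?_
    rw [← hk, RecipB_kum_fin hζ ℓ hr hb hv, zpow_natCast]
    rw [zpow_neg]
    exact RecipB_conj_deg _ (ℓ v).deg_τ

open scoped Classical in
theorem RecipB_count (ℓ : Locs Ω ζ) (S : Finset (Pl k)) (hS : none ∉ S) (s : Multiset (Kb k Ω))
    (hs : ∀ y ∈ s, ∃ v ∈ S, ∃ i < pdg v, y = (frob k Ω ^ i) (ℓ v).x) :
    ∑ v ∈ S, ∑ i ∈ Finset.range (pdg v), s.count ((frob k Ω ^ i) (ℓ v).x) = s.card := by
  induction s using Multiset.induction_on with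
  | empty => simp
  | cons a s ih =>
    obtain ⟨v, hv, i, hi, ha⟩ := hs a (Multiset.mem_cons_self _ _)
    have hne : ∀ w ∈ S, w ≠ none := fun w hw h => hS (h ▸ hw)
    simp only [Multiset.count_cons, Finset.sum_add_distrib]
    rw [ih fun y hy => hs y (Multiset.mem_cons_of_mem hy), Multiset.card_cons]
    congr 1
    rw [Finset.sum_eq_single v, Finset.sum_eq_single i, if_pos ha.symm]
    · intro j hj hji
      rw [if_neg]
      intro h
      exact hji (place_unique ℓ (hne v hv) (hne v hv) (Finset.mem_range.1 hj) hi (h.trans ha)).2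
    · intro h
      exact absurd (Finset.mem_range.2 hi) h
    · intro w hw hwv
      refine Finset.sum_eq_zero fun j hj => if_neg fun h => ?_
      exact hwv (place_unique ℓ (hne w hw) (hne v hv) (Finset.mem_range.1 hj) hi (h.trans ha)).1
    · intro h
      exact absurd hv h

/-- a finite set of finite places carrying all roots of a polynomial -/
theorem RecipB_places (ℓ : Locs Ω ζ) (s : Multiset (Kb k Ω)) :
    ∃ T : Finset (Pl k), none ∉ T ∧ ∀ y ∈ s, ∃ v ∈ T, ∃ i < pdg v, y = (frob k Ω ^ i) (ℓ v).x := by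
  classical
  choose pl ix h1 h2 h3 using exists_place ℓ
  refine ⟨s.toFinset.image pl, fun h => ?_, fun y hy =>
    ⟨pl y, Finset.mem_image_of_mem _ (Multiset.mem_toFinset.2 hy), ix y, h2 y, h3 y⟩⟩
  obtain ⟨y, -, hy⟩ := Finset.mem_image.1 h
  exact h1 y hy

/-- solving the difference equation along Frobenius orbits -/
theorem RecipB_solve (ℓ : Locs Ω ζ) (o : Kb k Ω → F3) (s : Multiset (Kb k Ω))
    (hs : ∀ y, o y ≠ 0 → y ∈ s)
    (h0 : ∀ v, v ≠ none → ∑ i ∈ Finset.range (pdg v), o ((frob k Ω ^ i) (ℓ v).x) = 0) :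
    ∃ M : Kb k Ω → F3, {y | M y ≠ 0}.Finite ∧ ∀ y, M (frob k Ω y) - M y = o y := by
  classical
  obtain ⟨T, hT, hT'⟩ := RecipB_places ℓ s
  choose pl ix h1 h2 h3 using exists_place ℓ
  have key : ∀ v, v ≠ none → ∀ i < pdg v,
      pl ((frob k Ω ^ i) (ℓ v).x) = v ∧ ix ((frob k Ω ^ i) (ℓ v).x) = i := fun v hv i hi =>
    place_unique ℓ (h1 _) hv (h2 _) hi (h3 _).symm
  refine ⟨fun y => ∑ j ∈ Finset.range (ix y), o ((frob k Ω ^ j) (ℓ (pl y)).x), ?_, fun y => ?_⟩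
  · refine (T.biUnion fun v => (Finset.range (pdg v)).image
      fun i => (frob k Ω ^ i) (ℓ v).x).finite_toSet.subset fun y hy => ?_
    obtain ⟨j, hj, hj'⟩ := Finset.exists_ne_zero_of_sum_ne_zero hy
    obtain ⟨v, hv, i, hi, e⟩ := hT' _ (hs _ hj')
    have e1 : pl y = v := (place_unique ℓ (h1 y) (fun h => hT (h ▸ hv))
      ((Finset.mem_range.1 hj).trans (h2 y)) hi e).1
    refine Finset.mem_coe.2 (Finset.mem_biUnion.2 ⟨pl y, e1 ▸ hv, ?_⟩)
    exact Finset.mem_image.2 ⟨ix y, Finset.mem_range.2 (h2 y), (h3 y).symm⟩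
  · have e1 : frob k Ω y = (frob k Ω ^ (ix y + 1)) (ℓ (pl y)).x := by
      rw [pow_succ', AlgEquiv.mul_apply, ← h3 y]
    have e2 : ∑ j ∈ Finset.range (ix (frob k Ω y)), o ((frob k Ω ^ j) (ℓ (pl (frob k Ω y))).x) =
        ∑ j ∈ Finset.range (ix y + 1), o ((frob k Ω ^ j) (ℓ (pl y)).x) := by
      rcases (Nat.succ_le_of_lt (h2 y)).eq_or_lt with h | h
      · have h' : ix y + 1 = pdg (pl y) := h
        have e3 : frob k Ω y = (frob k Ω ^ 0) (ℓ (pl y)).x := by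
          rw [e1, h', frob_pdg _ (h1 y), pow_zero, AlgEquiv.one_apply]
        rw [h', h0 _ (h1 y), e3, (key _ (h1 y) 0 (pdg_pos _)).2, Finset.sum_range_zero]
      · obtain ⟨a1, a2⟩ := key _ (h1 y) _ h
        rw [← e1] at a1 a2
        rw [a1, a2]
    simp only
    rw [e2, Finset.sum_range_succ, ← h3 y]
    ring

/-- reduction to cocycles vanishing on the geometric group -/
theorem RecipB_reduce (hζ : IsPrimitiveRoot ζ 3) (ℓ : Locs Ω ζ) {θ : WG k Ω → WG k Ω → F3}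
    (hs : (pre ℓ).Sm2 θ) (hθ : IsCoc2 θ) :
    ∃ b : WG k Ω → F3, (pre ℓ).Sm b ∧
      ∀ g h, wdeg g = 0 → wdeg h = 0 → θ g h - (b g + b h - b (g * h)) = 0 := by
  obtain ⟨U, hU, h1⟩ := hs
  obtain ⟨b, U', hU', h2, h3⟩ := h2_geom hζ θ hU h1 hθ
  exact ⟨b, ⟨U', hU', h2⟩, fun g h hg hh => sub_eq_zero.2 (h3 g h hg hh)⟩

omit [IsSepClosure (RatFunc k) Ω] in
/-- the last step of the Hasse principle -/
theorem RecipB_split (ℓ : Locs Ω ζ) {θ : WG k Ω → WG k Ω → F3} (hs : (pre ℓ).Sm2 θ)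
    (hθ : IsCoc2 θ) (h0 : ∀ g h, wdeg g = 0 → wdeg h = 0 → θ g h = 0)
    (hH : ∀ u, wdeg u = 0 → RecipB_H θ (ℓ none).σ u = 0) :
    ∃ b : WG k Ω → F3, (pre ℓ).Sm b ∧ ∀ g h, θ g h = b g + b h - b (g * h) := by
  obtain ⟨U, hU, h1⟩ := hs
  have hU0 : Adm U := hU
  obtain ⟨φ, hφ⟩ : ∃ φ, φ = (ℓ none).σ := ⟨_, rfl⟩
  have hd : ∀ n : ℤ, wdeg (φ ^ n) = n := fun n => by rw [wdeg_zpow, hφ, RecipB_deg_inf, mul_one]
  rw [← hφ] at hH
  have hH' : ∀ (n : ℤ) u, wdeg u = 0 → RecipB_H θ (φ ^ n) u = 0 := fun n u hu => by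
    have step : ∀ n : ℤ, RecipB_H θ (φ ^ (n + 1)) u = RecipB_H θ (φ ^ n) u := fun n => by
      rw [add_comm, zpow_one_add, RecipB_H_mul hθ, hH _ (RecipB_conj_deg _ hu), zero_add]
    induction n using Int.induction_on with
    | zero => rw [zpow_zero, RecipB_H_one hθ]
    | succ n ih => rw [step, ih]
    | pred n ih => rw [← step, sub_add_cancel, ih]
  obtain ⟨β, hβ⟩ := RecipB_cyclic hθ φ
  refine ⟨fun g => β (wdeg g) - θ (g * (φ ^ wdeg g)⁻¹) (φ ^ wdeg g),
    ⟨U, hU, fun g u hu => ?_⟩, fun g h => ?_⟩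
  · have e1 : wdeg (g * u) = wdeg g := by rw [wdeg_mul, hU0.le hu, add_zero]
    have e2 : g * u * (φ ^ wdeg g)⁻¹ =
        g * (φ ^ wdeg g)⁻¹ * (φ ^ wdeg g * u * (φ ^ wdeg g)⁻¹) := by group
    have e3 := h1 (g * (φ ^ wdeg g)⁻¹) (φ ^ wdeg g) _
      (hU0.normal.conj_mem u hu (φ ^ wdeg g)) 1 (one_mem _)
    rw [mul_one] at e3
    simp only
    rw [e1, e2, e3]
  · have dz : ∀ g : WG k Ω, wdeg (g * (φ ^ wdeg g)⁻¹) = 0 := fun g => by
      rw [wdeg_mul, wdeg_inv, hd, add_neg_cancel]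
    have c := RecipB_final hθ (g * (φ ^ wdeg g)⁻¹) (h * (φ ^ wdeg h)⁻¹) (φ ^ wdeg g) (φ ^ wdeg h)
      (h0 _ _ (dz g) (RecipB_conj_deg _ (dz h))) (hH' _ _ (dz h))
    have e1 : g * (φ ^ wdeg g)⁻¹ * (φ ^ wdeg g * (h * (φ ^ wdeg h)⁻¹) * (φ ^ wdeg g)⁻¹) =
        g * h * (φ ^ (wdeg g + wdeg h))⁻¹ := by
      rw [zpow_add, mul_inv_rev]
      simp only [mul_assoc, inv_mul_cancel_left]
    rw [inv_mul_cancel_right, inv_mul_cancel_right, e1, ← zpow_add, hβ] at c
    simp only [wdeg_mul]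
    linear_combination c

theorem recip (hζ : IsPrimitiveRoot ζ 3) (ℓ : Locs Ω ζ) (θ : WG k Ω → WG k Ω → F3)
    (hs : (pre ℓ).Sm2 θ) (hθ : IsCoc2 θ) (S : Finset (Pl k))
    (hS : ∀ v ∉ S, (pre ℓ).inv v θ = 0) : ∑ v ∈ S, (pre ℓ).inv v θ = 0 := by
  classical
  obtain ⟨b0, hb0, h0⟩ := RecipB_reduce hζ ℓ hs hθ
  obtain ⟨hs', hθ', hi⟩ := RecipB_sub hζ ℓ hs hθ hb0
  obtain ⟨r, b, hr, hb, -, hinf, hfin⟩ := RecipB_main hζ ℓ hs' hθ' h0
  simp only [hi] at hinf hfin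
  obtain ⟨T, hT, hT'⟩ := RecipB_places ℓ (b.num.roots + b.denom.roots)
  have hn : (none : Pl k) ∉ (S ∪ T).erase none := Finset.notMem_erase _ _
  have hsub : S ⊆ insert none ((S ∪ T).erase none) := fun v hv => by
    by_cases h : v = none
    · exact h ▸ Finset.mem_insert_self _ _
    · exact Finset.mem_insert_of_mem (Finset.mem_erase.2 ⟨h, Finset.mem_union_left _ hv⟩)
  have hc : ∀ p : Polynomial (Kb k Ω), (∀ y ∈ p.roots, y ∈ b.num.roots + b.denom.roots) →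
      ∑ v ∈ (S ∪ T).erase none, ∑ i ∈ Finset.range (pdg v),
        (p.rootMultiplicity ((frob k Ω ^ i) (ℓ v).x) : F3) = p.natDegree := fun p hp => by
    have := RecipB_count ℓ _ hn p.roots fun y hy => by
      obtain ⟨v, hv, h⟩ := hT' y (hp y hy)
      exact ⟨v, Finset.mem_erase.2 ⟨fun e => hT (e ▸ hv), Finset.mem_union_right _ hv⟩, h⟩
    rw [(IsAlgClosed.splits p).natDegree_eq_card_roots, ← this]
    push_cast
    simp only [Polynomial.count_roots]
  rw [Finset.sum_subset hsub fun v _ hv => hS v hv, Finset.sum_insert hn, hinf,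
    Finset.sum_congr rfl fun v hv => hfin v (Finset.ne_of_mem_erase hv)]
  simp only [RecipB_ord, Finset.sum_sub_distrib]
  rw [hc _ fun y hy => Multiset.mem_add.2 (Or.inl hy), hc _ fun y hy => Multiset.mem_add.2 (Or.inr hy)]
  ring

theorem hasse (hζ : IsPrimitiveRoot ζ 3) (ℓ : Locs Ω ζ) (θ : WG k Ω → WG k Ω → F3)
    (hs : (pre ℓ).Sm2 θ) (hθ : IsCoc2 θ) (h0 : ∀ v, (pre ℓ).inv v θ = 0) :
    ∃ b : WG k Ω → F3, (pre ℓ).Sm b ∧ ∀ g h, θ g h = b g + b h - b (g * h) := by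
  classical
  obtain ⟨b0, hb0, hz⟩ := RecipB_reduce hζ ℓ hs hθ
  obtain ⟨hs', hθ', hi⟩ := RecipB_sub hζ ℓ hs hθ hb0
  obtain ⟨θ', hθe⟩ : ∃ θ' : WG k Ω → WG k Ω → F3,
      θ' = fun g h => θ g h - (b0 g + b0 h - b0 (g * h)) := ⟨_, rfl⟩
  have hz' : ∀ g h, wdeg g = 0 → wdeg h = 0 → θ' g h = 0 := by
    rw [hθe]
    exact hz
  rw [← hθe] at hs' hθ' hi
  obtain ⟨r, b, hr, hb, hk, -, hfin⟩ := RecipB_main hζ ℓ hs' hθ' hz'
  have hbne := RecipB_ne hr hb
  obtain ⟨M, hM, hM'⟩ := RecipB_solve ℓ (RecipB_ord b) (b.num.roots + b.denom.roots)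
    (fun y hy => by
      by_contra hc
      rw [Multiset.mem_add, not_or] at hc
      apply hy
      rw [RecipB_ord, ← Polynomial.count_roots, ← Polynomial.count_roots,
        Multiset.count_eq_zero_of_notMem hc.1, Multiset.count_eq_zero_of_notMem hc.2, sub_self])
    (fun v hv => by rw [← hfin v hv, hi, h0])
  obtain ⟨p, hp, hp'⟩ := RecipB_exists_poly M hM
  have h3 : (3 : k) ≠ 0 := by exact_mod_cast hζ.neZero'.out
  obtain ⟨s, hs3⟩ : ∃ s : Ω, s ^ 3 = jK k Ω (algebraMap _ _ p) := ⟨_, cbrt_spec h3 _⟩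
  have hs0 : s ≠ 0 := by
    rintro rfl
    rw [zero_pow three_ne_zero, eq_comm, map_eq_zero] at hs3
    exact RatFunc.algebraMap_ne_zero hp hs3
  have hord : ∀ y, RecipB_ord (algebraMap _ (RatFunc (Kb k Ω)) p) y = M y := fun y => by
    rw [RecipB_ord, RatFunc.num_algebraMap, RatFunc.denom_algebraMap, hp', ← Polynomial.C_1,
      Polynomial.rootMultiplicity_C, Nat.cast_zero, sub_zero]
  have hadd : ∀ {t : Ω} {c : RatFunc (Kb k Ω)}, t ≠ 0 → t ^ 3 = jK k Ω c → ∀ g g' : WG k Ω,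
      wdeg g = 0 → wdeg g' = 0 → kum ζ t (gal (g * g')) = kum ζ t (gal g) + kum ζ t (gal g') :=
    fun ht hc g g' hg hg' => by
      rw [map_mul, kum_mul hζ ht (by rw [hc, geom_fix hg]) (by rw [hc, geom_fix hg'])]
  have hker : ∀ {t : Ω}, t ≠ 0 → ∀ u : WG k Ω, gal u t = t → kum ζ t (gal u) = 0 :=
    fun ht u hu => (kum_eq_zero_iff hζ ht (by rw [map_pow, hu])).2 hu
  obtain ⟨U1, hU1, hf1⟩ := adm_kum hζ hb
  obtain ⟨U2, hU2, hf2⟩ := adm_kum hζ hs3
  have hD := uniq_geom hζ ℓ (fun u => kum ζ r (gal u) -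
      (kum ζ s (gal ((ℓ none).σ * u * (ℓ none).σ⁻¹)) - kum ζ s (gal u)))
    (fun g g' hg hg' => by
      have e : (ℓ none).σ * (g * g') * (ℓ none).σ⁻¹ =
          (ℓ none).σ * g * (ℓ none).σ⁻¹ * ((ℓ none).σ * g' * (ℓ none).σ⁻¹) := by group
      rw [e, hadd hr hb g g' hg hg', hadd hs0 hs3 g g' hg hg',
        hadd hs0 hs3 _ _ (RecipB_conj_deg _ hg) (RecipB_conj_deg _ hg')]
      ring)
    (hU1.inf hU2) (fun u hu => by
      rw [hker hr u (hf1 u hu.1), hker hs0 u (hf2 u hu.2),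
        hker hs0 _ (hf2 _ (hU2.normal.conj_mem u hu.2 _))]
      ring)
    (fun v hv i => by
      have e : (ℓ none).σ * ((ℓ none).σ ^ i * (ℓ v).τ * (ℓ none).σ ^ (-i)) * (ℓ none).σ⁻¹ =
          (ℓ none).σ ^ (1 + i) * (ℓ v).τ * (ℓ none).σ ^ (-(1 + i)) := by group
      rw [e, RecipB_kum_fin hζ ℓ hr hb hv, RecipB_kum_fin hζ ℓ hs0 hs3 hv,
        RecipB_kum_fin hζ ℓ hs0 hs3 hv, hord, hord, zpow_one_add, AlgEquiv.mul_apply, hM', sub_self])
  have hb1 : (pre ℓ).Sm fun g => if wdeg g = 0 then -kum ζ s (gal g) else 0 := by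
    refine ⟨U2, hU2, fun g u hu => ?_⟩
    have hu0 : wdeg u = 0 := hU2.le hu
    simp only [wdeg_mul, hu0, add_zero]
    split_ifs with hg
    · rw [hadd hs0 hs3 g u hg hu0, hker hs0 u (hf2 u hu), add_zero]
    · rfl
  obtain ⟨hs2, hθ2, -⟩ := RecipB_sub hζ ℓ hs' hθ' hb1
  obtain ⟨b2, hb2, he⟩ := RecipB_split ℓ hs2 hθ2
    (fun g h hg hh => by
      rw [hz' g h hg hh, if_pos hg, if_pos hh, if_pos (by rw [wdeg_mul, hg, hh, add_zero]),
        hadd hs0 hs3 g h hg hh]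
      ring)
    (fun u hu => by
      have e1 := hD u hu
      have e2 := hk u hu
      have e3 : (ℓ none).σ * u * (ℓ none).σ⁻¹ * (ℓ none).σ = (ℓ none).σ * u := by group
      unfold RecipB_H at e2 ⊢
      simp only at e1 ⊢
      rw [e3, if_pos hu, if_pos (RecipB_conj_deg _ hu)]
      linear_combination e1 - e2)
  obtain ⟨V0, hV0, a0⟩ := hb0
  obtain ⟨V1, hV1, a1⟩ := hb1
  obtain ⟨V2, hV2, a2⟩ := hb2
  refine ⟨fun g => b0 g + (if wdeg g = 0 then -kum ζ s (gal g) else 0) + b2 g,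
    ⟨V0 ⊓ V1 ⊓ V2, Adm.inf (Adm.inf hV0 hV1) hV2, fun g u hu => ?_⟩, fun g h => ?_⟩
  · have := a1 g u hu.1.2
    simp only at this ⊢
    rw [a0 g u hu.1.1, this, a2 g u hu.2]
  · have e1 := he g h
    have e2 : θ' g h = θ g h - (b0 g + b0 h - b0 (g * h)) := by rw [hθe]
    linear_combination e1 - e2

end Pool.Agent.Smith
end

-- merged part: Pool.Agent.Work.MP_60d5ce_nt.Sm.ChebP
section
/-!
# Counting monic irreducible polynomials over a finite field
-/

namespace Pool.Agent.Smith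

open scoped Classical
open Polynomial

variable {k : Type} [Field k] [Fintype k]

theorem chebp_sum (e : ℕ) (he : 0 < e) : ∃ S : Finset k[X],
    (∀ p, p ∈ S ↔ p.Monic ∧ Irreducible p ∧ p.natDegree ∣ e) ∧
      ∑ p ∈ S, p.natDegree = Fintype.card k ^ e := by
  have h1 : 1 < Fintype.card k := Fintype.one_lt_card
  have h0 : (X ^ Fintype.card k ^ e - X : k[X]) ≠ 0 :=
    FiniteField.X_pow_card_pow_sub_X_ne_zero k he.ne' h1
  have hd : (X ^ Fintype.card k ^ e - X : k[X]).natDegree = Fintype.card k ^ e :=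
    FiniteField.X_pow_card_pow_sub_X_natDegree_eq k he.ne' h1
  have hsep : (X ^ Fintype.card k ^ e - X : k[X]).Separable := by
    obtain ⟨p, hp⟩ := CharP.exists k
    obtain ⟨n, hpp, hn⟩ := FiniteField.card k p
    refine galois_poly_separable p _ ?_
    rw [hn]
    exact dvd_pow (dvd_pow_self p n.ne_zero) he.ne'
  have hnd := (UniqueFactorizationMonoid.squarefree_iff_nodup_normalizedFactors h0).1
    hsep.squarefree
  refine ⟨⟨_, hnd⟩, fun p => ?_, ?_⟩
  · rw [Finset.mem_mk, Polynomial.mem_normalizedFactors_iff h0]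
    constructor
    · rintro ⟨a, b, c⟩
      refine ⟨b, a, ?_⟩
      rw [a.natDegree_dvd_iff_dvd_X_pow_card_pow_sub_X, Nat.card_eq_fintype_card]
      exact c
    · rintro ⟨b, a, c⟩
      refine ⟨a, b, ?_⟩
      rwa [a.natDegree_dvd_iff_dvd_X_pow_card_pow_sub_X, Nat.card_eq_fintype_card] at c
  · refine Eq.trans ?_ hd
    rw [Finset.sum_mk, ← natDegree_multiset_prod _
      (UniqueFactorizationMonoid.zero_notMem_normalizedFactors _)]
    exact natDegree_eq_of_degree_eq (degree_eq_degree_of_associated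
      (UniqueFactorizationMonoid.prod_normalizedFactors h0))

theorem chebp_le (d : ℕ) (T : Finset k[X])
    (hT : ∀ p ∈ T, p.Monic ∧ Irreducible p ∧ p.natDegree = d) :
    d * T.card ≤ Fintype.card k ^ d := by
  rcases Nat.eq_zero_or_pos d with rfl | hd
  · simp
  obtain ⟨S, hS, hs⟩ := chebp_sum (k := k) d hd
  rw [← hs, mul_comm, ← smul_eq_mul, ← Finset.sum_const,
    ← Finset.sum_congr rfl fun p hp => (hT p hp).2.2]
  exact Finset.sum_le_sum_of_subset fun p hp =>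
    (hS p).2 ⟨(hT p hp).1, (hT p hp).2.1, (hT p hp).2.2 ▸ dvd_rfl⟩

theorem chebp_card (d : ℕ) : ∃ T : Finset k[X],
    (∀ p, p ∈ T ↔ p.Monic ∧ Irreducible p ∧ p.natDegree = d) ∧
      {v : Pl k | pdg v = d ∧ v ≠ none}.ncard = T.card := by
  have hf : {v : Pl k | pdg v = d ∧ v ≠ none}.Finite := (pdg_fin d).subset fun v hv => hv.1
  let f : Pl k → k[X] := fun v => v.elim 0 Subtype.val
  have hinj : Set.InjOn f {v : Pl k | pdg v = d ∧ v ≠ none} := by
    intro v hv v' hv' h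
    obtain ⟨p, rfl⟩ := Option.ne_none_iff_exists'.1 hv.2
    obtain ⟨p', rfl⟩ := Option.ne_none_iff_exists'.1 hv'.2
    exact congrArg some (Subtype.ext h)
  refine ⟨(hf.image f).toFinset, fun p => ?_, ?_⟩
  · rw [Set.Finite.mem_toFinset]
    constructor
    · rintro ⟨v, hv, rfl⟩
      obtain ⟨p, rfl⟩ := Option.ne_none_iff_exists'.1 hv.2
      exact ⟨p.2.1, p.2.2, hv.1⟩
    · rintro ⟨a, b, c⟩
      exact ⟨some ⟨p, a, b⟩, ⟨c, Option.some_ne_none _⟩, rfl⟩
  · rw [← Set.ncard_eq_toFinset_card _ (hf.image f), hinj.ncard_image]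

theorem chebp_geom {q : ℕ} (hq : 2 ≤ q) (m : ℕ) : ∑ d ∈ Finset.range (m + 1), q ^ d ≤ 2 * q ^ m := by
  induction m with
  | zero => simp
  | succ m ih =>
    rw [Finset.sum_range_succ, pow_succ]
    nlinarith [Nat.zero_le (q ^ m)]

theorem chebp_upper (e : ℕ) :
    e * {v : Pl k | pdg v = e ∧ v ≠ none}.ncard ≤ Fintype.card k ^ e := by
  obtain ⟨T, hT, h⟩ := chebp_card (k := k) e
  rw [h]
  exact chebp_le e T fun p hp => (hT p).1 hp

theorem chebp_lower (e : ℕ) (he : 0 < e) : Fintype.card k ^ e ≤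
    e * {v : Pl k | pdg v = e ∧ v ≠ none}.ncard + 2 * Fintype.card k ^ ((e + 1) / 2) := by
  obtain ⟨T, hT, h⟩ := chebp_card (k := k) e
  obtain ⟨S, hS, hs⟩ := chebp_sum (k := k) e he
  have h1 : 1 < Fintype.card k := Fintype.one_lt_card
  rw [h, ← hs, ← Finset.sum_filter_add_sum_filter_not S fun p => p.natDegree = e]
  refine add_le_add (le_of_eq ?_) ?_
  · have : S.filter (fun p => p.natDegree = e) = T := by
      ext p
      rw [Finset.mem_filter, hS, hT]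
      exact ⟨fun h => ⟨h.1.1, h.1.2.1, h.2⟩, fun h => ⟨⟨h.1, h.2.1, h.2.2 ▸ dvd_rfl⟩, h.2.2⟩⟩
    rw [this, Finset.sum_congr rfl fun p hp => ((hT p).1 hp).2.2, Finset.sum_const, smul_eq_mul,
      mul_comm]
  · rw [← Finset.sum_fiberwise_of_maps_to (t := Finset.range (e / 2 + 1)) (g := natDegree)]
    · refine (Finset.sum_le_sum fun d _ => ?_).trans ((chebp_geom h1 (e / 2)).trans
        (Nat.mul_le_mul_left 2 (Nat.pow_le_pow_right h1.le (by omega))))
      rw [Finset.sum_congr rfl fun p hp => (Finset.mem_filter.1 hp).2, Finset.sum_const,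
        smul_eq_mul, mul_comm]
      refine chebp_le d _ fun p hp => ?_
      obtain ⟨hp1, hp2⟩ := Finset.mem_filter.1 hp
      have := (hS p).1 (Finset.mem_filter.1 hp1).1
      exact ⟨this.1, this.2.1, hp2⟩
    · intro p hp
      obtain ⟨hp1, hp2⟩ := Finset.mem_filter.1 hp
      obtain ⟨c, hc⟩ := ((hS p).1 hp1).2.2
      rw [Finset.mem_range, Nat.lt_succ_iff, Nat.le_div_iff_mul_le two_pos]
      have : 2 ≤ c := by
        rcases c with _ | _ | c
        · omega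
        · omega
        · omega
      rw [hc]
      exact Nat.mul_le_mul_left _ this

end Pool.Agent.Smith
end

-- merged part: Pool.Agent.Work.MP_60d5ce_nt.Sm.Cheb
section
/-!
# The Chebotarev upper bound and the prime polynomial lower bound

Hints.  `φ = σ ∞` has degree one.
* `exists_crv`: `M = MU U`; for `y = frob ^ i x_v` (`exists_place`, `place_unique`) let `w (some y)` be
  `(ℓ v).w ∘ gal (φ ^ (-i))` on `M` (`Adm.gal_mem_MU`); `Ram` is the set of `y` over `A`; `disc` is the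
  field `disc` of `Loc`; `pgrp` from `Adm.card_gal`, `Adm.index_pow`.
* `card_pairs`: for `f ∈ LL m`, `h (g f - f ^ Q) = σ (h f) - (h f) ^ Q` is small (`Loc.σ_res`), where
  `h = φ ^ (-i) * h0`; map `(v, i, h0)` to `(frob ^ i x_v, π h0)` and use `Crv.stepanov`.
* `cheb`: each triple `(v, i, h0 U)` with `σ v ∈ E` determines the coset of `g = h⁻¹ * σ v * h ∈ E`.
  The cosets of degree `e` are `φ ^ e * WG0 / U`, `N'` of them, right multiplication by `z j` permutes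
  them, so at most `θ N'` lie in `E`.  Divide by `N'`.
* `pnt`: the `q ^ e` roots of `X ^ q ^ e - X` in an algebraic closure have minimal polynomials of
  degree `d ∣ e`; those with `d < e` are roots of `X ^ q ^ d - X`, `d ≤ e / 2`.
-/

namespace Pool.Agent.Smith

open scoped Classical

variable {k : Type} [Field k] [Fintype k] {Ω : Type} [Field Ω] [Algebra (RatFunc k) Ω]
  [Algebra k Ω] [IsScalarTower k (RatFunc k) Ω]

theorem pnt (e : ℕ) (he : 0 < e) : (Fintype.card k : ℝ) ^ e ≤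
    e * ({v : Pl k | pdg v = e ∧ v ≠ none}.ncard : ℝ) + 2 * (Fintype.card k : ℝ) ^ ((e + 1) / 2) := by
  exact_mod_cast chebp_lower (k := k) e he

theorem pnt_upper (e : ℕ) :
    e * {v : Pl k | pdg v = e ∧ v ≠ none}.ncard ≤ Fintype.card k ^ e := by
  exact chebp_upper e

/-- the action of the Weil group on the fixed field -/
noncomputable def chebRes {U : Subgroup (WG k Ω)} (hU : Adm U) (g : WG k Ω) : MU U ≃+* MU U where
  toFun a := ⟨gal g a, hU.gal_mem_MU g a.2⟩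
  invFun a := ⟨gal g⁻¹ a, hU.gal_mem_MU g⁻¹ a.2⟩
  left_inv a := Subtype.ext (by
    show gal g⁻¹ (gal g (a : Ω)) = a
    rw [← AlgEquiv.mul_apply, ← map_mul, inv_mul_cancel, map_one, AlgEquiv.one_apply])
  right_inv a := Subtype.ext (by
    show gal g (gal g⁻¹ (a : Ω)) = a
    rw [← AlgEquiv.mul_apply, ← map_mul, mul_inv_cancel, map_one, AlgEquiv.one_apply])
  map_mul' a b := Subtype.ext (map_mul (gal g) (a : Ω) b)
  map_add' a b := Subtype.ext (map_add (gal g) (a : Ω) b)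

theorem chebRes_coe {U : Subgroup (WG k Ω)} (hU : Adm U) (g : WG k Ω) (a : MU U) :
    (chebRes hU g a : Ω) = gal g a := rfl

theorem chebRes_symm_coe {U : Subgroup (WG k Ω)} (hU : Adm U) (g : WG k Ω) (a : MU U) :
    ((chebRes hU g).symm a : Ω) = gal g⁻¹ a := rfl

theorem cheb_tM (U : Subgroup (WG k Ω)) : ((tM (Kb k Ω) (MU U) : MU U) : Ω) = tt k Ω := by
  have h := jK_poly k Ω Polynomial.X
  rw [Polynomial.aeval_X, RatFunc.algebraMap_X] at h
  exact h

theorem cheb_const (U : Subgroup (WG k Ω)) (c : Kb k Ω) :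
    ((algebraMap (Kb k Ω) (MU U) c : MU U) : Ω) = c := rfl

theorem cheb_aeval (U : Subgroup (WG k Ω)) (p : Polynomial (Kb k Ω)) :
    ((Polynomial.aeval (tM (Kb k Ω) (MU U)) p : MU U) : Ω) = Polynomial.aeval (tt k Ω) p := by
  rw [← cheb_tM U]
  exact (Polynomial.aeval_algHom_apply ((MU U).val.restrictScalars (Kb k Ω)) _ p).symm

/-- a translated absolute value on the fixed field -/
noncomputable def chebW {ζ : k} {v : Pl k} (l : Loc Ω ζ v) (U : Subgroup (WG k Ω)) (g : WG k Ω) :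
    AbsoluteValue (MU U) ℝ :=
  l.w.comp (f := (gal g : Ω →+* Ω).comp (MU U).subtype) (RingHom.injective _)

theorem chebW_apply {ζ : k} {v : Pl k} (l : Loc Ω ζ v) (U : Subgroup (WG k Ω)) (g : WG k Ω)
    (a : MU U) : chebW l U g a = l.w (gal g a) := rfl

theorem chebW_na {ζ : k} {v : Pl k} (l : Loc Ω ζ v) (U : Subgroup (WG k Ω)) (g : WG k Ω) :
    IsNonarchimedean (chebW l U g) := by
  intro a b
  simpa only [chebW_apply, IntermediateField.coe_add, map_add] using l.w_na (gal g a) (gal g b)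

theorem chebW_res {ζ : k} {v : Pl k} (l : Loc Ω ζ v) (U : Subgroup (WG k Ω)) (g : WG k Ω)
    (a : MU U) (ha : chebW l U g a ≤ 1) :
    ∃ c : Kb k Ω, chebW l U g (a - algebraMap (Kb k Ω) (MU U) c) < 1 := by
  obtain ⟨c, hc⟩ := l.w_res ha
  refine ⟨(frob k Ω ^ wdeg g).symm c, ?_⟩
  rw [chebW_apply, AddSubgroupClass.coe_sub, map_sub, cheb_const, gal_const,
    AlgEquiv.apply_symm_apply]
  exact hc

variable [IsSepClosure (RatFunc k) Ω] {ζ : k}

theorem exists_crv (hζ : IsPrimitiveRoot ζ 3) (ℓ : Locs Ω ζ) {U : Subgroup (WG k Ω)} (hU : Adm U)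
    (A : Finset (Pl k)) (hA : none ∈ A) (hτ : ∀ v ∉ A, (ℓ v).τ ∈ U) :
    ∃ C : Crv (Kb k Ω) (MU U), C.Ram.card + 1 ≤ ∑ v ∈ A, pdg v ∧
      ∀ v ∉ A, ∀ i < pdg v, (frob k Ω ^ i) (ℓ v).x ∉ C.Ram ∧ ∀ a : MU U,
        C.w (some ((frob k Ω ^ i) (ℓ v).x)) a = (ℓ v).w (gal ((ℓ none).σ ^ i)⁻¹ a) := by
  choose pv pi hv hi hy using exists_place ℓ
  obtain ⟨j, hj⟩ := hU.index_pow
  have h3 : (3 : k) ≠ 0 := by exact_mod_cast hζ.neZero'.out
  have hdeg : ∀ i : ℕ, wdeg ((ℓ none).σ ^ i)⁻¹ = -(i : ℤ) := fun i => by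
    rw [wdeg_inv, wdeg_pow, (ℓ none).deg_σ]
    simp [pdg]
  let R : Finset (Kb k Ω) := (A.erase none).biUnion fun v =>
    (Finset.range (pdg v)).image fun i => (frob k Ω ^ i) (ℓ v).x
  have hR : ∀ y, y ∉ R → pv y ∉ A := fun y h hA' => h (Finset.mem_biUnion.2
    ⟨pv y, Finset.mem_erase.2 ⟨hv y, hA'⟩,
      Finset.mem_image.2 ⟨pi y, Finset.mem_range.2 (hi y), (hy y).symm⟩⟩)
  let W : Pl k → ℕ → AbsoluteValue (MU U) ℝ := fun v i => chebW (ℓ v) U ((ℓ none).σ ^ i)⁻¹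
  refine ⟨{ w := fun y => y.elim (W none 0) fun y => W (pv y) (pi y)
            na := ?_, w_fin := ?_, w_inf := ?_, res := ?_, Ram := R, disc := ?_
            pgrp := IsPGroup.of_card (hU.card_gal.trans hj)
            three := ?_ }, ?_, ?_⟩
  · rintro (_ | y)
    · exact chebW_na _ _ _
    · exact chebW_na _ _ _
  · intro y p hp
    have hinj : Function.Injective
        ((frob k Ω ^ (-(pi y : ℤ)) : Kb k Ω ≃ₐ[k] Kb k Ω) : Kb k Ω →+* Kb k Ω) :=
      RingHom.injective _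
    show chebW (ℓ (pv y)) U ((ℓ none).σ ^ pi y)⁻¹ _ = _
    rw [chebW_apply, cheb_aeval, gal_aeval, hdeg, (ℓ (pv y)).w_poly (hv y)
      ((Polynomial.map_ne_zero_iff hinj).2 hp), Polynomial.eq_rootMultiplicity_map hinj y]
    have e : ((frob k Ω ^ (-(pi y : ℤ)) : Kb k Ω ≃ₐ[k] Kb k Ω) : Kb k Ω →+* Kb k Ω) y =
        (ℓ (pv y)).x := by
      conv_lhs => arg 2; rw [hy y]
      rw [zpow_neg, zpow_natCast]
      exact (frob k Ω ^ pi y).symm_apply_apply _
    rw [e]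
  · intro p hp
    show chebW (ℓ none) U ((ℓ none).σ ^ 0)⁻¹ _ = _
    rw [chebW_apply, cheb_aeval, pow_zero, inv_one, map_one, AlgEquiv.one_apply, (ℓ none).w_poly_inf hp]
  · rintro (_ | y) a ha
    · exact chebW_res _ _ _ a ha
    · exact chebW_res _ _ _ a ha
  · intro y hyR a ha
    have hm := (mem_MU hU.le).1 (hU.gal_mem_MU ((ℓ none).σ ^ pi y)⁻¹ a.2)
    exact (ℓ (pv y)).disc U hU _ (by simpa using ha) hm (hm _ (hτ _ (hR y hyR)))
  · have := (map_ne_zero (algebraMap k (Kb k Ω))).2 h3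
    rwa [map_ofNat] at this
  · show R.card + 1 ≤ _
    rw [← Finset.add_sum_erase A _ hA, add_comm]
    refine add_le_add le_rfl (Finset.card_biUnion_le.trans (Finset.sum_le_sum fun v _ => ?_))
    exact Finset.card_image_le.trans (Finset.card_range _).le
  · intro v hvA i hiv
    have hv0 : v ≠ none := fun h => hvA (h ▸ hA)
    obtain ⟨e1, e2⟩ := place_unique ℓ hv0 (hv _) hiv (hi _) (hy ((frob k Ω ^ i) (ℓ v).x))
    refine ⟨fun h => ?_, fun a => ?_⟩
    · obtain ⟨v', hv', h⟩ := Finset.mem_biUnion.1 h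
      obtain ⟨i', hi', h⟩ := Finset.mem_image.1 h
      obtain ⟨h1, h2⟩ := Finset.mem_erase.1 hv'
      exact hvA ((place_unique ℓ h1 hv0 (Finset.mem_range.1 hi') hiv h).1 ▸ h2)
    · show W (pv _) (pi _) a = W v i a
      rw [← e1, ← e2]

theorem card_pairs (hζ : IsPrimitiveRoot ζ 3) (hq : 4 ≤ Fintype.card k) (ℓ : Locs Ω ζ)
    {U : Subgroup (WG k Ω)} (hU : Adm U) (A : Finset (Pl k)) (hA : none ∈ A)
    (hτ : ∀ v ∉ A, (ℓ v).τ ∈ U) {e : ℕ} (he : 0 < e) (g : WG k Ω) (hg : wdeg g = e)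
    (Z : Finset (Pl k × ℕ × (WG0 k Ω ⧸ U.subgroupOf (WG0 k Ω))))
    (hZ : ∀ z ∈ Z, z.1 ∉ A ∧ pdg z.1 = e ∧ z.2.1 < e ∧
      (((ℓ none).σ ^ z.2.1)⁻¹ * z.2.2.out.1 * g)⁻¹ *
        ((ℓ z.1).σ * (((ℓ none).σ ^ z.2.1)⁻¹ * z.2.2.out.1)) ∈ U) :
    (Z.card : ℝ) ≤ (Fintype.card k : ℝ) ^ e +
      (pre ℓ).err (U.relIndex (WG0 k Ω)) (∑ v ∈ A, pdg v) e := by
  have := hU.finiteDimensional
  have := hU.isGalois
  obtain ⟨C, hC1, hC2⟩ := exists_crv hζ ℓ hU A hA hτ
  obtain ⟨π, -, hπ1, hπ2⟩ := hU.exists_res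
  have hne : ∀ z ∈ Z, z.1 ≠ none := fun z hz h => (hZ z hz).1 (h ▸ hA)
  have hlt : ∀ z ∈ Z, z.2.1 < pdg z.1 := fun z hz => (hZ z hz).2.1 ▸ (hZ z hz).2.2.1
  have hinj : Set.InjOn (fun z : Pl k × ℕ × (WG0 k Ω ⧸ U.subgroupOf (WG0 k Ω)) =>
      ((frob k Ω ^ z.2.1) (ℓ z.1).x, π z.2.2.out)) Z := by
    intro z hz z' hz' h
    obtain ⟨h1, h2⟩ := Prod.mk.inj h
    obtain ⟨e1, e2⟩ := place_unique ℓ (hne z hz) (hne z' hz') (hlt z hz) (hlt z' hz') h1
    refine Prod.ext e1 (Prod.ext e2 ?_)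
    rw [← QuotientGroup.out_eq' z.2.2, ← QuotientGroup.out_eq' z'.2.2, QuotientGroup.eq,
      Subgroup.mem_subgroupOf, ← hπ2, map_mul, map_inv, h2, inv_mul_cancel]
  have key := C.stepanov hq he (fun a b => Subtype.ext (by
      simpa using map_add (FiniteField.frobeniusAlgHom k Ω) (a : Ω) b))
    (chebRes hU g) (Subtype.ext (by rw [chebRes_coe, cheb_tM, gal_tt]))
    (fun c => ⟨(frob k Ω ^ wdeg g⁻¹) c, Subtype.ext (by
      rw [chebRes_symm_coe, cheb_const, cheb_const, gal_const])⟩)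
    (Z.image fun z => ((frob k Ω ^ z.2.1) (ℓ z.1).x, π z.2.2.out)) ?_
  · rw [Finset.card_image_of_injOn hinj, ← IsGalois.card_aut_eq_finrank, hU.card_gal] at key
    refine key.trans (add_le_add le_rfl ?_)
    have h1 : (C.Ram.card + 2 : ℝ) ≤ (∑ v ∈ A, pdg v : ℕ) + 1 := by
      have : (C.Ram.card + 1 : ℝ) ≤ (∑ v ∈ A, pdg v : ℕ) := by exact_mod_cast hC1
      linarith
    show _ ≤ 18 * _ ^ 2 * (_ + 1) * (Fintype.card k : ℝ) ^ ((e + 1) / 2)
    gcongr
  · intro y hy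
    obtain ⟨z, hz, rfl⟩ := Finset.mem_image.1 hy
    obtain ⟨h1, h2, h3, h4⟩ := hZ z hz
    obtain ⟨h5, h6⟩ := hC2 z.1 h1 z.2.1 (hlt z hz)
    refine ⟨h5, fun m f hf => ?_⟩
    have h7 := (C.mem_LL.1 hf).1 ((frob k Ω ^ z.2.1) (ℓ z.1).x) (π z.2.2.out)
    simp only [h6, hπ1] at h7 ⊢
    rw [← AlgEquiv.mul_apply, ← map_mul] at h7 ⊢
    have h8 := (mem_MU hU.le).1 f.2 _ h4
    generalize ((ℓ none).σ ^ z.2.1)⁻¹ * z.2.2.out.1 = h at h7 h8 ⊢
    have h9 : gal (ℓ z.1).σ (gal h f) = gal h (gal g f) := by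
      conv_rhs => rw [← h8]
      simp only [← AlgEquiv.mul_apply, ← map_mul]
      congr 2
      group
    have h10 := (ℓ z.1).σ_res h7
    rw [h9, h2] at h10
    rw [AddSubgroupClass.coe_sub, IntermediateField.coe_pow, chebRes_coe, map_sub, map_pow]
    exact h10

theorem cheb (hζ : IsPrimitiveRoot ζ 3) (hq : 4 ≤ Fintype.card k) (ℓ : Locs Ω ζ)
    (U : Subgroup (WG k Ω)) (hU : Adm U) (N : ℕ) (hN : U.relIndex (WG0 k Ω) ≤ N)
    (A : Finset (Pl k)) (hA : none ∈ A) (hτ : ∀ v ∉ A, (ℓ v).τ ∈ U) (E : Set (WG k Ω))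
    (hE : ∀ g ∈ E, ∀ u ∈ U, g * u ∈ E) (hc : ∀ g ∈ E, ∀ h, h * g * h⁻¹ ∈ E) (e : ℕ) (he : 0 < e)
    (J : Type) [Fintype J] [Nonempty J] (z : J → WG k Ω) (hz : ∀ j, wdeg (z j) = 0) (θ : ℝ)
    (hθ : ∀ g, wdeg g = e → (({j | g * z j ∈ E} : Set J).ncard : ℝ) ≤ θ * Fintype.card J) :
    (e : ℝ) * ({v | pdg v = e ∧ v ∉ A ∧ (ℓ v).σ ∈ E}.ncard : ℝ) ≤
      θ * ((Fintype.card k : ℝ) ^ e + (pre ℓ).err N (∑ v ∈ A, pdg v) e) := by
  have := hU.normal
  have : (U.subgroupOf (WG0 k Ω)).FiniteIndex := ⟨hU.index⟩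
  have := Fintype.ofFinite (WG0 k Ω ⧸ U.subgroupOf (WG0 k Ω))
  have hcard : Fintype.card (WG0 k Ω ⧸ U.subgroupOf (WG0 k Ω)) = U.relIndex (WG0 k Ω) :=
    Nat.card_eq_fintype_card.symm
  have hpos : (0 : ℝ) < U.relIndex (WG0 k Ω) := by
    exact_mod_cast Nat.pos_of_ne_zero hU.index
  have hφ : ∀ i : ℕ, wdeg ((ℓ none).σ ^ i) = i := fun i => by
    rw [wdeg_pow, (ℓ none).deg_σ]
    simp [pdg]
  have hE' : ∀ g g', g⁻¹ * g' ∈ U → (g ∈ E ↔ g' ∈ E) := fun g g' h =>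
    ⟨fun hg => by simpa using hE g hg _ h, fun hg => by simpa using hE g' hg _ (U.inv_mem h)⟩
  -- representatives
  obtain ⟨rep, hrep⟩ : ∃ rep : WG0 k Ω ⧸ U.subgroupOf (WG0 k Ω) → WG k Ω,
      ∀ c, rep c = (ℓ none).σ ^ e * c.out.1 := ⟨_, fun _ => rfl⟩
  have hrd : ∀ c, wdeg (rep c) = e := fun c => by
    rw [hrep, wdeg_mul, hφ, mem_WG0.1 c.out.2, add_zero]
  have hrep' : ∀ (c) (x : WG0 k Ω), (x : WG0 k Ω ⧸ U.subgroupOf (WG0 k Ω)) = c →
      (rep c)⁻¹ * ((ℓ none).σ ^ e * x.1) ∈ U := fun c x hx => by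
    rw [← QuotientGroup.out_eq' c, eq_comm, QuotientGroup.eq, Subgroup.mem_subgroupOf] at hx
    rw [hrep, mul_inv_rev, mul_assoc, inv_mul_cancel_left]
    exact hx
  obtain ⟨G, hG⟩ : ∃ G : Finset (WG0 k Ω ⧸ U.subgroupOf (WG0 k Ω)), ∀ c, c ∈ G ↔ rep c ∈ E :=
    ⟨Finset.univ.filter fun c => rep c ∈ E, fun c => by simp⟩
  -- the number of good cosets
  have hGle : (G.card : ℝ) ≤ θ * U.relIndex (WG0 k Ω) := by
    have h1 : ∀ j, (Finset.univ.filter fun c => rep c * z j ∈ E).card = G.card := by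
      intro j
      refine Finset.card_bijective _
        (Group.mulRight_bijective ((⟨z j, hz j⟩ : WG0 k Ω) : WG0 k Ω ⧸ U.subgroupOf (WG0 k Ω)))
        fun c => ?_
      rw [hG, Finset.mem_filter_univ, iff_comm]
      refine hE' _ _ ?_
      have := hrep' (c * ((⟨z j, hz j⟩ : WG0 k Ω) : WG0 k Ω ⧸ U.subgroupOf (WG0 k Ω)))
        (c.out * ⟨z j, hz j⟩) (by rw [QuotientGroup.mk_mul, QuotientGroup.out_eq'])
      rwa [hrep c, mul_assoc]
    have h2 : ∑ c, (Finset.univ.filter fun j => rep c * z j ∈ E).card =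
        ∑ j, (Finset.univ.filter fun c => rep c * z j ∈ E).card := by
      simp only [Finset.card_filter]
      exact Finset.sum_comm
    rw [Finset.sum_congr rfl fun j _ => h1 j, Finset.sum_const, Finset.card_univ,
      smul_eq_mul] at h2
    have h3 : ∀ c, ((Finset.univ.filter fun j => rep c * z j ∈ E).card : ℝ) ≤
        θ * Fintype.card J := fun c => by
      have := hθ (rep c) (hrd c)
      rwa [Set.ncard_eq_toFinset_card', Set.toFinset_ofPred] at this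
    have h4 : ((Fintype.card J * G.card : ℕ) : ℝ) ≤
        U.relIndex (WG0 k Ω) * (θ * Fintype.card J) := by
      rw [← h2, Nat.cast_sum]
      refine (Finset.sum_le_sum fun c _ => h3 c).trans (le_of_eq ?_)
      rw [Finset.sum_const, Finset.card_univ, hcard, nsmul_eq_mul]
    have hJ : (0 : ℝ) < Fintype.card J := by exact_mod_cast Fintype.card_pos
    push_cast at h4
    refine le_of_mul_le_mul_left ?_ hJ
    linarith
  have hθ0 : 0 ≤ θ := by
    have : (0 : ℝ) ≤ θ * U.relIndex (WG0 k Ω) := (Nat.cast_nonneg _).trans hGle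
    exact nonneg_of_mul_nonneg_left this hpos
  -- triples
  have hfin : {v | pdg v = e ∧ v ∉ A ∧ (ℓ v).σ ∈ E}.Finite := (pdg_fin e).subset fun v hv => hv.1
  obtain ⟨B, hB⟩ : ∃ B : ℝ, B = (Fintype.card k : ℝ) ^ e +
      (pre ℓ).err (U.relIndex (WG0 k Ω)) (∑ v ∈ A, pdg v) e := ⟨_, rfl⟩
  have hB0 : 0 ≤ B := by
    rw [hB, Pre.err]
    positivity
  have hBle : B ≤ (Fintype.card k : ℝ) ^ e + (pre ℓ).err N (∑ v ∈ A, pdg v) e := by
    rw [hB, Pre.err, Pre.err]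
    gcongr
  obtain ⟨T, hT⟩ : ∃ T : Finset (Pl k × ℕ × (WG0 k Ω ⧸ U.subgroupOf (WG0 k Ω))),
      T = hfin.toFinset ×ˢ Finset.range e ×ˢ Finset.univ := ⟨_, rfl⟩
  have hTm : ∀ t ∈ T, (pdg t.1 = e ∧ t.1 ∉ A ∧ (ℓ t.1).σ ∈ E) ∧ t.2.1 < e := fun t ht => by
    rw [hT, Finset.mem_product, Finset.mem_product, Set.Finite.mem_toFinset,
      Finset.mem_range] at ht
    exact ⟨ht.1, ht.2.1⟩
  obtain ⟨P, hP⟩ : ∃ P : (WG0 k Ω ⧸ U.subgroupOf (WG0 k Ω)) →
      Finset (Pl k × ℕ × (WG0 k Ω ⧸ U.subgroupOf (WG0 k Ω))), ∀ c t, t ∈ P c ↔ t ∈ T ∧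
      (((ℓ none).σ ^ t.2.1)⁻¹ * t.2.2.out.1 * rep c)⁻¹ *
        ((ℓ t.1).σ * (((ℓ none).σ ^ t.2.1)⁻¹ * t.2.2.out.1)) ∈ U :=
    ⟨fun c => T.filter _, fun c t => Finset.mem_filter⟩
  have hsub : T ⊆ G.biUnion P := by
    intro t ht
    obtain ⟨⟨h1, h2, h3⟩, h4⟩ := hTm t ht
    obtain ⟨h, hh⟩ : ∃ h, h = ((ℓ none).σ ^ t.2.1)⁻¹ * t.2.2.out.1 := ⟨_, rfl⟩
    have hx : ((ℓ none).σ ^ e)⁻¹ * (h⁻¹ * (ℓ t.1).σ * h) ∈ WG0 k Ω := by
      rw [mem_WG0, wdeg_mul, wdeg_mul, wdeg_mul, wdeg_inv, wdeg_inv, hφ, (ℓ t.1).deg_σ, h1]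
      ring
    have h5 := hrep' _ ⟨_, hx⟩ rfl
    rw [mul_inv_cancel_left] at h5
    refine Finset.mem_biUnion.2 ⟨_, (hG _).2 ((hE' _ _ h5).2 ?_), (hP _ _).2 ⟨ht, ?_⟩⟩
    · simpa using hc _ h3 h⁻¹
    · rw [← hh, mul_inv_rev, mul_assoc, ← mul_assoc h⁻¹]
      exact h5
  have hPle : ∀ c, ((P c).card : ℝ) ≤ B := fun c => by
    rw [hB]
    refine card_pairs hζ hq ℓ hU A hA hτ he (rep c) (hrd c) (P c) fun t ht => ?_
    obtain ⟨h1, h2⟩ := (hP c t).1 ht
    obtain ⟨⟨h3, h4, -⟩, h5⟩ := hTm t h1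
    exact ⟨h4, h3, h5, h2⟩
  have hTle : (T.card : ℝ) ≤ G.card * B := by
    have h1 : (T.card : ℝ) ≤ ∑ c ∈ G, ((P c).card : ℝ) := by
      exact_mod_cast (Finset.card_le_card hsub).trans Finset.card_biUnion_le
    refine h1.trans ((Finset.sum_le_sum fun c _ => hPle c).trans (le_of_eq ?_))
    rw [Finset.sum_const, nsmul_eq_mul]
  rw [hT, Finset.card_product, Finset.card_product, Finset.card_range, Finset.card_univ, hcard,
    ← Set.ncard_eq_toFinset_card _ hfin] at hTle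
  push_cast at hTle
  refine le_trans ?_ (mul_le_mul_of_nonneg_left hBle hθ0)
  refine le_of_mul_le_mul_left ?_ hpos
  have := mul_le_mul_of_nonneg_right hGle hB0
  linarith

end Pool.Agent.Smith
end
end
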