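import Mathlib
import Pool.Agent.Work.MP_60d5ce_nt.Sm.Cheb
import Pool.Agent.Work.MP_60d5ce_nt.Asc.Loc
import Pool.Agent.Work.MP_60d5ce_nt.Sm.BoxA
import Pool.Agent.Work.MP_60d5ce_nt.Sm.BoxB

-- merged part: Pool.Agent.Work.MP_60d5ce_nt.Sm.EllC
section
-- merged part: Pool.Agent.Work.MP_60d5ce_nt.Sm.EllA
section
/-!
# The curve `y ^ 2 + a1 x y + a3 y = x ^ 3`: multiplication by three, three-torsion

Hints.
* `three_smul`: `3 P = 2 P + P`.  If `2 P = 0` then `sq2 x = 0` (it is the square of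
  `2 y + a1 x + a3` on the curve), `ps x ≠ 0` (`ps_ne`), `3 P = P`.  Otherwise
  `x (2 P) = x - ps x / sq2 x`; if `ps x = 0` then `2 P = -P`; else add once more and use
  `field_simp` / `linear_combination` with the equation of the curve (it may help to use
  `x (P + Q) + x (P - Q)`, or to translate `P` to the origin).
* `ps_ne`: with `Fy = 2 y + a1 x + a3`, `Fx = a1 y - 3 x ^ 2`, on the curve
  `ps x = 3 x Fy ^ 2 + a1 Fx Fy - Fx ^ 2`, and the point is nonsingular (go to an algebraic closure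
  to have `y`, or eliminate `x` directly).
* `nextCoeff_eq`: induction on the factorisation; an irreducible monic factor over a separably
  closed field is linear or has zero derivative, and then its next coefficient vanishes.
* `exists_third`: if `2 P = 0` take `R = P`.  Otherwise the monic polynomial `ph - X0 ps ^ 2` of
  degree nine has nonzero derivative, so a root `x` (some irreducible factor is separable);
  `sq2 x ≠ 0` (else `(x - X0) ps x ^ 2 = 0`), the quadratic equation for `y` is separable,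
  `ps x ≠ 0` (else `sq2 x ^ 3 = 0`); `3 (x, y) = ± P`.
* `cube_of_third`: three collinear points on `y = l x + n` have `y1 y2 y3 = n ^ 3`, and
  `y(Q) y(-Q) = -x(Q) ^ 3`; use the lines through `P, P, -2P` and `-P, -2P, 3P`.
-/

namespace Pool.Agent.Smith

open WeierstrassCurve WeierstrassCurve.Affine Polynomial

noncomputable section

variable {Λ : Type} [Field Λ]

/-- curves with the point `(0, 0)` of order three -/
structure T3 (C : Affine Λ) : Prop where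
  a2 : C.a₂ = 0
  a4 : C.a₄ = 0
  a6 : C.a₆ = 0
  a3 : C.a₃ ≠ 0
  disc : C.a₁ ^ 3 - 27 * C.a₃ ≠ 0
  three : (3 : Λ) ≠ 0

/-- the third division polynomial -/
def ps (C : Affine Λ) (x : Λ) : Λ :=
  3 * x ^ 4 + C.a₁ ^ 2 * x ^ 3 + 3 * C.a₁ * C.a₃ * x ^ 2 + 3 * C.a₃ ^ 2 * x

/-- the square of the second division polynomial -/
def sq2 (C : Affine Λ) (x : Λ) : Λ :=
  4 * x ^ 3 + C.a₁ ^ 2 * x ^ 2 + 2 * C.a₁ * C.a₃ * x + C.a₃ ^ 2

/-- the numerator of `x (3 P)` -/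
def ph (C : Affine Λ) (x : Λ) : Λ :=
  x * ps C x ^ 2 - (ps C x * (6 * x ^ 2 + C.a₁ ^ 2 * x + C.a₁ * C.a₃) - sq2 C x ^ 2) * sq2 C x

theorem EllA_irr [IsSepClosed Λ] {g : Λ[X]} (hg : g.Monic) (hi : Irreducible g) :
    g.nextCoeff = -g.roots.sum := by
  by_cases h1 : g.natDegree = 1
  · rw [hg.eq_X_add_C h1, nextCoeff_X_add_C, roots_X_add_C, Multiset.sum_singleton, neg_neg]
  have hd : derivative g = 0 := by
    by_contra hd
    exact h1 (natDegree_eq_of_degree_eq_some (IsSepClosed.degree_eq_one_of_irreducible Λ hi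
      ((separable_iff_derivative_ne_zero hi).2 hd)))
  obtain ⟨n, hn⟩ : ∃ n, g.natDegree = n + 2 := ⟨g.natDegree - 2, by have := hi.natDegree_pos; omega⟩
  have h2 := coeff_derivative g (n + 1)
  have h3 := coeff_derivative g n
  have h4 : g.coeff (n + 1 + 1) = 1 := by rw [← hg.coeff_natDegree, hn]
  rw [hd, coeff_zero] at h2 h3
  rw [h4] at h2
  push_cast at h2
  rw [roots_eq_zero_of_irreducible_of_natDegree_ne_one hi h1, Multiset.sum_zero, neg_zero,
    nextCoeff_of_natDegree_pos (by omega), hn]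
  change g.coeff (n + 1) = 0
  linear_combination h3 - g.coeff (n + 1) * h2

theorem nextCoeff_eq [IsSepClosed Λ] {f : Λ[X]} (hf : f.Monic) : f.nextCoeff = -f.roots.sum := by
  induction hn : f.natDegree using Nat.strong_induction_on generalizing f with
  | _ n ih =>
    by_cases hu : IsUnit f
    · rw [hf.eq_one_of_isUnit hu, roots_one, ← C_1, nextCoeff_C_eq_zero]
      simp
    obtain ⟨g, hg, hi, k, rfl⟩ := exists_monic_irreducible_factor f hu
    have hk := hg.of_mul_monic_left hf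
    have h1 := hi.natDegree_pos
    rw [hg.natDegree_mul hk] at hn
    rw [hg.nextCoeff_mul hk, roots_mul hf.ne_zero, Multiset.sum_add, EllA_irr hg hi,
      ih _ (by omega) hk rfl, neg_add]

theorem exists_root_of_derivative [IsSepClosed Λ] {f : Λ[X]} (hf : derivative f ≠ 0) :
    ∃ x, f.IsRoot x := by
  induction f using WfDvdMonoid.induction_on_irreducible with
  | zero => exact absurd derivative_zero hf
  | unit u hu =>
    obtain ⟨c, -, rfl⟩ := Polynomial.isUnit_iff.1 hu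
    exact absurd derivative_C hf
  | mul a i _ hi ih =>
    by_cases hd : derivative i = 0
    · obtain ⟨x, hx⟩ := ih fun h0 => hf (by rw [derivative_mul, hd, h0]; simp)
      exact ⟨x, root_mul_left_of_isRoot i hx⟩
    · obtain ⟨x, hx⟩ := IsSepClosed.exists_root i (degree_pos_of_irreducible hi).ne'
        ((separable_iff_derivative_ne_zero hi).2 hd)
      exact ⟨x, root_mul_right_of_isRoot a hx⟩

variable {C : Affine Λ}

theorem T3.Δ_eq (h : T3 C) : C.Δ = C.a₃ ^ 3 * (C.a₁ ^ 3 - 27 * C.a₃) := by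
  simp only [WeierstrassCurve.Δ, b₂, b₄, b₆, b₈, h.a2, h.a4, h.a6]
  ring

theorem T3.Δ_ne (h : T3 C) : C.Δ ≠ 0 := by
  rw [h.Δ_eq]
  exact mul_ne_zero (pow_ne_zero 3 h.a3) h.disc

theorem T3.equation_iff (h : T3 C) (x y : Λ) :
    C.Equation x y ↔ y ^ 2 + C.a₁ * x * y + C.a₃ * y = x ^ 3 := by
  rw [Affine.equation_iff, h.a2, h.a4, h.a6, zero_mul, zero_mul, add_zero, add_zero, add_zero]

theorem T3.nonsing (h : T3 C) {x y : Λ} (he : y ^ 2 + C.a₁ * x * y + C.a₃ * y = x ^ 3) :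
    C.Nonsingular x y :=
  (equation_iff_nonsingular_of_Δ_ne_zero h.Δ_ne).1 ((h.equation_iff x y).2 he)

theorem T3.ps_ne (h : T3 C) {x : Λ} (hx : sq2 C x = 0) : ps C x ≠ 0 := by
  intro hp
  unfold sq2 at hx
  unfold ps at hp
  by_cases h0 : x = 0
  · rw [h0] at hx
    exact pow_ne_zero 2 h.a3 (by linear_combination hx)
  · have hq : 3 * x ^ 3 + C.a₁ ^ 2 * x ^ 2 + 3 * C.a₁ * C.a₃ * x + 3 * C.a₃ ^ 2 = 0 :=
      mul_left_cancel₀ h0 (by linear_combination hp)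
    refine h.Δ_ne ?_
    rw [h.Δ_eq]
    linear_combination (3 * C.a₁ ^ 2 * x ^ 2 + (C.a₁ ^ 4 - 6 * C.a₁ * C.a₃) * x + C.a₁ ^ 3 * C.a₃ +
      9 * C.a₃ ^ 2) * hx + (-4 * C.a₁ ^ 2 * x ^ 2 + (-C.a₁ ^ 4 + 8 * C.a₁ * C.a₃) * x -
        12 * C.a₃ ^ 2) * hq

theorem T3.coprime (h : T3 C) {x : Λ} (hx : ps C x = 0) : ph C x ≠ 0 := by
  intro hp
  rw [ph, hx] at hp
  exact h.ps_ne (pow_eq_zero_iff three_ne_zero |>.1 (by linear_combination hp)) hx

/-- the point `(0, 0)` -/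
def T3.t1 (h : T3 C) : C.Point := .some 0 0 (h.nonsing (by simp))

theorem T3.EllA_aux (h : T3 C) {δ : Λ} (hδ : δ ^ 3 = C.a₁ ^ 3 - 27 * C.a₃) :
    3 * (3 : Λ)⁻¹ = 1 ∧
      -(C.a₁ ^ 2 + C.a₁ * δ + δ ^ 2) / 9 = -(C.a₁ ^ 2 + C.a₁ * δ + δ ^ 2) * 3⁻¹ ^ 2 ∧
      C.a₃ = -(C.a₁ - δ) * (-(C.a₁ ^ 2 + C.a₁ * δ + δ ^ 2) / 9) * 3⁻¹ := by
  have h1 : 3 * (3 : Λ)⁻¹ = 1 := mul_inv_cancel₀ h.three
  have h2 : -(C.a₁ ^ 2 + C.a₁ * δ + δ ^ 2) / 9 = -(C.a₁ ^ 2 + C.a₁ * δ + δ ^ 2) * 3⁻¹ ^ 2 := by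
    rw [inv_pow, div_eq_mul_inv, show (3 : Λ) ^ 2 = 9 by norm_num]
  refine ⟨h1, h2, ?_⟩
  rw [h2]
  generalize (3 : Λ)⁻¹ = t at h1
  linear_combination t ^ 3 * hδ - C.a₃ * (9 * t ^ 2 + 3 * t + 1) * h1

theorem T3.t2_eq (h : T3 C) {δ z : Λ} (hδ : δ ^ 3 = C.a₁ ^ 3 - 27 * C.a₃) (hz : z ^ 2 + z + 1 = 0) :
    (-(C.a₁ ^ 2 + C.a₁ * δ + δ ^ 2) / 9 * (z * δ - C.a₁) / 3) ^ 2 +
      C.a₁ * (-(C.a₁ ^ 2 + C.a₁ * δ + δ ^ 2) / 9) *
        (-(C.a₁ ^ 2 + C.a₁ * δ + δ ^ 2) / 9 * (z * δ - C.a₁) / 3) +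
      C.a₃ * (-(C.a₁ ^ 2 + C.a₁ * δ + δ ^ 2) / 9 * (z * δ - C.a₁) / 3) =
      (-(C.a₁ ^ 2 + C.a₁ * δ + δ ^ 2) / 9) ^ 3 := by
  obtain ⟨h1, h2, h3⟩ := h.EllA_aux hδ
  generalize -(C.a₁ ^ 2 + C.a₁ * δ + δ ^ 2) / 9 = u at h2 h3
  rw [div_eq_mul_inv]
  generalize (3 : Λ)⁻¹ = t at h1 h2 h3
  linear_combination u ^ 2 * t ^ 2 * δ ^ 2 * hz - u ^ 2 * C.a₁ * t * (z * δ - C.a₁) * h1 +
    u * (z * δ - C.a₁) * t * h3 - u ^ 2 * h2

/-- a second point of order three -/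
def T3.t2 (h : T3 C) {δ z : Λ} (hδ : δ ^ 3 = C.a₁ ^ 3 - 27 * C.a₃) (hz : z ^ 2 + z + 1 = 0) :
    C.Point :=
  .some (-(C.a₁ ^ 2 + C.a₁ * δ + δ ^ 2) / 9)
    (-(C.a₁ ^ 2 + C.a₁ * δ + δ ^ 2) / 9 * (z * δ - C.a₁) / 3) (h.nonsing (h.t2_eq hδ hz))

theorem T3.t2_x_ne (h : T3 C) {δ : Λ} (hδ : δ ^ 3 = C.a₁ ^ 3 - 27 * C.a₃) :
    -(C.a₁ ^ 2 + C.a₁ * δ + δ ^ 2) / 9 ≠ 0 := by
  intro h0
  have h3 := (h.EllA_aux hδ).2.2
  rw [h0, mul_zero, zero_mul] at h3
  exact h.a3 h3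

variable [DecidableEq Λ]

omit [DecidableEq Λ] in
theorem EllA_congr {x y x' y' : Λ} (hn : C.Nonsingular x y) (hx : x = x') (hy : y = y') :
    ∃ hn', (Point.some x y hn : C.Point) = Point.some x' y' hn' := by
  subst hx hy
  exact ⟨hn, rfl⟩

omit [DecidableEq Λ] in
theorem T3.EllA_sq (h : T3 C) {x y : Λ} (hn : C.Nonsingular x y) :
    sq2 C x = (2 * y + C.a₁ * x + C.a₃) ^ 2 := by
  have he := (h.equation_iff x y).1 hn.1
  unfold sq2
  linear_combination (-4) * he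

theorem EllA_three (P : C.Point) : 3 • P = P + P + P := by
  rw [show 3 = 1 + 1 + 1 from rfl, add_nsmul, add_nsmul, one_nsmul]

theorem EllA_two {x y : Λ} (hn : C.Nonsingular x y) (hF : 2 * y + C.a₁ * x + C.a₃ = 0) :
    3 • (Point.some x y hn : C.Point) = Point.some x y hn := by
  rw [EllA_three, Point.add_self_of_Y_eq (by rw [negY]; linear_combination hF), zero_add]

/-- doubling -/
theorem T3.EllA_dbl (h : T3 C) {x y : Λ} (hn : C.Nonsingular x y)
    (hF : 2 * y + C.a₁ * x + C.a₃ ≠ 0) : ∃ l d : Λ,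
      l = (3 * x ^ 2 - C.a₁ * y) / (2 * y + C.a₁ * x + C.a₃) ∧
      l * (2 * y + C.a₁ * x + C.a₃) = 3 * x ^ 2 - C.a₁ * y ∧ d = 3 * x - l ^ 2 - C.a₁ * l ∧
      ps C x = d * (2 * y + C.a₁ * x + C.a₃) ^ 2 ∧
      ∃ hn', (Point.some x y hn : C.Point) + Point.some x y hn =
        Point.some (x - d) (-y - C.a₁ * x - C.a₃ + (l + C.a₁) * d) hn' := by
  have he := (h.equation_iff x y).1 hn.1
  have hy : y ≠ C.negY x y := fun h0 => hF (by rw [negY] at h0; linear_combination h0)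
  have hs : C.slope x x y y = (3 * x ^ 2 - C.a₁ * y) / (2 * y + C.a₁ * x + C.a₃) := by
    rw [slope_of_Y_ne rfl hy, h.a2, h.a4, negY]
    congr 1 <;> ring
  refine ⟨_, _, rfl, div_mul_cancel₀ _ hF, rfl, ?_, ?_⟩
  · have h1 := div_mul_cancel₀ (3 * x ^ 2 - C.a₁ * y) hF
    generalize (3 * x ^ 2 - C.a₁ * y) / (2 * y + C.a₁ * x + C.a₃) = l at h1
    unfold ps
    linear_combination (l * (2 * y + C.a₁ * x + C.a₃) + (3 * x ^ 2 - C.a₁ * y) +
      C.a₁ * (2 * y + C.a₁ * x + C.a₃)) * h1 - (12 * x + C.a₁ ^ 2) * he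
  · rw [Point.add_self_of_Y_ne hy]
    refine EllA_congr _ ?_ ?_
    · rw [hs, addX, h.a2]
      ring
    · rw [hs, addY, negAddY, negY, addX, h.a2]
      ring

theorem T3.three_smul_zero (h : T3 C) {x y : Λ} (hn : C.Nonsingular x y) :
    3 • (Point.some x y hn : C.Point) = 0 ↔ ps C x = 0 := by
  by_cases hF : 2 * y + C.a₁ * x + C.a₃ = 0
  · rw [EllA_two hn hF]
    exact iff_of_false (Point.some_ne_zero hn) (h.ps_ne (by rw [h.EllA_sq hn, hF]; ring))
  obtain ⟨l, d, -, -, -, h1, hn', h2⟩ := h.EllA_dbl hn hF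
  rw [EllA_three, h2, h1, mul_eq_zero, or_iff_left (pow_ne_zero 2 hF), add_eq_zero_iff_eq_neg,
    Point.neg_some, Point.some.injEq, negY]
  exact ⟨fun h3 => by linear_combination -h3.1, fun h3 => by rw [h3]; constructor <;> ring⟩

theorem T3.three_smul (h : T3 C) {x y : Λ} (hn : C.Nonsingular x y) (hx : ps C x ≠ 0) :
    ∃ y' hn', 3 • (Point.some x y hn : C.Point) = Point.some (ph C x / ps C x ^ 2) y' hn' := by
  by_cases hF : 2 * y + C.a₁ * x + C.a₃ = 0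
  · rw [EllA_two hn hF]
    refine ⟨y, EllA_congr hn ?_ rfl⟩
    rw [ph, h.EllA_sq hn, hF, eq_div_iff (pow_ne_zero 2 hx)]
    ring
  obtain ⟨l, d, -, h0, hd, h1, hn', h2⟩ := h.EllA_dbl hn hF
  have hd0 : d ≠ 0 := fun h3 => hx (by rw [h1, h3, zero_mul])
  have hne : x - d ≠ x := fun h3 => hd0 (by linear_combination -h3)
  rw [EllA_three, h2, Point.add_of_X_ne hne]
  refine ⟨_, EllA_congr _ ?_ rfl⟩
  have h6 : 6 * x ^ 2 + C.a₁ ^ 2 * x + C.a₁ * C.a₃ =
      (2 * y + C.a₁ * x + C.a₃) * (2 * l + C.a₁) := by linear_combination (-2) * h0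
  have hs : C.slope (x - d) x (-y - C.a₁ * x - C.a₃ + (l + C.a₁) * d) y =
      (2 * y + C.a₁ * x + C.a₃) / d - l - C.a₁ := by
    rw [slope_of_X_ne hne, div_eq_iff (sub_ne_zero.2 hne)]
    field_simp
    ring
  rw [hs, addX, h.a2, ph, h.EllA_sq hn, h1, h6]
  generalize 2 * y + C.a₁ * x + C.a₃ = F at hF
  rw [eq_div_iff (pow_ne_zero 2 (mul_ne_zero hd0 (pow_ne_zero 2 hF)))]
  have h7 := div_mul_cancel₀ F hd0
  generalize F / d = k at h7
  subst h7
  linear_combination (d * (k * d) ^ 2) ^ 2 * hd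

theorem T3.exists_third_of_root [IsSepClosed Λ] (h : T3 C) {X Y : Λ} (hn : C.Nonsingular X Y)
    {x : Λ} (hx : ph C x = X * ps C x ^ 2) :
    ∃ y hn', 3 • (Point.some x y hn' : C.Point) = Point.some X Y hn := by
  have hp : ps C x ≠ 0 := fun h0 => h.coprime h0 (by rw [hx, h0]; ring)
  obtain ⟨y, hy⟩ : ∃ y, C.Nonsingular x y := by
    by_cases hs : sq2 C x = 0
    · rw [ph, hs, mul_zero, sub_zero] at hx
      rw [mul_right_cancel₀ (pow_ne_zero 2 hp) hx]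
      exact ⟨Y, hn⟩
    · obtain ⟨y, hy⟩ := exists_root_of_derivative (Λ := Λ) (f := Polynomial.X ^ 2 +
          Polynomial.C (C.a₁ * x + C.a₃) * Polynomial.X - Polynomial.C (x ^ 3)) fun h0 => by
        have h1 := congrArg (Polynomial.eval 0) h0
        have h2 := congrArg (Polynomial.eval 1) h0
        simp only [derivative_sub, derivative_add, derivative_X_pow, derivative_mul, derivative_C,
          derivative_X, eval_sub, eval_add, eval_mul, eval_C, eval_X, eval_pow, eval_zero,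
          eval_one] at h1 h2
        push_cast at h1 h2
        refine hs ?_
        unfold sq2
        linear_combination (C.a₁ * x + C.a₃ - 2 * x ^ 3) * h1 + 2 * x ^ 3 * h2
      refine ⟨y, h.nonsing ?_⟩
      simp only [IsRoot.def, eval_sub, eval_add, eval_mul, eval_C, eval_X, eval_pow] at hy
      linear_combination hy
  obtain ⟨y', hn', h3⟩ := h.three_smul hy hp
  rcases (Point.X_eq_iff (h₁ := hn') (h₂ := hn)).1
    (by rw [hx, mul_div_cancel_right₀ _ (pow_ne_zero 2 hp)]) with h4 | h4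
  · exact ⟨y, hy, h3.trans h4⟩
  · refine ⟨_, (nonsingular_neg x y).2 hy, ?_⟩
    rw [← Point.neg_some hy, smul_neg, h3, h4, neg_neg]

theorem T3.exists_third [IsSepClosed Λ] (h : T3 C) (P : C.Point) : ∃ R, 3 • R = P := by
  rcases P with _ | ⟨X0, Y0, hn⟩
  · exact ⟨0, smul_zero 3⟩
  let g : Λ[X] := Polynomial.C (-6 * C.a₁ * C.a₃) * X ^ 7 +
    Polynomial.C (-C.a₁ ^ 3 * C.a₃ - 24 * C.a₃ ^ 2) * X ^ 6 +
    Polynomial.C (-6 * C.a₁ ^ 2 * C.a₃ ^ 2) * X ^ 5 + Polynomial.C (-3 * C.a₁ * C.a₃ ^ 3) * X ^ 4 +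
    Polynomial.C (C.a₁ ^ 3 * C.a₃ ^ 3 + 3 * C.a₃ ^ 4) * X ^ 3 +
    Polynomial.C (3 * C.a₁ ^ 2 * C.a₃ ^ 4) * X ^ 2 + Polynomial.C (3 * C.a₁ * C.a₃ ^ 5) * X +
    Polynomial.C (C.a₃ ^ 6) - Polynomial.C X0 * (Polynomial.C 3 * X ^ 4 +
      Polynomial.C (C.a₁ ^ 2) * X ^ 3 + Polynomial.C (3 * C.a₁ * C.a₃) * X ^ 2 +
        Polynomial.C (3 * C.a₃ ^ 2) * X) ^ 2
  have hg : g.natDegree ≤ 8 := by
    simp only [g]
    compute_degree
  obtain ⟨x, hx⟩ := exists_root_of_derivative (f := X ^ 9 + g) fun h0 => by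
    have h1 := coeff_derivative (X ^ 9 + g) 8
    rw [h0, coeff_zero, coeff_add, coeff_X_pow, if_pos rfl,
      coeff_eq_zero_of_natDegree_lt (p := g) (by omega)] at h1
    push_cast at h1
    exact mul_ne_zero h.three h.three (by linear_combination -h1)
  obtain ⟨y, hn', h3⟩ := h.exists_third_of_root hn (x := x) (by
    simp only [IsRoot.def, g, eval_sub, eval_add, eval_mul, eval_C, eval_X, eval_pow] at hx
    unfold ph ps sq2
    linear_combination hx)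
  exact ⟨_, h3⟩

theorem T3.exists_third_pow [IsSepClosed Λ] (h : T3 C) (j : ℕ) (P : C.Point) :
    ∃ R, 3 ^ j • R = P := by
  induction j with
  | zero => exact ⟨P, by rw [pow_zero, one_nsmul]⟩
  | succ j ih =>
    obtain ⟨R, hR⟩ := ih
    obtain ⟨R', hR'⟩ := h.exists_third R
    exact ⟨R', by rw [pow_succ, mul_smul, hR', hR]⟩

theorem T3.card_three (h : T3 C) :
    {P : C.Point | 3 • P = 0}.Finite ∧ {P : C.Point | 3 • P = 0}.ncard ≤ 9 := by
  classical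
  let f : Λ[X] := Polynomial.C 3 * X ^ 4 + (Polynomial.C (C.a₁ ^ 2) * X ^ 3 +
    Polynomial.C (3 * C.a₁ * C.a₃) * X ^ 2 + Polynomial.C (3 * C.a₃ ^ 2) * X)
  have hf : f.natDegree ≤ 4 := by
    simp only [f]
    compute_degree
  have hf0 : f ≠ 0 := fun h0 => by
    have h1 := congrArg (fun q : Λ[X] => q.coeff 4) h0
    simp only [f, coeff_add, coeff_C_mul, coeff_X_pow, coeff_X, coeff_zero] at h1
    exact h.three (by simpa using h1)
  have hg : ∀ x : Λ, ∃ Q : C.Point, ∀ y hn, Point.some x y hn = Q ∨ Point.some x y hn = -Q := by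
    intro x
    by_cases h0 : ∃ y, C.Nonsingular x y
    · obtain ⟨y0, h0⟩ := h0
      exact ⟨Point.some x y0 h0, fun y hn => Point.X_eq_iff.1 rfl⟩
    · exact ⟨0, fun y hn => absurd ⟨y, hn⟩ h0⟩
  choose g hg using hg
  have hsub : {P : C.Point | 3 • P = 0} ⊆ ↑(insert 0 (f.roots.toFinset.image g ∪
      f.roots.toFinset.image fun x => -g x)) := by
    rintro (_ | ⟨x, y, hn⟩) hP
    · exact Finset.mem_insert_self _ _
    · have h1 := (h.three_smul_zero hn).1 hP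
      have h2 : x ∈ f.roots.toFinset := by
        rw [Multiset.mem_toFinset, mem_roots hf0]
        simp only [IsRoot.def, f, eval_add, eval_mul, eval_C, eval_X, eval_pow]
        unfold ps at h1
        linear_combination h1
      refine Finset.mem_insert_of_mem (Finset.mem_union.2 ?_)
      exact (hg x y hn).imp (fun h3 => Finset.mem_image.2 ⟨x, h2, h3.symm⟩)
        fun h3 => Finset.mem_image.2 ⟨x, h2, h3.symm⟩
  refine ⟨(Finset.finite_toSet _).subset hsub,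
    (Set.ncard_le_ncard hsub (Finset.finite_toSet _)).trans ?_⟩
  have h4 : f.roots.toFinset.card ≤ 4 :=
    (Multiset.toFinset_card_le _).trans ((card_roots' f).trans hf)
  rw [Set.ncard_coe_finset]
  refine (Finset.card_insert_le _ _).trans (Nat.succ_le_succ ((Finset.card_union_le _ _).trans ?_))
  exact add_le_add (Finset.card_image_le.trans h4) (Finset.card_image_le.trans h4)

theorem T3.t1_three (h : T3 C) : 3 • h.t1 = 0 :=
  (h.three_smul_zero _).2 (by simp [ps])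

theorem T3.t2_three (h : T3 C) {δ z : Λ} (hδ : δ ^ 3 = C.a₁ ^ 3 - 27 * C.a₃)
    (hz : z ^ 2 + z + 1 = 0) : 3 • h.t2 hδ hz = 0 := by
  refine (h.three_smul_zero _).2 ?_
  obtain ⟨h1, h2, h3⟩ := h.EllA_aux hδ
  generalize -(C.a₁ ^ 2 + C.a₁ * δ + δ ^ 2) / 9 = u at h2 h3
  generalize (3 : Λ)⁻¹ = t at h1 h2 h3
  unfold ps
  linear_combination (3 * C.a₁ * u ^ 2 + 3 * u * (C.a₃ - (C.a₁ - δ) * u * t)) * h3 +
    3 * u ^ 3 * h2 - u ^ 3 * (3 * C.a₁ * δ * t + C.a₁ ^ 2) * h1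

theorem EllA_mod {A : Type} [AddCommGroup A] {t : A} (h : 3 • t = 0) (a : ℤ) :
    (3 ∣ a ∧ a • t = 0) ∨ a • t = t ∨ a • t = -t := by
  have h1 : ∀ k : ℤ, (3 * k) • t = 0 := fun k => by
    rw [mul_comm, mul_smul, show (3 : ℤ) • t = 0 by rw [← h]; exact natCast_zsmul t 3, smul_zero]
  obtain ⟨k, rfl | rfl | rfl⟩ : ∃ k, a = 3 * k ∨ a = 3 * k + 1 ∨ a = 3 * k - 1 :=
    ⟨(a + 1) / 3, by omega⟩
  · exact Or.inl ⟨dvd_mul_right _ _, h1 k⟩
  · exact Or.inr (Or.inl (by rw [add_smul, h1, one_smul, zero_add]))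
  · exact Or.inr (Or.inr (by rw [sub_smul, h1, one_smul, zero_sub]))

theorem T3.indep (h : T3 C) {δ z : Λ} (hδ : δ ^ 3 = C.a₁ ^ 3 - 27 * C.a₃)
    (hz : z ^ 2 + z + 1 = 0) (a b : ℤ) (hab : a • h.t1 + b • h.t2 hδ hz = 0) : 3 ∣ a ∧ 3 ∣ b := by
  have n1 : h.t1 ≠ 0 := Point.some_ne_zero _
  have n2 : h.t2 hδ hz ≠ 0 := Point.some_ne_zero _
  have n3 : ¬ (h.t1 = h.t2 hδ hz ∨ h.t1 = -h.t2 hδ hz) := fun h0 =>
    h.t2_x_ne hδ (Point.X_eq_iff.2 h0).symm
  rcases EllA_mod h.t1_three a with ⟨h1, e1⟩ | e1 | e1 <;>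
    rcases EllA_mod (h.t2_three hδ hz) b with ⟨h2, e2⟩ | e2 | e2 <;> rw [e1, e2] at hab
  · exact ⟨h1, h2⟩
  · exact absurd (by simpa using hab) n2
  · exact absurd (by simpa using hab) n2
  · exact absurd (by simpa using hab) n1
  · exact absurd (Or.inr (eq_neg_of_add_eq_zero_left hab)) n3
  · exact absurd (Or.inl (add_neg_eq_zero.1 hab)) n3
  · exact absurd (by simpa using hab) n1
  · exact absurd (Or.inl (neg_add_eq_zero.1 hab)) n3
  · exact absurd (Or.inr (by rw [← neg_add, neg_eq_zero] at hab; exact eq_neg_of_add_eq_zero_left hab))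
      n3

theorem T3.span (h : T3 C) {δ z : Λ} (hδ : δ ^ 3 = C.a₁ ^ 3 - 27 * C.a₃)
    (hz : z ^ 2 + z + 1 = 0) {P : C.Point} (hP : 3 • P = 0) :
    ∃ a b : ℤ, P = a • h.t1 + b • h.t2 hδ hz := by
  let φ : Fin 3 × Fin 3 → C.Point := fun i => ((i.1 : ℕ) : ℤ) • h.t1 + ((i.2 : ℕ) : ℤ) • h.t2 hδ hz
  have hinj : Function.Injective φ := fun i j hij => by
    obtain ⟨h1, h2⟩ := h.indep hδ hz ((i.1 : ℕ) - (j.1 : ℕ)) ((i.2 : ℕ) - (j.2 : ℕ)) (by
      rw [sub_smul, sub_smul, ← add_sub_add_comm]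
      exact sub_eq_zero.2 hij)
    exact Prod.ext (Fin.ext (by omega)) (Fin.ext (by omega))
  have hsub : Set.range φ ⊆ {P : C.Point | 3 • P = 0} := by
    rintro _ ⟨i, rfl⟩
    change 3 • (_ + _) = _
    rw [smul_add, smul_comm 3 _ h.t1, smul_comm 3 _ (h.t2 hδ hz), h.t1_three, h.t2_three hδ hz,
      smul_zero, smul_zero, add_zero]
  have he := Set.eq_of_subset_of_ncard_le hsub (h.card_three.2.trans (by
    rw [Set.ncard_range_of_injective hinj]
    simp)) h.card_three.1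
  obtain ⟨i, hi⟩ : P ∈ Set.range φ := he ▸ hP
  exact ⟨_, _, hi.symm⟩

theorem T3.cube_of_third (h : T3 C) {x y : Λ} (hn : C.Nonsingular x y)
    (h3 : 3 • (Point.some x y hn : C.Point) = -h.t1) (K : Subfield Λ) (h1 : C.a₁ ∈ K)
    (ha : C.a₃ ∈ K) (hx : x ∈ K) (hy : y ∈ K) : ∃ r ∈ K, r ^ 3 = C.a₃ := by
  have he := (h.equation_iff x y).1 hn.1
  have hp : ps C x ≠ 0 := fun h0 => by
    rw [(h.three_smul_zero hn).2 h0, zero_eq_neg] at h3
    exact Point.some_ne_zero _ h3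
  have hx0 : x ≠ 0 := fun h0 => hp (by simp [ps, h0])
  have hy0 : y ≠ 0 := fun h0 => pow_ne_zero 3 hx0 (by rw [← he, h0]; ring)
  have hF : 2 * y + C.a₁ * x + C.a₃ ≠ 0 := fun h0 => by
    rw [EllA_two hn h0, T3.t1, Point.neg_some, Point.some.injEq] at h3
    exact hx0 h3.1
  obtain ⟨l, d, hl, h0, hd, h4, hn', h2⟩ := h.EllA_dbl hn hF
  have hd0 : d ≠ 0 := fun h5 => hp (by rw [h4, h5, zero_mul])
  have hne : x - d ≠ x := fun h5 => hd0 (by linear_combination -h5)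
  rw [EllA_three, h2, Point.add_of_X_ne hne, T3.t1, Point.neg_some, Point.some.injEq, addY,
    negAddY] at h3
  obtain ⟨h5, h6⟩ := h3
  rw [h5, negY, negY] at h6
  rw [addX, h.a2] at h5
  have h7 := div_mul_cancel₀ (-y - C.a₁ * x - C.a₃ + (l + C.a₁) * d - y) (sub_ne_zero.2 hne)
  rw [← slope_of_X_ne (W := C) hne] at h7
  generalize C.slope (x - d) x (-y - C.a₁ * x - C.a₃ + (l + C.a₁) * d) y = m at h5 h6 h7
  have e1 : y = m * x := by linear_combination h7 - h6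
  have e2 : x * (x - d) = -C.a₃ * m := mul_left_cancel₀ hx0 (by
    rw [e1] at he
    linear_combination he - x ^ 2 * h5)
  have e3 : (-y - C.a₁ * x - C.a₃) * (y - l * d) = C.a₃ ^ 2 := by
    have e4 : y - l * d = -(m + C.a₁) * (x - d) - C.a₃ := by linear_combination h6
    rw [e4, e1]
    linear_combination (m + C.a₁) ^ 2 * e2 - C.a₃ * (m + C.a₁) * h5
  have e5 : y ^ 2 * (y - l * d) = (y - l * x) ^ 3 := by
    rw [hd]
    linear_combination (l ^ 2 * y) * h0 - l ^ 3 * he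
  have e6 : (x * (y - l * x)) ^ 3 = -(C.a₃ ^ 2 * y ^ 3) := by
    linear_combination (-x ^ 3) * e5 - y ^ 3 * e3 - y ^ 2 * (y - l * d) * he
  have hn0 : x * (y - l * x) ≠ 0 := fun h8 => by
    rw [h8, zero_pow three_ne_zero, zero_eq_neg] at e6
    exact mul_ne_zero (pow_ne_zero 2 h.a3) (pow_ne_zero 3 hy0) e6
  have hlK : l ∈ K := by
    rw [hl]
    exact div_mem (sub_mem (mul_mem (ofNat_mem K 3) (pow_mem hx 2)) (mul_mem h1 hy))
      (add_mem (add_mem (mul_mem (ofNat_mem K 2) hy) (mul_mem h1 hx)) ha)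
  refine ⟨-(C.a₃ * y) / (x * (y - l * x)), div_mem (neg_mem (mul_mem ha hy))
    (mul_mem hx (sub_mem hy (mul_mem hlK hx))), ?_⟩
  rw [div_pow, div_eq_iff (pow_ne_zero 3 hn0), e6]
  ring

end

end Pool.Agent.Smith
end

-- merged part: Pool.Agent.Work.MP_60d5ce_nt.Sm.EllB
section
/-!
# The curve over a valued field: the kernel of reduction, local points

Weights: `x` has weight two, `y` three, `a1` one, `a3` three; `ρ` is the unit of size.
Hints.
* If `w x > ρ ^ 2` then `w y ^ 2 = w x ^ 3`; if `w x ≤ ρ ^ 2` then `w y ≤ ρ ^ 3`.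
* `InE1.add`: the line `y = l x + n` meets the curve at the roots of
  `x ^ 3 - (l ^ 2 + a1 l) x ^ 2 - (2 l n + a1 n + a3 l) x - (n ^ 2 + a3 n)`.  If `x1, x2` are large and
  `x3` is not, then `w l ^ 2 = w x1 = w x2` (slope through the third point), `w n ≤ ρ ^ 2 w l`, and
  the second symmetric function has size `w l ^ 4`, too large.
* `InE1.div`: by `nextCoeff_eq` some root of `ph - X ps ^ 2` is large (the next coefficient is
  `-9 X` plus a term of weight two); `exists_third_of_root`.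
* `close`: translating `P` to the origin, `Δ = -b2 ^ 2 b8 - 8 b4 ^ 3 - 27 b6 ^ 2 + 9 b2 b4 b6` with
  `a2' = 3 x`, `a3' = Fy`, `a4' = -Fx` (`Fy = 2 y + a1 x + a3`, `Fx = a1 y - 3 x ^ 2`), so
  `w Δ ≤ max (ρ ^ 9 w Fy) (ρ ^ 8 w Fx)`.  The slope for `P + (-Q)` is
  `(y + y' + a1 x' + a3) / (x - x') = (x ^ 2 + x x' + x' ^ 2 - a1 y) / (y - y')` and has size more than
  `ρ`; treat `x = x'` separately (tangent).
* `local_torsion`: `Q = 3 ^ j P` is fixed, so are its multiples; by pigeonhole two multiples are both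
  in `E1` or close, so `m Q ∈ E1`, `m = 3 ^ a m'`; `m Q = 3 ^ (a + j) R` with `R ∈ E1`, fixed by
  uniqueness; `y = m'' (m' P - R)` with `m' m'' ≡ 1 mod 3 ^ j`.
-/

namespace Pool.Agent.Smith

open WeierstrassCurve WeierstrassCurve.Affine

noncomputable section

variable {Λ : Type} [Field Λ] {C : Affine Λ}

/-- sizes of the coefficients -/
structure Sz (C : Affine Λ) (w : AbsoluteValue Λ ℝ) (ρ : ℝ) : Prop where
  na : IsNonarchimedean w
  three : w 3 = 1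
  pos : 0 < ρ
  a1 : w C.a₁ ≤ ρ
  a3 : w C.a₃ ≤ ρ ^ 3

/-- points near the origin of the group -/
def InE1 (w : AbsoluteValue Λ ℝ) (ρ : ℝ) : C.Point → Prop
  | .zero => True
  | .some x _ _ => ρ ^ 2 < w x

variable [DecidableEq Λ]

/-- `s` acts on points through `φ` on coordinates -/
def Compat (s : C.Point →+ C.Point) (φ : Λ →+* Λ) : Prop :=
  ∀ x y h, ∃ h', s (Point.some x y h) = Point.some (φ x) (φ y) h'

variable {w : AbsoluteValue Λ ℝ} {ρ : ℝ}

section Aux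

omit [DecidableEq Λ]

theorem EllB_add (na : IsNonarchimedean w) {a b : Λ} {r : ℝ} (ha : w a ≤ r) (hb : w b ≤ r) :
    w (a + b) ≤ r :=
  (na a b).trans (max_le ha hb)

theorem EllB_sub (na : IsNonarchimedean w) {a b : Λ} {r : ℝ} (ha : w a ≤ r) (hb : w b ≤ r) :
    w (a - b) ≤ r := by
  rw [sub_eq_add_neg]
  exact EllB_add na ha (by rwa [w.map_neg])

theorem EllB_addl (na : IsNonarchimedean w) {a b : Λ} {r : ℝ} (ha : w a < r) (hb : w b < r) :
    w (a + b) < r :=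
  (na a b).trans_lt (max_lt ha hb)

theorem EllB_subl (na : IsNonarchimedean w) {a b : Λ} {r : ℝ} (ha : w a < r) (hb : w b < r) :
    w (a - b) < r := by
  rw [sub_eq_add_neg]
  exact EllB_addl na ha (by rwa [w.map_neg])

theorem EllB_eq (na : IsNonarchimedean w) {a b : Λ} (h : w b < w a) : w (a + b) = w a := by
  refine le_antisymm (EllB_add na le_rfl h.le) (not_lt.1 fun h' => ?_)
  have := EllB_subl na h' h
  rw [add_sub_cancel_right] at this
  exact lt_irrefl _ this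

theorem EllB_eq_sub (na : IsNonarchimedean w) {a b : Λ} (h : w a < w b) : w (a - b) = w b := by
  rw [w.map_sub, sub_eq_add_neg]
  exact EllB_eq na (by rwa [w.map_neg])

theorem EllB_mul {a b : Λ} {r s : ℝ} (ha : w a ≤ r) (hb : w b ≤ s) : w (a * b) ≤ r * s := by
  rw [w.map_mul]
  exact mul_le_mul ha hb (w.nonneg _) ((w.nonneg _).trans ha)

theorem EllB_mulk {a b : Λ} {k l : ℕ} (ha : w a ≤ ρ ^ k) (hb : w b ≤ ρ ^ l) :
    w (a * b) ≤ ρ ^ (k + l) :=
  (EllB_mul ha hb).trans (pow_add ρ k l).ge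

theorem EllB_int (na : IsNonarchimedean w) (c : ℤ) : w (c : Λ) ≤ 1 :=
  IsNonarchimedean.apply_intCast_le_one na

theorem EllB_num (na : IsNonarchimedean w) (n : ℕ) [n.AtLeastTwo] {a : Λ} {r : ℝ} (ha : w a ≤ r) :
    w (OfNat.ofNat n * a) ≤ r := by
  have h : w (OfNat.ofNat n : Λ) ≤ 1 := by
    have := EllB_int (Λ := Λ) na n
    rwa [Int.cast_natCast] at this
  simpa using EllB_mul h ha

theorem EllB_sz (hs : Sz C w ρ) {σ : ℝ} (h : ρ ≤ σ) : Sz C w σ :=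
  ⟨hs.na, hs.three, hs.pos.trans_le h, hs.a1.trans h,
    hs.a3.trans (pow_le_pow_left₀ hs.pos.le h 3)⟩

theorem EllB_y_le (h : T3 C) (hs : Sz C w ρ) {x y : Λ} (hn : C.Nonsingular x y)
    (hx : w x ≤ ρ ^ 2) : w y ≤ ρ ^ 3 := by
  have he := (h.equation_iff x y).1 hn.1
  refine not_lt.1 fun hy => ?_
  have hρ : 0 < ρ ^ 3 := pow_pos hs.pos 3
  have h0 : ρ ^ 3 * w y < w y ^ 2 := by
    rw [sq]
    exact mul_lt_mul_of_pos_right hy (hρ.trans hy)
  have h1 : w (C.a₁ * x * y) < w y ^ 2 :=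
    (EllB_mul (EllB_mul hs.a1 hx) le_rfl).trans_lt (by rwa [← pow_succ'])
  have h2 : w (C.a₃ * y) < w y ^ 2 := (EllB_mul hs.a3 le_rfl).trans_lt h0
  have h3 : w (x ^ 3) < w y ^ 2 := by
    rw [w.map_pow]
    refine (pow_le_pow_left₀ (w.nonneg x) hx 3).trans_lt ?_
    rw [← pow_mul, mul_comm, pow_mul]
    exact pow_lt_pow_left₀ hy hρ.le two_ne_zero
  have h4 := EllB_subl hs.na (EllB_subl hs.na h3 h1) h2
  rw [show x ^ 3 - C.a₁ * x * y - C.a₃ * y = y ^ 2 by linear_combination -he, w.map_pow] at h4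
  exact lt_irrefl _ h4

theorem EllB_y_sq (h : T3 C) (hs : Sz C w ρ) {x y : Λ} (hn : C.Nonsingular x y)
    (hx : ρ ^ 2 < w x) : w y ^ 2 = w x ^ 3 := by
  have he := (h.equation_iff x y).1 hn.1
  obtain ⟨σ, hσ0, hσ⟩ : ∃ σ : ℝ, 0 ≤ σ ∧ w x = σ ^ 2 :=
    ⟨_, Real.sqrt_nonneg _, (Real.sq_sqrt (w.nonneg x)).symm⟩
  have hs' : Sz C w σ := EllB_sz hs ((lt_of_pow_lt_pow_left₀ 2 hσ0 (hσ ▸ hx)).le)
  rcases (EllB_y_le h hs' hn hσ.le).lt_or_eq with hy | hy
  · exfalso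
    have hp : 0 < σ ^ 3 := pow_pos hs'.pos 3
    have h0 : σ ^ 3 * w y < σ ^ 3 * σ ^ 3 := mul_lt_mul_of_pos_left hy hp
    have h1 : w (C.a₁ * x * y) < σ ^ 3 * σ ^ 3 :=
      (EllB_mul (EllB_mul hs'.a1 hσ.le) le_rfl).trans_lt (by rwa [← pow_succ'])
    have h2 : w (C.a₃ * y) < σ ^ 3 * σ ^ 3 := (EllB_mul hs'.a3 le_rfl).trans_lt h0
    have h3 : w (y ^ 2) < σ ^ 3 * σ ^ 3 := by
      rw [sq]
      exact (EllB_mul hy.le le_rfl).trans_lt h0
    have h4 := EllB_addl hs.na (EllB_addl hs.na h3 h1) h2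
    rw [he, w.map_pow, hσ] at h4
    exact h4.ne (by ring)
  · rw [hy, hσ]
    ring

theorem EllB_mon (hs : Sz C w ρ) {x : Λ} (hx : ρ ^ 2 < w x) (c : ℤ) (i j k n : ℕ)
    (h : i + 3 * j + 2 * k = 2 * n) (hk : k < n) :
    w (c * C.a₁ ^ i * C.a₃ ^ j * x ^ k) < w x ^ n := by
  obtain ⟨d, rfl⟩ : ∃ d, n = d + k := ⟨n - k, by omega⟩
  have hu : 0 < w x := (pow_pos hs.pos 2).trans hx
  have h1 : w (C.a₁ ^ i) ≤ ρ ^ i := by
    rw [w.map_pow]
    exact pow_le_pow_left₀ (w.nonneg _) hs.a1 i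
  have h3 : w (C.a₃ ^ j) ≤ ρ ^ (3 * j) := by
    rw [w.map_pow, pow_mul]
    exact pow_le_pow_left₀ (w.nonneg _) hs.a3 j
  refine (EllB_mul (EllB_mul (EllB_mul (EllB_int hs.na c) h1) h3) (w.map_pow x k).le).trans_lt ?_
  rw [one_mul, ← pow_add, show i + 3 * j = 2 * d by omega, pow_mul, pow_add]
  exact mul_lt_mul_of_pos_right (pow_lt_pow_left₀ hx (pow_pos hs.pos 2).le (by omega))
    (pow_pos hu k)

theorem EllB_ps (hs : Sz C w ρ) {x : Λ} (hx : ρ ^ 2 < w x) : w (ps C x) = w x ^ 4 := by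
  have h0 : w (3 * x ^ 4) = w x ^ 4 := by rw [w.map_mul, hs.three, one_mul, w.map_pow]
  have h1 := EllB_addl hs.na (EllB_addl hs.na (EllB_mon hs hx 1 2 0 3 4 rfl (by norm_num))
    (EllB_mon hs hx 3 1 1 2 4 rfl (by norm_num))) (EllB_mon hs hx 3 0 2 1 4 rfl (by norm_num))
  rw [← h0] at h1 ⊢
  rw [← EllB_eq hs.na h1]
  congr 1
  simp only [ps]
  push_cast
  ring

theorem EllB_ph (hs : Sz C w ρ) {x : Λ} (hx : ρ ^ 2 < w x) : w (ph C x) = w x ^ 9 := by
  have na := hs.na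
  have m := fun (c : ℤ) (i j k : ℕ) => EllB_mon hs hx c i j k 9
  have h1 := EllB_addl na (EllB_addl na (EllB_addl na (EllB_addl na (EllB_addl na (EllB_addl na
    (EllB_addl na (EllB_addl na (EllB_addl na
    (m (-6) 1 1 7 rfl (by norm_num)) (m (-24) 0 2 6 rfl (by norm_num)))
    (m (-1) 3 1 6 rfl (by norm_num))) (m (-6) 2 2 5 rfl (by norm_num)))
    (m (-3) 1 3 4 rfl (by norm_num))) (m 3 0 4 3 rfl (by norm_num)))
    (m 1 3 3 3 rfl (by norm_num))) (m 3 2 4 2 rfl (by norm_num)))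
    (m 3 1 5 1 rfl (by norm_num))) (m 1 0 6 0 rfl (by norm_num))
  rw [← w.map_pow] at h1 ⊢
  rw [← EllB_eq na h1]
  congr 1
  simp only [ph, ps, sq2]
  push_cast
  ring

theorem EllB_sum (na : IsNonarchimedean w) {r : ℝ} (hr : 0 ≤ r) (s : Multiset Λ)
    (h : ∀ a ∈ s, w a ≤ r) : w s.sum ≤ r :=
  Multiset.sum_induction (fun a => w a ≤ r) s (fun _ _ ha hb => EllB_add na ha hb)
    (show w 0 ≤ r by rwa [w.map_zero]) h

theorem EllB_root [IsSepClosed Λ] (na : IsNonarchimedean w) (g : Polynomial Λ)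
    (hg : g.natDegree ≤ 7) (c : Λ) {r : ℝ} (hr : 0 ≤ r) (hc : r < w c) :
    ∃ x, r < w x ∧ x ^ 9 + c * x ^ 8 + g.eval x = 0 := by
  obtain ⟨f, hf⟩ : ∃ f : Polynomial Λ,
      f = Polynomial.X ^ 9 + Polynomial.C c * Polynomial.X ^ 8 + g := ⟨_, rfl⟩
  have h8 : g.coeff 8 = 0 := Polynomial.coeff_eq_zero_of_natDegree_lt (by omega)
  have h9 : g.coeff 9 = 0 := Polynomial.coeff_eq_zero_of_natDegree_lt (by omega)
  have c9 : f.coeff 9 = 1 := by simp [hf, h9]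
  have c8 : f.coeff 8 = c := by simp [hf, h8]
  have hd : f.natDegree ≤ 9 := by
    rw [hf]
    refine Polynomial.natDegree_add_le_of_degree_le ?_ (by omega)
    compute_degree
  have hm : f.Monic := Polynomial.monic_of_natDegree_le_of_coeff_eq_one 9 hd c9
  have hd' : f.natDegree = 9 :=
    Polynomial.natDegree_eq_of_le_of_coeff_ne_zero hd (by rw [c9]; exact one_ne_zero)
  have hn := nextCoeff_eq hm
  rw [Polynomial.nextCoeff_of_natDegree_pos (by omega), hd', c8] at hn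
  by_contra h
  push Not at h
  refine hc.not_ge ?_
  rw [hn, w.map_neg]
  refine EllB_sum na hr _ fun a ha => not_lt.1 fun h' => h a h' ?_
  have := (Polynomial.mem_roots hm.ne_zero).1 ha
  simpa [hf] using this

theorem EllB_disc (h : T3 C) (hs : Sz C w ρ) {x y : Λ} (hn : C.Nonsingular x y)
    (hx : w x ≤ ρ ^ 2) (h1 : w (2 * y + C.a₁ * x + C.a₃) * ρ ^ 9 < w C.Δ)
    (h2 : w (3 * x ^ 2 - C.a₁ * y) * ρ ^ 8 < w C.Δ) : False := by
  have na := hs.na
  have he := (h.equation_iff x y).1 hn.1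
  have hy := EllB_y_le h hs hn hx
  have hp : w C.a₁ ≤ ρ ^ 1 := by simpa using hs.a1
  have hq : w (3 * x) ≤ ρ ^ 2 := EllB_num na 3 hx
  have hss : w (2 * y + C.a₁ * x + C.a₃) ≤ ρ ^ 3 :=
    EllB_add na (EllB_add na (EllB_num na 2 hy) (EllB_mulk hp hx)) hs.a3
  have ht : w (3 * x ^ 2 - C.a₁ * y) ≤ ρ ^ 4 :=
    EllB_sub na (EllB_num na 3 (by rw [sq x]; exact EllB_mulk hx hx)) (EllB_mulk hp hy)
  have hb : w (C.a₁ * C.a₁ + 4 * (3 * x)) ≤ ρ ^ 2 :=
    EllB_add na (EllB_mulk hp hp) (EllB_num na 4 hq)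
  have key : ∀ p q s t b : Λ, p = C.a₁ → q = 3 * x → s = 2 * y + C.a₁ * x + C.a₃ →
      t = 3 * x ^ 2 - C.a₁ * y → b = C.a₁ * C.a₁ + 4 * (3 * x) →
      C.Δ = s * (b * b * (p * t - q * s) - 8 * (12 * (t * t * p) + 6 * (t * (p * p) * s) +
        p * p * p * (s * s)) - 27 * (s * s * s) + 9 * (b * (2 * t + p * s) * s)) +
        t * (b * b * t - 64 * (t * t)) := by
    intro p q s t b ep eq es et eb
    rw [h.Δ_eq]
    have e : C.a₃ ^ 3 * (C.a₁ ^ 3 - 27 * C.a₃) - (s * (b * b * (p * t - q * s) -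
        8 * (12 * (t * t * p) + 6 * (t * (p * p) * s) + p * p * p * (s * s)) - 27 * (s * s * s) +
        9 * (b * (2 * t + p * s) * s)) + t * (b * b * t - 64 * (t * t))) =
        (b ^ 3 + 216 * s ^ 2 + 432 * (x ^ 3 - (y ^ 2 + C.a₁ * x * y + C.a₃ * y)) -
          36 * b * (2 * t + p * s)) * (y ^ 2 + C.a₁ * x * y + C.a₃ * y - x ^ 3) := by
      rw [ep, eq, es, et, eb]
      ring
    rwa [he, sub_self, mul_zero, sub_eq_zero] at e
  rw [key _ _ _ _ _ rfl rfl rfl rfl rfl] at h1 h2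
  generalize C.a₁ * C.a₁ + 4 * (3 * x) = b at *
  generalize 3 * x ^ 2 - C.a₁ * y = t at *
  generalize 2 * y + C.a₁ * x + C.a₃ = s at *
  generalize 3 * x = q at *
  generalize C.a₁ = p at *
  have pp := EllB_mulk hp hp
  have bb := EllB_mulk hb hb
  have tt := EllB_mulk ht ht
  have ss := EllB_mulk hss hss
  have a1 : w (p * t - q * s) ≤ ρ ^ 5 := EllB_sub na (EllB_mulk hp ht) (EllB_mulk hq hss)
  have a2 : w (2 * t + p * s) ≤ ρ ^ 4 := EllB_add na (EllB_num na 2 ht) (EllB_mulk hp hss)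
  have a3 : w (b * b * (p * t - q * s)) ≤ ρ ^ 9 := EllB_mulk bb a1
  have a4 : w (t * t * p) ≤ ρ ^ 9 := EllB_mulk tt hp
  have a5 : w (t * (p * p) * s) ≤ ρ ^ 9 := EllB_mulk (EllB_mulk ht pp :) hss
  have a6 : w (p * p * p * (s * s)) ≤ ρ ^ 9 := EllB_mulk (EllB_mulk pp hp :) ss
  have a7 : w (s * s * s) ≤ ρ ^ 9 := EllB_mulk ss hss
  have a8 : w (b * (2 * t + p * s) * s) ≤ ρ ^ 9 := EllB_mulk (EllB_mulk hb a2 :) hss
  have a9 : w (b * b * t) ≤ ρ ^ 8 := EllB_mulk bb ht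
  have hA := EllB_add na (EllB_sub na (EllB_sub na a3 (EllB_num na 8 (EllB_add na
    (EllB_add na (EllB_num na 12 a4) (EllB_num na 6 a5)) a6))) (EllB_num na 27 a7))
    (EllB_num na 9 a8)
  have hB := EllB_sub na a9 (EllB_num na 64 tt)
  exact lt_irrefl _
    (EllB_addl na ((EllB_mul le_rfl hA).trans_lt h1) ((EllB_mul le_rfl hB).trans_lt h2))

theorem EllB_big (na : IsNonarchimedean w) (hρ : 0 < ρ) {l a x x' : Λ} (hl : ρ < w l)
    (ha : w a ≤ ρ) (hx : w x ≤ ρ ^ 2) (hx' : w x' ≤ ρ ^ 2) :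
    ρ ^ 2 < w (l ^ 2 + a * l - x - x') := by
  have h0 : ρ ^ 2 < w (l ^ 2) := by
    rw [w.map_pow]
    exact pow_lt_pow_left₀ hl hρ.le two_ne_zero
  have h1 : w (a * l) < w (l ^ 2) := by
    refine (EllB_mul ha le_rfl).trans_lt ?_
    rw [w.map_pow, sq]
    exact mul_lt_mul_of_pos_right hl (hρ.trans hl)
  have h2 := EllB_eq na (EllB_subl na (EllB_subl na h1 (hx.trans_lt h0)) (hx'.trans_lt h0))
  rw [show l ^ 2 + a * l - x - x' = l ^ 2 + (a * l - x - x') by ring, h2]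
  exact h0

end Aux

theorem EllB_line {x₁ x₂ y₁ y₂ : Λ} (h₁ : C.Equation x₁ y₁) (h₂ : C.Equation x₂ y₂)
    (hxy : ¬(x₁ = x₂ ∧ y₁ = C.negY x₂ y₂)) : y₁ - y₂ = C.slope x₁ x₂ y₁ y₂ * (x₁ - x₂) := by
  by_cases hx : x₁ = x₂
  · rw [Y_eq_of_Y_ne h₁ h₂ hx fun h => hxy ⟨hx, h⟩, hx, sub_self, sub_self, mul_zero]
  · rw [slope_of_X_ne hx, div_mul_cancel₀ _ (sub_ne_zero.2 hx)]

theorem EllB_line' (h : T3 C) {x₁ x₂ y₁ y₂ : Λ} (h₁ : C.Equation x₁ y₁) (h₂ : C.Equation x₂ y₂)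
    (hxy : ¬(x₁ = x₂ ∧ y₁ = C.negY x₂ y₂)) :
    C.slope x₁ x₂ y₁ y₂ * (y₁ - C.negY x₂ y₂) = x₁ ^ 2 + x₁ * x₂ + x₂ ^ 2 - C.a₁ * y₁ := by
  by_cases hx : x₁ = x₂
  · have hy : y₁ ≠ C.negY x₂ y₂ := fun h => hxy ⟨hx, h⟩
    have hy' := Y_eq_of_Y_ne h₁ h₂ hx hy
    subst hx hy'
    rw [slope_of_Y_ne rfl hy, div_mul_cancel₀ _ (sub_ne_zero.2 hy), h.a2, h.a4]
    ring
  · have e1 := (h.equation_iff _ _).1 h₁
    have e2 := (h.equation_iff _ _).1 h₂
    rw [slope_of_X_ne hx, div_mul_eq_mul_div, div_eq_iff (sub_ne_zero.2 hx), negY]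
    linear_combination e1 - e2

theorem EllB_sym (h : T3 C) {x₁ x₂ y₁ y₂ : Λ} (h₁ : C.Equation x₁ y₁) (h₂ : C.Equation x₂ y₂)
    (hxy : ¬(x₁ = x₂ ∧ y₁ = C.negY x₂ y₂)) {l x₃ : Λ} (hl : l = C.slope x₁ x₂ y₁ y₂)
    (h₃ : x₃ = C.addX x₁ x₂ l) :
    x₁ * x₂ = 2 * x₁ * l ^ 2 + (C.a₁ * x₁ - 2 * y₁ - C.a₃) * l - C.a₁ * y₁ - x₁ * x₃ - x₂ * x₃ := by
  have e := addPolynomial_slope h₁ h₂ hxy
  rw [addPolynomial_eq, neg_inj, Cubic.prod_X_sub_C_eq, Cubic.toPoly_injective, ← hl, ← h₃] at e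
  have e' := congrArg Cubic.c e
  simp only [h.a4] at e'
  linear_combination -e'

theorem InE1.zero : InE1 w ρ (0 : C.Point) := by
  trivial

theorem InE1.neg {P : C.Point} (hP : InE1 w ρ P) : InE1 w ρ (-P) := by
  rcases P with _ | ⟨x, y, hn⟩
  · exact hP
  · exact hP

theorem InE1.add (h : T3 C) (hs : Sz C w ρ) {P Q : C.Point} (hP : InE1 w ρ P) (hQ : InE1 w ρ Q) :
    InE1 w ρ (P + Q) := by
  rcases P with _ | ⟨x₁, y₁, h₁⟩
  · rwa [← Point.zero_def, zero_add]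
  rcases Q with _ | ⟨x₂, y₂, h₂⟩
  · rwa [← Point.zero_def, add_zero]
  by_cases hxy : x₁ = x₂ ∧ y₁ = C.negY x₂ y₂
  · rw [Point.add_of_Y_eq hxy.1 hxy.2]
    exact InE1.zero
  rw [Point.add_some hxy]
  have na := hs.na
  have hρ := hs.pos
  have hn := nonsingular_negAdd h₁ h₂ hxy
  have e1 := EllB_line h₁.1 h₂.1 hxy
  obtain ⟨l, hl⟩ : ∃ l, l = C.slope x₁ x₂ y₁ y₂ := ⟨_, rfl⟩
  obtain ⟨x₃, h₃⟩ : ∃ x₃, x₃ = C.addX x₁ x₂ l := ⟨_, rfl⟩
  have e2 := EllB_sym h h₁.1 h₂.1 hxy hl h₃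
  change ρ ^ 2 < w (C.addX x₁ x₂ (C.slope x₁ x₂ y₁ y₂))
  rw [negAddY] at hn
  rw [← hl] at hn e1 ⊢
  rw [← h₃] at hn ⊢
  refine not_le.1 fun hx => ?_
  have hy := EllB_y_le h hs hn hx
  obtain ⟨y₃, hy₃⟩ : ∃ y₃, y₃ = l * (x₃ - x₁) + y₁ := ⟨_, rfl⟩
  rw [← hy₃] at hy
  have key : ∀ x y, C.Nonsingular x y → ρ ^ 2 < w x → y₃ - y = l * (x₃ - x) → w x = w l ^ 2 := by
    intro x y hn hx' e
    have h1 := EllB_y_sq h hs hn hx'
    have hu : 0 < w x := (pow_pos hρ 2).trans hx'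
    have h2 : ρ ^ 3 < w y := by
      refine lt_of_pow_lt_pow_left₀ 2 (w.nonneg _) ?_
      rw [h1, ← pow_mul, mul_comm, pow_mul]
      exact pow_lt_pow_left₀ hx' (pow_pos hρ 2).le three_ne_zero
    have h3 := congrArg w e
    rw [w.map_mul, EllB_eq_sub na (hy.trans_lt h2), EllB_eq_sub na (hx.trans_lt hx')] at h3
    rw [h3] at h1
    refine mul_right_cancel₀ (pow_pos hu 2).ne' ?_
    linear_combination -h1
  have k1 := key x₁ y₁ h₁ hP (by rw [hy₃]; ring)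
  have k2 := key x₂ y₂ h₂ hQ (by rw [hy₃]; linear_combination e1)
  have hlt : ρ < w l := lt_of_pow_lt_pow_left₀ 2 (w.nonneg _) (k1 ▸ hP)
  have hl0 : 0 < w l := hρ.trans hlt
  have b1 : w (y₃ - l * x₃) ≤ w l * ρ ^ 2 :=
    EllB_sub na (hy.trans (by rw [pow_succ']; gcongr)) (EllB_mul le_rfl hx)
  have e3 : x₁ * x₂ = -(2 * (l * (y₃ - l * x₃))) - C.a₁ * (y₃ - l * x₃) - C.a₃ * l - x₁ * x₃ -
      x₂ * x₃ := by
    rw [e2, hy₃]
    ring
  have b2 : w (x₁ * x₂) ≤ w l ^ 2 * ρ ^ 2 := by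
    rw [e3]
    refine EllB_sub na (EllB_sub na (EllB_sub na (EllB_sub na ?_ ?_) ?_) (EllB_mul k1.le hx))
      (EllB_mul k2.le hx)
    · rw [w.map_neg]
      exact EllB_num na 2 ((EllB_mul le_rfl b1).trans (le_of_eq (by ring)))
    · exact (EllB_mul (hs.a1.trans hlt.le) b1).trans (le_of_eq (by ring))
    · refine (EllB_mul hs.a3 le_rfl).trans ?_
      calc ρ ^ 3 * w l = ρ * (w l * ρ ^ 2) := by ring
        _ ≤ w l * (w l * ρ ^ 2) := by gcongr
        _ = _ := by ring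
  rw [w.map_mul, k1] at b2
  exact (mul_lt_mul_of_pos_left hQ (pow_pos hl0 2)).not_ge b2

theorem InE1.nsmul (h : T3 C) (hs : Sz C w ρ) {P : C.Point} (hP : InE1 w ρ P) (n : ℕ) :
    InE1 w ρ (n • P) := by
  induction n with
  | zero =>
    rw [zero_nsmul]
    exact InE1.zero
  | succ n ih =>
    rw [succ_nsmul]
    exact ih.add h hs hP

theorem InE1.map {s : C.Point →+ C.Point} {φ : Λ →+* Λ} (hc : Compat s φ)
    (hw : ∀ a, w (φ a) = w a) {P : C.Point} (hP : InE1 w ρ P) : InE1 w ρ (s P) := by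
  rcases P with _ | ⟨x, y, hn⟩
  · rw [← Point.zero_def, map_zero]
    exact InE1.zero
  · obtain ⟨h', e⟩ := hc x y hn
    rw [e]
    change ρ ^ 2 < w (φ x)
    rw [hw]
    exact hP

theorem InE1.eq_zero (h : T3 C) (hs : Sz C w ρ) {P : C.Point} (hP : InE1 w ρ P) {j : ℕ}
    (hj : 3 ^ j • P = 0) : P = 0 := by
  induction j generalizing P with
  | zero => simpa using hj
  | succ j ih =>
    rw [pow_succ, mul_nsmul'] at hj
    have h3 := ih (hP.nsmul h hs 3) hj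
    rcases P with _ | ⟨x, y, hn⟩
    · rfl
    · have h4 := EllB_ps hs hP
      rw [(h.three_smul_zero hn).1 h3, w.map_zero] at h4
      exact absurd h4 (pow_pos ((pow_pos hs.pos 2).trans hP) 4).ne

theorem InE1.div [IsSepClosed Λ] (h : T3 C) (hs : Sz C w ρ) {P : C.Point} (hP : InE1 w ρ P)
    (j : ℕ) : ∃ R, InE1 w ρ R ∧ 3 ^ j • R = P := by
  induction j with
  | zero => exact ⟨P, hP, by simp⟩
  | succ j ih =>
    obtain ⟨R, hR, rfl⟩ := ih
    suffices ∃ R', InE1 w ρ R' ∧ 3 • R' = R by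
      obtain ⟨R', h1, rfl⟩ := this
      exact ⟨R', h1, by rw [pow_succ, mul_nsmul']⟩
    rcases R with _ | ⟨X, Y, hn⟩
    · exact ⟨0, InE1.zero, nsmul_zero 3⟩
    have h9 : ρ ^ 2 < w (-(3 * (3 * X))) := by
      rw [w.map_neg, w.map_mul, w.map_mul, hs.three, one_mul, one_mul]
      exact hR
    obtain ⟨a, ha⟩ : ∃ a, a = C.a₁ := ⟨_, rfl⟩
    obtain ⟨b, hb⟩ : ∃ b, b = C.a₃ := ⟨_, rfl⟩
    obtain ⟨x, hx, e⟩ := EllB_root hs.na
      (Polynomial.C (-6 * a * b - 6 * a ^ 2 * X) * Polynomial.X ^ 7 +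
        Polynomial.C (-24 * b ^ 2 - a ^ 3 * b - 18 * a * b * X - a ^ 4 * X) * Polynomial.X ^ 6 +
        Polynomial.C (-6 * a ^ 2 * b ^ 2 - 18 * b ^ 2 * X - 6 * a ^ 3 * b * X) * Polynomial.X ^ 5 +
        Polynomial.C (-3 * a * b ^ 3 - 15 * a ^ 2 * b ^ 2 * X) * Polynomial.X ^ 4 +
        Polynomial.C (3 * b ^ 4 + a ^ 3 * b ^ 3 - 18 * a * b ^ 3 * X) * Polynomial.X ^ 3 +
        Polynomial.C (3 * a ^ 2 * b ^ 4 - 9 * b ^ 4 * X) * Polynomial.X ^ 2 +
        Polynomial.C (3 * a * b ^ 5) * Polynomial.X + Polynomial.C (b ^ 6))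
      (by compute_degree) _ (pow_pos hs.pos 2).le h9
    simp only [Polynomial.eval_add, Polynomial.eval_mul, Polynomial.eval_C, Polynomial.eval_pow,
      Polynomial.eval_X] at e
    obtain ⟨y, hn', e'⟩ := h.exists_third_of_root hn (x := x) (by
      simp only [ph, ps, sq2, ← ha, ← hb]
      linear_combination e)
    exact ⟨Point.some x y hn', hx, e'⟩

theorem T3.w_y_le (h : T3 C) (hs : Sz C w ρ) {x y : Λ} (hn : C.Nonsingular x y)
    (hx : w x ≤ ρ ^ 2) : w y ≤ ρ ^ 3 := by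
  exact EllB_y_le h hs hn hx

theorem T3.w_y_sq (h : T3 C) (hs : Sz C w ρ) {x y : Λ} (hn : C.Nonsingular x y)
    (hx : ρ ^ 2 < w x) : w y ^ 2 = w x ^ 3 := by
  exact EllB_y_sq h hs hn hx

theorem T3.w_ph (h : T3 C) (hs : Sz C w ρ) {x : Λ} (hx : ρ ^ 2 < w x) :
    w (ph C x) = w x ^ 9 ∧ w (ps C x) = w x ^ 4 := by
  exact ⟨EllB_ph hs hx, EllB_ps hs hx⟩

theorem T3.close (h : T3 C) (hs : Sz C w ρ) {x y x' y' : Λ} (hn : C.Nonsingular x y)
    (hn' : C.Nonsingular x' y') (hx : w x ≤ ρ ^ 2) (hx' : w x' ≤ ρ ^ 2)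
    (h1 : w (x - x') * ρ ^ 10 < w C.Δ) (h2 : w (y - y') * ρ ^ 9 < w C.Δ) :
    InE1 w ρ (Point.some x y hn - Point.some x' y' hn' : C.Point) := by
  rw [sub_eq_add_neg, Point.neg_some]
  by_cases hxy : x = x' ∧ y = C.negY x' (C.negY x' y')
  · rw [Point.add_of_Y_eq hxy.1 hxy.2]
    exact InE1.zero
  rw [Point.add_some hxy]
  have na := hs.na
  have hρ := hs.pos
  have hn'' := (equation_neg x' y').2 hn'.1
  have e1 := EllB_line hn.1 hn'' hxy
  have e2 := EllB_line' h hn.1 hn'' hxy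
  change ρ ^ 2 < w (C.addX x x' (C.slope x x' y (C.negY x' y')))
  generalize C.slope x x' y (C.negY x' y') = l at e1 e2 ⊢
  rw [negY_negY] at e2
  rw [negY] at e1
  rw [addX, h.a2, sub_zero]
  refine EllB_big na hρ (not_le.1 fun hl => ?_) hs.a1 hx hx'
  have p9 : 0 < ρ ^ 9 := pow_pos hρ 9
  have p8 : 0 < ρ ^ 8 := pow_pos hρ 8
  refine EllB_disc h hs hn hx ?_ ?_
  · rw [show 2 * y + C.a₁ * x + C.a₃ = l * (x - x') + (y - y') + C.a₁ * (x - x') by
      linear_combination e1, ← lt_div_iff₀ p9]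
    have h3 : ρ * w (x - x') < w C.Δ / ρ ^ 9 := by
      rw [lt_div_iff₀ p9]
      exact (le_of_eq (by ring)).trans_lt h1
    exact EllB_addl na (EllB_addl na ((EllB_mul hl le_rfl).trans_lt h3) ((lt_div_iff₀ p9).2 h2))
      ((EllB_mul hs.a1 le_rfl).trans_lt h3)
  · rw [show 3 * x ^ 2 - C.a₁ * y = l * (y - y') + (x' + 2 * x) * (x - x') by
      linear_combination -e2, ← lt_div_iff₀ p8]
    refine EllB_addl na ((EllB_mul hl le_rfl).trans_lt ?_)
      ((EllB_mul (EllB_add na hx' (EllB_num na 2 hx)) le_rfl).trans_lt ?_)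
    · rw [lt_div_iff₀ p8]
      exact (le_of_eq (by ring)).trans_lt h2
    · rw [lt_div_iff₀ p8]
      exact (le_of_eq (by ring)).trans_lt h1

theorem T3.unram (h : T3 C) (hs : Sz C w 1) (hΔ : w C.Δ = 1) {s : C.Point →+ C.Point}
    {φ : Λ →+* Λ} (hc : Compat s φ) (hr : ∀ a, w a ≤ 1 → w (φ a - a) < 1) {P : C.Point} {j : ℕ}
    (hj : 3 ^ j • P = 0) : s P = P := by
  rcases P with _ | ⟨x, y, hn⟩
  · rw [← Point.zero_def, map_zero]
  by_cases hx : 1 ^ 2 < w x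
  · rw [InE1.eq_zero h hs (P := Point.some x y hn) hx hj, map_zero]
  have hx1 : w x ≤ 1 ^ 2 := not_lt.1 hx
  have hy1 := EllB_y_le h hs hn hx1
  have h1 := hr x (by simpa using hx1)
  have h2 := hr y (by simpa using hy1)
  obtain ⟨hn', e⟩ := hc x y hn
  have hx2 : w (φ x) ≤ 1 ^ 2 := by
    have := EllB_add hs.na (h1.le.trans (one_pow 2).ge) hx1
    rwa [sub_add_cancel] at this
  have h3 := h.close hs hn' hn hx2 hx1 (by simpa [hΔ] using h1) (by simpa [hΔ] using h2)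
  rw [← e] at h3
  exact sub_eq_zero.1 (h3.eq_zero h hs (j := j) (by rw [nsmul_sub, ← map_nsmul, hj, map_zero,
    sub_zero]))

theorem T3.local_torsion [IsSepClosed Λ] (h : T3 C) (hs : Sz C w ρ) {G : Type}
    (s : G → C.Point →+ C.Point) (φ : G → Λ →+* Λ) (hc : ∀ g, Compat (s g) (φ g))
    (hw : ∀ g a, w (φ g a) = w a)
    (htb : ∀ B ε : ℝ, 0 < ε → ∃ Cs : Finset Λ, ∀ a, (∀ g, φ g a = a) → w a ≤ B →
      ∃ c ∈ Cs, w (a - c) < ε)
    (P : C.Point) {j : ℕ} (hP : ∀ g, 3 ^ j • (s g P - P) = 0) :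
    ∃ (m : ℕ) (y : C.Point), 3 ^ m • y = 0 ∧ ∀ g, s g P - P = s g y - y := by
  have na := hs.na
  have hρ := hs.pos
  have hD : 0 < w C.Δ := w.pos h.Δ_ne
  have hfix : ∀ g (k : ℕ), s g (k • 3 ^ j • P) = k • 3 ^ j • P := fun g k => by
    have := hP g
    rw [nsmul_sub, sub_eq_zero] at this
    rw [map_nsmul, map_nsmul, this]
  obtain ⟨m, hm, hE⟩ : ∃ m : ℕ, m ≠ 0 ∧ InE1 w ρ (m • 3 ^ j • P) := by
    by_contra hno
    push Not at hno
    obtain ⟨C1, hC1⟩ := htb (ρ ^ 2) (w C.Δ / ρ ^ 10) (by positivity)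
    obtain ⟨C2, hC2⟩ := htb (ρ ^ 3) (w C.Δ / ρ ^ 9) (by positivity)
    have key : ∀ k : ℕ, ∃ x y hn, (k + 1) • 3 ^ j • P = Point.some x y hn ∧ w x ≤ ρ ^ 2 ∧
        ∃ c ∈ C1 ×ˢ C2, w (x - c.1) < w C.Δ / ρ ^ 10 ∧ w (y - c.2) < w C.Δ / ρ ^ 9 := fun k => by
      have h1 := hno (k + 1) k.succ_ne_zero
      have h2 := fun g => hfix g (k + 1)
      generalize (k + 1) • 3 ^ j • P = Q at h1 h2
      rcases Q with _ | ⟨x, y, hn⟩
      · exact (h1 InE1.zero).elim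
      have hx : w x ≤ ρ ^ 2 := not_lt.1 h1
      have h3 : ∀ g, φ g x = x ∧ φ g y = y := fun g => by
        obtain ⟨hn', e⟩ := hc g x y hn
        have := e.symm.trans (h2 g)
        rwa [Point.some.injEq] at this
      obtain ⟨c1, m1, e1⟩ := hC1 x (fun g => (h3 g).1) hx
      obtain ⟨c2, m2, e2⟩ := hC2 y (fun g => (h3 g).2) (EllB_y_le h hs hn hx)
      exact ⟨x, y, hn, rfl, hx, (c1, c2), Finset.mem_product.2 ⟨m1, m2⟩, e1, e2⟩
    choose x y hn e hx c hc1 hc2 hc3 using key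
    obtain ⟨a, b, hab, hcc⟩ := Set.Finite.exists_lt_map_eq_of_forall_mem
      (t := ((C1 ×ˢ C2 : Finset (Λ × Λ)) : Set (Λ × Λ))) (f := c) hc1 (Finset.finite_toSet _)
    have d1 := EllB_subl na (hc2 b) (hcc ▸ hc2 a)
    have d2 := EllB_subl na (hc3 b) (hcc ▸ hc3 a)
    rw [sub_sub_sub_cancel_right, lt_div_iff₀ (by positivity)] at d1 d2
    have h4 := h.close hs (hn b) (hn a) (hx b) (hx a) d1 d2
    rw [← e, ← e, show b + 1 = (b - a) + (a + 1) by omega, add_nsmul, add_sub_cancel_right] at h4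
    exact hno _ (by omega) h4
  obtain ⟨a, m', hm', rfl⟩ := Nat.exists_eq_pow_mul_and_not_dvd hm 3 (by norm_num)
  obtain ⟨R, hR, eR⟩ := hE.div h hs (a + j)
  have hRfix : ∀ g, s g R = R := fun g => by
    have h1 := (hR.map (hc g) (hw g)).add h hs hR.neg
    rw [← sub_eq_add_neg] at h1
    refine sub_eq_zero.1 (h1.eq_zero h hs (j := a + j) ?_)
    rw [nsmul_sub, ← map_nsmul, eR, hfix, sub_self]
  have hcop : IsCoprime (m' : ℤ) (3 ^ j) := by
    have : Nat.Coprime m' (3 ^ j) :=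
      Nat.Coprime.pow_right j ((Nat.prime_three.coprime_iff_not_dvd.2 hm').symm)
    exact_mod_cast Nat.isCoprime_iff_coprime.2 this
  obtain ⟨u, v, huv⟩ := hcop
  refine ⟨a + j, u • (m' • P - R), ?_, fun g => ?_⟩
  · rw [smul_comm, nsmul_sub, eR, ← mul_nsmul', ← mul_nsmul', pow_add, mul_right_comm, sub_self,
      smul_zero]
  · have h1 : s g (u • (m' • P - R)) - u • (m' • P - R) = (u * m') • (s g P - P) := by
      rw [map_zsmul, map_sub, map_nsmul, hRfix, mul_smul, natCast_zsmul, nsmul_sub, ← smul_sub]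
      congr 1
      abel
    have h2 : (v * 3 ^ j) • (s g P - P) = 0 := by
      have := hP g
      rw [← natCast_zsmul] at this
      push_cast at this
      rw [mul_smul, this, smul_zero]
    rw [h1, ← add_zero ((u * m') • (s g P - P)), ← h2, ← add_smul, huv, one_smul]

end

end Pool.Agent.Smith
end

-- merged part: Pool.Agent.Work.MP_60d5ce_nt.Sm.EllC
section
/-!
# A place of multiplicative reduction with the node at `(0, 0)`

`w a1 = 1`, `w a3 < 1`.  `E0` is the set of points with `w x ≥ 1`, `u (x, y) = y ^ 2 / x ^ 3 =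
y / (y + a1 x + a3)`.
Hints.  On a line `y = l x + n`: `y1 y2 y3 = n ^ 3` and `x1 x2 x3 = n (n + a3)`, so
`u1 u2 u3 = (n / (n + a3)) ^ 3`; `u (-P) = 1 / u P`.  Closure of `E0`: if `w x3 < 1` and `w l ≤ 1`
then `n` is small and the second symmetric function is small; if `w l > 1` argue as for `E1`.
`exists_u`: `x = η a1 ^ 2 / (1 - η) ^ 2`; the two roots `y` of the (separable) quadratic have `u`
congruent to `η` and `η⁻¹`, since `u + u⁻¹ - 2 = -(a1 x + a3) ^ 2 / (-x ^ 3)`; replace `P` by `-P` if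
needed.  `mult_point`: `η` a primitive `3 ^ (j + 1)`-th root of unity, `3 ^ (j + 1) P ∈ E1`, subtract
`R ∈ E1` (`InE1.div`); `s P - Q P ∈ E1` is torsion.  A nontrivial root of unity `η'` of order a power
of three has `w (1 - η') = 1` and `w (1 + η') = 1`.
-/

namespace Pool.Agent.Smith

open WeierstrassCurve WeierstrassCurve.Affine

noncomputable section

variable {Λ : Type} [Field Λ] {C : Affine Λ}

section Aux

variable {w : AbsoluteValue Λ ℝ}

theorem EllC.add_lt (na : IsNonarchimedean w) {a b : Λ} {M : ℝ} (ha : w a < M) (hb : w b < M) :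
    w (a + b) < M :=
  (na a b).trans_lt (max_lt ha hb)

theorem EllC.add_le (na : IsNonarchimedean w) {a b : Λ} {M : ℝ} (ha : w a ≤ M) (hb : w b ≤ M) :
    w (a + b) ≤ M :=
  (na a b).trans (max_le ha hb)

theorem EllC.sub_lt (na : IsNonarchimedean w) {a b : Λ} {M : ℝ} (ha : w a < M) (hb : w b < M) :
    w (a - b) < M := by
  rw [sub_eq_add_neg]
  exact EllC.add_lt na ha (by rwa [w.map_neg])

theorem EllC.sub_le (na : IsNonarchimedean w) {a b : Λ} {M : ℝ} (ha : w a ≤ M) (hb : w b ≤ M) :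
    w (a - b) ≤ M := by
  rw [sub_eq_add_neg]
  exact EllC.add_le na ha (by rwa [w.map_neg])

theorem EllC.add_eq (na : IsNonarchimedean w) {a b : Λ} (h : w b < w a) : w (a + b) = w a := by
  refine le_antisymm (EllC.add_le na le_rfl h.le) (not_lt.1 fun h' => ?_)
  have := EllC.sub_lt na h' h
  rw [add_sub_cancel_right] at this
  exact lt_irrefl _ this

theorem EllC.sub_eq (na : IsNonarchimedean w) {a b : Λ} (h : w b < w a) : w (a - b) = w a := by
  rw [sub_eq_add_neg]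
  exact EllC.add_eq na (by rwa [w.map_neg])

theorem EllC.trans (na : IsNonarchimedean w) {a b c : Λ} (h : w (a - b) < 1) (h' : w (b - c) < 1) :
    w (a - c) < 1 := by
  have := EllC.add_lt na h h'
  rwa [sub_add_sub_cancel] at this

theorem EllC.symm {a b : Λ} (h : w (a - b) < 1) : w (b - a) < 1 := by
  rwa [w.map_sub]

theorem EllC.mul_lt {a b : Λ} (h : w a < 1) (h' : w b ≤ 1) : w (a * b) < 1 := by
  rw [map_mul]
  exact mul_lt_one_of_nonneg_of_lt_one_left (w.nonneg a) h h'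

theorem EllC.pow_sub (na : IsNonarchimedean w) {a b : Λ} (ha : w a ≤ 1) (hb : w b ≤ 1)
    (h : w (a - b) < 1) (n : ℕ) : w (a ^ n - b ^ n) < 1 := by
  induction n with
  | zero => simp
  | succ n ih =>
    have e : a ^ (n + 1) - b ^ (n + 1) = (a ^ n - b ^ n) * a + (a - b) * b ^ n := by ring
    rw [e]
    refine EllC.add_lt na (EllC.mul_lt ih ha) (EllC.mul_lt h ?_)
    rw [map_pow]
    exact pow_le_one₀ (w.nonneg b) hb

theorem EllC.w_root {z : Λ} {n : ℕ} (hn : n ≠ 0) (h : z ^ n = 1) : w z = 1 := by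
  have : w z ^ n = 1 := by rw [← map_pow, h, map_one]
  exact (pow_eq_one_iff_of_nonneg (w.nonneg z) hn).1 this

theorem EllC.root_eq_one (na : IsNonarchimedean w) (h3 : w 3 = 1) (k : ℕ) :
    ∀ z : Λ, z ^ 3 ^ k = 1 → w (z - 1) < 1 → z = 1 := by
  induction k with
  | zero => intro z hz _; simpa using hz
  | succ k ih =>
    intro z hz h1
    have hw : w z = 1 := EllC.w_root (by positivity) hz
    have h : z ^ 3 = 1 := by
      refine ih _ (by rw [← pow_mul, ← pow_succ', hz]) ?_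
      have := EllC.pow_sub na hw.le (map_one w).le h1 3
      rwa [one_pow] at this
    by_contra hne
    have e : z ^ 2 + z + 1 = 0 := by
      refine mul_left_cancel₀ (sub_ne_zero.2 hne) ?_
      linear_combination h
    have e3 : (3 : Λ) = (z - 1) * -(z + 1 + 1) := by linear_combination e
    have : w 3 < 1 := by
      rw [e3]
      refine EllC.mul_lt h1 ?_
      rw [w.map_neg]
      exact EllC.add_le na (EllC.add_le na hw.le (map_one w).le) (map_one w).le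
    exact absurd h3 this.ne

theorem EllC.key (na : IsNonarchimedean w) {a1 a3 x y : Λ} (h1 : w a1 = 1) (h3 : w a3 < 1)
    (he : y ^ 2 + a1 * x * y + a3 * y = x ^ 3) (hx : 1 ≤ w x) :
    w (y ^ 2 / x ^ 3) = 1 ∧ w (y ^ 2 / x ^ 3 - 1) ^ 2 * w x = 1 := by
  have hp : 0 < w x := one_pos.trans_le hx
  have hx0 : x ≠ 0 := w.pos_iff.1 hp
  have ht : w (a1 * x + a3) = w x := by
    rw [EllC.add_eq na (by rw [map_mul, h1, one_mul]; linarith), map_mul, h1, one_mul]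
  have e0 : y ^ 2 / x ^ 3 * x ^ 3 = y ^ 2 := div_mul_cancel₀ _ (pow_ne_zero 3 hx0)
  generalize y ^ 2 / x ^ 3 = u at e0 ⊢
  have e : (u - 1) ^ 2 * x ^ 3 = u * (a1 * x + a3) ^ 2 := by
    refine mul_right_cancel₀ (pow_ne_zero 3 hx0) ?_
    have e1 : (u - 1) * x ^ 3 = -((a1 * x + a3) * y) := by linear_combination e0 + he
    calc (u - 1) ^ 2 * x ^ 3 * x ^ 3 = ((u - 1) * x ^ 3) ^ 2 := by ring
      _ = (a1 * x + a3) ^ 2 * y ^ 2 := by rw [e1]; ring
      _ = u * (a1 * x + a3) ^ 2 * x ^ 3 := by rw [← e0]; ring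
  have e2 : w (u - 1) ^ 2 * w x = w u := by
    have := congrArg w e
    rw [map_mul, map_mul, map_pow, map_pow, map_pow, ht] at this
    refine mul_right_cancel₀ (pow_ne_zero 2 hp.ne') ?_
    linear_combination this
  have hu : w u = 1 := by
    rcases lt_trichotomy (w u) 1 with h | h | h
    · rw [w.map_sub, EllC.sub_eq na (by rwa [map_one]), map_one] at e2
      linarith
    · exact h
    · rw [EllC.sub_eq na (by rwa [map_one])] at e2
      have h' : w u * w x = 1 := by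
        refine mul_left_cancel₀ (one_pos.trans h).ne' ?_
        linear_combination e2
      nlinarith
  exact ⟨hu, e2.trans hu⟩

theorem EllC.closure (na : IsNonarchimedean w) {a1 a3 x1 x2 x3 y3 l n : Λ} (h1 : w a1 = 1)
    (h3 : w a3 < 1) (he : y3 ^ 2 + a1 * x3 * y3 + a3 * y3 = x3 ^ 3) (hy : y3 = l * x3 + n)
    (e1 : x1 + x2 + x3 = l ^ 2 + a1 * l)
    (e2 : x1 * x2 + x1 * x3 + x2 * x3 = -(2 * l * n + a1 * n + a3 * l))
    (hx1 : 1 ≤ w x1) (hx2 : 1 ≤ w x2) : 1 ≤ w x3 := by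
  by_contra! hx3
  have hy3 : w y3 < 1 := by
    by_contra! hc
    have ht : w (a1 * x3 + a3) < 1 := EllC.add_lt na (by rwa [map_mul, h1, one_mul]) h3
    have e : y3 * (y3 + (a1 * x3 + a3)) = x3 ^ 3 := by linear_combination he
    have := congrArg w e
    rw [map_mul, EllC.add_eq na (ht.trans_le hc), map_pow] at this
    have h4 : w x3 ^ 3 < 1 := pow_lt_one₀ (w.nonneg _) hx3 (by norm_num)
    linarith only [hc, this, h4, mul_nonneg_of_nonpos_of_nonpos (Mathlib.Tactic.Linarith.sub_nonpos_of_le hc) (Mathlib.Tactic.Linarith.sub_nonpos_of_le hc)]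
  obtain ⟨M, hM1, hMl, hM⟩ : ∃ M : ℝ, 1 ≤ M ∧ w l ≤ M ∧ M ^ 2 ≤ w x1 * w x2 := by
    rcases le_or_gt (w l) 1 with hl | hl
    · exact ⟨1, le_rfl, hl, by linarith only [hx1, hx2, mul_nonneg_of_nonpos_of_nonpos (Mathlib.Tactic.Linarith.sub_nonpos_of_le hx1) (Mathlib.Tactic.Linarith.sub_nonpos_of_le hx2)]⟩
    refine ⟨w l, hl.le, le_rfl, not_lt.1 fun hc => ?_⟩
    have e : l ^ 2 = x1 + x2 + x3 - a1 * l := by linear_combination -e1
    have hl2 : w l < w l ^ 2 := by linarith only [hl, mul_pos_of_neg_of_neg (Mathlib.Tactic.Linarith.sub_neg_of_lt hl) (Mathlib.Tactic.Linarith.sub_neg_of_lt hl)]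
    have : w (l ^ 2) < w l ^ 2 := by
      rw [e]
      refine EllC.sub_lt na (EllC.add_lt na (EllC.add_lt na ?_ ?_) (by linarith)) ?_
      · linarith only [hx2, hc, hx1, mul_nonneg_of_nonpos_of_nonpos (Mathlib.Tactic.Linarith.sub_nonpos_of_le hx1) (Mathlib.Tactic.Linarith.sub_nonpos_of_le hx2)]
      · linarith only [hx1, hc, hx2, mul_nonneg_of_nonpos_of_nonpos (Mathlib.Tactic.Linarith.sub_nonpos_of_le hx1) (Mathlib.Tactic.Linarith.sub_nonpos_of_le hx2)]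
      · rwa [map_mul, h1, one_mul]
    rw [map_pow] at this
    exact lt_irrefl _ this
  have hM0 : 0 < M := one_pos.trans_le hM1
  have hM2 : M ≤ M ^ 2 := by linarith only [hM1, mul_nonneg_of_nonpos_of_nonpos (Mathlib.Tactic.Linarith.sub_nonpos_of_le hM1) (Mathlib.Tactic.Linarith.sub_nonpos_of_le hM1)]
  have hn : w n < M := by
    rw [show n = y3 - l * x3 by linear_combination -hy]
    refine EllC.sub_lt na (hy3.trans_le hM1) ?_
    rw [map_mul]
    calc w l * w x3 ≤ M * w x3 := mul_le_mul_of_nonneg_right hMl (w.nonneg _)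
      _ < M := mul_lt_of_lt_one_right hM0 hx3
  have hln : w (l * n) < M ^ 2 := by
    rw [map_mul]
    calc w l * w n ≤ M * w n := mul_le_mul_of_nonneg_right hMl (w.nonneg _)
      _ < M * M := mul_lt_mul_of_pos_left hn hM0
      _ = M ^ 2 := (sq M).symm
  have hs : w (l ^ 2 + a1 * l - x3) ≤ M ^ 2 := by
    refine EllC.sub_le na (EllC.add_le na ?_ ?_) (by linarith)
    · rw [map_pow]
      exact pow_le_pow_left₀ (w.nonneg _) hMl 2
    · rw [map_mul, h1, one_mul]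
      linarith
  have e : x1 * x2 = -(l * n + l * n + a1 * n + a3 * l + x3 * (l ^ 2 + a1 * l - x3)) := by
    linear_combination e2 - x3 * e1
  have : w (x1 * x2) < M ^ 2 := by
    rw [e, w.map_neg]
    refine EllC.add_lt na (EllC.add_lt na (EllC.add_lt na (EllC.add_lt na hln hln) ?_) ?_) ?_
    · rw [map_mul, h1, one_mul]
      linarith
    · rw [map_mul]
      calc w a3 * w l ≤ w a3 * M := mul_le_mul_of_nonneg_left hMl (w.nonneg _)
        _ < M := mul_lt_of_lt_one_left hM0 h3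
        _ ≤ M ^ 2 := hM2
    · rw [map_mul]
      calc w x3 * w (l ^ 2 + a1 * l - x3) ≤ w x3 * M ^ 2 :=
            mul_le_mul_of_nonneg_left hs (w.nonneg _)
        _ < M ^ 2 := mul_lt_of_lt_one_left (by positivity) hx3
  rw [map_mul] at this
  linarith

theorem EllC.prod (na : IsNonarchimedean w) {a3 x1 x2 x3 y1 y2 y3 n : Λ} (h3 : w a3 < 1)
    (e3 : x1 * x2 * x3 = n * (n + a3)) (ey : y1 * y2 * y3 = n ^ 3)
    (hx1 : 1 ≤ w x1) (hx2 : 1 ≤ w x2) (hx3 : 1 ≤ w x3) :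
    w (y1 ^ 2 / x1 ^ 3 * (y2 ^ 2 / x2 ^ 3) * (y3 ^ 2 / x3 ^ 3) - 1) < 1 := by
  have hge : 1 ≤ w n * w (n + a3) := by
    rw [← map_mul, ← e3, map_mul, map_mul]
    exact one_le_mul_of_one_le_of_one_le (one_le_mul_of_one_le_of_one_le hx1 hx2) hx3
  have hn : 1 ≤ w n := by
    by_contra! hc
    have := EllC.mul_lt hc (EllC.add_lt na hc h3).le
    rw [map_mul] at this
    linarith
  have hna : w (n + a3) = w n := EllC.add_eq na (h3.trans_le hn)
  have hp : 0 < w n := one_pos.trans_le hn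
  have hn0 : n ≠ 0 := w.pos_iff.1 hp
  have hn1 : n + a3 ≠ 0 := w.pos_iff.1 (hna ▸ hp)
  have e : y1 ^ 2 / x1 ^ 3 * (y2 ^ 2 / x2 ^ 3) * (y3 ^ 2 / x3 ^ 3) = (n / (n + a3)) ^ 3 := by
    rw [div_mul_div_comm, div_mul_div_comm, ← mul_pow, ← mul_pow, ← mul_pow, ← mul_pow, e3, ey]
    field_simp
  have hr : w (n / (n + a3)) = 1 := by rw [map_div₀, hna, div_self hp.ne']
  have hr1 : w (n / (n + a3) - 1) < 1 := by
    rw [show n / (n + a3) - 1 = -(a3 / (n + a3)) by field_simp; ring, w.map_neg, map_div₀, hna,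
      div_lt_one hp]
    exact h3.trans_le hn
  have := EllC.pow_sub na hr.le (map_one w).le hr1 3
  rwa [one_pow, ← e] at this

end Aux

theorem EllC.line [DecidableEq Λ] (h : T3 C) {x1 y1 x2 y2 l x3 y3 n : Λ} (h1 : C.Equation x1 y1)
    (h2 : C.Equation x2 y2) (hxy : ¬(x1 = x2 ∧ y1 = C.negY x2 y2)) (hl : l = C.slope x1 x2 y1 y2)
    (hx : x3 = C.addX x1 x2 l) (hy : y3 = C.negAddY x1 x2 y1 l) (hn : n = y1 - l * x1) :
    y3 = l * x3 + n ∧ x1 + x2 + x3 = l ^ 2 + C.a₁ * l ∧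
      x1 * x2 + x1 * x3 + x2 * x3 = -(2 * l * n + C.a₁ * n + C.a₃ * l) ∧
      x1 * x2 * x3 = n * (n + C.a₃) ∧ y1 * y2 * y3 = n ^ 3 := by
  have key := addPolynomial_slope h1 h2 hxy
  rw [addPolynomial_eq, neg_inj, Cubic.prod_X_sub_C_eq, Cubic.toPoly_injective, ← hl, ← hx,
    h.a2, h.a4, h.a6] at key
  obtain ⟨-, kb, kc, kd⟩ := Cubic.mk.inj key
  have hy1 : y1 = l * x1 + n := by rw [hn]; ring
  have hy2 : y2 = l * x2 + n := by
    by_cases hx' : x1 = x2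
    · rw [← Y_eq_of_Y_ne h1 h2 hx' fun h' => hxy ⟨hx', h'⟩, ← hx', hy1]
    · have : l * (x1 - x2) = y1 - y2 := by
        rw [hl, slope_of_X_ne hx', div_mul_cancel₀ _ (sub_ne_zero.2 hx')]
      linear_combination hy1 + this
  have hy3 : y3 = l * x3 + n := by
    rw [hy, negAddY, ← hx, hn]
    ring
  have e1 : x1 + x2 + x3 = l ^ 2 + C.a₁ * l := by linear_combination kb
  have e2 : x1 * x2 + x1 * x3 + x2 * x3 = -(2 * l * n + C.a₁ * n + C.a₃ * l) := by
    rw [hn]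
    linear_combination -kc
  have e3 : x1 * x2 * x3 = n * (n + C.a₃) := by
    rw [hn]
    linear_combination kd
  refine ⟨hy3, e1, e2, e3, ?_⟩
  rw [hy1, hy2, hy3]
  linear_combination l ^ 3 * e3 + l ^ 2 * n * e2 + l * n ^ 2 * e1

/-- points with nonsingular reduction -/
def InE0 (w : AbsoluteValue Λ ℝ) : C.Point → Prop
  | .zero => True
  | .some x _ _ => 1 ≤ w x

/-- the multiplicative parameter -/
def uu : C.Point → Λ
  | .zero => 1
  | .some x y _ => y ^ 2 / x ^ 3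

variable [DecidableEq Λ] {w : AbsoluteValue Λ ℝ}

theorem EllC.inE0_of_inE1 {P : C.Point} (hP : InE1 w 1 P) : InE0 w P := by
  rcases P with _ | ⟨x, y, hn⟩
  · trivial
  · have : (1 : ℝ) ^ 2 < w x := hP
    rw [one_pow] at this
    exact this.le

theorem EllC.map {s : C.Point →+ C.Point} {φ : Λ →+* Λ} (hc : Compat s φ)
    (hw : ∀ a, w (φ a) = w a) {P : C.Point} (hP : InE0 w P) :
    InE0 w (s P) ∧ uu (s P) = φ (uu P) := by
  rcases P with _ | ⟨x, y, hn⟩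
  · rw [← Point.zero_def, map_zero]
    exact ⟨trivial, (map_one φ).symm⟩
  · obtain ⟨h', e⟩ := hc x y hn
    rw [e]
    refine ⟨le_of_le_of_eq hP (hw x).symm, ?_⟩
    change φ y ^ 2 / φ x ^ 3 = φ (y ^ 2 / x ^ 3)
    rw [map_div₀, map_pow, map_pow]

theorem InE0.w_uu (h : T3 C) (hs : Sz C w 1) (h1 : w C.a₁ = 1) (h3 : w C.a₃ < 1) {P : C.Point}
    (hP : InE0 w P) : w (uu P) = 1 := by
  rcases P with _ | ⟨x, y, hn⟩
  · exact map_one w
  · exact (EllC.key hs.na h1 h3 ((h.equation_iff x y).1 hn.1) hP).1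

theorem InE0.inE1_iff (h : T3 C) (hs : Sz C w 1) (h1 : w C.a₁ = 1) (h3 : w C.a₃ < 1)
    {P : C.Point} (hP : InE0 w P) : InE1 w 1 P ↔ w (uu P - 1) < 1 := by
  rcases P with _ | ⟨x, y, hn⟩
  · refine ⟨fun _ => ?_, fun _ => trivial⟩
    change w (1 - 1) < 1
    simp
  · have hk := (EllC.key hs.na h1 h3 ((h.equation_iff x y).1 hn.1) hP).2
    have hx : 1 ≤ w x := hP
    change 1 ^ 2 < w x ↔ w (y ^ 2 / x ^ 3 - 1) < 1
    have h0 := w.nonneg (y ^ 2 / x ^ 3 - 1)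
    generalize w (y ^ 2 / x ^ 3 - 1) = t at hk h0 ⊢
    rw [one_pow]
    constructor
    · intro hlt
      by_contra! hc
      nlinarith only [hk, hlt, hc, hx, one_le_pow₀ hc (n := 2)]
    · intro hlt
      refine lt_of_le_of_ne hx fun hc => ?_
      rw [← hc] at hk
      linarith only [hk, hlt, h0, mul_nonneg_of_nonpos_of_nonpos (Mathlib.Tactic.Linarith.sub_nonpos_of_le h0) (le_of_lt (Mathlib.Tactic.Linarith.sub_neg_of_lt hlt))]

theorem InE0.neg (h : T3 C) {P : C.Point} (hP : InE0 w P) :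
    InE0 w (-P) ∧ uu (-P) * uu P = 1 := by
  rcases P with _ | ⟨x, y, hn⟩
  · exact ⟨trivial, mul_one _⟩
  · refine ⟨hP, ?_⟩
    have hx : 1 ≤ w x := hP
    have hx0 : x ≠ 0 := w.pos_iff.1 (one_pos.trans_le hx)
    have he := (h.equation_iff x y).1 hn.1
    have e : C.negY x y * y = -x ^ 3 := by
      rw [negY]
      linear_combination -he
    change C.negY x y ^ 2 / x ^ 3 * (y ^ 2 / x ^ 3) = 1
    rw [div_mul_div_comm, ← mul_pow, e]
    field_simp

theorem InE0.add (h : T3 C) (hs : Sz C w 1) (h1 : w C.a₁ = 1) (h3 : w C.a₃ < 1) {P Q : C.Point}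
    (hP : InE0 w P) (hQ : InE0 w Q) : InE0 w (P + Q) ∧ w (uu (P + Q) - uu P * uu Q) < 1 := by
  rcases P with _ | ⟨x1, y1, hn1⟩
  · rw [← Point.zero_def, zero_add]
    refine ⟨hQ, ?_⟩
    change w (uu Q - 1 * uu Q) < 1
    simp
  rcases Q with _ | ⟨x2, y2, hn2⟩
  · rw [← Point.zero_def, add_zero]
    refine ⟨hP, ?_⟩
    change w (_ - _ * 1) < 1
    simp
  by_cases hxy : x1 = x2 ∧ y1 = C.negY x2 y2
  · rw [Point.add_of_Y_eq hxy.1 hxy.2]
    refine ⟨trivial, ?_⟩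
    obtain ⟨rfl, rfl⟩ := hxy
    have := (InE0.neg h hQ).2
    change w (1 - uu (-Point.some x1 y2 hn2) * _) < 1
    rw [this]
    simp
  have hn3 := nonsingular_negAdd hn1 hn2 hxy
  have hsum : Point.some x1 y1 hn1 + Point.some x2 y2 hn2 = -Point.some _ _ hn3 :=
    Point.add_some hxy
  obtain ⟨hy3, e1, e2, e3, ey⟩ := EllC.line h hn1.1 hn2.1 hxy rfl rfl rfl rfl
  have hx3 : InE0 w (Point.some _ _ hn3) :=
    EllC.closure hs.na h1 h3 ((h.equation_iff _ _).1 hn3.1) hy3 e1 e2 hP hQ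
  have hprod : w (uu (Point.some x1 y1 hn1) * uu (Point.some x2 y2 hn2) *
      uu (Point.some _ _ hn3) - 1) < 1 := EllC.prod hs.na h3 e3 ey hP hQ hx3
  obtain ⟨hneg, hinv⟩ := InE0.neg h hx3
  rw [hsum]
  refine ⟨hneg, ?_⟩
  have hw := InE0.w_uu h hs h1 h3 hneg
  generalize uu (-Point.some _ _ hn3) = v at hinv hw ⊢
  generalize uu (Point.some _ _ hn3) = u3 at hinv hprod ⊢
  generalize uu (Point.some x1 y1 hn1) * uu (Point.some x2 y2 hn2) = u at hprod ⊢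
  rw [show v - u = -((u * u3 - 1) * v) by linear_combination u * hinv, w.map_neg]
  exact EllC.mul_lt hprod hw.le

theorem InE0.nsmul (h : T3 C) (hs : Sz C w 1) (h1 : w C.a₁ = 1) (h3 : w C.a₃ < 1) {P : C.Point}
    (hP : InE0 w P) (n : ℕ) : InE0 w (n • P) ∧ w (uu (n • P) - uu P ^ n) < 1 := by
  induction n with
  | zero =>
    rw [zero_smul, pow_zero]
    refine ⟨trivial, ?_⟩
    change w (1 - 1) < 1
    simp
  | succ n ih =>
    rw [succ_nsmul]
    obtain ⟨ha, hb⟩ := InE0.add h hs h1 h3 ih.1 hP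
    refine ⟨ha, EllC.trans hs.na hb ?_⟩
    rw [pow_succ, ← sub_mul]
    exact EllC.mul_lt ih.2 (InE0.w_uu h hs h1 h3 hP).le

theorem EllC.exists_u [IsSepClosed Λ] (h : T3 C) (hs : Sz C w 1) (h1 : w C.a₁ = 1)
    (h3 : w C.a₃ < 1) {η : Λ} (hη : w η = 1) (hm : w (1 - η) = 1) :
    ∃ P : C.Point, InE0 w P ∧ w (uu P - η) < 1 := by
  have hm0 : 1 - η ≠ 0 := w.pos_iff.1 (hm ▸ one_pos)
  obtain ⟨x, hx⟩ : ∃ x : Λ, x * (1 - η) ^ 2 = η * C.a₁ ^ 2 :=
    ⟨_, div_mul_cancel₀ _ (pow_ne_zero 2 hm0)⟩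
  have hwx : w x = 1 := by
    have := congrArg w hx
    rwa [map_mul, map_mul, map_pow, map_pow, hm, hη, h1, one_pow, mul_one, mul_one] at this
  have hx0 : x ≠ 0 := w.pos_iff.1 (hwx ▸ one_pos)
  have hax : w (C.a₁ * x) = 1 := by rw [map_mul, h1, hwx, one_mul]
  have ht : w (C.a₁ * x + C.a₃) = 1 := by rw [EllC.add_eq hs.na (by rwa [hax]), hax]
  have ht0 : C.a₁ * x + C.a₃ ≠ 0 := w.pos_iff.1 (ht ▸ one_pos)
  obtain ⟨y, hy⟩ := exists_root_of_derivative
    (f := Polynomial.X ^ 2 + Polynomial.C (C.a₁ * x + C.a₃) * Polynomial.X -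
      Polynomial.C (x ^ 3)) (fun hd => ht0 (by
        have := congrArg (Polynomial.eval 0) hd
        simpa only [Polynomial.derivative_sub, Polynomial.derivative_add,
          Polynomial.derivative_X_sq, Polynomial.derivative_C_mul_X, Polynomial.derivative_C,
          Polynomial.eval_sub, Polynomial.eval_add, Polynomial.eval_mul, Polynomial.eval_X,
          Polynomial.eval_C, Polynomial.eval_zero, mul_zero, zero_add, sub_zero] using this))
  have he : y ^ 2 + C.a₁ * x * y + C.a₃ * y = x ^ 3 := by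
    simp only [Polynomial.IsRoot.def, Polynomial.eval_sub, Polynomial.eval_add,
      Polynomial.eval_mul, Polynomial.eval_pow, Polynomial.eval_X, Polynomial.eval_C] at hy
    linear_combination hy
  have hP : InE0 w (Point.some x y (h.nonsing he)) := hwx.ge
  have hu := InE0.w_uu h hs h1 h3 hP
  obtain ⟨hneg, hinv⟩ := InE0.neg h hP
  have hv := InE0.w_uu h hs h1 h3 hneg
  have e0 : uu (Point.some x y (h.nonsing he)) * x ^ 3 = y ^ 2 :=
    div_mul_cancel₀ _ (pow_ne_zero 3 hx0)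
  have key : ∀ u : Λ, u * x ^ 3 = y ^ 2 → w u = 1 → w (u - η) < 1 ∨ w (η * u - 1) < 1 := by
    intro u e0 hu
    have e1 : (u - 1) * x ^ 3 = -((C.a₁ * x + C.a₃) * y) := by linear_combination e0 + he
    have e : (u - 1) ^ 2 * x ^ 3 = u * (C.a₁ * x + C.a₃) ^ 2 := by
      refine mul_right_cancel₀ (pow_ne_zero 3 hx0) ?_
      calc (u - 1) ^ 2 * x ^ 3 * x ^ 3 = ((u - 1) * x ^ 3) ^ 2 := by ring
        _ = (C.a₁ * x + C.a₃) ^ 2 * y ^ 2 := by rw [e1]; ring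
        _ = u * (C.a₁ * x + C.a₃) ^ 2 * x ^ 3 := by rw [← e0]; ring
    have e2 : (C.a₁ * x) ^ 2 * ((u - η) * (η * u - 1)) =
        C.a₃ * (u * (1 - η) ^ 2 * (C.a₁ * x + (C.a₁ * x + C.a₃))) := by
      linear_combination (1 - η) ^ 2 * e - (u - 1) ^ 2 * x ^ 2 * hx
    have e3 : w (u - η) * w (η * u - 1) < 1 := by
      have h4 : w (C.a₃ * (u * (1 - η) ^ 2 * (C.a₁ * x + (C.a₁ * x + C.a₃)))) < 1 := by
        refine EllC.mul_lt h3 ?_
        rw [map_mul, map_mul, map_pow, hu, hm, one_pow, one_mul, one_mul]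
        exact EllC.add_le hs.na hax.le ht.le
      rwa [← e2, map_mul, map_pow, hax, one_pow, one_mul, map_mul] at h4
    by_contra! hc
    linarith only [e3, hc, one_le_mul_of_one_le_of_one_le hc.1 hc.2]
  rcases key _ e0 hu with hk | hk
  · exact ⟨_, hP, hk⟩
  · refine ⟨_, hneg, ?_⟩
    generalize uu (-Point.some x y (h.nonsing he)) = v at hinv hv ⊢
    generalize uu (Point.some x y (h.nonsing he)) = u at hinv hk ⊢
    rw [show v - η = -((η * u - 1) * v) by linear_combination η * hinv, w.map_neg]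
    exact EllC.mul_lt hk hv.le

theorem T3.exists_u [IsSepClosed Λ] (h : T3 C) (hs : Sz C w 1) (h1 : w C.a₁ = 1)
    (h3 : w C.a₃ < 1) {η : Λ} (hη : w η = 1) (hm : w (1 - η) = 1) (hp : w (1 + η) = 1) :
    ∃ P : C.Point, InE0 w P ∧ w (uu P - η) < 1 :=
  EllC.exists_u h hs h1 h3 hη hm

theorem T3.mult_point [IsSepClosed Λ] (h : T3 C) (hs : Sz C w 1) (h1 : w C.a₁ = 1)
    (h3 : w C.a₃ < 1) (j : ℕ) : ∃ P : C.Point, 3 ^ (j + 1) • P = 0 ∧ 3 ^ j • P ≠ 0 ∧
      ∀ (s : C.Point →+ C.Point) (φ : Λ →+* Λ) (Q : ℕ), Compat s φ → (∀ a, w (φ a) = w a) →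
        (∀ a, w a ≤ 1 → w (φ a - a ^ Q) < 1) → s P = Q • P := by
  have : NeZero ((3 : ℕ) : Λ) := ⟨by exact_mod_cast h.three⟩
  obtain ⟨η, hη⟩ := HasEnoughRootsOfUnity.exists_primitiveRoot Λ (3 ^ (j + 1))
  have hwη : w η = 1 := EllC.w_root (by positivity) hη.pow_eq_one
  have hne : η ^ 3 ^ j ≠ 1 :=
    hη.pow_ne_one_of_pos_of_lt (by positivity) (Nat.pow_lt_pow_right (by norm_num) j.lt_succ_self)
  have hm : w (1 - η) = 1 := by
    refine le_antisymm (EllC.sub_le hs.na (map_one w).le hwη.le) (not_lt.1 fun hc => hne ?_)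
    rw [EllC.root_eq_one hs.na hs.three _ η hη.pow_eq_one (EllC.symm hc), one_pow]
  obtain ⟨P0, hP0, hu0⟩ := EllC.exists_u h hs h1 h3 hwη hm
  have hw0 := InE0.w_uu h hs h1 h3 hP0
  obtain ⟨hN, hNu⟩ := InE0.nsmul h hs h1 h3 hP0 (3 ^ (j + 1))
  have hN1 : InE1 w 1 (3 ^ (j + 1) • P0) := by
    refine (InE0.inE1_iff h hs h1 h3 hN).2 (EllC.trans hs.na hNu ?_)
    have := EllC.pow_sub hs.na hw0.le hwη.le hu0 (3 ^ (j + 1))
    rwa [hη.pow_eq_one] at this
  obtain ⟨R, hR, hRe⟩ := InE1.div h hs hN1 (j + 1)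
  have hR0 := EllC.inE0_of_inE1 hR.neg
  obtain ⟨hP, hPu⟩ := InE0.add h hs h1 h3 hP0 hR0
  have hu : w (uu (P0 + -R) - η) < 1 := by
    refine EllC.trans hs.na (EllC.trans hs.na hPu ?_) hu0
    rw [show uu P0 * uu (-R) - uu P0 = (uu (-R) - 1) * uu P0 by ring]
    exact EllC.mul_lt ((InE0.inE1_iff h hs h1 h3 hR0).1 hR.neg) hw0.le
  have hT : 3 ^ (j + 1) • (P0 + -R) = 0 := by rw [smul_add, smul_neg, hRe, add_neg_cancel]
  generalize P0 + -R = P at hP hu hT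
  have hw := InE0.w_uu h hs h1 h3 hP
  refine ⟨P, hT, fun h0 => hne ?_, fun s φ Q hc hφ hQ => ?_⟩
  · have h4 := (InE0.nsmul h hs h1 h3 hP (3 ^ j)).2
    rw [h0] at h4
    refine EllC.root_eq_one hs.na hs.three 1 _ ?_ ?_
    · rw [← pow_mul, ← pow_add, hη.pow_eq_one]
    · exact EllC.symm (EllC.trans hs.na h4 (EllC.pow_sub hs.na hw.le hwη.le hu _))
  · obtain ⟨hs0, hsu⟩ := EllC.map hc hφ hP
    obtain ⟨hq0, hqu⟩ := InE0.nsmul h hs h1 h3 hP Q
    obtain ⟨hn0, hnu⟩ := InE0.neg h hq0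
    obtain ⟨hd0, hdu⟩ := InE0.add h hs h1 h3 hs0 hn0
    have hd1 : InE1 w 1 (s P + -(Q • P)) := by
      refine (InE0.inE1_iff h hs h1 h3 hd0).2 (EllC.trans hs.na hdu ?_)
      rw [← hnu, mul_comm (uu (-(Q • P))), ← sub_mul, hsu]
      exact EllC.mul_lt (EllC.trans hs.na (hQ _ hw.le) (EllC.symm hqu))
        (InE0.w_uu h hs h1 h3 hn0).le
    refine add_neg_eq_zero.1 (InE1.eq_zero h hs hd1 (j := j + 1) ?_)
    rw [smul_add, smul_neg, ← map_nsmul, smul_comm, hT, map_zero, smul_zero, add_neg_cancel]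

end

end Pool.Agent.Smith
end
end

-- merged part: Pool.Agent.Work.MP_60d5ce_nt.Sm.EllH
section
-- merged part: Pool.Agent.Work.MP_60d5ce_nt.Sm.TameF
section
/-!
# The tame data of `k(t)`
-/

namespace Pool.Agent.Smith

variable {k : Type} [Field k] [Fintype k] {Ω : Type} [Field Ω] [Algebra (RatFunc k) Ω]
  [Algebra k Ω] [IsScalarTower k (RatFunc k) Ω] [IsSepClosure (RatFunc k) Ω] {ζ : k}

theorem card_mod (hζ : IsPrimitiveRoot ζ 3) : Fintype.card k % 3 = 1 := by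
  have h1 : ζ ^ (Fintype.card k - 1) = 1 :=
    FiniteField.pow_card_sub_one_eq_one ζ (hζ.ne_zero (by norm_num))
  have h2 := (hζ.pow_eq_one_iff_dvd _).1 h1
  have h3 : 0 < Fintype.card k := Fintype.card_pos
  omega

theorem card_ge (hζ : IsPrimitiveRoot ζ 3) : 4 ≤ Fintype.card k := by
  have := card_mod hζ
  have h3 : 1 < Fintype.card k := Fintype.one_lt_card
  omega

/-- the tame data -/
noncomputable def tame (hζ : IsPrimitiveRoot ζ 3) (ℓ : Locs Ω ζ) : Tame (WG k Ω) (Pl k) where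
  toPre := pre ℓ
  q_mod := card_mod hζ
  q_ge := card_ge hζ
  dg_pos := pdg_pos
  dg_fin := pdg_fin
  dg_inf := rfl
  deg_σ v := (ℓ v).deg_σ
  deg_τ v := (ℓ v).deg_τ
  adm_G0 := adm_WG0
  adm_normal _ h := Adm.normal h
  adm_le _ h := Adm.le h
  adm_inf _ _ h h' := Adm.inf h h'
  adm_mono _ _ h h1 h2 h3 := Adm.mono h h1 h2 h3
  adm_index _ h := Adm.index h
  rel U h v := (ℓ v).rel U h
  fin _ h := tau_fin ℓ h
  χ := chi ℓ
  χ_hom := chi_hom hζ ℓ
  χ_self := chi_self hζ ℓ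
  χ_ne := chi_ne hζ ℓ
  χ_inf := chi_inf ℓ
  uniq := uniq_hom hζ ℓ
  recip := recip hζ ℓ
  hasse := hasse hζ ℓ
  cheb U hU N hN A hA hτ E hE hc e he J _ _ z hz θ hθ :=
    cheb hζ (card_ge hζ) ℓ U hU N hN A hA hτ E hE hc e he J z hz θ hθ
  pnt := pnt

end Pool.Agent.Smith
end

-- merged part: Pool.Agent.Work.MP_60d5ce_nt.Sm.StatA
section
/-!
# Factorisation types of polynomials over a finite field: definitions and basic counts

Hints.
* `card_dvd`: `d ↦ g * d` is a bijection from `Pn (n - deg g)` onto the multiples of `g` in `Pn n`.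
* `decomp`: for `d` of good type put `d0 = C (leadingCoeff d) * ∏ pl v ^ mult d v` over the `v` of degree
  less than `e0`, and `𝓔` the set of degrees of the other prime factors.  The sets
  `{d0 * ∏ pl (p i) | p ∈ BoxP 𝓔}` for the pairs `(d0, 𝓔)` that occur are disjoint subsets of `Pn n`,
  each in bijection with `BoxP 𝓔` (`fac_box`).
-/

namespace Pool.Agent.Smith

open scoped Classical
open Polynomial

noncomputable section

variable {k : Type} [Field k] [Fintype k]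

/-- the polynomial of a finite place -/
def pl : Pl k → k[X]
  | none => 1
  | some p => p.1

/-- the multiplicity of a place in a polynomial -/
def mult (d : k[X]) : Pl k → ℕ
  | none => 0
  | some p => multiplicity p.1 d

/-- the prime factors -/
def fac (d : k[X]) : Finset (Pl k) :=
  if h : {v | mult d v ≠ 0}.Finite then h.toFinset else ∅

variable (k) in
/-- nonzero polynomials of degree `n` -/
def Pn (n : ℕ) : Set k[X] := {d | d ≠ 0 ∧ d.natDegree = n}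

/-- good factorisation types -/
structure GT (e0 A n : ℕ) (d : k[X]) : Prop where
  one : ∀ v ∈ fac d, e0 ≤ pdg v → mult d v = 1
  inj : ∀ v ∈ fac d, ∀ v' ∈ fac d, e0 ≤ pdg v → pdg v = pdg v' → v = v'
  few : ∀ e, e0 ≤ e → 2 ^ ((fac d).filter fun v => pdg v ≤ e).card ≤ e ^ 4
  many : A ≤ ((fac d).filter fun v => n ≤ pdg v ^ 2 ∧ ¬ 3 ∣ pdg v).card

variable (k) in
/-- one finite place in each degree -/
def BoxP (𝓔 : Finset ℕ) : Set (𝓔 → Pl k) := {p | ∀ i, pdg (p i) = i ∧ p i ≠ none}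

theorem natDegree_pl {v : Pl k} (hv : v ≠ none) : (pl v).natDegree = pdg v := by
  cases v with
  | none => exact absurd rfl hv
  | some p => rfl

theorem monic_pl (v : Pl k) : (pl v).Monic := by
  cases v with
  | none => exact monic_one
  | some p => exact p.2.1

theorem StatA_ne_zero_iff (d : k[X]) (v : Pl k) : mult d v ≠ 0 ↔ v ≠ none ∧ pl v ∣ d := by
  cases v with
  | none => simp [mult]
  | some p => simp [mult, pl, multiplicity_eq_zero]

theorem StatA_fin {d : k[X]} (hd : d ≠ 0) : {v | mult d v ≠ 0}.Finite := by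
  refine ((Set.finite_Iic d.natDegree).biUnion fun e _ => pdg_fin (k := k) e).subset fun v hv => ?_
  obtain ⟨h1, h2⟩ := (StatA_ne_zero_iff d v).1 hv
  refine Set.mem_biUnion (x := pdg v) ?_ rfl
  rw [Set.mem_Iic, ← natDegree_pl h1]
  exact natDegree_le_of_dvd h2 hd

theorem mem_fac {d : k[X]} (hd : d ≠ 0) {v : Pl k} : v ∈ fac d ↔ mult d v ≠ 0 := by
  rw [fac, dif_pos (StatA_fin hd), Set.Finite.mem_toFinset]
  rfl

theorem mem_fac_iff {d : k[X]} (hd : d ≠ 0) {v : Pl k} : v ∈ fac d ↔ v ≠ none ∧ pl v ∣ d := by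
  rw [mem_fac hd, StatA_ne_zero_iff]

theorem mult_mul {a b : k[X]} (ha : a ≠ 0) (hb : b ≠ 0) (v : Pl k) :
    mult (a * b) v = mult a v + mult b v := by
  cases v with
  | none => rfl
  | some p =>
    exact multiplicity_mul p.2.2.prime
      (FiniteMultiplicity.of_prime_left p.2.2.prime (mul_ne_zero ha hb))

theorem mult_pl {v : Pl k} (hv : v ≠ none) (w : Pl k) :
    mult (pl v) w = if w = v then 1 else 0 := by
  cases v with
  | none => exact absurd rfl hv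
  | some p =>
    cases w with
    | none => simp [mult]
    | some q =>
      by_cases h : q = p
      · subst h
        rw [if_pos rfl]
        exact multiplicity_self
      · rw [if_neg (fun e => h (Option.some_injective _ e))]
        refine multiplicity_eq_zero.2 fun hd => h (Subtype.ext ?_)
        exact eq_of_monic_of_associated q.2.1 p.2.1 (q.2.2.associated_of_dvd p.2.2 hd)

theorem StatA_mult_unit {d : k[X]} (hd : IsUnit d) (v : Pl k) : mult d v = 0 := by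
  cases v with
  | none => rfl
  | some p => exact multiplicity_eq_zero.2 fun h => p.2.2.not_isUnit (isUnit_of_dvd_unit h hd)

theorem StatA_mult_prod {ι : Type} (s : Finset ι) (f : ι → k[X]) (hf : ∀ i, f i ≠ 0) (v : Pl k) :
    mult (∏ i ∈ s, f i) v = ∑ i ∈ s, mult (f i) v := by
  induction s using Finset.induction_on with
  | empty => simpa using StatA_mult_unit isUnit_one v
  | insert a s ha ih =>
    rw [Finset.prod_insert ha, Finset.sum_insert ha,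
      mult_mul (hf a) (Finset.prod_ne_zero_iff.2 fun i _ => hf i), ih]

theorem StatA_mult_pow {a : k[X]} (ha : a ≠ 0) (m : ℕ) (v : Pl k) :
    mult (a ^ m) v = m * mult a v := by
  have := StatA_mult_prod (Finset.range m) (fun _ => a) (fun _ => ha) v
  simpa using this

theorem StatA_prod (n : ℕ) : ∀ d : k[X], d ≠ 0 → d.natDegree = n → ∀ S : Finset (Pl k),
    (∀ v, mult d v ≠ 0 → v ∈ S) → d = C d.leadingCoeff * ∏ v ∈ S, pl v ^ mult d v := by
  induction n using Nat.strong_induction_on with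
  | _ n ih =>
    intro d hd hn S hS
    by_cases hu : IsUnit d
    · have h0 : d.natDegree = 0 := natDegree_eq_zero_of_isUnit hu
      simp only [StatA_mult_unit hu, pow_zero, Finset.prod_const_one, mul_one]
      rw [leadingCoeff, h0]
      exact eq_C_of_natDegree_eq_zero h0
    · obtain ⟨g, hg1, hg2, e, rfl⟩ := exists_monic_irreducible_factor d hu
      have he : e ≠ 0 := right_ne_zero_of_mul hd
      let w : Pl k := some ⟨g, hg1, hg2⟩
      have hw : w ≠ none := Option.some_ne_none _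
      have hm : ∀ v, mult (g * e) v = (if v = w then 1 else 0) + mult e v := fun v => by
        rw [← mult_pl hw v]
        exact mult_mul hg1.ne_zero he v
      have hlt : e.natDegree < n := by
        rw [← hn, natDegree_mul hg1.ne_zero he]
        have := hg2.natDegree_pos
        omega
      have h1 := ih _ hlt e he rfl S fun v hv => hS v (by rw [hm]; omega)
      have hwS : w ∈ S := hS w (by rw [hm, if_pos rfl]; omega)
      have h2 : ∏ v ∈ S, pl v ^ (if v = w then 1 else 0) = g := by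
        rw [Finset.prod_eq_single w (fun v _ hv => by rw [if_neg hv, pow_zero])
          (fun h => absurd hwS h), if_pos rfl, pow_one]
        rfl
      simp only [hm, pow_add, Finset.prod_mul_distrib, h2]
      rw [leadingCoeff_monic_mul hg1, mul_left_comm, ← h1]

theorem prod_fac {d : k[X]} (hd : d ≠ 0) :
    d = C d.leadingCoeff * ∏ v ∈ fac d, pl v ^ mult d v :=
  StatA_prod _ d hd rfl _ fun _ hv => (mem_fac hd).2 hv

theorem sum_fac {d : k[X]} (hd : d ≠ 0) : ∑ v ∈ fac d, mult d v * pdg v = d.natDegree := by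
  have h := congrArg natDegree (prod_fac hd)
  rw [natDegree_C_mul (leadingCoeff_ne_zero.2 hd),
    natDegree_prod_of_monic _ _ fun v _ => (monic_pl v).pow _] at h
  rw [h]
  refine Finset.sum_congr rfl fun v hv => ?_
  rw [natDegree_pow, natDegree_pl ((mem_fac_iff hd).1 hv).1]

theorem StatA_degreeLT (m : ℕ) :
    (degreeLT k m : Set k[X]).Finite ∧ (degreeLT k m : Set k[X]).ncard = Fintype.card k ^ m := by
  have e := (degreeLTEquiv k m).toEquiv
  refine ⟨Set.finite_coe_iff.1 (Finite.of_equiv _ e.symm), ?_⟩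
  rw [← Nat.card_coe_set_eq]
  refine (Nat.card_congr e).trans ?_
  simp

theorem StatA_Pn (n : ℕ) : Pn k n = (degreeLT k (n + 1) : Set k[X]) \ degreeLT k n := by
  ext d
  simp only [Pn, Set.mem_ofPred_eq, Set.mem_sdiff, SetLike.mem_coe, mem_degreeLT]
  by_cases hd : d = 0
  · subst hd
    simp
  · rw [degree_eq_natDegree hd, Nat.cast_lt, Nat.cast_lt]
    constructor
    · rintro ⟨_, h⟩
      omega
    · rintro ⟨h1, h2⟩
      exact ⟨hd, by omega⟩

theorem Pn_finite (n : ℕ) : (Pn k n).Finite := by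
  rw [StatA_Pn]
  exact (StatA_degreeLT (n + 1)).1.sdiff

theorem Pn_ncard (n : ℕ) : (Pn k n).ncard = (Fintype.card k - 1) * Fintype.card k ^ n := by
  have hs : (degreeLT k n : Set k[X]) ⊆ degreeLT k (n + 1) := fun d hd => by
    rw [SetLike.mem_coe, mem_degreeLT] at hd ⊢
    exact hd.trans (Nat.cast_lt.2 n.lt_succ_self)
  rw [StatA_Pn, Set.ncard_sdiff hs (StatA_degreeLT n).1, (StatA_degreeLT n).2,
    (StatA_degreeLT (n + 1)).2, Nat.sub_mul, one_mul, pow_succ']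

theorem card_dvd_eq {g : k[X]} (hg : g ≠ 0) {n : ℕ} (hn : g.natDegree ≤ n) :
    {d | d ∈ Pn k n ∧ g ∣ d}.ncard * Fintype.card k ^ g.natDegree = (Pn k n).ncard := by
  have h : {d | d ∈ Pn k n ∧ g ∣ d} = (fun e => g * e) '' Pn k (n - g.natDegree) := by
    ext d
    constructor
    · rintro ⟨⟨h0, h1⟩, e, rfl⟩
      have he : e ≠ 0 := right_ne_zero_of_mul h0
      rw [natDegree_mul hg he] at h1
      exact ⟨e, ⟨he, by omega⟩, rfl⟩
    · rintro ⟨e, ⟨he, h1⟩, rfl⟩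
      refine ⟨⟨mul_ne_zero hg he, ?_⟩, dvd_mul_right _ _⟩
      rw [natDegree_mul hg he]
      omega
  rw [h, Set.ncard_image_of_injective _ (mul_right_injective₀ hg), Pn_ncard, Pn_ncard, mul_assoc,
    ← pow_add, Nat.sub_add_cancel hn]

theorem card_dvd {g : k[X]} (hg : g ≠ 0) (n : ℕ) :
    {d | d ∈ Pn k n ∧ g ∣ d}.ncard * Fintype.card k ^ g.natDegree ≤ (Pn k n).ncard := by
  by_cases hn : g.natDegree ≤ n
  · exact (card_dvd_eq hg hn).le
  · have h : {d | d ∈ Pn k n ∧ g ∣ d} = ∅ := by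
      refine Set.eq_empty_of_forall_notMem fun d hd => hn ?_
      rw [← hd.1.2]
      exact natDegree_le_of_dvd hd.2 hd.1.1
    simp [h]

theorem BoxP_finite (𝓔 : Finset ℕ) : (BoxP k 𝓔).Finite :=
  (Set.Finite.pi' fun i : 𝓔 => pdg_fin (k := k) i).subset fun _ hp i => (hp i).1

theorem StatA_box_inj {𝓔 : Finset ℕ} {p p' : 𝓔 → Pl k} (hp : p ∈ BoxP k 𝓔) (hp' : p' ∈ BoxP k 𝓔)
    {i j : 𝓔} (h : p i = p' j) : i = j :=
  Subtype.ext (by rw [← (hp i).1, ← (hp' j).1, h])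

theorem StatA_monic {𝓔 : Finset ℕ} (p : 𝓔 → Pl k) : (∏ i, pl (p i)).Monic :=
  monic_prod_of_monic _ _ fun i _ => monic_pl (p i)

theorem StatA_mult_box {d0 : k[X]} (h0 : d0 ≠ 0) {𝓔 : Finset ℕ} {p : 𝓔 → Pl k}
    (hp : p ∈ BoxP k 𝓔) (v : Pl k) :
    mult (d0 * ∏ i, pl (p i)) v = mult d0 v + ∑ i, if v = p i then 1 else 0 := by
  rw [mult_mul h0 (StatA_monic p).ne_zero, StatA_mult_prod _ _ fun i => (monic_pl (p i)).ne_zero]
  simp only [mult_pl (hp _).2]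

theorem fac_box {e0 : ℕ} {d0 : k[X]} (h0 : d0 ≠ 0) (hs : ∀ v ∈ fac d0, pdg v < e0) {𝓔 : Finset ℕ}
    (hE : ∀ e ∈ 𝓔, e0 ≤ e) {p : 𝓔 → Pl k} (hp : p ∈ BoxP k 𝓔) :
    fac (d0 * ∏ i, pl (p i)) = fac d0 ∪ Finset.univ.image p ∧
      (∀ v ∈ fac d0, mult (d0 * ∏ i, pl (p i)) v = mult d0 v) ∧
      ∀ i, mult (d0 * ∏ i, pl (p i)) (p i) = 1 := by
  have hne : ∀ i, p i ∉ fac d0 := fun i hi => by
    have h1 := hs _ hi
    have h2 := hE i i.2
    rw [(hp i).1] at h1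
    omega
  refine ⟨?_, fun v hv => ?_, fun i => ?_⟩
  · ext v
    rw [mem_fac (mul_ne_zero h0 (StatA_monic p).ne_zero), StatA_mult_box h0 hp, Finset.mem_union,
      mem_fac h0, Finset.mem_image]
    constructor
    · intro h
      by_contra hc
      rw [not_or, not_not, not_exists] at hc
      refine h ?_
      rw [hc.1, zero_add]
      exact Finset.sum_eq_zero fun i _ => if_neg fun e => hc.2 i ⟨Finset.mem_univ _, e.symm⟩
    · rintro (h | ⟨i, _, rfl⟩)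
      · omega
      · have : (if p i = p i then 1 else 0 : ℕ) ≤ ∑ j, if p i = p j then 1 else 0 :=
          Finset.single_le_sum (f := fun j => if p i = p j then 1 else 0)
            (fun _ _ => Nat.zero_le _) (Finset.mem_univ i)
        rw [if_pos rfl] at this
        omega
  · rw [StatA_mult_box h0 hp,
      Finset.sum_eq_zero fun i _ => if_neg fun (e : v = p i) => hne i (e ▸ hv), add_zero]
  · have h1 : mult d0 (p i) = 0 := by
      by_contra h
      exact hne i ((mem_fac h0).2 h)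
    rw [StatA_mult_box h0 hp, h1, zero_add, Finset.sum_eq_single i
      (fun j _ hj => if_neg fun e => hj (StatA_box_inj hp hp e).symm)
      (fun h => absurd (Finset.mem_univ i) h), if_pos rfl]

/-- the small part of a polynomial and the degrees of its other prime factors -/
def StatA_key (e0 : ℕ) (d : k[X]) : k[X] × Finset ℕ :=
  (C d.leadingCoeff * ∏ v ∈ (fac d).filter (fun v => pdg v < e0), pl v ^ mult d v,
    ((fac d).filter fun v => ¬ pdg v < e0).image pdg)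

theorem StatA_key_ne {e0 : ℕ} {d : k[X]} (hd : d ≠ 0) : (StatA_key e0 d).1 ≠ 0 :=
  mul_ne_zero (C_ne_zero.2 (leadingCoeff_ne_zero.2 hd))
    (monic_prod_of_monic _ _ fun v _ => (monic_pl v).pow _).ne_zero

theorem StatA_key_small {e0 : ℕ} {d : k[X]} (hd : d ≠ 0) :
    ∀ v ∈ fac (StatA_key e0 d).1, pdg v < e0 := by
  intro v hv
  rw [mem_fac (StatA_key_ne hd)] at hv
  by_contra hc
  refine hv ?_
  have hC : C d.leadingCoeff ≠ 0 := C_ne_zero.2 (leadingCoeff_ne_zero.2 hd)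
  simp only [StatA_key]
  rw [mult_mul hC (monic_prod_of_monic _ _ fun v _ => (monic_pl v).pow _).ne_zero,
    StatA_mult_unit (isUnit_C.2 (leadingCoeff_ne_zero.2 hd).isUnit), zero_add,
    StatA_mult_prod _ _ fun w => ((monic_pl w).pow _).ne_zero]
  refine Finset.sum_eq_zero fun w hw => ?_
  rw [Finset.mem_filter] at hw
  rw [StatA_mult_pow (monic_pl w).ne_zero, mult_pl ((mem_fac_iff hd).1 hw.1).1,
    if_neg fun (e : v = w) => hc (e ▸ hw.2), mul_zero]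

theorem StatA_key_big {e0 : ℕ} (d : k[X]) : ∀ e ∈ (StatA_key e0 d).2, e0 ≤ e := by
  intro e he
  obtain ⟨v, hv, rfl⟩ := Finset.mem_image.1 he
  exact not_lt.1 (Finset.mem_filter.1 hv).2

theorem StatA_key_ex {e0 A n : ℕ} {d : k[X]} (hd : d ≠ 0) (hG : GT e0 A n d) :
    ∃ p ∈ BoxP k (StatA_key e0 d).2, d = (StatA_key e0 d).1 * ∏ i, pl (p i) := by
  have hex : ∀ i : (StatA_key e0 d).2, ∃ v ∈ (fac d).filter fun v => ¬ pdg v < e0, pdg v = i :=
    fun i => Finset.mem_image.1 i.2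
  choose p hp1 hp2 using hex
  have hbox : p ∈ BoxP k (StatA_key e0 d).2 := fun i =>
    ⟨hp2 i, ((mem_fac_iff hd).1 (Finset.mem_filter.1 (hp1 i)).1).1⟩
  refine ⟨p, hbox, ?_⟩
  have h1 : ∏ i, pl (p i) = ∏ v ∈ (fac d).filter (fun v => ¬ pdg v < e0), pl v ^ mult d v := by
    refine Finset.prod_bij (fun i _ => p i) (fun i _ => hp1 i)
      (fun i _ j _ h => StatA_box_inj hbox hbox h) (fun v hv => ?_) (fun i _ => ?_)
    · refine ⟨⟨pdg v, Finset.mem_image_of_mem _ hv⟩, Finset.mem_univ _, ?_⟩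
      have h2 := Finset.mem_filter.1 hv
      have h3 := Finset.mem_filter.1 (hp1 ⟨pdg v, Finset.mem_image_of_mem _ hv⟩)
      exact hG.inj _ h3.1 _ h2.1 (not_lt.1 h3.2) (hp2 _)
    · have h3 := Finset.mem_filter.1 (hp1 i)
      rw [hG.one _ h3.1 (not_lt.1 h3.2), pow_one]
  rw [h1]
  simp only [StatA_key]
  rw [mul_assoc, Finset.prod_filter_mul_prod_filter_not]
  exact prod_fac hd

theorem StatA_key_box {e0 : ℕ} {d0 : k[X]} (h0 : d0 ≠ 0) (hs : ∀ v ∈ fac d0, pdg v < e0)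
    {𝓔 : Finset ℕ} (hE : ∀ e ∈ 𝓔, e0 ≤ e) {p : 𝓔 → Pl k} (hp : p ∈ BoxP k 𝓔) :
    StatA_key e0 (d0 * ∏ i, pl (p i)) = (d0, 𝓔) := by
  obtain ⟨h1, h2, _⟩ := fac_box h0 hs hE hp
  have hbig : ∀ i, ¬ pdg (p i) < e0 := fun i => by
    rw [(hp i).1]
    exact not_lt.2 (hE i i.2)
  have h3 : (fac (d0 * ∏ i, pl (p i))).filter (fun v => pdg v < e0) = fac d0 := by
    ext v
    rw [Finset.mem_filter, h1, Finset.mem_union, Finset.mem_image]
    constructor
    · rintro ⟨h | ⟨i, _, rfl⟩, h'⟩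
      · exact h
      · exact absurd h' (hbig i)
    · exact fun h => ⟨Or.inl h, hs v h⟩
  refine Prod.ext ?_ ?_
  · simp only [StatA_key]
    rw [h3, leadingCoeff_mul_monic (StatA_monic p), Finset.prod_congr rfl fun v hv => by rw [h2 v hv]]
    exact (prod_fac h0).symm
  · simp only [StatA_key]
    ext e
    rw [Finset.mem_image]
    constructor
    · rintro ⟨v, hv, rfl⟩
      rw [Finset.mem_filter, h1, Finset.mem_union, Finset.mem_image] at hv
      obtain ⟨h | ⟨i, _, rfl⟩, h'⟩ := hv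
      · exact absurd (hs v h) h'
      · rw [(hp i).1]
        exact i.2
    · intro he
      refine ⟨p ⟨e, he⟩, ?_, (hp ⟨e, he⟩).1⟩
      rw [Finset.mem_filter, h1]
      exact ⟨Finset.mem_union_right _ (Finset.mem_image_of_mem _ (Finset.mem_univ _)), hbig _⟩

theorem StatA_deg_box {d0 : k[X]} (h0 : d0 ≠ 0) {𝓔 : Finset ℕ} {p : 𝓔 → Pl k}
    (hp : p ∈ BoxP k 𝓔) : (d0 * ∏ i, pl (p i)).natDegree = d0.natDegree + ∑ i : 𝓔, (i : ℕ) := by
  rw [natDegree_mul h0 (StatA_monic p).ne_zero,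
    natDegree_prod_of_monic _ _ fun i _ => monic_pl (p i)]
  simp only [natDegree_pl (hp _).2, (hp _).1]

theorem StatA_injOn {e0 : ℕ} {d0 : k[X]} (h0 : d0 ≠ 0) (hs : ∀ v ∈ fac d0, pdg v < e0)
    {𝓔 : Finset ℕ} (hE : ∀ e ∈ 𝓔, e0 ≤ e) :
    Set.InjOn (fun p : 𝓔 → Pl k => d0 * ∏ i, pl (p i)) (BoxP k 𝓔) := by
  intro p hp p' hp' h
  funext i
  have h1 : p i ∈ fac (d0 * ∏ i, pl (p i)) := by
    rw [(fac_box h0 hs hE hp).1]
    exact Finset.mem_union_right _ (Finset.mem_image_of_mem _ (Finset.mem_univ _))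
  have h' : d0 * ∏ i, pl (p i) = d0 * ∏ i, pl (p' i) := h
  rw [h', (fac_box h0 hs hE hp').1, Finset.mem_union, Finset.mem_image] at h1
  obtain h2 | ⟨j, _, h2⟩ := h1
  · have h3 := hs _ h2
    have h4 := hE i i.2
    rw [(hp i).1] at h3
    omega
  · rw [← h2, StatA_box_inj hp' hp h2]

theorem decomp (e0 A n : ℕ) (Bad : k[X] → Prop) {ε : ℝ} (hε : 0 ≤ ε)
    (h : ∀ (d0 : k[X]) (𝓔 : Finset ℕ), d0 ≠ 0 → (∀ v ∈ fac d0, pdg v < e0) → (∀ e ∈ 𝓔, e0 ≤ e) →
      (∃ p ∈ BoxP k 𝓔, (d0 * ∏ i, pl (p i)).natDegree = n ∧ GT e0 A n (d0 * ∏ i, pl (p i))) →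
      ({p | p ∈ BoxP k 𝓔 ∧ Bad (d0 * ∏ i, pl (p i))}.ncard : ℝ) ≤ ε * (BoxP k 𝓔).ncard) :
    ({d | d ∈ Pn k n ∧ GT e0 A n d ∧ Bad d}.ncard : ℝ) ≤ ε * (Pn k n).ncard := by
  set P := (Pn_finite (k := k) n).toFinset with hP
  have hmem : ∀ d, d ∈ P ↔ d ∈ Pn k n := fun d => Set.Finite.mem_toFinset _
  set B := P.filter fun d => GT e0 A n d ∧ Bad d with hB
  set K := B.image (StatA_key e0) with hK
  have e1 : {d | d ∈ Pn k n ∧ GT e0 A n d ∧ Bad d} = (B : Set k[X]) := by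
    ext d
    rw [Finset.mem_coe, Finset.mem_filter, hmem]
    rfl
  have e2 : (Pn k n).ncard = P.card := Set.ncard_eq_toFinset_card _ _
  have e3 : B.card = ∑ κ ∈ K, (B.filter fun d => StatA_key e0 d = κ).card :=
    Finset.card_eq_sum_card_fiberwise fun d hd => Finset.mem_image_of_mem _ hd
  have e4 : ∑ κ ∈ K, (P.filter fun d => StatA_key e0 d = κ).card ≤ P.card := by
    rw [Finset.sum_card_fiberwise_eq_card_filter]
    exact Finset.card_filter_le _ _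
  have key : ∀ κ ∈ K, ((B.filter fun d => StatA_key e0 d = κ).card : ℝ) ≤
      ε * (P.filter fun d => StatA_key e0 d = κ).card := by
    intro κ hκ
    obtain ⟨d, hd, rfl⟩ := Finset.mem_image.1 hκ
    obtain ⟨hdP, hdG, _⟩ := Finset.mem_filter.1 hd
    obtain ⟨hd0, hdn⟩ := (hmem d).1 hdP
    have h0 := StatA_key_ne (e0 := e0) hd0
    have hs := StatA_key_small (e0 := e0) hd0
    have hE := StatA_key_big (e0 := e0) d
    obtain ⟨p, hp, hdp⟩ := StatA_key_ex hd0 hdG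
    have h1 := h _ _ h0 hs hE ⟨p, hp, hdp ▸ hdn, hdp ▸ hdG⟩
    have h2 : (B.filter fun d' => StatA_key e0 d' = StatA_key e0 d).card ≤
        {p | p ∈ BoxP k (StatA_key e0 d).2 ∧ Bad ((StatA_key e0 d).1 * ∏ i, pl (p i))}.ncard := by
      rw [← Set.ncard_coe_finset]
      refine (Set.ncard_le_ncard ?_ (((BoxP_finite _).subset fun _ hq => hq.1).image
        fun p => (StatA_key e0 d).1 * ∏ i, pl (p i))).trans
        (Set.ncard_image_le ((BoxP_finite _).subset fun _ hq => hq.1))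
      intro d' hd'
      obtain ⟨hd1, hd2⟩ := Finset.mem_filter.1 (Finset.mem_coe.1 hd')
      obtain ⟨hd3, hd4, hd5⟩ := Finset.mem_filter.1 hd1
      have h3 := StatA_key_ex ((hmem d').1 hd3).1 hd4
      rw [hd2] at h3
      obtain ⟨q, hq, hdq⟩ := h3
      exact ⟨q, ⟨hq, hdq ▸ hd5⟩, hdq.symm⟩
    have h3 : (BoxP k (StatA_key e0 d).2).ncard ≤
        (P.filter fun d' => StatA_key e0 d' = StatA_key e0 d).card := by
      rw [← Set.ncard_coe_finset, ← (StatA_injOn h0 hs hE).ncard_image]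
      refine Set.ncard_le_ncard ?_ (Finset.finite_toSet _)
      rintro _ ⟨q, hq, rfl⟩
      refine Finset.mem_coe.2 (Finset.mem_filter.2 ⟨(hmem _).2
        ⟨mul_ne_zero h0 (StatA_monic q).ne_zero, ?_⟩, StatA_key_box h0 hs hE hq⟩)
      rw [StatA_deg_box h0 hq, ← StatA_deg_box h0 hp, ← hdp, hdn]
    exact (Nat.cast_le.2 h2).trans (h1.trans (mul_le_mul_of_nonneg_left (Nat.cast_le.2 h3) hε))
  rw [e1, Set.ncard_coe_finset, e2, e3, Nat.cast_sum]
  refine (Finset.sum_le_sum key).trans ?_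
  rw [← Finset.mul_sum, ← Nat.cast_sum]
  exact mul_le_mul_of_nonneg_left (Nat.cast_le.2 e4) hε

end

end Pool.Agent.Smith
end

-- merged part: Pool.Agent.Work.MP_60d5ce_nt.Sm.EllDef
section
/-!
# The curve over `k(t)`: definitions, local facts

Hints.
* `tors_range`: the image of `E(Ω)[3]` has nine elements (`t1`, `t2`, `indep`), so is all of `E(Λ)[3]`
  (`card_three`, or `span` with the images of `δ`, `ζ`); induction with `exists_third`.
* `Loc.w_base`: `aeval_tt_base`, `aeval_tt_map`, `Loc.w_poly`; the root `x` of the separable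
  polynomial `pl v` has multiplicity `mult p v` in `p`.
* `Loc.tb_base`: an integral element of `L` is congruent to `ι c` (`Λ_res`) with `c ^ Q = c`
  (`σh_res`, `w_const`), finitely many classes; choose representatives in `L`, divide by an element
  of `F` of size `1 / 2`, iterate (`L_disc`).
* `Loc.tb`: if all `s` fix `ι δ` then `a ∈ L`.  Otherwise pick `s` with `s (ι δ) = ζ ι δ`; the resolvents
  `a + ζ ^ (-i) s a + ζ ^ (-2 i) s ^ 2 a` are `l i * ι δ ^ i` with `l i ∈ L` of bounded size, and their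
  sum is `3 a`.
* `Loc.exists_res`: `Ω` is normal over `F` (`AlgHom.restrictNormal'`, or `exists_conj` of `Asc/Basic`).
-/

namespace Pool.Agent.Smith

open scoped Classical
open Polynomial WeierstrassCurve WeierstrassCurve.Affine Pool.Agent.ShaAsc

noncomputable section

variable {k : Type} [Field k]

/-- the curve `y ^ 2 + a1 x y + a3 y = x ^ 3` over `k(t)` -/
def EC (a1 a3 : k[X]) : WeierstrassCurve (RatFunc k) :=
  ⟨algebraMap k[X] (RatFunc k) a1, 0, algebraMap k[X] (RatFunc k) a3, 0, 0⟩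

/-- the hypotheses on the coefficients -/
structure Hyp (a1 a3 : k[X]) : Prop where
  a3_ne : a3 ≠ 0
  mul3 : ∃ P : k[X], Irreducible P ∧ ¬ P ∣ a1 ∧ ¬ 3 ∣ multiplicity P a3
  ncD : ∀ (c : k) (p : k[X]), a1 ^ 3 - 27 * a3 ≠ C c * p ^ 3

variable {a1 a3 : k[X]}

theorem Hyp.D_ne (h : Hyp a1 a3) : a1 ^ 3 - 27 * a3 ≠ 0 := by
  intro h0
  exact h.ncD 0 0 (by rw [h0]; simp)

theorem three_ne {ζ : k} (hζ : IsPrimitiveRoot ζ 3) : (3 : k) ≠ 0 := by
  exact_mod_cast hζ.neZero'.out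

section ext

variable {Λ : Type} [Field Λ] [Algebra (RatFunc k) Λ]

theorem EC_a1 : ((EC a1 a3).toAffine.baseChange Λ).a₁ =
    algebraMap (RatFunc k) Λ (algebraMap k[X] (RatFunc k) a1) := by
  rfl

theorem EC_a3 : ((EC a1 a3).toAffine.baseChange Λ).a₃ =
    algebraMap (RatFunc k) Λ (algebraMap k[X] (RatFunc k) a3) := by
  rfl

theorem EllDef_inj {p : k[X]} (hp : p ≠ 0) :
    algebraMap (RatFunc k) Λ (algebraMap k[X] (RatFunc k) p) ≠ 0 :=
  (map_ne_zero_iff _ (algebraMap (RatFunc k) Λ).injective).2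
    ((map_ne_zero_iff _ (RatFunc.algebraMap_injective k)).2 hp)

theorem EllDef_disc : ((EC a1 a3).toAffine.baseChange Λ).a₁ ^ 3 -
    27 * ((EC a1 a3).toAffine.baseChange Λ).a₃ =
      algebraMap (RatFunc k) Λ (algebraMap k[X] (RatFunc k) (a1 ^ 3 - 27 * a3)) := by
  rw [EC_a1, EC_a3]
  simp only [map_sub, map_pow, map_mul, map_ofNat]

theorem EllDef_three (h3 : (3 : k) ≠ 0) : (3 : Λ) ≠ 0 := by
  have h : (C (3 : k) : k[X]) ≠ 0 := C_ne_zero.2 h3
  have := EllDef_inj (Λ := Λ) h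
  rwa [map_ofNat, map_ofNat, map_ofNat] at this

theorem Hyp.t3 (h : Hyp a1 a3) (h3 : (3 : k) ≠ 0) : T3 ((EC a1 a3).toAffine.baseChange Λ) := by
  refine ⟨map_zero (algebraMap (RatFunc k) Λ), map_zero (algebraMap (RatFunc k) Λ),
    map_zero (algebraMap (RatFunc k) Λ), ?_, ?_, EllDef_three h3⟩
  · rw [EC_a3]
    exact EllDef_inj h.a3_ne
  · rw [EllDef_disc]
    exact EllDef_inj h.D_ne

theorem compat_act [DecidableEq Λ] {L : Type} [Field L] [Algebra (RatFunc k) L] [Algebra L Λ]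
    [IsScalarTower (RatFunc k) L Λ] (s : Λ ≃ₐ[L] Λ) :
    Compat (act (EC a1 a3) s) (s : Λ →+* Λ) := by
  intro x y h
  exact ⟨_, rfl⟩

theorem EllDef_tors (h : Hyp a1 a3) (h3 : (3 : k) ≠ 0) {Ω : Type} [Field Ω]
    [Algebra (RatFunc k) Ω] [IsSepClosed Ω] [DecidableEq Ω] [DecidableEq Λ]
    (ι : Ω →ₐ[RatFunc k] Λ) {y : Pts (EC a1 a3) Λ} (hy : 3 • y = 0) :
    ∃ P : Pts (EC a1 a3) Ω, Point.map (W' := (EC a1 a3).toAffine) ι P = y := by
  have t := h.t3 (Λ := Ω) h3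
  have t' := h.t3 (Λ := Λ) h3
  obtain ⟨z, hz⟩ := exists_root_of_derivative (Λ := Ω) (f := X ^ 2 + X + 1) (by
    intro h0
    have := congrArg (fun p => coeff p 0) h0
    simp at this)
  obtain ⟨δ, hδ⟩ := exists_root_of_derivative (Λ := Ω)
    (f := X ^ 3 - C (((EC a1 a3).toAffine.baseChange Ω).a₁ ^ 3 -
      27 * ((EC a1 a3).toAffine.baseChange Ω).a₃)) (by
    intro h0
    have := congrArg (fun p => coeff p 2) h0
    simp only [derivative_sub, derivative_X_pow, derivative_C, sub_zero, coeff_C_mul,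
      coeff_X_pow, coeff_zero] at this
    exact t.three (by simpa using this))
  have hz : z ^ 2 + z + 1 = 0 := by simpa using hz
  have hδ : δ ^ 3 = ((EC a1 a3).toAffine.baseChange Ω).a₁ ^ 3 -
      27 * ((EC a1 a3).toAffine.baseChange Ω).a₃ := by
    have := hδ
    rw [IsRoot, eval_sub, eval_pow, eval_X, eval_C, sub_eq_zero] at this
    exact this
  have e1 : ι ((EC a1 a3).toAffine.baseChange Ω).a₁ = ((EC a1 a3).toAffine.baseChange Λ).a₁ := by
    rw [EC_a1, EC_a1, AlgHom.commutes]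
  have hz' : ι z ^ 2 + ι z + 1 = 0 := by
    have := congrArg ι hz
    simpa using this
  have hδ' : ι δ ^ 3 = ((EC a1 a3).toAffine.baseChange Λ).a₁ ^ 3 -
      27 * ((EC a1 a3).toAffine.baseChange Λ).a₃ := by
    rw [← map_pow, hδ, EllDef_disc, EllDef_disc, AlgHom.commutes]
  obtain ⟨a, b, rfl⟩ := t'.span hδ' hz' hy
  refine ⟨a • t.t1 + b • t.t2 hδ hz, ?_⟩
  rw [map_add, map_zsmul, map_zsmul]
  congr 2
  · unfold T3.t1
    rw [Point.map_some]
    congr 1 <;> exact map_zero ι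
  · unfold T3.t2
    rw [Point.map_some]
    congr 1 <;> simp only [map_div₀, map_neg, map_add, map_mul, map_pow, map_sub, map_ofNat, e1]

theorem tors_range (h : Hyp a1 a3) (h3 : (3 : k) ≠ 0) {Ω : Type} [Field Ω] [Algebra (RatFunc k) Ω]
    [IsSepClosed Ω] [DecidableEq Ω] [DecidableEq Λ] (ι : Ω →ₐ[RatFunc k] Λ) {j : ℕ}
    {y : Pts (EC a1 a3) Λ} (hy : 3 ^ j • y = 0) :
    ∃ P : Pts (EC a1 a3) Ω, Point.map (W' := (EC a1 a3).toAffine) ι P = y := by
  induction j generalizing y with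
  | zero =>
    rw [pow_zero, one_nsmul] at hy
    exact ⟨0, by rw [hy, map_zero]⟩
  | succ j ih =>
    rw [pow_succ, mul_nsmul'] at hy
    obtain ⟨P, hP⟩ := ih hy
    obtain ⟨R, rfl⟩ := (h.t3 (Λ := Ω) h3).exists_third P
    obtain ⟨Q, hQ⟩ := EllDef_tors h h3 ι
      (y := y - Point.map (W' := (EC a1 a3).toAffine) ι R) (by
        rw [smul_sub, ← hP, map_nsmul, sub_self])
    exact ⟨Q + R, by rw [map_add, hQ, sub_add_cancel]⟩

end ext

variable [Fintype k]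

theorem exists_mult {p : k[X]} (h : ∀ (c : k) (r : k[X]), p ≠ C c * r ^ 3) :
    ∃ v : Pl k, v ≠ none ∧ ¬ 3 ∣ mult p v := by
  have hp : p ≠ 0 := fun h0 => h 0 0 (by simp [h0])
  by_contra hc
  push Not at hc
  have hc' : ∀ v : Pl k, 3 ∣ mult p v := fun v => by
    by_cases hv : v = none
    · rw [hv]
      exact dvd_zero 3
    · exact hc v hv
  choose m hm using hc'
  refine h p.leadingCoeff (∏ v ∈ fac p, pl v ^ m v) ?_
  conv_lhs => rw [StatA_prod _ p hp rfl (fac p) fun v hv => (mem_fac hp).2 hv]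
  rw [← Finset.prod_pow]
  congr 1
  exact Finset.prod_congr rfl fun v _ => by rw [hm v, ← pow_mul, mul_comm]

omit [Fintype k] in
theorem exists_pl {P : k[X]} (hP : Irreducible P) :
    ∃ v : Pl k, v ≠ none ∧ Associated P (pl v) := by
  have h := associated_normalize P
  exact ⟨some ⟨normalize P, monic_normalize hP.ne_zero, h.irreducible hP⟩,
    Option.some_ne_none _, h⟩

omit [Fintype k] in
theorem mult_eq {P : k[X]} {v : Pl k} (hv : v ≠ none) (h : Associated P (pl v)) (p : k[X]) :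
    mult p v = multiplicity P p := by
  obtain ⟨q, rfl⟩ := Option.ne_none_iff_exists'.1 hv
  exact multiplicity_eq_of_associated_left h

omit [Fintype k] in
theorem Hyp.exists_pl (h : Hyp a1 a3) :
    ∃ v : Pl k, v ≠ none ∧ ¬ pl v ∣ a1 ∧ ¬ 3 ∣ mult a3 v := by
  obtain ⟨P, hP, h1, h3⟩ := h.mul3
  obtain ⟨v, hv, e⟩ := Smith.exists_pl hP
  exact ⟨v, hv, fun hd => h1 (e.dvd.trans hd), by rwa [mult_eq hv e]⟩

variable {Ω : Type} [Field Ω] [Algebra (RatFunc k) Ω] [Algebra k Ω]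
  [IsScalarTower k (RatFunc k) Ω] [IsSepClosure (RatFunc k) Ω] {ζ : k} {v : Pl k}

theorem Loc.w_base (l : Loc Ω ζ v) (hv : v ≠ none) {p : k[X]} (hp : p ≠ 0) :
    l.w (algebraMap (RatFunc k) Ω (algebraMap k[X] (RatFunc k) p)) = 2 ^ (-(mult p v : ℤ)) := by
  obtain ⟨q, rfl⟩ := Option.ne_none_iff_exists'.1 hv
  have key : ∀ r : k[X], r ≠ 0 →
      l.w (algebraMap (RatFunc k) Ω (algebraMap k[X] (RatFunc k) r)) =
        2 ^ (-((r.map (algebraMap k (Kb k Ω))).rootMultiplicity l.x : ℤ)) := fun r hr => by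
    rw [← aeval_tt_base, ← aeval_tt_map]
    exact l.w_poly hv (Polynomial.map_ne_zero hr)
  have hfin : FiniteMultiplicity q.1 p :=
    finiteMultiplicity_of_degree_pos_of_monic (degree_pos_of_irreducible q.2.2) q.2.1 hp
  obtain ⟨r, hr, hqr⟩ := hfin.exists_eq_pow_mul_and_not_dvd
  have hr0 : r ≠ 0 := fun h0 => hqr (h0 ▸ dvd_zero _)
  have h1 : (q.1.map (algebraMap k (Kb k Ω))).rootMultiplicity l.x = 1 := by
    have hs : (q.1.map (algebraMap k (Kb k Ω))).Separable :=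
      (PerfectField.separable_of_irreducible q.2.2).map
    have ha := rootMultiplicity_le_one_of_separable hs l.x
    have hb : 0 < (q.1.map (algebraMap k (Kb k Ω))).rootMultiplicity l.x := by
      rw [rootMultiplicity_pos (Polynomial.map_ne_zero q.2.1.ne_zero), IsRoot, eval_map_algebraMap]
      exact l.root q rfl
    omega
  have h2 : (r.map (algebraMap k (Kb k Ω))).rootMultiplicity l.x = 0 := by
    refine rootMultiplicity_eq_zero ?_
    rw [IsRoot, eval_map_algebraMap]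
    intro h0
    exact hqr (by rw [galloc_min l]; exact minpoly.dvd k l.x h0)
  have e : mult p (some q) = multiplicity q.1 p := rfl
  rw [e]
  generalize multiplicity q.1 p = m at hr
  rw [hr, map_mul, map_mul, map_mul, map_pow, map_pow, map_pow, key _ q.2.1.ne_zero, key _ hr0, h1,
    h2, ← zpow_natCast, ← zpow_mul]
  simp

theorem Loc.wΛ_base (l : Loc Ω ζ v) (a : RatFunc k) :
    l.wΛ (algebraMap (RatFunc k) l.Λ a) = l.w (algebraMap (RatFunc k) Ω a) := by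
  rw [Loc.w_apply, AlgHom.commutes]

theorem Loc.w_three (hζ : IsPrimitiveRoot ζ 3) (l : Loc Ω ζ v) : l.w 3 = 1 ∧ l.wΛ 3 = 1 := by
  have h3 : (3 : Kb k Ω) ≠ 0 := by
    have := (map_ne_zero_iff _ (algebraMap k (Kb k Ω)).injective).2 (three_ne hζ)
    rwa [map_ofNat] at this
  have h := l.w_const 3 h3
  have e : ((3 : Kb k Ω) : Ω) = 3 := rfl
  rw [e] at h
  refine ⟨h, ?_⟩
  rwa [map_ofNat] at h

omit [IsSepClosure (RatFunc k) Ω] in
theorem Loc.EllDef_norm (l : Loc Ω ζ v) (a : l.L) : l.wΛ (algebraMap l.L l.Λ a) = ‖a‖ := by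
  rw [l.wΛ_eq, spectralNorm_extends]

theorem Loc.nontriv (l : Loc Ω ζ v) :
    ∃ a : RatFunc k, a ≠ 0 ∧ ‖algebraMap (RatFunc k) l.L a‖ = 2⁻¹ := by
  have key : ∀ a : RatFunc k, ‖algebraMap (RatFunc k) l.L a‖ =
      l.w (algebraMap (RatFunc k) Ω a) := fun a => by
    rw [← l.EllDef_norm, ← IsScalarTower.algebraMap_apply, l.wΛ_base]
  cases v with
  | none =>
    refine ⟨RatFunc.X⁻¹, inv_ne_zero RatFunc.X_ne_zero, ?_⟩
    rw [key, map_inv₀]
    exact l.w_unif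
  | some q =>
    refine ⟨algebraMap k[X] (RatFunc k) q.1,
      (map_ne_zero_iff _ (RatFunc.algebraMap_injective k)).2 q.2.1.ne_zero, ?_⟩
    have hv : (some q : Pl k) ≠ none := Option.some_ne_none _
    have := mult_pl hv (some q)
    rw [if_pos rfl] at this
    have e : mult q.1 (some q) = 1 := this
    rw [key, l.w_base hv q.2.1.ne_zero, e]
    simp

theorem Loc.exists_res (l : Loc Ω ζ v) (s : l.Λ ≃ₐ[l.L] l.Λ) :
    ∃ g : Gam k Ω, ∀ a, l.ι (g a) = s (l.ι a) := by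
  exact exists_conj (K := RatFunc k) l.ι (((s.restrictScalars (RatFunc k)) : l.Λ →ₐ[_] l.Λ).comp l.ι)
    fun x => by rw [AlgHom.commutes, AlgHom.commutes]

theorem Loc.exists_lift (l : Loc Ω ζ v) {g : WG k Ω}
    (hg : g ∈ Subgroup.closure ({l.σ, l.τ} : Set (WG k Ω))) :
    ∃ s : l.Λ ≃ₐ[l.L] l.Λ, ∀ a, l.ι (gal g a) = s (l.ι a) := by
  induction hg using Subgroup.closure_induction with
  | mem x hx =>
    rcases hx with rfl | rfl
    · exact ⟨l.σh, l.ι_σ⟩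
    · exact ⟨l.τh, l.ι_τ⟩
  | one => exact ⟨1, fun a => by simp⟩
  | mul x y _ _ hx hy =>
    obtain ⟨s, hs⟩ := hx
    obtain ⟨t, ht⟩ := hy
    exact ⟨s * t, fun a => by rw [map_mul, AlgEquiv.mul_apply, hs, ht, AlgEquiv.mul_apply]⟩
  | inv x _ hx =>
    obtain ⟨s, hs⟩ := hx
    refine ⟨s⁻¹, fun a => ?_⟩
    rw [AlgEquiv.aut_inv, eq_comm, AlgEquiv.symm_apply_eq, ← hs, ← AlgEquiv.mul_apply, ← map_mul,
      mul_inv_cancel, map_one, AlgEquiv.one_apply]

theorem Loc.EllDef_res (l : Loc Ω ζ v) :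
    ∃ Cs : Finset l.L, ∀ a : l.L, ‖a‖ ≤ 1 → ∃ c ∈ Cs, ‖a - c‖ ≤ 2⁻¹ := by
  set Q := Fintype.card k ^ pdg v with hQ
  have hQ1 : 1 < Q := Nat.one_lt_pow (pdg_pos v).ne' Fintype.one_lt_card
  have hf : (X ^ Q - X : (Kb k Ω)[X]) ≠ 0 := FiniteField.X_pow_card_sub_X_ne_zero _ hQ1
  have hrep : ∀ c : Kb k Ω, ∃ r : l.L, (∃ a : l.L, l.wΛ (algebraMap l.L l.Λ a - l.ι c) < 1) →
      l.wΛ (algebraMap l.L l.Λ r - l.ι c) < 1 := fun c => by
    by_cases h : ∃ a : l.L, l.wΛ (algebraMap l.L l.Λ a - l.ι c) < 1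
    · obtain ⟨a, ha⟩ := h
      exact ⟨a, fun _ => ha⟩
    · exact ⟨0, fun h' => absurd h' h⟩
  choose r hr using hrep
  refine ⟨(X ^ Q - X : (Kb k Ω)[X]).roots.toFinset.image r, fun a ha => ?_⟩
  have ha' : l.wΛ (algebraMap l.L l.Λ a) ≤ 1 := by rwa [l.EllDef_norm]
  obtain ⟨c, hc⟩ := l.Λ_res _ ha'
  have hc1 : l.wΛ (l.ι c) ≤ 1 := by
    by_cases h0 : c = 0
    · simp [h0]
    · exact (l.w_const c h0).le
  have h1 := l.σh_res _ ha'
  rw [AlgEquiv.commutes] at h1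
  have h2 := EllC.pow_sub l.wΛ_na ha' hc1 hc Q
  have h3 := EllC.trans l.wΛ_na (EllC.trans l.wΛ_na (EllC.symm hc) h1) h2
  have h4 : c - c ^ Q = 0 := by
    by_contra h0
    have := l.w_const _ h0
    push_cast at this
    rw [map_sub, map_pow] at this
    exact absurd this h3.ne
  refine ⟨r c, Finset.mem_image_of_mem r ?_, ?_⟩
  · rw [Multiset.mem_toFinset, mem_roots hf, IsRoot, eval_sub, eval_pow, eval_X]
    linear_combination -h4
  · have h5 := EllC.trans l.wΛ_na hc (EllC.symm (hr c ⟨a, hc⟩))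
    rw [← map_sub, l.EllDef_norm] at h5
    by_cases h0 : a - r c = 0
    · rw [h0, norm_zero]
      positivity
    · obtain ⟨n, hn⟩ := l.L_disc _ h0
      rw [hn] at h5 ⊢
      have : n < 0 := (zpow_lt_one_iff_right₀ (by norm_num : (1 : ℝ) < 2)).1 h5
      rw [← zpow_neg_one]
      exact zpow_le_zpow_right₀ (by norm_num) (by omega)

theorem Loc.EllDef_iter (l : Loc Ω ζ v) (n : ℕ) :
    ∃ Cs : Finset l.L, ∀ a : l.L, ‖a‖ ≤ 1 → ∃ c ∈ Cs, ‖a - c‖ ≤ 2⁻¹ ^ n := by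
  obtain ⟨u, -, hu⟩ := l.nontriv
  generalize algebraMap (RatFunc k) l.L u = π at hu
  have hπ : π ≠ 0 := fun h0 => by simp [h0] at hu
  obtain ⟨C1, h1⟩ := l.EllDef_res
  induction n with
  | zero => exact ⟨{0}, fun a ha => ⟨0, by simp, by simpa using ha⟩⟩
  | succ n ih =>
    obtain ⟨Cn, hn⟩ := ih
    refine ⟨(C1 ×ˢ Cn).image fun z => z.1 + π * z.2, fun a ha => ?_⟩
    obtain ⟨c, hc, hc'⟩ := h1 a ha
    obtain ⟨d, hd, hd'⟩ := hn ((a - c) / π) (by
      rw [norm_div, hu, div_le_one (by norm_num)]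
      exact hc')
    refine ⟨c + π * d, Finset.mem_image.2 ⟨(c, d), Finset.mem_product.2 ⟨hc, hd⟩, rfl⟩, ?_⟩
    have e : a - (c + π * d) = π * ((a - c) / π - d) := by
      field_simp
      ring
    rw [e, norm_mul, hu, pow_succ']
    exact mul_le_mul_of_nonneg_left hd' (by norm_num)

theorem Loc.tb_base (l : Loc Ω ζ v) (B ε : ℝ) (hε : 0 < ε) :
    ∃ Cs : Finset l.L, ∀ a : l.L, ‖a‖ ≤ B → ∃ c ∈ Cs, ‖a - c‖ < ε := by
  obtain ⟨u, -, hu⟩ := l.nontriv
  generalize algebraMap (RatFunc k) l.L u = π at hu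
  have hπ : π ≠ 0 := fun h0 => by simp [h0] at hu
  obtain ⟨N, hN⟩ := pow_unbounded_of_one_lt B (by norm_num : (1 : ℝ) < 2)
  obtain ⟨n, hn⟩ := exists_pow_lt_of_lt_one (show 0 < ε / 2 ^ N by positivity)
    (by norm_num : (2⁻¹ : ℝ) < 1)
  obtain ⟨Cs, h⟩ := l.EllDef_iter n
  refine ⟨Cs.image fun c => c / π ^ N, fun a ha => ?_⟩
  have h2 : (0 : ℝ) < 2 ^ N := by positivity
  obtain ⟨c, hc, hc'⟩ := h (a * π ^ N) (by
    rw [norm_mul, norm_pow, hu, inv_pow, ← div_eq_mul_inv, div_le_one h2]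
    exact ha.trans hN.le)
  refine ⟨_, Finset.mem_image_of_mem _ hc, ?_⟩
  have e : a - c / π ^ N = (a * π ^ N - c) / π ^ N := by
    field_simp
  rw [e, norm_div, norm_pow, hu, inv_pow, div_inv_eq_mul]
  rw [lt_div_iff₀ h2] at hn
  exact (mul_le_mul_of_nonneg_right hc' h2.le).trans_lt hn

theorem EllDef_resolv {L Λ : Type} [Field L] [Field Λ] [Algebra L Λ] [IsGalois L Λ] {d ω a : Λ}
    (hd : d ≠ 0) (hω : ω ^ 2 + ω + 1 = 0) (hf : ∀ g : Λ ≃ₐ[L] Λ, g ω = ω)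
    (hg : ∀ g : Λ ≃ₐ[L] Λ, g d = d ∨ g d = ω * d ∨ g d = ω ^ 2 * d) {s : Λ ≃ₐ[L] Λ}
    (hs : s d = ω * d) (ha : ∀ g : Λ ≃ₐ[L] Λ, g d = d → g a = a) :
    ∃ b0 b1 b2 : L, algebraMap L Λ b0 = a + s a + s (s a) ∧
      algebraMap L Λ b1 * d = a + ω ^ 2 * s a + ω * s (s a) ∧
      algebraMap L Λ b2 * d ^ 2 = a + ω * s a + ω ^ 2 * s (s a) := by
  have h3 : ω ^ 3 = 1 := by linear_combination (ω - 1) * hω
  have K : ∀ g g' : Λ ≃ₐ[L] Λ, g d = g' d → g a = g' a := fun g g' h => by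
    have := ha (g'⁻¹ * g) (by rw [AlgEquiv.mul_apply, h, AlgEquiv.aut_inv, AlgEquiv.symm_apply_apply])
    rw [AlgEquiv.mul_apply, AlgEquiv.aut_inv, AlgEquiv.symm_apply_eq] at this
    exact this
  have m1 : ∀ g : Λ ≃ₐ[L] Λ, (g * s) d = ω * g d := fun g => by
    rw [AlgEquiv.mul_apply, hs, map_mul, hf]
  have m2 : ∀ g : Λ ≃ₐ[L] Λ, (g * s * s) d = ω ^ 2 * g d := fun g => by
    rw [m1, m1]
    ring
  have s0 : (1 : Λ ≃ₐ[L] Λ) d = d := rfl
  have s2 : (s * s) d = ω ^ 2 * d := by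
    rw [m1, hs]
    ring
  have tri : ∀ g : Λ ≃ₐ[L] Λ, (g d = d ∧ g a = a ∧ g (s a) = s a ∧ g (s (s a)) = s (s a)) ∨
      (g d = ω * d ∧ g a = s a ∧ g (s a) = s (s a) ∧ g (s (s a)) = a) ∨
      (g d = ω ^ 2 * d ∧ g a = s (s a) ∧ g (s a) = a ∧ g (s (s a)) = s a) := fun g => by
    rcases hg g with h | h | h
    · exact Or.inl ⟨h, K g 1 h, K (g * s) s (by rw [m1, h, hs]),
        K (g * s * s) (s * s) (by rw [m2, h, s2])⟩
    · exact Or.inr (Or.inl ⟨h, K g s (by rw [h, hs]), K (g * s) (s * s) (by rw [m1, h, s2]; ring),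
        K (g * s * s) 1 (by rw [m2, h, s0]; linear_combination d * h3)⟩)
    · exact Or.inr (Or.inr ⟨h, K g (s * s) (by rw [h, s2]),
        K (g * s) 1 (by rw [m1, h, s0]; linear_combination d * h3),
        K (g * s * s) s (by rw [m2, h, hs]; linear_combination ω * d * h3)⟩)
  have hω0 : ω ≠ 0 := fun h0 => by simp [h0] at hω
  obtain ⟨b0, h0⟩ := (InfiniteGalois.mem_range_algebraMap_iff_fixed (k := L)
    (a + s a + s (s a))).2 fun g => by
      rcases tri g with ⟨-, h1, h2, h3⟩ | ⟨-, h1, h2, h3⟩ | ⟨-, h1, h2, h3⟩ <;>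
        rw [map_add, map_add, h1, h2, h3] <;> ring
  obtain ⟨b1, h1⟩ := (InfiniteGalois.mem_range_algebraMap_iff_fixed (k := L)
    ((a + ω ^ 2 * s a + ω * s (s a)) / d)).2 fun g => by
      rcases tri g with ⟨e, e1, e2, e3⟩ | ⟨e, e1, e2, e3⟩ | ⟨e, e1, e2, e3⟩ <;>
        simp only [map_div₀, map_add, map_mul, map_pow, hf, e, e1, e2, e3]
      · rw [div_eq_div_iff (mul_ne_zero hω0 hd) hd]
        linear_combination (-d * s a) * h3
      · rw [div_eq_div_iff (mul_ne_zero (pow_ne_zero 2 hω0) hd) hd]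
        linear_combination (-d * s (s a) - d * ω * s a) * h3
  obtain ⟨b2, h2⟩ := (InfiniteGalois.mem_range_algebraMap_iff_fixed (k := L)
    ((a + ω * s a + ω ^ 2 * s (s a)) / d ^ 2)).2 fun g => by
      rcases tri g with ⟨e, e1, e2, e3⟩ | ⟨e, e1, e2, e3⟩ | ⟨e, e1, e2, e3⟩ <;>
        simp only [map_div₀, map_add, map_mul, map_pow, hf, e, e1, e2, e3]
      · rw [div_eq_div_iff (pow_ne_zero 2 (mul_ne_zero hω0 hd)) (pow_ne_zero 2 hd)]
        linear_combination (-d ^ 2 * s a - d ^ 2 * ω * s (s a)) * h3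
      · rw [div_eq_div_iff (pow_ne_zero 2 (mul_ne_zero (pow_ne_zero 2 hω0) hd)) (pow_ne_zero 2 hd)]
        linear_combination (-d ^ 2 * ω * a - d ^ 2 * ω ^ 2 * s a -
          d ^ 2 * (ω ^ 3 + 1) * s (s a)) * h3
  refine ⟨b0, b1, b2, h0, ?_, ?_⟩
  · rw [h1, div_mul_cancel₀ _ hd]
  · rw [h2, div_mul_cancel₀ _ (pow_ne_zero 2 hd)]

theorem Loc.tb (hζ : IsPrimitiveRoot ζ 3) (l : Loc Ω ζ v) {δ : Ω} {d : RatFunc k} (h0 : δ ≠ 0)
    (hδ : δ ^ 3 = algebraMap (RatFunc k) Ω d) (B ε : ℝ) (hε : 0 < ε) :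
    ∃ Cs : Finset l.Λ, ∀ a, (∀ s : l.Λ ≃ₐ[l.L] l.Λ, s (l.ι δ) = l.ι δ → s a = a) → l.wΛ a ≤ B →
      ∃ c ∈ Cs, l.wΛ (a - c) < ε := by
  have hG : IsGalois l.L l.Λ := inferInstance
  set d' := l.ι δ with hd'
  have hd0 : d' ≠ 0 := (map_ne_zero_iff _ l.ι.injective).2 h0
  have hcube : ∀ g : l.Λ ≃ₐ[l.L] l.Λ, g d' ^ 3 = d' ^ 3 := fun g => by
    rw [← map_pow, hd', ← map_pow, hδ, AlgHom.commutes,
      IsScalarTower.algebraMap_apply (RatFunc k) l.L l.Λ, AlgEquiv.commutes]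
  by_cases hall : ∀ g : l.Λ ≃ₐ[l.L] l.Λ, g d' = d'
  · obtain ⟨Cs, h⟩ := l.tb_base B ε hε
    refine ⟨Cs.image (algebraMap l.L l.Λ), fun a ha hB => ?_⟩
    obtain ⟨b, rfl⟩ := (InfiniteGalois.mem_range_algebraMap_iff_fixed (k := l.L) a).2
      fun g => ha g (hall g)
    rw [l.EllDef_norm] at hB
    obtain ⟨c, hc, hc'⟩ := h b hB
    exact ⟨_, Finset.mem_image_of_mem _ hc, by rwa [← map_sub, l.EllDef_norm]⟩
  push Not at hall
  obtain ⟨s, hs⟩ := hall
  set ω := s d' / d' with hω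
  have hs' : s d' = ω * d' := (div_mul_cancel₀ _ hd0).symm
  have hω1 : ω ≠ 1 := fun h1 => hs (by rw [hs', h1, one_mul])
  have hω3 : ω ^ 3 = 1 := by rw [hω, div_pow, hcube, div_self (pow_ne_zero 3 hd0)]
  have hω2 : ω ^ 2 + ω + 1 = 0 :=
    mul_left_cancel₀ (sub_ne_zero.2 hω1) (by linear_combination hω3)
  set z := algebraMap (RatFunc k) l.Λ (algebraMap k (RatFunc k) ζ) with hz
  have hz2 : z ^ 2 + z + 1 = 0 := by
    have h1 : ζ ^ 2 + ζ + 1 = 0 :=
      mul_left_cancel₀ (sub_ne_zero.2 (hζ.ne_one (by norm_num)))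
        (by linear_combination hζ.pow_eq_one)
    have := congrArg (fun t => algebraMap (RatFunc k) l.Λ (algebraMap k (RatFunc k) t)) h1
    simp only [map_add, map_pow, map_one, map_zero] at this
    exact this
  have hzf : ∀ g : l.Λ ≃ₐ[l.L] l.Λ, g z = z := fun g => by
    rw [hz, IsScalarTower.algebraMap_apply (RatFunc k) l.L l.Λ, AlgEquiv.commutes]
  have hf : ∀ g : l.Λ ≃ₐ[l.L] l.Λ, g ω = ω := fun g => by
    have : (ω - z) * (ω - z ^ 2) = 0 := by linear_combination hω2 + (z - 1 - ω) * hz2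
    rcases mul_eq_zero.1 this with h | h
    · rw [sub_eq_zero.1 h, hzf]
    · rw [sub_eq_zero.1 h, map_pow, hzf]
  have hg : ∀ g : l.Λ ≃ₐ[l.L] l.Λ, g d' = d' ∨ g d' = ω * d' ∨ g d' = ω ^ 2 * d' := fun g => by
    have : (g d' - d') * ((g d' - ω * d') * (g d' - ω ^ 2 * d')) = 0 := by
      linear_combination hcube g + (-g d' ^ 2 * d' + ω * g d' * d' ^ 2) * hω2 - d' ^ 3 * hω3
    rcases mul_eq_zero.1 this with h | h
    · exact Or.inl (sub_eq_zero.1 h)
    · exact Or.inr ((mul_eq_zero.1 h).imp sub_eq_zero.1 sub_eq_zero.1)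
  have hw : 0 < l.wΛ d' := l.wΛ.pos hd0
  have hwω : l.wΛ ω = 1 := EllC.w_root (by norm_num) hω3
  set W := l.wΛ d' with hW
  obtain ⟨C0, k0⟩ := l.tb_base B ε hε
  obtain ⟨C1, k1⟩ := l.tb_base (B / W) (ε / W) (by positivity)
  obtain ⟨C2, k2⟩ := l.tb_base (B / W ^ 2) (ε / W ^ 2) (by positivity)
  refine ⟨(C0 ×ˢ C1 ×ˢ C2).image fun c => (algebraMap l.L l.Λ c.1 + algebraMap l.L l.Λ c.2.1 * d' +
    algebraMap l.L l.Λ c.2.2 * d' ^ 2) / 3, fun a ha hB => ?_⟩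
  obtain ⟨b0, b1, b2, e0, e1, e2⟩ := EllDef_resolv hd0 hω2 hf hg hs' ha
  have na := l.wΛ_na
  have p1 : l.wΛ (s a) ≤ B := by rwa [l.wΛ_iso]
  have p2 : l.wΛ (s (s a)) ≤ B := by rwa [l.wΛ_iso, l.wΛ_iso]
  have q1 : ∀ x, l.wΛ x ≤ B → l.wΛ (ω * x) ≤ B := fun x hx => by rwa [map_mul, hwω, one_mul]
  have q2 : ∀ x, l.wΛ x ≤ B → l.wΛ (ω ^ 2 * x) ≤ B := fun x hx => by
    rwa [map_mul, map_pow, hwω, one_pow, one_mul]
  obtain ⟨c0, hc0, hc0'⟩ := k0 b0 (by
    rw [← l.EllDef_norm, e0]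
    exact EllB_add na (EllB_add na hB p1) p2)
  obtain ⟨c1, hc1, hc1'⟩ := k1 b1 (by
    rw [le_div_iff₀ hw, ← l.EllDef_norm, hW, ← map_mul, e1]
    exact EllB_add na (EllB_add na hB (q2 _ p1)) (q1 _ p2))
  obtain ⟨c2, hc2, hc2'⟩ := k2 b2 (by
    rw [le_div_iff₀ (by positivity), ← l.EllDef_norm, hW, ← map_pow, ← map_mul, e2]
    exact EllB_add na (EllB_add na hB (q1 _ p1)) (q2 _ p2))
  refine ⟨_, Finset.mem_image.2 ⟨(c0, c1, c2),
    Finset.mem_product.2 ⟨hc0, Finset.mem_product.2 ⟨hc1, hc2⟩⟩, rfl⟩, ?_⟩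
  have h3 := (l.w_three hζ).2
  have h30 : (3 : l.Λ) ≠ 0 := fun h0 => by simp [h0] at h3
  have e : a - (algebraMap l.L l.Λ c0 + algebraMap l.L l.Λ c1 * d' +
      algebraMap l.L l.Λ c2 * d' ^ 2) / 3 = (algebraMap l.L l.Λ (b0 - c0) +
        algebraMap l.L l.Λ (b1 - c1) * d' + algebraMap l.L l.Λ (b2 - c2) * d' ^ 2) / 3 := by
    rw [eq_div_iff h30, sub_mul, div_mul_cancel₀ _ h30, map_sub, map_sub, map_sub]
    linear_combination -e0 - e1 - e2 - (s a + s (s a)) * hω2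
  simp only
  rw [e, map_div₀, h3, div_one]
  refine EllB_addl na (EllB_addl na ?_ ?_) ?_
  · rwa [l.EllDef_norm]
  · rwa [map_mul, l.EllDef_norm, ← lt_div_iff₀ hw]
  · rwa [map_mul, map_pow, l.EllDef_norm, ← lt_div_iff₀ (by positivity)]

theorem Loc.exists_sz (hζ : IsPrimitiveRoot ζ 3) (l : Loc Ω ζ v) :
    ∃ ρ, Sz ((EC a1 a3).toAffine.baseChange l.Λ) l.wΛ ρ := by
  set A := l.wΛ ((EC a1 a3).toAffine.baseChange l.Λ).a₁
  set A' := l.wΛ ((EC a1 a3).toAffine.baseChange l.Λ).a₃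
  have h1 : 1 ≤ max (max A A') 1 := le_max_right _ _
  refine ⟨max (max A A') 1, l.wΛ_na, (l.w_three hζ).2, one_pos.trans_le h1,
    (le_max_left _ _).trans (le_max_left _ _),
    ((le_max_right _ _).trans (le_max_left _ _)).trans (le_self_pow₀ h1 (by norm_num))⟩

theorem Loc.EllDef_le (l : Loc Ω ζ v) (hv : v ≠ none) (p : k[X]) :
    l.w (algebraMap (RatFunc k) Ω (algebraMap k[X] (RatFunc k) p)) ≤ 1 := by
  by_cases hp : p = 0
  · simp [hp]
  · rw [l.w_base hv hp]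
    exact zpow_le_one_of_nonpos₀ (by norm_num) (by omega)

theorem Loc.sz_one (hζ : IsPrimitiveRoot ζ 3) (l : Loc Ω ζ v) (hv : v ≠ none) :
    Sz ((EC a1 a3).toAffine.baseChange Ω) l.w 1 := by
  refine ⟨l.w_na, (l.w_three hζ).1, one_pos, ?_, ?_⟩
  · rw [EC_a1]
    exact l.EllDef_le hv _
  · rw [EC_a3, one_pow]
    exact l.EllDef_le hv _

/-- the places of bad reduction, and infinity -/
def badS (a1 a3 : k[X]) : Finset (Pl k) := insert none (fac (a3 * (a1 ^ 3 - 27 * a3)))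

theorem Loc.tau_fix [DecidableEq Ω] (hζ : IsPrimitiveRoot ζ 3) (h : Hyp a1 a3) (l : Loc Ω ζ v)
    (hv : v ∉ badS a1 a3) {j : ℕ} {y : Pts (EC a1 a3) Ω} (hy : 3 ^ j • y = 0) :
    act (EC a1 a3) (gal l.τ) y = y := by
  have t := h.t3 (Λ := Ω) (three_ne hζ)
  rw [badS, Finset.mem_insert, not_or, mem_fac (mul_ne_zero h.a3_ne h.D_ne), not_not,
    mult_mul h.a3_ne h.D_ne, Nat.add_eq_zero_iff] at hv
  refine t.unram (l.sz_one hζ hv.1) ?_ (compat_act (gal l.τ)) (fun a ha => l.τ_res ha) hy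
  rw [t.Δ_eq, EllDef_disc, EC_a3, map_mul, map_pow, l.w_base hv.1 h.a3_ne, l.w_base hv.1 h.D_ne,
    hv.2.1, hv.2.2]
  simp

/-- a representation attached to the curve -/
structure ERep [DecidableEq Ω] (a1 a3 : k[X]) (hζ : IsPrimitiveRoot ζ 3) (ℓ : Locs Ω ζ) where
  B : TateB (Pts (EC a1 a3) Ω)
  R : Rep (tame hζ ℓ)
  lat : ∀ g : WG k Ω, IsLat (B.mat (act (EC a1 a3) (gal g))) (R.ρ g)
  S_eq : R.S = badS a1 a3
  det : ∀ g, (R.ρ g).det = (tame hζ ℓ).cq g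
  diag : ∀ g a, pi ^ 2 ∣ (R.ρ g - 1) a a
  b_iff : ∀ v, v ≠ none → (R.M (ℓ v).τ 0 1 = 0 ↔ 3 ∣ mult (a1 ^ 3 - 27 * a3) v)
  c_ne : ∀ v, ¬ pl v ∣ a1 → ¬ 3 ∣ mult a3 v → R.M (ℓ v).τ 1 0 ≠ 0
  adm : ∀ j : ℕ, ∃ U : Subgroup (WG k Ω), Adm U ∧
    ∀ u ∈ U, ∀ y : Pts (EC a1 a3) Ω, 3 ^ j • y = 0 → act (EC a1 a3) (gal u) y = y

end

end Pool.Agent.Smith
end

-- merged part: Pool.Agent.Work.MP_60d5ce_nt.Sm.EllH
section
/-!
# Heights: an infinitely three-divisible rational point is torsion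

No product formula is needed.  Multiplication by three preserves the size of `x` on `E1`, so if
`Q = 3 ^ j R j` then at every place and for every conjugate `w (x (R j)) ≤ max (ρ ^ 2) (w (x Q))`.
After multiplication by a common denominator `D` the minimal polynomial of `D * x (R j)` has bounded
degree and coefficients in `k[t]` of bounded degree, `k` is finite; so `R i = ± R j` for some `i < j`.
-/

namespace Pool.Agent.Smith

open Polynomial Pool.Agent.ShaAsc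

section Aux

open WeierstrassCurve WeierstrassCurve.Affine

variable {Λ : Type} [Field Λ] {w : AbsoluteValue Λ ℝ}

theorem EllH.stable [DecidableEq Λ] {C : Affine Λ} {ρ : ℝ} (h : T3 C) (hs : Sz C w ρ) {x y : Λ}
    (hn : C.Nonsingular x y) (hx : ρ ^ 2 < w x) (j : ℕ) :
    ∃ x' y' hn', 3 ^ j • (Point.some x y hn : C.Point) = Point.some x' y' hn' ∧ w x' = w x := by
  induction j with
  | zero => exact ⟨x, y, hn, by rw [pow_zero, one_smul], rfl⟩
  | succ j ih =>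
    obtain ⟨x', y', hn', e, hw⟩ := ih
    obtain ⟨h9, h4⟩ := h.w_ph hs (hw ▸ hx : ρ ^ 2 < w x')
    have hp : 0 < w x' := hw ▸ (pow_pos hs.pos 2).trans hx
    obtain ⟨y'', hn'', e'⟩ := h.three_smul hn' (w.pos_iff.1 (h4 ▸ pow_pos hp 4))
    refine ⟨_, y'', hn'', by rw [pow_succ', mul_smul, e, e'], ?_⟩
    rw [map_div₀, map_pow, h9, h4, ← hw]
    field_simp

theorem EllH.le_max [DecidableEq Λ] {C : Affine Λ} {ρ : ℝ} (h : T3 C) (hs : Sz C w ρ)
    {x y x' y' : Λ} {hn : C.Nonsingular x y} {hn' : C.Nonsingular x' y'} {j : ℕ}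
    (e : 3 ^ j • (Point.some x y hn : C.Point) = Point.some x' y' hn') :
    w x ≤ max (ρ ^ 2) (w x') := by
  rcases le_or_gt (w x) (ρ ^ 2) with hx | hx
  · exact le_max_of_le_left hx
  · obtain ⟨x'', y'', hn'', e', hw⟩ := EllH.stable h hs hn hx j
    obtain ⟨rfl, -⟩ := Point.some.inj (e.symm.trans e')
    exact le_max_of_le_right hw.ge

theorem EllH.coeff_le (hw : IsNonarchimedean w) {B : ℝ} (hB : 1 ≤ B) (s : Multiset Λ)
    (hs : ∀ a ∈ s, w a ≤ B) (i : ℕ) :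
    w ((s.map fun a => X - C a).prod.coeff i) ≤ B ^ s.card := by
  induction s using Multiset.induction_on generalizing i with
  | empty =>
    rw [Multiset.map_zero, Multiset.prod_zero, Multiset.card_zero, pow_zero, coeff_one]
    split_ifs <;> simp
  | cons a s ih =>
    have ih' := ih fun b hb => hs b (Multiset.mem_cons_of_mem hb)
    have h0 : 0 ≤ B ^ s.card := by positivity
    rw [Multiset.map_cons, Multiset.prod_cons, Multiset.card_cons, sub_mul, coeff_sub, coeff_C_mul,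
      pow_succ']
    refine EllC.sub_le hw ?_ ?_
    · cases i with
      | zero =>
        rw [coeff_X_mul_zero, map_zero]
        positivity
      | succ i =>
        rw [coeff_X_mul]
        exact (ih' i).trans (le_mul_of_one_le_left h0 hB)
    · rw [map_mul]
      exact mul_le_mul (hs a (Multiset.mem_cons_self _ _)) (ih' i) (w.nonneg _)
        (zero_le_one.trans hB)

theorem EllH.root_le (hw : IsNonarchimedean w) {F : Type} [Field F] [Algebra F Λ] {f : F[X]}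
    (hf : f.Monic) {B : ℝ} (hB : 1 ≤ B) (hc : ∀ i < f.natDegree, w (algebraMap F Λ (f.coeff i)) ≤ B)
    {a : Λ} (ha : aeval a f = 0) : w a ≤ B := by
  have hn : 0 < f.natDegree := by
    refine Nat.pos_of_ne_zero fun h0 => ?_
    rw [hf.natDegree_eq_zero.1 h0, map_one] at ha
    exact one_ne_zero ha
  refine crv_root hw (one_pos.trans_le hB) hn (c := fun i => algebraMap F Λ (f.coeff i))
    (fun i hi => (hc i hi).trans (le_self_pow₀ hB (Nat.sub_ne_zero_of_lt hi))) ?_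
  rw [hf.as_sum] at ha
  simpa only [map_add, map_pow, aeval_X, map_sum, map_mul, aeval_C] using ha

end Aux

variable {k : Type} [Field k] [Fintype k] {Ω : Type} [Field Ω] [Algebra (RatFunc k) Ω]
  [Algebra k Ω] [IsScalarTower k (RatFunc k) Ω] [IsSepClosure (RatFunc k) Ω] [DecidableEq Ω]
  {ζ : k} {a1 a3 : k[X]} (K' : Type) [Field K'] [Algebra (RatFunc k) K'] [Algebra K' Ω]
  [IsScalarTower (RatFunc k) K' Ω] [FiniteDimensional (RatFunc k) K']

omit [DecidableEq Ω] in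
theorem EllH.w_poly_le {v : Pl k} (l : Loc Ω ζ v) (hv : v ≠ none) (p : k[X]) :
    l.w (algebraMap (RatFunc k) Ω (algebraMap k[X] (RatFunc k) p)) ≤ 1 := by
  rcases eq_or_ne p 0 with rfl | hp
  · simp
  · rw [l.w_base hv hp]
    exact zpow_le_one_of_nonpos₀ one_le_two (by simp)

omit [DecidableEq Ω] in
theorem EllH.poly_of_le (ℓ : Locs Ω ζ) {c : RatFunc k}
    (hc : ∀ v, v ≠ none → (ℓ v).w (algebraMap (RatFunc k) Ω c) ≤ 1) :
    ∃ p : k[X], algebraMap k[X] (RatFunc k) p = c := by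
  rcases eq_or_ne c 0 with rfl | h0
  · exact ⟨0, map_zero _⟩
  have hd : c.denom = 1 := by
    by_contra hne
    obtain ⟨q, hq, hq', hdvd⟩ := exists_monic_irreducible_factor c.denom
      fun hu => hne (c.monic_denom.eq_one_of_isUnit hu)
    have h1 : mult c.denom (some ⟨q, hq, hq'⟩) ≠ 0 :=
      (StatA_ne_zero_iff _ _).2 ⟨Option.some_ne_none _, hdvd⟩
    have h2 : mult c.num (some ⟨q, hq, hq'⟩) = 0 := by
      by_contra h2
      exact hq'.not_isUnit
        (c.isCoprime_num_denom.isUnit_of_dvd' ((StatA_ne_zero_iff _ _).1 h2).2 hdvd)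
    have h3 := hc (some ⟨q, hq, hq'⟩) (Option.some_ne_none _)
    rw [← c.num_div_denom, map_div₀, map_div₀,
      Loc.w_base _ (Option.some_ne_none _) (RatFunc.num_ne_zero h0),
      Loc.w_base _ (Option.some_ne_none _) c.denom_ne_zero, h2, ← zpow_sub₀ two_ne_zero,
      zpow_le_one_iff_right₀ one_lt_two] at h3
    omega
  refine ⟨c.num, ?_⟩
  have := c.num_div_denom
  rwa [hd, map_one, div_one] at this

omit [DecidableEq Ω] in
theorem EllH.fin_base (ℓ : Locs Ω ζ) (B : ℝ) :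
    {c : RatFunc k | (∀ v, v ≠ none → (ℓ v).w (algebraMap (RatFunc k) Ω c) ≤ 1) ∧
      (ℓ none).w (algebraMap (RatFunc k) Ω c) ≤ B}.Finite := by
  obtain ⟨N, hN⟩ := pow_unbounded_of_one_lt B (one_lt_two (α := ℝ))
  refine ((StatA_degreeLT (k := k) N).1.image (algebraMap k[X] (RatFunc k))).subset ?_
  rintro c ⟨h1, h2⟩
  obtain ⟨p, rfl⟩ := EllH.poly_of_le ℓ h1
  refine Set.mem_image_of_mem _ ?_
  rcases eq_or_ne p 0 with rfl | hp
  · exact zero_mem _
  rw [← aeval_tt_base, ← aeval_tt_map, Loc.w_poly_inf _ (map_ne_zero hp), natDegree_map,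
    zpow_natCast] at h2
  rw [SetLike.mem_coe, mem_degreeLT, ← natDegree_lt_iff_degree_lt hp]
  exact (pow_lt_pow_iff_right₀ one_lt_two).1 (h2.trans_lt hN)

theorem EllH.northcott (ℓ : Locs Ω ζ) (n : ℕ) {B : ℝ} (hB : 1 ≤ B) :
    {a : Ω | (minpoly (RatFunc k) a).natDegree ≤ n ∧ ∀ g : Ω ≃ₐ[RatFunc k] Ω,
      (∀ v, v ≠ none → (ℓ v).w (g a) ≤ 1) ∧ (ℓ none).w (g a) ≤ B}.Finite := by
  refine (bUnion_roots_finite (algebraMap (RatFunc k) Ω) n (EllH.fin_base ℓ (B ^ n))).subset ?_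
  rintro a ⟨h1, h2⟩
  have hi : IsIntegral (RatFunc k) a := Algebra.IsIntegral.isIntegral a
  have hm : ((minpoly (RatFunc k) a).map (algebraMap (RatFunc k) Ω)).Monic :=
    (minpoly.monic hi).map _
  have hsp : ((minpoly (RatFunc k) a).map (algebraMap (RatFunc k) Ω)).Splits :=
    Normal.splits inferInstance a
  have key : ∀ (w : AbsoluteValue Ω ℝ) (B' : ℝ), IsNonarchimedean w → 1 ≤ B' →
      (∀ g : Ω ≃ₐ[RatFunc k] Ω, w (g a) ≤ B') →
      ∀ i, w (algebraMap (RatFunc k) Ω ((minpoly (RatFunc k) a).coeff i)) ≤ B' ^ n := by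
    intro w B' hw hB' hg i
    rw [← coeff_map, hsp.eq_prod_roots_of_monic hm]
    refine (EllH.coeff_le hw hB' _ (fun b hb => ?_) i).trans (pow_le_pow_right₀ hB' ?_)
    · obtain ⟨g, rfl⟩ := minpoly.exists_algEquiv_of_root' hi.isAlgebraic (x := b)
        (by rw [aeval_def, eval₂_eq_eval_map]; exact (mem_roots hm.ne_zero).1 hb)
      exact hg g
    · exact (card_roots' _).trans (natDegree_map_le.trans h1)
  simp only [Set.mem_iUnion]
  refine ⟨minpoly (RatFunc k) a, ⟨h1, fun i => ⟨fun v hv => ?_, ?_⟩⟩, ?_⟩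
  · simpa only [one_pow] using key _ 1 (ℓ v).w_na le_rfl (fun g => (h2 g).1 v hv) i
  · exact key _ B (ℓ none).w_na hB (fun g => (h2 g).2) i
  · rw [Finset.mem_coe, Multiset.mem_toFinset, mem_roots hm.ne_zero, IsRoot.def,
      ← eval₂_eq_eval_map, ← aeval_def, minpoly.aeval]

omit [DecidableEq Ω] in
theorem EllH.denom (ℓ : Locs Ω ζ) (a : Ω) : ∃ (D : k[X]) (B : ℝ), D ≠ 0 ∧
    ∀ g : Ω ≃ₐ[RatFunc k] Ω, (∀ v, v ≠ none →
      (ℓ v).w (algebraMap (RatFunc k) Ω (algebraMap k[X] (RatFunc k) D)) * (ℓ v).w (g a) ≤ 1) ∧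
      (ℓ none).w (g a) ≤ B := by
  have hi : IsIntegral (RatFunc k) a := Algebra.IsIntegral.isIntegral a
  obtain ⟨⟨D, hD⟩, hb⟩ := IsLocalization.exist_integer_multiples (nonZeroDivisors k[X])
    (Finset.range (minpoly (RatFunc k) a).natDegree) fun i => (minpoly (RatFunc k) a).coeff i
  have hD0 : D ≠ 0 := nonZeroDivisors.ne_zero hD
  refine ⟨D, 1 + ∑ i ∈ Finset.range (minpoly (RatFunc k) a).natDegree,
    (ℓ none).w (algebraMap (RatFunc k) Ω ((minpoly (RatFunc k) a).coeff i)), hD0, fun g => ?_⟩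
  have hg : aeval (g a) (minpoly (RatFunc k) a) = 0 := by
    rw [aeval_algHom_apply, minpoly.aeval, map_zero]
  refine ⟨fun v hv => ?_, EllH.root_le (ℓ none).w_na (minpoly.monic hi)
    (le_add_of_nonneg_right (Finset.sum_nonneg fun i _ => AbsoluteValue.nonneg _ _))
    (fun i hi' => ?_) hg⟩
  · have hp : 0 < (ℓ v).w (algebraMap (RatFunc k) Ω (algebraMap k[X] (RatFunc k) D)) := by
      rw [(ℓ v).w_base hv hD0]
      positivity
    rw [← le_inv_mul_iff₀ hp, mul_one]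
    refine EllH.root_le (ℓ v).w_na (minpoly.monic hi)
      ((one_le_inv₀ hp).2 (EllH.w_poly_le _ hv D)) (fun i hi' => ?_) hg
    obtain ⟨p, hp'⟩ := hb i (Finset.mem_range.2 hi')
    have := EllH.w_poly_le (ℓ v) hv p
    rw [hp', Algebra.smul_def, map_mul, map_mul] at this
    rwa [← mul_one _⁻¹, le_inv_mul_iff₀ hp]
  · exact (Finset.single_le_sum (f := fun i => (ℓ none).w
      (algebraMap (RatFunc k) Ω ((minpoly (RatFunc k) a).coeff i)))
      (fun i _ => AbsoluteValue.nonneg _ _) (Finset.mem_range.2 hi')).trans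
      (le_add_of_nonneg_left zero_le_one)

omit [DecidableEq Ω] in
theorem EllH.exists_sz (hζ : IsPrimitiveRoot ζ 3) {v : Pl k} (l : Loc Ω ζ v) :
    ∃ ρ, Sz ((EC a1 a3).toAffine.baseChange Ω) l.w ρ := by
  obtain ⟨ρ, h1, h2, h3⟩ : ∃ ρ : ℝ, 1 ≤ ρ ∧ l.w ((EC a1 a3).toAffine.baseChange Ω).a₁ ≤ ρ ∧
      l.w ((EC a1 a3).toAffine.baseChange Ω).a₃ ≤ ρ :=
    ⟨max 1 (max _ _), le_max_left _ _, le_max_of_le_right (le_max_left _ _),
      le_max_of_le_right (le_max_right _ _)⟩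
  exact ⟨ρ, l.w_na, (l.w_three hζ).1, one_pos.trans_le h1, h2,
    h3.trans (le_self_pow₀ h1 (by norm_num))⟩

theorem div_torsion (h : Hyp a1 a3) (hζ : IsPrimitiveRoot ζ 3) (ℓ : Locs Ω ζ)
    (Q : Pts (EC a1 a3) Ω)
    (hQ : ∀ j : ℕ, ∃ R : Pts (EC a1 a3) Ω,
      (∀ σ : Ω ≃ₐ[K'] Ω, act (EC a1 a3) σ R = R) ∧ 3 ^ j • R = Q) :
    ∃ m : ℕ, 0 < m ∧ m • Q = 0 := by
  rcases Q with _ | ⟨X0, Y0, hN⟩
  · exact ⟨1, one_pos, one_smul _ _⟩
  have ht : T3 ((EC a1 a3).toAffine.baseChange Ω) := h.t3 (three_ne hζ)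
  choose R hR hRQ using hQ
  have hex : ∀ j, ∃ x y hn, R j = WeierstrassCurve.Affine.Point.some x y hn := by
    intro j
    have := hRQ j
    rcases hj : R j with _ | ⟨x, y, hn⟩
    · rw [hj, ← WeierstrassCurve.Affine.Point.zero_def, smul_zero] at this
      exact absurd this.symm (WeierstrassCurve.Affine.Point.some_ne_zero _)
    · exact ⟨x, y, hn, rfl⟩
  choose x y hn hxy using hex
  obtain ⟨D, B, hD, hB⟩ := EllH.denom ℓ X0
  obtain ⟨ρ, hρ⟩ := EllH.exists_sz (a1 := a1) (a3 := a3) hζ (ℓ none)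
  have hconj : ∀ (j : ℕ) (g : Ω ≃ₐ[RatFunc k] Ω) (w : AbsoluteValue Ω ℝ) (r : ℝ),
      Sz ((EC a1 a3).toAffine.baseChange Ω) w r → w (g (x j)) ≤ max (r ^ 2) (w (g X0)) := by
    intro j g w r hs
    obtain ⟨h1, e1⟩ := compat_act (a1 := a1) (a3 := a3) g _ _ (hn j)
    obtain ⟨h2, e2⟩ := compat_act (a1 := a1) (a3 := a3) g _ _ hN
    refine EllH.le_max ht hs (hn := h1) (hn' := h2) (j := j)
      (((congrArg _ e1.symm).trans ?_).trans e2)
    rw [← map_nsmul, ← hxy, hRQ]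
  have : IsGalois K' Ω := IsGalois.tower_top_of_isGalois (RatFunc k) K' Ω
  obtain ⟨d, hd⟩ : ∃ d, d = algebraMap k[X] (RatFunc k) D := ⟨_, rfl⟩
  have hd0 : algebraMap (RatFunc k) Ω d ≠ 0 := by
    rw [hd]
    exact (_root_.map_ne_zero _).2 (RatFunc.algebraMap_ne_zero hD)
  obtain ⟨i, j, hij, e⟩ := (EllH.northcott ℓ (Module.finrank (RatFunc k) K')
    (le_max_left 1 ((ℓ none).w (algebraMap (RatFunc k) Ω d) *
      max (ρ ^ 2) B))).exists_lt_map_eq_of_forall_mem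
      (f := fun j : ℕ => algebraMap (RatFunc k) Ω d * x j) (fun j => by
    refine ⟨?_, fun g => ⟨fun v hv => ?_, ?_⟩⟩
    · obtain ⟨z, hz⟩ := (InfiniteGalois.mem_range_algebraMap_iff_fixed (k := K') (x j)).2 fun σ => by
        obtain ⟨h1, e1⟩ := compat_act (a1 := a1) (a3 := a3) σ _ _ (hn j)
        rw [← hxy, hR, hxy] at e1
        exact (WeierstrassCurve.Affine.Point.some.inj e1).1.symm
      rw [← hz, IsScalarTower.algebraMap_apply (RatFunc k) K' Ω, ← map_mul,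
        minpoly.algebraMap_eq (algebraMap K' Ω).injective]
      exact minpoly.natDegree_le _
    · rw [map_mul, AlgEquiv.commutes, map_mul, hd]
      refine (mul_le_mul_of_nonneg_left (hconj j g _ 1 ((ℓ v).sz_one hζ hv))
        (AbsoluteValue.nonneg _ _)).trans ?_
      rw [mul_max_of_nonneg _ _ (AbsoluteValue.nonneg _ _), one_pow, mul_one]
      exact max_le (EllH.w_poly_le _ hv D) ((hB g).1 v hv)
    · rw [map_mul, AlgEquiv.commutes, map_mul]
      exact le_max_of_le_right (mul_le_mul_of_nonneg_left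
        ((hconj j g _ ρ hρ).trans (max_le_max le_rfl (hB g).2)) (AbsoluteValue.nonneg _ _)))
  obtain ⟨m, rfl⟩ := Nat.exists_eq_add_of_lt hij
  have e' := (WeierstrassCurve.Affine.Point.X_eq_iff (h₁ := hn i) (h₂ := hn (i + m + 1))).1
    (mul_left_cancel₀ hd0 e)
  rw [← hxy, ← hxy] at e'
  generalize WeierstrassCurve.Affine.Point.some X0 Y0 hN = Q at hRQ ⊢
  have h1 : 3 ^ (m + 1) • Q = 3 ^ (i + m + 1) • R i := by
    rw [← hRQ i, ← mul_smul, ← pow_add, show m + 1 + i = i + m + 1 by omega]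
  rcases e' with e' | e'
  · rw [e', hRQ] at h1
    obtain ⟨n, hn'⟩ := Nat.exists_eq_add_of_lt (Nat.one_lt_pow m.succ_ne_zero (by norm_num : 1 < 3))
    refine ⟨n + 1, n.succ_pos, ?_⟩
    rw [hn', add_assoc, add_smul, one_smul] at h1
    exact add_eq_left.1 h1
  · rw [e', smul_neg, hRQ] at h1
    refine ⟨3 ^ (m + 1) + 1, Nat.succ_pos _, ?_⟩
    rw [add_smul, one_smul, h1, neg_add_cancel]

end Pool.Agent.Smith
end

-- merged part: Pool.Agent.Work.MP_60d5ce_nt.Sm.StatB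
section
/-!
# Almost all polynomials have a good factorisation type

Write `π e` for the number of finite places of degree `e`: `e * π e ≤ q ^ e` (`pnt_upper`) and
`q ^ e ≤ e * π e + 2 * q ^ ((e + 1) / 2)` (`pnt`).  The proportion of multiples of `g` in `Pn n` is at
most `q ^ (-deg g)` (`card_dvd`), with equality if `deg g ≤ n` (`card_dvd_eq`).
* `bad_one`: `pl v ^ 2 ∣ d`; `∑ e ≥ e0, π e * q ^ (-2 e) ≤ ∑ 2 ^ (-e)`.
* `bad_inj`: `pl v * pl v' ∣ d`; `∑ e ≥ e0, 1 / e ^ 2 ≤ 1 / (e0 - 1)`.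
* `bad_few`: `2 ^ card` is the number of subsets `B` of the places of degree at most `e` with
  `∏ v ∈ B, pl v ∣ d`; its mean is at most `∏ (1 + q ^ (-deg v)) ≤ exp (∑ j ≤ e, 1 / j) ≤ 3 e`
  (`Finset.prod_one_add`, `harmonic_le_one_add_log`); Markov: proportion at most `3 / e ^ 3`.
  Only `e ≤ max e0 n` matters.
* `bad_many`: second moment for the number `X` of prime factors with degree in
  `I = {e | n ≤ e ^ 2, 2 e ≤ n, ¬ 3 ∣ e}`: mean `μ = ∑ e ∈ I, π e * q ^ (-e)`, mean of `X (X - 1)` at most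
  `μ ^ 2`, so the variance is at most `μ`, and `μ ≥ (1 / 2) ∑ e ∈ I, 1 / e` tends to infinity.
-/

namespace Pool.Agent.Smith

open scoped Classical
open Polynomial Filter

variable {k : Type} [Field k] [Fintype k]

variable (k) in
/-- the sample space -/
noncomputable def StatB_Om (n : ℕ) : Finset k[X] := (Pn_finite (k := k) n).toFinset

theorem StatB_mem {n : ℕ} {d : k[X]} : d ∈ StatB_Om k n ↔ d ∈ Pn k n := Set.Finite.mem_toFinset _

theorem StatB_cnt (n : ℕ) (p : k[X] → Prop) : ({d | d ∈ Pn k n ∧ p d}.ncard : ℝ) =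
    ∑ d ∈ StatB_Om k n, if p d then (1 : ℝ) else 0 := by
  rw [Finset.sum_boole, ← Set.ncard_coe_finset]
  congr 2
  ext d
  simp [StatB_mem]

theorem StatB_N (n : ℕ) : ((Pn k n).ncard : ℝ) = (StatB_Om k n).card := by
  rw [← Set.ncard_coe_finset, StatB_Om, Set.Finite.coe_toFinset]

theorem StatB_markov (n : ℕ) (p : k[X] → Prop) (f : k[X] → ℝ) (c : ℝ)
    (h0 : ∀ d ∈ Pn k n, 0 ≤ f d) (h : ∀ d ∈ Pn k n, p d → c ≤ f d) :
    c * ({d | d ∈ Pn k n ∧ p d}.ncard : ℝ) ≤ ∑ d ∈ StatB_Om k n, f d := by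
  rw [StatB_cnt, Finset.mul_sum]
  refine Finset.sum_le_sum fun d hd => ?_
  split_ifs with hp
  · rw [mul_one]
    exact h d (StatB_mem.1 hd) hp
  · rw [mul_zero]
    exact h0 d (StatB_mem.1 hd)

theorem StatB_union {ι : Type} (n : ℕ) (p : k[X] → Prop) (s : Finset ι) (r : ι → k[X] → Prop)
    (h : ∀ d ∈ Pn k n, p d → ∃ i ∈ s, r i d) :
    ({d | d ∈ Pn k n ∧ p d}.ncard : ℝ) ≤ ∑ i ∈ s, ({d | d ∈ Pn k n ∧ r i d}.ncard : ℝ) := by
  have := StatB_markov n p (fun d => ∑ i ∈ s, if r i d then (1 : ℝ) else 0) 1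
    (fun d _ => Finset.sum_nonneg fun i _ => by split_ifs <;> norm_num) (fun d hd hp => by
      obtain ⟨i, hi, hr⟩ := h d hd hp
      have := Finset.single_le_sum (f := fun i => if r i d then (1 : ℝ) else 0)
        (fun i _ => by split_ifs <;> norm_num) hi
      simpa [hr] using this)
  rw [one_mul, Finset.sum_comm] at this
  simpa only [StatB_cnt] using this

variable (k) in
/-- the finite places of degree `e` -/
noncomputable def StatB_Pe (e : ℕ) : Finset (Pl k) :=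
  Set.Finite.toFinset (s := {v : Pl k | pdg v = e ∧ v ≠ none})
    ((pdg_fin (k := k) e).subset fun _ hv => hv.1)

theorem StatB_mem_Pe {e : ℕ} {v : Pl k} : v ∈ StatB_Pe k e ↔ pdg v = e ∧ v ≠ none :=
  Set.Finite.mem_toFinset _

theorem StatB_card_Pe (e : ℕ) :
    {v : Pl k | pdg v = e ∧ v ≠ none}.ncard = (StatB_Pe k e).card := by
  rw [← Set.ncard_coe_finset, StatB_Pe, Set.Finite.coe_toFinset]

theorem StatB_q : (2 : ℝ) ≤ Fintype.card k := by
  exact_mod_cast Fintype.one_lt_card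

theorem StatB_upper {e : ℕ} (he : 0 < e) :
    ((StatB_Pe k e).card : ℝ) * ((Fintype.card k : ℝ) ^ e)⁻¹ ≤ (e : ℝ)⁻¹ := by
  have h := pnt_upper (k := k) e
  rw [StatB_card_Pe] at h
  have h' : (e : ℝ) * (StatB_Pe k e).card ≤ (Fintype.card k : ℝ) ^ e := by exact_mod_cast h
  have hq : (0 : ℝ) < (Fintype.card k : ℝ) ^ e := pow_pos (by linarith only [StatB_q (k := k)]) _
  have he' : (0 : ℝ) < e := by exact_mod_cast he
  rw [← div_eq_mul_inv, inv_eq_one_div, div_le_div_iff₀ hq he']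
  linarith only [h']

theorem StatB_lower {e : ℕ} (he : 4 ≤ e) :
    (2 * e : ℝ)⁻¹ ≤ ((StatB_Pe k e).card : ℝ) * ((Fintype.card k : ℝ) ^ e)⁻¹ := by
  have h := pnt (k := k) e (by omega)
  rw [StatB_card_Pe] at h
  have h2 := StatB_q (k := k)
  have hq : (0 : ℝ) < (Fintype.card k : ℝ) ^ e := pow_pos (by linarith only [h2]) _
  have he' : (0 : ℝ) < e := by exact_mod_cast (by omega : 0 < e)
  have h3 : (Fintype.card k : ℝ) ^ ((e + 1) / 2 + 2) ≤ (Fintype.card k : ℝ) ^ e :=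
    pow_le_pow_right₀ (by linarith) (by omega)
  have h4 : (0 : ℝ) < (Fintype.card k : ℝ) ^ ((e + 1) / 2) := pow_pos (by linarith only [h2]) _
  have h5 : (4 : ℝ) ≤ (Fintype.card k : ℝ) ^ 2 := by linarith only [h2, mul_nonneg_of_nonpos_of_nonpos (Mathlib.Tactic.Linarith.sub_nonpos_of_le (Mathlib.Tactic.Linarith.natCast_nonneg ℝ (Fintype.card k))) (Mathlib.Tactic.Linarith.sub_nonpos_of_le h2)]
  rw [pow_add] at h3
  have h6 := mul_le_mul_of_nonneg_left h5 h4.le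
  rw [← div_eq_mul_inv, inv_eq_one_div, div_le_div_iff₀ (by positivity) hq]
  linarith only [h, h3, h6]

/-- the weight of a place -/
noncomputable def StatB_w (v : Pl k) : ℝ := ((Fintype.card k : ℝ) ^ pdg v)⁻¹

theorem StatB_w_nonneg (v : Pl k) : 0 ≤ StatB_w v := by
  unfold StatB_w
  positivity

theorem StatB_sum_w (I : Finset ℕ) : ∑ v ∈ I.biUnion (StatB_Pe k), StatB_w v =
    ∑ e ∈ I, ((StatB_Pe k e).card : ℝ) * ((Fintype.card k : ℝ) ^ e)⁻¹ := by
  rw [Finset.sum_biUnion]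
  · refine Finset.sum_congr rfl fun e _ => ?_
    rw [← nsmul_eq_mul, ← Finset.sum_const]
    exact Finset.sum_congr rfl fun v hv => by rw [StatB_w, (StatB_mem_Pe.1 hv).1]
  · intro e _ e' _ hne
    exact Finset.disjoint_left.2 fun v hv hv' =>
      hne ((StatB_mem_Pe.1 hv).1.symm.trans (StatB_mem_Pe.1 hv').1)

theorem StatB_dvd {g : k[X]} (hg : g ≠ 0) (n : ℕ) : ({d | d ∈ Pn k n ∧ g ∣ d}.ncard : ℝ) ≤
    ((Fintype.card k : ℝ) ^ g.natDegree)⁻¹ * (Pn k n).ncard := by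
  have h := card_dvd hg n
  have hq : (0 : ℝ) < (Fintype.card k : ℝ) ^ g.natDegree :=
    pow_pos (by linarith only [StatB_q (k := k)]) _
  rw [le_inv_mul_iff₀ hq, mul_comm]
  exact_mod_cast h

theorem StatB_dvd_eq {v : Pl k} (hv : v ≠ none) {n : ℕ} (hn : pdg v ≤ n) :
    ({d | d ∈ Pn k n ∧ pl v ∣ d}.ncard : ℝ) = StatB_w v * (Pn k n).ncard := by
  have h := card_dvd_eq (monic_pl v).ne_zero (n := n) (by rw [natDegree_pl hv]; exact hn)
  rw [natDegree_pl hv] at h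
  have hq : (0 : ℝ) < (Fintype.card k : ℝ) ^ pdg v := pow_pos (by linarith only [StatB_q (k := k)]) _
  rw [StatB_w, eq_inv_mul_iff_mul_eq₀ hq.ne', mul_comm]
  exact_mod_cast h

omit [Fintype k] in
theorem StatB_coprime {v v' : Pl k} (hv : v ≠ none) (hv' : v' ≠ none) (h : v ≠ v') :
    IsCoprime (pl v) (pl v') := by
  obtain _ | p := v
  · exact absurd rfl hv
  obtain _ | p' := v'
  · exact absurd rfl hv'
  refine p.2.2.coprime_iff_not_dvd.2 fun hd => h ?_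
  exact congrArg some (Subtype.ext (eq_of_monic_of_associated p.2.1 p'.2.1
    (p.2.2.associated_of_dvd p'.2.2 hd)))

theorem StatB_prod (B : Finset (Pl k)) (hB : ∀ v ∈ B, v ≠ none) (n : ℕ) :
    ({d | d ∈ Pn k n ∧ ∀ v ∈ B, pl v ∣ d}.ncard : ℝ) ≤ (∏ v ∈ B, StatB_w v) * (Pn k n).ncard := by
  have hm : (∏ v ∈ B, pl v).Monic := monic_prod_of_monic _ _ fun v _ => monic_pl v
  have h := StatB_dvd hm.ne_zero n
  rw [natDegree_prod_of_monic _ _ fun v _ => monic_pl v,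
    Finset.sum_congr rfl fun v hv => natDegree_pl (hB v hv), ← Finset.prod_pow_eq_pow_sum,
    ← Finset.prod_inv_distrib] at h
  refine le_trans ?_ h
  refine Nat.cast_le.2 (Set.ncard_le_ncard (fun d hd => ⟨hd.1, ?_⟩)
    ((Pn_finite n).subset fun d hd => hd.1))
  exact Finset.prod_dvd_of_coprime (fun v hv v' hv' hne => StatB_coprime (hB v hv) (hB v' hv') hne)
    hd.2

theorem StatB_pair {v v' : Pl k} (hv : v ≠ none) (hv' : v' ≠ none) (h : v ≠ v') (n : ℕ) :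
    ({d | d ∈ Pn k n ∧ (pl v ∣ d ∧ pl v' ∣ d)}.ncard : ℝ) ≤
      StatB_w v * StatB_w v' * (Pn k n).ncard := by
  have := StatB_prod {v, v'} (by simp [hv, hv']) n
  rw [Finset.prod_pair h] at this
  simpa using this

theorem StatB_pdg_le {n : ℕ} {d : k[X]} (hd : d ∈ Pn k n) {v : Pl k} (hv : v ∈ fac d) :
    pdg v ≤ n := by
  obtain ⟨h1, h2⟩ := (mem_fac_iff hd.1).1 hv
  rw [← natDegree_pl h1, ← hd.2]
  exact natDegree_le_of_dvd h2 hd.1

theorem StatB_inv_sq {e0 : ℕ} (he : 1 ≤ e0) (m : ℕ) :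
    ∑ e ∈ Finset.Icc e0 m, ((e : ℝ) ^ 2)⁻¹ ≤ 2 / e0 := by
  obtain ⟨j, rfl⟩ := Nat.exists_eq_add_of_le' he
  have h := sum_Ioo_inv_sq_le (α := ℝ) j (m + 1)
  have e : Finset.Icc (j + 1) m = Finset.Ioo j (m + 1) := by
    ext i
    simp only [Finset.mem_Icc, Finset.mem_Ioo]
    omega
  rw [e]
  push_cast
  exact h

theorem StatB_few {e : ℕ} (he : 1 ≤ e) (n : ℕ) :
    ({d | d ∈ Pn k n ∧ e ^ 4 < 2 ^ ((fac d).filter fun v => pdg v ≤ e).card}.ncard : ℝ) ≤
      3 * ((e : ℝ) ^ 2)⁻¹ * (Pn k n).ncard := by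
  set L := (Finset.Icc 1 e).biUnion (StatB_Pe k) with hL
  have he' : (1 : ℝ) ≤ e := by exact_mod_cast he
  have h1 := StatB_markov n (fun d => e ^ 4 < 2 ^ ((fac d).filter fun v => pdg v ≤ e).card)
    (fun d => ∑ B ∈ L.powerset, if ∀ v ∈ B, pl v ∣ d then (1 : ℝ) else 0) ((e : ℝ) ^ 4)
    (fun d _ => Finset.sum_nonneg fun i _ => by split_ifs <;> norm_num) (fun d hd hp => by
      rw [Finset.sum_boole]
      rw [← Finset.card_powerset] at hp
      refine le_trans (by exact_mod_cast hp.le) (Nat.cast_le.2 (Finset.card_le_card fun B hB => ?_))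
      have hB' := Finset.mem_powerset.1 hB
      refine Finset.mem_filter.2 ⟨Finset.mem_powerset.2 fun v hv => ?_, fun v hv => ?_⟩
      · obtain ⟨h1, h2⟩ := Finset.mem_filter.1 (hB' hv)
        exact Finset.mem_biUnion.2 ⟨pdg v, Finset.mem_Icc.2 ⟨pdg_pos v, h2⟩,
          StatB_mem_Pe.2 ⟨rfl, ((mem_fac_iff hd.1).1 h1).1⟩⟩
      · exact ((mem_fac_iff hd.1).1 (Finset.mem_filter.1 (hB' hv)).1).2)
  have h2 : ∑ d ∈ StatB_Om k n, ∑ B ∈ L.powerset, (if ∀ v ∈ B, pl v ∣ d then (1 : ℝ) else 0) ≤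
      (∏ v ∈ L, (1 + StatB_w v)) * (Pn k n).ncard := by
    rw [Finset.sum_comm, Finset.prod_one_add, Finset.sum_mul]
    refine Finset.sum_le_sum fun B hB => ?_
    have := StatB_prod B (fun v hv => by
      obtain ⟨j, -, hj⟩ := Finset.mem_biUnion.1 (Finset.mem_powerset.1 hB hv)
      exact (StatB_mem_Pe.1 hj).2) n
    rw [StatB_cnt] at this
    exact le_trans (le_of_eq (Finset.sum_congr rfl fun d _ => by congr)) this
  have h3 : ∑ v ∈ L, StatB_w v ≤ 1 + Real.log e := by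
    rw [hL, StatB_sum_w]
    refine le_trans (Finset.sum_le_sum fun j hj => StatB_upper (Finset.mem_Icc.1 hj).1) ?_
    have := harmonic_le_one_add_log e
    rw [harmonic_eq_sum_Icc] at this
    push_cast at this
    exact this
  have h4 : ∏ v ∈ L, (1 + StatB_w v) ≤ 3 * (e : ℝ) ^ 2 := by
    refine (Real.prod_one_add_le_exp_sum L StatB_w_nonneg).trans ((Real.exp_le_exp.2 h3).trans ?_)
    rw [Real.exp_add, Real.exp_log (by linarith only [he'])]
    exact mul_le_mul Real.exp_one_lt_three.le (by linarith only [he', mul_nonneg_of_nonpos_of_nonpos (Mathlib.Tactic.Linarith.sub_nonpos_of_le (Mathlib.Tactic.Linarith.natCast_nonneg ℝ e)) (Mathlib.Tactic.Linarith.sub_nonpos_of_le he')]) (by linarith) (by norm_num)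
  have h5 := h1.trans (h2.trans (mul_le_mul_of_nonneg_right h4 (Nat.cast_nonneg _)))
  have h6 : (0 : ℝ) < (e : ℝ) ^ 4 := by positivity
  refine le_of_mul_le_mul_left (h5.trans_eq ?_) h6
  field_simp

theorem StatB_var (L : Finset (Pl k)) (n : ℕ) (hL : ∀ v ∈ L, v ≠ none ∧ pdg v ≤ n) :
    ∑ d ∈ StatB_Om k n, ((∑ v ∈ L, if pl v ∣ d then (1 : ℝ) else 0) - ∑ v ∈ L, StatB_w v) ^ 2 ≤
      (∑ v ∈ L, StatB_w v) * (Pn k n).ncard := by
  set μ := ∑ v ∈ L, StatB_w v with hμ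
  have h1 : ∑ d ∈ StatB_Om k n, ∑ v ∈ L, (if pl v ∣ d then (1 : ℝ) else 0) =
      μ * (Pn k n).ncard := by
    rw [Finset.sum_comm, hμ, Finset.sum_mul]
    refine Finset.sum_congr rfl fun v hv => ?_
    rw [← StatB_dvd_eq (hL v hv).1 (hL v hv).2, StatB_cnt]
  have h2 : ∑ d ∈ StatB_Om k n, (∑ v ∈ L, if pl v ∣ d then (1 : ℝ) else 0) ^ 2 ≤
      (μ ^ 2 + μ) * (Pn k n).ncard := by
    have e1 : (μ ^ 2 + μ) * (Pn k n).ncard = ∑ v ∈ L, ∑ v' ∈ L,
        (StatB_w v * StatB_w v' + if v = v' then StatB_w v else 0) * (Pn k n).ncard := by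
      simp only [← Finset.sum_mul, Finset.sum_add_distrib, Finset.sum_ite_eq]
      rw [Finset.sum_congr rfl fun v hv => if_pos hv, sq, hμ, Finset.sum_mul_sum]
    simp only [sq, Finset.sum_mul_sum] at e1 ⊢
    rw [e1, Finset.sum_comm]
    refine Finset.sum_le_sum fun v hv => ?_
    rw [Finset.sum_comm]
    refine Finset.sum_le_sum fun v' hv' => ?_
    have e2 : ∑ d ∈ StatB_Om k n, (if pl v ∣ d then (1 : ℝ) else 0) *
        (if pl v' ∣ d then (1 : ℝ) else 0) =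
        ({d | d ∈ Pn k n ∧ (pl v ∣ d ∧ pl v' ∣ d)}.ncard : ℝ) := by
      rw [StatB_cnt]
      refine Finset.sum_congr rfl fun d _ => ?_
      by_cases a1 : pl v ∣ d <;> by_cases a2 : pl v' ∣ d <;> simp [a1, a2]
    rw [e2]
    by_cases hvv : v = v'
    · subst hvv
      simp only [and_self, if_true]
      rw [StatB_dvd_eq (hL v hv).1 (hL v hv).2]
      exact mul_le_mul_of_nonneg_right (le_add_of_nonneg_left (mul_self_nonneg _))
        (Nat.cast_nonneg _)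
    · rw [if_neg hvv, add_zero]
      exact StatB_pair (hL v hv).1 (hL v' hv').1 hvv n
  simp only [sub_sq, Finset.sum_add_distrib, Finset.sum_sub_distrib, ← Finset.sum_mul,
    ← Finset.mul_sum, h1, Finset.sum_const, nsmul_eq_mul, ← StatB_N]
  linarith

theorem StatB_harm {s : ℕ} (hs : 1 ≤ s) (K : ℕ) :
    (K : ℝ) / 2 ≤ ∑ j ∈ Finset.Ico s (2 ^ K * s), (j : ℝ)⁻¹ := by
  induction K with
  | zero => simp
  | succ K ih =>
    have h1 : s ≤ 2 ^ K * s := Nat.le_mul_of_pos_left _ (by positivity)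
    have h2 : 2 ^ (K + 1) * s = 2 ^ K * s + 2 ^ K * s := by ring
    rw [← Finset.sum_Ico_consecutive _ h1 (by omega : 2 ^ K * s ≤ 2 ^ (K + 1) * s), h2]
    set a := 2 ^ K * s with ha
    have ha0 : (0 : ℝ) < a := by exact_mod_cast (by omega : 0 < a)
    have h3 : ∑ _j ∈ Finset.Ico a (a + a), (2 * a : ℝ)⁻¹ ≤ ∑ j ∈ Finset.Ico a (a + a), (j : ℝ)⁻¹ := by
      refine Finset.sum_le_sum fun j hj => ?_
      obtain ⟨h4, h5⟩ := Finset.mem_Ico.1 hj
      refine inv_anti₀ (by exact_mod_cast (by omega : 0 < j)) ?_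
      exact_mod_cast (by omega : j ≤ 2 * a)
    rw [Finset.sum_const, Nat.card_Ico, Nat.add_sub_cancel, nsmul_eq_mul] at h3
    have h6 : (a : ℝ) * (2 * a : ℝ)⁻¹ = 1 / 2 := by field_simp
    push_cast
    linarith only [ih, h3, h6]

theorem StatB_mean (K : ℕ) : ∀ᶠ n : ℕ in atTop, ∃ L : Finset (Pl k),
    (∀ v ∈ L, v ≠ none ∧ pdg v ≤ n ∧ n ≤ pdg v ^ 2 ∧ ¬ 3 ∣ pdg v) ∧
      (K : ℝ) / 16 ≤ ∑ v ∈ L, StatB_w v := by
  filter_upwards [eventually_ge_atTop ((6 * 2 ^ K + 1) * (6 * 2 ^ K + 1))] with n hn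
  have h1 : 6 * 2 ^ K + 1 ≤ Nat.sqrt n := Nat.le_sqrt.2 hn
  have h2 : Nat.sqrt n * Nat.sqrt n ≤ n := Nat.sqrt_le n
  have h3 : n < (Nat.sqrt n + 1) * (Nat.sqrt n + 1) := Nat.lt_succ_sqrt n
  set r := Nat.sqrt n with hr
  refine ⟨((Finset.Ico (r + 1) (2 ^ K * (r + 1))).image fun j => 3 * j + 1).biUnion (StatB_Pe k),
    fun v hv => ?_, ?_⟩
  · obtain ⟨e, he, hve⟩ := Finset.mem_biUnion.1 hv
    obtain ⟨j, hj, rfl⟩ := Finset.mem_image.1 he
    obtain ⟨h4, h5⟩ := Finset.mem_Ico.1 hj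
    obtain ⟨h6, h7⟩ := StatB_mem_Pe.1 hve
    rw [h6]
    refine ⟨h7, ?_, ?_, by omega⟩
    · have a1 : 2 ^ K * (r + 1) ≤ 2 ^ K * (2 * r) := Nat.mul_le_mul_left _ (by omega)
      have a2 : (6 * 2 ^ K + 1) * r ≤ r * r := Nat.mul_le_mul_right _ h1
      have a3 : (6 * 2 ^ K + 1) * r = 3 * (2 ^ K * (2 * r)) + r := by ring
      omega
    · rw [sq]
      exact h3.le.trans (Nat.mul_le_mul (by omega) (by omega))
  · rw [StatB_sum_w, Finset.sum_image fun a _ b _ h => by simpa using h]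
    have h4 := StatB_harm (s := r + 1) (by omega) K
    have h5 : (K : ℝ) / 16 ≤ ∑ j ∈ Finset.Ico (r + 1) (2 ^ K * (r + 1)), 8⁻¹ * (j : ℝ)⁻¹ := by
      rw [← Finset.mul_sum]
      linarith only [h4]
    refine h5.trans (Finset.sum_le_sum fun j hj => ?_)
    have h6 : 1 ≤ j := by have := (Finset.mem_Ico.1 hj).1; omega
    have h7 : (1 : ℝ) ≤ j := by exact_mod_cast h6
    refine le_trans ?_ (StatB_lower (by omega))
    rw [← mul_inv]
    refine inv_anti₀ (by positivity) ?_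
    push_cast
    linarith only [h7]

theorem bad_one {e0 : ℕ} (he : 1 ≤ e0) (n : ℕ) :
    ({d | d ∈ Pn k n ∧ ∃ v ∈ fac d, e0 ≤ pdg v ∧ mult d v ≠ 1}.ncard : ℝ) ≤
      2 / e0 * (Pn k n).ncard := by
  refine (StatB_union n _ ((Finset.Icc e0 n).sigma (StatB_Pe k)) (fun i d => pl i.2 ^ 2 ∣ d)
    fun d hd hp => ?_).trans ?_
  · obtain ⟨v, hv, h1, h2⟩ := hp
    have h3 := (mem_fac hd.1).1 hv
    have h4 := ((mem_fac_iff hd.1).1 hv).1
    refine ⟨⟨pdg v, v⟩, Finset.mem_sigma.2 ⟨Finset.mem_Icc.2 ⟨h1, StatB_pdg_le hd hv⟩,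
      StatB_mem_Pe.2 ⟨rfl, h4⟩⟩, ?_⟩
    obtain _ | p := v
    · exact absurd rfl h4
    · exact pow_dvd_of_le_multiplicity (show 2 ≤ mult d (some p) by omega)
  rw [Finset.sum_sigma]
  refine le_trans (Finset.sum_le_sum fun e hE => ?_) ((Finset.sum_mul _ _ _).symm.trans_le
    (mul_le_mul_of_nonneg_right (StatB_inv_sq he n) (Nat.cast_nonneg _)))
  have he0 : 0 < e := lt_of_lt_of_le he (Finset.mem_Icc.1 hE).1
  have h1 : ∀ v ∈ StatB_Pe k e, ({d | d ∈ Pn k n ∧ pl v ^ 2 ∣ d}.ncard : ℝ) ≤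
      ((Fintype.card k : ℝ) ^ e)⁻¹ * ((Fintype.card k : ℝ) ^ e)⁻¹ * (Pn k n).ncard := by
    intro v hv
    have := StatB_dvd (pow_ne_zero 2 (monic_pl v).ne_zero) n
    rwa [natDegree_pow, natDegree_pl (StatB_mem_Pe.1 hv).2, (StatB_mem_Pe.1 hv).1, two_mul, pow_add,
      mul_inv] at this
  refine (Finset.sum_le_card_nsmul _ _ _ h1).trans ?_
  rw [nsmul_eq_mul, ← mul_assoc, ← mul_assoc, sq, mul_inv]
  refine mul_le_mul_of_nonneg_right (mul_le_mul (StatB_upper he0) ?_ (by positivity)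
    (by positivity)) (Nat.cast_nonneg _)
  refine inv_anti₀ (by exact_mod_cast he0) ?_
  exact_mod_cast (Nat.lt_pow_self Fintype.one_lt_card).le

theorem bad_inj {e0 : ℕ} (he : 1 ≤ e0) (n : ℕ) :
    ({d | d ∈ Pn k n ∧ ∃ v ∈ fac d, ∃ v' ∈ fac d, e0 ≤ pdg v ∧ pdg v = pdg v' ∧ v ≠ v'}.ncard : ℝ)
      ≤ 2 / e0 * (Pn k n).ncard := by
  refine (StatB_union n _ ((Finset.Icc e0 n).sigma fun e => (StatB_Pe k e).offDiag)
    (fun i d => pl i.2.1 ∣ d ∧ pl i.2.2 ∣ d) fun d hd hp => ?_).trans ?_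
  · obtain ⟨v, hv, v', hv', h1, h2, h3⟩ := hp
    have h4 := (mem_fac_iff hd.1).1 hv
    have h5 := (mem_fac_iff hd.1).1 hv'
    exact ⟨⟨pdg v, v, v'⟩, Finset.mem_sigma.2 ⟨Finset.mem_Icc.2 ⟨h1, StatB_pdg_le hd hv⟩,
      Finset.mem_offDiag.2 ⟨StatB_mem_Pe.2 ⟨rfl, h4.1⟩, StatB_mem_Pe.2 ⟨h2.symm, h5.1⟩, h3⟩⟩,
      h4.2, h5.2⟩
  rw [Finset.sum_sigma]
  refine le_trans (Finset.sum_le_sum fun e hE => ?_) ((Finset.sum_mul _ _ _).symm.trans_le
    (mul_le_mul_of_nonneg_right (StatB_inv_sq he n) (Nat.cast_nonneg _)))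
  have he0 : 0 < e := lt_of_lt_of_le he (Finset.mem_Icc.1 hE).1
  have h1 : ∀ p ∈ (StatB_Pe k e).offDiag,
      ({d | d ∈ Pn k n ∧ (pl p.1 ∣ d ∧ pl p.2 ∣ d)}.ncard : ℝ) ≤
      ((Fintype.card k : ℝ) ^ e)⁻¹ * ((Fintype.card k : ℝ) ^ e)⁻¹ * (Pn k n).ncard := by
    intro p hp
    obtain ⟨a1, a2, a3⟩ := Finset.mem_offDiag.1 hp
    have := StatB_pair (StatB_mem_Pe.1 a1).2 (StatB_mem_Pe.1 a2).2 a3 n
    rwa [StatB_w, StatB_w, (StatB_mem_Pe.1 a1).1, (StatB_mem_Pe.1 a2).1] at this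
  refine (Finset.sum_le_card_nsmul _ _ _ h1).trans ?_
  rw [nsmul_eq_mul, ← mul_assoc, sq, mul_inv]
  refine mul_le_mul_of_nonneg_right ?_ (Nat.cast_nonneg _)
  have h2 : ((StatB_Pe k e).offDiag.card : ℝ) ≤ (StatB_Pe k e).card * (StatB_Pe k e).card := by
    rw [Finset.offDiag_card]
    exact_mod_cast Nat.sub_le _ _
  refine (mul_le_mul_of_nonneg_right h2 (by positivity)).trans ?_
  rw [mul_mul_mul_comm]
  exact mul_le_mul (StatB_upper he0) (StatB_upper he0) (by positivity) (by positivity)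

theorem bad_few {e0 : ℕ} (he : 1 ≤ e0) (n : ℕ) :
    ({d | d ∈ Pn k n ∧ ∃ e, e0 ≤ e ∧ e ^ 4 < 2 ^ ((fac d).filter fun v => pdg v ≤ e).card}.ncard
      : ℝ) ≤ 6 / e0 * (Pn k n).ncard := by
  refine (StatB_union n _ (Finset.Icc e0 (max e0 n))
    (fun e d => e ^ 4 < 2 ^ ((fac d).filter fun v => pdg v ≤ e).card) fun d hd hp => ?_).trans ?_
  · obtain ⟨e, h1, h2⟩ := hp
    by_cases h3 : e ≤ max e0 n
    · exact ⟨e, Finset.mem_Icc.2 ⟨h1, h3⟩, h2⟩
    · refine ⟨max e0 n, Finset.mem_Icc.2 ⟨le_max_left _ _, le_rfl⟩, ?_⟩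
      refine lt_of_le_of_lt (Nat.pow_le_pow_left (not_le.1 h3).le 4) (h2.trans_le ?_)
      refine Nat.pow_le_pow_right (by norm_num) (Finset.card_le_card fun v hv => ?_)
      have h4 := (Finset.mem_filter.1 hv).1
      exact Finset.mem_filter.2 ⟨h4, (StatB_pdg_le hd h4).trans (le_max_right _ _)⟩
  refine (Finset.sum_le_sum fun e hE => StatB_few (he.trans (Finset.mem_Icc.1 hE).1) n).trans ?_
  rw [← Finset.sum_mul, ← Finset.mul_sum]
  refine mul_le_mul_of_nonneg_right ?_ (Nat.cast_nonneg _)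
  have := StatB_inv_sq he (max e0 n)
  calc _ ≤ 3 * (2 / (e0 : ℝ)) := by linarith only [this]
    _ = _ := by ring

theorem bad_many (A : ℕ) {δ : ℝ} (hδ : 0 < δ) : ∀ᶠ n in atTop,
    ({d | d ∈ Pn k n ∧
      ((fac d).filter fun v => n ≤ pdg v ^ 2 ∧ ¬ 3 ∣ pdg v).card < A}.ncard : ℝ) ≤
      δ * (Pn k n).ncard := by
  obtain ⟨K, hK⟩ := exists_nat_ge (16 * (2 * A + 4 / δ))
  filter_upwards [StatB_mean (k := k) K] with n hn
  obtain ⟨L, hL, hμ⟩ := hn
  have hv := StatB_var L n fun v hv => ⟨(hL v hv).1, (hL v hv).2.1⟩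
  set μ := ∑ v ∈ L, StatB_w v with hμdef
  have h1 : 0 < 4 / δ := by positivity
  have hA : (0 : ℝ) ≤ A := Nat.cast_nonneg _
  have h2 : 2 * A ≤ μ := by linarith only [hK, hμ, h1]
  have h3 : 4 / δ ≤ μ := by linarith only [hK, hμ]
  have h4 : 0 < μ := by linarith only [hK, hμ, h1]
  have h5 := StatB_markov n
    (fun d => ((fac d).filter fun v => n ≤ pdg v ^ 2 ∧ ¬ 3 ∣ pdg v).card < A)
    (fun d => ((∑ v ∈ L, if pl v ∣ d then (1 : ℝ) else 0) - μ) ^ 2) ((μ / 2) ^ 2)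
    (fun d _ => sq_nonneg _) (fun d hd hp => by
      rw [Finset.sum_boole]
      have a1 : (L.filter fun v => pl v ∣ d).card ≤ A := by
        refine le_trans (Finset.card_le_card fun v hv => ?_) hp.le
        obtain ⟨b1, b2⟩ := Finset.mem_filter.1 hv
        exact Finset.mem_filter.2 ⟨(mem_fac_iff hd.1).2 ⟨(hL v b1).1, b2⟩, (hL v b1).2.2⟩
      have a2 : ((L.filter fun v => pl v ∣ d).card : ℝ) ≤ A := by exact_mod_cast a1
      rw [← neg_sq (_ - μ)]
      exact pow_le_pow_left₀ (by positivity) (by linarith only [hK, hμ, h1, a2]) 2)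
  have h6 := h5.trans hv
  rw [div_le_iff₀ hδ] at h3
  refine le_of_mul_le_mul_left (h6.trans ?_) (by positivity : 0 < (μ / 2) ^ 2)
  rw [← mul_assoc]
  refine mul_le_mul_of_nonneg_right ?_ (Nat.cast_nonneg _)
  linarith only [h3, hμ, mul_nonneg_of_nonpos_of_nonpos (Mathlib.Tactic.Linarith.sub_nonpos_of_le (Mathlib.Tactic.Linarith.natCast_nonneg ℝ K)) (Mathlib.Tactic.Linarith.sub_nonpos_of_le h3), mul_nonneg_of_nonpos_of_nonpos (Mathlib.Tactic.Linarith.sub_nonpos_of_le hμ) (Mathlib.Tactic.Linarith.sub_nonpos_of_le h3)]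

theorem stat_good {δ : ℝ} (hδ : 0 < δ) : ∃ e1 : ℕ, ∀ e0, e1 ≤ e0 → ∀ A, ∀ᶠ n in atTop,
    ({d | d ∈ Pn k n ∧ ¬ GT e0 A n d}.ncard : ℝ) ≤ δ * (Pn k n).ncard := by
  obtain ⟨e1, he1⟩ := exists_nat_ge (20 / δ)
  refine ⟨e1 + 1, fun e0 he0 A => ?_⟩
  filter_upwards [bad_many (k := k) A (half_pos hδ)] with n h4
  have he : 1 ≤ e0 := by omega
  have h1 := bad_one (k := k) he n
  have h2 := bad_inj (k := k) he n
  have h3 := bad_few (k := k) he n
  have h5 := StatB_union (k := k) n (fun d => ¬ GT e0 A n d) (Finset.univ : Finset (Fin 4))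
    ![fun d => ∃ v ∈ fac d, e0 ≤ pdg v ∧ mult d v ≠ 1,
      fun d => ∃ v ∈ fac d, ∃ v' ∈ fac d, e0 ≤ pdg v ∧ pdg v = pdg v' ∧ v ≠ v',
      fun d => ∃ e, e0 ≤ e ∧ e ^ 4 < 2 ^ ((fac d).filter fun v => pdg v ≤ e).card,
      fun d => ((fac d).filter fun v => n ≤ pdg v ^ 2 ∧ ¬ 3 ∣ pdg v).card < A] fun d _ hp => by
    by_contra hc
    have hc' := fun i hi => hc ⟨i, Finset.mem_univ i, hi⟩
    refine hp ⟨fun v hv h => ?_, fun v hv v' hv' h h' => ?_, fun e h => ?_, ?_⟩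
    · by_contra hn
      exact hc' 0 ⟨v, hv, h, hn⟩
    · by_contra hn
      exact hc' 1 ⟨v, hv, v', hv', h, h', hn⟩
    · by_contra hn
      exact hc' 2 ⟨e, h, not_le.1 hn⟩
    · by_contra hn
      exact hc' 3 (not_le.1 hn)
  rw [Fin.sum_univ_four] at h5
  have h6 : (10 : ℝ) / e0 ≤ δ / 2 := by
    have a1 : (e1 : ℝ) + 1 ≤ e0 := by exact_mod_cast he0
    rw [div_le_iff₀ hδ] at he1
    rw [div_le_iff₀ (by exact_mod_cast he)]
    (refine le_of_not_gt fun h_nl => ?_; linarith only [h_nl, a1, he1, mul_nonneg_of_nonpos_of_nonpos (Mathlib.Tactic.Linarith.sub_nonpos_of_le (Mathlib.Tactic.Linarith.natCast_nonneg ℝ e1)) (le_of_lt (Mathlib.Tactic.Linarith.sub_neg_of_lt h_nl)), mul_nonneg_of_nonpos_of_nonpos (Mathlib.Tactic.Linarith.sub_nonpos_of_le (Mathlib.Tactic.Linarith.natCast_nonneg ℝ e0)) (Mathlib.Tactic.Linarith.sub_nonpos_of_le he1)])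
  have h7 := mul_le_mul_of_nonneg_right h6 (Nat.cast_nonneg (Pn k n).ncard)
  refine h5.trans ((add_le_add (add_le_add (add_le_add h1 h2) h3) h4).trans ?_)
  have e : (10 : ℝ) / e0 = 2 / e0 + 2 / e0 + 6 / e0 := by ring
  rw [e] at h7
  linarith only [h7]

end Pool.Agent.Smith
end

-- merged part: Pool.Agent.Work.MP_60d5ce_nt.Sm.MomB
section
/-!
# The random model of level one: first moments

Exchange the sums: for each `z = (f, n)` count the configurations `c` with `z ∈ Sol c`.  `r = card ι`.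
* `n` contains a triangle: proportion at most `9 ^ 3 / 9 ^ r` (`count_span`).
* `n i = t + c i • d`, `c` not constant: proportion at most `9 / 3 ^ r` (`count_dir` for a coordinate
  in which `d` is one); there are at most `36 * 3 ^ r` such `n`.
* `n` constant: nine values.
For `moment_bad`:
* if `n` takes every value at least `K + 2` times on `L` it is generic (`t = 0`, `(1,0)`, `(0,1)`);
  if `d = (1, 1)` or `(1, -1)` and `c` takes every value at least `K + 2` times on `L` it is generic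
  (`hb d d ≠ 0`); the others are few by `count_full`;
* `d = (1, 0)`: the second coordinate of the equation at `i` says that the affine function
  `A + c i • B` of `c.1 i` vanishes, `B` given by the entry `1 0` of `Mm`, whose linear part is
  nonzero; for at most one value of `c i` the linear part of `A + c i • B` is zero, so the sum over
  `c` of the proportions is at most `(5 / 3) ^ r * 9 / 3 ^ r` (`count_aff`, `Finset.prod_univ_sum`);
  `d = (0, 1)` is symmetric;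
* `n = t` constant: the affine function `g = f - X • t + Mm t` vanishes at all `(e i, c.1 i)`, and is
  nonzero since `z` is not trivial; if its linear part is nonzero the proportion is at most
  `3 ^ (-r)`, otherwise `e i • g.2 = 0` for all `i`, impossible.
`r ≥ card L ≥ A` is large.
-/

namespace Pool.Agent.Smith

open scoped Classical

noncomputable section

section Aux

variable {ι κ : Type} [Fintype ι] [LinearOrder ι] [Fintype κ]

/-- the right side of the equation at one place -/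
def MomB_rhs (e : F3) (X : Aff κ F3) (Mm : Aff κ (Matrix (Fin 2) (Fin 2) F3)) (f : Aff κ Vb)
    (w : Vb) (u : κ → F3) : Vb :=
  ev e X u • w - (ev e Mm u).mulVec w - ev e f u

/-- one coordinate of the right side as an affine function -/
def MomB_aff (X : Aff κ F3) (Mm : Aff κ (Matrix (Fin 2) (Fin 2) F3)) (f : Aff κ Vb) (w : Vb)
    (φ : Fin 2) : Aff κ F3 :=
  (fun a => (X.1 a • w - (Mm.1 a).mulVec w - f.1 a) φ, (X.2 • w - Mm.2.mulVec w - f.2) φ)

theorem MomB_rhs_eq (e : F3) (X : Aff κ F3) (Mm : Aff κ (Matrix (Fin 2) (Fin 2) F3))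
    (f : Aff κ Vb) (w : Vb) (u : κ → F3) (φ : Fin 2) :
    MomB_rhs e X Mm f w u φ = ev e (MomB_aff X Mm f w φ) u := by
  have h : MomB_rhs e X Mm f w u = ∑ a, u a • (X.1 a • w - (Mm.1 a).mulVec w - f.1 a) +
      e • (X.2 • w - Mm.2.mulVec w - f.2) := by
    simp only [MomB_rhs, ev, add_smul, Finset.sum_smul, Matrix.add_mulVec, Matrix.sum_mulVec,
      Matrix.smul_mulVec, smul_sub, Finset.sum_sub_distrib, smul_assoc]
    abel
  rw [h]
  simp only [ev, MomB_aff, Pi.add_apply, Finset.sum_apply, Pi.smul_apply]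

/-- the number of symbols between the moving places that solve the equations -/
def MomB_s (n c : ι → Vb) : ℝ :=
  ((Finset.univ.filter fun s : Prs ι → F3 => ∀ i, ∑ j, sym s i j • (n j - n i) = c i).card : ℝ)

/-- the number of configurations for which `(f, n)` is a class -/
def MomB_cnt (e : ι → F3) (X : Aff κ F3) (Mm : Aff κ (Matrix (Fin 2) (Fin 2) F3)) (f : Aff κ Vb)
    (n : ι → Vb) : ℝ :=
  ∑ u : ι → κ → F3, MomB_s n fun i => MomB_rhs (e i) X Mm f (n i) (u i)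

theorem MomB_swap (e : ι → F3) (X : Aff κ F3) (Mm : Aff κ (Matrix (Fin 2) (Fin 2) F3))
    (P : Aff κ Vb × (ι → Vb) → Prop) [DecidablePred P] :
    ∑ c : Cfg ι κ, (((Sol e X Mm c).filter P).card : ℝ) =
      ∑ f, ∑ n, if P (f, n) then MomB_cnt e X Mm f n else 0 := by
  simp only [Sol, Finset.filter_filter, Finset.card_filter]
  push_cast
  rw [Finset.sum_comm, Fintype.sum_prod_type]
  refine Finset.sum_congr rfl fun f _ => Finset.sum_congr rfl fun n _ => ?_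
  by_cases h : P (f, n)
  · rw [if_pos h, MomB_cnt, Fintype.sum_prod_type]
    refine Finset.sum_congr rfl fun u _ => ?_
    rw [MomB_s, Finset.card_filter]
    push_cast
    exact Finset.sum_congr rfl fun s _ => if_congr ⟨fun h' => h'.1, fun h' => ⟨h', h⟩⟩ rfl rfl
  · simp [h]

theorem MomB_s_nonneg (n c : ι → Vb) : 0 ≤ MomB_s n c := Nat.cast_nonneg _

theorem MomB_s_le (n c : ι → Vb) : MomB_s n c ≤ Fintype.card (Prs ι → F3) := by
  unfold MomB_s
  exact_mod_cast Finset.card_le_univ _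

/-- the family contains a triangle -/
def MomB_tri {ι : Type} (n : ι → Vb) : Prop :=
  ∃ u v w, (n v - n u) 0 * (n w - n u) 1 - (n v - n u) 1 * (n w - n u) 0 ≠ 0

theorem MomB_s_tri (n c : ι → Vb) (h : MomB_tri n) :
    MomB_s n c ≤ 729 / 9 ^ Fintype.card ι * Fintype.card (Prs ι → F3) := by
  obtain ⟨u, v, w, h⟩ := h
  have h1 := count_span n c u v w h
  rw [div_mul_eq_mul_div, le_div_iff₀ (by positivity), mul_comm]
  unfold MomB_s
  exact_mod_cast h1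

theorem MomB_s_nc (n c : ι → Vb) (φ : Fin 2) (u v : ι) (h : n u φ ≠ n v φ) :
    MomB_s n c ≤ 9 / 3 ^ Fintype.card ι * Fintype.card (Prs ι → F3) := by
  have h1 := count_dir (fun i => n i φ) (fun i => c i φ) u v h
  have h2 : (Finset.univ.filter fun s : Prs ι → F3 =>
      ∀ i, ∑ j, sym s i j • (n j - n i) = c i).card ≤ (Finset.univ.filter fun s : Prs ι → F3 =>
      ∀ i, ∑ j, sym s i j * (n j φ - n i φ) = c i φ).card := by
    refine Finset.card_le_card fun s hs => Finset.mem_filter.2 ⟨Finset.mem_univ _, fun i => ?_⟩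
    rw [← (Finset.mem_filter.1 hs).2 i]
    simp
  rw [div_mul_eq_mul_div, le_div_iff₀ (by positivity), mul_comm]
  unfold MomB_s
  exact_mod_cast (Nat.mul_le_mul_left _ h2).trans h1

theorem MomB_s_zero (n c : ι → Vb) (φ : Fin 2) (h : ∀ i j, n i φ = n j φ) (i : ι)
    (hc : c i φ ≠ 0) : MomB_s n c = 0 := by
  unfold MomB_s
  rw [Nat.cast_eq_zero, Finset.card_eq_zero, Finset.filter_eq_empty_iff]
  intro s _ hs
  apply hc
  rw [← hs i]
  simp [h _ i]

theorem MomB_cnt_nonneg (e : ι → F3) (X : Aff κ F3) (Mm : Aff κ (Matrix (Fin 2) (Fin 2) F3))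
    (f : Aff κ Vb) (n : ι → Vb) : 0 ≤ MomB_cnt e X Mm f n :=
  Finset.sum_nonneg fun _ _ => MomB_s_nonneg _ _

theorem MomB_card : (Fintype.card (Cfg ι κ) : ℝ) =
    (Fintype.card (κ → F3) : ℝ) ^ Fintype.card ι * Fintype.card (Prs ι → F3) := by
  rw [Fintype.card_prod, Fintype.card_fun (α := ι)]
  push_cast
  rfl

theorem MomB_cnt_le (e : ι → F3) (X : Aff κ F3) (Mm : Aff κ (Matrix (Fin 2) (Fin 2) F3))
    (f : Aff κ Vb) (n : ι → Vb) {b : ℝ} (h : ∀ c, MomB_s n c ≤ b * Fintype.card (Prs ι → F3)) :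
    MomB_cnt e X Mm f n ≤ b * Fintype.card (Cfg ι κ) := by
  refine (Finset.sum_le_sum fun u _ => h _).trans (le_of_eq ?_)
  rw [Finset.sum_const, Finset.card_univ, nsmul_eq_mul, MomB_card, Fintype.card_fun (α := ι)]
  push_cast
  ring

/-- the number of zeros of an affine function -/
def MomB_w (e : F3) (G : Aff κ F3) : ℝ := ∑ u : κ → F3, if ev e G u = 0 then 1 else 0

theorem MomB_w_nonneg (e : F3) (G : Aff κ F3) : 0 ≤ MomB_w e G :=
  Finset.sum_nonneg fun _ _ => by split_ifs <;> norm_num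

theorem MomB_w_le (e : F3) (G : Aff κ F3) : MomB_w e G ≤ Fintype.card (κ → F3) := by
  refine (Finset.sum_le_sum (g := fun _ => (1 : ℝ)) fun _ _ => ?_).trans (by simp)
  split_ifs <;> norm_num

theorem MomB_w_eq (e : F3) (G : Aff κ F3) (h : G.1 ≠ 0) :
    MomB_w e G = Fintype.card (κ → F3) / 3 := by
  have h1 := count_aff e 0 G h
  rw [← h1, Finset.card_filter, MomB_w]
  push_cast
  ring

theorem MomB_w_zero (e : F3) (G : Aff κ F3) (he : e ≠ 0) (h1 : G.1 = 0) (h2 : G.2 ≠ 0) :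
    MomB_w e G = 0 :=
  Finset.sum_eq_zero fun u _ => if_neg (by simp [ev, h1, he, h2])

theorem MomB_cnt_w (e : ι → F3) (X : Aff κ F3) (Mm : Aff κ (Matrix (Fin 2) (Fin 2) F3))
    (f : Aff κ Vb) (n : ι → Vb) (φ : Fin 2) (hn : ∀ i j, n i φ = n j φ) {B : ℝ}
    (h : ∀ c, MomB_s n c ≤ B) :
    MomB_cnt e X Mm f n ≤ (∏ i, MomB_w (e i) (MomB_aff X Mm f (n i) φ)) * B := by
  unfold MomB_w
  rw [Fintype.prod_sum, Finset.sum_mul]
  refine Finset.sum_le_sum fun u _ => ?_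
  by_cases hu : ∀ i, ev (e i) (MomB_aff X Mm f (n i) φ) (u i) = 0
  · rw [Finset.prod_eq_one fun i _ => if_pos (hu i), one_mul]
    exact h _
  · obtain ⟨i, hi⟩ := not_forall.1 hu
    rw [Finset.prod_eq_zero (Finset.mem_univ i) (if_neg hi), zero_mul,
      MomB_s_zero _ _ φ hn i (by rwa [MomB_rhs_eq])]

theorem MomB_push {α β : Type} [Fintype α] [Fintype β] [DecidableEq α] (φ : β → α) (P : β → Prop)
    [DecidablePred P] (g : α → ℝ) :
    ∑ a, ∑ b, (if P b ∧ φ b = a then g a else 0) = ∑ b, if P b then g (φ b) else 0 := by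
  rw [Finset.sum_comm]
  refine Finset.sum_congr rfl fun b _ => ?_
  by_cases h : P b <;> simp [h]

/-- the four directions -/
def MomB_dd : Fin 4 → Vb := ![![1, 0], ![0, 1], ![1, 1], ![1, -1]]

theorem MomB_cover (g : (ι → Vb) → ℝ) (hg : ∀ n, 0 ≤ g n) :
    ∑ n, g n ≤ ∑ n, (if MomB_tri n then g n else 0) +
      ∑ k : Fin 4, ∑ t : Vb, ∑ c : ι → F3,
        (if ∃ u v, c u ≠ c v then g (fun i => t + c i • MomB_dd k) else 0) +
      ∑ w : Vb, g fun _ => w := by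
  have h1 := MomB_push (fun b : Fin 4 × Vb × (ι → F3) => fun i => b.2.1 + b.2.2 i • MomB_dd b.1)
    (fun b => ∃ u v, b.2.2 u ≠ b.2.2 v) g
  have h2 := MomB_push (fun w : Vb => fun _ : ι => w) (fun _ => True) g
  rw [Fintype.sum_prod_type] at h1
  simp only [Fintype.sum_prod_type (α₁ := Vb) (f := fun b : Vb × (ι → F3) => _)] at h1
  simp only [if_true] at h2
  rw [← h2]
  refine le_trans ?_ (le_of_eq (congrArg₂ (· + ·) (congrArg₂ (· + ·) rfl h1) rfl))
  rw [← Finset.sum_add_distrib, ← Finset.sum_add_distrib]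
  refine Finset.sum_le_sum fun n _ => ?_
  have p0 : ∀ (P : Prop) [Decidable P], 0 ≤ if P then g n else 0 := fun P _ => by
    split_ifs
    exacts [hg n, le_rfl]
  rcases plane_cases n with h | ⟨t, d, c, hd, hn⟩
  · rw [if_pos (show MomB_tri n from h), add_assoc]
    exact le_add_of_nonneg_right (add_nonneg (Finset.sum_nonneg fun _ _ => p0 _)
      (Finset.sum_nonneg fun _ _ => p0 _))
  by_cases hc : ∃ u v, c u ≠ c v
  · obtain ⟨k, rfl⟩ : ∃ k, d = MomB_dd k := by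
      rcases hd with h | h | h | h
      exacts [⟨0, h⟩, ⟨1, h⟩, ⟨2, h⟩, ⟨3, h⟩]
    refine le_add_of_le_of_nonneg (le_add_of_nonneg_of_le (p0 _) ?_)
      (Finset.sum_nonneg fun _ _ => p0 _)
    refine le_trans (le_of_eq ?_) (Finset.single_le_sum (fun _ _ => p0 _)
      (Finset.mem_univ (k, t, c)))
    rw [if_pos ⟨hc, (funext hn).symm⟩]
  · obtain ⟨w, hw⟩ : ∃ w, (fun _ => w) = n := by
      rcases isEmpty_or_nonempty ι with h | ⟨⟨i0⟩⟩
      · exact ⟨0, funext fun i => h.elim i⟩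
      · refine ⟨n i0, funext fun i => ?_⟩
        push Not at hc
        rw [hn, hn, hc i0 i]
    refine le_add_of_nonneg_of_le (add_nonneg (p0 _) (Finset.sum_nonneg fun _ _ => p0 _)) ?_
    refine le_trans (le_of_eq ?_) (Finset.single_le_sum (fun _ _ => p0 _) (Finset.mem_univ w))
    rw [if_pos ⟨trivial, hw⟩]

theorem MomB_dd_ex (k : Fin 4) : ∃ φ, MomB_dd k φ = 1 := by
  fin_cases k
  exacts [⟨0, rfl⟩, ⟨1, rfl⟩, ⟨0, rfl⟩, ⟨0, rfl⟩]

theorem MomB_s_line (k : Fin 4) (t : Vb) (c : ι → F3) (hc : ∃ u v, c u ≠ c v) (y : ι → Vb) :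
    MomB_s (fun i => t + c i • MomB_dd k) y ≤
      9 / 3 ^ Fintype.card ι * Fintype.card (Prs ι → F3) := by
  obtain ⟨u, v, h⟩ := hc
  obtain ⟨φ, hφ⟩ := MomB_dd_ex k
  exact MomB_s_nc _ _ φ u v (by simpa [hφ] using h)

theorem MomB_cardV : Fintype.card Vb = 9 := by simp

theorem MomB_all (e : ι → F3) (X : Aff κ F3) (Mm : Aff κ (Matrix (Fin 2) (Fin 2) F3))
    (f : Aff κ Vb) : ∑ n, MomB_cnt e X Mm f n ≤ 1062 * Fintype.card (Cfg ι κ) := by
  refine (MomB_cover _ (MomB_cnt_nonneg e X Mm f)).trans ?_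
  have h1 : ∑ n, (if MomB_tri n then MomB_cnt e X Mm f n else 0) ≤
      ∑ _n : ι → Vb, 729 / 9 ^ Fintype.card ι * (Fintype.card (Cfg ι κ) : ℝ) :=
    Finset.sum_le_sum fun n _ => by
      split_ifs with h
      · exact MomB_cnt_le e X Mm f n fun c => MomB_s_tri n c h
      · positivity
  have h2 : ∑ k : Fin 4, ∑ t : Vb, ∑ c : ι → F3, (if ∃ u v, c u ≠ c v then
      MomB_cnt e X Mm f (fun i => t + c i • MomB_dd k) else 0) ≤ ∑ _k : Fin 4, ∑ _t : Vb,
      ∑ _c : ι → F3, 9 / 3 ^ Fintype.card ι * (Fintype.card (Cfg ι κ) : ℝ) :=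
    Finset.sum_le_sum fun k _ => Finset.sum_le_sum fun t _ => Finset.sum_le_sum fun c _ => by
      split_ifs with h
      · exact MomB_cnt_le e X Mm f _ (MomB_s_line k t c h)
      · positivity
  have h3 : ∑ w : Vb, MomB_cnt e X Mm f (fun _ => w) ≤
      ∑ _w : Vb, 1 * (Fintype.card (Cfg ι κ) : ℝ) :=
    Finset.sum_le_sum fun w _ => MomB_cnt_le e X Mm f _ fun c => by
      rw [one_mul]
      exact MomB_s_le _ _
  refine (add_le_add (add_le_add h1 h2) h3).trans (le_of_eq ?_)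
  simp only [Finset.sum_const, Finset.card_univ, nsmul_eq_mul, Fintype.card_fun (α := ι),
    MomB_cardV, ZMod.card, Fintype.card_fin]
  push_cast
  field_simp
  ring

theorem MomB_cardA : (Fintype.card (Aff κ Vb) : ℝ) = 9 ^ (Fintype.card κ + 1) := by
  rw [Fintype.card_prod, Fintype.card_fun (α := κ), MomB_cardV, pow_succ]
  push_cast
  rfl

/-- some value is taken rarely on `L` -/
def MomB_few {α ι : Type} (K : ℕ) (L : Finset ι) (n : ι → α) : Prop :=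
  ∃ a, (L.filter fun i => n i = a).card < K

theorem MomB_full (α : Type) [Fintype α] (K : ℕ) {ε : ℝ} (hε : 0 < ε) :
    ∃ A : ℕ, ∀ {ι : Type} [Fintype ι] [DecidableEq ι] (L : Finset ι) (g : (ι → α) → ℝ) (B : ℝ),
      A ≤ L.card → 0 ≤ B → (∀ n, g n ≤ if MomB_few K L n then B else 0) →
      ∑ n, g n ≤ ε * (Fintype.card α : ℝ) ^ Fintype.card ι * B := by
  obtain ⟨A, hA⟩ := count_full α K hε
  refine ⟨A, fun {ι} _ _ L g B hL hB hg => (Finset.sum_le_sum fun n _ => hg n).trans ?_⟩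
  rw [← Finset.sum_filter, Finset.sum_const, nsmul_eq_mul]
  refine mul_le_mul_of_nonneg_right ?_ hB
  refine le_trans (Nat.cast_le.2 (Finset.card_le_card fun n hn => ?_)) (hA L hL)
  simp only [Finset.mem_filter, Finset.mem_univ, true_and] at hn ⊢
  exact hn

omit [Fintype ι] [LinearOrder ι] in
theorem MomB_gen {α : Type} (K : ℕ) (L : Finset ι) (c : ι → α) (ψ : α → Vb) (a0 a1 a2 : α)
    (h12 : a1 ≠ a2) (h : hb (ψ a1 - ψ a0) (ψ a2 - ψ a0) ≠ 0) (hc : ¬ MomB_few (K + 1) L c) :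
    GenS K L fun i => ψ (c i) := by
  have hk : ∀ a, K + 1 ≤ (L.filter fun i => c i = a).card := fun a =>
    not_lt.1 fun h' => hc ⟨a, h'⟩
  obtain ⟨U, hU, hUc⟩ := Finset.exists_subset_card_eq ((Nat.le_succ K).trans (hk a0))
  obtain ⟨a, ha⟩ := Finset.card_pos.1 ((Nat.succ_pos K).trans_le (hk a1))
  obtain ⟨b, hb'⟩ := Finset.card_pos.1 ((Nat.succ_pos K).trans_le (hk a2))
  rw [Finset.mem_filter] at ha hb'
  have hU' : ∀ i ∈ U, c i = a0 := fun i hi => (Finset.mem_filter.1 (hU hi)).2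
  refine ⟨ψ a0, U, a, b, hU.trans (Finset.filter_subset _ _), hUc, ha.1, hb'.1, fun h' => h ?_,
    fun h' => h ?_, fun h' => h12 ?_, fun i hi => congrArg ψ (hU' i hi), ?_⟩
  · rw [← ha.2, hU' a h']
    simp [hb]
  · rw [← hb'.2, hU' b h']
    simp [hb]
  · rw [← ha.2, h', hb'.2]
  · simpa only [ha.2, hb'.2] using h

theorem MomB_w_sum (e : F3) (X : Aff κ F3) (Mm : Aff κ (Matrix (Fin 2) (Fin 2) F3))
    (f : Aff κ Vb) (t d : Vb) (φ : Fin 2) (hd : d φ = 0) (hM : ∃ a, (Mm.1 a).mulVec d φ ≠ 0) :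
    ∑ γ : F3, MomB_w e (MomB_aff X Mm f (t + γ • d) φ) ≤ 5 / 3 * Fintype.card (κ → F3) := by
  obtain ⟨a, ha⟩ := hM
  obtain ⟨γ0, h0⟩ : ∃ γ0 : F3, ∀ γ ≠ γ0, (MomB_aff X Mm f (t + γ • d) φ).1 ≠ 0 := by
    refine ⟨(X.1 a • t - (Mm.1 a).mulVec t - f.1 a) φ / (Mm.1 a).mulVec d φ, fun γ hγ h => hγ ?_⟩
    have h1 := congrFun h a
    simp only [MomB_aff, Matrix.mulVec_add, Matrix.mulVec_smul, Pi.sub_apply, Pi.add_apply,
      Pi.smul_apply, hd, smul_eq_mul, Pi.zero_apply] at h1 ⊢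
    rw [eq_div_iff ha]
    linear_combination -h1
  have h1 : ∀ γ : F3, MomB_w e (MomB_aff X Mm f (t + γ • d) φ) ≤ Fintype.card (κ → F3) / 3 +
      if γ = γ0 then 2 / 3 * (Fintype.card (κ → F3) : ℝ) else 0 := fun γ => by
    split_ifs with h
    · linarith only [MomB_w_le e (MomB_aff X Mm f (t + γ • d) φ)]
    · rw [MomB_w_eq _ _ (h0 γ h), add_zero]
  refine (Finset.sum_le_sum fun γ _ => h1 γ).trans (le_of_eq ?_)
  rw [Finset.sum_add_distrib, Finset.sum_ite_eq', if_pos (Finset.mem_univ _), Finset.sum_const,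
    Finset.card_univ, ZMod.card, nsmul_eq_mul]
  push_cast
  ring

theorem MomB_axis (e : ι → F3) (X : Aff κ F3) (Mm : Aff κ (Matrix (Fin 2) (Fin 2) F3))
    (f : Aff κ Vb) (k : Fin 4) (t : Vb) (φ : Fin 2) (hd : MomB_dd k φ = 0)
    (hM : ∃ a, (Mm.1 a).mulVec (MomB_dd k) φ ≠ 0) :
    ∑ c : ι → F3, (if ∃ u v, c u ≠ c v then MomB_cnt e X Mm f (fun i => t + c i • MomB_dd k)
      else 0) ≤ 9 * (5 / 9) ^ Fintype.card ι * Fintype.card (Cfg ι κ) := by
  have h1 : ∀ c : ι → F3, (if ∃ u v, c u ≠ c v then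
      MomB_cnt e X Mm f (fun i => t + c i • MomB_dd k) else 0) ≤
      (∏ i, MomB_w (e i) (MomB_aff X Mm f (t + c i • MomB_dd k) φ)) *
        (9 / 3 ^ Fintype.card ι * Fintype.card (Prs ι → F3)) := fun c => by
    split_ifs with h
    · exact MomB_cnt_w e X Mm f _ φ (fun i j => by simp [hd]) (MomB_s_line k t c h)
    · exact mul_nonneg (Finset.prod_nonneg fun _ _ => MomB_w_nonneg _ _) (by positivity)
  refine (Finset.sum_le_sum fun c _ => h1 c).trans ?_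
  rw [← Finset.sum_mul, ← Fintype.prod_sum
    (fun i (γ : F3) => MomB_w (e i) (MomB_aff X Mm f (t + γ • MomB_dd k) φ))]
  refine (mul_le_mul_of_nonneg_right (Finset.prod_le_prod
    (fun i _ => Finset.sum_nonneg fun _ _ => MomB_w_nonneg _ _)
    fun i _ => MomB_w_sum (e i) X Mm f t _ φ hd hM) (by positivity)).trans (le_of_eq ?_)
  rw [Finset.prod_const, Finset.card_univ, MomB_card, mul_pow, div_pow, div_pow,
    show (9 : ℝ) ^ Fintype.card ι = 3 ^ Fintype.card ι * 3 ^ Fintype.card ι by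
      rw [← mul_pow]; norm_num]
  field_simp

theorem MomB_const (e : ι → F3) (X : Aff κ F3) (Mm : Aff κ (Matrix (Fin 2) (Fin 2) F3))
    (f : Aff κ Vb) (w : Vb) (he : ∃ i, e i ≠ 0) (h : ¬ TrivS X Mm (f, fun _ : ι => w)) :
    MomB_cnt e X Mm f (fun _ => w) ≤ (5 / 9) ^ Fintype.card ι * Fintype.card (Cfg ι κ) := by
  obtain ⟨φ, hφ⟩ : ∃ φ, (MomB_aff X Mm f w φ).1 ≠ 0 ∨ (MomB_aff X Mm f w φ).2 ≠ 0 := by
    by_contra h'
    push Not at h'
    refine h ⟨-w, fun _ => (neg_neg w).symm, fun a => funext fun φ => ?_, funext fun φ => ?_⟩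
    · have h1 := congrFun (h' φ).1 a
      simp only [MomB_aff, Matrix.mulVec_neg, Pi.sub_apply, Pi.add_apply, Pi.neg_apply,
        Pi.smul_apply, smul_eq_mul, Pi.zero_apply] at h1 ⊢
      linear_combination -h1
    · have h1 := (h' φ).2
      simp only [MomB_aff, Matrix.mulVec_neg, Pi.sub_apply, Pi.add_apply, Pi.neg_apply,
        Pi.smul_apply, smul_eq_mul] at h1 ⊢
      linear_combination -h1
  refine (MomB_cnt_w e X Mm f _ φ (fun _ _ => rfl) fun c => MomB_s_le _ c).trans ?_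
  by_cases h1 : (MomB_aff X Mm f w φ).1 = 0
  · obtain ⟨i, hi⟩ := he
    rw [Finset.prod_eq_zero (Finset.mem_univ i)
      (MomB_w_zero _ _ hi h1 (hφ.resolve_left fun h' => h' h1)), zero_mul]
    positivity
  · rw [Finset.prod_congr rfl fun i _ => MomB_w_eq (e i) _ h1, Finset.prod_const,
      Finset.card_univ, MomB_card, ← mul_assoc, ← mul_pow]
    refine mul_le_mul_of_nonneg_right (pow_le_pow_left₀ (by positivity) ?_ _) (by positivity)
    have : (0 : ℝ) ≤ Fintype.card (κ → F3) := by positivity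
    linarith only []

theorem MomB_bad (K : ℕ) {ε : ℝ} (hε : 0 < ε) :
    ∃ A : ℕ, ∀ {ι κ : Type} [Fintype ι] [LinearOrder ι] [Fintype κ] (L : Finset ι) (e : ι → F3)
      (X : Aff κ F3) (Mm : Aff κ (Matrix (Fin 2) (Fin 2) F3)) (f : Aff κ Vb)
      (g : (ι → Vb) → ℝ), A ≤ L.card → (∃ i, e i ≠ 0) → (∃ a, Mm.1 a 0 1 ≠ 0) →
      (∃ a, Mm.1 a 1 0 ≠ 0) → (∀ n, 0 ≤ g n) → (∀ n, g n ≤ MomB_cnt e X Mm f n) →
      (∀ n, TrivS X Mm (f, n) → g n = 0) → (∀ n, GenS K L n → g n = 0) →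
      ∑ n, g n ≤ 1062 * ε * Fintype.card (Cfg ι κ) := by
  obtain ⟨A1, hA1⟩ := MomB_full Vb (K + 1) hε
  obtain ⟨A2, hA2⟩ := MomB_full F3 (K + 1) hε
  obtain ⟨A3, hA3⟩ := exists_pow_lt_of_lt_one hε (show (5 / 9 : ℝ) < 1 by norm_num)
  refine ⟨A1 + A2 + A3, fun {ι κ} _ _ _ L e X Mm f g hL he h01 h10 g0 g1 gT gG => ?_⟩
  have hN : (0 : ℝ) ≤ Fintype.card (Cfg ι κ) := by positivity
  have hp : (5 / 9 : ℝ) ^ Fintype.card ι ≤ ε :=
    (pow_le_pow_of_le_one (by norm_num) (by norm_num)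
      (le_trans (by omega) (Finset.card_le_univ L))).trans hA3.le
  refine (MomB_cover g g0).trans ?_
  have h1 : ∑ n, (if MomB_tri n then g n else 0) ≤ 729 * ε * Fintype.card (Cfg ι κ) := by
    refine (hA1 L _ (729 / 9 ^ Fintype.card ι * (Fintype.card (Cfg ι κ) : ℝ)) (by omega)
      (by positivity) fun n => ?_).trans (le_of_eq ?_)
    · split_ifs with ht hf hf
      · exact (g1 n).trans (MomB_cnt_le e X Mm f n fun c => MomB_s_tri n c ht)
      · exact (gG n (MomB_gen K L n id 0 ![1, 0] ![0, 1] (by decide) (by decide) hf)).le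
      · positivity
      · exact le_rfl
    · rw [MomB_cardV]
      push_cast
      field_simp
  have h2 : ∀ (k : Fin 4) (t : Vb), ∑ c : ι → F3, (if ∃ u v, c u ≠ c v then
      g (fun i => t + c i • MomB_dd k) else 0) ≤ 9 * ε * Fintype.card (Cfg ι κ) := fun k t => by
    by_cases hk : ∃ φ, MomB_dd k φ = 0 ∧ ∃ a, (Mm.1 a).mulVec (MomB_dd k) φ ≠ 0
    · obtain ⟨φ, hd, hM⟩ := hk
      refine le_trans (Finset.sum_le_sum fun c _ => ?_)
        ((MomB_axis e X Mm f k t φ hd hM).trans (by gcongr))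
      split_ifs
      exacts [g1 _, le_rfl]
    have hh : hb (MomB_dd k) (MomB_dd k) ≠ 0 := by
      fin_cases k
      · exact (hk ⟨1, rfl, by simpa [MomB_dd, Matrix.mulVec, dotProduct] using h10⟩).elim
      · exact (hk ⟨0, rfl, by simpa [MomB_dd, Matrix.mulVec, dotProduct] using h01⟩).elim
      · decide
      · decide
    refine (hA2 L _ (9 / 3 ^ Fintype.card ι * (Fintype.card (Cfg ι κ) : ℝ)) (by omega)
      (by positivity) fun c => ?_).trans (le_of_eq ?_)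
    · split_ifs with ht hf hf
      · exact (g1 _).trans (MomB_cnt_le e X Mm f _ (MomB_s_line k t c ht))
      · refine (gG _ (MomB_gen K L c (fun γ => t + γ • MomB_dd k) 0 1 (-1) (by decide)
          (fun h => hh ?_) hf)).le
        simp only [hb, Pi.sub_apply, Pi.add_apply, Pi.smul_apply, smul_eq_mul] at h ⊢
        linear_combination -h
      · positivity
      · exact le_rfl
    · rw [ZMod.card]
      push_cast
      field_simp
  have h3 : ∀ w : Vb, g (fun _ => w) ≤ ε * Fintype.card (Cfg ι κ) := fun w => by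
    by_cases h : TrivS X Mm (f, fun _ : ι => w)
    · rw [gT _ h]
      positivity
    · exact (g1 _).trans ((MomB_const e X Mm f w he h).trans (by gcongr))
  refine (add_le_add (add_le_add h1 (Finset.sum_le_sum fun k _ => Finset.sum_le_sum fun t _ =>
    h2 k t)) (Finset.sum_le_sum fun w _ => h3 w)).trans (le_of_eq ?_)
  simp only [Finset.sum_const, Finset.card_univ, nsmul_eq_mul, MomB_cardV, Fintype.card_fin]
  push_cast
  ring

end Aux

end

theorem moment_all {ι κ : Type} [Fintype ι] [LinearOrder ι] [Fintype κ] (e : ι → F3)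
    (X : Aff κ F3) (Mm : Aff κ (Matrix (Fin 2) (Fin 2) F3)) :
    ∑ c : Cfg ι κ, (Sol e X Mm c).card ≤
      2000 * 9 ^ (Fintype.card κ + 1) * Fintype.card (Cfg ι κ) := by
  have h := MomB_swap e X Mm fun _ => True
  simp only [Finset.filter_true, if_true] at h
  have h2 : ∑ c : Cfg ι κ, ((Sol e X Mm c).card : ℝ) ≤
      2000 * 9 ^ (Fintype.card κ + 1) * Fintype.card (Cfg ι κ) := by
    rw [h]
    refine (Finset.sum_le_sum fun f _ => MomB_all e X Mm f).trans ?_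
    rw [Finset.sum_const, Finset.card_univ, nsmul_eq_mul, MomB_cardA, ← mul_assoc,
      mul_comm _ (1062 : ℝ)]
    gcongr
    norm_num
  exact_mod_cast h2

theorem moment_bad (K m : ℕ) {ε : ℝ} (hε : 0 < ε) :
    ∃ A : ℕ, ∀ {ι κ : Type} [Fintype ι] [LinearOrder ι] [Fintype κ] (L : Finset ι) (e : ι → F3)
      (X : Aff κ F3) (Mm : Aff κ (Matrix (Fin 2) (Fin 2) F3)), Fintype.card κ ≤ m →
      A ≤ L.card → (∃ i, e i ≠ 0) → (∃ a, Mm.1 a 0 1 ≠ 0) → (∃ a, Mm.1 a 1 0 ≠ 0) →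
      ∑ c : Cfg ι κ, (((Sol e X Mm c).filter fun z =>
        ¬ TrivS X Mm z ∧ ¬ GenS K L z.2).card : ℝ) ≤ ε * Fintype.card (Cfg ι κ) := by
  obtain ⟨A, hA⟩ := MomB_bad K (ε := ε / (1062 * 9 ^ (m + 1))) (by positivity)
  refine ⟨A, fun {ι κ} _ _ _ L e X Mm hm hL he h01 h10 => ?_⟩
  rw [MomB_swap]
  refine (Finset.sum_le_sum fun f _ => hA L e X Mm f _ hL he h01 h10 (fun n => ?_) (fun n => ?_)
    (fun n h => if_neg fun h' => h'.1 h) fun n h => if_neg fun h' => h'.2 h).trans ?_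
  · split_ifs
    exacts [MomB_cnt_nonneg e X Mm f n, le_rfl]
  · split_ifs
    exacts [le_rfl, MomB_cnt_nonneg e X Mm f n]
  rw [Finset.sum_const, Finset.card_univ, nsmul_eq_mul, MomB_cardA, ← mul_assoc]
  refine mul_le_mul_of_nonneg_right ?_ (by positivity)
  have h9 : (9 : ℝ) ^ (Fintype.card κ + 1) ≤ 9 ^ (m + 1) :=
    pow_le_pow_right₀ (by norm_num) (by omega)
  refine (mul_le_mul_of_nonneg_right h9 (by positivity)).trans (le_of_eq ?_)
  field_simp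

end Pool.Agent.Smith
end

-- merged part: Pool.Agent.Work.MP_60d5ce_nt.Sm.BoxC
section
/-!
# In a box, almost all twists have only trivial classes of high level

Hints.
* `fib_iter`: `a m` = number of `p` in the fibre that lift to level `2 m`; `fib_step` with
  `ε' = min (1 / 4) (ε / 8)` and `Lifts.mono` give `a (m + 1) ≤ (3 / 4) * a m + ε' * card`, for
  `1 ≤ m ≤ m0`; `K = 2 m0`, `B` the maximum (`Small.mono`); `lab` is built from an injection of
  `Fin k` in `U`.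
* `box`: `C = 2000 * 9 ^ (m + 1)`, `Rb` with `2 C / Rb ≤ ε / 3`, `fib_iter` with `ε / (3 Rb)`,
  `moment_bad` with `ε / 6` (`ram01`, `ram10`).  A bad `p` has a nontrivial solution that lifts
  (`exists_sol`): either `Sol (cfg p)` has more than `Rb` elements (Markov, `moment_all`, `fib_card`),
  or the solution is not generic, or it is generic.
-/

namespace Pool.Agent.Smith

open scoped Classical

theorem boxC_SmL {W P : Type} [Group W] {T : Tame W P} {R : Rep T} {ι : Type} [Fintype ι]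
    [LinearOrder ι] (X : Box R ι) {B B' : ℕ} (hB : 0 < B') (h : B' ≤ B) {L : Finset ι}
    (hs : X.SmL B L) : X.SmL B' L := by
  intro j hj
  refine (hs j hj).mono ?_ (Nat.mul_le_mul_right _ h) ?_
  · exact one_div_le_one_div_of_le (Nat.cast_pos.2 hB) (Nat.cast_le.2 h)
  · exact Nat.add_le_add_left (Nat.mul_le_mul_right _ h) _

theorem boxC_fin {W P : Type} [Group W] {T : Tame W P} {R : Rep T} {ι : Type} [Fintype ι]
    [LinearOrder ι] (X : Box R ι) (c : Cfg ι X.κ) : (X.fib c).Finite :=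
  Box.pts_finite.subset fun _ h => h.1

theorem boxC_iter (Rb : ℕ) {δ : ℝ} (hδ : 0 < δ) (hδ4 : δ ≤ 1 / 4) (m : ℕ) :
    ∃ B : ℕ, 0 < B ∧ ∀ {W P : Type} [Group W] {T : Tame W P} {R : Rep T} {ι : Type} [Fintype ι]
      [LinearOrder ι] (X : Box R ι) (L : Finset ι) (c : Cfg ι X.κ) (z : Aff X.κ Vb × (ι → Vb))
      (K : ℕ), 2 * m ≤ K → GenS K L z.2 → (X.Sol c).card ≤ Rb → X.SmL B L →
      ({p | p ∈ X.fib c ∧ R.Lifts (X.A p) (X.x p) (2 * m + 1) (X.w p z)}.ncard : ℝ) ≤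
        ((3 / 4) ^ m + 4 * δ) * (X.fib c).ncard := by
  induction m with
  | zero =>
    refine ⟨1, one_pos, ?_⟩
    intro W P _ T R ι _ _ X L c z K _ _ _ _
    have h1 : ({p | p ∈ X.fib c ∧ R.Lifts (X.A p) (X.x p) (2 * 0 + 1) (X.w p z)}.ncard : ℝ) ≤
        (X.fib c).ncard :=
      Nat.cast_le.2 (Set.ncard_le_ncard (fun _ h => h.1) (boxC_fin X c))
    have h2 : (0 : ℝ) ≤ (X.fib c).ncard := Nat.cast_nonneg _
    linarith only [h1, hδ, mul_nonneg_of_nonpos_of_nonpos (Mathlib.Tactic.Linarith.sub_nonpos_of_le (Mathlib.Tactic.Linarith.natCast_nonneg ℝ (X.fib c).ncard)) (le_of_lt (Mathlib.Tactic.Linarith.sub_neg_of_lt hδ))]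
  | succ m ih =>
    obtain ⟨B1, hB1, H1⟩ := ih
    obtain ⟨B2, hB2, H2⟩ := fib_step (k := 2 * (m + 1)) (by omega) (even_two_mul _) Rb hδ
    refine ⟨max B1 B2, lt_max_of_lt_left hB1, ?_⟩
    intro W P _ T R ι _ _ X L c z K hK hG hS hL
    have h1 := H1 X L c z K (by omega) hG hS (boxC_SmL X hB1 (le_max_left _ _) hL)
    obtain ⟨t, U, a, b, hUL, hUc, ha, hb', haU, hbU, hab, hU, hne⟩ := hG
    have hk : 2 * (m + 1) ≤ U.card := hUc ▸ hK
    have hf := U.orderEmbOfCardLe_mem hk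
    have h2 := H2 X L c z t (fun j => j.elim b fun j' => j'.elim a fun i => U.orderEmbOfCardLe hk i)
      (by
        rintro (_ | _ | i) (_ | _ | j) h
        · rfl
        · exact absurd h.symm hab
        · exact absurd (hf j) ((show b = U.orderEmbOfCardLe hk j from h) ▸ hbU)
        · exact absurd h hab
        · rfl
        · exact absurd (hf j) ((show a = U.orderEmbOfCardLe hk j from h) ▸ haU)
        · exact absurd (hf i) ((show U.orderEmbOfCardLe hk i = b from h).symm ▸ hbU)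
        · exact absurd (hf i) ((show U.orderEmbOfCardLe hk i = a from h).symm ▸ haU)
        · rw [(U.orderEmbOfCardLe hk).injective h])
      (by
        rintro (_ | _ | i)
        · exact hb'
        · exact ha
        · exact hUL (hf i))
      (fun i => hU _ (hf i)) hne hS (boxC_SmL X hB2 (le_max_right _ _) hL)
    have h3 : ({p | p ∈ X.fib c ∧ R.Lifts (X.A p) (X.x p) (2 * (m + 1)) (X.w p z)}.ncard : ℝ) ≤
        {p | p ∈ X.fib c ∧ R.Lifts (X.A p) (X.x p) (2 * m + 1) (X.w p z)}.ncard :=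
      Nat.cast_le.2 (Set.ncard_le_ncard (fun _ h => ⟨h.1, h.2.mono (by omega)⟩)
        ((boxC_fin X c).subset fun _ h => h.1))
    have h4 : (0 : ℝ) ≤
        {p | p ∈ X.fib c ∧ R.Lifts (X.A p) (X.x p) (2 * (m + 1)) (X.w p z)}.ncard :=
      Nat.cast_nonneg _
    refine h2.trans ?_
    rw [pow_succ]
    linarith only [h1, h3, hδ4, mul_nonneg_of_nonpos_of_nonpos (Mathlib.Tactic.Linarith.sub_nonpos_of_le (Mathlib.Tactic.Linarith.natCast_nonneg ℝ {p | p ∈ X.fib c ∧ R.Lifts (X.A p) (X.x p) ((2 : ℕ) * (m + (1 : ℕ))) (X.w p z)}.ncard)) (Mathlib.Tactic.Linarith.sub_nonpos_of_le hδ4)]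

theorem boxC_fibers {α β : Type} [Fintype β] {S : Set α} (hS : S.Finite) (f : α → β) :
    (S.ncard : ℝ) = ∑ c, ({p | p ∈ S ∧ f p = c}.ncard : ℝ) := by
  rw [Set.ncard_eq_toFinset_card S hS, Finset.card_eq_sum_card_fiberwise (f := f) (t := Finset.univ)
    fun _ _ => Finset.mem_coe.2 (Finset.mem_univ _), Nat.cast_sum]
  refine Finset.sum_congr rfl fun c _ => ?_
  rw [← Set.ncard_coe_finset]
  congr 2
  ext p
  simp

theorem boxC_cover {α β : Type} {S : Set α} (Z : Finset β) (F : β → Set α)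
    (hF : ∀ z ∈ Z, (F z).Finite) (h : ∀ p ∈ S, ∃ z ∈ Z, p ∈ F z) :
    (S.ncard : ℝ) ≤ ∑ z ∈ Z, ((F z).ncard : ℝ) := by
  have h1 : S ⊆ ⋃ z ∈ Z, F z := fun p hp => by
    obtain ⟨z, hz, hp⟩ := h p hp
    exact Set.mem_biUnion hz hp
  have h2 : (⋃ z ∈ Z, F z).Finite := Z.finite_toSet.biUnion hF
  exact_mod_cast (Set.ncard_le_ncard h1 h2).trans (Finset.set_ncard_biUnion_le Z F)

theorem fib_iter (Rb : ℕ) {ε : ℝ} (hε : 0 < ε) :
    ∃ K B : ℕ, 0 < B ∧ ∀ {W P : Type} [Group W] {T : Tame W P} {R : Rep T} {ι : Type} [Fintype ι]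
      [LinearOrder ι] (X : Box R ι) (L : Finset ι) (c : Cfg ι X.κ) (z : Aff X.κ Vb × (ι → Vb)),
      GenS K L z.2 → (X.Sol c).card ≤ Rb → X.SmL B L →
      ({p | p ∈ X.fib c ∧ R.Lifts (X.A p) (X.x p) (K + 1) (X.w p z)}.ncard : ℝ) ≤
        ε * (X.fib c).ncard := by
  obtain ⟨m, hm⟩ := exists_pow_lt_of_lt_one (half_pos hε) (by norm_num : (3 / 4 : ℝ) < 1)
  obtain ⟨B, hB, H⟩ := boxC_iter Rb (δ := min (1 / 4) (ε / 8)) (lt_min (by norm_num) (by positivity))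
    (min_le_left _ _) m
  refine ⟨2 * m, B, hB, fun X L c z hG hS hL => (H X L c z _ le_rfl hG hS hL).trans ?_⟩
  refine mul_le_mul_of_nonneg_right ?_ (Nat.cast_nonneg _)
  linarith only [hm, min_le_right (1 / 4 : ℝ) (ε / 8)]

theorem boxC_inst {α R : Type} [Semiring R] [LE R] (i j : Fintype α) (f : α → R) (r : R)
    (h : (@Finset.univ α i).sum f ≤ r * @Fintype.card α i) :
    (@Finset.univ α j).sum f ≤ r * @Fintype.card α j := by
  cases Subsingleton.elim i j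
  exact h

theorem box (m : ℕ) {ε : ℝ} (hε : 0 < ε) :
    ∃ K A B : ℕ, 0 < B ∧ ∀ {W P : Type} [Group W] {T : Tame W P} {R : Rep T} {ι : Type}
      [Fintype ι] [LinearOrder ι] (X : Box R ι) (L : Finset ι) (η : ι → ℝ), X.S1.card ≤ m →
      A ≤ L.card → (∃ i, ¬ 3 ∣ X.e i) → X.SmA η → X.SmL B L →
      ({p | p ∈ X.pts ∧ ¬ R.Triv (X.x p) K}.ncard : ℝ) ≤ ε * X.pts.ncard := by
  obtain ⟨Rb, hRb⟩ := exists_nat_gt (6 * (2000 * 9 ^ (m + 1)) / ε)
  have hRb0 : (0 : ℝ) < Rb := lt_trans (by positivity) hRb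
  obtain ⟨K, B, hB, H1⟩ := fib_iter Rb (ε := ε / (3 * Rb)) (by positivity)
  obtain ⟨A, H2⟩ := moment_bad K m (ε := ε / 6) (by positivity)
  refine ⟨K + 1, A, B, hB, ?_⟩
  intro W P _ T R ι _ _ X L η hm hA he hη hL
  have hκ : Fintype.card X.κ ≤ m := by
    rw [Fintype.card_coe]
    exact Finset.card_erase_le.trans hm
  have h2 := H2 L (fun i => (X.e i : F3)) (X.aff X.x0) (X.aff R.M) hκ hA
    (by
      obtain ⟨i, hi⟩ := he
      exact ⟨i, fun h => hi ((ZMod.natCast_eq_zero_iff _ _).1 h)⟩)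
    (by
      obtain ⟨s, hs, hs1, hs2⟩ := R.ram01
      exact ⟨⟨s, Finset.mem_erase.2 ⟨hs1, X.S_sub hs⟩⟩, hs2⟩)
    (by
      obtain ⟨s, hs, hs1, hs2⟩ := R.ram10
      exact ⟨⟨s, Finset.mem_erase.2 ⟨hs1, X.S_sub hs⟩⟩, hs2⟩)
  have h3 := moment_all (fun i => (X.e i : F3)) (X.aff X.x0) (X.aff R.M)
  set Q : ℝ := (Fintype.card (Cfg ι X.κ) : ℝ) with hQ
  have hQ0 : 0 < Q := Nat.cast_pos.2 Fintype.card_pos
  set N : ℝ := (X.pts.ncard : ℝ) with hN
  have hN0 : 0 ≤ N := Nat.cast_nonneg _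
  set b : Cfg ι X.κ → ℝ := fun c => ((X.Sol c).filter fun z =>
    ¬ TrivS (X.aff X.x0) (X.aff R.M) z ∧ ¬ GenS K L z.2).card with hb
  have h2' : ∑ c, b c ≤ ε / 6 * Q := by
    exact boxC_inst _ _ _ _ h2
  have h3' : ∑ c, ((X.Sol c).card : ℝ) ≤ 2000 * 9 ^ (m + 1) * Q := by
    have h4 : ∑ c, (X.Sol c).card ≤ 2000 * 9 ^ (Fintype.card X.κ + 1) * Fintype.card (Cfg ι X.κ) := by
      exact boxC_inst (R := ℕ) _ _ _ _ h3
    have h5 : ∑ c, (X.Sol c).card ≤ 2000 * 9 ^ (m + 1) * Fintype.card (Cfg ι X.κ) :=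
      h4.trans (by gcongr; norm_num)
    rw [hQ]
    exact_mod_cast h5
  have hF : ∀ c, ((X.fib c).ncard : ℝ) ≤ 2 * N / Q := fun c => by
    rw [le_div_iff₀ hQ0, hN, hQ]
    exact_mod_cast Box.fib_card hη c
  have hc : ∀ c, ({p | p ∈ {p | p ∈ X.pts ∧ ¬ R.Triv (X.x p) (K + 1)} ∧ X.cfg p = c}.ncard : ℝ) ≤
      ((X.Sol c).card / Rb + b c) * (2 * N / Q) + ε / 3 * (X.fib c).ncard := by
    intro c
    have hF0 : (0 : ℝ) ≤ (X.fib c).ncard := Nat.cast_nonneg _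
    have hb0 : 0 ≤ b c := Nat.cast_nonneg _
    have hs0 : (0 : ℝ) ≤ (X.Sol c).card / Rb := div_nonneg (Nat.cast_nonneg _) hRb0.le
    have hq : 0 ≤ 2 * N / Q := div_nonneg (mul_nonneg zero_le_two hN0) hQ0.le
    by_cases hbig : 1 ≤ (X.Sol c).card / (Rb : ℝ) + b c
    · have h6 : ({p | p ∈ {p | p ∈ X.pts ∧ ¬ R.Triv (X.x p) (K + 1)} ∧ X.cfg p = c}.ncard : ℝ) ≤
          (X.fib c).ncard :=
        Nat.cast_le.2 (Set.ncard_le_ncard (fun _ h => ⟨h.1.1, h.2⟩) (boxC_fin X c))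
      have h7 : 0 ≤ ε / 3 * (X.fib c).ncard := mul_nonneg (div_nonneg hε.le zero_le_three) hF0
      exact ((h6.trans (hF c)).trans (le_mul_of_one_le_left hq hbig)).trans (le_add_of_nonneg_right h7)
    · have h6 : ((X.Sol c).card : ℝ) ≤ Rb := by
        rw [← div_le_one hRb0]
        linarith only [hb0, hbig]
      have h7 : ((X.Sol c).filter fun z =>
          ¬ TrivS (X.aff X.x0) (X.aff R.M) z ∧ ¬ GenS K L z.2) = ∅ := by
        rw [← Finset.card_eq_zero, ← Nat.lt_one_iff, ← Nat.cast_lt (α := ℝ), Nat.cast_one]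
        change b c < 1
        linarith only [hs0, hbig]
      have h8 := boxC_cover
        (S := {p | p ∈ {p | p ∈ X.pts ∧ ¬ R.Triv (X.x p) (K + 1)} ∧ X.cfg p = c})
        ((X.Sol c).filter fun z => GenS K L z.2)
        (fun z => {p | p ∈ X.fib c ∧ R.Lifts (X.A p) (X.x p) (K + 1) (X.w p z)})
        (fun z _ => (boxC_fin X c).subset fun _ h => h.1) (by
          rintro p ⟨⟨hp, hT⟩, rfl⟩
          obtain ⟨z, hz, hz1, hz2⟩ := Box.exists_sol hp (by omega) hT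
          refine ⟨z, Finset.mem_filter.2 ⟨hz, ?_⟩, ⟨hp, rfl⟩, hz2⟩
          by_contra hg
          exact Finset.filter_eq_empty_iff.1 h7 hz ⟨hz1, hg⟩)
      have h9 := Finset.sum_le_card_nsmul ((X.Sol c).filter fun z => GenS K L z.2)
        (fun z => ({p | p ∈ X.fib c ∧ R.Lifts (X.A p) (X.x p) (K + 1) (X.w p z)}.ncard : ℝ))
        (ε / (3 * Rb) * (X.fib c).ncard) fun z hz =>
          H1 X L c z (Finset.mem_filter.1 hz).2 (Nat.cast_le.1 h6) hL
      have h10 : (((X.Sol c).filter fun z => GenS K L z.2).card : ℝ) ≤ Rb :=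
        (Nat.cast_le.2 (Finset.card_filter_le _ _)).trans h6
      rw [nsmul_eq_mul] at h9
      have h11 := mul_le_mul_of_nonneg_right h10
        (show 0 ≤ ε / (3 * Rb) * (X.fib c).ncard from
          mul_nonneg (div_nonneg hε.le (mul_nonneg zero_le_three hRb0.le)) hF0)
      have h12 : Rb * (ε / (3 * Rb) * (X.fib c).ncard) = ε / 3 * (X.fib c).ncard := by
        field_simp
      have h13 : 0 ≤ ((X.Sol c).card / Rb + b c) * (2 * N / Q) := mul_nonneg (add_nonneg hs0 hb0) hq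
      linarith only [h8, h9, h11, h12, h13]
  have hsum : ∑ c, ((X.fib c).ncard : ℝ) = N := (boxC_fibers Box.pts_finite X.cfg).symm
  rw [boxC_fibers (Box.pts_finite.subset fun _ h => h.1) X.cfg]
  refine (Finset.sum_le_sum fun c _ => hc c).trans ?_
  rw [Finset.sum_add_distrib, ← Finset.sum_mul, ← Finset.mul_sum, Finset.sum_add_distrib,
    ← Finset.sum_div, hsum]
  have h14 : (∑ c, ((X.Sol c).card : ℝ)) / Rb ≤ ε / 6 * Q := by
    rw [div_le_iff₀ hRb0]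
    rw [div_lt_iff₀ hε] at hRb
    linarith only [h3', hRb, mul_nonneg_of_nonpos_of_nonpos (Mathlib.Tactic.Linarith.sub_nonpos_of_le (Mathlib.Tactic.Linarith.natCast_nonneg ℝ (Fintype.card (Cfg ι X.κ)))) (le_of_lt (Mathlib.Tactic.Linarith.sub_neg_of_lt hRb))]
  have h15 : ((∑ c, ((X.Sol c).card : ℝ)) / Rb + ∑ c, b c) * (2 * N / Q) ≤
      (ε / 3 * Q) * (2 * N / Q) :=
    mul_le_mul_of_nonneg_right (by linarith only [h2', h14]) (div_nonneg (mul_nonneg zero_le_two hN0) hQ0.le)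
  have h16 : (ε / 3 * Q) * (2 * N / Q) = 2 * ε / 3 * N := by
    field_simp
  linarith only [h15, h16]

end Pool.Agent.Smith
end

-- merged part: Pool.Agent.Work.MP_60d5ce_nt.Sm.Dens
section
/-!
# For almost all `d` only trivial classes survive

Hints.
* `small_of_poly`: `q ^ e ≥ q ^ ((e + 1) / 2) * 4 ^ (e / 2)` and a polynomial in `e` is eventually less
  than `4 ^ (e / 2)`.
* `triv_density`: choose `e0` larger than `e1` of `stat_good` (`ε / 2`), than nine, than the degrees of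
  the places of `R.S`, and than `e1` of `small_of_poly` for `C = 3 ^ card S + deg S + 1`, `D = 8`.  Then
  `K A B` from `box` with `m = card S + e0 ^ 4` and `ε / 6`; use `max A 1`.  For `n` large apply
  `decomp`; for a type `(d0, 𝓔)` and `m : F3` the box has `S1 = R.S ∪ fac d0`, `x0 = xd ℓ d0 m`,
  `ι = 𝓔`, `e i = i`, `pts = BoxP 𝓔`, `x p = xd ℓ (d0 * ∏ pl (p i)) m` (`fac_box`), `η i = 1 / i ^ 2`,
  `L = {i | n ≤ i ^ 2, ¬ 3 ∣ i}`; `GT.few` bounds the number of earlier primes: `3 ^ ω ≤ e ^ 8`.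
  Union bound over `m`.
-/

namespace Pool.Agent.Smith

open scoped Classical
open Polynomial Filter

theorem small_of_poly (C D : ℕ) : ∃ e1 : ℕ, ∀ {W P : Type} [Group W] (T : Tame W P) (e N c : ℕ)
    (η : ℝ), e1 ≤ e → N ≤ C * e ^ D → c ≤ C * e ^ D → 1 ≤ η * (C * (e : ℝ) ^ D) →
    T.Small η N c e := by
  have ht := (tendsto_pow_const_div_const_pow_of_one_lt (D * 5) (one_lt_two (α := ℝ))).const_mul
    (78 * (C : ℝ) ^ 5)
  rw [mul_zero] at ht
  obtain ⟨e1, h1⟩ := eventually_atTop.1 (ht.eventually_le_const one_pos)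
  refine ⟨e1, fun T e N c η he hN hc hη => ?_⟩
  have h2 := h1 e he
  rw [← mul_div_assoc, div_le_one (by positivity)] at h2
  have hN' : (N : ℝ) ≤ C * (e : ℝ) ^ D := by exact_mod_cast hN
  have hc' : (c : ℝ) ≤ C * (e : ℝ) ^ D := by exact_mod_cast hc
  have hM : (1 : ℝ) ≤ C * (e : ℝ) ^ D := by
    have : C * e ^ D ≠ 0 := fun h => by
      have h' : (C : ℝ) * (e : ℝ) ^ D = 0 := by exact_mod_cast h
      rw [h', mul_zero] at hη
      linarith only [hη]
    exact_mod_cast Nat.one_le_iff_ne_zero.2 this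
  have h3 : 78 * (C * (e : ℝ) ^ D) ^ 5 ≤ 2 ^ e := by rwa [mul_pow, ← pow_mul, ← mul_assoc]
  generalize (C : ℝ) * (e : ℝ) ^ D = M at *
  have hq : (4 : ℝ) ≤ T.q := by exact_mod_cast T.q_ge
  have hQ : (1 : ℝ) ≤ (T.q : ℝ) ^ ((e + 1) / 2) := one_le_pow₀ (by linarith only [hq])
  have h4 : (2 : ℝ) ^ e ≤ 2 * (T.q : ℝ) ^ (e / 2) :=
    calc (2 : ℝ) ^ e ≤ 2 ^ (2 * (e / 2) + 1) := pow_le_pow_right₀ one_le_two (by omega)
      _ = 2 * 4 ^ (e / 2) := by rw [pow_succ, pow_mul, mul_comm]; norm_num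
      _ ≤ _ := by gcongr
  have h5 : (T.q : ℝ) ^ e = (T.q : ℝ) ^ (e / 2) * (T.q : ℝ) ^ ((e + 1) / 2) := by
    rw [← pow_add]
    congr 1
    omega
  have hη0 : 0 ≤ η := by
    by_contra hn
    linarith only [hη, hn, hN', mul_nonneg_of_nonpos_of_nonpos (Mathlib.Tactic.Linarith.sub_nonpos_of_le (Mathlib.Tactic.Linarith.natCast_nonneg ℝ N)) (le_of_lt (Mathlib.Tactic.Linarith.sub_neg_of_lt (lt_of_not_ge hn))), mul_nonneg_of_nonpos_of_nonpos (Mathlib.Tactic.Linarith.sub_nonpos_of_le hN') (le_of_lt (Mathlib.Tactic.Linarith.sub_neg_of_lt (lt_of_not_ge hn)))]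
  unfold Tame.Small Pre.err
  rw [h5]
  generalize (T.q : ℝ) ^ ((e + 1) / 2) = Q at *
  have p2 : M ≤ M ^ 3 := le_self_pow₀ hM three_ne_zero
  calc (N : ℝ) * (18 * (N : ℝ) ^ 2 * (c + 1) * Q + 2 * Q + c)
      ≤ M * (18 * M ^ 2 * (M + M) * Q + 2 * (M ^ 3 * Q) + M ^ 3 * Q) := by
        gcongr
        · exact le_mul_of_one_le_left (by linarith only [hQ]) (hM.trans p2)
        · exact (hc'.trans p2).trans (le_mul_of_one_le_right (by positivity) hQ)
    _ = 1 * (39 * M ^ 4 * Q) := by ring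
    _ ≤ (η * M) * (39 * M ^ 4 * Q) := by gcongr
    _ = η * (39 * M ^ 5 * Q) := by ring
    _ ≤ _ := by
        gcongr
        linarith only [h3, h4]

variable {k : Type} [Field k] [Fintype k] {Ω : Type} [Field Ω] [Algebra (RatFunc k) Ω]
  [Algebra k Ω] [IsScalarTower k (RatFunc k) Ω] [IsSepClosure (RatFunc k) Ω] {ζ : k}

/-- the character with the ramification of a cube root of `d` and value `m` at `σ ∞` -/
noncomputable def xd (ℓ : Locs Ω ζ) (d : k[X]) (m : F3) (g : WG k Ω) : F3 :=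
  ∑ v ∈ fac d, (mult d v : F3) * chi ℓ v g + (wdeg g : F3) * m

theorem xd_hom (hζ : IsPrimitiveRoot ζ 3) (ℓ : Locs Ω ζ) (d : k[X]) (m : F3) :
    (tame hζ ℓ).IsHom (xd ℓ d m) := by
  have h := Tame.hom_add (Tame.hom_sum (T := tame hζ ℓ) (fac d)
    fun v _ => Tame.hom_smul_const ((tame hζ ℓ).χ_hom v) (mult d v : F3))
    (Tame.hom_smul_const Tame.hom_deg m)
  refine (congrArg _ (funext fun g => ?_)).mp h
  simp only [xd, Pi.add_apply, smul_eq_mul, mul_comm (mult d _ : F3)]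
  rfl

theorem Dens_root (ℓ : Locs Ω ζ) {d : k[X]} (hd : d ≠ 0) {v : Pl k} (hv : v ≠ none) :
    (d.map (algebraMap k (Kb k Ω))).rootMultiplicity (ℓ v).x = mult d v := by
  obtain ⟨p, rfl⟩ := Option.ne_none_iff_exists'.1 hv
  obtain ⟨c, hc, hn⟩ :=
    (FiniteMultiplicity.of_not_isUnit p.2.2.not_isUnit hd).exists_eq_pow_mul_and_not_dvd
  have h1 := rootMultiplicity_le_one_of_separable
    ((PerfectField.separable_of_irreducible p.2.2).map (f := algebraMap k (Kb k Ω))) (ℓ (some p)).x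
  have h2 := (rootMultiplicity_pos (Polynomial.map_ne_zero (f := algebraMap k (Kb k Ω))
    p.2.1.ne_zero) (x := (ℓ (some p)).x)).2 (by
      rw [IsRoot, eval_map_algebraMap]
      exact (ℓ (some p)).root p rfl)
  have h3 : (c.map (algebraMap k (Kb k Ω))).rootMultiplicity (ℓ (some p)).x = 0 := by
    refine rootMultiplicity_eq_zero fun h => hn ?_
    rw [IsRoot, eval_map_algebraMap] at h
    rw [galloc_min (ℓ (some p))]
    exact minpoly.dvd _ _ h
  have h4 := Polynomial.map_ne_zero (f := algebraMap k (Kb k Ω)) hd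
  show _ = multiplicity p.1 d
  generalize multiplicity p.1 d = m at hc
  rw [hc, Polynomial.map_mul] at h4 ⊢
  rw [rootMultiplicity_mul h4, h3, Polynomial.map_pow, ← count_roots, roots_pow,
    Multiset.count_nsmul, count_roots, le_antisymm h1 h2, mul_one, add_zero]

theorem kum_eq_xd (hζ : IsPrimitiveRoot ζ 3) (ℓ : Locs Ω ζ) {d : k[X]} (hd : d ≠ 0) {δ : Ω}
    (hδ : δ ^ 3 = algebraMap (RatFunc k) Ω (algebraMap k[X] (RatFunc k) d)) :
    ∃ m, ∀ g, kum ζ δ (gal g) = xd ℓ d m g := by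
  have h0 : δ ≠ 0 := by
    rintro rfl
    rw [zero_pow three_ne_zero] at hδ
    exact (_root_.map_ne_zero _).2 (RatFunc.algebraMap_ne_zero hd) hδ.symm
  have hh : (tame hζ ℓ).IsHom fun g => kum ζ δ (gal g) := kum_hom hζ ℓ h0 hδ
  have hτ : ∀ v, v ≠ none → kum ζ δ (gal (ℓ v).τ) = (mult d v : F3) := fun v hv => by
    have := (ℓ v).kum_tau hζ h0 (by rw [hδ, AlgEquiv.commutes])
      (n := ((d.map (algebraMap k (Kb k Ω))).rootMultiplicity (ℓ v).x : ℤ)) (by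
        rw [hδ, ← aeval_tt_base, ← aeval_tt_map]
        exact (ℓ v).w_poly hv (Polynomial.map_ne_zero hd))
    rw [this, Dens_root ℓ hd hv, Int.cast_natCast]
  refine ⟨kum ζ δ (gal (ℓ none).σ), fun g => ?_⟩
  have h1 := Tame.hom_expand hh (A := fac d) (fun v hv hi => by
    have h2 : mult d v = 0 := not_not.1 fun h => hv ((mem_fac hd).2 h)
    exact (hτ v hi).trans (by rw [h2, Nat.cast_zero])) g
  have h2 : (tame hζ ℓ).inf ∉ fac d := fun h => ((mem_fac_iff hd).1 h).1 rfl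
  rw [@Finset.erase_eq_of_notMem _ (_) _ _ h2] at h1
  refine h1.trans (congrArg₂ (· + ·) (Finset.sum_congr rfl fun v hv => ?_) rfl)
  exact (mul_comm _ _).trans (congrArg₂ (· * ·) (hτ v ((mem_fac_iff hd).1 hv).1) rfl)

/-- the box of a factorisation type -/
noncomputable def DensBox {hζ : IsPrimitiveRoot ζ 3} {ℓ : Locs Ω ζ} (R : Rep (tame hζ ℓ))
    (d0 : k[X]) (m : F3) (𝓔 : Finset ℕ) (hE : ∀ e ∈ 𝓔, 0 < e) : Box R 𝓔 where
  S1 := R.S ∪ fac d0
  x0 := xd ℓ d0 m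
  e i := i
  S_sub := Finset.subset_union_left
  x0_hom := xd_hom hζ ℓ d0 m
  x0_unr v hv := by
    rw [Finset.mem_union, not_or] at hv
    have h1 : v ≠ none := fun h => hv.1 (h ▸ R.inf_mem)
    show xd ℓ d0 m (ℓ v).τ = 0
    rw [xd, (ℓ v).deg_τ, Finset.sum_eq_zero fun w hw => by
      rw [chi_ne hζ ℓ w v (fun h => hv.2 (h ▸ hw)) h1, mul_zero]]
    simp
  e_inj := Subtype.val_injective
  e_pos i := hE i i.2

section aux

variable {hζ : IsPrimitiveRoot ζ 3} {ℓ : Locs Ω ζ} (R : Rep (tame hζ ℓ)) {e0 A n : ℕ} {d0 : k[X]}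
  {𝓔 : Finset ℕ} {p : 𝓔 → Pl k}

theorem Dens_inj (hp : p ∈ BoxP k 𝓔) : Function.Injective p := fun i j h =>
  Subtype.ext (by rw [← (hp i).1, ← (hp j).1, h])

theorem Dens_disj (hs : ∀ v ∈ fac d0, pdg v < e0) (hE : ∀ e ∈ 𝓔, e0 ≤ e) (hp : p ∈ BoxP k 𝓔)
    (J : Finset 𝓔) : Disjoint (fac d0) (J.image p) := by
  refine Finset.disjoint_left.2 fun v hv hv' => ?_
  obtain ⟨i, -, rfl⟩ := Finset.mem_image.1 hv'
  have h1 := hs _ hv
  have h2 := hE i i.2
  rw [(hp i).1] at h1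
  omega

theorem Dens_pts (hs : ∀ v ∈ fac d0, pdg v < e0) (hE : ∀ e ∈ 𝓔, e0 ≤ e)
    (hS : ∀ v ∈ R.S, pdg v < e0) {m : F3} {hE' : ∀ e ∈ 𝓔, 0 < e} :
    (DensBox R d0 m 𝓔 hE').pts = BoxP k 𝓔 := by
  refine Set.ext fun p => forall_congr' fun i => and_congr_right fun h => ⟨fun h1 h2 =>
    h1 (Finset.mem_union_left _ (h2 ▸ R.inf_mem)), fun _ h2 => ?_⟩
  have h3 : pdg (p i) = i := h
  have h4 := hE i i.2
  rcases Finset.mem_union.1 h2 with h2 | h2
  · have := hS _ h2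
    omega
  · have := hs _ h2
    omega

theorem Dens_x (h0 : d0 ≠ 0) (hs : ∀ v ∈ fac d0, pdg v < e0) (hE : ∀ e ∈ 𝓔, e0 ≤ e)
    (hp : p ∈ BoxP k 𝓔) {m : F3} {hE' : ∀ e ∈ 𝓔, 0 < e} :
    (DensBox R d0 m 𝓔 hE').x p = xd ℓ (d0 * ∏ i, pl (p i)) m := by
  obtain ⟨h1, h2, h3⟩ := fac_box h0 hs hE hp
  funext g
  show xd ℓ d0 m g + ∑ i, chi ℓ (p i) g = _
  rw [xd, xd, h1, Finset.sum_union (Dens_disj hs hE hp _),
    Finset.sum_image (Dens_inj hp).injOn, add_right_comm]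
  simp only [h3, Nat.cast_one, one_mul]
  rw [Finset.sum_congr rfl fun v hv => by rw [← h2 v hv]]

theorem Dens_cnt (h0 : d0 ≠ 0) (hs : ∀ v ∈ fac d0, pdg v < e0) (hE : ∀ e ∈ 𝓔, e0 ≤ e)
    (hp : p ∈ BoxP k 𝓔) (hG : GT e0 A n (d0 * ∏ i, pl (p i))) {e : ℕ} (he : e0 ≤ e)
    (J : Finset 𝓔) (hJ : ∀ j ∈ J, (j : ℕ) ≤ e) :
    3 ^ ((fac d0).card + J.card) ≤ e ^ 8 ∧ (fac d0).card + J.card ≤ e ^ 4 ∧
      ∑ v ∈ fac d0, pdg v ≤ e ^ 5 ∧ ∑ j ∈ J, (j : ℕ) ≤ e ^ 5 := by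
  have h1 : 2 ^ ((fac d0).card + J.card) ≤ e ^ 4 := by
    refine le_trans (Nat.pow_le_pow_right two_pos ?_) (hG.few e he)
    rw [← Finset.card_image_of_injective J (Dens_inj hp),
      ← Finset.card_union_of_disjoint (Dens_disj hs hE hp J), (fac_box h0 hs hE hp).1]
    refine Finset.card_le_card fun v hv => Finset.mem_filter.2 ?_
    rcases Finset.mem_union.1 hv with hv | hv
    · exact ⟨Finset.mem_union_left _ hv, (hs v hv).le.trans he⟩
    · obtain ⟨i, hi, rfl⟩ := Finset.mem_image.1 hv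
      exact ⟨Finset.mem_union_right _ (Finset.mem_image_of_mem _ (Finset.mem_univ _)),
        (hp i).1.trans_le (hJ i hi)⟩
  have h2 : (fac d0).card + J.card ≤ e ^ 4 := Nat.lt_two_pow_self.le.trans h1
  refine ⟨?_, h2, ?_, ?_⟩
  · calc 3 ^ ((fac d0).card + J.card) ≤ (2 ^ 2) ^ ((fac d0).card + J.card) :=
        Nat.pow_le_pow_left (by norm_num) _
      _ = (2 ^ ((fac d0).card + J.card)) ^ 2 := by rw [← pow_mul, ← pow_mul, mul_comm]
      _ ≤ (e ^ 4) ^ 2 := Nat.pow_le_pow_left h1 _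
      _ = e ^ 8 := by ring
  · refine (Finset.sum_le_card_nsmul _ _ e fun v hv => (hs v hv).le.trans he).trans ?_
    rw [smul_eq_mul, pow_succ]
    exact Nat.mul_le_mul_right _ (by omega)
  · refine (Finset.sum_le_card_nsmul _ _ e hJ).trans ?_
    rw [smul_eq_mul, pow_succ]
    exact Nat.mul_le_mul_right _ (by omega)

theorem Dens_L (h0 : d0 ≠ 0) (hs : ∀ v ∈ fac d0, pdg v < e0) (hE : ∀ e ∈ 𝓔, e0 ≤ e)
    (hp : p ∈ BoxP k 𝓔) (hG : GT e0 A n (d0 * ∏ i, pl (p i))) (hn : e0 ^ 2 ≤ n) :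
    A ≤ (Finset.univ.filter fun i : 𝓔 => n ≤ (i : ℕ) ^ 2 ∧ ¬ 3 ∣ (i : ℕ)).card := by
  refine hG.many.trans (le_trans (Finset.card_le_card fun v hv => ?_)
    (Finset.card_image_le (f := p)))
  rw [Finset.mem_filter, (fac_box h0 hs hE hp).1, Finset.mem_union] at hv
  rcases hv with ⟨hv | hv, h⟩
  · exact absurd (hn.trans h.1) (not_le.2 (Nat.pow_lt_pow_left (hs v hv) two_ne_zero))
  · obtain ⟨i, -, rfl⟩ := Finset.mem_image.1 hv
    rw [(hp i).1] at h
    exact Finset.mem_image_of_mem _ (Finset.mem_filter.2 ⟨Finset.mem_univ _, h⟩)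

theorem Dens_sum (S S' : Finset (Pl k)) :
    ∑ v ∈ S ∪ S', pdg v ≤ ∑ v ∈ S, pdg v + ∑ v ∈ S', pdg v := by
  rw [← Finset.sum_union_inter]
  exact Nat.le_add_right _ _

theorem Dens_smA (h0 : d0 ≠ 0) (hs : ∀ v ∈ fac d0, pdg v < e0) (hE : ∀ e ∈ 𝓔, e0 ≤ e)
    (hp : p ∈ BoxP k 𝓔) (hG : GT e0 A n (d0 * ∏ i, pl (p i))) (h9 : 9 ≤ e0) (m : F3)
    (hE' : ∀ e ∈ 𝓔, 0 < e)
    (h : ∀ (e N c : ℕ) (η : ℝ), e0 ≤ e → N ≤ (3 ^ R.S.card + ∑ v ∈ R.S, pdg v + 1) * e ^ 8 →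
      c ≤ (3 ^ R.S.card + ∑ v ∈ R.S, pdg v + 1) * e ^ 8 →
      1 ≤ η * (((3 ^ R.S.card + ∑ v ∈ R.S, pdg v + 1 : ℕ) : ℝ) * (e : ℝ) ^ 8) →
      (tame hζ ℓ).Small η N c e) :
    (DensBox R d0 m 𝓔 hE').SmA fun i => 1 / (i : ℝ) ^ 2 := by
  refine ⟨?_, fun i => ?_⟩
  · rw [Finset.sum_coe_sort 𝓔 fun i => 1 / (i : ℝ) ^ 2]
    have h1 := sum_Ioc_inv_sq_le_sub (α := ℝ) (k := 8) (n := 8 + 𝓔.sup id) (by norm_num)
      (Nat.le_add_right _ _)
    have h2 : (0 : ℝ) ≤ ((8 + 𝓔.sup id : ℕ) : ℝ)⁻¹ := by positivity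
    have h3 : ∑ i ∈ 𝓔, ((i : ℝ) ^ 2)⁻¹ ≤ ∑ i ∈ Finset.Ioc 8 (8 + 𝓔.sup id), ((i : ℝ) ^ 2)⁻¹ :=
      Finset.sum_le_sum_of_subset_of_nonneg (fun i hi => Finset.mem_Ioc.2
        ⟨by have := hE i hi; omega, (Finset.le_sup (f := id) hi).trans (Nat.le_add_left _ _)⟩)
        fun _ _ _ => by positivity
    simp only [one_div]
    push_cast at h1 h2
    linarith only [h3, h1, h2]
  · have hi := hE i i.2
    have key : ∀ J : Finset 𝓔, (∀ j ∈ J, (j : ℕ) ≤ i) → (tame hζ ℓ).Small (1 / (i : ℝ) ^ 2)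
        (3 ^ ((R.S ∪ fac d0).card + J.card)) (∑ v ∈ R.S ∪ fac d0, pdg v + ∑ j ∈ J, (j : ℕ)) i := by
      intro J hJ
      obtain ⟨c1, -, c3, c4⟩ := Dens_cnt h0 hs hE hp hG hi J hJ
      have c5 := Dens_sum R.S (fac d0)
      have c6 := Finset.card_union_le R.S (fac d0)
      generalize (i : ℕ) = e at *
      have e1 : 1 ≤ e ^ 8 := Nat.one_le_pow _ _ (by omega)
      have e2 : 2 * e ^ 5 ≤ e ^ 8 :=
        calc 2 * e ^ 5 ≤ e ^ 3 * e ^ 5 := Nat.mul_le_mul_right _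
              (le_trans (by omega) (Nat.le_self_pow three_ne_zero e))
          _ = e ^ 8 := by ring
      refine h _ _ _ _ hi ?_ ?_ ?_
      · calc 3 ^ ((R.S ∪ fac d0).card + J.card) ≤ 3 ^ (R.S.card + ((fac d0).card + J.card)) :=
            Nat.pow_le_pow_right (by norm_num) (by omega)
          _ ≤ 3 ^ R.S.card * e ^ 8 := by
            rw [pow_add]
            exact Nat.mul_le_mul_left _ c1
          _ ≤ _ := Nat.mul_le_mul_right _ (by omega)
      · have := Nat.le_mul_of_pos_right (∑ v ∈ R.S, pdg v) e1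
        rw [add_mul, add_mul]
        omega
      · have e3 : (1 : ℝ) ≤ e := by exact_mod_cast (by omega : 1 ≤ e)
        have e4 : (1 : ℝ) ≤ ((3 ^ R.S.card + ∑ v ∈ R.S, pdg v + 1 : ℕ) : ℝ) := by
          exact_mod_cast Nat.le_add_left _ _
        rw [one_div, ← div_eq_inv_mul, one_le_div (by positivity)]
        exact (pow_le_pow_right₀ e3 (by norm_num)).trans (le_mul_of_one_le_left (by positivity) e4)
    exact key _ fun j hj => le_of_lt (Finset.mem_filter.1 hj).2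

theorem Dens_smL (h0 : d0 ≠ 0) (hs : ∀ v ∈ fac d0, pdg v < e0) (hE : ∀ e ∈ 𝓔, e0 ≤ e)
    (hp : p ∈ BoxP k 𝓔) (hG : GT e0 A n (d0 * ∏ i, pl (p i)))
    (hd : (d0 * ∏ i, pl (p i)).natDegree = n) (hn : e0 ^ 2 ≤ n) (h9 : 9 ≤ e0) (m : F3)
    (hE' : ∀ e ∈ 𝓔, 0 < e) {B e3 : ℕ} (hB : 0 < B) (hn3 : e3 ^ 2 ≤ n)
    (h : ∀ (e N c : ℕ) (η : ℝ), e3 ≤ e →
      N ≤ (B * 3 ^ R.S.card + ∑ v ∈ R.S, pdg v + B + 1) * e ^ 16 →
      c ≤ (B * 3 ^ R.S.card + ∑ v ∈ R.S, pdg v + B + 1) * e ^ 16 →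
      1 ≤ η * (((B * 3 ^ R.S.card + ∑ v ∈ R.S, pdg v + B + 1 : ℕ) : ℝ) * (e : ℝ) ^ 16) →
      (tame hζ ℓ).Small η N c e) :
    (DensBox R d0 m 𝓔 hE').SmL B
      (Finset.univ.filter fun i : 𝓔 => n ≤ (i : ℕ) ^ 2 ∧ ¬ 3 ∣ (i : ℕ)) := by
  intro i hi
  have h1 := (Finset.mem_filter.1 hi).2.1
  have hne : d0 * ∏ i, pl (p i) ≠ 0 :=
    mul_ne_zero h0 (Finset.prod_ne_zero_iff.2 fun j _ => (monic_pl _).ne_zero)
  obtain ⟨c1, -, c3, c4⟩ := Dens_cnt h0 hs hE hp hG ((Nat.le_self_pow two_ne_zero e0).trans hn)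
    Finset.univ fun j _ => by
      rw [← (hp j).1, ← natDegree_pl (hp j).2, ← hd]
      exact natDegree_le_of_dvd
        ((Finset.dvd_prod_of_mem (fun i => pl (p i)) (Finset.mem_univ j)).mul_left _) hne
  have c5 := Dens_sum R.S (fac d0)
  have c6 := Finset.card_union_le R.S (fac d0)
  have hi' := hE i i.2
  show (tame hζ ℓ).Small _ (B * 3 ^ ((R.S ∪ fac d0).card + (Finset.univ : Finset 𝓔).card))
    (∑ v ∈ R.S ∪ fac d0, pdg v + B * ∑ j : 𝓔, (j : ℕ)) i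
  generalize (i : ℕ) = e at *
  have e1 : 1 ≤ e ^ 16 := Nat.one_le_pow _ _ (by omega)
  have e2 : n ^ 8 ≤ e ^ 16 := (Nat.pow_le_pow_left h1 8).trans_eq (by ring)
  have e5 : n ^ 5 ≤ e ^ 16 :=
    ((Nat.pow_le_pow_left h1 5).trans_eq (by ring : (e ^ 2) ^ 5 = e ^ 10)).trans
      (Nat.pow_le_pow_right (by omega) (by norm_num))
  refine h _ _ _ _ ((Nat.pow_le_pow_iff_left two_ne_zero).1 (hn3.trans h1)) ?_ ?_ ?_
  · calc B * 3 ^ ((R.S ∪ fac d0).card + (Finset.univ : Finset 𝓔).card)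
        ≤ B * 3 ^ (R.S.card + ((fac d0).card + (Finset.univ : Finset 𝓔).card)) :=
          Nat.mul_le_mul_left _ (Nat.pow_le_pow_right (by norm_num) (by omega))
      _ ≤ B * 3 ^ R.S.card * e ^ 16 := by
        rw [pow_add, ← mul_assoc]
        exact Nat.mul_le_mul_left _ (c1.trans e2)
      _ ≤ _ := Nat.mul_le_mul_right _ (by omega)
  · have a1 := Nat.le_mul_of_pos_right (∑ v ∈ R.S, pdg v) e1
    have a2 := Nat.mul_le_mul_left B (c4.trans e5)
    rw [add_mul, add_mul, add_mul]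
    omega
  · have e3 : (1 : ℝ) ≤ (e : ℝ) ^ 16 := by exact_mod_cast e1
    have e4 : (B : ℝ) ≤ ((B * 3 ^ R.S.card + ∑ v ∈ R.S, pdg v + B + 1 : ℕ) : ℝ) := by
      exact_mod_cast (by omega : B ≤ B * 3 ^ R.S.card + ∑ v ∈ R.S, pdg v + B + 1)
    rw [one_div, ← div_eq_inv_mul, one_le_div (by positivity)]
    exact e4.trans (le_mul_of_one_le_right (by positivity) e3)

end aux

theorem triv_density (hζ : IsPrimitiveRoot ζ 3) (ℓ : Locs Ω ζ) (R : Rep (tame hζ ℓ)) {ε : ℝ}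
    (hε : 0 < ε) : ∀ᶠ n in atTop,
    ({d | d ∈ Pn k n ∧ ¬ ∀ m, ∃ K, R.Triv (xd ℓ d m) K}.ncard : ℝ) ≤ ε * (Pn k n).ncard := by
  obtain ⟨e1, h1⟩ := stat_good (k := k) (half_pos hε)
  obtain ⟨e2, h2⟩ := small_of_poly (3 ^ R.S.card + ∑ v ∈ R.S, pdg v + 1) 8
  obtain ⟨e0, he1, he2, h9, hS⟩ : ∃ e0, e1 ≤ e0 ∧ e2 ≤ e0 ∧ 9 ≤ e0 ∧ ∀ v ∈ R.S, pdg v < e0 :=
    ⟨e1 + e2 + 9 + ∑ v ∈ R.S, pdg v, by omega, by omega, by omega, fun v hv => by
      have := Finset.single_le_sum (f := pdg) (fun _ _ => Nat.zero_le _) hv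
      omega⟩
  obtain ⟨K, A, B, hB, hbox⟩ := box (R.S.card + e0 ^ 4) (ε := ε / 6) (by positivity)
  obtain ⟨e3, h3⟩ := small_of_poly (B * 3 ^ R.S.card + ∑ v ∈ R.S, pdg v + B + 1) 16
  filter_upwards [h1 e0 he1 (A + 1), eventually_ge_atTop (e0 ^ 2), eventually_ge_atTop (e3 ^ 2)]
    with n hn hn0 hn3
  have key := decomp e0 (A + 1) n (fun d => ¬ ∀ m, ∃ K, R.Triv (xd ℓ d m) K) (half_pos hε).le
    fun d0 𝓔 h0 hs hE ⟨p0, hp0, hdeg, hG⟩ => by
      have hE' : ∀ e ∈ 𝓔, 0 < e := fun e he => by have := hE e he; omega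
      have hm : ∀ m : F3, ({p | p ∈ BoxP k 𝓔 ∧
          ¬ R.Triv (xd ℓ (d0 * ∏ i, pl (p i)) m) K}.ncard : ℝ) ≤ ε / 6 * (BoxP k 𝓔).ncard := by
        intro m
        have hL := Dens_L h0 hs hE hp0 hG hn0
        have hw := Dens_cnt h0 hs hE hp0 hG le_rfl ∅ (by simp)
        have := hbox (DensBox R d0 m 𝓔 hE') _ (fun i => 1 / (i : ℝ) ^ 2)
          ((Finset.card_union_le _ _).trans (Nat.add_le_add_left (by simpa using hw.2.1) _))
          (Nat.le_of_succ_le hL)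
          (by
            obtain ⟨i, hi⟩ := Finset.card_pos.1 (Nat.lt_of_lt_of_le (Nat.succ_pos _) hL)
            exact ⟨i, (Finset.mem_filter.1 hi).2.2⟩)
          (Dens_smA R h0 hs hE hp0 hG h9 m hE' fun e N c η he => h2 _ e N c η (he2.trans he))
          (Dens_smL R h0 hs hE hp0 hG hdeg hn0 h9 m hE' hB hn3 (h3 _))
        rw [Dens_pts R hs hE hS] at this
        refine le_of_eq_of_le (congrArg _ (congrArg _ (Set.ext fun p => ?_))) this
        exact and_congr_right fun hp => by rw [Dens_x R h0 hs hE hp]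
      have hf := BoxP_finite (k := k) 𝓔
      have hu : {p | p ∈ BoxP k 𝓔 ∧ ¬ ∀ m, ∃ K, R.Triv (xd ℓ (d0 * ∏ i, pl (p i)) m) K}.ncard ≤
          {p | p ∈ BoxP k 𝓔 ∧ ¬ R.Triv (xd ℓ (d0 * ∏ i, pl (p i)) 0) K}.ncard +
          {p | p ∈ BoxP k 𝓔 ∧ ¬ R.Triv (xd ℓ (d0 * ∏ i, pl (p i)) 1) K}.ncard +
          {p | p ∈ BoxP k 𝓔 ∧ ¬ R.Triv (xd ℓ (d0 * ∏ i, pl (p i)) 2) K}.ncard := by
        refine le_trans ?_ ((Set.ncard_union_le _ _).trans
          (Nat.add_le_add_right (Set.ncard_union_le _ _) _))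
        refine Set.ncard_le_ncard (fun p hp => ?_) (((hf.subset fun _ h => h.1).union
          (hf.subset fun _ h => h.1)).union (hf.subset fun _ h => h.1))
        obtain ⟨m, hm⟩ := not_forall.1 hp.2
        have hm' := fun h => hm ⟨K, h⟩
        rcases GalKum_cases m with rfl | rfl | rfl
        exacts [.inl (.inl ⟨hp.1, hm'⟩), .inl (.inr ⟨hp.1, hm'⟩), .inr ⟨hp.1, hm'⟩]
      have hu' := (Nat.cast_le (α := ℝ)).2 hu
      push_cast at hu'
      linarith [hm 0, hm 1, hm 2]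
  have hf := Pn_finite (k := k) n
  have hu : {d | d ∈ Pn k n ∧ ¬ ∀ m, ∃ K, R.Triv (xd ℓ d m) K}.ncard ≤
      {d | d ∈ Pn k n ∧ ¬ GT e0 (A + 1) n d}.ncard +
      {d | d ∈ Pn k n ∧ GT e0 (A + 1) n d ∧ ¬ ∀ m, ∃ K, R.Triv (xd ℓ d m) K}.ncard := by
    refine le_trans (Set.ncard_le_ncard (fun d hd => ?_) ((hf.subset fun _ h => h.1).union
      (hf.subset fun _ h => h.1))) (Set.ncard_union_le _ _)
    by_cases hG : GT e0 (A + 1) n d
    exacts [.inr ⟨hd.1, hG, hd.2⟩, .inl ⟨hd.1, hG⟩]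
  have hu' := (Nat.cast_le (α := ℝ)).2 hu
  push_cast at hu'
  linarith

end Pool.Agent.Smith
end
end
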