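import Pool.Agent.Work.MP_60d5ce_nt.Asc.Defs

/-!
# The `3^∞`-Selmer group on cocycles

`Sel_{3^∞}(W/K)` is the subgroup of `H^1(K, W[3^∞])` of the classes whose image in `H^1(K_v, W)`
vanishes for every place `v`.
-/

namespace Pool.Agent.Smith

open Pool.Agent.ShaAsc

variable {R K Ω : Type} [Field R] [Field K] [Field Ω] [Algebra R K] [Algebra K Ω] [Algebra R Ω]
  [IsScalarTower R K Ω] [DecidableEq Ω]

/-- `c` is a continuous cocycle with values in `W[3 ^ j]` for some `j` that splits in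
`H^1(K_v, W)` for all `v`: it represents an element of the `3^∞`-Selmer group. -/
def InSel3 (W : WeierstrassCurve R) (c : (Ω ≃ₐ[K] Ω) → Pts W Ω) : Prop :=
  InSha W c ∧ ∃ j : ℕ, ∀ σ, 3 ^ j • c σ = 0

/-- `c` and `c'` have the same class in `H^1(K, W[3^∞])`. -/
def SameClass (W : WeierstrassCurve R) (c c' : (Ω ≃ₐ[K] Ω) → Pts W Ω) : Prop :=
  ∃ (Y : Pts W Ω) (j : ℕ), 3 ^ j • Y = 0 ∧ ∀ σ, c σ - c' σ = act W σ Y - Y

end Pool.Agent.Smith
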