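import Pool.Agent.Work.MP_60d5ce_nt.Sm.EllH
import Pool.Agent.Work.MP_60d5ce_nt.Sm.BoxA
import Pool.Agent.Work.MP_60d5ce_nt.Asc.Defs
import Pool.Agent.Work.MP_60d5ce_nt.Sm.LocEx
import Pool.Agent.Work.MP_60d5ce_nt.Sm.SDefs

-- merged part: Pool.Agent.Work.MP_60d5ce_nt.Sm.EllSel
section
/-!
# From the Tate-Shafarevich group over `K' = F(δ)` to cocycles of the Weil group

`FF c` is the Shapiro cocycle of `c` (`Asc/Group.lean`, `Asc/Cores.lean`).
Hints.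
* `ff_smooth`: `H = {u | deg u = 0, u δ = δ, u fixes E[3 ^ j], FF c u = 0}` is a subgroup (`ff_mul`;
  an element fixing `δ` fixes all cosets, `idx_smul`, `idx_inj`); it contains the fixer of a finite
  set (as in `IsCocycle.cores`); on the elements fixing `δ` and `E[3 ^ j]` the map `FF c` is additive
  with values killed by `3 ^ j`; `adm_core`, `adm_kum`, `ERep.adm`.
* `ff_local`: as in `cores_split`: for each coset `y`, `loc_split` for `ι ∘ y.out` gives `P`;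
  `local_torsion` (group: the `s ∈ Gal(Λ/L)` fixing `ι (y.out δ)`, `Loc.tb`, `Loc.exists_res`,
  `Loc.exists_sz`) replaces it by a torsion point, which comes from `Ω` (`tors_range`); then `shapiro`
  for the group `D v` (`Loc.exists_lift`) with values in the subgroup killed by `3 ^ m`.
* `fin_sel`: for `v` outside `A = badS ∪ {v | τ v moves δ}` (finite: `adm_kum`, `tau_fin`),
  `FF c (τ v) = 0` by `ff_local` and `Loc.tau_fix`; the set `H` above is normal, so `τ v` lies in an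
  admissible `U` killed by `FF c`.  Two cocycles that agree on the set `Z` of `gen` agree on the Weil
  group, and on `Gam` by `dense`; `c σ` is recovered from `FF c (s0 σ s0⁻¹) x0`.
-/

namespace Pool.Agent.Smith

open scoped Classical
open Polynomial WeierstrassCurve.Affine Pool.Agent.ShaAsc

noncomputable section

variable {k : Type} [Field k] [Fintype k] {Ω : Type} [Field Ω] [Algebra (RatFunc k) Ω]
  [Algebra k Ω] [IsScalarTower k (RatFunc k) Ω] [IsSepClosure (RatFunc k) Ω] [DecidableEq Ω]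
  {ζ : k} {a1 a3 : k[X]} (K' : Type) [Field K'] [Algebra (RatFunc k) K'] [Algebra K' Ω]
  [IsScalarTower (RatFunc k) K' Ω] [FiniteDimensional (RatFunc k) K']

/-- `K'` is generated by the cube root `δ` -/
structure Kum (δ : Ω) : Prop where
  ne : δ ≠ 0
  cube : ∃ d : RatFunc k, δ ^ 3 = algebraMap (RatFunc k) Ω d
  fix : ∀ g : Gam k Ω, g ∈ Hs (RatFunc k) K' Ω ↔ g δ = δ

/-- the exponent of a coset -/
def idx (ζ : k) (δ : Ω) (y : Xs (RatFunc k) K' Ω) : F3 := kum ζ δ y.out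

variable {K'}

/-- the Shapiro cocycle -/
def FF (c : (Ω ≃ₐ[K'] Ω) → Pts (EC a1 a3) Ω) (g : Gam k Ω) (y : Xs (RatFunc k) K' Ω) :
    Pts (EC a1 a3) Ω :=
  Sh (act (EC a1 a3)) (fun x : Xs (RatFunc k) K' Ω => x.out) (ext0 (RatFunc k) c) g y

variable {δ : Ω} {c : (Ω ≃ₐ[K'] Ω) → Pts (EC a1 a3) Ω} {j : ℕ}

omit [Fintype k] [Algebra k Ω] [IsScalarTower k (RatFunc k) Ω] [IsSepClosure (RatFunc k) Ω]
  [DecidableEq Ω] [FiniteDimensional (RatFunc k) K'] in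
theorem Kum.fix3 (hK : Kum (k := k) K' δ) (g : Gam k Ω) : g (δ ^ 3) = δ ^ 3 := by
  obtain ⟨d, hd⟩ := hK.cube
  rw [hd, g.commutes]

theorem idx_smul (hζ : IsPrimitiveRoot ζ 3) (hK : Kum (k := k) K' δ) (g : Gam k Ω)
    (y : Xs (RatFunc k) K' Ω) : idx K' ζ δ (g • y) = kum ζ δ g + idx K' ζ δ y := by
  have h1 := (hK.fix _).1 (smul_x0_iff.1 (sh_stab out_smul g⁻¹ y))
  rw [inv_inv] at h1
  have h2 : (g • y).out = g * y.out * ((y.out)⁻¹ * g⁻¹ * (g • y).out) := by group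
  rw [idx, idx, h2, kum_mul hζ hK.ne (hK.fix3 _) (hK.fix3 _),
    kum_mul hζ hK.ne (hK.fix3 _) (hK.fix3 _), (kum_eq_zero_iff hζ hK.ne (hK.fix3 _)).2 h1, add_zero]

theorem idx_inj (hζ : IsPrimitiveRoot ζ 3) (hK : Kum (k := k) K' δ) :
    Function.Injective (idx K' ζ δ) := by
  intro y y' h
  have h1 := kum_spec hζ hK.ne (hK.fix3 y.out)
  have h2 := kum_spec hζ hK.ne (hK.fix3 y'.out)
  rw [idx, idx] at h
  rw [h, ← h2] at h1
  rw [← y.out_eq, ← y'.out_eq]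
  refine QuotientGroup.eq.2 ((hK.fix _).2 ?_)
  rw [AlgEquiv.mul_apply, ← h1, ← AlgEquiv.mul_apply, inv_mul_cancel, AlgEquiv.one_apply]

theorem idx_x0 (hζ : IsPrimitiveRoot ζ 3) (hK : Kum (k := k) K' δ) :
    idx K' ζ δ (x0 (RatFunc k) K' Ω) = 0 := by
  exact (kum_eq_zero_iff hζ hK.ne (hK.fix3 _)).2 ((hK.fix _).1 (smul_x0_iff.1 (out_smul _)))

theorem Kum.smul_eq (hζ : IsPrimitiveRoot ζ 3) (hK : Kum (k := k) K' δ) {g : Gam k Ω}
    (hg : g δ = δ) (y : Xs (RatFunc k) K' Ω) : g • y = y := by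
  refine idx_inj hζ hK ?_
  rw [idx_smul hζ hK, (kum_eq_zero_iff hζ hK.ne (hK.fix3 _)).2 hg, zero_add]

theorem Kum.inv_smul_eq (hζ : IsPrimitiveRoot ζ 3) (hK : Kum (k := k) K' δ) {g : Gam k Ω}
    (hg : g δ = δ) (y : Xs (RatFunc k) K' Ω) : g⁻¹ • y = y := by
  rw [inv_smul_eq_iff, hK.smul_eq hζ hg]

theorem ff_mul (hc : IsCocycle (EC a1 a3) c) (g h : Gam k Ω) (y : Xs (RatFunc k) K' Ω) :
    FF c (g * h) y = FF c g y + act (EC a1 a3) g (FF c h (g⁻¹ • y)) := by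
  exact sh_mul act_mul out_smul (ext0_mul hc.2) g h y

theorem ff_tors (hj : ∀ σ, 3 ^ j • c σ = 0) (g : Gam k Ω) (y : Xs (RatFunc k) K' Ω) :
    3 ^ j • FF c g y = 0 := by
  rw [FF, Sh, ← map_nsmul, ext0_of_mem _ (smul_x0_iff.1 (sh_stab out_smul g y)), hj, map_zero]

theorem ff_sum (g : Gam k Ω) : ∑ y, FF c g y = cores (RatFunc k) (EC a1 a3) c g := by
  rfl

theorem ff_x0 (hc : IsCocycle (EC a1 a3) c) (hj : ∀ σ, 3 ^ j • c σ = 0) :
    ∃ Y : Pts (EC a1 a3) Ω, 3 ^ j • Y = 0 ∧ ∀ σ : Ω ≃ₐ[K'] Ω,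
      FF c (σ.restrictScalars (RatFunc k)) (x0 (RatFunc k) K' Ω) =
        c σ + (act (EC a1 a3) σ Y - Y) := by
  have h0 : (x0 (RatFunc k) K' Ω).out ∈ Hs (RatFunc k) K' Ω := smul_x0_iff.1 (out_smul _)
  refine ⟨c (toH _ h0), hj _, fun σ => ?_⟩
  have h1 : (σ.restrictScalars (RatFunc k))⁻¹ • x0 (RatFunc k) K' Ω = x0 (RatFunc k) K' Ω :=
    smul_x0_iff.2 (inv_mem (res_mem σ))
  have h2 := smul_x0_iff.1 (sh_stab out_smul (σ.restrictScalars (RatFunc k)) (x0 (RatFunc k) K' Ω))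
  have h3 : toH _ h0 * toH _ h2 = σ * toH _ h0 := by
    refine AlgEquiv.ext fun a => ?_
    rw [AlgEquiv.mul_apply, AlgEquiv.mul_apply, toH_apply, toH_apply, toH_apply, h1,
      ← AlgEquiv.mul_apply, ← mul_assoc, ← mul_assoc, mul_inv_cancel, one_mul]
    rfl
  have h4 := hc.2 (toH _ h0) (toH _ h2)
  rw [h3, hc.2] at h4
  rw [FF, Sh, ext0_of_mem _ h2, act_congr (σ := (x0 (RatFunc k) K' Ω).out) (σ' := toH _ h0)
    (fun _ => rfl), ← sub_eq_zero,
    ← sub_eq_zero.2 h4.symm]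
  abel

theorem ff_fin (hc : IsCocycle (EC a1 a3) c) :
    ∃ S : Finset Ω, ∀ g : Gam k Ω, (∀ a ∈ S, g a = a) → ∀ y, FF c g y = 0 := by
  have : Algebra.IsIntegral K' Ω := Algebra.IsIntegral.tower_top (R := RatFunc k)
  obtain ⟨S, hS⟩ := hc.fin
  obtain ⟨B, hB⟩ : (⊤ : Submodule (RatFunc k) K').FG := Module.finite_def.1 inferInstance
  let T : Finset Ω := S ∪ B.image (algebraMap K' Ω)
  have key : ∀ σ : Gam k Ω, (∀ y ∈ T, σ y = y) →
      σ ∈ Hs (RatFunc k) K' Ω ∧ ext0 (RatFunc k) c σ = 0 := by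
    intro σ h
    have h1 : σ ∈ Hs (RatFunc k) K' Ω := by
      rw [mem_Hs]
      intro x
      have hx : x ∈ Submodule.span (RatFunc k) (B : Set K') := by rw [hB]; trivial
      induction hx using Submodule.span_induction with
      | mem y hy => exact h _ (Finset.mem_union_right _ (Finset.mem_image_of_mem _ hy))
      | zero => simp
      | add y z _ _ ihy ihz => rw [map_add, map_add, ihy, ihz]
      | smul a y _ ih =>
        rw [Algebra.smul_def, map_mul, map_mul, ih, ← IsScalarTower.algebraMap_apply,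
          AlgEquiv.commutes]
    exact ⟨h1, by rw [ext0_of_mem _ h1]; exact hS _ fun y hy => h y (Finset.mem_union_left _ hy)⟩
  refine ⟨Finset.univ.biUnion fun x : Xs (RatFunc k) K' Ω => T.image x.out, fun σ h x => ?_⟩
  obtain ⟨k1, k2⟩ := key ((x.out)⁻¹ * σ * x.out) fun y hy => by
    rw [AlgEquiv.mul_apply, AlgEquiv.mul_apply,
      h _ (Finset.mem_biUnion.2 ⟨x, Finset.mem_univ _, Finset.mem_image_of_mem _ hy⟩)]
    simp
  have k3 : σ⁻¹ • x = x := by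
    rw [← smul_x0_iff, mul_smul, mul_smul, out_smul, inv_smul_eq_iff, out_smul] at k1
    rw [inv_smul_eq_iff, k1]
  rw [FF, Sh, k3, k2, map_zero]

theorem ff_one (hc : IsCocycle (EC a1 a3) c) (y : Xs (RatFunc k) K' Ω) : FF c 1 y = 0 := by
  have := ff_mul hc 1 1 y
  rw [one_mul, inv_one, one_smul, act_one] at this
  simpa using this

theorem ff_inv (hc : IsCocycle (EC a1 a3) c) {g : Gam k Ω} (hg : ∀ y, FF c g y = 0)
    (y : Xs (RatFunc k) K' Ω) : FF c g⁻¹ y = 0 := by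
  have := ff_mul hc g⁻¹ g y
  rw [inv_mul_cancel, ff_one hc, hg, map_zero, add_zero] at this
  exact this.symm

theorem ff_sub (c c' : (Ω ≃ₐ[K'] Ω) → Pts (EC a1 a3) Ω) (g : Gam k Ω) (y : Xs (RatFunc k) K' Ω) :
    FF (c - c') g y = FF c g y - FF c' g y := by
  have h := smul_x0_iff.1 (sh_stab out_smul g y)
  simp only [FF, Sh, ext0_of_mem _ h, Pi.sub_apply, map_sub]

theorem Kum.adm (hζ : IsPrimitiveRoot ζ 3) (hK : Kum (k := k) K' δ) :
    ∃ U : Subgroup (WG k Ω), Adm U ∧ ∀ u ∈ U, gal u δ = δ := by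
  obtain ⟨d, hd⟩ := hK.cube
  obtain ⟨b, hb⟩ := jK_range (Ω := Ω) d
  exact adm_kum hζ (hd.trans hb.symm)

theorem ff_smooth {hζ : IsPrimitiveRoot ζ 3} {ℓ : Locs Ω ζ} (X0 : ERep a1 a3 hζ ℓ)
    (hK : Kum (k := k) K' δ) (hc : IsCocycle (EC a1 a3) c) (hj : ∀ σ, 3 ^ j • c σ = 0) :
    ∃ U : Subgroup (WG k Ω), Adm U ∧ ∀ u : WG k Ω, u ∈ U ↔ wdeg u = 0 ∧ gal u δ = δ ∧
      (∀ y : Pts (EC a1 a3) Ω, 3 ^ j • y = 0 → act (EC a1 a3) (gal u) y = y) ∧
      ∀ y, FF c (gal u) y = 0 := by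
  obtain ⟨U1, hU1, h1⟩ := hK.adm hζ
  obtain ⟨U2, hU2, h2⟩ := X0.adm j
  obtain ⟨S, hS⟩ := ff_fin hc
  let H : Subgroup (WG k Ω) :=
    { carrier := {u | wdeg u = 0 ∧ gal u δ = δ ∧
        (∀ y : Pts (EC a1 a3) Ω, 3 ^ j • y = 0 → act (EC a1 a3) (gal u) y = y) ∧
        ∀ y, FF c (gal u) y = 0}
      one_mem' := ⟨rfl, by rw [map_one, AlgEquiv.one_apply], fun y _ => by rw [map_one, act_one],
        fun y => by rw [map_one, ff_one hc]⟩
      mul_mem' := fun {a b} ha hb => ⟨(WG0 k Ω).mul_mem ha.1 hb.1,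
        by rw [map_mul, AlgEquiv.mul_apply, hb.2.1, ha.2.1],
        fun y hy => by rw [map_mul, act_mul, hb.2.2.1 y hy, ha.2.2.1 y hy],
        fun y => by rw [map_mul, ff_mul hc, ha.2.2.2, hb.2.2.2, map_zero, add_zero]⟩
      inv_mem' := fun {a} ha => ⟨(WG0 k Ω).inv_mem ha.1,
        by rw [map_inv, AlgEquiv.aut_inv, AlgEquiv.symm_apply_eq, ha.2.1],
        fun y hy => by
          conv_lhs => rw [← ha.2.2.1 y hy, ← act_mul, ← map_mul, inv_mul_cancel, map_one, act_one],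
        fun y => by rw [map_inv, ff_inv hc ha.2.2.2]⟩ }
  have hn : H.Normal := ⟨fun u hu g => by
    obtain ⟨k1, k2, k3, k4⟩ := hu
    refine ⟨adm_WG0.normal.conj_mem u k1 g, ?_, fun y hy => ?_, fun y => ?_⟩
    · have e := kum_spec hζ hK.ne (hK.fix3 (gal g⁻¹))
      rw [map_mul, map_mul, AlgEquiv.mul_apply, AlgEquiv.mul_apply, e, map_mul (gal u), map_pow,
        GalKum_fix, k2, ← e, ← AlgEquiv.mul_apply, ← map_mul, mul_inv_cancel, map_one,
        AlgEquiv.one_apply]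
    · rw [map_mul, map_mul, act_mul, act_mul, k3 _ (by rw [← map_nsmul, hy, map_zero]), ← act_mul,
        ← map_mul, mul_inv_cancel, map_one, act_one]
    · rw [map_mul, map_mul, mul_assoc, ff_mul hc, ff_mul hc (gal u), k4, zero_add,
        k3 _ (ff_tors hj _ _), hK.inv_smul_eq hζ k2, ← ff_mul hc, ← map_mul, mul_inv_cancel,
        map_one, ff_one hc]⟩
  obtain ⟨S', hS'⟩ := (hU1.inf hU2).2.2.1
  refine ⟨H, (adm_core H (fun u hu => hu.1) (S ∪ S') (fun g hg h => ?_) fun g hg => ?_).mono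
    H.normalCore_le hn fun u hu => hu.1, fun u => Iff.rfl⟩
  · have h3 := hS' g hg fun a ha => h a (Finset.mem_union_right _ ha)
    exact ⟨hg, h1 g h3.1, h2 g h3.2, hS _ fun a ha => h a (Finset.mem_union_left _ ha)⟩
  · obtain ⟨i, hi⟩ := (hU1.inf hU2).2.2.2 g hg
    have h3 : ∀ (n : ℕ) y, FF c (gal ((g ^ 3 ^ i) ^ n)) y = n • FF c (gal (g ^ 3 ^ i)) y := by
      intro n y
      induction n with
      | zero => rw [pow_zero, map_one, ff_one hc, zero_smul]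
      | succ n ih =>
        rw [pow_succ', map_mul, ff_mul hc, hK.inv_smul_eq hζ (h1 _ hi.1),
          h2 _ hi.2 _ (ff_tors hj _ _), ih, succ_nsmul']
    have h4 := (U1 ⊓ U2).pow_mem hi (3 ^ j)
    refine ⟨i + j, ?_⟩
    rw [pow_add, pow_mul]
    exact ⟨(hU1.inf hU2).le h4, h1 _ h4.1, h2 _ h4.2, fun y => by rw [h3, ff_tors hj]⟩

/-- Shapiro's lemma with torsion coefficients -/
theorem EllSel_shapiro {G A X : Type} [Group G] [AddCommGroup A] [MulAction G X]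
    {ρ : G → A →+ A} (N : ℕ) (hρ : ∀ σ τ a, ρ (σ * τ) a = ρ σ (ρ τ a)) (F : G → X → A)
    (hF : ∀ σ τ x, F (σ * τ) x = F σ x + ρ σ (F τ (σ⁻¹ • x))) (hN : ∀ σ x, N • F σ x = 0)
    (hP : ∀ x, ∃ P, N • P = 0 ∧ ∀ τ : G, τ • x = x → F τ x = ρ τ P - P) :
    ∃ Φ : X → A, (∀ x, N • Φ x = 0) ∧ ∀ τ x, F τ x = ρ τ (Φ (τ⁻¹ • x)) - Φ x := by
  let T : AddSubgroup A := (nsmulAddMonoidHom N).ker
  have hT : ∀ a, a ∈ T ↔ N • a = 0 := fun a => Iff.rfl
  obtain ⟨Φ, hΦ⟩ := shapiro (G := G) (X := X) (A := T)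
    (ρ := fun σ => ((ρ σ).comp T.subtype).codRestrict T fun a => (hT _).2 (by
      rw [AddMonoidHom.comp_apply, ← map_nsmul, AddSubgroup.coe_subtype, (hT _).1 a.2, map_zero]))
    (fun σ τ a => Subtype.ext (hρ σ τ a)) (fun σ x => ⟨F σ x, (hT _).2 (hN σ x)⟩)
    (fun σ τ x => Subtype.ext (hF σ τ x)) fun x => by
      obtain ⟨P, h1, h2⟩ := hP x
      exact ⟨⟨P, (hT _).2 h1⟩, fun τ hτ => Subtype.ext (h2 τ hτ)⟩
  exact ⟨fun x => Φ x, fun x => (hT _).1 (Φ x).2, fun τ x => congrArg Subtype.val (hΦ τ x)⟩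

/-- local splitting by a torsion point on the stabiliser of a coset -/
theorem EllSel_point (h : Hyp a1 a3) (hζ : IsPrimitiveRoot ζ 3) (hK : Kum (k := k) K' δ)
    (hc : InSha (EC a1 a3) c) (hj : ∀ σ, 3 ^ j • c σ = 0) {v : Pl k} (l : Loc Ω ζ v)
    (y : Xs (RatFunc k) K' Ω) : ∃ (m : ℕ) (Q : Pts (EC a1 a3) Ω), 3 ^ m • Q = 0 ∧
      ∀ g ∈ Subgroup.closure ({l.σ, l.τ} : Set (WG k Ω)), gal g • y = y →
        FF c (gal g) y = act (EC a1 a3) (gal g) Q - Q := by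
  have : IsSepClosed l.Λ := IsSepClosure.sep_closed l.L
  have : IsSepClosed Ω := IsSepClosure.sep_closed (RatFunc k)
  obtain ⟨a, ha, ha1⟩ := l.nontriv
  let ι' : Ω →ₐ[RatFunc k] l.Λ := l.ι.comp y.out.toAlgHom
  obtain ⟨P, hP⟩ := loc_split (K := RatFunc k) (L := l.L) hc ⟨a, ha, by rw [ha1]; norm_num⟩ ι'
    fun x => by rw [ι'.commutes, IsScalarTower.algebraMap_apply (RatFunc k) l.L l.Λ]
  have key : ∀ (s : l.Λ ≃ₐ[l.L] l.Λ) (g : Gam k Ω), (∀ a, l.ι (g a) = s (l.ι a)) →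
      g • y = y → Point.map (W' := (EC a1 a3).toAffine) l.ι (FF c g y) =
        act (EC a1 a3) s P - P := by
    intro s g hs hg
    have h1 : g⁻¹ • y = y := by rw [inv_smul_eq_iff, hg]
    have h2 := smul_x0_iff.1 (sh_stab out_smul g y)
    rw [FF, Sh, ext0_of_mem _ h2, map_act_eq l.ι ι' fun _ => rfl]
    refine hP _ _ fun z => ?_
    change l.ι (y.out (((y.out)⁻¹ * g * (g⁻¹ • y).out) z)) = s (l.ι (y.out z))
    rw [h1, ← hs]
    simp [AlgEquiv.mul_apply]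
  obtain ⟨d, hd⟩ := hK.cube
  obtain ⟨ρ, hρ⟩ := l.exists_sz (a1 := a1) (a3 := a3) hζ
  obtain ⟨m, Y, hY, hY'⟩ := (h.t3 (three_ne hζ)).local_torsion hρ
    (G := {s : l.Λ ≃ₐ[l.L] l.Λ // s (l.ι δ) = l.ι δ}) (fun s => act (EC a1 a3) s.1)
    (fun s => (s.1 : l.Λ →+* l.Λ)) (fun s => compat_act s.1) (fun s a => l.wΛ_iso s.1 a)
    (fun B ε hε => by
      obtain ⟨Cs, hCs⟩ := l.tb hζ hK.ne hd B ε hε
      exact ⟨Cs, fun a ha => hCs a fun s hs => ha ⟨s, hs⟩⟩) P (j := j) fun s => by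
      obtain ⟨g, hg⟩ := l.exists_res s.1
      have h1 : g δ = δ := l.ι.toRingHom.injective ((hg δ).trans s.2)
      rw [← key s.1 g hg (hK.smul_eq hζ h1 y), ← map_nsmul, ff_tors hj, map_zero]
  obtain ⟨Q, rfl⟩ := tors_range h (three_ne hζ) l.ι hY
  refine ⟨m, Q, Point.map_injective (W' := (EC a1 a3).toAffine) l.ι (by rw [map_nsmul, hY, map_zero]),
    fun g hg hy => Point.map_injective (W' := (EC a1 a3).toAffine) l.ι ?_⟩
  obtain ⟨s, hs⟩ := l.exists_lift hg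
  have h1 : gal g δ = δ := by
    have := idx_smul hζ hK (gal g) y
    rw [hy, eq_comm, add_eq_right] at this
    exact (kum_eq_zero_iff hζ hK.ne (hK.fix3 _)).1 this
  rw [key s _ hs hy, map_sub, map_act l.ι hs]
  exact hY' ⟨s, by rw [← hs, h1]⟩

theorem ff_local (h : Hyp a1 a3) (hζ : IsPrimitiveRoot ζ 3) (hK : Kum (k := k) K' δ)
    (hc : InSha (EC a1 a3) c) (hj : ∀ σ, 3 ^ j • c σ = 0) {v : Pl k} (l : Loc Ω ζ v) :
    ∃ (m : ℕ) (Φ : Xs (RatFunc k) K' Ω → Pts (EC a1 a3) Ω), j ≤ m ∧ (∀ y, 3 ^ m • Φ y = 0) ∧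
      ∀ g ∈ Subgroup.closure ({l.σ, l.τ} : Set (WG k Ω)), ∀ y,
        FF c (gal g) y = act (EC a1 a3) (gal g) (Φ ((gal g)⁻¹ • y)) - Φ y := by
  choose m Q hQ hP using fun y => EllSel_point h hζ hK hc hj l y
  let D := Subgroup.closure ({l.σ, l.τ} : Set (WG k Ω))
  let _ : MulAction D (Xs (RatFunc k) K' Ω) := MulAction.compHom _ (gal.comp D.subtype)
  obtain ⟨Φ, h1, h2⟩ := EllSel_shapiro (G := D) (X := Xs (RatFunc k) K' Ω)
    (ρ := fun γ => act (EC a1 a3) (gal γ.1)) (3 ^ (j + ∑ y, m y))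
    (fun σ τ a => by rw [Subgroup.coe_mul, map_mul, act_mul])
    (fun γ y => FF c (gal γ.1) y)
    (fun σ τ y => by
      rw [Subgroup.coe_mul, map_mul, ff_mul hc.1, ← map_inv]
      rfl)
    (fun γ y => by rw [pow_add, mul_comm, mul_smul, ff_tors hj, smul_zero])
    fun y => ⟨Q y, by
      obtain ⟨r, hr⟩ := Nat.exists_eq_add_of_le ((Finset.single_le_sum (f := m)
        (fun _ _ => Nat.zero_le _) (Finset.mem_univ y)).trans (Nat.le_add_left _ j))
      rw [hr, pow_add, mul_comm, mul_smul, hQ, smul_zero], fun γ hγ => hP y γ.1 γ.2 hγ⟩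
  refine ⟨_, Φ, Nat.le_add_right _ _, h1, fun g hg y => ?_⟩
  rw [← map_inv]
  exact h2 ⟨g, hg⟩ y

theorem fin_sel (h : Hyp a1 a3) {hζ : IsPrimitiveRoot ζ 3} {ℓ : Locs Ω ζ} (X0 : ERep a1 a3 hζ ℓ)
    (hK : Kum (k := k) K' δ) (j : ℕ) :
    {c : (Ω ≃ₐ[K'] Ω) → Pts (EC a1 a3) Ω |
      InSha (EC a1 a3) c ∧ ∀ σ, 3 ^ j • c σ = 0}.Finite := by
  have : IsGalois K' Ω := IsGalois.tower_top_of_isGalois (RatFunc k) K' Ω
  obtain ⟨U1, hU1, h1⟩ := hK.adm hζ
  obtain ⟨Z, hZ⟩ := gen hζ ℓ (badS a1 a3 ∪ (tau_fin ℓ hU1).toFinset)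
  refine Set.Finite.of_finite_image (f := fun c (z : Z) y => FF c (gal z.1) y)
    ((Set.Finite.pi' fun _ => Set.Finite.pi' fun _ => X0.B.torsion_finite j).subset ?_)
    fun c hc c' hc' e => ?_
  · rintro _ ⟨c, hc, rfl⟩ z y
    exact ff_tors hc.2 _ _
  have hd := hc.1.sub hc'.1
  have hj : ∀ σ, 3 ^ j • (c - c') σ = 0 := fun σ => by
    rw [Pi.sub_apply, smul_sub, hc.2, hc'.2, sub_zero]
  obtain ⟨U, hU, hU'⟩ := ff_smooth X0 hK hd.1 hj
  let H : Subgroup (WG k Ω) :=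
    { carrier := {u | ∀ y, FF (c - c') (gal u) y = 0}
      one_mem' := fun y => by rw [map_one, ff_one hd.1]
      mul_mem' := fun {a b} ha hb y => by rw [map_mul, ff_mul hd.1, ha, hb, map_zero, add_zero]
      inv_mem' := fun {a} ha y => by rw [map_inv, ff_inv hd.1 ha] }
  have h2 : ⊤ ≤ H := by
    rw [← hZ U hU fun v hv => ?_]
    · refine sup_le ((Subgroup.closure_le _).2 fun z hz y => ?_) fun u hu => ((hU' u).1 hu).2.2.2
      rw [ff_sub, sub_eq_zero]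
      exact congrFun (congrFun e ⟨z, hz⟩) y
    · have k1 : v ∉ badS a1 a3 := fun k => hv (Finset.mem_union_left _ k)
      have k2 : gal (ℓ v).τ δ = δ := h1 _ (by_contra fun k =>
        hv (Finset.mem_union_right _ ((Set.Finite.mem_toFinset _).2 k)))
      obtain ⟨m, Φ, -, k3, k4⟩ := ff_local h hζ hK hd hj (ℓ v)
      refine (hU' _).2 ⟨(ℓ v).deg_τ, k2, fun y hy => (ℓ v).tau_fix hζ h k1 hy, fun y => ?_⟩
      rw [k4 _ (Subgroup.subset_closure (by simp)), hK.inv_smul_eq hζ k2,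
        (ℓ v).tau_fix hζ h k1 (k3 y), sub_self]
  obtain ⟨S, hS⟩ := ff_fin hd.1
  have h3 : ∀ (s : Gam k Ω) y, FF (c - c') s y = 0 := fun s y => by
    obtain ⟨g, hg⟩ := dense (ℓ none).σ (ℓ none).deg_σ s S
    rw [← mul_inv_cancel_left (gal g) s, ff_mul hd.1, h2 (Subgroup.mem_top g), hS _ fun a ha => by
      rw [AlgEquiv.mul_apply, ← hg a ha, ← AlgEquiv.mul_apply, inv_mul_cancel, AlgEquiv.one_apply],
      map_zero, add_zero]
  have h0 : (x0 (RatFunc k) K' Ω).out ∈ Hs (RatFunc k) K' Ω := smul_x0_iff.1 (out_smul _)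
  refine sub_eq_zero.1 (funext fun σ => ?_)
  have h4 := h3 ((x0 (RatFunc k) K' Ω).out * σ.restrictScalars (RatFunc k) *
    ((x0 (RatFunc k) K' Ω).out)⁻¹) (x0 (RatFunc k) K' Ω)
  rw [FF, Sh, smul_x0_iff.2 (inv_mem (mul_mem (mul_mem h0 (res_mem σ)) (inv_mem h0))),
    show ∀ a b : Gam k Ω, a⁻¹ * (a * b * a⁻¹) * a = b from fun a b => by group,
    ext0_of_mem _ (res_mem σ)] at h4
  have h5 := congrArg (act (EC a1 a3) ((x0 (RatFunc k) K' Ω).out)⁻¹) h4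
  rw [← act_mul, inv_mul_cancel, act_one, map_zero] at h5
  exact h5

end

end Pool.Agent.Smith
end

-- merged part: Pool.Agent.Work.MP_60d5ce_nt.Sm.EllKill
section
/-!
# If only trivial classes survive, the new part of a class in Sha is killed by a fixed power of three

Hints.
* `psi_coc`: `crd j` is additive and equivariant modulo `3 ^ j` (`pt_eq_iff`, `pt_crd`, `mat_spec`);
  `ff_mul`, reindex the sum by `y ↦ g • y`, `idx_smul`, `zp_add`, `IsLat.mulVec_latv`, `latv_dvd`.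
* `psi_loc`: with `m`, `Φ` from `ff_local` put `t = ∑ y, zp (idx y) • latv (crd m (Φ y))`; then
  `act g t - t ≡ 3 ^ (m - j) • psi g` modulo `pi ^ (2 m)` on `D v` (`pt_pow_smul`), and
  `pi ^ (2 (m - j)) = (-3) ^ (m - j)`; define `l g` as the quotient of `act g t' - t'`, `t' = ± t`.
* `kill`: `Triv.descent`, multiply by `pi ^ (K + 1)`, apply `kap` on elements fixing `δ` (the twist
  vanishes; `kap_zp`, `idx_inj`, `idx_x0`, `IsLat.kap_mulVec`, `kap_dvd`) and `pt j`; `ff_sum`, `ff_x0`.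
  Pass from the Weil group to `Gal(Ω/K')` by `dense` (`IsCocycle.fin`, `act_fix`).
-/

namespace Pool.Agent.Smith

open scoped Classical
open Polynomial Pool.Agent.ShaAsc

noncomputable section

variable {k : Type} [Field k] [Fintype k] {Ω : Type} [Field Ω] [Algebra (RatFunc k) Ω]
  [Algebra k Ω] [IsScalarTower k (RatFunc k) Ω] [IsSepClosure (RatFunc k) Ω] [DecidableEq Ω]
  {ζ : k} {a1 a3 : k[X]} {K' : Type} [Field K'] [Algebra (RatFunc k) K'] [Algebra K' Ω]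
  [IsScalarTower (RatFunc k) K' Ω] [FiniteDimensional (RatFunc k) K']
  {hζ : IsPrimitiveRoot ζ 3} {ℓ : Locs Ω ζ} (X0 : ERep a1 a3 hζ ℓ)

/-- the twisted cocycle -/
def psi (δ : Ω) (j : ℕ) (c : (Ω ≃ₐ[K'] Ω) → Pts (EC a1 a3) Ω) (g : WG k Ω) : V :=
  ∑ y, zp (idx K' ζ δ y) • latv (X0.B.crd j (FF c (gal g) y))

variable {δ : Ω} {c : (Ω ≃ₐ[K'] Ω) → Pts (EC a1 a3) Ω} {j : ℕ}

/-- the twisted sum of a family of coordinate vectors -/
def EllKill_S (ζ : k) (δ : Ω) (a : Xs (RatFunc k) K' Ω → Z2) : V :=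
  ∑ y, zp (idx K' ζ δ y) • latv (a y)

omit [Fintype k] [IsScalarTower k (RatFunc k) Ω] [DecidableEq Ω] in
theorem EllKill_add (a b : Xs (RatFunc k) K' Ω → Z2) :
    EllKill_S ζ δ (fun y => a y + b y) = EllKill_S ζ δ a + EllKill_S ζ δ b := by
  simp only [EllKill_S, latv_add, smul_add, Finset.sum_add_distrib]

omit [Fintype k] [IsScalarTower k (RatFunc k) Ω] [DecidableEq Ω] in
theorem EllKill_sub (a b : Xs (RatFunc k) K' Ω → Z2) :
    EllKill_S ζ δ (fun y => a y - b y) = EllKill_S ζ δ a - EllKill_S ζ δ b := by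
  simp only [EllKill_S, latv_sub, smul_sub, Finset.sum_sub_distrib]

omit [Fintype k] [IsScalarTower k (RatFunc k) Ω] [DecidableEq Ω] in
theorem EllKill_smul (r : ℤ_[3]) (a : Xs (RatFunc k) K' Ω → Z2) :
    EllKill_S ζ δ (fun y => r • a y) = algebraMap _ O r • EllKill_S ζ δ a := by
  simp only [EllKill_S, latv_smul, Finset.smul_sum, smul_comm (algebraMap ℤ_[3] O r)]

theorem EllKill_congr {a b : Xs (RatFunc k) K' Ω → Z2}
    (h : ∀ y, X0.B.pt j (a y) = X0.B.pt j (b y)) :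
    VD (2 * j) (EllKill_S ζ δ a - EllKill_S ζ δ b) := by
  rw [← EllKill_sub]
  exact VD.sum _ fun y _ => (latv_dvd ((X0.B.pt_eq_iff j _ _).1 (h y))).smul _

theorem EllKill_act (hK : Kum (k := k) K' δ) (g : WG k Ω) (a : Xs (RatFunc k) K' Ω → Z2) :
    X0.R.act (fun g => kum ζ δ (gal g)) g (EllKill_S ζ δ a) =
      EllKill_S ζ δ fun y => (X0.B.mat (act (EC a1 a3) (gal g))).mulVec (a ((gal g)⁻¹ • y)) := by
  rw [EllKill_S, EllKill_S, Rep.act_sum, ← sum_smul_inv (gal g)]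
  refine Finset.sum_congr rfl fun y _ => ?_
  have h1 := idx_smul hζ hK (gal g) ((gal g)⁻¹ • y)
  rw [smul_inv_smul] at h1
  rw [Rep.act_smul, Rep.act, (X0.lat g).mulVec_latv, smul_smul, h1, zp_add, mul_comm]

theorem EllKill_kap (hζ : IsPrimitiveRoot ζ 3) (hK : Kum (k := k) K' δ) (a : Xs (RatFunc k) K' Ω → Z2) :
    kap (EllKill_S ζ δ a) = 3 • (3 • a (x0 (RatFunc k) K' Ω) - ∑ y, a y) := by
  have h1 : kap (EllKill_S ζ δ a) = ∑ y, kap (zp (idx K' ζ δ y) • latv (a y)) :=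
    map_sum (AddMonoidHom.mk' kap kap_add) _ _
  have h2 : ∀ y, kap (zp (idx K' ζ δ y) • latv (a y)) =
      (if y = x0 (RatFunc k) K' Ω then 9 • a y else 0) - 3 • a y := by
    intro y
    rw [kap_zp]
    by_cases h : y = x0 (RatFunc k) K' Ω
    · rw [if_pos h, if_pos (by rw [h, idx_x0 hζ hK])]
      module
    · rw [if_neg h, if_neg fun e => h (idx_inj hζ hK (e.trans (idx_x0 hζ hK).symm))]
      module
  rw [h1]
  simp only [h2, Finset.sum_sub_distrib, Finset.sum_ite_eq', Finset.mem_univ, if_true,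
    ← Finset.smul_sum]
  module

theorem EllKill_pow (i : ℕ) : (-1 : O) ^ i * algebraMap ℤ_[3] O (3 ^ i) = pi ^ (2 * i) := by
  rw [pi_pow_two_mul, map_pow, map_ofNat, ← mul_pow, neg_one_mul]

theorem psi_coc (hK : Kum (k := k) K' δ) (hc : IsCocycle (EC a1 a3) c)
    (hj : ∀ σ, 3 ^ j • c σ = 0) :
    X0.R.Coc (fun g => kum ζ δ (gal g)) (2 * j) (psi X0 δ j c) := by
  refine ⟨?_, fun g h => ?_⟩
  · obtain ⟨U, hU, h1⟩ := ff_smooth X0 hK hc hj
    refine ⟨U, hU, fun g u hu => ?_⟩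
    have h2 : psi X0 δ j c (g * u) = psi X0 δ j c g := by
      simp only [psi, map_mul, ff_mul hc, ((h1 u).1 hu).2.2.2, map_zero, add_zero]
    rw [h2, sub_self]
    exact VD.zero _
  · have e : ∀ g, psi X0 δ j c g = EllKill_S ζ δ fun y => X0.B.crd j (FF c (gal g) y) :=
      fun _ => rfl
    rw [e, e, e, EllKill_act X0 hK, ← EllKill_add]
    refine EllKill_congr X0 fun y => ?_
    rw [map_add, ← X0.B.mat_spec, X0.B.pt_crd (ff_tors hj _ _), X0.B.pt_crd (ff_tors hj _ _),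
      X0.B.pt_crd (ff_tors hj _ _), map_mul, ff_mul hc]

theorem psi_loc (h : Hyp a1 a3) (hK : Kum (k := k) K' δ) (hc : InSha (EC a1 a3) c)
    (hj : ∀ σ, 3 ^ j • c σ = 0) (v : Pl k) :
    X0.R.LocOK (fun g => kum ζ δ (gal g)) (2 * j) (psi X0 δ j c) v := by
  obtain ⟨m, Φ, hm, h1, h2⟩ := ff_local h hζ hK hc hj (ℓ v)
  obtain ⟨i, rfl⟩ : ∃ i, m = i + j := ⟨m - j, by omega⟩
  set t : V := EllKill_S ζ δ fun y => X0.B.crd (i + j) (Φ y) with ht
  have key : ∀ g : WG k Ω, ∃ b : V, g ∈ (tame hζ ℓ).D v →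
      X0.R.act (fun g => kum ζ δ (gal g)) g ((-1 : O) ^ i • t) - (-1 : O) ^ i • t -
        pi ^ (2 * i) • psi X0 δ j c g = pi ^ (2 * (i + j)) • b := by
    intro g
    by_cases hg : g ∈ (tame hζ ℓ).D v
    swap
    · exact ⟨0, fun h3 => absurd h3 hg⟩
    have h3 : VD (2 * (i + j)) (X0.R.act (fun g => kum ζ δ (gal g)) g t - t -
        algebraMap ℤ_[3] O (3 ^ i) • psi X0 δ j c g) := by
      have e : psi X0 δ j c g = EllKill_S ζ δ fun y => X0.B.crd j (FF c (gal g) y) := rfl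
      rw [e, ht, EllKill_act X0 hK, ← EllKill_sub, ← EllKill_smul]
      refine EllKill_congr X0 fun y => ?_
      rw [map_sub, ← X0.B.mat_spec, X0.B.pt_crd (h1 _), X0.B.pt_crd (h1 _), X0.B.pt_pow_smul,
        X0.B.pt_crd (ff_tors hj _ _), h2 g hg]
    obtain ⟨b, hb⟩ := (h3.smul ((-1 : O) ^ i)).exists
    refine ⟨b, fun _ => ?_⟩
    rw [← hb, smul_sub, smul_sub, smul_smul, EllKill_pow, Rep.act_smul]
  choose b hb using key
  refine ⟨fun g => psi X0 δ j c g + pi ^ (2 * j) • b g, ⟨2 * i, (-1 : O) ^ i • t, fun g hg => ?_⟩,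
    fun g _ => ?_⟩
  · rw [smul_add, smul_smul, ← pow_add, ← mul_add, ← hb g hg, add_sub_cancel]
  · rw [sub_add_cancel_left]
    exact (VD_pow_smul _ _).neg

theorem kill (h : Hyp a1 a3) (hK : Kum (k := k) K' δ) {K : ℕ}
    (hT : X0.R.Triv (fun g => kum ζ δ (gal g)) K) (hc : InSha (EC a1 a3) c)
    (hj : ∀ σ, 3 ^ j • c σ = 0) :
    ∃ Y : Pts (EC a1 a3) Ω, 3 ^ j • Y = 0 ∧ ∀ σ : Ω ≃ₐ[K'] Ω,
      3 ^ (K + 2) • (3 • c σ - ShaAsc.res K' (cores (RatFunc k) (EC a1 a3) c) σ) =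
        act (EC a1 a3) σ Y - Y := by
  obtain ⟨d, hd⟩ := hK.cube
  obtain ⟨t, ht⟩ := Rep.Triv.descent (kum_hom hζ ℓ hK.ne hd) hT
    (⟨psi_coc X0 hK hc.1 hj, psi_loc X0 h hK hc hj⟩ : X0.R.StrongSel _ (2 * j) (psi X0 δ j c))
  obtain ⟨Y0, y0, y1⟩ := ff_x0 hc.1 hj
  set t1 : V := ((-1 : O) ^ (K + 1) * pi ^ (K + 1)) • t with ht1
  set Y1 := X0.B.pt j (kap t1) with hY1
  have key : ∀ g : WG k Ω, gal g δ = δ →
      3 ^ (K + 2) • (3 • FF c (gal g) (x0 (RatFunc k) K' Ω) - ∑ y, FF c (gal g) y) =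
        act (EC a1 a3) (gal g) Y1 - Y1 := by
    intro g hg
    have h0 : kum ζ δ (gal g) = 0 := (kum_eq_zero_iff hζ hK.ne (by rw [map_pow, hg])).2 hg
    have h1 := ((ht g).mono (Nat.le_succ _)).smul ((-1 : O) ^ (K + 1) * pi ^ (K + 1))
    have h2 : (-1 : O) ^ (K + 1) * pi ^ (K + 1) * pi ^ (K + 1) = algebraMap ℤ_[3] O (3 ^ (K + 1)) := by
      rw [mul_assoc, ← pow_add, ← two_mul, ← EllKill_pow, ← mul_assoc, ← mul_pow]
      simp
    rw [smul_sub, smul_smul, h2, smul_sub, ← Rep.act_smul, ← ht1, Rep.act, h0, zp_zero,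
      one_smul] at h1
    have h3 : ∀ s t : V, kap (s - t) = kap s - kap t := map_sub (AddMonoidHom.mk' kap kap_add)
    have h4 := (X0.B.ker j _).2 (kap_dvd h1)
    have e : psi X0 δ j c g = EllKill_S ζ δ fun y => X0.B.crd j (FF c (gal g) y) := rfl
    rw [h3, h3, kap_smul, (X0.lat g).kap_mulVec, e, EllKill_kap hζ hK, map_sub, map_sub,
      ← X0.B.mat_spec, sub_eq_zero, show (3 : ℤ_[3]) ^ (K + 1) = ((3 ^ (K + 1) : ℕ) : ℤ_[3]) by simp,
      Nat.cast_smul_eq_nsmul, map_nsmul, map_nsmul, map_sub, map_nsmul, map_sum] at h4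
    simp only [X0.B.pt_crd (ff_tors hj _ _)] at h4
    rw [← h4, smul_smul, ← pow_succ]
  refine ⟨Y1 - 3 ^ (K + 2) • 3 • Y0, ?_, fun σ => ?_⟩
  · rw [smul_sub, hY1, X0.B.pow_smul_pt, smul_comm, smul_comm (3 ^ j), y0, smul_zero, smul_zero,
      sub_zero]
  obtain ⟨S1, s1⟩ := ff_fin hc.1
  obtain ⟨S2, s2⟩ := act_fix (K := RatFunc k) Y1
  set s : Gam k Ω := σ.restrictScalars (RatFunc k) with hs
  obtain ⟨g, hg⟩ := dense (ℓ none).σ (ℓ none).deg_σ s (insert δ (S1 ∪ S2))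
  have hu : ∀ a ∈ insert δ (S1 ∪ S2), (s⁻¹ * gal g) a = a := fun a ha => by
    rw [AlgEquiv.mul_apply, hg a ha, ← AlgEquiv.mul_apply, inv_mul_cancel, AlgEquiv.one_apply]
  have e : gal g = s * (s⁻¹ * gal g) := (mul_inv_cancel_left _ _).symm
  have h1 := key g ((hg δ (Finset.mem_insert_self _ _)).trans ((hK.fix s).1 (res_mem σ)))
  have h2 : ∀ y, FF c (gal g) y = FF c s y := fun y => by
    rw [e, ff_mul hc.1, s1 _ (fun a ha => hu a (by simp [ha])), map_zero, add_zero]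
  have h3 : act (EC a1 a3) (gal g) Y1 = act (EC a1 a3) σ Y1 := by
    rw [e, act_mul, s2 _ fun a ha => hu a (by simp [ha])]
    exact act_congr (fun _ => rfl) _
  simp only [h2] at h1
  rw [h3, ff_sum, y1] at h1
  rw [map_sub, map_nsmul, map_nsmul, sub_sub_sub_comm, ← h1, ← smul_sub, ← smul_sub, ← smul_sub,
    smul_add, add_sub_right_comm, add_sub_cancel_right]
  rfl

end

end Pool.Agent.Smith
end

-- merged part: Pool.Agent.Work.MP_60d5ce_nt.Sm.RDefs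
section
/-!
# Finiteness of the three-primary part of the Tate-Shafarevich group
-/

namespace Pool.Agent.Smith

open Pool.Agent.ShaAsc

/-- `Sha(W/K)[3^∞]` is finite (`Ω` a separable closure of `K`): there is a finite set of cocycles
such that every `c` in Sha with `3 ^ M • c` a coboundary for some `M` differs from one of them by a
coboundary. -/
def ShaFin {R : Type} [Field R] (W : WeierstrassCurve R) (K Ω : Type) [Field K] [Field Ω]
    [Algebra R K] [Algebra K Ω] [Algebra R Ω] [IsScalarTower R K Ω] [DecidableEq Ω] : Prop :=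
  ∃ S : Set ((Ω ≃ₐ[K] Ω) → Pts W Ω), S.Finite ∧ ∀ c, InSha W c →
    (∃ M : ℕ, IsCoboundary W (3 ^ M • c)) → ∃ c' ∈ S, IsCoboundary W (c - c')

end Pool.Agent.Smith
end

-- merged part: Pool.Agent.Work.MP_60d5ce_nt.Sm.Ascend
section
/-!
# Sha and the rank do not grow

Hints.
* `exists_tors_rep`: `3 ^ M • c = d P`, `P = 3 ^ M • P'` (`exists_third_pow`), `c0 = c - d P'`
  (`InSha.sub_cob`).
* `bound_of_shaFin`: each member of the finite set that is congruent to a torsion class is killed by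
  some `3 ^ M`; take the maximum.
* `shaFin_of_bound`: `exists_tors_rep` and `fin_sel`.
* `kill_class`: `kill` for the representative `c0`; `cores_sub`, `IsCoboundary.cores`,
  `IsCoboundary.res`.
* `ascend`: `InSha.cores` (characteristic `ringChar k`), `cores_nsmul`, so `3 ^ b • cores c` is a
  coboundary and `3 ^ (K + 3 + b) • c` is one.
* `base_sha`: `K' = F`, `δ = 1` (`kum ζ 1 = 0`); `cores_res` with `finrank = 1` gives `cores c = c` up to
  a coboundary, so `3 ^ (K + 2) • 2 • c` and `3 ^ M • c` are coboundaries.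
* `div_point`: for `3 ^ j • P' = P` the coboundary `c` of `P'` is in Sha with values killed by `3 ^ j`;
  `cores c` is the coboundary of `P'' = ∑ x, x.out P'` (`cor_cob`); by `kill`,
  `R = 3 ^ (K + 2) • (3 • P' - P'') - Y` is fixed by `Gal(Ω/K')`, and `3 ^ j • R` is the point.
* `rank_eq`, `base_rank`: `div_point`, `div_torsion`; the sum over the cosets is fixed by `Gam`.
-/

namespace Pool.Agent.Smith

open scoped Classical
open Polynomial Pool.Agent.ShaAsc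

section helpers

variable {R : Type} [Field R] {K K' Ω : Type} [Field K] [Field K'] [Field Ω] [Algebra K K']
  [Algebra K Ω] [Algebra K' Ω] [IsScalarTower K K' Ω] [Algebra R K] [Algebra R K'] [Algebra R Ω]
  [IsScalarTower R K Ω] [IsScalarTower R K' Ω] [DecidableEq Ω] {W : WeierstrassCurve R}

theorem Ascend_cob [IsGalois K' Ω] (P : Pts W Ω) :
    InSha W (fun σ : Ω ≃ₐ[K'] Ω => act W σ P - P) := by
  refine ⟨cob_cocycle P, fun v _ => ?_⟩
  let _ := Classical.decEq (SeparableClosure v.Completion)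
  obtain ⟨ι, hι⟩ := exists_compat (R := R) (K := K') (Ω := Ω) v.Completion
  refine ⟨ι, hι, WeierstrassCurve.Affine.Point.map (W' := W.toAffine) ι P, fun τ σ h => ?_⟩
  rw [map_sub, map_act ι h]

theorem Ascend_cores [IsGalois K Ω] [FiniteDimensional K K'] (P : Pts W Ω) (σ : Ω ≃ₐ[K] Ω) :
    cores K W (fun σ : Ω ≃ₐ[K'] Ω => act W σ P - P) σ =
      act W σ (∑ y : Xs K K' Ω, act W y.out P) - ∑ y : Xs K K' Ω, act W y.out P := by
  refine cor_cob act_mul out_smul (P := P) (fun σ h => ?_) σ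
  rw [smul_x0_iff] at h
  rw [ext0_of_mem _ h, act_congr (σ := σ) (σ' := toH σ h) (fun _ => rfl)]

theorem Ascend_res {A : Type} (c : (Ω ≃ₐ[K] Ω) → A) : ShaAsc.res K c = c := rfl

end helpers

variable {k : Type} [Field k] [Fintype k] {Ω : Type} [Field Ω] [Algebra (RatFunc k) Ω]
  [Algebra k Ω] [IsScalarTower k (RatFunc k) Ω] [IsSepClosure (RatFunc k) Ω] [DecidableEq Ω]
  {ζ : k} {a1 a3 : k[X]} {K' : Type} [Field K'] [Algebra (RatFunc k) K'] [Algebra K' Ω]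
  [IsScalarTower (RatFunc k) K' Ω] [FiniteDimensional (RatFunc k) K']
  {hζ : IsPrimitiveRoot ζ 3} {ℓ : Locs Ω ζ} {δ : Ω}

theorem exists_tors_rep (h : Hyp a1 a3) (h3 : (3 : k) ≠ 0)
    {c : (Ω ≃ₐ[K'] Ω) → Pts (EC a1 a3) Ω} (hc : InSha (EC a1 a3) c) {M : ℕ}
    (hM : IsCoboundary (EC a1 a3) (3 ^ M • c)) :
    ∃ c0, InSha (EC a1 a3) c0 ∧ (∀ σ, 3 ^ M • c0 σ = 0) ∧ IsCoboundary (EC a1 a3) (c - c0) := by
  have : IsGalois K' Ω := IsGalois.tower_top_of_isGalois (RatFunc k) K' Ω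
  have : IsSepClosed Ω := IsSepClosure.sep_closed (RatFunc k)
  obtain ⟨P, hP⟩ := hM
  obtain ⟨P', hP'⟩ := (h.t3 (Λ := Ω) h3).exists_third_pow M P
  have hq : IsCoboundary (EC a1 a3) fun σ : Ω ≃ₐ[K'] Ω => act (EC a1 a3) σ P' - P' :=
    ⟨P', fun _ => rfl⟩
  refine ⟨_, hc.sub_cob hq, fun σ => ?_, ?_⟩
  · have := hP σ
    rw [Pi.smul_apply] at this
    rw [Pi.sub_apply, smul_sub, this, smul_sub, ← map_nsmul, hP', sub_self]
  · rw [sub_sub_cancel]
    exact hq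

theorem bound_of_shaFin (h : ShaFin (EC a1 a3) K' Ω) :
    ∃ b : ℕ, ∀ c : (Ω ≃ₐ[K'] Ω) → Pts (EC a1 a3) Ω, InSha (EC a1 a3) c →
      (∃ M : ℕ, IsCoboundary (EC a1 a3) (3 ^ M • c)) → IsCoboundary (EC a1 a3) (3 ^ b • c) := by
  obtain ⟨S, hS, h⟩ := h
  have key : ∀ c' : (Ω ≃ₐ[K'] Ω) → Pts (EC a1 a3) Ω, ∃ m : ℕ,
      (∃ M : ℕ, IsCoboundary (EC a1 a3) (3 ^ M • c')) → IsCoboundary (EC a1 a3) (3 ^ m • c') := by
    intro c'
    by_cases h0 : ∃ M : ℕ, IsCoboundary (EC a1 a3) (3 ^ M • c')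
    · obtain ⟨M, hM⟩ := h0
      exact ⟨M, fun _ => hM⟩
    · exact ⟨0, fun h1 => absurd h1 h0⟩
  choose m hm using key
  obtain ⟨b, hb⟩ := (hS.image m).bddAbove
  refine ⟨b, fun c hc hM => ?_⟩
  obtain ⟨c', hc', hcc⟩ := h c hc hM
  obtain ⟨M, hM⟩ := hM
  have h1 : IsCoboundary (EC a1 a3) (3 ^ M • c') := by
    have := hM.sub (hcc.nsmul (3 ^ M))
    rwa [← smul_sub, sub_sub_cancel] at this
  have h2 := (hm c' ⟨M, h1⟩).nsmul (3 ^ (b - m c'))
  have h3 : m c' ≤ b := hb ⟨c', hc', rfl⟩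
  rw [← mul_smul, ← pow_add, Nat.sub_add_cancel h3] at h2
  have := h2.add (hcc.nsmul (3 ^ b))
  rwa [← smul_add, add_sub_cancel] at this

theorem shaFin_of_bound (h : Hyp a1 a3) (X0 : ERep a1 a3 hζ ℓ) (hK : Kum (k := k) K' δ) {b : ℕ}
    (hb : ∀ c : (Ω ≃ₐ[K'] Ω) → Pts (EC a1 a3) Ω, InSha (EC a1 a3) c →
      (∃ M : ℕ, IsCoboundary (EC a1 a3) (3 ^ M • c)) → IsCoboundary (EC a1 a3) (3 ^ b • c)) :
    ShaFin (EC a1 a3) K' Ω := by
  refine ⟨_, fin_sel h X0 hK b, fun c hc hM => ?_⟩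
  obtain ⟨c0, h1, h2, h3⟩ := exists_tors_rep h (three_ne hζ) hc (hb c hc hM)
  exact ⟨c0, ⟨h1, h2⟩, h3⟩

theorem kill_class (h : Hyp a1 a3) (X0 : ERep a1 a3 hζ ℓ) (hK : Kum (k := k) K' δ) {K : ℕ}
    (hT : X0.R.Triv (fun g => kum ζ δ (gal g)) K) {c : (Ω ≃ₐ[K'] Ω) → Pts (EC a1 a3) Ω}
    (hc : InSha (EC a1 a3) c) (hM : ∃ M : ℕ, IsCoboundary (EC a1 a3) (3 ^ M • c)) :
    IsCoboundary (EC a1 a3)
      (3 ^ (K + 2) • (3 • c - ShaAsc.res K' (cores (RatFunc k) (EC a1 a3) c))) := by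
  obtain ⟨M, hM⟩ := hM
  obtain ⟨c0, h1, h2, h3⟩ := exists_tors_rep h (three_ne hζ) hc hM
  obtain ⟨Y, -, hY⟩ := kill X0 h hK hT h1 h2
  have e1 : IsCoboundary (EC a1 a3)
      (3 ^ (K + 2) • (3 • c0 - ShaAsc.res K' (cores (RatFunc k) (EC a1 a3) c0))) := ⟨Y, hY⟩
  have e2 := ((h3.nsmul 3).sub ((h3.cores (K := RatFunc k)).res (K' := K'))).nsmul (3 ^ (K + 2))
  have e3 := e1.add e2
  rw [cores_sub, ← smul_add] at e3
  convert e3 using 2
  funext σ
  simp only [ShaAsc.res, Pi.add_apply, Pi.sub_apply, Pi.smul_apply, smul_sub]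
  abel

theorem ascend (h : Hyp a1 a3) (X0 : ERep a1 a3 hζ ℓ) (hK : Kum (k := k) K' δ) {K : ℕ}
    (hT : X0.R.Triv (fun g => kum ζ δ (gal g)) K) (hF : ShaFin (EC a1 a3) (RatFunc k) Ω) :
    ShaFin (EC a1 a3) K' Ω := by
  obtain ⟨b, hb⟩ := bound_of_shaFin hF
  obtain ⟨p, hp⟩ := CharP.exists k
  have : Fact p.Prime := ⟨CharP.char_is_prime k p⟩
  have : CharP (RatFunc k) p := charP_of_injective_algebraMap (algebraMap k (RatFunc k)).injective p
  refine shaFin_of_bound h X0 hK (b := K + 3 + b) fun c hc hM => ?_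
  have e1 := (kill_class h X0 hK hT hc hM).nsmul (3 ^ b)
  obtain ⟨M, hM⟩ := hM
  have e2 := hb _ (hc.cores (K := RatFunc k) p) ⟨M, by
    rw [← cores_nsmul]; exact hM.cores⟩
  have e3 := e1.add ((e2.res (K' := K')).nsmul (3 ^ (K + 2)))
  convert e3 using 1
  funext σ
  simp only [ShaAsc.res, Pi.add_apply, Pi.sub_apply, Pi.smul_apply, smul_sub, ← mul_smul]
  rw [mul_comm (3 ^ b) (3 ^ (K + 2)), sub_add_cancel]
  congr 1
  ring

theorem kum_base : Kum (k := k) (RatFunc k) (1 : Ω) := by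
  refine ⟨one_ne_zero, ⟨1, by simp⟩, fun g => ⟨fun _ => map_one g, fun _ => ?_⟩⟩
  exact mem_Hs.2 g.commutes

theorem Ascend_triv (X0 : ERep a1 a3 hζ ℓ) {K : ℕ} (hT : X0.R.Triv 0 K) :
    X0.R.Triv (fun g => kum ζ (1 : Ω) (gal g)) K := by
  have : (fun g : WG k Ω => kum ζ (1 : Ω) (gal g)) = 0 := by
    funext g
    exact kum_eq hζ one_ne_zero (n := 0) (by simp)
  rw [this]
  exact hT

theorem base_sha (h : Hyp a1 a3) (X0 : ERep a1 a3 hζ ℓ) {K : ℕ} (hT : X0.R.Triv 0 K) :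
    ShaFin (EC a1 a3) (RatFunc k) Ω := by
  have hT' := Ascend_triv X0 hT
  refine shaFin_of_bound h X0 kum_base (b := K + 2) fun c hc hM => ?_
  have e1 := kill_class h X0 kum_base hT' hc hM
  obtain ⟨M, hM⟩ := hM
  have e2 := (cores_res (K' := RatFunc k) hc.1.2).nsmul (3 ^ (K + 2))
  rw [Module.finrank_self, one_smul, Ascend_res] at e2
  rw [Ascend_res] at e1
  obtain ⟨t, ht⟩ : Odd (3 ^ M) := Odd.pow (by decide)
  have e3 := (hM.nsmul (3 ^ (K + 2))).sub ((e1.add e2).nsmul t)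
  convert e3 using 1
  rw [ht]
  module

theorem div_point (h : Hyp a1 a3) (X0 : ERep a1 a3 hζ ℓ) (hK : Kum (k := k) K' δ) {K : ℕ}
    (hT : X0.R.Triv (fun g => kum ζ δ (gal g)) K) {P : Pts (EC a1 a3) Ω}
    (hP : ∀ σ : Ω ≃ₐ[K'] Ω, act (EC a1 a3) σ P = P) (j : ℕ) :
    ∃ R : Pts (EC a1 a3) Ω, (∀ σ : Ω ≃ₐ[K'] Ω, act (EC a1 a3) σ R = R) ∧ 3 ^ j • R =
      3 ^ (K + 2) • (3 • P - ∑ y : Xs (RatFunc k) K' Ω, act (EC a1 a3) y.out P) := by
  have : IsGalois K' Ω := IsGalois.tower_top_of_isGalois (RatFunc k) K' Ω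
  have : IsSepClosed Ω := IsSepClosure.sep_closed (RatFunc k)
  obtain ⟨P', hP'⟩ := (h.t3 (Λ := Ω) (three_ne hζ)).exists_third_pow j P
  have hc := Ascend_cob (K' := K') (W := EC a1 a3) P'
  obtain ⟨Y, hY0, hY⟩ := kill X0 (j := j) h hK hT hc fun σ => by
    rw [smul_sub, ← map_nsmul, hP', hP, sub_self]
  refine ⟨3 ^ (K + 2) • (3 • P' - ∑ y : Xs (RatFunc k) K' Ω, act (EC a1 a3) y.out P') - Y,
    fun σ => ?_, ?_⟩
  · have e := hY σ
    rw [ShaAsc.res, Ascend_cores,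
      ← act_congr (σ := σ) (σ' := σ.restrictScalars (RatFunc k)) (fun _ => rfl)] at e
    rw [map_sub, map_nsmul, map_sub, map_nsmul, ← sub_eq_zero, ← sub_eq_zero.2 e]
    module
  · rw [smul_sub, hY0, sub_zero, smul_comm, smul_sub, smul_comm, hP', Finset.smul_sum]
    simp only [← map_nsmul, hP']

theorem rank_eq (h : Hyp a1 a3) (X0 : ERep a1 a3 hζ ℓ) (hK : Kum (k := k) K' δ) {K : ℕ}
    (hT : X0.R.Triv (fun g => kum ζ δ (gal g)) K) {P : Pts (EC a1 a3) Ω}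
    (hP : ∀ σ : Ω ≃ₐ[K'] Ω, act (EC a1 a3) σ P = P) :
    ∃ m : ℕ, 0 < m ∧ ∀ σ : Gam k Ω, act (EC a1 a3) σ (m • P) = m • P := by
  obtain ⟨m, hm, h0⟩ := div_torsion K' h hζ ℓ _ (div_point h X0 hK hT hP)
  have hs : ∀ σ : Gam k Ω, act (EC a1 a3) σ (∑ y : Xs (RatFunc k) K' Ω, act (EC a1 a3) y.out P) =
      ∑ y : Xs (RatFunc k) K' Ω, act (EC a1 a3) y.out P := by
    intro σ
    have e := Ascend_cores (K := RatFunc k) (K' := K') (W := EC a1 a3) P σ
    have e0 : (fun σ : Ω ≃ₐ[K'] Ω => act (EC a1 a3) σ P - P) =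
        (0 : ℕ) • fun σ : Ω ≃ₐ[K'] Ω => act (EC a1 a3) σ P - P := by
      funext τ
      rw [hP, sub_self, zero_smul, Pi.zero_apply]
    rw [e0, cores_nsmul, zero_smul, Pi.zero_apply] at e
    exact sub_eq_zero.1 e.symm
  refine ⟨m * 3 ^ (K + 2) * 3, by positivity, fun σ => ?_⟩
  have e : (m * 3 ^ (K + 2) * 3) • P =
      (m * 3 ^ (K + 2)) • ∑ y : Xs (RatFunc k) K' Ω, act (EC a1 a3) y.out P := by
    rw [← sub_eq_zero, ← h0]
    module
  rw [e, map_nsmul, hs]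

theorem base_rank (h : Hyp a1 a3) (X0 : ERep a1 a3 hζ ℓ) {K : ℕ} (hT : X0.R.Triv 0 K)
    {P : Pts (EC a1 a3) Ω} (hP : ∀ σ : Gam k Ω, act (EC a1 a3) σ P = P) :
    ∃ m : ℕ, 0 < m ∧ m • P = 0 := by
  obtain ⟨m, hm, h0⟩ := div_torsion (RatFunc k) h hζ ℓ _
    (div_point h X0 kum_base (Ascend_triv X0 hT) hP)
  have e : ∑ y : Xs (RatFunc k) (RatFunc k) Ω, act (EC a1 a3) y.out P = P := by
    simp only [hP]
    rw [Finset.sum_const, Finset.card_univ, ← Nat.card_eq_fintype_card, card_Xs,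
      Module.finrank_self, one_smul]
  refine ⟨m * 3 ^ (K + 2) * 2, by positivity, ?_⟩
  rw [← h0, e]
  module

end Pool.Agent.Smith
end

-- merged part: Pool.Agent.Work.MP_60d5ce_nt.Sm.MainA
section
-- merged part: Pool.Agent.Work.MP_60d5ce_nt.Sm.RepAbs
section
/-!
# The determinant, and the base case with three bad places

Hints.
* `eq_one_of_pow`: `1 + pi ^ 2 O` has no torsion: if `a = 1 + pi ^ j u`, `j ≥ 2`, `u` a unit, then
  `a ^ 3 = 1 + pi ^ (j + 2) u'` and `a ^ m = 1 + pi ^ j u''` for `m` prime to three.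
* `char_tau`: by `rel`, `d (σ τ) ≡ d (τ ^ Q σ)` modulo all powers of `pi`, so `d τ ^ (Q - 1) = 1`.
* `char_eq_cq`: `f g = d g * (unit ^ (-deg g))` for the unit `d (σ inf)`; if `f ≡ 1` modulo `pi ^ j` then
  `dig j (f g - 1)` is a smooth character killing all `τ v` and `σ inf` (`uniq`).  So
  `d (σ inf) ^ dg v0 = q ^ dg v0`, and `eq_one_of_pow`.
* `trace_eq_two`: `T n = trace (B ^ n)`, `U n` with `B ^ n = U n • B - U (n - 1)`;
  `T (2 Q) - T 2 = (s ^ 2 - 4) U (Q + 1) U (Q - 1)` and `T (2 Q) = T Q ^ 2 - 2 = T 2`; `res (U n) = n`;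
  `U (3 n) = (T n - 1) (T n + 1) U n`; `T n - 2 = (s - 2) V n` with `res (V n) = n ^ 2`;
  `s - 2 = -pi ^ 2 * det M'` for `B = 1 + pi M'`, `res (det M') = -b c`.  So if `b c ≠ 1` no `U n`,
  `n ≥ 1`, vanishes.
* `ltyp_unip`: `N = ρ τ - 1`, `A = ρ σ`, `A N = Q N A` (`rho_rel`), `trace (N A) = 0`, `N A = adj A * N`,
  `A N A = Q • N`, `N (A - 1) (A + 1) = 0`, `A + 1` is invertible; so `N l = 0` at `σ`, `τ`.
* `ltyp_full`: `B - 1 = pi M'` with `det M'` a unit, `t = pi ^ (m - 1) • M'⁻¹ (l τ)`.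
* `base_triv`: write `b, c` for the characters `M · 0 1`, `M · 1 0`.  `sum_deg_tau` gives `b τ∞ = -b τ1`,
  `c τ∞ = -c τ0 - c τ1`; `trace_eq_two` says `b c ∈ {0, 1}` at each place.  Either `c τ1 = 0`
  (`∞` is full), or `c τ∞ = 0` (`v1` is full).  Subtract `M t` to make `w` vanish on the full place
  (`ltyp_unip` also applies to the classes `M t`: `M τ * M g = 0` on `D v`); at a unipotent place one
  coordinate of `w` vanishes on `D v`; conclude with `sum_deg_tau` and `hom_expand`.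
-/

namespace Pool.Agent.Smith

open scoped Classical

variable {W P : Type} [Group W] {T : Tame W P}

theorem RepAbs_pi_ne : pi ≠ 0 := fun h => by
  have : (1 : O) = 0 := pi_mul_eq_zero (by rw [h, zero_mul])
  exact one_ne_zero this

theorem RepAbs_three_ne : (3 : O) ≠ 0 := fun h => by
  have : pi ^ 2 = 0 := by rw [pi_sq, h, neg_zero]
  exact RepAbs_pi_ne (pow_eq_zero_iff (by norm_num) |>.1 this)

theorem RepAbs_ne_of_res {a : O} (h : res a ≠ 0) : a ≠ 0 := fun h' => h (by rw [h', map_zero])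

theorem RepAbs_res_three : res (3 : O) = 0 := by
  rw [map_ofNat]; rfl

theorem RepAbs_res_one {a : O} (h : pi ^ 2 ∣ a - 1) : res a = 1 := by
  have := (res_eq_zero_iff _).2 ((dvd_pow_self pi (by norm_num)).trans h)
  simpa [sub_eq_zero] using this

theorem RepAbs_cast_ne {n : ℕ} (h : ¬ 3 ∣ n) : (n : F3) ≠ 0 := by
  rwa [Ne, ZMod.natCast_eq_zero_iff]

theorem RepAbs_natCast_ne {n : ℕ} (hn : 0 < n) : (n : O) ≠ 0 := by
  induction n using Nat.strong_induction_on with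
  | _ n ih =>
    by_cases h3 : 3 ∣ n
    · obtain ⟨k, rfl⟩ := h3
      push_cast
      exact mul_ne_zero RepAbs_three_ne (ih k (by omega) (by omega))
    · exact RepAbs_ne_of_res (by rw [map_natCast]; exact RepAbs_cast_ne h3)

theorem eq_one_of_pow {a : O} (h : pi ^ 2 ∣ a - 1) {n : ℕ} (hn : 0 < n) (ha : a ^ n = 1) :
    a = 1 := by
  induction n using Nat.strong_induction_on generalizing a with
  | _ n ih =>
    by_cases h3 : 3 ∣ n
    · obtain ⟨k, rfl⟩ := h3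
      have h1 : a ^ 3 = 1 := ih k (by omega) (h.trans (sub_one_dvd_pow_sub_one a 3)) (by omega)
        (by rw [← pow_mul, ha])
      obtain ⟨c, hc⟩ := h
      rw [pi_sq] at hc
      have h2 : (a - 1) * (3 * (1 - 3 * c + 3 * c ^ 2)) = 0 := by
        have e : a = 1 - 3 * c := by linear_combination hc
        rw [e] at h1 ⊢
        linear_combination h1
      rcases mul_eq_zero.1 h2 with h4 | h4
      · exact sub_eq_zero.1 h4
      · refine absurd h4 (mul_ne_zero RepAbs_three_ne (RepAbs_ne_of_res ?_))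
        simp [RepAbs_res_three]
    · have h2 : (∑ i ∈ Finset.range n, a ^ i) * (a - 1) = 0 := by rw [geom_sum_mul, ha, sub_self]
      rcases mul_eq_zero.1 h2 with h4 | h4
      · refine absurd h4 (RepAbs_ne_of_res ?_)
        simpa [map_sum, RepAbs_res_one h] using RepAbs_cast_ne h3
      · exact sub_eq_zero.1 h4

theorem RepAbs_d_one (d : W → O) (hm : ∀ g h, d (g * h) = d g * d h) (h1 : ∀ g, pi ^ 2 ∣ d g - 1) :
    d 1 = 1 := by
  have hne : d 1 ≠ 0 := RepAbs_ne_of_res (by rw [RepAbs_res_one (h1 1)]; exact one_ne_zero)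
  have := hm 1 1
  rw [mul_one] at this
  exact mul_left_cancel₀ hne (by rw [← this, mul_one])

theorem RepAbs_d_pow (d : W → O) (hm : ∀ g h, d (g * h) = d g * d h) (h1 : ∀ g, pi ^ 2 ∣ d g - 1)
    (g : W) (n : ℕ) : d (g ^ n) = d g ^ n := by
  induction n with
  | zero => simpa using RepAbs_d_one d hm h1
  | succ n ih => rw [pow_succ, hm, ih, pow_succ]

theorem char_tau (d : W → O) (hm : ∀ g h, d (g * h) = d g * d h) (h1 : ∀ g, pi ^ 2 ∣ d g - 1)
    (hs : ∀ j : ℕ, ∃ U, T.Adm U ∧ ∀ u ∈ U, pi ^ j ∣ d u - 1) (v : P) : d (T.τ v) = 1 := by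
  have hne : ∀ g, d g ≠ 0 := fun g =>
    RepAbs_ne_of_res (by rw [RepAbs_res_one (h1 g)]; exact one_ne_zero)
  have hrel : d (T.τ v ^ T.Q v * T.σ v) = d (T.σ v * T.τ v) := by
    refine sub_eq_zero.1 (eq_zero_of_forall_dvd fun j => ?_)
    obtain ⟨U, hU, h⟩ := hs j
    have hu := h _ (T.rel U hU v)
    have e : d (T.τ v ^ T.Q v * T.σ v) = d (T.σ v * T.τ v) *
        d ((T.σ v * T.τ v)⁻¹ * (T.τ v ^ T.Q v * T.σ v)) := by
      rw [← hm, mul_inv_cancel_left]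
    rw [e, ← mul_sub_one]
    exact hu.mul_left _
  rw [hm, hm, RepAbs_d_pow d hm h1] at hrel
  have hQ := T.one_lt_Q v
  obtain ⟨n, hn⟩ : ∃ n, T.Q v = n + 1 := ⟨T.Q v - 1, by omega⟩
  rw [hn] at hrel
  refine eq_one_of_pow (h1 _) (n := n) (by omega) ?_
  refine mul_right_cancel₀ (mul_ne_zero (hne (T.τ v)) (hne (T.σ v))) ?_
  linear_combination hrel

theorem char_eq_cq (d : W → O) (hm : ∀ g h, d (g * h) = d g * d h) (h1 : ∀ g, pi ^ 2 ∣ d g - 1)
    (hs : ∀ j : ℕ, ∃ U, T.Adm U ∧ ∀ u ∈ U, pi ^ j ∣ d u - 1) {v0 : P}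
    (h0 : d (T.σ v0) = T.Q v0) (g : W) : d g = T.cq g := by
  have hu : IsUnit (d (T.σ T.inf)) :=
    isUnit_of_res_ne_zero (by rw [RepAbs_res_one (h1 _)]; exact one_ne_zero)
  set u : Oˣ := hu.unit with hudef
  have huv : (u : O) = d (T.σ T.inf) := hu.unit_spec
  have hres : ∀ n : ℤ, res ((u ^ n : Oˣ) : O) = 1 := by
    intro n
    have e : Units.map (res : O →* F3) u = 1 := by
      ext
      simpa [huv] using RepAbs_res_one (h1 (T.σ T.inf))
    have e2 : Units.map (res : O →* F3) (u ^ n) = 1 := by rw [map_zpow, e, one_zpow]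
    exact congrArg Units.val e2
  let f : W → O := fun g => d g * ((u ^ (-T.deg g) : Oˣ) : O)
  have fm : ∀ g h, f (g * h) = f g * f h := by
    intro g h
    simp only [f]
    rw [hm, T.deg_mul, neg_add, zpow_add, Units.val_mul]
    ring
  have f1 : ∀ g, pi ∣ f g - 1 := by
    intro g
    rw [← res_eq_zero_iff]
    simp only [f]
    rw [map_sub, map_mul, hres, RepAbs_res_one (h1 g), map_one, mul_one, sub_self]
  have key : ∀ j g, pi ^ j ∣ f g - 1 := by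
    intro j
    induction j with
    | zero => simp
    | succ j ih =>
      have hx : T.IsHom fun g => dig j (f g - 1) := by
        constructor
        · obtain ⟨U, hU, h⟩ := hs (j + 1)
          refine ⟨U, hU, fun g w hw => dig_congr ?_⟩
          have hw0 : T.deg w = 0 := T.adm_le U hU hw
          have e : f w = d w := by simp [f, hw0]
          rw [sub_sub_sub_cancel_right, fm, e, ← mul_sub_one]
          exact (h w hw).mul_left _
        · intro g h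
          rw [← dig_add (ih g) (ih h)]
          refine dig_congr ?_
          have e : f (g * h) - 1 - (f g - 1 + (f h - 1)) = (f g - 1) * (f h - 1) := by
            rw [fm]; ring
          rw [e, pow_succ]
          exact mul_dvd_mul (ih g) (f1 h)
      have hz := T.uniq _ hx (fun v _ => by
        have e : f (T.τ v) = 1 := by simp [f, T.deg_τ, char_tau d hm h1 hs v]
        simp [e]) (by
        have e : f (T.σ T.inf) = 1 := by
          simp only [f]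
          rw [T.deg_σ, T.dg_inf, ← huv, ← Units.val_mul]
          simp
        simp [e])
      intro g
      exact (dig_eq_zero_iff (ih g)).1 (congrFun hz g)
  have hd : ∀ g, d g = ((u ^ T.deg g : Oˣ) : O) := by
    intro g
    have e : f g = 1 := sub_eq_zero.1 (eq_zero_of_forall_dvd fun j => key j g)
    simp only [f] at e
    rw [zpow_neg] at e
    exact (Units.mul_inv_eq_one.1 e)
  set qq : Oˣ := T.isUnit_q.unit with hqq
  have hqv : (qq : O) = T.q := T.isUnit_q.unit_spec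
  have hpow : u ^ T.dg v0 = qq ^ T.dg v0 := by
    ext1
    have := hd (T.σ v0)
    rw [h0, T.deg_σ, zpow_natCast] at this
    rw [← this, Units.val_pow_eq_pow_val, hqv]
    simp [Pre.Q]
  have hq1 : pi ^ 2 ∣ (qq : O) - 1 := by
    rw [hqv, pi_sq, ← Nat.div_add_mod T.q 3, T.q_mod]
    exact ⟨-(T.q / 3 : ℕ), by push_cast; ring⟩
  have he : ((u * qq⁻¹ : Oˣ) : O) = 1 := by
    refine eq_one_of_pow ?_ (T.dg_pos v0) ?_
    · have e : ((u * qq⁻¹ : Oˣ) : O) - 1 = ((u : O) - 1 - ((qq : O) - 1)) * ((qq⁻¹ : Oˣ) : O) := by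
        rw [Units.val_mul]
        linear_combination qq.mul_inv
      rw [e]
      exact ((huv ▸ h1 _).sub hq1).mul_right _
    · rw [← Units.val_pow_eq_pow_val, mul_pow, hpow, ← mul_pow, mul_inv_cancel, one_pow,
        Units.val_one]
  have he' : u = qq := mul_inv_eq_one.1 (Units.ext he)
  rw [hd, he']
  rfl

theorem RepAbs_CH (C : Matrix (Fin 2) (Fin 2) O) :
    C * C = C.trace • C - C.det • (1 : Matrix (Fin 2) (Fin 2) O) := by
  refine Matrix.ext fun a b => ?_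
  fin_cases a <;> fin_cases b <;>
    simp [Matrix.mul_apply, Fin.sum_univ_two, Matrix.trace_fin_two, Matrix.det_fin_two] <;> ring

theorem RepAbs_det_sub_one (C : Matrix (Fin 2) (Fin 2) O) :
    (C - 1).det = C.det - C.trace + 1 := by
  simp [Matrix.trace_fin_two, Matrix.det_fin_two]
  ring

theorem RepAbs_map_one {B : Matrix (Fin 2) (Fin 2) O} (h1 : ∀ a b, pi ∣ (B - 1) a b) :
    res.mapMatrix B = 1 := by
  have : res.mapMatrix (B - 1) = 0 := by
    ext a b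
    exact (res_eq_zero_iff _).2 (h1 a b)
  rwa [map_sub, map_one, sub_eq_zero] at this

theorem RepAbs_geom {B : Matrix (Fin 2) (Fin 2) O} (h1 : ∀ a b, pi ∣ (B - 1) a b) (k : ℕ) :
    ∃ G : O, res G = (k : F3) ^ 2 ∧ (B ^ k - 1).det = G * (B - 1).det := by
  refine ⟨(∑ i ∈ Finset.range k, B ^ i).det, ?_, by rw [← Matrix.det_mul, geom_sum_mul]⟩
  rw [RingHom.map_det, map_sum]
  simp only [map_pow, RepAbs_map_one h1, one_pow, Finset.sum_const, Finset.card_range]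
  rw [nsmul_one, ← Matrix.diagonal_natCast, Matrix.det_diagonal]
  simp

theorem RepAbs_exists_M {B : Matrix (Fin 2) (Fin 2) O} (h1 : ∀ a b, pi ∣ (B - 1) a b) :
    ∃ M : Matrix (Fin 2) (Fin 2) O, B - 1 = pi • M ∧ ∀ a b, dig 1 ((B - 1) a b) = res (M a b) := by
  choose M hM using h1
  refine ⟨Matrix.of M, Matrix.ext fun a b => hM a b, fun a b => ?_⟩
  rw [hM a b, ← dig_pow_mul 1, pow_one]
  rfl

theorem trace_eq_two {B : Matrix (Fin 2) (Fin 2) O} {Q : ℕ} (hQ : Q % 3 = 1) (hQ1 : 1 < Q)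
    (hB : B.det = 1) (h1 : ∀ a b, pi ∣ (B - 1) a b) (hd : ∀ a, pi ^ 2 ∣ (B - 1) a a)
    (ht : (B ^ Q).trace = B.trace) (hbc : dig 1 ((B - 1) 0 1) * dig 1 ((B - 1) 1 0) ≠ 1) :
    B.trace = 2 ∧ dig 1 ((B - 1) 0 1) * dig 1 ((B - 1) 1 0) = 0 := by
  obtain ⟨M, hM, hM'⟩ := RepAbs_exists_M h1
  have hdet : (B - 1).det = -3 * M.det := by
    rw [hM, Matrix.det_smul, Fintype.card_fin, pi_sq]
  have hres : res M.det = -(dig 1 ((B - 1) 0 1) * dig 1 ((B - 1) 1 0)) := by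
    rw [Matrix.det_fin_two, map_sub, map_mul, map_mul, ← hM', ← hM', ← hM', ← hM',
      dig_of_dvd (hd 0), zero_mul, zero_sub]
  generalize dig 1 ((B - 1) 0 1) * dig 1 ((B - 1) 1 0) = e at hbc hres
  have htr : ∀ k : ℕ, (B ^ k).trace + 1 ≠ 0 := by
    intro k
    obtain ⟨G, hG, hG'⟩ := RepAbs_geom h1 k
    rw [RepAbs_det_sub_one, Matrix.det_pow, hB, one_pow, hdet] at hG'
    have e1 : (B ^ k).trace + 1 = 3 * (1 + G * M.det) := by linear_combination -hG'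
    rw [e1]
    refine mul_ne_zero RepAbs_three_ne (RepAbs_ne_of_res ?_)
    rw [map_add, map_mul, hG, hres, map_one]
    exact (by decide : ∀ e k : F3, e ≠ 1 → 1 + k ^ 2 * -e ≠ 0) _ _ hbc
  have hall : ∀ m : ℕ, 0 < m → (B ^ m - 1).det = 0 → (B - 1).det = 0 := by
    intro m
    induction m using Nat.strong_induction_on with
    | _ m ih =>
      intro hm h
      by_cases h3 : 3 ∣ m
      · obtain ⟨k, rfl⟩ := h3
        refine ih k (by omega) (by omega) ?_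
        have hc := RepAbs_CH (B ^ k)
        rw [Matrix.det_pow, hB, one_pow, one_smul] at hc
        have e1 : B ^ (3 * k) - 1 = (((B ^ k).trace + 1) • B ^ k) * (B ^ k - 1) := by
          have e2 : ((B ^ k).trace + 1) • B ^ k = B ^ k * B ^ k + B ^ k + 1 := by
            rw [hc, add_smul, one_smul]; abel
          rw [e2, mul_comm 3 k, pow_mul]
          noncomm_ring
        rw [e1, Matrix.det_mul, Matrix.det_smul, Matrix.det_pow, hB, one_pow, mul_one] at h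
        exact (mul_eq_zero.1 h).resolve_left (pow_ne_zero _ (htr k))
      · obtain ⟨G, hG, hG'⟩ := RepAbs_geom h1 m
        rw [hG'] at h
        exact (mul_eq_zero.1 h).resolve_left
          (RepAbs_ne_of_res (by rw [hG]; exact pow_ne_zero _ (RepAbs_cast_ne h3)))
  obtain ⟨n, rfl⟩ : ∃ n, Q = n + 1 := ⟨Q - 1, by omega⟩
  have hz : (B ^ n - 1) * (B ^ (n + 2) - 1) = 0 := by
    have c1 := RepAbs_CH B
    have c2 := RepAbs_CH (B ^ (n + 1))
    rw [Matrix.det_pow, ht] at c2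
    rw [hB, one_pow, one_smul] at c2
    rw [hB, one_smul] at c1
    have e1 : (B ^ n - 1) * (B ^ (n + 2) - 1) =
        B ^ (n + 1) * B ^ (n + 1) - B ^ n * (B * B + 1) + 1 := by
      rw [← pow_add, sub_mul, mul_sub, ← pow_add, mul_add, ← pow_two, ← pow_add,
        show n + 1 + (n + 1) = n + (n + 2) by ring]
      simp only [mul_one, one_mul]
      abel
    rw [e1, c1, c2, sub_add_cancel, mul_smul_comm, ← pow_succ]
    abel
  have hz' := congrArg Matrix.det hz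
  rw [Matrix.det_mul, Matrix.det_zero] at hz'
  have h0 : (B - 1).det = 0 := by
    rcases mul_eq_zero.1 hz' with h | h
    · exact hall n (by omega) h
    · exact hall (n + 2) (by omega) h
  constructor
  · rw [RepAbs_det_sub_one, hB] at h0
    linear_combination -h0
  · rw [hdet] at h0
    have h2 : M.det = 0 := (mul_eq_zero.1 h0).resolve_left (neg_ne_zero.2 RepAbs_three_ne)
    rw [h2, map_zero] at hres
    exact neg_eq_zero.1 hres.symm

namespace Rep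

variable {R : Rep T}

theorem RepAbs_pow (g : W) (n : ℕ) : R.ρ (g ^ n) = R.ρ g ^ n := by
  induction n with
  | zero => simpa using R.ρ_one
  | succ n ih => rw [pow_succ, R.ρ_mul, ih, pow_succ]

theorem RepAbs_rel (v : P) :
    R.ρ (T.σ v) * R.ρ (T.τ v) = R.ρ (T.τ v) ^ T.Q v * R.ρ (T.σ v) := by
  rw [← RepAbs_pow, ← R.ρ_mul, ← R.ρ_mul, rho_rel]

theorem RepAbs_act (g : W) (t : V) : R.act 0 g t - t = (R.ρ g - 1).mulVec t := by
  simp [act, Matrix.sub_mulVec]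

theorem RepAbs_N_mul (hdet : ∀ g, (R.ρ g).det = T.cq g) {v : P} (ht : (R.ρ (T.τ v)).trace = 2) :
    ∀ g ∈ T.D v, (R.ρ (T.τ v) - 1) * R.ρ g = R.ρ (T.τ v) - 1 := by
  have hdB : (R.ρ (T.τ v)).det = 1 := by rw [hdet, T.cq_of_deg_zero (T.deg_τ v)]
  have hdA : (R.ρ (T.σ v)).det = T.Q v := by rw [hdet, T.cq_σ]
  have hrel := RepAbs_rel (R := R) v
  have hA1 := R.one_mod (T.σ v)
  set A := R.ρ (T.σ v) with hA
  obtain ⟨N, hN⟩ : ∃ N, N = R.ρ (T.τ v) - 1 := ⟨_, rfl⟩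
  have hB : R.ρ (T.τ v) = 1 + N := by rw [hN]; abel
  have htN : N.trace = 0 := by
    rw [hN, Matrix.trace_sub, ht]; simp
  have hdN : N.det = 0 := by
    rw [hN, RepAbs_det_sub_one, hdB, ht]; ring
  have hNN : N * N = 0 := by rw [RepAbs_CH, htN, hdN]; simp
  have hpow : ∀ n : ℕ, (1 + N) ^ n = 1 + (n : O) • N := by
    intro n
    induction n with
    | zero => simp
    | succ n ih =>
      rw [pow_succ, ih, add_mul, mul_add, mul_add, smul_mul_assoc, smul_mul_assoc, hNN]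
      push_cast
      simp only [mul_one, one_mul, smul_zero, add_zero, add_smul, one_smul]
      abel
  rw [hB, hpow] at hrel
  have hAN : A * N = (T.Q v : O) • (N * A) := by
    rw [mul_add, add_mul, mul_one, one_mul, smul_mul_assoc] at hrel
    exact add_left_cancel hrel
  have hQ := T.one_lt_Q v
  have hQ0 : (T.Q v : O) ≠ 0 := RepAbs_natCast_ne (by omega)
  have hQ1 : (T.Q v : O) - 1 ≠ 0 := by
    have := RepAbs_natCast_ne (n := T.Q v - 1) (by omega)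
    rwa [Nat.cast_sub hQ.le, Nat.cast_one] at this
  have htr : (N * A).trace = 0 := by
    have := congrArg Matrix.trace hAN
    rw [Matrix.trace_mul_comm, Matrix.trace_smul, smul_eq_mul] at this
    exact (mul_eq_zero.1 (by linear_combination -this)).resolve_left hQ1
  have hANA : A * N * A = (T.Q v : O) • N := by
    rw [← hdA]
    simp only [Matrix.trace_fin_two, Matrix.mul_apply, Fin.sum_univ_two] at htN htr
    refine Matrix.ext fun a b => ?_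
    fin_cases a <;> fin_cases b <;>
      simp [Matrix.mul_apply, Fin.sum_univ_two, Matrix.det_fin_two]
    · linear_combination A 0 0 * htr - A 0 0 * A 1 1 * htN + A 0 1 * A 1 0 * htN
    · linear_combination A 0 1 * htr
    · linear_combination A 1 0 * htr
    · linear_combination A 1 1 * htr - A 0 0 * A 1 1 * htN + A 0 1 * A 1 0 * htN
  have h2 : N * (A - 1) * (A + 1) = 0 := by
    rw [hAN, smul_mul_assoc] at hANA
    have e := smul_right_injective _ hQ0 hANA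
    have e2 : N * (A - 1) * (A + 1) = N * A * A - N := by noncomm_ring
    rw [e2, e, sub_self]
  have hu : IsUnit (A + 1) := by
    rw [Matrix.isUnit_iff_isUnit_det]
    refine isUnit_of_res_ne_zero ?_
    rw [RingHom.map_det, map_add, RepAbs_map_one hA1, map_one, Matrix.det_fin_two]
    simp
    decide
  have h3 : N * A = N := by
    have := hu.mul_left_eq_zero.1 h2
    rwa [mul_sub, mul_one, sub_eq_zero] at this
  rw [← hN]
  intro g hg
  induction hg using Subgroup.closure_induction with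
  | mem x hx =>
    rcases hx with rfl | rfl
    · exact h3
    · rw [hB, mul_add, hNN, mul_one, add_zero]
  | one => rw [R.ρ_one, mul_one]
  | mul x y _ _ hx hy => rw [R.ρ_mul, ← mul_assoc, hx, hy]
  | inv x _ hx =>
    calc N * R.ρ x⁻¹ = N * R.ρ x * R.ρ x⁻¹ := by rw [hx]
      _ = N := by rw [mul_assoc, ← R.ρ_mul, mul_inv_cancel, R.ρ_one, mul_one]

theorem ltyp_unip (hdet : ∀ g, (R.ρ g).det = T.cq g) {v : P} (ht : (R.ρ (T.τ v)).trace = 2)
    {l : W → V} (hl : R.LTyp 0 v l) :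
    ∀ g ∈ T.D v, (R.M (T.τ v)).mulVec (digV 0 (l g)) = 0 := by
  intro g hg
  obtain ⟨m, t, hm⟩ := hl
  obtain ⟨M, hM, hM'⟩ := RepAbs_exists_M (R.one_mod (T.τ v))
  have h1 : (R.ρ (T.τ v) - 1).mulVec (pi ^ m • l g) = 0 := by
    rw [hm g hg, RepAbs_act, Matrix.mulVec_mulVec, mul_sub, RepAbs_N_mul hdet ht g hg, mul_one,
      sub_self, Matrix.zero_mulVec]
  have h2 : M.mulVec (l g) = 0 := by
    refine Act_cancel (m := m + 1) ?_
    rw [hM, Matrix.mulVec_smul, Matrix.smul_mulVec, smul_smul, ← pow_succ] at h1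
    rw [h1, smul_zero]
  funext a
  have h3 := congrArg res (congrFun h2 a)
  simp only [Matrix.mulVec, dotProduct, map_sum, map_mul, Pi.zero_apply, map_zero] at h3 ⊢
  rw [← h3]
  exact Finset.sum_congr rfl fun b _ => by rw [← hM']; rfl

theorem ltyp_full {v : P} (hd : (R.M (T.τ v)).det ≠ 0) {l : W → V} (hl : R.LTyp 0 v l) :
    ∃ t : Vb, ∀ g ∈ T.D v, digV 0 (l g) = (R.M g).mulVec t := by
  obtain ⟨m, t, hm⟩ := hl
  rcases m with _ | k
  · refine ⟨0, fun g hg => ?_⟩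
    have h := hm g hg
    rw [pow_zero, one_smul] at h
    rw [Matrix.mulVec_zero, digV_eq_zero_iff (VD.triv _), h]
    exact act_sub_VD (VD.triv _) g
  · obtain ⟨M, hM, hM'⟩ := RepAbs_exists_M (R.one_mod (T.τ v))
    have hu : IsUnit M.det := by
      refine isUnit_of_res_ne_zero ?_
      rw [RingHom.map_det]
      convert hd using 2
      ext a b
      exact (hM' a b).symm
    have h1 : M.mulVec t = pi ^ k • l (T.τ v) := by
      refine Act_cancel (m := 1) ?_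
      have h := hm _ (T.τ_mem v)
      rw [RepAbs_act, hM, Matrix.smul_mulVec] at h
      rw [pow_one, ← h, smul_smul, ← pow_succ']
    have h2 : t = pi ^ k • M⁻¹.mulVec (l (T.τ v)) := by
      rw [← Matrix.mulVec_smul, ← h1, Matrix.mulVec_mulVec, Matrix.nonsing_inv_mul _ hu,
        Matrix.one_mulVec]
    refine ⟨digV 0 (M⁻¹.mulVec (l (T.τ v))), fun g hg => ?_⟩
    generalize M⁻¹.mulVec (l (T.τ v)) = t' at h2
    have h3 : pi ^ 1 • l g = R.act 0 g t' - t' := by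
      refine Act_cancel (m := k) ?_
      rw [smul_smul, ← pow_add, hm g hg, h2, act_smul, smul_sub]
    rw [← digV_pow_smul 1, h3, digV_act_sub]
    simp [wt]

theorem RepAbs_dich (hdet : ∀ g, (R.ρ g).det = T.cq g) (hd : ∀ g a, pi ^ 2 ∣ (R.ρ g - 1) a a)
    (v : P) (h : R.M (T.τ v) 0 1 * R.M (T.τ v) 1 0 ≠ 1) :
    (R.ρ (T.τ v)).trace = 2 ∧ R.M (T.τ v) 0 1 * R.M (T.τ v) 1 0 = 0 := by
  refine trace_eq_two (T.Q_mod v) (T.one_lt_Q v) ?_ (R.one_mod _) (hd _) ?_ h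
  · rw [hdet, T.cq_of_deg_zero (T.deg_τ v)]
  · have h1 : R.ρ (T.τ v) ^ T.Q v = R.ρ (T.σ v) * R.ρ (T.τ v) * R.ρ (T.σ v)⁻¹ := by
      rw [RepAbs_rel, mul_assoc, ← R.ρ_mul, mul_inv_cancel, R.ρ_one, mul_one]
    rw [h1, Matrix.trace_mul_comm, ← mul_assoc, ← R.ρ_mul, inv_mul_cancel, R.ρ_one, one_mul]

omit R in
theorem RepAbs_kill {x : W → F3} (hx : T.IsHom x) (h : ∀ v, v ≠ T.inf → x (T.τ v) = 0) {v : P}
    (hv : (T.dg v : F3) ≠ 0) (hσ : x (T.σ v) = 0) (g : W) : x g = 0 := by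
  have e := fun g => Tame.hom_expand hx (A := ∅) (fun v _ hv => h v hv) g
  have e1 := e (T.σ v)
  rw [hσ, T.deg_σ, Int.cast_natCast] at e1
  rw [e g]
  simp [hv] at e1
  simp [e1]

omit R in
theorem RepAbs_sum {x : W → F3} (hx : T.IsHom x) {v0 v1 : P} (h0 : v0 ≠ T.inf) (h1 : v1 ≠ T.inf)
    (h01 : v0 ≠ v1) (h : ∀ v, ¬ (v = T.inf ∨ v = v0 ∨ v = v1) → x (T.τ v) = 0) :
    x (T.τ T.inf) + (T.dg v0 : F3) * x (T.τ v0) + (T.dg v1 : F3) * x (T.τ v1) = 0 := by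
  have := Tame.sum_deg_tau hx (A := {T.inf, v0, v1}) (fun v hv => h v (by simpa using hv))
  rw [Finset.sum_insert (by simp [h0.symm, h1.symm]), Finset.sum_pair h01, T.dg_inf] at this
  simpa [add_assoc] using this

theorem base_triv (hdet : ∀ g, (R.ρ g).det = T.cq g) (hd : ∀ g a, pi ^ 2 ∣ (R.ρ g - 1) a a)
    {v0 v1 : P} (hS : ∀ v ∈ R.S, v = T.inf ∨ v = v0 ∨ v = v1) (h0 : v0 ≠ T.inf) (h1 : v1 ≠ T.inf)
    (h01 : v0 ≠ v1) (d0 : (T.dg v0 : F3) ≠ 0) (d1 : (T.dg v1 : F3) ≠ 0)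
    (hb0 : R.M (T.τ v0) 0 1 = 0) (hc0 : R.M (T.τ v0) 1 0 ≠ 0) (hb1 : R.M (T.τ v1) 0 1 ≠ 0) : R.Triv 0 1 := by
  intro ψ hψ
  have hw : T.IsHom fun g => digV 0 (ψ g) := Coc.hom_dig hψ.1 fun g => VD.triv _
  have hloc : ∀ v, ∃ l, R.LTyp 0 v l ∧ ∀ g ∈ T.D v, digV 0 (ψ g) = digV 0 (l g) := by
    intro v
    obtain ⟨l, hl, hl'⟩ := hψ.2 v
    exact ⟨l, hl, fun g hg => digV_congr (hl' g hg)⟩
  have hnS : ∀ v, ¬ (v = T.inf ∨ v = v0 ∨ v = v1) → v ∉ R.S := fun v hv h => hv (hS v h)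
  have hdiag : ∀ g a, R.M g a a = 0 := fun g a => dig_of_dvd (hd g a)
  have hb := RepAbs_sum (M_hom (R := R) 0 1) h0 h1 h01 fun v hv => by
    simp [M_unr (hnS v hv)]
  have hc := RepAbs_sum (M_hom (R := R) 1 0) h0 h1 h01 fun v hv => by
    simp [M_unr (hnS v hv)]
  -- the difference with a trivial class
  have hdif : ∀ t : Vb, ∀ i, T.IsHom fun g => (digV 0 (ψ g) - R.wt 0 t g) i := fun t i =>
    Tame.hom_apply (Tame.hom_sub hw (wt_hom Tame.hom_zero t)) i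
  have hunr : ∀ t : Vb, ∀ v, ¬ (v = T.inf ∨ v = v0 ∨ v = v1) →
      digV 0 (ψ (T.τ v)) - R.wt 0 t (T.τ v) = 0 := by
    intro t v hv
    obtain ⟨l, hl, hl'⟩ := hloc v
    rw [hl' _ (T.τ_mem v), hl.unr (hnS v hv) rfl]
    funext i
    simp [wt, M_unr (hnS v hv), digV]
  have hsum := fun (t : Vb) i => RepAbs_sum (hdif t i) h0 h1 h01 fun v hv =>
    congrFun (hunr t v hv) i
  have hfull : ∀ v, R.M (T.τ v) 0 1 * R.M (T.τ v) 1 0 ≠ 0 →
      ∃ t : Vb, ∀ g ∈ T.D v, digV 0 (ψ g) - R.wt 0 t g = 0 := by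
    intro v hv
    obtain ⟨l, hl, hl'⟩ := hloc v
    obtain ⟨t, ht⟩ := ltyp_full (by rw [Matrix.det_fin_two, hdiag]; simpa using hv) hl
    exact ⟨t, fun g hg => by rw [hl' g hg, ht g hg]; simp [wt]⟩
  have hunip : ∀ v, R.M (T.τ v) 0 1 * R.M (T.τ v) 1 0 = 0 → ∀ t : Vb, ∀ g ∈ T.D v,
      R.M (T.τ v) 0 1 * (digV 0 (ψ g) - R.wt 0 t g) 1 = 0 ∧
        R.M (T.τ v) 1 0 * (digV 0 (ψ g) - R.wt 0 t g) 0 = 0 := by
    intro v hv t g hg
    have htr := (RepAbs_dich hdet hd v (by rw [hv]; exact zero_ne_one)).1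
    obtain ⟨l, hl, hl'⟩ := hloc v
    obtain ⟨φ, hφ, hφ'⟩ := Act_exists_div (R := R) (x := 0) t
    have e1 := ltyp_unip hdet htr hl g hg
    have e2 := ltyp_unip hdet htr (l := φ) ⟨1, _, fun g _ => hφ g⟩ g hg
    rw [← hl' g hg] at e1
    rw [hφ'] at e2
    have e3 : (R.M (T.τ v)).mulVec (digV 0 (ψ g) - R.wt 0 t g) = 0 := by
      rw [Matrix.mulVec_sub, e1, e2, sub_self]
    generalize digV 0 (ψ g) - R.wt 0 t g = y at e3
    have e4 := congrFun e3 0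
    have e5 := congrFun e3 1
    simp [Matrix.mulVec, dotProduct, Fin.sum_univ_two, hdiag] at e4 e5
    exact ⟨mul_eq_zero.2 e4, mul_eq_zero.2 e5⟩
  have hfin : ∀ (t : Vb) (i : Fin 2), (digV 0 (ψ (T.τ v0)) - R.wt 0 t (T.τ v0)) i = 0 →
      (digV 0 (ψ (T.τ v1)) - R.wt 0 t (T.τ v1)) i = 0 → ∀ v, (T.dg v : F3) ≠ 0 →
      (digV 0 (ψ (T.σ v)) - R.wt 0 t (T.σ v)) i = 0 →
      ∀ g, (digV 0 (ψ g) - R.wt 0 t g) i = 0 := by
    intro t i a0 a1 v hv a2 g
    refine RepAbs_kill (hdif t i) (fun w hw => ?_) hv a2 g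
    by_cases e0 : w = v0
    · rw [e0]; exact a0
    by_cases e1 : w = v1
    · rw [e1]; exact a1
    exact congrFun (hunr t w (by simp [hw, e0, e1])) i
  have u0 := hunip v0 (by rw [hb0, zero_mul])
  have di : (T.dg T.inf : F3) ≠ 0 := by
    rw [T.dg_inf, Nat.cast_one]
    exact one_ne_zero
  have dd : (T.dg v1 : F3) ^ 2 = 1 := (by decide : ∀ a : F3, a ≠ 0 → a ^ 2 = 1) _ d1
  by_cases hc1 : R.M (T.τ v1) 1 0 = 0
  · obtain ⟨t, ht⟩ := hfull T.inf (by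
      rw [hb0] at hb
      rw [hc1] at hc
      have e1 : R.M (T.τ T.inf) 0 1 = -((T.dg v1 : F3) * R.M (T.τ v1) 0 1) := by
        linear_combination hb
      have e2 : R.M (T.τ T.inf) 1 0 = -((T.dg v0 : F3) * R.M (T.τ v0) 1 0) := by
        linear_combination hc
      rw [e1, e2]
      exact mul_ne_zero (neg_ne_zero.2 (mul_ne_zero d1 hb1)) (neg_ne_zero.2 (mul_ne_zero d0 hc0)))
    have u1 := hunip v1 (by rw [hc1, mul_zero])
    have a0 := (mul_eq_zero.1 (u0 t _ (T.τ_mem v0)).2).resolve_left hc0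
    have a1 := (mul_eq_zero.1 (u1 t _ (T.τ_mem v1)).1).resolve_left hb1
    have s0 := hsum t 0
    have s1 := hsum t 1
    rw [ht _ (T.τ_mem _), a0] at s0
    rw [ht _ (T.τ_mem _), a1] at s1
    refine ⟨t, fun g => sub_eq_zero.1 (funext fun i => ?_)⟩
    fin_cases i
    · exact hfin t 0 a0 (by simpa [d1] using s0) _ di (congrFun (ht _ (T.σ_mem _)) 0) g
    · exact hfin t 1 (by simpa [d0] using s1) a1 _ di (congrFun (ht _ (T.σ_mem _)) 1) g
  · obtain ⟨t, ht⟩ := hfull v1 (mul_ne_zero hb1 hc1)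
    have e1 : R.M (T.τ v1) 0 1 * R.M (T.τ v1) 1 0 = 1 := by
      by_contra h
      exact mul_ne_zero hb1 hc1 (RepAbs_dich hdet hd v1 h).2
    have e2 : R.M (T.τ T.inf) 0 1 = -((T.dg v1 : F3) * R.M (T.τ v1) 0 1) := by
      rw [hb0] at hb
      linear_combination hb
    have e3 : R.M (T.τ T.inf) 0 1 * R.M (T.τ T.inf) 1 0 = 0 := by
      refine (RepAbs_dich hdet hd _ ?_).2
      have e4 : R.M (T.τ T.inf) 1 0 =
          -((T.dg v0 : F3) * R.M (T.τ v0) 1 0) - (T.dg v1 : F3) * R.M (T.τ v1) 1 0 := by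
        linear_combination hc
      rw [e2, e4]
      intro h
      exact mul_ne_zero (mul_ne_zero d1 hb1) (mul_ne_zero d0 hc0)
        (by linear_combination h - (T.dg v1 : F3) ^ 2 * e1 - dd)
    have ui := fun g hg => (mul_eq_zero.1 (hunip _ e3 t g hg).1).resolve_left
      (by rw [e2]; exact neg_ne_zero.2 (mul_ne_zero d1 hb1))
    have a0 := (mul_eq_zero.1 (u0 t _ (T.τ_mem v0)).2).resolve_left hc0
    have s1 := hsum t 1
    rw [ht _ (T.τ_mem _), ui _ (T.τ_mem _)] at s1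
    refine ⟨t, fun g => sub_eq_zero.1 (funext fun i => ?_)⟩
    fin_cases i
    · exact hfin t 0 a0 (congrFun (ht _ (T.τ_mem _)) 0) _ d1 (congrFun (ht _ (T.σ_mem _)) 0) g
    · exact hfin t 1 (by simpa [d0] using s1) (congrFun (ht _ (T.τ_mem _)) 1) _ d1
        (congrFun (ht _ (T.σ_mem _)) 1) g

end Rep

end Pool.Agent.Smith
end

-- merged part: Pool.Agent.Work.MP_60d5ce_nt.Sm.EllRep
section
/-!
# The representation attached to the curve

Hints.  `C` is the curve over `Ω`, `δ ^ 3 = a1 ^ 3 - 27 a3`, `z` the image of `ζ`; `B` from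
`exists_tateB` with `t1`, `t2`; `m g = B.mat (act (gal g))`.
* `g t1 = t1` gives `m 0 0 ≡ 1`, `m 1 0 ≡ 0` modulo three.  `g ^ 3` fixes `δ`, so `t2`, so
  `m ^ 3 ≡ 1` and `m 1 1 ≡ 1`.  `ρ g` from `exists_isLat`.
* `adm`: `adm_core` for `{g | deg g = 0, g fixes E[3 ^ j]}` (`torsion_finite`, `act_fix`,
  `pow_three_congr`, `mat_dvd_iff`).  `unr`: `Loc.tau_fix`, `mat_one`.
* `b_iff`: `3 ∣ m 0 1` iff `τ t2 = t2` iff `τ δ = δ` (`t2_x_ne`) iff `kum δ τ = 0`; `Loc.kum_tau`,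
  `Loc.w_base`.
* `det (m (τ v)) = 1` by `char_tau`.  At a place `v` with `¬ 3 ∣ mult a3 v`: `a1` and `D` are units,
  `mult_point` (for `Ω` with `l.w`, `Loc.σ_res`, `Loc.τ_res`) gives the vectors for `unip_of_fix` and
  `det_of_mult`.  If `9 ∣ m 1 0` then `N = m τ - 1` has `N 0 0 ^ 2 = - N 0 1 * N 1 0` divisible by 27,
  so `τ` fixes `P = pt 2 ![1, 0]`, `3 (-P) = -t1`, and `cube_of_third` for the subfield fixed by `τ`
  contradicts `Loc.kum_tau`.  This is `c_ne`; then `det_of_mult`, `char_eq_cq`, `IsLat.herm`.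
* `ram01`, `ram10`: `exists_mult`.
* `triv_one_X`: `base_triv` with the places `X` and `X - C 27⁻¹`.
-/

namespace Pool.Agent.Smith

open scoped Classical
open Polynomial Pool.Agent.ShaAsc

variable {k : Type} [Field k] [Fintype k] {Ω : Type} [Field Ω] [Algebra (RatFunc k) Ω]
  [Algebra k Ω] [IsScalarTower k (RatFunc k) Ω] [IsSepClosure (RatFunc k) Ω] [DecidableEq Ω] {ζ : k}

section EllRepAux

open WeierstrassCurve WeierstrassCurve.Affine

theorem EllRep_cube {m : Matrix (Fin 2) (Fin 2) ℤ_[3]} (h10 : (3 : ℤ_[3]) ∣ m 1 0)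
    (h : (3 : ℤ_[3]) ∣ (m * m * m) 1 1 - 1) : (3 : ℤ_[3]) ∣ m 1 1 - 1 := by
  rw [three_dvd_iff] at h10 h ⊢
  simp only [Matrix.mul_apply, Fin.sum_univ_two, map_sub, map_add, map_mul, map_one, h10] at h ⊢
  have := ZMod.pow_card (PadicInt.toZMod (m 1 1))
  linear_combination h - this

theorem EllRep_nine {m : Matrix (Fin 2) (Fin 2) ℤ_[3]} (h : (m - 1) * (m - 1) = 0)
    (h00 : (3 : ℤ_[3]) ∣ m 0 0 - 1) (h01 : (3 : ℤ_[3]) ∣ m 0 1) (h10 : (9 : ℤ_[3]) ∣ m 1 0) :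
    (9 : ℤ_[3]) ∣ m 0 0 - 1 := by
  obtain ⟨u, hu⟩ := h00
  obtain ⟨b, hb⟩ := h01
  obtain ⟨c, hc⟩ := h10
  have h1 := congrFun (congrFun h 0) 0
  simp only [Matrix.mul_apply, Fin.sum_univ_two, Matrix.sub_apply, Matrix.one_apply_eq, hu,
    Matrix.one_apply_ne (show (0 : Fin 2) ≠ 1 by decide),
    Matrix.one_apply_ne (show (1 : Fin 2) ≠ 0 by decide), hb, hc, Matrix.zero_apply] at h1
  have h2 : u * u = 3 * -(b * c) :=
    mul_left_cancel₀ (show (9 : ℤ_[3]) ≠ 0 by norm_num) (by linear_combination h1)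
  obtain ⟨t, ht⟩ : (3 : ℤ_[3]) ∣ u := by
    rcases LatM_prime.dvd_or_dvd ⟨_, h2⟩ with h | h <;> exact h
  exact ⟨t, by rw [hu, ht]; ring⟩

theorem EllRep_det {ρ : Matrix (Fin 2) (Fin 2) O} {c : O} (h : ∀ a b, c ∣ (ρ - 1) a b) :
    c ∣ ρ.det - 1 := by
  have h00 := h 0 0
  have h01 := h 0 1
  have h11 := h 1 1
  simp only [Matrix.sub_apply, Matrix.one_apply_eq,
    Matrix.one_apply_ne (show (0 : Fin 2) ≠ 1 by decide), sub_zero] at h00 h01 h11
  rw [Matrix.det_fin_two]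
  convert ((h00.mul_right (ρ 1 1)).add h11).sub (h01.mul_right (ρ 1 0)) using 1
  ring

/-- the curve with a basis of the Tate module lifting the two chosen points of order three -/
structure EllRepD (a1 a3 : k[X]) (ζ : k) (Ω : Type) [Field Ω] [Algebra (RatFunc k) Ω]
    [Algebra k Ω] [DecidableEq Ω] where
  hT : T3 ((EC a1 a3).toAffine.baseChange Ω)
  δ : Ω
  hδ : δ ^ 3 = ((EC a1 a3).toAffine.baseChange Ω).a₁ ^ 3 -
    27 * ((EC a1 a3).toAffine.baseChange Ω).a₃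
  hz : algebraMap k Ω ζ ^ 2 + algebraMap k Ω ζ + 1 = 0
  B : TateB (Pts (EC a1 a3) Ω)
  h1 : B.pt 1 ![1, 0] = hT.t1
  h2 : B.pt 1 ![0, 1] = hT.t2 hδ hz

theorem EllRep_exists {a1 a3 : k[X]} (h : Hyp a1 a3) (hζ : IsPrimitiveRoot ζ 3) :
    Nonempty (EllRepD a1 a3 ζ Ω) := by
  have := IsSepClosure.sep_closed (RatFunc k) (K := Ω)
  have hT : T3 ((EC a1 a3).toAffine.baseChange Ω) := h.t3 (three_ne hζ)
  have hδ := cbrt_spec (k := k) (three_ne hζ) (((EC a1 a3).toAffine.baseChange Ω).a₁ ^ 3 -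
    27 * ((EC a1 a3).toAffine.baseChange Ω).a₃)
  have hp := GalKum_prim (Ω := Ω) hζ
  have hz : algebraMap k Ω ζ ^ 2 + algebraMap k Ω ζ + 1 = 0 :=
    mul_left_cancel₀ (sub_ne_zero.2 (hp.ne_one (by norm_num)))
      (by linear_combination hp.pow_eq_one)
  obtain ⟨B, h1, h2⟩ := exists_tateB hT.t1 (hT.t2 hδ hz) hT.exists_third hT.t1_three
    (hT.t2_three hδ hz) (hT.indep hδ hz) fun _ hP => hT.span hδ hz hP
  exact ⟨⟨hT, _, hδ, hz, B, h1, h2⟩⟩

omit [Fintype k] [Algebra k Ω] [IsScalarTower k (RatFunc k) Ω] [IsSepClosure (RatFunc k) Ω] in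
theorem EllRep_fix {a1 a3 : k[X]} (s : Ω ≃ₐ[RatFunc k] Ω) {x y : Ω}
    (hn : ((EC a1 a3).toAffine.baseChange Ω).Nonsingular x y) :
    act (EC a1 a3) s (Point.some x y hn) = Point.some x y hn ↔ s x = x ∧ s y = y := by
  obtain ⟨h', e⟩ := compat_act (a1 := a1) (a3 := a3) s x y hn
  rw [e, Point.some.injEq]
  rfl

namespace EllRepD

variable {a1 a3 : k[X]} (X : EllRepD a1 a3 ζ Ω)

/-- the matrix of an automorphism -/
noncomputable def m : Gam k Ω →* Matrix (Fin 2) (Fin 2) ℤ_[3] where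
  toFun s := X.B.mat (act (EC a1 a3) s)
  map_one' := X.B.mat_one fun _ P _ => act_one P
  map_mul' s t := X.B.mat_mul (act_mul s t)

omit [Fintype k] [IsSepClosure (RatFunc k) Ω] [IsScalarTower k (RatFunc k) Ω] in
theorem m_def (s : Gam k Ω) : X.m s = X.B.mat (act (EC a1 a3) s) := rfl

omit [Fintype k] [IsSepClosure (RatFunc k) Ω] [IsScalarTower k (RatFunc k) Ω] in
theorem fix_iff (s : Gam k Ω) (j : ℕ) (a : Z2) :
    act (EC a1 a3) s (X.B.pt j a) = X.B.pt j a ↔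
      ∀ i, (3 : ℤ_[3]) ^ j ∣ ((X.m s).mulVec a - a) i := by
  rw [X.B.mat_spec, X.B.pt_eq_iff]
  rfl

omit [Fintype k] [IsSepClosure (RatFunc k) Ω] [IsScalarTower k (RatFunc k) Ω] in
theorem col0 (s : Gam k Ω) : (3 : ℤ_[3]) ∣ X.m s 0 0 - 1 ∧ (3 : ℤ_[3]) ∣ X.m s 1 0 := by
  have h := (X.fix_iff s 1 ![1, 0]).1 (by
    rw [X.h1]
    exact (EllRep_fix s _).2 ⟨map_zero s, map_zero s⟩)
  have h0 := h 0
  have h1 := h 1
  simp at h0 h1
  exact ⟨h0, h1⟩

omit [Fintype k] [IsSepClosure (RatFunc k) Ω] [IsScalarTower k (RatFunc k) Ω] in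
theorem δ_cube : X.δ ^ 3 =
    algebraMap (RatFunc k) Ω (algebraMap k[X] (RatFunc k) (a1 ^ 3 - 27 * a3)) := by
  rw [X.hδ, EC_a1, EC_a3]
  simp only [map_sub, map_mul, map_pow, map_ofNat]

omit [Fintype k] [IsSepClosure (RatFunc k) Ω] [IsScalarTower k (RatFunc k) Ω] in
theorem δ_ne : X.δ ≠ 0 := fun h => X.hT.disc (by rw [← X.hδ, h]; simp)

omit [Fintype k] [IsSepClosure (RatFunc k) Ω] [IsScalarTower k (RatFunc k) Ω] in
theorem δ_fix (s : Gam k Ω) : s (X.δ ^ 3) = X.δ ^ 3 := by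
  rw [X.δ_cube, AlgEquiv.commutes]

omit [IsSepClosure (RatFunc k) Ω] in
theorem col1 (hζ : IsPrimitiveRoot ζ 3) (s : Gam k Ω) :
    s X.δ = X.δ ↔ (3 : ℤ_[3]) ∣ X.m s 0 1 ∧ (3 : ℤ_[3]) ∣ X.m s 1 1 - 1 := by
  have h := X.fix_iff s 1 ![0, 1]
  rw [X.h2, T3.t2, EllRep_fix, Fin.forall_fin_two] at h
  simp only [Matrix.mulVec, dotProduct, Fin.sum_univ_two, Pi.sub_apply, Matrix.cons_val_zero,
    Matrix.cons_val_one, mul_zero, mul_one, zero_add, sub_zero, pow_one] at h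
  rw [← h]
  have ha : s ((EC a1 a3).toAffine.baseChange Ω).a₁ = ((EC a1 a3).toAffine.baseChange Ω).a₁ := by
    rw [EC_a1, AlgEquiv.commutes]
  have hz := GalKum_fix s ζ
  have hx := X.hT.t2_x_ne X.hδ
  have hz0 : algebraMap k Ω ζ ≠ 0 := (GalKum_prim hζ).ne_zero (by norm_num)
  constructor
  · intro e
    simp only [map_div₀, map_mul, map_neg, map_add, map_sub, map_pow, map_ofNat, ha, hz, e,
      and_self]
  · rintro ⟨e1, e2⟩
    rw [map_div₀, map_mul, e1, map_sub, map_mul, ha, hz, map_ofNat,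
      div_left_inj' X.hT.three] at e2
    exact mul_left_cancel₀ hz0 (sub_left_inj.1 (mul_left_cancel₀ hx e2))

omit [IsSepClosure (RatFunc k) Ω] in
theorem h11 (hζ : IsPrimitiveRoot ζ 3) (s : Gam k Ω) : (3 : ℤ_[3]) ∣ X.m s 1 1 - 1 := by
  refine EllRep_cube (X.col0 s).2 ?_
  rw [← map_mul, ← map_mul]
  refine ((X.col1 hζ _).1 ((kum_eq_zero_iff hζ X.δ_ne (X.δ_fix _)).1 ?_)).2
  rw [kum_mul hζ X.δ_ne (X.δ_fix _) (X.δ_fix _), kum_mul hζ X.δ_ne (X.δ_fix _) (X.δ_fix _)]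
  generalize kum ζ X.δ s = c
  revert c
  decide

/-- the representation on the lattice over `O` -/
noncomputable def ρ (g : WG k Ω) : Matrix (Fin 2) (Fin 2) O :=
  (exists_isLat (X.col0 (gal g)).2).choose

omit [IsSepClosure (RatFunc k) Ω] [IsScalarTower k (RatFunc k) Ω] in
theorem lat (g : WG k Ω) : IsLat (X.m (gal g)) (X.ρ g) :=
  (exists_isLat (X.col0 (gal g)).2).choose_spec

omit [IsSepClosure (RatFunc k) Ω] in
theorem ρ_eq_one {g : WG k Ω} (h : X.m (gal g) = 1) : X.ρ g = 1 :=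
  (h ▸ X.lat g).unique isLat_one

omit [IsSepClosure (RatFunc k) Ω] in
theorem ρ_mul (g h : WG k Ω) : X.ρ (g * h) = X.ρ g * X.ρ h := by
  have h1 := X.lat (g * h)
  rw [map_mul, map_mul] at h1
  exact h1.unique ((X.lat g).mul (X.lat h))

include X in
theorem adm (hζ : IsPrimitiveRoot ζ 3) (j : ℕ) : ∃ U : Subgroup (WG k Ω), Adm U ∧
    ∀ u ∈ U, ∀ y : Pts (EC a1 a3) Ω, 3 ^ j • y = 0 → act (EC a1 a3) (gal u) y = y := by
  let H : Subgroup (WG k Ω) :=
    { carrier := {g | wdeg g = 0 ∧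
        ∀ y : Pts (EC a1 a3) Ω, 3 ^ j • y = 0 → act (EC a1 a3) (gal g) y = y}
      mul_mem' := fun {a b} ha hb => ⟨by rw [wdeg_mul, ha.1, hb.1, add_zero], fun y hy => by
        rw [map_mul, act_mul, hb.2 y hy, ha.2 y hy]⟩
      one_mem' := ⟨wdeg_one, fun y _ => by rw [map_one, act_one]⟩
      inv_mem' := fun {a} ha => ⟨by rw [wdeg_inv, ha.1, neg_zero], fun y hy => by
        conv_lhs => rw [← ha.2 y hy]
        rw [← act_mul, ← map_mul, inv_mul_cancel, map_one, act_one]⟩ }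
  choose S hS using fun y : Pts (EC a1 a3) Ω => act_fix (K := RatFunc k) y
  refine ⟨H.normalCore, adm_core H (fun g hg => hg.1) ((X.B.torsion_finite j).toFinset.biUnion S)
    (fun g hg hf => ⟨hg, fun y hy => hS y _ fun a ha => hf a (Finset.mem_biUnion.2
      ⟨y, (Set.Finite.mem_toFinset _).2 hy, ha⟩)⟩)
    (fun g hg => ⟨j, by rw [wdeg_pow, hg, mul_zero], ?_⟩),
    fun u hu => (H.normalCore_le hu).2⟩
  rw [← X.B.mat_dvd_iff, ← m_def, map_pow, map_pow]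
  exact pow_three_congr (X.col0 _).1 (X.col0 _).2 (X.h11 hζ _) j

theorem sm (hζ : IsPrimitiveRoot ζ 3) (j : ℕ) : ∃ U : Subgroup (WG k Ω), Adm U ∧
    ∀ u ∈ U, ∀ a b, pi ^ j ∣ (X.ρ u - 1) a b := by
  obtain ⟨U, h1, h2⟩ := X.adm hζ (j + 1)
  exact ⟨U, h1, fun u hu a b => (pow_dvd_pow _ (by omega)).trans
    ((X.lat u).dvd ((X.B.mat_dvd_iff _ _).2 (h2 u hu)) a b)⟩

omit [IsSepClosure (RatFunc k) Ω] in
theorem one_mod (hζ : IsPrimitiveRoot ζ 3) (g : WG k Ω) :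
    (∀ a b, pi ∣ (X.ρ g - 1) a b) ∧ ∀ a, pi ^ 2 ∣ (X.ρ g - 1) a a :=
  (X.lat g).one_mod (X.col0 _).1 (X.col0 _).2 (X.h11 hζ _)

omit [IsSepClosure (RatFunc k) Ω] in
theorem det_mod (hζ : IsPrimitiveRoot ζ 3) (g : WG k Ω) : pi ^ 2 ∣ (X.ρ g).det - 1 := by
  have h : (3 : ℤ_[3]) ^ 1 ∣ (X.m (gal g)).det - 1 := by
    rw [pow_one, Matrix.det_fin_two]
    convert (((X.col0 (gal g)).1.mul_right (X.m (gal g) 1 1)).add (X.h11 hζ (gal g))).sub
      ((X.col0 (gal g)).2.mul_left (X.m (gal g) 0 1)) using 1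
    ring
  have h1 := dvd_algebraMap h
  rwa [map_sub, map_one, ← (X.lat g).det] at h1

theorem det_sm (hζ : IsPrimitiveRoot ζ 3) (ℓ : Locs Ω ζ) (j : ℕ) :
    ∃ U, (tame hζ ℓ).Adm U ∧ ∀ u ∈ U, pi ^ j ∣ (X.ρ u).det - 1 := by
  obtain ⟨U, h1, h2⟩ := X.sm hζ j
  exact ⟨U, h1, fun u hu => EllRep_det (h2 u hu)⟩

theorem det_τ (hζ : IsPrimitiveRoot ζ 3) (ℓ : Locs Ω ζ) (v : Pl k) :
    (X.m (gal (ℓ v).τ)).det = 1 := by
  have h : (X.ρ (ℓ v).τ).det = 1 := char_tau (T := tame hζ ℓ) (fun g => (X.ρ g).det)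
    (fun g h => by rw [X.ρ_mul, Matrix.det_mul]) (X.det_mod hζ) (X.det_sm hζ ℓ) v
  rw [(X.lat _).det, ← map_one (algebraMap ℤ_[3] O)] at h
  exact QuadraticAlgebra.algebraMap_injective h

theorem b_iff (h : Hyp a1 a3) (hζ : IsPrimitiveRoot ζ 3) {v : Pl k} (l : Loc Ω ζ v)
    (hv : v ≠ none) : (3 : ℤ_[3]) ∣ X.m (gal l.τ) 0 1 ↔ 3 ∣ mult (a1 ^ 3 - 27 * a3) v := by
  have h1 := l.kum_tau hζ X.δ_ne (X.δ_fix _) (n := mult (a1 ^ 3 - 27 * a3) v)
    (by rw [X.δ_cube, l.w_base hv h.D_ne])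
  rw [← ZMod.natCast_eq_zero_iff, ← Int.cast_natCast, ← h1,
    kum_eq_zero_iff hζ X.δ_ne (X.δ_fix _), X.col1 hζ, and_iff_left (X.h11 hζ _)]

theorem vec (h : Hyp a1 a3) (hζ : IsPrimitiveRoot ζ 3) {v : Pl k} (l : Loc Ω ζ v)
    (hnd : ¬ pl v ∣ a1) (hv : mult a3 v ≠ 0) (j : ℕ) : ∃ a : Z2, (∃ i, ¬ (3 : ℤ_[3]) ∣ a i) ∧
      (∀ i, (3 : ℤ_[3]) ^ j ∣ ((X.m (gal l.τ)).mulVec a - a) i) ∧
      ∀ i, (3 : ℤ_[3]) ^ j ∣ ((X.m (gal l.σ)).mulVec a -
        ((Fintype.card k ^ pdg v : ℕ) : ℤ_[3]) • a) i := by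
  have := IsSepClosure.sep_closed (RatFunc k) (K := Ω)
  obtain ⟨hv0, hd⟩ := (StatA_ne_zero_iff _ _).1 hv
  have hm : mult a1 v = 0 := by
    by_contra hc
    exact hnd ((StatA_ne_zero_iff _ _).1 hc).2
  have w1 : l.w ((EC a1 a3).toAffine.baseChange Ω).a₁ = 1 := by
    rw [EC_a1, l.w_base hv0 (p := a1) (fun e => hnd (e ▸ dvd_zero _)), hm]
    simp
  have w3 : l.w ((EC a1 a3).toAffine.baseChange Ω).a₃ < 1 := by
    rw [EC_a3, l.w_base hv0 h.a3_ne]
    exact zpow_lt_one_of_neg₀ (by norm_num) (by omega)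
  obtain ⟨P, hP, hP', hs⟩ := X.hT.mult_point (l.sz_one hζ hv0) w1 w3 j
  obtain ⟨a, rfl⟩ := X.B.surj _ P hP
  have e1 := hs _ _ 1 (compat_act (gal l.τ)) l.w_τ fun a ha => by
    rw [pow_one]
    exact l.τ_res ha
  have e2 := hs _ _ _ (compat_act (gal l.σ)) l.w_σ fun a ha => l.σ_res ha
  rw [one_smul, X.fix_iff] at e1
  rw [← map_nsmul, X.B.mat_spec, X.B.pt_eq_iff] at e2
  refine ⟨a, ?_, fun i => (pow_dvd_pow _ j.le_succ).trans (e1 i), fun i => ?_⟩
  · rw [X.B.pow_smul_add, Ne, X.B.ker, pow_one] at hP'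
    exact not_forall.1 hP'
  · rw [Nat.cast_smul_eq_nsmul]
    exact (pow_dvd_pow _ j.le_succ).trans (e2 i)

theorem c_ne (h : Hyp a1 a3) (hζ : IsPrimitiveRoot ζ 3) (ℓ : Locs Ω ζ) {v : Pl k}
    (hnd : ¬ pl v ∣ a1) (hv : ¬ 3 ∣ mult a3 v) : ¬ (9 : ℤ_[3]) ∣ X.m (gal (ℓ v).τ) 1 0 := by
  intro h9
  have hv1 : mult a3 v ≠ 0 := fun e => hv (e ▸ dvd_zero _)
  obtain ⟨hv0, hd⟩ := (StatA_ne_zero_iff _ _).1 hv1
  have hD : mult (a1 ^ 3 - 27 * a3) v = 0 := by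
    by_contra hc
    have h1 : pl v ∣ a1 ^ 3 := by
      simpa using ((StatA_ne_zero_iff _ _).1 hc).2.add (hd.mul_left 27)
    obtain ⟨q, rfl⟩ := Option.ne_none_iff_exists'.1 hv0
    exact hnd (q.2.2.prime.dvd_of_dvd_pow h1)
  have h01 := (X.b_iff h hζ (ℓ v) hv0).2 (hD ▸ dvd_zero _)
  have hu := unip_of_fix (X.det_τ hζ ℓ v) fun j =>
    (X.vec h hζ (ℓ v) hnd hv1 j).imp fun a ha => ⟨ha.1, ha.2.1⟩
  have h00 := EllRep_nine hu (X.col0 _).1 h01 h9
  have hP : act (EC a1 a3) (gal (ℓ v).τ) (-X.B.pt 2 ![1, 0]) = -X.B.pt 2 ![1, 0] := by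
    rw [map_neg, neg_inj, X.fix_iff, Fin.forall_fin_two]
    norm_num [Matrix.mulVec, dotProduct]
    exact ⟨h00, h9⟩
  have h3 : 3 • (-X.B.pt 2 ![1, 0]) = -X.hT.t1 := by
    rw [smul_neg, X.B.three 1, X.h1]
  generalize -X.B.pt 2 ![1, 0] = P at hP h3
  rcases P with _ | ⟨x, y, hn⟩
  · have h4 : -X.hT.t1 = 0 := h3.symm.trans (smul_zero 3)
    exact Point.some_ne_zero _ (neg_eq_zero.1 h4)
  obtain ⟨hx, hy⟩ := (EllRep_fix _ hn).1 hP
  obtain ⟨r, hr, hr3⟩ := X.hT.cube_of_third hn h3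
    (RingHom.eqLocusField (gal (ℓ v).τ : Ω →+* Ω) (RingHom.id Ω))
    (by rw [EC_a1]; exact (gal (ℓ v).τ).commutes _) (by rw [EC_a3]; exact (gal (ℓ v).τ).commutes _)
    hx hy
  have hr' : gal (ℓ v).τ r = r := hr
  have hr0 : r ≠ 0 := fun e => X.hT.a3 (by rw [← hr3, e]; simp)
  have hf : gal (ℓ v).τ (r ^ 3) = r ^ 3 := by rw [map_pow, hr']
  have h5 := (ℓ v).kum_tau hζ hr0 hf (n := mult a3 v)
    (by rw [hr3, EC_a3, (ℓ v).w_base hv0 h.a3_ne])
  rw [(kum_eq_zero_iff hζ hr0 hf).2 hr', Int.cast_natCast, eq_comm,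
    ZMod.natCast_eq_zero_iff] at h5
  exact hv h5

theorem m_rel (hζ : IsPrimitiveRoot ζ 3) {v : Pl k} (l : Loc Ω ζ v) :
    X.m (gal l.σ) * X.m (gal l.τ) = X.m (gal l.τ) ^ Fintype.card k ^ pdg v * X.m (gal l.σ) := by
  have h : X.m (gal ((l.σ * l.τ)⁻¹ * (l.τ ^ Fintype.card k ^ pdg v * l.σ))) = 1 :=
    X.B.mat_one fun j P hP => by
      obtain ⟨U, h1, h2⟩ := X.adm hζ j
      exact h2 _ (l.rel U h1) P hP
  rw [← map_pow, ← map_pow, ← map_mul, ← map_mul, ← map_mul, ← map_mul,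
    ← mul_one (X.m (gal (l.σ * l.τ))), ← h, ← map_mul, ← map_mul, mul_inv_cancel_left]

theorem det_eq (h : Hyp a1 a3) (hζ : IsPrimitiveRoot ζ 3) (ℓ : Locs Ω ζ) (g : WG k Ω) :
    (X.ρ g).det = (tame hζ ℓ).cq g := by
  obtain ⟨v, -, hnd, hv⟩ := h.exists_pl
  refine char_eq_cq (T := tame hζ ℓ) (fun g => (X.ρ g).det)
    (fun g h => by rw [X.ρ_mul, Matrix.det_mul]) (X.det_mod hζ) (X.det_sm hζ ℓ) (v0 := v) ?_ g
  have h1 := det_of_mult (Tame.one_lt_Q (T := tame hζ ℓ) v) (X.det_τ hζ ℓ v)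
    (fun e => X.c_ne h hζ ℓ hnd hv (by rw [e]; simp)) (X.m_rel hζ (ℓ v))
    (X.vec h hζ (ℓ v) hnd fun e => hv (e ▸ dvd_zero _))
  change (X.ρ (ℓ v).σ).det = _
  rw [(X.lat _).det, h1, map_natCast]

/-- the representation -/
noncomputable def rep (h : Hyp a1 a3) (hζ : IsPrimitiveRoot ζ 3) (ℓ : Locs Ω ζ) :
    Rep (tame hζ ℓ) where
  ρ := X.ρ
  ρ_one := X.ρ_eq_one (by rw [map_one, map_one])
  ρ_mul := X.ρ_mul
  S := badS a1 a3
  inf_mem := Finset.mem_insert_self _ _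
  unr v hv := X.ρ_eq_one (X.B.mat_one fun _ _ hP => (ℓ v).tau_fix hζ h hv hP)
  sm := X.sm hζ
  one_mod g := (X.one_mod hζ g).1
  herm g a b := by rw [(X.lat g).herm, ← (X.lat g).det, X.det_eq h hζ ℓ]
  ram01 := by
    obtain ⟨v, h0, hv⟩ := exists_mult h.ncD
    refine ⟨v, Finset.mem_insert_of_mem ((mem_fac (mul_ne_zero h.a3_ne h.D_ne)).2 ?_), h0,
      fun e => hv ((X.b_iff h hζ (ℓ v) h0).1 ((X.lat _).dig01.1 e))⟩
    rw [mult_mul h.a3_ne h.D_ne]
    omega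
  ram10 := by
    obtain ⟨v, h0, hnd, hv⟩ := h.exists_pl
    refine ⟨v, Finset.mem_insert_of_mem ((mem_fac (mul_ne_zero h.a3_ne h.D_ne)).2 ?_), h0,
      fun e => X.c_ne h hζ ℓ hnd hv ((X.lat _).dig10.1 e)⟩
    rw [mult_mul h.a3_ne h.D_ne]
    omega

end EllRepD

end EllRepAux

theorem exists_erep {a1 a3 : k[X]} (h : Hyp a1 a3) (hζ : IsPrimitiveRoot ζ 3) (ℓ : Locs Ω ζ) :
    Nonempty (ERep a1 a3 hζ ℓ) := by
  obtain ⟨X⟩ := EllRep_exists (Ω := Ω) h hζ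
  exact ⟨{
    B := X.B
    R := X.rep h hζ ℓ
    lat := X.lat
    S_eq := rfl
    det := X.det_eq h hζ ℓ
    diag := fun g => (X.one_mod hζ g).2
    b_iff := fun v hv => (X.lat _).dig01.trans (X.b_iff h hζ (ℓ v) hv)
    c_ne := fun v hnd hv e => X.c_ne h hζ ℓ hnd hv ((X.lat _).dig10.1 e)
    adm := X.adm hζ }⟩

/-- exactly two finite bad places, both multiplicative, of degrees prime to three -/
structure Two (a1 a3 P Q : k[X]) (α β : ℕ) : Prop where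
  hP : Irreducible P
  hQ : Irreducible Q
  ne : ¬ Associated P Q
  h3 : Associated a3 (P ^ α)
  hD : Associated (a1 ^ 3 - 27 * a3) (Q ^ β)
  nd : ¬ 3 ∣ α * β * P.natDegree * Q.natDegree

section two

variable {a1 a3 P Q : k[X]} {α β : ℕ}

theorem EllRep_mult {p P : k[X]} {α : ℕ} (hP : Irreducible P) (h : Associated p (P ^ α)) {v0 : Pl k}
    (h0 : v0 ≠ none) (e : Associated P (pl v0)) (v : Pl k) :
    mult p v = if v = v0 then α else 0 := by
  have h1 : ∀ n : ℕ, mult (pl v0 ^ n) v = if v = v0 then n else 0 := fun n => by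
    induction n with
    | zero => rw [pow_zero, StatA_mult_unit isUnit_one, ite_self]
    | succ n ih =>
      rw [pow_succ, mult_mul (pow_ne_zero _ (monic_pl v0).ne_zero) (monic_pl v0).ne_zero, ih,
        mult_pl h0]
      split_ifs <;> rfl
  obtain ⟨u, hu⟩ := (h.trans e.pow_pow).symm
  rw [← hu, mult_mul (pow_ne_zero _ (monic_pl v0).ne_zero) u.ne_zero, StatA_mult_unit u.isUnit,
    add_zero, h1]

omit [Fintype k] in
theorem Two.nd1 (h : Two a1 a3 P Q α β) : ¬ P ∣ a1 := by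
  intro h1
  have hα : α ≠ 0 := fun e => h.nd (by simp [e])
  have h2 : P ∣ a1 ^ 3 - 27 * a3 :=
    (h1.pow (by norm_num)).sub (((dvd_pow_self P hα).trans h.h3.symm.dvd).mul_left _)
  exact h.ne (h.hP.associated_of_dvd h.hQ (h.hP.prime.dvd_of_dvd_pow (h2.trans h.hD.dvd)))

theorem Two.hyp (h : Two a1 a3 P Q α β) : Hyp a1 a3 := by
  have h0 : a3 ≠ 0 := h.h3.ne_zero_iff.2 (pow_ne_zero _ h.hP.ne_zero)
  have hD : a1 ^ 3 - 27 * a3 ≠ 0 := h.hD.ne_zero_iff.2 (pow_ne_zero _ h.hQ.ne_zero)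
  refine ⟨h0, ⟨P, h.hP, h.nd1, fun e => h.nd ?_⟩, fun c p e => h.nd ?_⟩
  · rw [multiplicity_eq_of_associated_right h.h3,
      multiplicity_pow_self h.hP.ne_zero h.hP.not_isUnit] at e
    exact ((e.mul_right _).mul_right _).mul_right _
  · have e1 := natDegree_eq_of_degree_eq (degree_eq_degree_of_associated h.hD)
    rw [e] at hD e1
    rw [natDegree_mul (left_ne_zero_of_mul hD) (right_ne_zero_of_mul hD), natDegree_C,
      natDegree_pow, natDegree_pow, zero_add] at e1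
    exact ⟨α * P.natDegree * p.natDegree, by
      rw [show α * β * P.natDegree * Q.natDegree = α * P.natDegree * (β * Q.natDegree) by ring, ← e1]
      ring⟩

theorem Two.triv (h : Two a1 a3 P Q α β) {hζ : IsPrimitiveRoot ζ 3} {ℓ : Locs Ω ζ}
    (X0 : ERep a1 a3 hζ ℓ) : X0.R.Triv 0 1 := by
  obtain ⟨v0, h0, e0⟩ := exists_pl h.hP
  obtain ⟨v1, h1, e1⟩ := exists_pl h.hQ
  have h01 : v0 ≠ v1 := fun e => h.ne (e0.trans (e ▸ e1.symm))
  have m0 := EllRep_mult h.hP h.h3 h0 e0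
  have m1 := EllRep_mult h.hQ h.hD h1 e1
  have hy := h.hyp
  have hdg : ∀ {p : k[X]} {v : Pl k}, v ≠ none → Associated p (pl v) → ¬ 3 ∣ p.natDegree →
      (pdg v : F3) ≠ 0 := fun hv e hn => by
    rw [← natDegree_pl hv, ← natDegree_eq_of_degree_eq (degree_eq_degree_of_associated e), Ne,
      ZMod.natCast_eq_zero_iff]
    exact hn
  refine Rep.base_triv X0.det X0.diag (v0 := v0) (v1 := v1) (fun v hv => ?_) h0 h1 h01
    (hdg h0 e0 fun e => h.nd ((e.mul_left _).mul_right _)) (hdg h1 e1 fun e => h.nd (e.mul_left _))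
    ((X0.b_iff v0 h0).2 ?_) (X0.c_ne v0 (fun e => h.nd1 (e0.dvd.trans e)) ?_) fun e => ?_
  · rw [X0.S_eq, badS, Finset.mem_insert, mem_fac (mul_ne_zero hy.a3_ne hy.D_ne),
      mult_mul hy.a3_ne hy.D_ne, m0, m1] at hv
    refine hv.imp id fun hv => ?_
    by_contra hc
    rw [not_or] at hc
    simp [hc.1, hc.2] at hv
  · rw [m1, if_neg h01]
    exact dvd_zero _
  · rw [m0, if_pos rfl]
    exact fun e => h.nd (((e.mul_right _).mul_right _).mul_right _)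
  · have := (X0.b_iff v1 h1).1 e
    rw [m1, if_pos rfl] at this
    exact h.nd (((this.mul_left _).mul_right _).mul_right _)

end two

end Pool.Agent.Smith
end

-- merged part: Pool.Agent.Work.MP_60d5ce_nt.Sm.MainA
section
/-!
# Assembly: density one statements
-/

namespace Pool.Agent.Smith

open scoped Classical IntermediateField Topology
open Polynomial Filter Pool.Agent.ShaAsc

variable {k : Type} [Field k] [Fintype k]

theorem tendsto_of_density (Good : k[X] → Prop)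
    (h : ∀ ε : ℝ, 0 < ε → ∀ᶠ n in atTop,
      ({d | d ∈ Pn k n ∧ ¬ Good d}.ncard : ℝ) ≤ ε * (Pn k n).ncard) :
    Tendsto (fun n : ℕ => ({d : k[X] | d ≠ 0 ∧ d.natDegree = n ∧ Good d}.ncard : ℝ) /
      ({d : k[X] | d ≠ 0 ∧ d.natDegree = n}.ncard : ℝ)) atTop (𝓝 1) := by
  rw [Metric.tendsto_nhds]
  intro ε hε
  filter_upwards [h (ε / 2) (by positivity)] with n hn
  have hq : 1 < Fintype.card k := Fintype.one_lt_card
  have hpos : (0 : ℝ) < (Pn k n).ncard := by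
    rw [Pn_ncard]
    exact_mod_cast Nat.mul_pos (by omega) (pow_pos (by omega) n)
  have hsum : {d : k[X] | d ≠ 0 ∧ d.natDegree = n ∧ Good d}.ncard +
      {d | d ∈ Pn k n ∧ ¬ Good d}.ncard = (Pn k n).ncard := by
    rw [← Set.ncard_union_eq _ ((Pn_finite n).subset fun d hd => ⟨hd.1, hd.2.1⟩)
      ((Pn_finite n).subset fun d hd => hd.1)]
    · congr 1
      ext d
      simp only [Pn, Set.mem_union, Set.mem_ofPred_eq]
      tauto
    · rw [Set.disjoint_left]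
      exact fun d hd hd' => hd'.2 hd.2.2
  have hsum' : ({d : k[X] | d ≠ 0 ∧ d.natDegree = n ∧ Good d}.ncard : ℝ) =
      (Pn k n).ncard - {d | d ∈ Pn k n ∧ ¬ Good d}.ncard := by
    rw [← hsum]
    push_cast
    ring
  change dist (_ / ((Pn k n).ncard : ℝ)) 1 < ε
  rw [hsum', Real.dist_eq, sub_div, div_self hpos.ne', sub_sub_cancel_left, abs_neg,
    abs_of_nonneg (by positivity), div_lt_iff₀ hpos]
  nlinarith

theorem exists_zeta (hq : Fintype.card k % 3 = 1) : ∃ ζ : k, IsPrimitiveRoot ζ 3 := by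
  have hc : 3 ∣ Fintype.card kˣ := by
    rw [Fintype.card_units]
    omega
  have : Fact (Nat.Prime 3) := ⟨Nat.prime_three⟩
  obtain ⟨u, hu⟩ := exists_prime_orderOf_dvd_card 3 hc
  refine ⟨u, ?_⟩
  rw [IsPrimitiveRoot.coe_units_iff, ← hu]
  exact IsPrimitiveRoot.orderOf u

variable {Ω : Type} [Field Ω] [Algebra (RatFunc k) Ω]

theorem kum_adjoin [Algebra k Ω] [IsScalarTower k (RatFunc k) Ω] {δ : Ω} (h0 : δ ≠ 0)
    {d : RatFunc k} (hδ : δ ^ 3 = algebraMap (RatFunc k) Ω d) :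
    Kum (k := k) (RatFunc k)⟮δ⟯ δ where
  ne := h0
  cube := ⟨d, hδ⟩
  fix g := by
    rw [mem_Hs]
    constructor
    · intro h
      exact h (IntermediateField.AdjoinSimple.gen _ δ)
    · intro h x
      obtain ⟨x, hx⟩ := x
      change g x = x
      induction hx using IntermediateField.adjoin_induction with
      | mem y hy => rw [Set.mem_singleton_iff.1 hy, h]
      | algebraMap y => exact g.commutes y
      | add y z _ _ ihy ihz => rw [map_add, ihy, ihz]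
      | inv y _ ih => rw [map_inv₀, ih]
      | mul y z _ _ ihy ihz => rw [map_mul, ihy, ihz]

/-- the general density statement: a property implied by triviality holds for almost all `d` -/
theorem density_of_triv [Algebra k Ω] [IsScalarTower k (RatFunc k) Ω] [IsSepClosure (RatFunc k) Ω]
    {ζ : k} (hζ : IsPrimitiveRoot ζ 3) (ℓ : Locs Ω ζ) (R : Rep (tame hζ ℓ)) (Good : k[X] → Prop)
    (h : ∀ d : k[X], d ≠ 0 → (∀ δ : Ω,
      δ ^ 3 = algebraMap (RatFunc k) Ω (algebraMap k[X] (RatFunc k) d) →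
        ∃ K, R.Triv (fun g => kum ζ δ (gal g)) K) → Good d) :
    Tendsto (fun n : ℕ => ({d : k[X] | d ≠ 0 ∧ d.natDegree = n ∧ Good d}.ncard : ℝ) /
      ({d : k[X] | d ≠ 0 ∧ d.natDegree = n}.ncard : ℝ)) atTop (𝓝 1) := by
  refine tendsto_of_density Good fun ε hε => ?_
  filter_upwards [triv_density hζ ℓ R hε] with n hn
  refine le_trans ?_ hn
  refine Nat.cast_le.2 (Set.ncard_le_ncard (fun d hd => ⟨hd.1, fun ht => hd.2 ?_⟩)
    ((Pn_finite n).subset fun d hd => hd.1))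
  refine h d hd.1.1 fun δ hδ => ?_
  obtain ⟨m, hm⟩ := kum_eq_xd hζ ℓ hd.1.1 hδ
  obtain ⟨K, hK⟩ := ht m
  exact ⟨K, by rwa [show (fun g => kum ζ δ (gal g)) = xd ℓ d m from funext hm]⟩

theorem main_ascent (hq : Fintype.card k % 3 = 1) {a1 a3 : k[X]} (h : Hyp a1 a3)
    [IsSepClosure (RatFunc k) Ω] [DecidableEq Ω] (hF : ShaFin (EC a1 a3) (RatFunc k) Ω) :
    Tendsto (fun n : ℕ => ({d : k[X] | d ≠ 0 ∧ d.natDegree = n ∧ ∀ δ : Ω,
      δ ^ 3 = algebraMap (RatFunc k) Ω (algebraMap k[X] (RatFunc k) d) →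
        ShaFin (EC a1 a3) (RatFunc k)⟮δ⟯ Ω}.ncard : ℝ) /
      ({d : k[X] | d ≠ 0 ∧ d.natDegree = n}.ncard : ℝ)) atTop (𝓝 1) := by
  letI : Algebra k Ω := ((algebraMap (RatFunc k) Ω).comp (algebraMap k (RatFunc k))).toAlgebra
  haveI : IsScalarTower k (RatFunc k) Ω := IsScalarTower.of_algebraMap_eq fun _ => rfl
  obtain ⟨ζ, hζ⟩ := exists_zeta hq
  let ℓ : Locs Ω ζ := fun v => (exists_loc hζ v).some
  obtain ⟨X0⟩ := exists_erep h hζ ℓ
  refine density_of_triv hζ ℓ X0.R _ fun d hd ht δ hδ => ?_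
  obtain ⟨K, hK⟩ := ht δ hδ
  have h0 : δ ≠ 0 := by
    rintro rfl
    rw [zero_pow (by norm_num), eq_comm, map_eq_zero, map_eq_zero_iff _ (RatFunc.algebraMap_injective k)] at hδ
    exact hd hδ
  have : FiniteDimensional (RatFunc k) (RatFunc k)⟮δ⟯ :=
    IntermediateField.adjoin.finiteDimensional (Algebra.IsIntegral.isIntegral δ)
  exact ascend h X0 (kum_adjoin h0 hδ) hK hF

end Pool.Agent.Smith
end
end

-- merged part: Pool.Agent.Work.MP_60d5ce_nt.Sm.SelB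
section
/-!
# The Selmer group does not grow
-/

namespace Pool.Agent.Smith

open scoped Classical IntermediateField Topology
open Polynomial Filter Pool.Agent.ShaAsc

/-- a primary torsion group with finite layers has finite quotients by multiples -/
theorem fin_quot {G : Type*} [AddCommGroup G] (n : ℕ) (ht : ∀ x : G, ∃ j : ℕ, n ^ j • x = 0)
    (hf : ∀ j : ℕ, {x : G | n ^ j • x = 0}.Finite) (a : ℕ) :
    ∃ S : Set G, S.Finite ∧ ∀ x, ∃ s ∈ S, ∃ y, x = s + n ^ a • y := by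
  let f : G →+ G := nsmulAddMonoidHom (n ^ a)
  have hfin : Finite (G ⧸ f.range) := by
    refine Finite.of_not_infinite fun hinf => ?_
    obtain ⟨T, hT⟩ := Infinite.exists_subset_card_eq (G ⧸ f.range) (Nat.card f.ker + 1)
    choose j hj using ht
    let m := T.sup fun t => j t.out
    let H : AddSubgroup G := (nsmulAddMonoidHom (n ^ m) : G →+ G).ker
    have : Finite H := (hf m).to_subtype
    have : Finite f.ker := (hf a).to_subtype
    let g : H →+ H := nsmulAddMonoidHom (n ^ a)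
    have h1 : Nat.card (H ⧸ g.range) = Nat.card g.ker := by
      have e1 := AddSubgroup.card_eq_card_quotient_mul_card_addSubgroup g.range
      have e2 := AddSubgroup.card_eq_card_quotient_mul_card_addSubgroup g.ker
      rw [Nat.card_congr (QuotientAddGroup.quotientKerEquivRange g).toEquiv, mul_comm] at e2
      exact Nat.eq_of_mul_eq_mul_right Nat.card_pos (e1.symm.trans e2)
    have h2 : Nat.card g.ker ≤ Nat.card f.ker :=
      Nat.card_le_card_of_injective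
        (fun x => (⟨x.1.1, congrArg Subtype.val (AddMonoidHom.mem_ker.1 x.2)⟩ : f.ker))
        fun x y h => Subtype.ext (Subtype.ext (congrArg (fun z : f.ker => (z : G)) h))
    have hm : ∀ t : T, t.1.out ∈ H := fun t => by
      obtain ⟨r, hr⟩ := Nat.exists_eq_add_of_le (Finset.le_sup (f := fun t => j t.out) t.2)
      change n ^ m • t.1.out = 0
      rw [show m = j t.1.out + r from hr, add_comm, pow_add, mul_smul, hj, smul_zero]
    have h3 : Nat.card T ≤ Nat.card (H ⧸ g.range) :=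
      Nat.card_le_card_of_injective (fun t => ((⟨t.1.out, hm t⟩ : H) : H ⧸ g.range)) fun s t h => by
        obtain ⟨y, hy⟩ := QuotientAddGroup.eq.1 h
        refine Subtype.ext ?_
        rw [← s.1.out_eq, ← t.1.out_eq]
        exact QuotientAddGroup.eq.2 ⟨y.1, congrArg Subtype.val hy⟩
    rw [Nat.card_eq_fintype_card, Fintype.card_coe] at h3
    omega
  refine ⟨Set.range fun t : G ⧸ f.range => t.out, Set.finite_range _, fun x => ?_⟩
  obtain ⟨y, hy⟩ := QuotientAddGroup.eq.1 (x : G ⧸ f.range).out_eq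
  exact ⟨_, ⟨_, rfl⟩, y, by rw [show n ^ a • y = _ from hy, add_neg_cancel_left]⟩

variable {k : Type} [Field k] [Fintype k] {Ω : Type} [Field Ω] [Algebra (RatFunc k) Ω]
  [IsSepClosure (RatFunc k) Ω] [DecidableEq Ω] {a1 a3 : k[X]}

section ext

variable [Algebra k Ω] [IsScalarTower k (RatFunc k) Ω] {ζ : k} {K' : Type} [Field K']
  [Algebra (RatFunc k) K'] [Algebra K' Ω] [IsScalarTower (RatFunc k) K' Ω]
  [FiniteDimensional (RatFunc k) K'] {hζ : IsPrimitiveRoot ζ 3} {ℓ : Locs Ω ζ} {δ : Ω}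

theorem sel_quot (h : Hyp a1 a3) (X0 : ERep a1 a3 hζ ℓ) (hK : Kum (k := k) K' δ) (a : ℕ) :
    ∃ S : Set ((Ω ≃ₐ[K'] Ω) → Pts (EC a1 a3) Ω), S.Finite ∧ ∀ c, InSel3 (EC a1 a3) c →
      ∃ s ∈ S, ∃ y, InSel3 (EC a1 a3) y ∧ c = s + 3 ^ a • y := by
  have : IsGalois K' Ω := IsGalois.tower_top_of_isGalois (RatFunc k) K' Ω
  have hsub : ∀ {c c' : (Ω ≃ₐ[K'] Ω) → Pts (EC a1 a3) Ω}, InSel3 (EC a1 a3) c →
      InSel3 (EC a1 a3) c' → InSel3 (EC a1 a3) (c - c') := fun ⟨h1, i, hi⟩ ⟨h2, j, hj⟩ =>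
    ⟨h1.sub h2, i + j, fun σ => by
      rw [Pi.sub_apply, smul_sub, pow_add, mul_smul, mul_smul, hj, smul_comm, hi]
      simp⟩
  have h0 : InSel3 (K := K') (EC a1 a3) (0 : (Ω ≃ₐ[K'] Ω) → Pts (EC a1 a3) Ω) := by
    refine ⟨?_, 0, fun _ => smul_zero _⟩
    have := Ascend_cob (K' := K') (W := EC a1 a3) (0 : Pts (EC a1 a3) Ω)
    simp only [map_zero, sub_zero] at this
    exact this
  let Z : AddSubgroup ((Ω ≃ₐ[K'] Ω) → Pts (EC a1 a3) Ω) :=
    { carrier := {c | InSel3 (EC a1 a3) c}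
      zero_mem' := h0
      neg_mem' := fun {c} hc => by simpa using hsub h0 hc
      add_mem' := fun {c c'} hc hc' => by simpa using hsub hc (hsub h0 hc') }
  obtain ⟨S, hS, hS'⟩ := fin_quot (G := Z) 3
    (fun c => c.2.2.imp fun j hj => Subtype.ext (funext hj))
    (fun j => Set.Finite.of_injOn (f := Subtype.val) (fun c hc =>
      And.intro c.2.1 (congrFun (congrArg Subtype.val hc))) Subtype.val_injective.injOn
        (fin_sel h X0 hK j)) a
  refine ⟨Subtype.val '' S, hS.image _, fun c hc => ?_⟩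
  obtain ⟨s, hs, y, hy⟩ := hS' ⟨c, hc⟩
  exact ⟨s.1, ⟨s, hs, rfl⟩, y.1, y.2, congrArg Subtype.val hy⟩

theorem cores_sel {c : (Ω ≃ₐ[K'] Ω) → Pts (EC a1 a3) Ω} (hc : InSel3 (EC a1 a3) c) :
    InSel3 (EC a1 a3) (cores (RatFunc k) (EC a1 a3) c) := by
  obtain ⟨p, hp⟩ := CharP.exists k
  have : Fact p.Prime := ⟨CharP.char_is_prime k p⟩
  have : CharP (RatFunc k) p := charP_of_injective_algebraMap (algebraMap k (RatFunc k)).injective p
  obtain ⟨h1, j, hj⟩ := hc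
  exact ⟨h1.cores p, j, fun g => by
    rw [← ff_sum, Finset.smul_sum, Finset.sum_eq_zero fun y _ => ff_tors hj g y]⟩

theorem sel_grow (h : Hyp a1 a3) (X0 : ERep a1 a3 hζ ℓ) (hK : Kum (k := k) K' δ) {K : ℕ}
    (hT : X0.R.Triv (fun g => kum ζ δ (gal g)) K) :
    ∃ S : Set ((Ω ≃ₐ[K'] Ω) → Pts (EC a1 a3) Ω), S.Finite ∧ ∀ c, InSel3 (EC a1 a3) c →
      ∃ s ∈ S, ∃ c0 : (Ω ≃ₐ[RatFunc k] Ω) → Pts (EC a1 a3) Ω, InSel3 (EC a1 a3) c0 ∧
        SameClass (EC a1 a3) c fun σ => s σ + c0 (σ.restrictScalars (RatFunc k)) := by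
  obtain ⟨S, hS, hS'⟩ := sel_quot h X0 hK (K + 3)
  refine ⟨S, hS, fun c hc => ?_⟩
  obtain ⟨s, hs, y, hy, rfl⟩ := hS' c hc
  obtain ⟨h1, i, hi⟩ := cores_sel hy
  obtain ⟨h2, j, hj⟩ := hy
  obtain ⟨Y, hY, hY'⟩ := kill X0 h hK hT h2 hj
  refine ⟨s, hs, 3 ^ (K + 2) • cores (RatFunc k) (EC a1 a3) y, ⟨h1.nsmul _, i, fun σ => by
    rw [Pi.smul_apply, smul_comm, hi, smul_zero]⟩, Y, j, hY, fun σ => ?_⟩
  rw [← hY' σ]
  simp only [ShaAsc.res, Pi.add_apply, Pi.smul_apply]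
  module

theorem sel_base (h : Hyp a1 a3) (X0 : ERep a1 a3 hζ ℓ) {K : ℕ} (hT : X0.R.Triv 0 K)
    {c : (Ω ≃ₐ[RatFunc k] Ω) → Pts (EC a1 a3) Ω} (hc : InSel3 (EC a1 a3) c) :
    SameClass (EC a1 a3) (3 ^ (K + 2) • c) 0 := by
  obtain ⟨h1, j, hj⟩ := hc
  obtain ⟨Y, hY, hY'⟩ := kill X0 h kum_base (Ascend_triv X0 hT) h1 hj
  have hr : ∀ σ, cores (RatFunc k) (EC a1 a3) c σ = c σ +
      (act (EC a1 a3) σ (∑ x : Xs (RatFunc k) (RatFunc k) Ω, c x.out) -
        ∑ x : Xs (RatFunc k) (RatFunc k) Ω, c x.out) := fun σ => by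
    have e := cor_res (s := fun x : Xs (RatFunc k) (RatFunc k) Ω => x.out) h1.1.2 σ
    rw [← Nat.card_eq_fintype_card, card_Xs, Module.finrank_self, one_smul] at e
    rw [← e, cores, cor_congr out_smul (g := c) fun g hg => ext0_of_mem _ (smul_x0_iff.1 hg)]
  have hZ : 3 ^ j • ∑ x : Xs (RatFunc k) (RatFunc k) Ω, c x.out = 0 := by
    rw [Finset.smul_sum, Finset.sum_eq_zero fun y _ => hj _]
  generalize ∑ x : Xs (RatFunc k) (RatFunc k) Ω, c x.out = Z at hr hZ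
  obtain ⟨t, ht⟩ : Odd (3 ^ j) := Odd.pow (by decide)
  refine ⟨-(t • (Y + 3 ^ (K + 2) • Z)), j, ?_, fun σ => ?_⟩
  · rw [smul_neg, smul_comm, smul_add, hY, smul_comm, hZ]
    simp
  · have e1 := hY' σ
    have e2 := hj σ
    rw [Ascend_res, hr] at e1
    rw [ht] at e2
    rw [map_neg, map_nsmul, map_add, map_nsmul, Pi.smul_apply, Pi.zero_apply]
    linear_combination (norm := module) (3 ^ (K + 2)) • e2 - t • e1

theorem sel_fin (h : Hyp a1 a3) (X0 : ERep a1 a3 hζ ℓ) (hK : Kum (k := k) K' δ) {K K0 : ℕ}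
    (hT : X0.R.Triv (fun g => kum ζ δ (gal g)) K) (hT0 : X0.R.Triv 0 K0) :
    ∃ S : Set ((Ω ≃ₐ[K'] Ω) → Pts (EC a1 a3) Ω), S.Finite ∧ ∀ c, InSel3 (EC a1 a3) c →
      ∃ s ∈ S, SameClass (EC a1 a3) c s := by
  obtain ⟨S, hS, hS'⟩ := sel_quot h X0 hK (K + 3 + (K0 + 2))
  refine ⟨S, hS, fun c hc => ?_⟩
  obtain ⟨s, hs, y, hy, rfl⟩ := hS' c hc
  obtain ⟨Z, i, hZ, hZ'⟩ := sel_base h X0 hT0 (cores_sel hy)
  obtain ⟨h2, j, hj⟩ := hy
  obtain ⟨Y, hY, hY'⟩ := kill X0 h hK hT h2 hj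
  refine ⟨s, hs, 3 ^ (K0 + 2) • Y + 3 ^ (K + 2) • Z, i + j, ?_, fun σ => ?_⟩
  · rw [smul_add, smul_comm, smul_comm (3 ^ (i + j)), pow_add 3 i j, mul_smul, hY, mul_comm,
      mul_smul, hZ]
    simp
  · have e1 := hY' σ
    have e2 := hZ' (σ.restrictScalars (RatFunc k))
    rw [← act_congr (σ := σ) (σ' := σ.restrictScalars (RatFunc k)) (fun _ => rfl)] at e2
    simp only [ShaAsc.res, Pi.add_apply, Pi.smul_apply, Pi.zero_apply, map_add, map_nsmul] at *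
    linear_combination (norm := module) (3 ^ (K0 + 2)) • e1 + (3 ^ (K + 2)) • e2

end ext

theorem main_gen (hq : Fintype.card k % 3 = 1) (h : Hyp a1 a3) (Good : Ω → Prop)
    (hG : ∀ [Algebra k Ω] [IsScalarTower k (RatFunc k) Ω] {ζ : k} {hζ : IsPrimitiveRoot ζ 3}
      {ℓ : Locs Ω ζ} (X0 : ERep a1 a3 hζ ℓ) (δ : Ω) [FiniteDimensional (RatFunc k) (RatFunc k)⟮δ⟯]
      (K : ℕ), Kum (k := k) (RatFunc k)⟮δ⟯ δ → X0.R.Triv (fun g => kum ζ δ (gal g)) K → Good δ) :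
    Tendsto (fun n : ℕ => ({d : k[X] | d ≠ 0 ∧ d.natDegree = n ∧ ∀ δ : Ω,
      δ ^ 3 = algebraMap (RatFunc k) Ω (algebraMap k[X] (RatFunc k) d) → Good δ}.ncard : ℝ) /
      ({d : k[X] | d ≠ 0 ∧ d.natDegree = n}.ncard : ℝ)) atTop (𝓝 1) := by
  let _ : Algebra k Ω := ((algebraMap (RatFunc k) Ω).comp (algebraMap k (RatFunc k))).toAlgebra
  have : IsScalarTower k (RatFunc k) Ω := IsScalarTower.of_algebraMap_eq fun _ => rfl
  obtain ⟨ζ, hζ⟩ := exists_zeta hq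
  let ℓ : Locs Ω ζ := fun v => (exists_loc hζ v).some
  obtain ⟨X0⟩ := exists_erep h hζ ℓ
  refine density_of_triv hζ ℓ X0.R _ fun d hd ht δ hδ => ?_
  obtain ⟨K, hK⟩ := ht δ hδ
  have h0 : δ ≠ 0 := by
    rintro rfl
    rw [zero_pow (by norm_num), eq_comm, map_eq_zero,
      map_eq_zero_iff _ (RatFunc.algebraMap_injective k)] at hδ
    exact hd hδ
  have : FiniteDimensional (RatFunc k) (RatFunc k)⟮δ⟯ :=
    IntermediateField.adjoin.finiteDimensional (Algebra.IsIntegral.isIntegral δ)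
  exact hG X0 δ K (kum_adjoin h0 hδ) hK

end Pool.Agent.Smith
end
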